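import Pool.Agent.Work.MP_b103ef_pos.Assembly

/-! # MP_b103ef_al (S02731): everything extends; the main theorem -/

set_option autoImplicit false

namespace Pool.NF

theorem all_ALL : Stmt_ALL := by
  intro L
  have h : ∀ n, EVst L n ∧ EXst L n ∧ EEst L n := by
    intro n
    induction n with
    | zero => exact ⟨all_EV0 L, all_EX0 L, all_EE0 L⟩
    | succ n ih =>
      exact ⟨all_EVS L n ih.1, all_EXS L n ih.1 ih.2.1 ih.2.2, all_EES L n ih.1 ih.2.1 ih.2.2⟩
  exact ⟨fun n => (h n).1, fun n => (h n).2.1, fun n => (h n).2.2⟩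

theorem all_MAIN : Stmt_MAIN := by
  rintro L _ ⟨N, _, h5, hm, I, f, hf⟩
  obtain ⟨D⟩ := all_KD L (all_ALL L)
  exact ⟨D.K, D.lat, D.mod, all_FIN L (all_ALL L) (all_SEP L N h5 hm I f hf) D⟩

end Pool.NF
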