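import Pool.Agent.Work.MP_b103ef_pos.Interface1

set_option autoImplicit false

open Classical

namespace Pool.NF

theorem AGR_box {J E : Type} [AddCommGroup E] [Module ℚ E] (F : Finset J)
    (C C' : J → Submodule ℚ E) (h : ∀ j ∈ F, C j = C' j) : box F C = box F C' := by
  ext v
  constructor
  · intro hv j
    refine ⟨fun hj => ?_, (hv j).2⟩
    rw [← h j hj]
    exact (hv j).1 hj
  · intro hv j
    refine ⟨fun hj => ?_, (hv j).2⟩
    rw [h j hj]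
    exact (hv j).1 hj

section

variable {L : Type} {S : Set L} {n : ℕ} {E : Type} [AddCommGroup E] [Module ℚ E] {M M' : Str L E}

theorem AGR_un (hM : Str.Agree S n M M') (t : Un L) (ht : t.Over S) : M.un t = M'.un t := by
  cases t with
  | x i l => exact hM.1 i ht l
  | tau Z r =>
    show (⨅ i ∈ Z, ⨅ (_ : r i = V5.i), M.x i 0) = ⨅ i ∈ Z, ⨅ (_ : r i = V5.i), M'.x i 0
    exact iInf_congr fun i => iInf_congr fun hi => iInf_congr fun _ => hM.1 i (ht hi) 0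
  | tau' Z r =>
    show (⨅ i ∈ Z, ⨅ (_ : r i = V5.i), M.x i 0) ⊓ (⨆ i ∈ Z, ⨆ (_ : r i = V5.o), M.x i 2) =
      (⨅ i ∈ Z, ⨅ (_ : r i = V5.i), M'.x i 0) ⊓ (⨆ i ∈ Z, ⨆ (_ : r i = V5.o), M'.x i 2)
    congr 1
    · exact iInf_congr fun i => iInf_congr fun hi => iInf_congr fun _ => hM.1 i (ht hi) 0
    · exact iSup_congr fun i => iSup_congr fun hi => iSup_congr fun _ => hM.1 i (ht hi) 2
  | u Z ψ => exact hM.2.1 Z ht ψ

theorem AGR_A (hM : Str.Agree S n M M') (j : Lab L) (hj : LOver S j) : M.A j = M'.A j :=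
  hM.1 j.2.1 hj.2 0

theorem AGR_B (hM : Str.Agree S n M M') (j : Lab L) (hj : LOver S j) : M.B j = M'.B j := by
  show M.x j.2.1 0 ⊓ M.x j.1 2 = M'.x j.2.1 0 ⊓ M'.x j.1 2
  rw [hM.1 j.2.1 hj.2 0, hM.1 j.1 hj.1 2]

theorem AGR_ev (hM : Str.Agree S n M M') (G : Finset (Lab L)) (hG : ∀ j ∈ G, LOver S j)
    (α : Tm L) (hα : α.Over S) (hr : α.rank ≤ n) : M.ev G α = M'.ev G α := by
  have hB : box G M.B = box G M'.B := AGR_box G _ _ fun j hj => AGR_B hM j (hG j hj)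
  induction α with
  | base F g =>
    show box F (fun j => M.B j ⊔ (M.un (g j) ⊓ M.A j)) ⊔ box G M.B =
      box F (fun j => M'.B j ⊔ (M'.un (g j) ⊓ M'.A j)) ⊔ box G M'.B
    rw [hB]
    congr 1
    refine AGR_box F _ _ fun j hj => ?_
    show M.B j ⊔ (M.un (g j) ⊓ M.A j) = M'.B j ⊔ (M'.un (g j) ⊓ M'.A j)
    rw [AGR_B hM j (hα j hj).1, AGR_A hM j (hα j hj).1, AGR_un hM _ (hα j hj).2]
  | inf α β iα iβ =>
    show M.ev G α ⊓ M.ev G β = M'.ev G α ⊓ M'.ev G β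
    rw [iα hα.1 (le_trans (le_max_left _ _) hr), iβ hα.2 (le_trans (le_max_right _ _) hr)]
  | sup α β iα iβ =>
    show M.ev G α ⊔ M.ev G β = M'.ev G α ⊔ M'.ev G β
    rw [iα hα.1 (le_trans (le_max_left _ _) hr), iβ hα.2 (le_trans (le_max_right _ _) hr)]
  | lk Z r j α β iα iβ =>
    show M.g (.lk Z r j α β) ⊔ box G M.B = M'.g (.lk Z r j α β) ⊔ box G M'.B
    rw [hB, hM.2.2 (.lk Z r j α β) trivial hα hr]
  | ek Z ψ j α β iα iβ =>
    show M.g (.ek Z ψ j α β) ⊔ box G M.B = M'.g (.ek Z ψ j α β) ⊔ box G M'.B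
    rw [hB, hM.2.2 (.ek Z ψ j α β) trivial hα hr]

end

theorem blk_AGR (h1 : Stmt_OVR) : Stmt_AGR := by
  intro L S n E _ _ M M' hM
  refine ⟨⟨fun i hi l => (hM.1 i hi l).symm, fun Z hZ ψ => (hM.2.1 Z hZ ψ).symm,
    fun σ h h' h'' => (hM.2.2 σ h h' h'').symm⟩, fun t ht => AGR_un hM t ht,
    fun j hj => ⟨AGR_A hM j hj, AGR_B hM j hj⟩, fun G hG α hα hr => AGR_ev hM G hG α hα hr, ?_⟩
  intro α β hα hβ hra hrb
  have hG : ∀ j ∈ α.vars ∪ β.vars, LOver S j := by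
    intro j hj
    rcases Finset.mem_union.1 hj with h | h
    · exact (h1 L α).1 S hα j h
    · exact (h1 L β).1 S hβ j h
  unfold Str.Le
  rw [AGR_ev hM _ hG α hα hra, AGR_ev hM _ hG β hβ hrb]

end Pool.NF
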