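import Pool.Agent.Work.MP_b103ef_pos.Interface3

/-!
# MP_b103ef_al: block AJ1
-/

set_option autoImplicit false

open Classical

namespace Pool.NF

namespace AJaux

variable {L : Type}

/-- monotonicity of boxes -/
theorem box_mono {J E : Type} [AddCommGroup E] [Module ℚ E] (F : Finset J)
    (C C' : J → Submodule ℚ E) (h : ∀ j ∈ F, C j ≤ C' j) : box F C ≤ box F C' := by
  intro v hv j
  exact ⟨fun hj => h j hj ((hv j).1 hj), fun hj => (hv j).2 hj⟩

/-- the empty box -/
theorem box_empty {J E : Type} [AddCommGroup E] [Module ℚ E] (C : J → Submodule ℚ E) :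
    box ∅ C = ⊥ := by
  rw [eq_bot_iff]
  intro v hv
  have : v = 0 := Finsupp.ext fun j => (hv j).2 (by simp)
  rw [this]; exact Submodule.zero_mem _

/-- the value of a term with one label -/
theorem ev_single {E : Type} [AddCommGroup E] [Module ℚ E] (M : Str L E) (j : Lab L)
    (t : Un L) (D : Submodule ℚ E) (hD : M.un t ⊓ M.A j ≤ D) (G : Finset (Lab L))
    (hG : j ∈ G) (hB : D ≤ M.B j) :
    M.ev G (.base {j} fun _ => t) = box G M.B := by
  show box {j} (fun j => M.B j ⊔ (M.un t ⊓ M.A j)) ⊔ box G M.B = box G M.B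
  apply sup_eq_right.2
  intro v hv j'
  by_cases hj : j' = j
  · subst hj
    refine ⟨fun _ => ?_, fun h => absurd hG h⟩
    have h1 := (hv j').1 (by simp)
    exact (sup_le le_rfl (hD.trans hB)) h1
  · have h0 : v j' = 0 := (hv j').2 (by simpa using hj)
    rw [h0]
    exact ⟨fun _ => Submodule.zero_mem _, fun _ => rfl⟩

/-- the value of the bottom term -/
theorem ev_bot {E : Type} [AddCommGroup E] [Module ℚ E] (M : Str L E) (G : Finset (Lab L)) :
    M.ev G Tm.bot = box G M.B := by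
  show box ∅ _ ⊔ box G M.B = box G M.B
  rw [box_empty, bot_sup_eq]

/-- `A_j ≤ B_j` -/
theorem le_AT {E : Type} [AddCommGroup E] [Module ℚ E] (M : Str L E) (x y : L) :
    M.Le (Tm.AT (x, y, 0)) Tm.bot ↔ M.x y 0 ≤ M.x x 2 := by
  constructor
  · intro h v hv
    have hG : ((x, y, 0) : Lab L) ∈
        (Tm.AT (x, y, 0) : Tm L).vars ∪ (Tm.bot : Tm L).vars := by
      simp [Tm.AT, Tm.vars]
    have h1 : Finsupp.single ((x, y, 0) : Lab L) v ∈
        M.ev ((Tm.AT (x, y, 0) : Tm L).vars ∪ (Tm.bot : Tm L).vars) (Tm.AT (x, y, 0)) := by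
      show _ ∈ box {(x, y, 0)} (fun j => M.B j ⊔ (M.un (.x y 0) ⊓ M.A j)) ⊔ box _ M.B
      apply Submodule.mem_sup_left
      intro j
      refine ⟨fun hj => ?_, fun hj => ?_⟩
      · rw [Finset.mem_singleton] at hj
        subst hj
        rw [Finsupp.single_eq_same]
        apply Submodule.mem_sup_right
        exact ⟨hv, hv⟩
      · rw [Finset.mem_singleton] at hj
        rw [Finsupp.single_eq_of_ne hj]
    have h2 := h h1
    rw [ev_bot] at h2
    have h3 := (h2 (x, y, 0)).1 hG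
    rw [Finsupp.single_eq_same] at h3
    exact h3.2
  · intro h
    have hG : ((x, y, 0) : Lab L) ∈
        (Tm.AT (x, y, 0) : Tm L).vars ∪ (Tm.bot : Tm L).vars := by
      simp [Tm.AT, Tm.vars]
    show M.ev _ (Tm.AT (x, y, 0)) ≤ M.ev _ Tm.bot
    rw [ev_bot]
    refine le_of_eq ?_
    exact ev_single M (x, y, 0) (.x y 0) (M.x y 0) inf_le_left _ hG (le_inf le_rfl h)

/-- vertex types and hitting types are different -/
theorem not_V_Hit {S : Set L} {φ : L → V5} (h : IsV S φ) (h' : Hit S φ) : False := by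
  obtain ⟨⟨x, hx, hx'⟩, -⟩ := h'
  rcases h x hx with h | h <;> rw [hx'] at h <;> cases h

end AJaux

open AJaux in
/-- block AJ1 -/
theorem blk_AJ1 (hB : Stmt_BND) : Stmt_AJ1 := by
  intro L S φ x y hx hy hφ hxy
  rintro (⟨hV, E, _, _, M, hM, hL⟩ | ⟨hH, V, P, Q, _, _, _, _, _, _, M, hM, hL⟩)
  · apply hL
    rw [le_AT]
    have hM' : VBase S φ M := hM
    rcases hV y hy with h | h
    · rw [((hM'.1 y hy).2 h).1]; exact bot_le
    · rw [((hM'.1 x hx).1 (hxy.trans h)).2]; exact le_top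
  · apply hL
    rw [le_AT]
    have hM' : EG 0 S φ V P Q M := hM
    have h1 := hB L S φ V P Q M hM' x hx
    have h2 := hB L S φ V P Q M hM' y hy
    rcases h : φ y with _ | _ | _ | _ | _
    · rw [(h2.2.2.2.1 h).1]; exact bot_le
    · exact (h2.1 h).1.trans (h1.1 (hxy.trans h)).2
    · exact (h2.2.1 h).1.trans (h1.2.1 (hxy.trans h)).2
    · exact ((h2.2.2.1 h).1.trans (inf_le_left.trans le_sup_left)).trans
        (h1.2.2.1 (hxy.trans h)).2
    · rw [(h1.2.2.2.2.1 (hxy.trans h)).2]; exact le_top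

end Pool.NF
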