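import Pool.Agent.Work.MP_b103ef_pos.B_AJ1

/-!
# MP_b103ef_al: block AJ2
-/

set_option autoImplicit false

open Classical

namespace Pool.NF

namespace AJaux

variable {L : Type}

/-- the strict order of the pentagon -/
theorem lt_cases {x y : V5} (h : x < y) :
    (x = .o ∧ y = .a) ∨ (x = .o ∧ y = .b) ∨ (x = .o ∧ y = .c) ∨ (x = .o ∧ y = .i) ∨
    (x = .a ∧ y = .b) ∨ (x = .a ∧ y = .i) ∨ (x = .b ∧ y = .i) ∨ (x = .c ∧ y = .i) := by
  have h1 : V5.sup' x y = y := h.le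
  have h2 : ¬ V5.sup' y x = x := h.not_ge
  revert h1 h2
  cases x <;> cases y <;> simp [V5.sup']

/-- the submodule of the flag -/
def hh : V5 → Submodule ℚ ℚ
  | .i => ⊤
  | .b => ⊤
  | _ => ⊥

/-- the submodule of the flag -/
def hp : V5 → Submodule ℚ ℚ
  | .i => ⊤
  | _ => ⊥

/-- the test structure -/
noncomputable def MT (φ : L → V5) : Str L (FE ℚ ℚ ℚ) where
  x k := fl (hh (φ k)) (hp (φ k)) (hp (φ k)) (φ k)
  u _ _ := ⊥
  g _ := ⊥

theorem mem_top (v : FE ℚ ℚ ℚ) : v ∈ (hO ⊤ ⊤ ⊤ : Submodule ℚ (FE ℚ ℚ ℚ)) := by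
  refine ⟨⟨?_, ?_⟩, ?_⟩
  · rw [SetLike.mem_coe, Submodule.mem_iInf]; intro c; trivial
  · trivial
  · trivial

theorem hO_bot {v : FE ℚ ℚ ℚ} (h : v ∈ (hO ⊥ ⊥ ⊥ : Submodule ℚ (FE ℚ ℚ ℚ))) (c : Co) :
    prC c v = 0 := by
  have h1 := h.1.1
  rw [SetLike.mem_coe, Submodule.mem_iInf] at h1
  exact h1 c

end AJaux

open AJaux in
/-- block AJ2 -/
theorem blk_AJ2 (hE : Stmt_EG0) (hA : Stmt_OKA) (hBB : Stmt_OKB) (hC : Stmt_OKC)
    (hO' : Stmt_OKO) : Stmt_AJ2 := by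
  intro L S φ x y hx hy hφ hxy
  rcases hφ with hV | hH
  · left
    refine ⟨hV, ℚ, inferInstance, inferInstance,
      ⟨fun k _ => if φ k = V5.i then ⊤ else ⊥, fun _ _ => ⊥, fun _ => ⊥⟩, ?_, ?_⟩
    · refine ⟨fun k hk => ⟨fun h => ⟨rfl, ?_⟩, fun h => ⟨?_, rfl⟩⟩, fun Z hZ ψ => rfl⟩
      · exact if_pos h
      · exact if_neg (by rw [h]; decide)
    · rw [le_AT]
      have hxy' : φ x = V5.o ∧ φ y = V5.i := by
        rcases lt_cases hxy with ⟨h1, h2⟩ | ⟨h1, h2⟩ | ⟨h1, h2⟩ | ⟨h1, h2⟩ | ⟨h1, h2⟩ |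
          ⟨h1, h2⟩ | ⟨h1, h2⟩ | ⟨h1, h2⟩ <;>
        rcases hV y hy with h | h <;> rw [h2] at h <;> first | (cases h; done) | skip
        · exact ⟨h1, h2⟩
        all_goals
          rcases hV x hx with h | h <;> rw [h1] at h <;> cases h
      obtain ⟨hx', hy'⟩ := hxy'
      show ¬ ((if φ y = V5.i then (⊤ : Submodule ℚ ℚ) else ⊥) ≤
        if φ x = V5.i then (⊤ : Submodule ℚ ℚ) else ⊥)
      rw [if_pos hy', if_neg (by rw [hx']; decide)]
      intro h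
      have : (1 : ℚ) ∈ (⊥ : Submodule ℚ ℚ) := h trivial
      exact one_ne_zero ((Submodule.mem_bot ℚ).1 this)
  · right
    refine ⟨hH, ℚ, ℚ, ℚ, inferInstance, inferInstance, inferInstance, inferInstance,
      inferInstance, inferInstance, MT φ, ?_, ?_⟩
    · show EG 0 S φ ℚ ℚ ℚ (MT φ)
      rw [hE]
      refine ⟨fun k hk => ?_, fun Z hZ ψ hψ => rfl⟩
      show OKx (φ k) (fl (hh (φ k)) (hp (φ k)) (hp (φ k)) (φ k))
      rcases φ k with _ | _ | _ | _ | _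
      · exact (hO' ℚ ℚ ℚ _ _ _).1
      · exact hA ℚ ℚ ℚ _ _ _
      · exact hBB ℚ ℚ ℚ _ _ _
      · exact hC ℚ ℚ ℚ _ _ _
      · exact (hO' ℚ ℚ ℚ _ _ _).2
    · rw [le_AT]
      show ¬ (fl (hh (φ y)) (hp (φ y)) (hp (φ y)) (φ y) 0 ≤
        fl (hh (φ x)) (hp (φ x)) (hp (φ x)) (φ x) 2)
      intro h
      rcases lt_cases hxy with ⟨h1, h2⟩ | ⟨h1, h2⟩ | ⟨h1, h2⟩ | ⟨h1, h2⟩ | ⟨h1, h2⟩ |
          ⟨h1, h2⟩ | ⟨h1, h2⟩ | ⟨h1, h2⟩ <;> rw [h1, h2] at h <;> clear h1 h2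
      · -- o, a
        have h1 : ((Finsupp.single 0 1, 0, 0), 0, 0, 0) ∈
            (flA (hh .a) (hp .a) (hp .a) 0 : Submodule ℚ (FE ℚ ℚ ℚ)) := by
          simp [flA, prR, prX, prP, prV, prY]
        have h2 := hO_bot (h h1) (.T 0)
        simp [prC, prX] at h2
      · -- o, b
        have h1 : ((0, Finsupp.single 0 1, 0), 0, 0, 0) ∈
            (flB (hh .b) (hp .b) (hp .b) 0 : Submodule ℚ (FE ℚ ℚ ℚ)) := by
          simp [flB, prT, prX, prP, prV, prY]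
        have h2 := hO_bot (h h1) (.R 0)
        simp [prC, prX] at h2
      · -- o, c
        have h1 : ((0, 0, 0), 1, - Finsupp.single 0 1, 0) ∈
            (flC (hp .c) (hp .c) 0 : Submodule ℚ (FE ℚ ℚ ℚ)) := by
          simp [flC, prY1, prX, prQ, prV, prY]
        have h2 := hO_bot (h h1) .Z
        simp [prC, prV] at h2
      · -- o, i
        have h2 := hO_bot (h (mem_top ((0, 0, 0), 1, 0, 0))) .Z
        simp [prC, prV] at h2
      · -- a, b
        have h1 : ((0, 0, 0), 1, 0, 0) ∈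
            (flB (hh .b) (hp .b) (hp .b) 0 : Submodule ℚ (FE ℚ ℚ ℚ)) := by
          simp [flB, prT, prX, prP, prV, prY, hh]
        have h2 := h h1
        simp [fl, flA, hh, hp, prV] at h2
      · -- a, i
        have h2 := h (mem_top ((0, 0, 0), 1, 0, 0))
        simp [fl, flA, hh, hp, prV] at h2
      · -- b, i
        have h2 := h (mem_top ((0, 0, 0), 0, 0, 1))
        simp [fl, flB, hh, hp, prQ, prY] at h2
      · -- c, i
        have h2 := h (mem_top ((0, 0, 1), 0, 0, 0))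
        have h3 : (flC (hp .c) (hp .c) 2 : Submodule ℚ (FE ℚ ℚ ℚ)) ≤ LinearMap.ker prP := by
          refine sup_le ?_ ?_
          · intro v hv
            exact hv.1.2
          · rintro v ⟨w, rfl⟩
            simp [incK, prP, prX, incV, incX, incY, mS, mT]
        have h4 := h3 h2
        simp [prP, prX] at h4

end Pool.NF
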