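import Pool.Agent.Work.MP_b103ef_pos.Interface3

/-!
# MP_b103ef_al: block BND (helper53): bounds for the flags in frames
-/

set_option autoImplicit false

open Classical

namespace Pool.NF

section BNDaux

variable {V P Q : Type} [AddCommGroup V] [Module ℚ V] [AddCommGroup P] [Module ℚ P]
  [AddCommGroup Q] [Module ℚ Q]

theorem BND_le3 (hF : Stmt_FID) {U W : Submodule ℚ (FE V P Q)}
    (h1 : U ≤ U.comap (incX.comp prX)) (h2 : U ≤ U.comap (incV.comp prV))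
    (h3 : U ≤ U.comap (incY.comp prY)) (k1 : U.comap incX ≤ W.comap incX)
    (k2 : U.comap incV ≤ W.comap incV) (k3 : U.comap incY ≤ W.comap incY) : U ≤ W := by
  intro v hv
  have e := (hF V P Q).2.2.2.2.1.1 v
  rw [← e]
  exact W.add_mem (k1 (h1 hv)) (W.add_mem (k2 (h2 hv)) (k3 (h3 hv)))

theorem BND_le2 (hF : Stmt_FID) {U W : Submodule ℚ (FE V P Q)}
    (h1 : U ≤ U.comap (incI.comp prI)) (h2 : U ≤ U.comap (incK.comp prK))
    (k1 : U.comap incI ≤ W.comap incI) (k2 : U.comap incK ≤ W.comap incK) : U ≤ W := by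
  intro v hv
  have e := (hF V P Q).2.2.2.2.1.2.1 v
  rw [← e]
  exact W.add_mem (k1 (h1 hv)) (k2 (h2 hv))

theorem BND_le2' (hF : Stmt_FID) {U W : Submodule ℚ (FE V P Q)}
    (h1 : U ≤ U.comap (incI'.comp prI')) (h2 : U ≤ U.comap (incK'.comp prK'))
    (k1 : U.comap incI' ≤ W.comap incI') (k2 : U.comap incK' ≤ W.comap incK') : U ≤ W := by
  intro v hv
  have e := (hF V P Q).2.2.2.2.1.2.2 v
  rw [← e]
  exact W.add_mem (k1 (h1 hv)) (k2 (h2 hv))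

theorem BND_range {E F : Type} [AddCommGroup E] [Module ℚ E] [AddCommGroup F] [Module ℚ F]
    (f : F →ₗ[ℚ] E) (U : Submodule ℚ F) : U ≤ (LinearMap.range f).comap f :=
  fun v _ => ⟨v, rfl⟩

theorem BND_top {E F : Type} [AddCommGroup E] [Module ℚ E] [AddCommGroup F] [Module ℚ F]
    (f : F →ₗ[ℚ] E) (U : Submodule ℚ E) (h : U.comap f = ⊤) : LinearMap.range f ≤ U := by
  rintro _ ⟨v, rfl⟩
  have : v ∈ U.comap f := by rw [h]; trivial
  exact this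

end BNDaux

theorem blk_BND (hF : Stmt_FID) : Stmt_BND := by
  intro L S φ V P Q _ _ _ _ _ _ M hM k hk
  obtain ⟨⟨⟨a1, a2, a3, a4, a5, a6⟩, ⟨b1, b2, b3, b4⟩, ⟨c1, c2, c3, c4⟩, -⟩, -⟩ := hM
  -- the chain conditions of the parts
  have ch : ∀ (S' : Set L) (ρ : L → V5) (F : Type) [AddCommGroup F] [Module ℚ F]
      (N : Str L F), VG 0 S' ρ F N → k ∈ S' → (ρ k = V5.o ∨ ρ k = V5.i) →
      N.x k 0 ≤ N.x k 1 ∧ N.x k 1 ≤ N.x k 2 := by
    intro S' ρ F _ _ N hN hk' hρ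
    rcases hρ with hρ | hρ
    · obtain ⟨h1, h2⟩ := (hN.1 k hk').2 hρ
      rw [h1, h2]
      exact ⟨bot_le, le_refl _⟩
    · obtain ⟨h1, h2⟩ := (hN.1 k hk').1 hρ
      rw [h1, h2]
      exact ⟨le_refl _, le_top⟩
  have hps : ∀ v : V5, ps v = V5.o ∨ ps v = V5.i := by intro v; cases v <;> simp [ps]
  have hpp : ∀ v : V5, pp v = V5.o ∨ pp v = V5.i := by intro v; cases v <;> simp [pp]
  have hpq : ∀ v : V5, pq v = V5.o ∨ pq v = V5.i := by intro v; cases v <;> simp [pq]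
  have hchain : M.x k 0 ≤ M.x k 1 ∧ M.x k 1 ≤ M.x k 2 := by
    by_cases hc : φ k = V5.c
    · have hkB : k ∈ dB S φ := ⟨hk, by rw [hc]; simp⟩
      have e1 := ch _ _ _ _ b3 hkB (hpp _)
      have e2 := ch _ _ _ _ b4 hkB (hpq _)
      exact ⟨BND_le2 hF (b1.1 k hkB 0) (b2.1 k hkB 0) e1.1 e2.1,
        BND_le2 hF (b1.1 k hkB 1) (b2.1 k hkB 1) e1.2 e2.2⟩
    · have hkC : k ∈ dC S φ := ⟨hk, hc⟩
      have e1 := ch _ _ _ _ a4 hkC (hpp _)
      have e2 := ch _ _ _ _ a5 hkC (hps _)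
      have e3 := ch _ _ _ _ a6 hkC (hpq _)
      exact ⟨BND_le3 hF (a1.1 k hkC 0) (a2.1 k hkC 0) (a3.1 k hkC 0) e1.1 e2.1 e3.1,
        BND_le3 hF (a1.1 k hkC 1) (a2.1 k hkC 1) (a3.1 k hkC 1) e1.2 e2.2 e3.2⟩
  refine ⟨fun h => ?_, fun h => ?_, fun h => ?_, fun h => ?_, fun h => ?_, hchain.1, hchain.2⟩
  · -- type `a`
    have hkC : k ∈ dC S φ := ⟨hk, by rw [h]; simp⟩
    have e1 := (a4.1 k hkC).1 (by simp [h, pp])
    have e2 := (a5.1 k hkC).2 (by simp [h, ps])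
    have e3 := (a6.1 k hkC).2 (by simp [h, pq])
    refine ⟨BND_le3 hF (a1.1 k hkC 0) (a2.1 k hkC 0) (a3.1 k hkC 0) (BND_range _ _) ?_ ?_,
      BND_top _ _ e1.2⟩
    · exact (le_of_eq e2.1).trans bot_le
    · exact (le_of_eq e3.1).trans bot_le
  · -- type `b`
    have hkC : k ∈ dC S φ := ⟨hk, by rw [h]; simp⟩
    have e1 := (a4.1 k hkC).1 (by simp [h, pp])
    have e2 := (a5.1 k hkC).1 (by simp [h, ps])
    have e3 := (a6.1 k hkC).2 (by simp [h, pq])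
    refine ⟨BND_le3 hF (a1.1 k hkC 0) (a2.1 k hkC 0) (a3.1 k hkC 0) ?_ ?_ ?_,
      sup_le (BND_top _ _ e1.2) (BND_top _ _ e2.2)⟩
    · exact (BND_range _ _).trans (Submodule.comap_mono le_sup_left)
    · exact (BND_range _ _).trans (Submodule.comap_mono le_sup_right)
    · exact (le_of_eq e3.1).trans bot_le
  · -- type `c`
    have hkB : k ∈ dB S φ := ⟨hk, by rw [h]; simp⟩
    have hkA : k ∈ dA S φ := ⟨hk, by rw [h]; simp⟩
    have e1 := (b3.1 k hkB).2 (by simp [h, pp])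
    have e2 := (b4.1 k hkB).1 (by simp [h, pq])
    have f1 := (c3.1 k hkA).2 (by simp [h, pp])
    have f2 := (c4.1 k hkA).1 (by simp [h, pq])
    refine ⟨le_inf ?_ ?_, sup_le (BND_top _ _ e2.2) (BND_top _ _ f2.2)⟩
    · exact BND_le2 hF (b1.1 k hkB 0) (b2.1 k hkB 0) ((le_of_eq e1.1).trans bot_le)
        (BND_range _ _)
    · exact BND_le2' hF (c1.1 k hkA 0) (c2.1 k hkA 0) ((le_of_eq f1.1).trans bot_le)
        (BND_range _ _)
  · -- type `o`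
    have hkC : k ∈ dC S φ := ⟨hk, by rw [h]; simp⟩
    have e1 := (a4.1 k hkC).2 (by simp [h, pp])
    have e2 := (a5.1 k hkC).2 (by simp [h, ps])
    have e3 := (a6.1 k hkC).2 (by simp [h, pq])
    refine ⟨le_antisymm ?_ bot_le, le_antisymm ?_ hchain.2⟩
    · exact BND_le3 hF (a1.1 k hkC 0) (a2.1 k hkC 0) (a3.1 k hkC 0)
        ((le_of_eq e1.1).trans bot_le) ((le_of_eq e2.1).trans bot_le)
        ((le_of_eq e3.1).trans bot_le)
    · exact BND_le3 hF (a1.1 k hkC 2) (a2.1 k hkC 2) (a3.1 k hkC 2)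
        (le_of_eq e1.2) (le_of_eq e2.2) (le_of_eq e3.2)
  · -- type `i`
    have hkC : k ∈ dC S φ := ⟨hk, by rw [h]; simp⟩
    have e1 := (a4.1 k hkC).1 (by simp [h, pp])
    have e2 := (a5.1 k hkC).1 (by simp [h, ps])
    have e3 := (a6.1 k hkC).1 (by simp [h, pq])
    refine ⟨le_antisymm hchain.1 ?_, le_antisymm le_top ?_⟩
    · exact BND_le3 hF (a1.1 k hkC 1) (a2.1 k hkC 1) (a3.1 k hkC 1)
        (le_of_eq e1.1.symm) (le_of_eq e2.1.symm) (le_of_eq e3.1.symm)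
    · intro v _
      have e := (hF V P Q).2.2.2.2.1.1 v
      rw [← e]
      exact (M.x k 2).add_mem (BND_top _ _ e1.2 ⟨_, rfl⟩)
        ((M.x k 2).add_mem (BND_top _ _ e2.2 ⟨_, rfl⟩) (BND_top _ _ e3.2 ⟨_, rfl⟩))

end Pool.NF
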