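import Pool.Agent.Work.MP_b103ef_pos.Interface3

/-! # Block CLZ (helper52): a pair closed at all types of `Z` is closed everywhere -/

set_option autoImplicit false

open Classical

namespace Pool.NF

theorem blk_CLZ (h1 : Stmt_NCI) (h2 : Stmt_NCH) : Stmt_CLZ := by
  intro L _ hA Z α β hα hβ hcl φ hφ hN
  have hi := (h1 L hA Z Set.univ φ α β (max α.rank β.rank) (Set.subset_univ _) hα hβ
    (le_max_left _ _) (le_max_right _ _)).2.2.2
  rcases hφ.2.2 with hV | hH
  · exact hcl φ ((hi (Or.inl hV)).mpr hN)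
  · by_cases hZ : Hit Z φ
    · exact hcl φ ((hi (Or.inr hZ)).mpr hN)
    · obtain ⟨g1, g2, -, -⟩ := h2 L hA Z Set.univ φ α β (Set.subset_univ _) hH hα hβ
      by_cases hc : ∀ z ∈ Z, φ z ≠ V5.c
      · rcases (g1 hc).mp hN with h | h | h <;> exact hcl _ h
      · have : (∀ z ∈ Z, φ z ≠ V5.b) ∨ (∀ z ∈ Z, φ z ≠ V5.a) := by
          by_contra hcon
          push Not at hcon hc
          exact hZ ⟨hcon.2, hcon.1, hc⟩
        rcases (g2 this).mp hN with h | h <;> exact hcl _ h

end Pool.NF
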