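import Pool.Agent.Work.MP_b103ef_pos.Interface2

/-!
# MP_b103ef_al (S02731): block CRD
-/

set_option autoImplicit false

open Classical

namespace Pool.NF

private theorem crd_prod {A B : Type} {κ : Cardinal.{0}} (hκ : Cardinal.aleph0 ≤ κ)
    (hA : Cardinal.mk A ≤ κ) (hB : Cardinal.mk B ≤ κ) : Cardinal.mk (A × B) ≤ κ := by
  rw [Cardinal.mk_prod, Cardinal.lift_id, Cardinal.lift_id]
  calc Cardinal.mk A * Cardinal.mk B ≤ κ * κ := mul_le_mul' hA hB
    _ = κ := Cardinal.mul_eq_self hκ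

private theorem crd_list {X : Type} {κ : Cardinal.{0}} (hκ : Cardinal.aleph0 ≤ κ)
    (hX : Cardinal.mk X ≤ κ) : Cardinal.mk (List X) ≤ κ :=
  (Cardinal.mk_list_le_max X).trans (max_le hκ hX)

private theorem crd_sigma {ι : Type} {F : ι → Type} {κ : Cardinal.{0}}
    (hκ : Cardinal.aleph0 ≤ κ) (hι : Cardinal.mk ι ≤ κ) (hF : ∀ a, Cardinal.mk (F a) ≤ κ) :
    Cardinal.mk (Σ a, F a) ≤ κ := by
  rw [Cardinal.mk_sigma]
  calc (Cardinal.sum fun a => Cardinal.mk (F a)) ≤ Cardinal.sum fun _ : ι => κ :=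
        Cardinal.sum_le_sum _ _ hF
    _ = Cardinal.mk ι * κ := Cardinal.sum_const' ι κ
    _ ≤ κ * κ := mul_le_mul_left hι κ
    _ = κ := Cardinal.mul_eq_self hκ

private theorem crd_dfin {ι : Type} {F : ι → Type} [∀ a, AddCommGroup (F a)] {κ : Cardinal.{0}}
    (hκ : Cardinal.aleph0 ≤ κ) (hι : Cardinal.mk ι ≤ κ) (hF : ∀ a, Cardinal.mk (F a) ≤ κ) :
    Cardinal.mk (Π₀ a, F a) ≤ κ := by
  refine le_trans ?_ (crd_list hκ (crd_sigma hκ hι hF))
  refine Cardinal.mk_le_of_injective (f := fun f : Π₀ a, F a =>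
    f.support.toList.map fun a => (⟨a, f a⟩ : Σ a, F a)) ?_
  have key : ∀ f g : Π₀ a, F a, (f.support.toList.map fun a => (⟨a, f a⟩ : Σ a, F a)) =
      (g.support.toList.map fun a => (⟨a, g a⟩ : Σ a, F a)) → ∀ a, f a ≠ 0 → f a = g a := by
    intro f g h a ha
    have h1 : (⟨a, f a⟩ : Σ a, F a) ∈ (f.support.toList.map fun a => (⟨a, f a⟩ : Σ a, F a)) := by
      rw [List.mem_map]
      exact ⟨a, by simpa using ha, rfl⟩
    rw [h, List.mem_map] at h1
    obtain ⟨b, _, hb⟩ := h1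
    have hab : b = a := congrArg Sigma.fst hb
    subst hab
    exact (eq_of_heq (Sigma.mk.inj hb).2).symm
  intro f g h
  ext a
  by_cases ha : f a = 0
  · by_cases hb : g a = 0
    · rw [ha, hb]
    · exact (key g f h.symm a hb).symm
  · exact key f g h a ha

private theorem crd_fin {J X : Type} [Zero X] {κ : Cardinal.{0}}
    (hκ : Cardinal.aleph0 ≤ κ) (hJ : Cardinal.mk J ≤ κ) (hX : Cardinal.mk X ≤ κ) :
    Cardinal.mk (J →₀ X) ≤ κ := by
  refine le_trans ?_ (crd_list hκ (crd_prod hκ hJ hX))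
  refine Cardinal.mk_le_of_injective (f := fun f : J →₀ X =>
    f.support.toList.map fun a => ((a, f a) : J × X)) ?_
  have key : ∀ f g : J →₀ X, (f.support.toList.map fun a => ((a, f a) : J × X)) =
      (g.support.toList.map fun a => ((a, g a) : J × X)) → ∀ a, f a ≠ 0 → f a = g a := by
    intro f g h a ha
    have h1 : ((a, f a) : J × X) ∈ (f.support.toList.map fun a => ((a, f a) : J × X)) := by
      rw [List.mem_map]
      exact ⟨a, by simpa using ha, rfl⟩
    rw [h, List.mem_map] at h1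
    obtain ⟨b, _, hb⟩ := h1
    have hab : b = a := congrArg Prod.fst hb
    subst hab
    exact (congrArg Prod.snd hb).symm
  intro f g h
  ext a
  by_cases ha : f a = 0
  · by_cases hb : g a = 0
    · rw [ha, hb]
    · exact (key g f h.symm a hb).symm
  · exact key f g h a ha

private theorem crd_nat {X : Type} [Zero X] {κ : Cardinal.{0}}
    (hκ : Cardinal.aleph0 ≤ κ) (hX : Cardinal.mk X ≤ κ) : Cardinal.mk (ℕ →₀ X) ≤ κ :=
  crd_fin hκ ((Cardinal.mk_nat).le.trans hκ) hX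

private theorem crd_ext {V P Q V' P' Q' : Type} [AddCommGroup V] [Module ℚ V] [AddCommGroup P]
    [Module ℚ P] [AddCommGroup Q] [Module ℚ Q] [AddCommGroup V'] [Module ℚ V'] [AddCommGroup P']
    [Module ℚ P'] [AddCommGroup Q'] [Module ℚ Q'] (x y : FE (V × V') (P × P') (Q × Q'))
    (h1 : mapE (LinearMap.fst ℚ V V') (LinearMap.fst ℚ P P') (LinearMap.fst ℚ Q Q') x =
      mapE (LinearMap.fst ℚ V V') (LinearMap.fst ℚ P P') (LinearMap.fst ℚ Q Q') y)
    (h2 : mapE (LinearMap.snd ℚ V V') (LinearMap.snd ℚ P P') (LinearMap.snd ℚ Q Q') x =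
      mapE (LinearMap.snd ℚ V V') (LinearMap.snd ℚ P P') (LinearMap.snd ℚ Q Q') y) :
    x = y := by
  have hf : ∀ a b : ℕ →₀ (V × V'), lift (LinearMap.fst ℚ V V') a = lift (LinearMap.fst ℚ V V') b →
      lift (LinearMap.snd ℚ V V') a = lift (LinearMap.snd ℚ V V') b → a = b := by
    intro a b e1 e2
    refine Finsupp.ext fun n => Prod.ext ?_ ?_
    · exact DFunLike.congr_fun e1 n
    · exact DFunLike.congr_fun e2 n
  refine Prod.ext (Prod.ext ?_ (Prod.ext ?_ ?_)) (Prod.ext ?_ (Prod.ext ?_ ?_))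
  · exact hf _ _ (congrArg (fun z => z.1.1) h1) (congrArg (fun z => z.1.1) h2)
  · exact hf _ _ (congrArg (fun z => z.1.2.1) h1) (congrArg (fun z => z.1.2.1) h2)
  · exact Prod.ext (congrArg (fun z => z.1.2.2) h1) (congrArg (fun z => z.1.2.2) h2)
  · exact Prod.ext (congrArg (fun z => z.2.1) h1) (congrArg (fun z => z.2.1) h2)
  · exact hf _ _ (congrArg (fun z => z.2.2.1) h1) (congrArg (fun z => z.2.2.1) h2)
  · exact Prod.ext (congrArg (fun z => z.2.2.2) h1) (congrArg (fun z => z.2.2.2) h2)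

theorem blk_CRD : Stmt_CRD := by
  refine ⟨?_, ?_, ?_, ?_, ?_⟩
  · intro J E F _ _ _ _ inc hinc
    refine Cardinal.mk_le_of_injective (f := lift (J := J) inc) ?_
    intro f g h
    refine Finsupp.ext fun j => hinc ?_
    exact DFunLike.congr_fun h j
  · intro J E F _ _ κ hκ hE hF
    refine le_trans ?_ (crd_prod hκ hE hF)
    refine Cardinal.mk_le_of_injective (f := fun f : J →₀ (E × F) =>
      (f.mapRange Prod.fst rfl, f.mapRange Prod.snd rfl)) ?_
    intro f g h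
    refine Finsupp.ext fun j => Prod.ext ?_ ?_
    · exact DFunLike.congr_fun (congrArg Prod.fst h) j
    · exact DFunLike.congr_fun (congrArg Prod.snd h) j
  · intro J V P Q V' P' Q' _ _ _ _ _ _ _ _ _ _ _ _ κ hκ h1 h2
    refine le_trans ?_ (crd_prod hκ h1 h2)
    refine Cardinal.mk_le_of_injective (f := fun f : J →₀ FE (V × V') (P × P') (Q × Q') =>
      (lift (mapE (LinearMap.fst ℚ V V') (LinearMap.fst ℚ P P') (LinearMap.fst ℚ Q Q')) f,
       lift (mapE (LinearMap.snd ℚ V V') (LinearMap.snd ℚ P P') (LinearMap.snd ℚ Q Q')) f)) ?_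
    intro f g h
    refine Finsupp.ext fun j => crd_ext _ _ ?_ ?_
    · exact DFunLike.congr_fun (congrArg Prod.fst h) j
    · exact DFunLike.congr_fun (congrArg Prod.snd h) j
  · intro J ι F _ κ hκ hJ hι hF
    exact ⟨crd_fin hκ hJ (crd_dfin hκ hι hF), crd_dfin hκ hι hF⟩
  · intro J V P Q _ _ _ _ _ _ κ hκ hJ hV hP hQ
    refine crd_fin hκ hJ ?_
    refine crd_prod hκ (crd_prod hκ (crd_nat hκ hV) (crd_prod hκ (crd_nat hκ hV) hP))
      (crd_prod hκ hV (crd_prod hκ (crd_nat hκ hV) hQ))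

end Pool.NF
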