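import Pool.Agent.Work.MP_b103ef_pos.Interface1

set_option autoImplicit false

open Classical

/-! Block CST: nothing is nonzero at a constant vertex type. -/

namespace Pool.NF

theorem CST_base {L : Type} (S : Set L) (ρ : L → V5) (E : Type) [AddCommGroup E] [Module ℚ E]
    (M : Str L E) : ∀ n : ℕ, VG n S ρ E M → VBase S ρ M
  | 0, h => h
  | n + 1, h => CST_base S ρ E M n h.1

theorem blk_CST (hVSN : Stmt_VSN) (hSAN : Stmt_SAN) (hOVR : Stmt_OVR) : Stmt_CST := by
  intro L S ρ n hc hV α β hα hβ hαr hβr hNC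
  obtain ⟨E, i1, i2, M, hM, hnot⟩ := hNC
  apply hnot
  have hbase := CST_base S ρ E M n hM
  have h1 := (hSAN L S n E M (hVSN L S ρ n E M hM)).1
  have hA := (h1 α hα hαr (α.vars ∪ β.vars) Finset.subset_union_left).2.1
  have hB := (h1 β hβ hβr (α.vars ∪ β.vars) Finset.subset_union_right).1
  have hover : ∀ j ∈ α.vars ∪ β.vars, LOver S j := by
    intro j hj
    rcases Finset.mem_union.mp hj with h | h
    · exact (hOVR L α).1 S hα j h
    · exact (hOVR L β).1 S hβ j h
  have hAB : ∀ j, LOver S j → M.A j ≤ M.B j := by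
    intro j hj
    have hx := (hbase.1 j.2.1 hj.2)
    have hy := (hbase.1 j.1 hj.1)
    rcases hV j.2.1 hj.2 with h | h
    · have h0 : M.x j.2.1 0 = ⊥ := (hx.2 h).1
      show M.x j.2.1 0 ≤ _
      rw [h0]
      exact bot_le
    · have h2 : ρ j.1 = V5.i := by rw [hc j.1 hj.1 j.2.1 hj.2]; exact h
      have h3 : M.x j.1 2 = ⊤ := (hy.1 h2).2
      show M.x j.2.1 0 ≤ M.x j.2.1 0 ⊓ M.x j.1 2
      rw [h3, inf_top_eq]
  refine hA.trans (le_trans ?_ hB)
  intro v hv j
  have hvj := hv j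
  exact ⟨fun hj => hAB j (hover j hj) (hvj.1 hj), hvj.2⟩

end Pool.NF
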