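import Pool.Agent.Work.MP_b103ef_pos.Interface2

set_option autoImplicit false

open Classical

namespace Pool.NF

theorem D01.pull_pull {L E F G : Type} [AddCommGroup E] [Module ℚ E] [AddCommGroup F]
    [Module ℚ F] [AddCommGroup G] [Module ℚ G] (M : Str L E) (f : F →ₗ[ℚ] E) (g : G →ₗ[ℚ] F) :
    (M.pull f).pull g = M.pull (f.comp g) := by
  have hl : (lift (J := Lab L) f).comp (lift g) = lift (f.comp g) := by
    ext v
    simp [lift]
  simp only [Str.pull, Submodule.comap_comp]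
  congr 1
  ext1 σ
  rw [← Submodule.comap_comp, hl]

/-- part of a structure -/
theorem D01.part (hVMO : Stmt_VMO) (hVRT : Stmt_VRT) {L E F G : Type} [AddCommGroup E]
    [Module ℚ E] [AddCommGroup F] [Module ℚ F] [AddCommGroup G] [Module ℚ G] (S T : Set L)
    (hTS : T ⊆ S) (φ ρ : L → V5) (hφ : Set.EqOn ρ φ T) (n : ℕ) (M : Str L E)
    (inc : F →ₗ[ℚ] E) (pr : E →ₗ[ℚ] F) (hpi : ∀ v, pr (inc v) = v) (i : G →ₗ[ℚ] F)
    (p : F →ₗ[ℚ] G) (hip : ∀ v, p (i v) = v)
    (hM : Str.Hom T n M M ((inc.comp i).comp (p.comp pr))) (hV : VG n S ρ F (M.pull inc)) :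
    VG n T φ G (M.pull (inc.comp i)) := by
  rw [← D01.pull_pull]
  refine hVRT L T φ n F G (M.pull inc) i p hip ?_ ?_
  · have hc : (((inc.comp i).comp (p.comp pr)).comp inc) = inc.comp (i.comp p) := by
      ext v
      simp [hpi]
    refine ⟨fun a ha l v hv => ?_, fun Z hZ ψ v hv => ?_, fun σ h1 h2 h3 v hv => ?_⟩
    · have h := hM.1 a ha l hv
      rw [Submodule.mem_comap] at h ⊢
      change (((inc.comp i).comp (p.comp pr)).comp inc) v ∈ _ at h
      rw [hc] at h
      exact h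
    · have h := hM.2.1 Z hZ ψ hv
      rw [Submodule.mem_comap] at h ⊢
      change (((inc.comp i).comp (p.comp pr)).comp inc) v ∈ _ at h
      rw [hc] at h
      exact h
    · have h := hM.2.2 σ h1 h2 h3 hv
      rw [Submodule.mem_comap] at h ⊢
      have hl : ∀ w : Lab L →₀ F, lift ((inc.comp i).comp (p.comp pr)) (lift inc w) =
          lift inc (lift (i.comp p) w) := by
        intro w
        ext j
        simp [lift, hpi]
      rw [hl] at h
      exact h
  · exact hVMO L S T ρ φ n n F (M.pull inc) (M.pull inc) hV le_rfl hTS hφ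
      ⟨fun _ _ _ => rfl, fun _ _ _ => rfl, fun _ _ _ _ => rfl⟩

theorem p_D01 (hVMO : Stmt_VMO) (hVRT : Stmt_VRT) (hFID : Stmt_FID) (_hOVR : Stmt_OVR) :
    Stmt_D01 := by
  intro L S φ n V P Q _ _ _ _ _ _ M hM
  obtain ⟨⟨_, _, _, vX, vV, vY⟩, _, _, hcc, hP, hQ⟩ := hM
  obtain ⟨f1, _, _, f4, _⟩ := hFID V P Q
  have hsub : d01 S φ ⊆ dC S φ := by
    intro x hx
    refine ⟨hx.1, ?_⟩
    rcases hx.2 with h | h <;> rw [h] <;> decide
  have hpp : Set.EqOn (pp ∘ φ) φ (d01 S φ) := by
    intro x hx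
    rcases hx.2 with h | h <;> simp [h, pp]
  have hpq : Set.EqOn (pq ∘ φ) φ (d01 S φ) := by
    intro x hx
    rcases hx.2 with h | h <;> simp [h, pq]
  have hps : Set.EqOn (ps ∘ φ) φ (d01 S φ) := by
    intro x hx
    rcases hx.2 with h | h <;> simp [h, ps]
  refine ⟨?_, ?_, ?_, ?_⟩
  · intro c
    have h1 := hcc Co.Z c
    have h2 := hcc c Co.Z
    have a1 : ∀ v, ((incC c).comp (prC Co.Z) : FE V P Q →ₗ[ℚ] FE V P Q) (incV v) = incC c v := by
      intro v
      change incC c (prV (incV v : FE V P Q)) = _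
      rw [f1.2.1]
    have a2 : ∀ v, ((incC Co.Z).comp (prC c) : FE V P Q →ₗ[ℚ] FE V P Q) (incC c v) = incV v := by
      intro v
      change incV (prC c (incC c v : FE V P Q)) = _
      rw [f4.2.2.2.2.2.2.2.2.1]
    have b1 : ∀ w : Lab L →₀ V, lift ((incC c).comp (prC Co.Z) : FE V P Q →ₗ[ℚ] FE V P Q)
        (lift incV w) = lift (incC c) w := by
      intro w
      refine Finsupp.ext fun j => ?_
      exact a1 (w j)
    have b2 : ∀ w : Lab L →₀ V, lift ((incC Co.Z).comp (prC c) : FE V P Q →ₗ[ℚ] FE V P Q)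
        (lift (incC c) w) = lift incV w := by
      intro w
      refine Finsupp.ext fun j => ?_
      exact a2 (w j)
    refine ⟨fun i hi l => ?_, fun Z hZ ψ => ?_, fun σ s1 s2 s3 => ?_⟩
    · change (M.x i l).comap incV = (M.x i l).comap (incC c)
      ext v
      rw [Submodule.mem_comap, Submodule.mem_comap]
      constructor
      · intro h
        have := h1.1 i hi l h
        rwa [Submodule.mem_comap, a1] at this
      · intro h
        have := h2.1 i hi l h
        rwa [Submodule.mem_comap, a2] at this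
    · change (M.u Z ψ).comap incV = (M.u Z ψ).comap (incC c)
      ext v
      rw [Submodule.mem_comap, Submodule.mem_comap]
      constructor
      · intro h
        have := h1.2.1 Z hZ ψ h
        rwa [Submodule.mem_comap, a1] at this
      · intro h
        have := h2.2.1 Z hZ ψ h
        rwa [Submodule.mem_comap, a2] at this
    · change (M.g σ).comap (lift incV) = (M.g σ).comap (lift (incC c))
      ext v
      rw [Submodule.mem_comap, Submodule.mem_comap]
      constructor
      · intro h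
        have := h1.2.2 σ s1 s2 s3 h
        rwa [Submodule.mem_comap, b1] at this
      · intro h
        have := h2.2.2 σ s1 s2 s3 h
        rwa [Submodule.mem_comap, b2] at this
  · exact D01.part hVMO hVRT (dC S φ) (d01 S φ) hsub φ (pp ∘ φ) hpp n M incX prX f1.1
      ((LinearMap.inr ℚ (ℕ →₀ V) ((ℕ →₀ V) × P)).comp (LinearMap.inr ℚ (ℕ →₀ V) P))
      ((LinearMap.snd ℚ (ℕ →₀ V) P).comp (LinearMap.snd ℚ (ℕ →₀ V) ((ℕ →₀ V) × P)))
      (fun v => rfl) hP vX
  · exact D01.part hVMO hVRT (dC S φ) (d01 S φ) hsub φ (pq ∘ φ) hpq n M incY prY f1.2.2.1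
      (LinearMap.inr ℚ (ℕ →₀ V) Q) (LinearMap.snd ℚ (ℕ →₀ V) Q)
      (fun v => rfl) hQ vY
  · exact hVMO L (dC S φ) (d01 S φ) (ps ∘ φ) φ n n V (M.pull incV) (M.pull incV) vV le_rfl
      hsub hps ⟨fun _ _ _ => rfl, fun _ _ _ => rfl, fun _ _ _ _ => rfl⟩

end Pool.NF
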