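import Pool.Agent.Work.MP_b103ef_pos.Interface1

/-!
# Block DFE (S02731): decompositions of the frames
-/

set_option autoImplicit false

open Classical

namespace Pool.NF

section

variable {E E' ι : Type} [AddCommGroup E] [Module ℚ E] [AddCommGroup E'] [Module ℚ E']
  {F F' : ι → Type} [∀ a, AddCommGroup (F a)] [∀ a, Module ℚ (F a)]
  [∀ a, AddCommGroup (F' a)] [∀ a, Module ℚ (F' a)]

/-- decomposition of a product -/
noncomputable def DFE_prod (D : Dec E ι F) (D' : Dec E' ι F') :
    Dec (E × E') ι (fun a => F a × F' a) where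
  inc a := (D.inc a).prodMap (D'.inc a)
  pr a := (D.pr a).prodMap (D'.pr a)
  pr_inc a v := Prod.ext (D.pr_inc a v.1) (D'.pr_inc a v.2)
  pr_inc_ne a b v h := Prod.ext (D.pr_inc_ne a b v.1 h) (D'.pr_inc_ne a b v.2 h)
  fin v := by
    refine ((D.fin v.1).union (D'.fin v.2)).subset ?_
    intro a ha
    by_contra hn
    have h1 : D.pr a v.1 = 0 := by
      by_contra h
      exact hn (Or.inl h)
    have h2 : D'.pr a v.2 = 0 := by
      by_contra h
      exact hn (Or.inr h)
    exact ha (Prod.ext h1 h2)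
  ext v h := by
    refine Prod.ext (D.ext v.1 fun a => ?_) (D'.ext v.2 fun a => ?_)
    · exact congrArg Prod.fst (h a)
    · exact congrArg Prod.snd (h a)

/-- decomposition of the finitely supported functions -/
noncomputable def DFE_fs (D : Dec E ι F) : Dec (ℕ →₀ E) ι (fun a => ℕ →₀ F a) where
  inc a := lift (D.inc a)
  pr a := lift (D.pr a)
  pr_inc a v := by
    ext n
    exact D.pr_inc a (v n)
  pr_inc_ne a b v h := by
    ext n
    exact D.pr_inc_ne a b (v n) h
  fin v := by
    have hf : (⋃ n ∈ v.support, {a | D.pr a (v n) ≠ 0}).Finite :=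
      Set.Finite.biUnion v.support.finite_toSet fun n _ => D.fin (v n)
    refine hf.subset ?_
    intro a ha
    by_contra hn
    refine ha ?_
    ext n
    show D.pr a (v n) = 0
    by_cases hv : n ∈ v.support
    · by_contra h
      exact hn (Set.mem_biUnion (s := (↑v.support : Set ℕ)) hv h)
    · rw [Finsupp.notMem_support_iff.1 hv, map_zero]
  ext v h := by
    ext n
    refine D.ext (v n) fun a => ?_
    have := DFunLike.congr_fun (h a) n
    exact this

end

theorem blk_DFE : Stmt_DFE := by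
  intro V P Q ι _ _ _ _ _ _ Vf Pf Qf _ _ _ _ _ _ DV DP DQ
  refine ⟨⟨DFE_prod (DFE_prod (DFE_fs DV) (DFE_prod (DFE_fs DV) DP))
      (DFE_prod DV (DFE_prod (DFE_fs DV) DQ)), fun _ => rfl, fun _ => rfl⟩,
    ⟨DFE_prod (DFE_fs DV) (DFE_prod (DFE_fs DV) DP), fun _ => rfl, fun _ => rfl⟩,
    ⟨DFE_prod (DFE_fs DV) DQ, fun _ => rfl, fun _ => rfl⟩,
    ⟨DFE_prod DV (DFE_prod (DFE_fs DV) DQ), fun _ => rfl, fun _ => rfl⟩,
    ⟨DFE_prod (DFE_prod (DFE_fs DV) (DFE_prod (DFE_fs DV) DP)) DV, fun _ => rfl, fun _ => rfl⟩⟩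

end Pool.NF
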