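import Pool.Agent.Work.MP_b103ef_pos.Interface1

set_option autoImplicit false

open Classical

namespace Pool.NF

section DSM

variable {J E ι : Type} [AddCommGroup E] [Module ℚ E] {F : ι → Type} [∀ a, AddCommGroup (F a)]
    [∀ a, Module ℚ (F a)] (D : Dec E ι F)

theorem DSM_lift_apply {E' F' : Type} [AddCommGroup E'] [Module ℚ E'] [AddCommGroup F']
    [Module ℚ F'] (f : E' →ₗ[ℚ] F') (v : J →₀ E') (j : J) : (lift f v) j = f (v j) := by
  simp [lift]

include D in
theorem DSM_pr_inc (b : ι) (x : J →₀ F b) : lift (D.pr b) (lift (D.inc b) x) = x := by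
  ext j
  rw [DSM_lift_apply, DSM_lift_apply, D.pr_inc]

theorem DSM_pr_inc_ne (a b : ι) (h : a ≠ b) (x : J →₀ F b) :
    lift (D.pr a) (lift (D.inc b) x) = 0 := by
  ext j
  rw [DSM_lift_apply, DSM_lift_apply, D.pr_inc_ne a b _ h]
  rfl

theorem DSM_ext (v : J →₀ E) (h : ∀ a, lift (D.pr a) v = 0) : v = 0 := by
  ext j
  apply D.ext
  intro a
  have := DFunLike.congr_fun (h a) j
  rwa [DSM_lift_apply] at this

theorem DSM_fin (v : J →₀ E) : ∃ s : Finset ι, ∀ a, a ∉ s → lift (D.pr a) v = 0 := by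
  refine ⟨v.support.biUnion fun j => (D.fin (v j)).toFinset, fun a ha => ?_⟩
  ext j
  rw [DSM_lift_apply]
  by_contra hne
  apply ha
  rw [Finset.mem_biUnion]
  refine ⟨j, ?_, ?_⟩
  · rw [Finsupp.mem_support_iff]
    intro h0
    apply hne
    rw [h0, map_zero]
    rfl
  · rw [Set.Finite.mem_toFinset]
    exact hne

theorem DSM_pr_sum (s : Finset ι) (x : ∀ a, J →₀ F a) (b : ι) :
    lift (D.pr b) (∑ a ∈ s, lift (D.inc a) (x a)) = if b ∈ s then x b else 0 := by
  rw [map_sum]
  split_ifs with h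
  · rw [Finset.sum_eq_single b]
    · exact DSM_pr_inc D b (x b)
    · intro a _ hab
      exact DSM_pr_inc_ne D b a (fun e => hab e.symm) (x a)
    · intro hb
      exact absurd h hb
  · apply Finset.sum_eq_zero
    intro a ha
    exact DSM_pr_inc_ne D b a (fun e => h (e ▸ ha)) (x a)

theorem DSM_rec (v : J →₀ E) (s : Finset ι) (hs : ∀ a, a ∉ s → lift (D.pr a) v = 0) :
    ∑ a ∈ s, lift (D.inc a) (lift (D.pr a) v) = v := by
  rw [← sub_eq_zero]
  apply DSM_ext D
  intro b
  rw [map_sub, DSM_pr_sum D s (fun a => lift (D.pr a) v) b]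
  split_ifs with h
  · exact sub_self _
  · rw [hs b h, sub_self]

theorem DSM_mem_inc (U : ∀ a, Submodule ℚ (J →₀ F a)) (b : ι) (x : J →₀ F b) (hx : x ∈ U b) :
    lift (D.inc b) x ∈ ⨅ a, (U a).comap (lift (D.pr a)) := by
  rw [Submodule.mem_iInf]
  intro a
  rw [Submodule.mem_comap]
  by_cases h : a = b
  · subst h
    rw [DSM_pr_inc]
    exact hx
  · rw [DSM_pr_inc_ne D a b h]
    exact Submodule.zero_mem _

theorem DSM_mem_sum (U : ∀ a, Submodule ℚ (J →₀ F a)) (s : Finset ι) (x : ∀ a, J →₀ F a)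
    (hx : ∀ a, x a ∈ U a) :
    ∑ a ∈ s, lift (D.inc a) (x a) ∈ ⨅ a, (U a).comap (lift (D.pr a)) :=
  Submodule.sum_mem _ fun a _ => DSM_mem_inc D U a (x a) (hx a)

end DSM

theorem blk_DSM : Stmt_DSM := by
  intro J E ι _ _ F _ _ D
  refine ⟨?_, ?_, ?_⟩
  · intro U U'
    refine ⟨?_, ?_, ?_⟩
    · apply le_antisymm
      · refine sup_le (iInf_mono fun a => Submodule.comap_mono le_sup_left)
          (iInf_mono fun a => Submodule.comap_mono le_sup_right)
      · intro v hv
        rw [Submodule.mem_iInf] at hv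
        have h1 : ∀ a, ∃ x ∈ U a, ∃ y ∈ U' a, x + y = lift (D.pr a) v := by
          intro a
          exact Submodule.mem_sup.1 (hv a)
        choose x hx y hy hxy using h1
        obtain ⟨s, hs⟩ := DSM_fin D v
        rw [← DSM_rec D v s hs]
        have h2 : ∑ a ∈ s, lift (D.inc a) (lift (D.pr a) v) =
            ∑ a ∈ s, lift (D.inc a) (x a) + ∑ a ∈ s, lift (D.inc a) (y a) := by
          rw [← Finset.sum_add_distrib]
          apply Finset.sum_congr rfl
          intro a _
          rw [← map_add, hxy]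
        rw [h2]
        exact Submodule.add_mem_sup (DSM_mem_sum D U s x hx) (DSM_mem_sum D U' s y hy)
    · rw [← iInf_inf_eq]
      rfl
    · constructor
      · intro h a x hx
        have h1 := h (DSM_mem_inc D U a x hx)
        rw [Submodule.mem_iInf] at h1
        have h2 := h1 a
        rw [Submodule.mem_comap, DSM_pr_inc] at h2
        exact h2
      · intro h
        exact iInf_mono fun a => Submodule.comap_mono (h a)
  · intro U b
    ext x
    rw [Submodule.mem_comap]
    constructor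
    · intro h
      rw [Submodule.mem_iInf] at h
      have h2 := h b
      rw [Submodule.mem_comap, DSM_pr_inc] at h2
      exact h2
    · intro h
      exact DSM_mem_inc D U b x h
  · rw [eq_bot_iff]
    intro v hv
    rw [Submodule.mem_iInf] at hv
    rw [Submodule.mem_bot]
    apply DSM_ext D
    intro a
    exact (Submodule.mem_bot ℚ).1 (hv a)

end Pool.NF
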