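import Pool.Agent.Work.MP_b103ef_pos.Interface3

/-! # Block EC1 (helper60): the new pair in (10)(b) -/

set_option autoImplicit false

open Classical

namespace Pool.NF

theorem EC1_notV {L : Type} {Z : Set L} {χ : L → V5} (h : Hit Z χ) : ¬ IsV Z χ := by
  intro hV
  obtain ⟨x, hx, h1⟩ := h.1
  rcases hV x hx with h2 | h2 <;> rw [h1] at h2 <;> exact absurd h2 (by decide)

theorem EC1_hit_congr {L : Type} {Z : Set L} {χ ψ : L → V5} (h : Hit Z ψ) (he : Set.EqOn χ ψ Z) :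
    Hit Z χ := by
  obtain ⟨⟨x, hx, h1⟩, ⟨y, hy, h2⟩, ⟨z, hz, h3⟩⟩ := h
  exact ⟨⟨x, hx, (he hx).trans h1⟩, ⟨y, hy, (he hy).trans h2⟩, ⟨z, hz, (he hz).trans h3⟩⟩

theorem blk_EC1 (hM : Stmt_NCM) (hS : Stmt_SAN) (hE : Stmt_ESN) (hQ : Stmt_QOS) :
    Stmt_EC1 := by
  intro L hL Z ψ j α β hα hβ hj hloc hcl
  have hek : (Tm.ek Z ψ j α β).Over (↑Z : Set L) := ⟨subset_rfl, hα, hβ, hj⟩
  refine ⟨?_, ?_⟩
  · intro χ hχ
    have hhit : Hit (↑Z : Set L) χ := EC1_hit_congr hloc.1 hχ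
    have hr1 : (Tm.inf (Tm.ek Z ψ j α β) α).rank ≤ max α.rank β.rank + 1 := by
      show max (max α.rank β.rank + 1) α.rank ≤ _
      exact max_le le_rfl (le_trans (le_max_left _ _) (Nat.le_succ _))
    have hr2 : β.rank ≤ max α.rank β.rank + 1 := le_trans (le_max_right _ _) (Nat.le_succ _)
    refine (hM L hL (↑Z : Set L) χ (Tm.inf (Tm.ek Z ψ j α β) α) β (max α.rank β.rank + 1)
      ⟨hek, hα⟩ hβ hr1 hr2).mpr ⟨fun h => absurd h (EC1_notV hhit), ?_⟩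
    intro _ V P Q _ _ _ _ _ _ M hMM
    have hax := hMM.2.2 (Tm.ek Z ψ j α β) hek rfl hhit
    have hvcl : VCl (VG (max α.rank β.rank)) (↑Z : Set L) α β := by
      intro ρ hρ hnc
      exact hcl ρ hρ (Or.inl ⟨hρ, hnc⟩)
    have h3 := (hax.1 hloc (fun x hx => (hχ hx).symm)).2.2 hvcl
    have hsane := hE L (↑Z : Set L) χ _ V P Q M hMM
    set G := insert j (α.vars ∪ β.vars) with hG
    have hGe : (Tm.inf (Tm.ek Z ψ j α β) α).vars ∪ β.vars = G := by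
      show (insert j (α.vars ∪ β.vars) ∪ α.vars) ∪ β.vars = insert j (α.vars ∪ β.vars)
      ext x
      simp only [Finset.mem_union, Finset.mem_insert]
      tauto
    have hsα := (hS L (↑Z : Set L) _ _ M hsane).1 α hα (le_trans (le_max_left _ _) (Nat.le_succ _))
      G (by rw [hG]; exact fun x hx => Finset.mem_insert_of_mem (Finset.mem_union_left _ hx))
    have hsβ := (hS L (↑Z : Set L) _ _ M hsane).1 β hβ hr2
      G (by rw [hG]; exact fun x hx => Finset.mem_insert_of_mem (Finset.mem_union_right _ hx))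
    show M.ev ((Tm.inf (Tm.ek Z ψ j α β) α).vars ∪ β.vars) (Tm.inf (Tm.ek Z ψ j α β) α) ≤
      M.ev ((Tm.inf (Tm.ek Z ψ j α β) α).vars ∪ β.vars) β
    rw [hGe]
    show (M.g (Tm.ek Z ψ j α β) ⊔ box G M.B) ⊓ M.ev G α ≤ M.ev G β
    rw [sup_comm, sup_inf_assoc_of_le (M.g (Tm.ek Z ψ j α β)) hsα.1, h3]
    exact sup_le hsβ.1 inf_le_right
  · intro χ hnc
    by_contra hcon
    have h1 := (hQ L hL (↑Z : Set L) χ (Tm.ek Z ψ j α β) α β hek hα hβ).2.2.2.1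
    exact (hQ L hL (↑Z : Set L) χ (Tm.inf (Tm.ek Z ψ j α β) α) α β ⟨hek, hα⟩ hα hβ).2.1 h1 hcon hnc

end Pool.NF
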