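import Pool.Agent.Work.MP_b103ef_pos.Interface3

set_option autoImplicit false

open Classical

namespace Pool.NF

section EC2

theorem EC2_T1 {L : Type} (Z : Finset L) (r : L → V5) (j : Lab L) (hj : LOver (↑Z : Set L) j) :
    (Tm.T1 Z r j).Over (↑Z : Set L) := by
  intro l hl
  rw [Finset.mem_singleton] at hl
  subst hl
  exact ⟨hj, fun _ h => h⟩

theorem EC2_T0 {L : Type} (Z : Finset L) (r : L → V5) (j : Lab L) (hj : LOver (↑Z : Set L) j) :
    (Tm.T0 Z r j).Over (↑Z : Set L) := by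
  intro l hl
  rw [Finset.mem_singleton] at hl
  subst hl
  exact ⟨hj, fun _ h => h⟩

/-- the hypotheses of MEX in one model -/
theorem EC2_mex (hSAN : Stmt_SAN) {L E : Type} [AddCommGroup E] [Module ℚ E] (M : Str L E)
    (Z : Finset L) (m : ℕ) (hs : Sane (↑Z : Set L) m M) (r : L → V5) (j : Lab L) (α β : Tm L)
    (hα : α.Over (↑Z : Set L)) (hβ : β.Over (↑Z : Set L)) (hj : LOver (↑Z : Set L) j)
    (hαm : α.rank ≤ m) (hβm : β.rank ≤ m) (hjv : j ∉ α.vars ∪ β.vars) :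
    M.ev (insert j (α.vars ∪ β.vars)) (Tm.T0 Z r j) ≤
        M.ev (insert j (α.vars ∪ β.vars)) (Tm.T1 Z r j) ∧
      M.ev (insert j (α.vars ∪ β.vars)) (Tm.T1 Z r j) ⊓ M.ev (insert j (α.vars ∪ β.vars)) α ≤
        M.ev (insert j (α.vars ∪ β.vars)) (Tm.T0 Z r j) ∧
      M.ev (insert j (α.vars ∪ β.vars)) (Tm.T1 Z r j) ⊓ M.ev (insert j (α.vars ∪ β.vars)) α ≤
        M.ev (insert j (α.vars ∪ β.vars)) α ⊓ M.ev (insert j (α.vars ∪ β.vars)) β ∧
      box (insert j (α.vars ∪ β.vars)) M.B ≤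
        M.ev (insert j (α.vars ∪ β.vars)) α ⊓ M.ev (insert j (α.vars ∪ β.vars)) β := by
  obtain ⟨s1, -, s3⟩ := hSAN L (↑Z : Set L) m E M hs
  have hjα : j ∉ α.vars := fun h => hjv (Finset.mem_union_left _ h)
  have hGα : α.vars ⊆ insert j (α.vars ∪ β.vars) :=
    Finset.Subset.trans Finset.subset_union_left (Finset.subset_insert _ _)
  have hGβ : β.vars ⊆ insert j (α.vars ∪ β.vars) :=
    Finset.Subset.trans Finset.subset_union_right (Finset.subset_insert _ _)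
  have hbox : box (insert j (α.vars ∪ β.vars)) M.B ≤
      M.ev (insert j (α.vars ∪ β.vars)) α ⊓ M.ev (insert j (α.vars ∪ β.vars)) β :=
    le_inf (s1 α hα hαm _ hGα).1 (s1 β hβ hβm _ hGβ).1
  have hint : M.ev (insert j (α.vars ∪ β.vars)) (Tm.T1 Z r j) ⊓
      M.ev (insert j (α.vars ∪ β.vars)) α ≤ box (insert j (α.vars ∪ β.vars)) M.B :=
    s3 α hα hαm j hjα _ _ (Finset.insert_subset_insert _ Finset.subset_union_left)
  refine ⟨?_, hint.trans ?_, hint.trans hbox, hbox⟩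
  · change box {j} (fun l => M.B l ⊔ (M.un (.tau' Z r) ⊓ M.A l)) ⊔ _ ≤
      box {j} (fun l => M.B l ⊔ (M.un (.tau Z r) ⊓ M.A l)) ⊔ _
    refine sup_le_sup_right ?_ _
    intro v hv l
    refine ⟨fun hl => ?_, fun hl => (hv l).2 hl⟩
    have h1 := (hv l).1 hl
    have h2 : M.un (.tau' Z r) ≤ M.un (.tau Z r) := inf_le_left
    exact (sup_le_sup_left (inf_le_inf_right _ h2) _) h1
  · change _ ≤ box {j} (fun l => M.B l ⊔ (M.un (.tau' Z r) ⊓ M.A l)) ⊔ _
    exact le_sup_right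

theorem EC2_rank {L : Type} (Z : Finset L) (r : L → V5) (j : Lab L) (α β : Tm L) :
    (Tm.lk Z r j α β).rank = max α.rank β.rank + 1 := rfl

/-- the value of the link in a vertex model -/
theorem EC2_vax {L E : Type} [AddCommGroup E] [Module ℚ E] (M : Str L E) (Z : Finset L)
    (ρ : L → V5) (r : L → V5) (j : Lab L) (α β : Tm L)
    (hα : α.Over (↑Z : Set L)) (hβ : β.Over (↑Z : Set L)) (hj : LOver (↑Z : Set L) j)
    (hloc : Loc (VG (max α.rank β.rank)) Z r j α β)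
    (hM : VG (max α.rank β.rank + 1) (↑Z : Set L) ρ E M) :
    ISO (M.ev (insert j (α.vars ∪ β.vars)) (Tm.T0 Z r j))
      (M.ev (insert j (α.vars ∪ β.vars)) (Tm.T1 Z r j))
      (M.ev (insert j (α.vars ∪ β.vars)) α ⊓ M.ev (insert j (α.vars ∪ β.vars)) β)
      (M.ev (insert j (α.vars ∪ β.vars)) α) (M.g (.lk Z r j α β)) :=
  (hM.2 (.lk Z r j α β) ⟨fun _ h => h, hα, hβ, hj⟩ rfl).1 hloc

/-- the value of the link in a frame model -/
theorem EC2_hax {L V P Q : Type} [AddCommGroup V] [Module ℚ V] [AddCommGroup P] [Module ℚ P]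
    [AddCommGroup Q] [Module ℚ Q] (M : Str L (FE V P Q)) (Z : Finset L)
    (φ : L → V5) (hφ : Hit (↑Z : Set L) φ) (r : L → V5) (j : Lab L) (α β : Tm L)
    (hα : α.Over (↑Z : Set L)) (hβ : β.Over (↑Z : Set L)) (hj : LOver (↑Z : Set L) j)
    (hloc : Loc (VG (max α.rank β.rank)) Z r j α β)
    (hM : EG (max α.rank β.rank + 1) (↑Z : Set L) φ V P Q M) :
    MAP (M.ev (insert j (α.vars ∪ β.vars)) (Tm.T0 Z r j))
      (M.ev (insert j (α.vars ∪ β.vars)) (Tm.T1 Z r j))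
      (M.ev (insert j (α.vars ∪ β.vars)) α ⊓ M.ev (insert j (α.vars ∪ β.vars)) β)
      (M.ev (insert j (α.vars ∪ β.vars)) α) (M.g (.lk Z r j α β)) :=
  (hM.2.2 (.lk Z r j α β) ⟨fun _ h => h, hα, hβ, hj⟩ rfl hφ).1 hloc

theorem EC2_notHit {L : Type} (Z : Set L) (ρ : L → V5) (h : IsV Z ρ) : ¬ Hit Z ρ := by
  rintro ⟨⟨x, hx, hxa⟩, -⟩
  rcases h x hx with h | h <;> rw [hxa] at h <;> cases h

theorem blk_EC2 (hNCM : Stmt_NCM) (hMEX : Stmt_MEX) (hSAN : Stmt_SAN) (hESN : Stmt_ESN)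
    (hVSN : Stmt_VSN) : Stmt_EC2 := by
  intro L hAll Z r j α β hα hβ hj hloc
  have hαn : α.rank ≤ max α.rank β.rank + 1 := (le_max_left _ _).trans (Nat.le_succ _)
  have hβn : β.rank ≤ max α.rank β.rank + 1 := (le_max_right _ _).trans (Nat.le_succ _)
  have hγ : (Tm.inf (.T1 Z r j) (.lk Z r j α β)).Over (↑Z : Set L) :=
    ⟨EC2_T1 Z r j hj, fun _ h => h, hα, hβ, hj⟩
  have hγn : (Tm.inf (.T1 Z r j) (.lk Z r j α β)).rank ≤ max α.rank β.rank + 1 := by
    change max 0 (max α.rank β.rank + 1) ≤ max α.rank β.rank + 1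
    simp
  have hT0 := EC2_T0 Z r j hj
  have hT1 := EC2_T1 Z r j hj
  have hG : (Tm.inf (.T1 Z r j) (.lk Z r j α β)).vars ∪ (Tm.T0 Z r j).vars =
      insert j (α.vars ∪ β.vars) := by
    change ({j} ∪ insert j (α.vars ∪ β.vars)) ∪ {j} = _
    ext l
    simp only [Finset.mem_union, Finset.mem_insert, Finset.mem_singleton]
    tauto
  refine ⟨fun ρ hρ => ?_, fun χ => ?_⟩
  · refine (hNCM L hAll _ ρ _ _ _ hγ hT0 hγn (Nat.zero_le _)).2 ⟨fun _ E _ _ M hM => ?_,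
      fun h => absurd h (EC2_notHit _ _ hρ)⟩
    have hs : Sane (↑Z : Set L) (max α.rank β.rank + 1) M := hVSN L _ ρ _ E M hM
    obtain ⟨m1, m2, m3, m4⟩ := EC2_mex hSAN M Z _ hs r j α β hα hβ hj hαn hβn hloc.2.2.2.1
    have hiso := EC2_vax M Z ρ r j α β hα hβ hj hloc hM
    obtain ⟨-, x1, x2, -⟩ := hMEX _ _ _ _ _ (M.g (.lk Z r j α β)) m1 inf_le_left m2 m3
    have h1 := (x1 hiso.1).2.1
    have h2 := (x2 hiso).1
    unfold Str.Le
    rw [hG]
    change M.ev _ (Tm.T1 Z r j) ⊓ (M.g (.lk Z r j α β) ⊔ box _ M.B) ≤ M.ev _ (Tm.T0 Z r j)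
    rw [sup_eq_left.2 (m4.trans h1), inf_comm, h2]
  · intro h
    by_contra hcon
    have mdl := (hNCM L hAll _ χ _ _ (max α.rank β.rank + 1) hT1 hT0 (Nat.zero_le _)
      (Nat.zero_le _)).1 hcon
    have key : ∀ (E : Type) (_ : AddCommGroup E) (_ : Module ℚ E) (M : Str L E),
        Sane (↑Z : Set L) (max α.rank β.rank + 1) M → M.Le (.T1 Z r j) (.T0 Z r j) →
        M.Le (.inf (.T1 Z r j) (.lk Z r j α β)) (.T0 Z r j) := by
      intro E _ _ M hs hle
      have h1 := ((hSAN L _ _ E M hs).2.1 (.T1 Z r j) (.T0 Z r j) hT1 hT0 (Nat.zero_le _)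
        (Nat.zero_le _) (insert j (α.vars ∪ β.vars)) (by
          intro l hl
          have : l = j := by
            rw [Finset.mem_union] at hl
            rcases hl with hl | hl <;> exact Finset.mem_singleton.1 hl
          rw [this]
          exact Finset.mem_insert_self _ _)).1.1 hle
      unfold Str.Le
      rw [hG]
      exact inf_le_left.trans h1
    refine (hNCM L hAll _ χ _ _ _ hγ hT0 hγn (Nat.zero_le _)).2 ⟨?_, ?_⟩ h
    · intro hχ E _ _ M hM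
      exact key E _ _ M (hVSN L _ χ _ E M hM) (mdl.1 hχ E M hM)
    · intro hχ V P Q _ _ _ _ _ _ M hM
      exact key _ _ _ M (hESN L _ χ _ V P Q M hM) (mdl.2 hχ V P Q M hM)

end EC2

end Pool.NF
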