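import Pool.Agent.Work.MP_b103ef_pos.Interface3

/-! # Block EC3 (helper60): the new pair in (10)(e) -/

set_option autoImplicit false

open Classical

namespace Pool.NF

theorem EC3_notH {L : Type} {Z : Set L} {χ : L → V5} (hV : IsV Z χ) : ¬ Hit Z χ := by
  intro h
  obtain ⟨x, hx, h1⟩ := h.1
  rcases hV x hx with h2 | h2 <;> rw [h1] at h2 <;> exact absurd h2 (by decide)

theorem blk_EC3 (hM : Stmt_NCM) (hS : Stmt_SAN) (hE : Stmt_ESN) :
    Stmt_EC3 := by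
  intro L hL Z r j α β hα hβ hj hloc
  have hlk : (Tm.lk Z r j α β).Over (↑Z : Set L) := ⟨subset_rfl, hα, hβ, hj⟩
  have hT1 : (Tm.T1 Z r j).Over (↑Z : Set L) := by
    intro i hi
    rw [Finset.mem_singleton] at hi
    rw [hi]
    exact ⟨hj, subset_rfl⟩
  have hN : (Tm.inf α (Tm.sup (Tm.lk Z r j α β) (Tm.T1 Z r j))).Over (↑Z : Set L) :=
    ⟨hα, hlk, hT1⟩
  have hr1 : α.rank ≤ max α.rank β.rank + 1 := le_trans (le_max_left _ _) (Nat.le_succ _)
  have hrβ : β.rank ≤ max α.rank β.rank + 1 := le_trans (le_max_right _ _) (Nat.le_succ _)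
  have hr2 : (Tm.inf α (Tm.sup (Tm.lk Z r j α β) (Tm.T1 Z r j))).rank ≤
      max α.rank β.rank + 1 := by
    show max α.rank (max (max α.rank β.rank + 1) 0) ≤ _
    exact max_le hr1 (max_le le_rfl (Nat.zero_le _))
  have hV1 : ∀ ρ : L → V5, IsV (↑Z : Set L) ρ →
      ¬ NCs (↑Z : Set L) ρ α (Tm.inf α (Tm.sup (Tm.lk Z r j α β) (Tm.T1 Z r j))) := by
    intro ρ hρ
    refine (hM L hL (↑Z : Set L) ρ _ _ (max α.rank β.rank + 1) hα hN hr1 hr2).mpr
      ⟨?_, fun h => absurd h (EC3_notH hρ)⟩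
    intro _ E _ _ M hMM
    have hax := (hMM.2 (Tm.lk Z r j α β) hlk rfl).1 hloc
    have h1 := hax.2.2
    set G := insert j (α.vars ∪ β.vars) with hG
    have hGe : α.vars ∪ (Tm.inf α (Tm.sup (Tm.lk Z r j α β) (Tm.T1 Z r j))).vars = G := by
      show α.vars ∪ (α.vars ∪ (insert j (α.vars ∪ β.vars) ∪ {j})) = insert j (α.vars ∪ β.vars)
      ext x
      simp only [Finset.mem_union, Finset.mem_insert, Finset.mem_singleton]
      tauto
    show M.ev (α.vars ∪ (Tm.inf α (Tm.sup (Tm.lk Z r j α β) (Tm.T1 Z r j))).vars) α ≤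
      M.ev (α.vars ∪ (Tm.inf α (Tm.sup (Tm.lk Z r j α β) (Tm.T1 Z r j))).vars)
        (Tm.inf α (Tm.sup (Tm.lk Z r j α β) (Tm.T1 Z r j)))
    rw [hGe]
    show M.ev G α ≤ M.ev G α ⊓ ((M.g (Tm.lk Z r j α β) ⊔ box G M.B) ⊔ M.ev G (Tm.T1 Z r j))
    refine le_inf le_rfl ?_
    have h2 : M.ev G α ≤ M.g (Tm.lk Z r j α β) ⊔ M.ev G (Tm.T1 Z r j) := by
      rw [h1]
      exact le_sup_right
    refine le_trans h2 (sup_le (le_trans le_sup_left le_sup_left) le_sup_right)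
  refine ⟨hV1, ?_⟩
  intro χ hnc
  by_contra hcon
  by_cases hV : IsV (↑Z : Set L) χ
  · exact hV1 χ hV hnc
  · refine absurd hnc ((hM L hL (↑Z : Set L) χ _ _ (max α.rank β.rank + 1) hα hN hr1 hr2).mpr
      ⟨fun h => absurd h hV, ?_⟩)
    intro hH V P Q _ _ _ _ _ _ M hMM
    have hle := ((hM L hL (↑Z : Set L) χ α β (max α.rank β.rank + 1) hα hβ hr1 hrβ).mp hcon).2 hH
      V P Q M hMM
    have hsane := hE L (↑Z : Set L) χ _ V P Q M hMM
    set G := insert j (α.vars ∪ β.vars) with hG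
    have hsub : α.vars ∪ β.vars ⊆ G := by
      rw [hG]
      exact Finset.subset_insert _ _
    have hle2 : M.ev G α ≤ M.ev G β :=
      ((hS L (↑Z : Set L) _ _ M hsane).2.1 α β hα hβ hr1 hrβ G hsub).1.mp hle
    have hax := ((hMM.2.2 (Tm.lk Z r j α β) hlk rfl) hH).1 hloc
    have h1 := hax.1
    have hGe : α.vars ∪ (Tm.inf α (Tm.sup (Tm.lk Z r j α β) (Tm.T1 Z r j))).vars = G := by
      show α.vars ∪ (α.vars ∪ (insert j (α.vars ∪ β.vars) ∪ {j})) = insert j (α.vars ∪ β.vars)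
      ext x
      simp only [Finset.mem_union, Finset.mem_insert, Finset.mem_singleton]
      tauto
    show M.ev (α.vars ∪ (Tm.inf α (Tm.sup (Tm.lk Z r j α β) (Tm.T1 Z r j))).vars) α ≤
      M.ev (α.vars ∪ (Tm.inf α (Tm.sup (Tm.lk Z r j α β) (Tm.T1 Z r j))).vars)
        (Tm.inf α (Tm.sup (Tm.lk Z r j α β) (Tm.T1 Z r j)))
    rw [hGe]
    show M.ev G α ≤ M.ev G α ⊓ ((M.g (Tm.lk Z r j α β) ⊔ box G M.B) ⊔ M.ev G (Tm.T1 Z r j))
    refine le_inf le_rfl ?_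
    have h2 : M.ev G α ≤ M.g (Tm.lk Z r j α β) := by
      calc M.ev G α ≤ (M.ev G α ⊓ M.ev G β) ⊔ M.ev G (Tm.T0 Z r j) :=
            le_trans (le_inf le_rfl hle2) le_sup_left
        _ = M.g (Tm.lk Z r j α β) ⊓ (M.ev G α ⊔ M.ev G (Tm.T0 Z r j)) := h1.symm
        _ ≤ M.g (Tm.lk Z r j α β) := inf_le_left
    exact le_trans h2 (le_trans le_sup_left le_sup_left)

end Pool.NF
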