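import Pool.Agent.Work.MP_b103ef_pos.Interface2

/-! # Block EDC: `E_n` is closed under direct sums (helper94) -/

set_option autoImplicit false

open Classical

namespace Pool.NF

theorem blk_EDC (hFRD : Stmt_FRD) (hHXD : Stmt_HXD) (hDFE : Stmt_DFE) (hOVR : Stmt_OVR) :
    Stmt_EDC := by
  intro L S φ n V P Q ι _ _ _ _ _ _ Vf Pf Qf _ _ _ _ _ _ DV DP DQ Ms h
  have hfr : ∀ m, (∀ a, FrOK m S φ (Ms a)) → FrOK m S φ (Dec.fsum DV DP DQ Ms) := fun m =>
    hFRD L S φ m V P Q ι Vf Pf Qf DV DP DQ Ms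
  obtain ⟨⟨D, hpr, -⟩, -⟩ := hDFE V P Q ι Vf Pf Qf DV DP DQ
  have hsum : D.sum Ms = Dec.fsum DV DP DQ Ms := by
    unfold Dec.sum Dec.fsum
    congr 1
    funext a
    rw [hpr]
  induction n with
  | zero =>
    refine ⟨hfr 0 fun a => (h a).1, ?_⟩
    intro Z hZ hh ψ hψ
    rw [← hsum]
    show (⨅ a, ((Ms a).u Z ψ).comap (D.pr a)) = ⊥
    rw [eq_bot_iff]
    intro v hv
    rw [Submodule.mem_iInf] at hv
    rw [Submodule.mem_bot]
    refine D.ext v fun a => ?_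
    have h1 := hv a
    rw [(h a).2 Z hZ hh ψ hψ] at h1
    exact h1
  | succ n ih =>
    refine ⟨ih fun a => (h a).1, hfr (n + 1) fun a => (h a).2.1, ?_⟩
    intro σ hσ hr
    have ho : σ.Over Set.univ := (hOVR L σ).2.1 _ _ (Set.subset_univ S) hσ
    have h1 := hHXD L φ n (FE V P Q) ι (fun a => FE (Vf a) (Pf a) (Qf a)) D Ms σ
      (fun a => (Ms a).g σ) ho fun a => (h a).2.2 σ hσ hr
    rw [hsum] at h1
    have h2 : (⨅ a, ((Ms a).g σ).comap (lift (D.pr a))) = (Dec.fsum DV DP DQ Ms).g σ := by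
      rw [← hsum]
      rfl
    rw [h2] at h1
    exact h1

end Pool.NF
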