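import Pool.Agent.Work.MP_b103ef_pos.B_EVH
import Pool.Agent.Work.MP_b103ef_pos.B_DSM

set_option autoImplicit false

open Classical

namespace Pool.NF

section EDEC

variable {L E ι : Type} [AddCommGroup E] [Module ℚ E] {F : ι → Type} [∀ a, AddCommGroup (F a)]
    [∀ a, Module ℚ (F a)] (D : Dec E ι F) (Ms : ∀ a, Str L (F a))

theorem EDEC_mem (U : ∀ a, Submodule ℚ (F a)) (b : ι) (x : F b) (hx : x ∈ U b) :
    D.inc b x ∈ ⨅ a, (U a).comap (D.pr a) := by
  rw [Submodule.mem_iInf]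
  intro a
  rw [Submodule.mem_comap]
  by_cases h : a = b
  · subst h
    rw [D.pr_inc]
    exact hx
  · rw [D.pr_inc_ne a b _ h]
    exact Submodule.zero_mem _

theorem EDEC_inc (n : ℕ) (a : ι) : Str.Hom Set.univ n (Ms a) (D.sum Ms) (D.inc a) := by
  refine ⟨fun i _ l v hv => ?_, fun Z _ ψ v hv => ?_, fun σ _ _ _ v hv => ?_⟩
  · exact EDEC_mem D (fun b => (Ms b).x i l) a v hv
  · exact EDEC_mem D (fun b => (Ms b).u Z ψ) a v hv
  · exact DSM_mem_inc D (fun b => (Ms b).g σ) a v hv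

theorem EDEC_pr (n : ℕ) (a : ι) : Str.Hom Set.univ n (D.sum Ms) (Ms a) (D.pr a) := by
  refine ⟨fun i _ l v hv => ?_, fun Z _ ψ v hv => ?_, fun σ _ _ _ v hv => ?_⟩
  · have hv' : v ∈ ⨅ b, ((Ms b).x i l).comap (D.pr b) := hv
    rw [Submodule.mem_iInf] at hv'
    exact hv' a
  · have hv' : v ∈ ⨅ b, ((Ms b).u Z ψ).comap (D.pr b) := hv
    rw [Submodule.mem_iInf] at hv'
    exact hv' a
  · have hv' : v ∈ ⨅ b, ((Ms b).g σ).comap (lift (D.pr b)) := hv
    rw [Submodule.mem_iInf] at hv'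
    exact hv' a

theorem EDEC_ev (G : Finset (Lab L)) (α : Tm L) (hα : α.Over Set.univ) :
    (D.sum Ms).ev G α = ⨅ a, ((Ms a).ev G α).comap (lift (D.pr a)) := by
  have hG : ∀ j ∈ G, LOver (Set.univ : Set L) j := fun _ _ => ⟨Set.mem_univ _, Set.mem_univ _⟩
  refine le_antisymm (le_iInf fun a => ?_) ?_
  · exact ((blk_EVH L Set.univ α.rank E (F a) (D.sum Ms) (Ms a) (D.pr a)
      (EDEC_pr D Ms _ a)).2.2 G hG).2.2 α hα le_rfl
  · intro v hv
    rw [Submodule.mem_iInf] at hv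
    obtain ⟨s, hs⟩ := DSM_fin D v
    rw [← DSM_rec D v s hs]
    refine Submodule.sum_mem _ fun a _ => ?_
    exact ((blk_EVH L Set.univ α.rank (F a) E (Ms a) (D.sum Ms) (D.inc a)
      (EDEC_inc D Ms _ a)).2.2 G hG).2.2 α hα le_rfl (hv a)

end EDEC

theorem blk_EDEC : Stmt_EDEC := by
  intro L E ι _ _ F _ _ D Ms G
  refine ⟨fun n a => ⟨EDEC_inc D Ms n a, EDEC_pr D Ms n a⟩, fun α hα => EDEC_ev D Ms G α hα, ?_⟩
  intro α β hα hβ
  refine ⟨?_, ?_⟩
  · show (D.sum Ms).ev _ α ≤ (D.sum Ms).ev _ β ↔ _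
    rw [EDEC_ev D Ms _ α hα, EDEC_ev D Ms _ β hβ]
    exact ((blk_DSM (Lab L) E ι F D).1 (fun a => (Ms a).ev (α.vars ∪ β.vars) α)
      (fun a => (Ms a).ev (α.vars ∪ β.vars) β)).2.2
  · have hex : ∀ a : {a : ι // ¬ (Ms a).ev G α ≤ (Ms a).ev G β},
        ∃ x, x ∈ (Ms a.1).ev G α ∧ x ∉ (Ms a.1).ev G β := fun a => by
      have := a.2
      rw [SetLike.not_le_iff_exists] at this
      obtain ⟨x, h1, h2⟩ := this
      exact ⟨x, h1, h2⟩
    choose x hx1 hx2 using hex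
    have hmem : ∀ a : {a : ι // ¬ (Ms a).ev G α ≤ (Ms a).ev G β},
        lift (D.inc a.1) (x a) ∈ (D.sum Ms).ev G α := by
      intro a
      rw [EDEC_ev D Ms G α hα]
      exact DSM_mem_inc D (fun b => (Ms b).ev G α) a.1 (x a) (hx1 a)
    have hli : LinearIndependent ℚ (fun a : {a : ι // ¬ (Ms a).ev G α ≤ (Ms a).ev G β} =>
        (((D.sum Ms).ev G β).comap ((D.sum Ms).ev G α).subtype).mkQ
          ⟨lift (D.inc a.1) (x a), hmem a⟩) := by
      rw [linearIndependent_iff']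
      intro s g hsum b hb
      have h1 : (((D.sum Ms).ev G β).comap ((D.sum Ms).ev G α).subtype).mkQ
          (∑ a ∈ s, g a • (⟨lift (D.inc a.1) (x a), hmem a⟩ : ↥((D.sum Ms).ev G α))) = 0 := by
        rw [map_sum, ← hsum]
        refine Finset.sum_congr rfl fun a _ => ?_
        rw [map_smul]
      rw [Submodule.mkQ_apply, Submodule.Quotient.mk_eq_zero, Submodule.mem_comap] at h1
      have h2 : (∑ a ∈ s, g a • lift (D.inc a.1) (x a)) ∈ (D.sum Ms).ev G β := by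
        simpa using h1
      rw [EDEC_ev D Ms G β hβ, Submodule.mem_iInf] at h2
      have h3 := h2 b.1
      rw [Submodule.mem_comap, map_sum] at h3
      rw [Finset.sum_eq_single b] at h3
      · rw [map_smul, DSM_pr_inc D] at h3
        by_contra hgb
        exact hx2 b ((Submodule.smul_mem_iff _ hgb).1 h3)
      · intro a _ hab
        rw [map_smul, DSM_pr_inc_ne D b.1 a.1 (fun e => hab (Subtype.ext e.symm)), smul_zero]
      · intro hb'
        exact absurd hb hb'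
    exact hli.cardinal_le_rank

end Pool.NF
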