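import Pool.Agent.Work.MP_b103ef_pos.B_EX0

/-! # Block EE0 (helper60): start of the induction for `EEst` -/

set_option autoImplicit false

open Classical

namespace Pool.NF

/-- `V × PUnit ≃ V` -/
noncomputable def EE0_e (V : Type) [AddCommGroup V] [Module ℚ V] : (V × PUnit) ≃ₗ[ℚ] V :=
  LinearEquiv.ofLinearMap (LinearMap.fst ℚ V PUnit) (LinearMap.inl ℚ V PUnit)
    (by ext v; rfl) (by
      apply LinearMap.ext
      intro v
      exact Prod.ext rfl rfl)

theorem EE0_e_coe (V : Type) [AddCommGroup V] [Module ℚ V] :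
    (EE0_e V).toLinearMap = LinearMap.fst ℚ V PUnit := rfl

theorem EE0_lift_inj {E F : Type} [AddCommGroup E] [Module ℚ E] [AddCommGroup F] [Module ℚ F]
    (f : E →ₗ[ℚ] F) (hf : Function.Injective f) :
    Function.Injective (lift f : (ℕ →₀ E) →ₗ[ℚ] (ℕ →₀ F)) :=
  Finsupp.mapRange_injective f (map_zero f) hf

theorem EE0_prodMap_inj {A B C D : Type} [AddCommGroup A] [Module ℚ A] [AddCommGroup B]
    [Module ℚ B] [AddCommGroup C] [Module ℚ C] [AddCommGroup D] [Module ℚ D] (f : A →ₗ[ℚ] C)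
    (g : B →ₗ[ℚ] D) (hf : Function.Injective f) (hg : Function.Injective g) :
    Function.Injective (f.prodMap g) := by
  intro x y h
  have h1 : f x.1 = f y.1 := congrArg Prod.fst h
  have h2 : g x.2 = g y.2 := congrArg Prod.snd h
  exact Prod.ext (hf h1) (hg h2)

theorem EE0_mapE_inj {V P Q V' P' Q' : Type} [AddCommGroup V] [Module ℚ V] [AddCommGroup P]
    [Module ℚ P] [AddCommGroup Q] [Module ℚ Q] [AddCommGroup V'] [Module ℚ V'] [AddCommGroup P']
    [Module ℚ P'] [AddCommGroup Q'] [Module ℚ Q'] (f : V' →ₗ[ℚ] V) (g : P' →ₗ[ℚ] P)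
    (h : Q' →ₗ[ℚ] Q) (hf : Function.Injective f) (hg : Function.Injective g)
    (hh : Function.Injective h) : Function.Injective (mapE f g h) :=
  EE0_prodMap_inj _ _
    (EE0_prodMap_inj _ _ (EE0_lift_inj f hf) (EE0_prodMap_inj _ _ (EE0_lift_inj f hf) hg))
    (EE0_prodMap_inj _ _ hf (EE0_prodMap_inj _ _ (EE0_lift_inj f hf) hh))

theorem blk_EE0 (hG : Stmt_EG0) (hA : Stmt_OKA) (hB : Stmt_OKB) (hC : Stmt_OKC) (hO : Stmt_OKO)
    (hN : Stmt_OKN) (hZ : Stmt_EZR) (hOV : Stmt_OVR) : Stmt_EE0 := by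
  intro L m hm Z S hZS φ hφ V P Q _ _ _ _ _ _ M hM
  obtain rfl : m = 0 := by omega
  let M'' : Str L (FE PUnit PUnit PUnit) := ⟨fun _ _ => ⊥, fun _ _ => ⊥, fun _ => ⊥⟩
  let e : FE (V × PUnit) (P × PUnit) (Q × PUnit) →ₗ[ℚ] FE V P Q :=
    mapE (LinearMap.fst ℚ V PUnit) (LinearMap.fst ℚ P PUnit) (LinearMap.fst ℚ Q PUnit)
  have he : Function.Injective e :=
    EE0_mapE_inj _ _ _ (EE0_e V).injective (EE0_e P).injective (EE0_e Q).injective
  let M' : Str L (FE (V × PUnit) (P × PUnit) (Q × PUnit)) :=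
    ⟨fun i l => if i ∈ Z then (M.x i l).comap e else fl ⊥ ⊥ ⊥ (φ i) l,
      fun W ψ => if (↑W : Set L) ⊆ Z then (M.u W ψ).comap e else ⊥, fun _ => ⊥⟩
  have hM0 := (hG L Z φ V P Q M).mp hM
  have hbot : (⊥ : Submodule ℚ (FE V P Q)).comap e = ⊥ := LinearMap.ker_eq_bot.2 he
  refine ⟨PUnit, PUnit, PUnit, inferInstance, inferInstance, inferInstance, inferInstance,
    inferInstance, inferInstance, M'', M', hZ _ _ _ _ _ _ _ _, ?_, ?_⟩
  · refine (hG L S φ _ _ _ M').mpr ⟨fun i _ => ?_, fun W hW ψ hψ => ?_⟩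
    · by_cases hi : i ∈ Z
      · have h1 : M'.x i = fun l => (M.x i l).comap (mapE (EE0_e V).toLinearMap
            (EE0_e P).toLinearMap (EE0_e Q).toLinearMap) := by
          funext l
          exact if_pos hi
        rw [h1]
        exact hN V P Q (V × PUnit) (P × PUnit) (Q × PUnit) (EE0_e V) (EE0_e P) (EE0_e Q) (φ i)
          (M.x i) (hM0.1 i hi)
      · have h1 : M'.x i = fl ⊥ ⊥ ⊥ (φ i) := by
          funext l
          exact if_neg hi
        rw [h1]
        exact EX0_OK hA hB hC hO _ _ _ _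
    · by_cases hWZ : (↑W : Set L) ⊆ Z
      · show (if (↑W : Set L) ⊆ Z then (M.u W ψ).comap e else ⊥) = ⊥
        rw [if_pos hWZ, hM0.2 W hWZ ψ hψ, hbot]
      · exact if_neg hWZ
  · refine ⟨fun i hi l => ?_, fun W hW ψ => ?_, fun σ hs _ hr => ?_⟩
    · have hsub : Subsingleton (FE PUnit PUnit PUnit) := by infer_instance
      have h1 : M''.x i l = ⊤ := by
        rw [eq_top_iff]
        intro w _
        rw [Subsingleton.elim w 0]
        exact zero_mem _
      show (if i ∈ Z then (M.x i l).comap e else fl ⊥ ⊥ ⊥ (φ i) l) =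
        (M.x i l).comap e ⊓ (M''.x i l).comap (mapE (LinearMap.snd ℚ V PUnit)
          (LinearMap.snd ℚ P PUnit) (LinearMap.snd ℚ Q PUnit))
      rw [if_pos hi, h1, Submodule.comap_top, inf_top_eq]
    · have hsub : Subsingleton (FE PUnit PUnit PUnit) := by infer_instance
      have h1 : M''.u W ψ = ⊤ := by
        rw [eq_top_iff]
        intro w _
        rw [Subsingleton.elim w 0]
        exact zero_mem _
      show (if (↑W : Set L) ⊆ Z then (M.u W ψ).comap e else ⊥) =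
        (M.u W ψ).comap e ⊓ (M''.u W ψ).comap (mapE (LinearMap.snd ℚ V PUnit)
          (LinearMap.snd ℚ P PUnit) (LinearMap.snd ℚ Q PUnit))
      rw [if_pos hW, h1, Submodule.comap_top, inf_top_eq]
    · have := ((hOV L σ).2.2.2 hs).1
      omega

end Pool.NF
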