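import Pool.Agent.Work.MP_b103ef_pos.Interface2

set_option autoImplicit false

open Classical

namespace Pool.NF

/-- an isomorphism as a decomposition with one summand -/
noncomputable def EEQ_dec {V V' : Type} [AddCommGroup V] [Module ℚ V] [AddCommGroup V']
    [Module ℚ V'] (f : V' ≃ₗ[ℚ] V) : Dec V' Unit (fun _ => V) where
  inc := fun _ => f.symm.toLinearMap
  pr := fun _ => f.toLinearMap
  pr_inc := fun _ v => f.apply_symm_apply v
  pr_inc_ne := fun a b _ hab => absurd (Subsingleton.elim a b) hab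
  fin := fun _ => Set.toFinite _
  ext := fun v hv => by
    have h := hv ()
    exact f.map_eq_zero_iff.1 h

theorem EEQ_iInf {L E : Type} [AddCommGroup E] [Module ℚ E] (N : Str L E) :
    Str.iInf (fun _ : Unit => N) = N := by
  cases N
  simp [Str.iInf]

theorem blk_EEQ (hE : Stmt_EDC) : Stmt_EEQ := by
  intro L S φ n V P Q V' P' Q' _ _ _ _ _ _ _ _ _ _ _ _ f g h M hM
  have key := hE L S φ n V' P' Q' Unit (fun _ => V) (fun _ => P) (fun _ => Q)
    (EEQ_dec f) (EEQ_dec g) (EEQ_dec h) (fun _ => M) (fun _ => hM)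
  have e : Dec.fsum (EEQ_dec f) (EEQ_dec g) (EEQ_dec h) (fun _ => M) =
      M.pull (mapE f.toLinearMap g.toLinearMap h.toLinearMap) :=
    EEQ_iInf (M.pull (mapE f.toLinearMap g.toLinearMap h.toLinearMap))
  rw [e] at key
  exact key

end Pool.NF
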