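import Pool.Agent.Work.MP_b103ef_pos.Interface2

/-!
# Block EES (MP_b103ef_al, S02731): step for `EEst`
-/

set_option autoImplicit false

open Classical

namespace Pool.NF

section EESaux

variable {L : Type}

theorem EES_agrRefl {E : Type} [AddCommGroup E] [Module ℚ E] (S : Set L) (n : ℕ)
    (M : Str L E) : Str.Agree S n M M :=
  ⟨fun _ _ _ => rfl, fun _ _ _ => rfl, fun _ _ _ _ => rfl⟩

theorem EES_agrSymm {E : Type} [AddCommGroup E] [Module ℚ E] {S : Set L} {n : ℕ}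
    {M M' : Str L E} (h : Str.Agree S n M M') : Str.Agree S n M' M :=
  ⟨fun i hi l => (h.1 i hi l).symm, fun Z hZ ψ => (h.2.1 Z hZ ψ).symm,
    fun σ a b c => (h.2.2 σ a b c).symm⟩

theorem EES_agrTrans {E : Type} [AddCommGroup E] [Module ℚ E] {S : Set L} {n : ℕ}
    {M M' M'' : Str L E} (h : Str.Agree S n M M') (h' : Str.Agree S n M' M'') :
    Str.Agree S n M M'' :=
  ⟨fun i hi l => (h.1 i hi l).trans (h'.1 i hi l),
    fun Z hZ ψ => (h.2.1 Z hZ ψ).trans (h'.2.1 Z hZ ψ),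
    fun σ a b c => (h.2.2 σ a b c).trans (h'.2.2 σ a b c)⟩

theorem EES_agrPull {E F : Type} [AddCommGroup E] [Module ℚ E] [AddCommGroup F] [Module ℚ F]
    {S : Set L} {n : ℕ} {M M' : Str L E} (f : F →ₗ[ℚ] E) (h : Str.Agree S n M M') :
    Str.Agree S n (M.pull f) (M'.pull f) := by
  refine ⟨fun i hi l => ?_, fun Z hZ ψ => ?_, fun σ a b c => ?_⟩
  · simp only [Str.pull, h.1 i hi l]
  · simp only [Str.pull, h.2.1 Z hZ ψ]
  · simp only [Str.pull, h.2.2 σ a b c]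

theorem EES_agrInf {E : Type} [AddCommGroup E] [Module ℚ E]
    {S : Set L} {n : ℕ} {M M' N N' : Str L E} (h : Str.Agree S n M M')
    (h' : Str.Agree S n N N') : Str.Agree S n (M.inf2 N) (M'.inf2 N') := by
  refine ⟨fun i hi l => ?_, fun Z hZ ψ => ?_, fun σ a b c => ?_⟩
  · simp only [Str.inf2, h.1 i hi l, h'.1 i hi l]
  · simp only [Str.inf2, h.2.1 Z hZ ψ, h'.2.1 Z hZ ψ]
  · simp only [Str.inf2, h.2.2 σ a b c, h'.2.2 σ a b c]

theorem EES_agrMono {E : Type} [AddCommGroup E] [Module ℚ E] {S Z : Set L} {m n : ℕ}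
    {M M' : Str L E} (hOVR : Stmt_OVR) (hZ : Z ⊆ S) (hm : m ≤ n) (h : Str.Agree S n M M') :
    Str.Agree Z m M M' :=
  ⟨fun i hi l => h.1 i (hZ hi) l, fun Y hY ψ => h.2.1 Y (hY.trans hZ) ψ,
    fun σ a b c => h.2.2 σ a ((hOVR L σ).2.1 _ _ hZ b) (c.trans hm)⟩

theorem EES_agrFp {V P Q V' P' Q' : Type} [AddCommGroup V] [Module ℚ V] [AddCommGroup P]
    [Module ℚ P] [AddCommGroup Q] [Module ℚ Q] [AddCommGroup V'] [Module ℚ V'] [AddCommGroup P']
    [Module ℚ P'] [AddCommGroup Q'] [Module ℚ Q']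
    {S : Set L} {n : ℕ} {M N : Str L (FE V P Q)} {M' N' : Str L (FE V' P' Q')}
    (h : Str.Agree S n M N) (h' : Str.Agree S n M' N') :
    Str.Agree S n (fprod M M') (fprod N N') :=
  EES_agrInf (EES_agrPull _ h) (EES_agrPull _ h')

theorem EES_ext {E : Type} [AddCommGroup E] [Module ℚ E] {M N : Str L E}
    (h1 : ∀ i l, M.x i l = N.x i l) (h2 : ∀ Z ψ, M.u Z ψ = N.u Z ψ)
    (h3 : ∀ σ, M.g σ = N.g σ) : M = N := by
  cases M with
  | mk x u g =>
    cases N with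
    | mk x' u' g' =>
      have e1 : x = x' := by funext i l; exact h1 i l
      have e2 : u = u' := by funext Z ψ; exact h2 Z ψ
      have e3 : g = g' := by funext σ; exact h3 σ
      subst e1
      subst e2
      subst e3
      rfl

theorem EES_liftComp {J E F G : Type} [AddCommGroup E] [Module ℚ E] [AddCommGroup F]
    [Module ℚ F] [AddCommGroup G] [Module ℚ G] (f : E →ₗ[ℚ] F) (g : F →ₗ[ℚ] G) :
    (lift (g.comp f) : (J →₀ E) →ₗ[ℚ] (J →₀ G)) = (lift g).comp (lift f) := by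
  apply LinearMap.ext
  intro v
  ext j
  simp [lift]

theorem EES_pp {E F G : Type} [AddCommGroup E] [Module ℚ E] [AddCommGroup F]
    [Module ℚ F] [AddCommGroup G] [Module ℚ G] (M : Str L E) (f : F →ₗ[ℚ] E)
    (g : G →ₗ[ℚ] F) : (M.pull f).pull g = M.pull (f.comp g) := by
  apply EES_ext
  · intro i l
    rfl
  · intro Z ψ
    rfl
  · intro σ
    simp only [Str.pull, EES_liftComp]
    rfl

theorem EES_ip {E F : Type} [AddCommGroup E] [Module ℚ E] [AddCommGroup F]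
    [Module ℚ F] (M N : Str L E) (f : F →ₗ[ℚ] E) :
    (M.inf2 N).pull f = (M.pull f).inf2 (N.pull f) := by
  apply EES_ext
  · intro i l
    rfl
  · intro Z ψ
    rfl
  · intro σ
    rfl

theorem EES_ia {E : Type} [AddCommGroup E] [Module ℚ E] (M N K : Str L E) :
    (M.inf2 N).inf2 K = M.inf2 (N.inf2 K) := by
  apply EES_ext
  · intro i l
    exact inf_assoc _ _ _
  · intro Z ψ
    exact inf_assoc _ _ _
  · intro σ
    exact inf_assoc _ _ _

end EESaux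

section EESassoc

variable {L V P Q V' P' Q' V'' P'' Q'' : Type} [AddCommGroup V] [Module ℚ V] [AddCommGroup P]
  [Module ℚ P] [AddCommGroup Q] [Module ℚ Q] [AddCommGroup V'] [Module ℚ V']
  [AddCommGroup P'] [Module ℚ P'] [AddCommGroup Q'] [Module ℚ Q'] [AddCommGroup V'']
  [Module ℚ V''] [AddCommGroup P''] [Module ℚ P''] [AddCommGroup Q''] [Module ℚ Q'']

theorem EES_assoc (hMPF : Stmt_MPF) (M : Str L (FE V P Q)) (M' : Str L (FE V' P' Q'))
    (D : Str L (FE V'' P'' Q'')) :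
    (fprod M (fprod M' D)).pull (mapE (LinearEquiv.prodAssoc ℚ V V' V'').toLinearMap
      (LinearEquiv.prodAssoc ℚ P P' P'').toLinearMap
      (LinearEquiv.prodAssoc ℚ Q Q' Q'').toLinearMap) = fprod (fprod M M') D := by
  have mc : ∀ (A B C A' B' C' A'' B'' C'' : Type) [AddCommGroup A] [Module ℚ A]
    [AddCommGroup B] [Module ℚ B] [AddCommGroup C] [Module ℚ C] [AddCommGroup A']
    [Module ℚ A'] [AddCommGroup B'] [Module ℚ B'] [AddCommGroup C'] [Module ℚ C']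
    [AddCommGroup A''] [Module ℚ A''] [AddCommGroup B''] [Module ℚ B''] [AddCommGroup C'']
    [Module ℚ C''] (f : A →ₗ[ℚ] A') (g : B →ₗ[ℚ] B') (h : C →ₗ[ℚ] C') (f' : A' →ₗ[ℚ] A'')
    (g' : B' →ₗ[ℚ] B'') (h' : C' →ₗ[ℚ] C''),
    (mapE f' g' h').comp (mapE f g h) = mapE (f'.comp f) (g'.comp g) (h'.comp h) := by
    intro A B C A' B' C' A'' B'' C'' _ _ _ _ _ _ _ _ _ _ _ _ _ _ _ _ _ _ f g h f' g' h'
    exact (hMPF A B C A' B' C' A'' B'' C'' f g h f' g' h').1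
  unfold fprod
  simp only [EES_ip, EES_pp, mc, EES_ia]
  rfl

end EESassoc

theorem EES_fr {L : Type} {S : Set L} {φ : L → V5} {V P Q : Type} [AddCommGroup V] [Module ℚ V]
    [AddCommGroup P] [Module ℚ P] [AddCommGroup Q] [Module ℚ Q] {M : Str L (FE V P Q)} (n : ℕ)
    (h : EG n S φ V P Q M) : FrOK n S φ M := by
  cases n with
  | zero => exact h.1
  | succ k => exact h.2.1

theorem EES_isV {L : Type} (S : Set L) (φ : L → V5) : IsV S (ps ∘ φ) := by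
  intro x _
  simp only [Function.comp]
  cases φ x <;> simp [ps]

/-- one symbol on a full frame structure -/
theorem EES_sym (hESW : Stmt_ESW) (hVLK : Stmt_VLK) (hCRD : Stmt_CRD) {L : Type} (n : ℕ)
    (hEV : EVst L n) (hEE : EEst L n) (S : Set L) (φ : L → V5) (hφ : Hit S φ)
    (κ : Cardinal.{0}) (hκ : Cardinal.aleph0 ≤ κ) {V P Q : Type} [AddCommGroup V] [Module ℚ V]
    [AddCommGroup P] [Module ℚ P] [AddCommGroup Q] [Module ℚ Q] (M : Str L (FE V P Q))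
    (hM : EG n S φ V P Q M) (hF : EFull κ n S φ M)
    (hc : Cardinal.mk (Lab L →₀ FE V P Q) ≤ κ) (σ : Tm L) (hs : σ.IsSym) (ho : σ.Over S)
    (hr : σ.rank = n + 1) : ∃ ΓV Γ, SymOK n S φ M σ ΓV Γ := by
  have hfr := EES_fr n hM
  have hV : Cardinal.mk (Lab L →₀ V) ≤ κ := by
    refine (hCRD.1 (Lab L) V (FE V P Q) incV ?_).trans hc
    intro a b hab
    have := congrArg (fun w : FE V P Q => w.2.1) hab
    simpa [incV] using this
  have hex : ∃ ΓV, (σ.Over (dC S φ) → VAx (VG n) (M.pull incV) σ ΓV) := by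
    by_cases h : σ.Over (dC S φ)
    · obtain ⟨Γ, hΓ⟩ := hVLK L n hEV (dC S φ) (ps ∘ φ) (EES_isV _ _) κ hκ V (M.pull incV)
        hfr.1.2.2.2.2.1 hF.2.2.1 hV σ hs h hr
      exact ⟨Γ, fun _ => hΓ⟩
    · exact ⟨⊥, fun h' => absurd h' h⟩
  obtain ⟨ΓV, hΓV⟩ := hex
  obtain ⟨Γ, hΓ⟩ := hESW L n hEV hEE S φ hφ κ hκ V P Q M hM hF hc σ hs ho hr ΓV hΓV
  exact ⟨ΓV, Γ, hΓ⟩

theorem blk_EES (hEFU : Stmt_EFU) (hEFR : Stmt_EFR) (hEFS : Stmt_EFS) (hESW : Stmt_ESW)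
    (hEUP : Stmt_EUP) (hSSM : Stmt_SSM) (hSAG : Stmt_SAG) (hSMI : Stmt_SMI) (hSEQ : Stmt_SEQ)
    (hEPD : Stmt_EPD) (hEEQ : Stmt_EEQ) (hEMO : Stmt_EMO) (hCRD : Stmt_CRD) (hVLK : Stmt_VLK)
    (hMPF : Stmt_MPF) (hOVR : Stmt_OVR) : Stmt_EES := by
  intro L n hEV hEX hEE m hm Z S hZS φ hφ V P Q _ _ _ _ _ _ M hM
  have hφS : Hit S φ := ⟨⟨hφ.1.choose, hZS hφ.1.choose_spec.1, hφ.1.choose_spec.2⟩,
    ⟨hφ.2.1.choose, hZS hφ.2.1.choose_spec.1, hφ.2.1.choose_spec.2⟩,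
    ⟨hφ.2.2.choose, hZS hφ.2.2.choose_spec.1, hφ.2.2.choose_spec.2⟩⟩
  -- level `k = min m n`
  obtain ⟨k, hk⟩ : ∃ k, k = min m n := ⟨_, rfl⟩
  have hkn : k ≤ n := by omega
  have hkm : k ≤ m := by omega
  have hMk : EG k Z φ V P Q M := hEMO L Z Z φ φ k m V P Q M M hM hkm (Set.Subset.refl _)
    (fun _ _ => rfl) (EES_agrRefl _ _ _)
  obtain ⟨V', P', Q', _, _, _, _, _, _, M2, M0, hM2, hM0, hag0⟩ :=
    hEE k hkn Z S hZS φ hφ V P Q M hMk
  obtain ⟨κ₁, hκ₁⟩ := hEFU L n hEV hEX S φ hφS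
  set κ := max (max κ₁ Cardinal.aleph0) (max
    (Cardinal.mk (Lab L →₀ FE (V × V') (P × P') (Q × Q')))
    (Cardinal.mk (Lab L →₀ FE V' P' Q'))) with hκdef
  have hκ : Cardinal.aleph0 ≤ κ := (le_max_right _ _).trans (le_max_left _ _)
  have hκa : κ₁ ≤ κ := (le_max_left _ _).trans (le_max_left _ _)
  have hκb : Cardinal.mk (Lab L →₀ FE (V × V') (P × P') (Q × Q')) ≤ κ :=
    (le_max_left _ _).trans (le_max_right _ _)
  have hκc : Cardinal.mk (Lab L →₀ FE V' P' Q') ≤ κ := (le_max_right _ _).trans (le_max_right _ _)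
  obtain ⟨VD, PD, QD, _, _, _, _, _, _, D, hD, hDF, hDc⟩ := hκ₁ κ hκa
  -- the structure on `(V × V') × VD`
  have hN : EG n S φ ((V × V') × VD) ((P × P') × PD) ((Q × Q') × QD) (fprod M0 D) :=
    hEPD L S φ n _ _ _ _ _ _ M0 D hM0 hD
  have hNF : EFull κ n S φ (fprod M0 D) := hEFS L n S φ κ _ _ _ _ _ _ M0 D hDF
  have hNc : Cardinal.mk (Lab L →₀ FE ((V × V') × VD) ((P × P') × PD) ((Q × Q') × QD)) ≤ κ :=
    hCRD.2.2.1 (Lab L) _ _ _ _ _ _ κ hκ hκb hDc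
  -- the structure on `V' × VD`
  have hDk : EG k Z φ VD PD QD D := hEMO L S Z φ φ k n VD PD QD D D hD hkn hZS
    (fun _ _ => rfl) (EES_agrRefl _ _ _)
  have hM1 : EG k Z φ (V' × VD) (P' × PD) (Q' × QD) (fprod M2 D) :=
    hEPD L Z φ k _ _ _ _ _ _ M2 D hM2 hDk
  -- the agreement
  set aE : FE ((V × V') × VD) ((P × P') × PD) ((Q × Q') × QD) →ₗ[ℚ]
      FE (V × (V' × VD)) (P × (P' × PD)) (Q × (Q' × QD)) :=
    mapE (LinearEquiv.prodAssoc ℚ V V' VD).toLinearMap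
      (LinearEquiv.prodAssoc ℚ P P' PD).toLinearMap
      (LinearEquiv.prodAssoc ℚ Q Q' QD).toLinearMap with haE
  set bE : FE (V × (V' × VD)) (P × (P' × PD)) (Q × (Q' × QD)) →ₗ[ℚ]
      FE ((V × V') × VD) ((P × P') × PD) ((Q × Q') × QD) :=
    mapE (LinearEquiv.prodAssoc ℚ V V' VD).symm.toLinearMap
      (LinearEquiv.prodAssoc ℚ P P' PD).symm.toLinearMap
      (LinearEquiv.prodAssoc ℚ Q Q' QD).symm.toLinearMap with hbE
  have hab : aE.comp bE = LinearMap.id := by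
    rw [haE, hbE, (hMPF _ _ _ _ _ _ _ _ _ _ _ _ _ _ _).1]
    simp only [LinearEquiv.comp_symm]
    exact (hMPF (V × (V' × VD)) (P × (P' × PD)) (Q × (Q' × QD)) V P Q V P Q 0 0 0 0 0 0).2.2.2.1
  have hpa : (fprod M (fprod M2 D)).pull aE = fprod (fprod M M2) D := EES_assoc hMPF M M2 D
  have hagN : Str.Agree Z k ((fprod M (fprod M2 D)).pull aE) (fprod M0 D) := by
    rw [hpa]
    exact EES_agrFp (EES_agrSymm hag0) (EES_agrRefl _ _ _)
  have hback : ∀ K : Str L (FE (V × (V' × VD)) (P × (P' × PD)) (Q × (Q' × QD))),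
      (K.pull aE).pull bE = K := by
    intro K
    rw [EES_pp, hab]
    apply EES_ext
    · intro i l
      rfl
    · intro Z ψ
      rfl
    · intro σ
      simp only [Str.pull]
      ext v
      simp [lift]
  have hsymN : ∀ σ : Tm L, ∃ Γ, σ.IsSym → σ.Over S → σ.rank = n + 1 →
      ∃ ΓV, SymOK n S φ (fprod M0 D) σ ΓV Γ := by
    intro σ
    by_cases h : σ.IsSym ∧ σ.Over S ∧ σ.rank = n + 1
    · obtain ⟨ΓV, Γ, hΓ⟩ := EES_sym hESW hVLK hCRD n hEV hEE S φ hφS κ hκ (fprod M0 D) hN hNF hNc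
        σ h.1 h.2.1 h.2.2
      exact ⟨Γ, fun _ _ _ => ⟨ΓV, hΓ⟩⟩
    · exact ⟨⊥, fun a b c => absurd ⟨a, b, c⟩ h⟩
  choose f1 hf1 using hsymN
  by_cases hmn : m ≤ n
  · have hkm' : k = m := by omega
    subst hkm'
    obtain ⟨hU, hUa⟩ := hEUP L S φ n _ _ _ (fprod M0 D) f1 hN hf1
    refine ⟨V' × VD, P' × PD, Q' × QD, inferInstance, inferInstance, inferInstance,
      inferInstance, inferInstance, inferInstance, fprod M2 D,
      ((fprod M0 D).upd (n + 1) f1).pull bE, hM1, ?_, ?_⟩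
    · exact hEEQ L S φ (n + 1) _ _ _ _ _ _ (LinearEquiv.prodAssoc ℚ V V' VD).symm
        (LinearEquiv.prodAssoc ℚ P P' PD).symm (LinearEquiv.prodAssoc ℚ Q Q' QD).symm _ hU
    · have h1 : Str.Agree Z k ((fprod M0 D).upd (n + 1) f1) ((fprod M (fprod M2 D)).pull aE) :=
        EES_agrTrans (EES_agrMono hOVR (Set.subset_univ _) hkn (EES_agrSymm hUa))
          (EES_agrSymm hagN)
      have h2 := EES_agrPull bE h1
      rw [hback] at h2
      exact h2
  · have hkn' : k = n := by omega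
    have hmn' : m = n + 1 := by omega
    subst hkn'
    subst hmn'
    -- the structure `M''`
    have hM1F : EFull κ k Z φ (fprod M2 D) :=
      hEFS L k Z φ κ _ _ _ _ _ _ M2 D (hEFR L k hEV hEE S Z φ κ VD PD QD D hφ hZS hDF)
    have hM1c : Cardinal.mk (Lab L →₀ FE (V' × VD) (P' × PD) (Q' × QD)) ≤ κ :=
      hCRD.2.2.1 (Lab L) _ _ _ _ _ _ κ hκ hκc hDc
    have hsymZ : ∀ σ : Tm L, ∃ Γ, σ.IsSym → σ.Over Z → σ.rank = k + 1 →
        ∃ ΓV, SymOK k Z φ (fprod M2 D) σ ΓV Γ := by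
      intro σ
      by_cases h : σ.IsSym ∧ σ.Over Z ∧ σ.rank = k + 1
      · obtain ⟨ΓV, Γ, hΓ⟩ := EES_sym hESW hVLK hCRD k hEV hEE Z φ hφ κ hκ (fprod M2 D) hM1
          hM1F hM1c σ h.1 h.2.1 h.2.2
        exact ⟨Γ, fun _ _ _ => ⟨ΓV, hΓ⟩⟩
      · exact ⟨⊥, fun a b c => absurd ⟨a, b, c⟩ h⟩
    choose f2 hf2 using hsymZ
    obtain ⟨hU2, hU2a⟩ := hEUP L Z φ k _ _ _ (fprod M2 D) f2 hM1 hf2
    set gs : Tm L → Submodule ℚ (Lab L →₀ FE (V × (V' × VD)) (P × (P' × PD)) (Q × (Q' × QD))) :=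
      fun σ => (M.g σ).comap (lift (mapE (LinearMap.fst ℚ V (V' × VD))
        (LinearMap.fst ℚ P (P' × PD)) (LinearMap.fst ℚ Q (Q' × QD)))) ⊓
      (f2 σ).comap (lift (mapE (LinearMap.snd ℚ V (V' × VD))
        (LinearMap.snd ℚ P (P' × PD)) (LinearMap.snd ℚ Q (Q' × QD)))) with hgs
    set f : Tm L → Submodule ℚ (Lab L →₀ FE ((V × V') × VD) ((P × P') × PD) ((Q × Q') × QD)) :=
      fun σ => if σ.Over Z then (gs σ).comap (lift aE) else f1 σ with hf
    have hfok : ∀ σ : Tm L, σ.IsSym → σ.Over S → σ.rank = k + 1 →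
        ∃ ΓV, SymOK k S φ (fprod M0 D) σ ΓV (f σ) := by
      intro σ hs ho hr
      by_cases hoZ : σ.Over Z
      · obtain ⟨ΓV2, h2⟩ := hf2 σ hs hoZ hr
        have h1 := hSMI L Z φ k V P Q M hM σ hs hoZ hr
        have h3 := hSSM L Z φ k _ _ _ _ _ _ M (fprod M2 D) σ _ _ _ _ hoZ h1 h2
        have h4 := hSEQ L Z φ k _ _ _ _ _ _ (LinearEquiv.prodAssoc ℚ V V' VD)
          (LinearEquiv.prodAssoc ℚ P P' PD) (LinearEquiv.prodAssoc ℚ Q Q' QD) _ σ _ _ hoZ h3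
        have h5 := hSAG L S Z φ k _ _ _ _ (fprod M0 D) σ _ _ hZS hs hoZ hr hagN h4
        have e : f σ = (gs σ).comap (lift aE) := if_pos hoZ
        rw [e]
        exact ⟨_, h5⟩
      · have e : f σ = f1 σ := if_neg hoZ
        rw [e]
        exact hf1 σ hs ho hr
    obtain ⟨hU, hUa⟩ := hEUP L S φ k _ _ _ (fprod M0 D) f hN hfok
    refine ⟨V' × VD, P' × PD, Q' × QD, inferInstance, inferInstance, inferInstance,
      inferInstance, inferInstance, inferInstance, (fprod M2 D).upd (k + 1) f2,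
      ((fprod M0 D).upd (k + 1) f).pull bE, hU2, ?_, ?_⟩
    · exact hEEQ L S φ (k + 1) _ _ _ _ _ _ (LinearEquiv.prodAssoc ℚ V V' VD).symm
        (LinearEquiv.prodAssoc ℚ P P' PD).symm (LinearEquiv.prodAssoc ℚ Q Q' QD).symm _ hU
    · have h1 : Str.Agree Z k ((fprod M0 D).upd (k + 1) f) ((fprod M (fprod M2 D)).pull aE) :=
        EES_agrTrans (EES_agrMono hOVR (Set.subset_univ _) le_rfl (EES_agrSymm hUa))
          (EES_agrSymm hagN)
      have h2 := EES_agrPull bE h1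
      rw [hback] at h2
      have h3 : Str.Agree Z k (fprod M (fprod M2 D)) (fprod M ((fprod M2 D).upd (k + 1) f2)) :=
        EES_agrFp (EES_agrRefl _ _ _) (EES_agrMono hOVR (Set.subset_univ _) le_rfl hU2a)
      have h4 := EES_agrTrans h2 h3
      refine ⟨h4.1, h4.2.1, ?_⟩
      intro σ hs ho hr
      by_cases hr' : σ.rank = k + 1
      · have e1 : (((fprod M0 D).upd (k + 1) f).pull bE).g σ =
            ((gs σ).comap (lift aE)).comap (lift bE) := by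
          simp only [Str.pull, Str.upd, if_pos hr', hf, if_pos ho]
        have e2 : (fprod M ((fprod M2 D).upd (k + 1) f2)).g σ = gs σ := by
          simp only [fprod, Str.inf2, Str.pull, Str.upd, if_pos hr', hgs]
        rw [e1, e2]
        have := congrArg (fun h : FE (V × (V' × VD)) (P × (P' × PD)) (Q × (Q' × QD)) →ₗ[ℚ] _ =>
          (gs σ).comap (lift h)) hab
        rw [EES_liftComp, Submodule.comap_comp] at this
        rw [this]
        ext v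
        simp [lift]
      · exact h4.2.2 σ hs ho (by omega)

end Pool.NF
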