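import Pool.Agent.Work.MP_b103ef_pos.Interface2

set_option autoImplicit false

open Classical

namespace Pool.NF

theorem p_EFR (hVFR : Stmt_VFR) (hSUPE : Stmt_SUPE) (hOVR : Stmt_OVR) : Stmt_EFR := by
  intro L n hEV hEE S Z φ κ V P Q _ _ _ _ _ _ M hZ hZS hM
  have hp : ∀ T : Set L, IsV T (pp ∘ φ) := by
    intro T x _
    simp only [Function.comp_apply]
    cases φ x <;> simp [pp]
  have hq : ∀ T : Set L, IsV T (pq ∘ φ) := by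
    intro T x _
    simp only [Function.comp_apply]
    cases φ x <;> simp [pq]
  have hs : ∀ T : Set L, IsV T (ps ∘ φ) := by
    intro T x _
    simp only [Function.comp_apply]
    cases φ x <;> simp [ps]
  have h01 : IsV (d01 S φ) φ := fun x hx => hx.2
  have sC : dC Z φ ⊆ dC S φ := fun x hx => ⟨hZS hx.1, hx.2⟩
  have sB : dB Z φ ⊆ dB S φ := fun x hx => ⟨hZS hx.1, hx.2⟩
  have sA : dA Z φ ⊆ dA S φ := fun x hx => ⟨hZS hx.1, hx.2⟩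
  have s0 : d01 Z φ ⊆ d01 S φ := fun x hx => ⟨hZS hx.1, hx.2⟩
  obtain ⟨m0, m1, m2, m3, m4, m5, m6, m7, m8, m9⟩ := hM
  refine ⟨?_, ?_, ?_, ?_, ?_, ?_, ?_, ?_, ?_, ?_⟩
  · intro α β hα hβ rα rβ hN
    exact m0 α β ((hOVR L α).2.1 _ _ hZS hα) ((hOVR L β).2.1 _ _ hZS hβ) rα rβ
      ((hSUPE L n hEE n Z S φ le_rfl hZS hZ α β hα hβ rα rβ).1 hN)
  · exact (hVFR L n _ _ κ _ _ m1).1 _ hEV (hp _) sC
  · exact (hVFR L n _ _ κ _ _ m2).1 _ hEV (hs _) sC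
  · exact (hVFR L n _ _ κ _ _ m3).1 _ hEV (hq _) sC
  · exact (hVFR L n _ _ κ _ _ m4).1 _ hEV (hp _) sB
  · exact (hVFR L n _ _ κ _ _ m5).1 _ hEV (hq _) sB
  · exact (hVFR L n _ _ κ _ _ m6).1 _ hEV (hp _) sA
  · exact (hVFR L n _ _ κ _ _ m7).1 _ hEV (hq _) sA
  · exact (hVFR L n _ _ κ _ _ m8).1 _ hEV h01 s0
  · exact (hVFR L n _ _ κ _ _ m9).1 _ hEV h01 s0

end Pool.NF
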