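import Pool.Agent.Work.MP_b103ef_pos.Interface2

/-! Block EFU: full frame structures exist. -/

set_option autoImplicit false

open Classical

namespace Pool.NF

/-- the ten tests -/
def EFU_t {L : Type} {V P Q : Type} [AddCommGroup V] [Module ℚ V] [AddCommGroup P] [Module ℚ P]
    [AddCommGroup Q] [Module ℚ Q] (M : Str L (FE V P Q)) (α β : Tm L) (k : Fin 10) : Prop :=
  (k = 0 → ¬ M.Le α β) ∧ (k = 1 → ¬ (M.pull incX).Le α β) ∧ (k = 2 → ¬ (M.pull incV).Le α β) ∧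
  (k = 3 → ¬ (M.pull incY).Le α β) ∧ (k = 4 → ¬ (M.pull incI).Le α β) ∧
  (k = 5 → ¬ (M.pull incK).Le α β) ∧ (k = 6 → ¬ (M.pull incI').Le α β) ∧
  (k = 7 → ¬ (M.pull incK').Le α β) ∧ (k = 8 → ¬ (M.pull incP).Le α β) ∧
  (k = 9 → ¬ (M.pull incQ).Le α β)

/-- there is a test structure -/
def EFU_c {L : Type} (n : ℕ) (S : Set L) (φ : L → V5) (α β : Tm L) (k : Fin 10) : Prop :=
  ∃ (V P Q : Type) (_ : AddCommGroup V) (_ : Module ℚ V) (_ : AddCommGroup P) (_ : Module ℚ P)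
    (_ : AddCommGroup Q) (_ : Module ℚ Q) (M : Str L (FE V P Q)), EG n S φ V P Q M ∧ EFU_t M α β k

/-- **EFU** -/
theorem blk_EFU (hTST : Stmt_TST) (hSMF : Stmt_SMF) (hOVR : Stmt_OVR) : Stmt_EFU := by
  intro L n hEV hEX S φ hHit
  have key : ∀ x : {x : Tm L × Tm L × Fin 10 // EFU_c n S φ x.1 x.2.1 x.2.2},
      EFU_c n S φ x.1.1 x.1.2.1 x.1.2.2 := fun x => x.2
  unfold EFU_c at key
  choose Vt Pt Qt i1 i2 i3 i4 i5 i6 Ms hMs using key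
  obtain ⟨κ₁, hκ₁⟩ := hSMF L S φ n _ Vt Pt Qt Ms (fun a => (hMs a).1)
  have key2 : ∀ (k : Fin 10) (α β : Tm L), EFU_c n S φ α β k → ∃ a, EFU_t (Ms a) α β k :=
    fun k α β h => ⟨⟨(α, β, k), h⟩, (hMs ⟨(α, β, k), h⟩).2⟩
  refine ⟨κ₁, fun κ hκ => ?_⟩
  obtain ⟨V, P, Q, j1, j2, j3, j4, j5, j6, M, hEG, hcard, hM⟩ := hκ₁ κ hκ
  refine ⟨V, P, Q, j1, j2, j3, j4, j5, j6, M, hEG, ?_, hcard⟩
  have hu : ∀ (Z : Set L) (α : Tm L), α.Over Z → α.Over Set.univ := fun Z α h =>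
    (hOVR L α).2.1 Z Set.univ (Set.subset_univ Z) h
  have dd : ∀ {p : Prop} {a b : Fin 10}, a ≠ b → (a = b → p) := fun h1 h2 => absurd h2 h1
  refine ⟨?_, ?_, ?_, ?_, ?_, ?_, ?_, ?_, ?_, ?_⟩
  · intro α β hα hβ hrα hrβ hE
    obtain ⟨V0, P0, Q0, a1, a2, a3, a4, a5, a6, M0, hM0, hL0⟩ := hE
    obtain ⟨a, ha⟩ := key2 0 α β ⟨V0, P0, Q0, a1, a2, a3, a4, a5, a6, M0, hM0,
      fun _ => hL0, dd (by decide), dd (by decide), dd (by decide), dd (by decide), dd (by decide), dd (by decide), dd (by decide), dd (by decide), dd (by decide)⟩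
    exact (hM α β (hu _ _ hα) (hu _ _ hβ) hrα hrβ).1 ⟨a, ha.1 rfl⟩
  · intro α β hα hβ hrα hrβ hE
    obtain ⟨V0, P0, Q0, a1, a2, a3, a4, a5, a6, M0, hM0, hL0⟩ := ((hTST L n hEV hEX S φ hHit α β hrα hrβ).1 hα hβ).1 hE
    obtain ⟨a, ha⟩ := key2 1 α β ⟨V0, P0, Q0, a1, a2, a3, a4, a5, a6, M0, hM0,
      dd (by decide), fun _ => hL0, dd (by decide), dd (by decide), dd (by decide), dd (by decide), dd (by decide), dd (by decide), dd (by decide), dd (by decide)⟩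
    exact (hM α β (hu _ _ hα) (hu _ _ hβ) hrα hrβ).2.1 ⟨a, ha.2.1 rfl⟩
  · intro α β hα hβ hrα hrβ hE
    obtain ⟨V0, P0, Q0, a1, a2, a3, a4, a5, a6, M0, hM0, hL0⟩ := ((hTST L n hEV hEX S φ hHit α β hrα hrβ).1 hα hβ).2.1 hE
    obtain ⟨a, ha⟩ := key2 2 α β ⟨V0, P0, Q0, a1, a2, a3, a4, a5, a6, M0, hM0,
      dd (by decide), dd (by decide), fun _ => hL0, dd (by decide), dd (by decide), dd (by decide), dd (by decide), dd (by decide), dd (by decide), dd (by decide)⟩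
    exact (hM α β (hu _ _ hα) (hu _ _ hβ) hrα hrβ).2.2.1 ⟨a, ha.2.2.1 rfl⟩
  · intro α β hα hβ hrα hrβ hE
    obtain ⟨V0, P0, Q0, a1, a2, a3, a4, a5, a6, M0, hM0, hL0⟩ := ((hTST L n hEV hEX S φ hHit α β hrα hrβ).1 hα hβ).2.2 hE
    obtain ⟨a, ha⟩ := key2 3 α β ⟨V0, P0, Q0, a1, a2, a3, a4, a5, a6, M0, hM0,
      dd (by decide), dd (by decide), dd (by decide), fun _ => hL0, dd (by decide), dd (by decide), dd (by decide), dd (by decide), dd (by decide), dd (by decide)⟩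
    exact (hM α β (hu _ _ hα) (hu _ _ hβ) hrα hrβ).2.2.2.1 ⟨a, ha.2.2.2.1 rfl⟩
  · intro α β hα hβ hrα hrβ hE
    obtain ⟨V0, P0, Q0, a1, a2, a3, a4, a5, a6, M0, hM0, hL0⟩ := ((hTST L n hEV hEX S φ hHit α β hrα hrβ).2.1 hα hβ).1 hE
    obtain ⟨a, ha⟩ := key2 4 α β ⟨V0, P0, Q0, a1, a2, a3, a4, a5, a6, M0, hM0,
      dd (by decide), dd (by decide), dd (by decide), dd (by decide), fun _ => hL0, dd (by decide), dd (by decide), dd (by decide), dd (by decide), dd (by decide)⟩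
    exact (hM α β (hu _ _ hα) (hu _ _ hβ) hrα hrβ).2.2.2.2.1 ⟨a, ha.2.2.2.2.1 rfl⟩
  · intro α β hα hβ hrα hrβ hE
    obtain ⟨V0, P0, Q0, a1, a2, a3, a4, a5, a6, M0, hM0, hL0⟩ := ((hTST L n hEV hEX S φ hHit α β hrα hrβ).2.1 hα hβ).2 hE
    obtain ⟨a, ha⟩ := key2 5 α β ⟨V0, P0, Q0, a1, a2, a3, a4, a5, a6, M0, hM0,
      dd (by decide), dd (by decide), dd (by decide), dd (by decide), dd (by decide), fun _ => hL0, dd (by decide), dd (by decide), dd (by decide), dd (by decide)⟩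
    exact (hM α β (hu _ _ hα) (hu _ _ hβ) hrα hrβ).2.2.2.2.2.1 ⟨a, ha.2.2.2.2.2.1 rfl⟩
  · intro α β hα hβ hrα hrβ hE
    obtain ⟨V0, P0, Q0, a1, a2, a3, a4, a5, a6, M0, hM0, hL0⟩ := ((hTST L n hEV hEX S φ hHit α β hrα hrβ).2.2.1 hα hβ).1 hE
    obtain ⟨a, ha⟩ := key2 6 α β ⟨V0, P0, Q0, a1, a2, a3, a4, a5, a6, M0, hM0,
      dd (by decide), dd (by decide), dd (by decide), dd (by decide), dd (by decide), dd (by decide), fun _ => hL0, dd (by decide), dd (by decide), dd (by decide)⟩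
    exact (hM α β (hu _ _ hα) (hu _ _ hβ) hrα hrβ).2.2.2.2.2.2.1 ⟨a, ha.2.2.2.2.2.2.1 rfl⟩
  · intro α β hα hβ hrα hrβ hE
    obtain ⟨V0, P0, Q0, a1, a2, a3, a4, a5, a6, M0, hM0, hL0⟩ := ((hTST L n hEV hEX S φ hHit α β hrα hrβ).2.2.1 hα hβ).2 hE
    obtain ⟨a, ha⟩ := key2 7 α β ⟨V0, P0, Q0, a1, a2, a3, a4, a5, a6, M0, hM0,
      dd (by decide), dd (by decide), dd (by decide), dd (by decide), dd (by decide), dd (by decide), dd (by decide), fun _ => hL0, dd (by decide), dd (by decide)⟩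
    exact (hM α β (hu _ _ hα) (hu _ _ hβ) hrα hrβ).2.2.2.2.2.2.2.1 ⟨a, ha.2.2.2.2.2.2.2.1 rfl⟩
  · intro α β hα hβ hrα hrβ hE
    obtain ⟨V0, P0, Q0, a1, a2, a3, a4, a5, a6, M0, hM0, hL0⟩ := ((hTST L n hEV hEX S φ hHit α β hrα hrβ).2.2.2 hα hβ hE).1
    obtain ⟨a, ha⟩ := key2 8 α β ⟨V0, P0, Q0, a1, a2, a3, a4, a5, a6, M0, hM0,
      dd (by decide), dd (by decide), dd (by decide), dd (by decide), dd (by decide), dd (by decide), dd (by decide), dd (by decide), fun _ => hL0, dd (by decide)⟩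
    exact (hM α β (hu _ _ hα) (hu _ _ hβ) hrα hrβ).2.2.2.2.2.2.2.2.1 ⟨a, ha.2.2.2.2.2.2.2.2.1 rfl⟩
  · intro α β hα hβ hrα hrβ hE
    obtain ⟨V0, P0, Q0, a1, a2, a3, a4, a5, a6, M0, hM0, hL0⟩ := ((hTST L n hEV hEX S φ hHit α β hrα hrβ).2.2.2 hα hβ hE).2
    obtain ⟨a, ha⟩ := key2 9 α β ⟨V0, P0, Q0, a1, a2, a3, a4, a5, a6, M0, hM0,
      dd (by decide), dd (by decide), dd (by decide), dd (by decide), dd (by decide), dd (by decide), dd (by decide), dd (by decide), dd (by decide), fun _ => hL0⟩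
    exact (hM α β (hu _ _ hα) (hu _ _ hβ) hrα hrβ).2.2.2.2.2.2.2.2.2 ⟨a, ha.2.2.2.2.2.2.2.2.2 rfl⟩

end Pool.NF
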