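import Pool.Agent.Work.MP_b103ef_pos.Interface1

/-! # Block EG0 (helper53): pointwise description of `E_0(S, φ)` -/

set_option autoImplicit false

open Classical

namespace Pool.NF

section

variable {L E F : Type} [AddCommGroup E] [Module ℚ E] [AddCommGroup F] [Module ℚ F]

theorem EG0_hom (hO : Stmt_OVR) {S : Set L} {M : Str L E} {f : E →ₗ[ℚ] E}
    (hx : ∀ i ∈ S, Pr (M.x i) f)
    (hu : ∀ Z : Finset L, (↑Z : Set L) ⊆ S → ∀ ψ, M.u Z ψ = ⊥) : Str.Hom S 0 M M f := by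
  refine ⟨fun i hi l => hx i hi l, fun Z hZ ψ => ?_, fun σ hs _ hr => ?_⟩
  · rw [hu Z hZ ψ]
    exact bot_le
  · have := ((hO L σ).2.2.2 hs).1
    omega

theorem EG0_vb {S : Set L} {ρ : L → V5} {M : Str L E} {inc : F →ₗ[ℚ] E} {pr : E →ₗ[ℚ] F}
    (hp : ∀ v, pr (inc v) = v) (hx : ∀ i ∈ S, Ty (ρ i) (fun l => (M.x i l).comap inc))
    (hu : ∀ Z : Finset L, (↑Z : Set L) ⊆ S → ∀ ψ, M.u Z ψ = ⊥) : VBase S ρ (M.pull inc) := by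
  refine ⟨fun i hi => hx i hi, fun Z hZ ψ => ?_⟩
  show (M.u Z ψ).comap inc = ⊥
  rw [hu Z hZ ψ, eq_bot_iff]
  intro v hv
  have h0 : inc v = 0 := hv
  have h1 := hp v
  rw [h0, map_zero] at h1
  exact h1.symm

theorem EG0_zero {S : Set L} {ρ : L → V5} {M : Str L E} {inc : F →ₗ[ℚ] E} {pr : E →ₗ[ℚ] F}
    (hh : Str.Hom S 0 M M (inc.comp pr)) (hv : VBase S ρ (M.pull inc)) {Z : Finset L}
    (hZ : (↑Z : Set L) ⊆ S) {ψ : L → V5} {w : E} (hw : w ∈ M.u Z ψ) : pr w = 0 := by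
  have h1 : pr w ∈ (M.u Z ψ).comap inc := hh.2.1 Z hZ ψ hw
  have h2 : (M.u Z ψ).comap inc = ⊥ := hv.2 Z hZ ψ
  rw [h2] at h1
  exact h1

theorem EG0_nh {Z : Finset L} {φ : L → V5} (h : ¬ Hit (↑Z : Set L) φ) {S : Set L}
    (hZ : (↑Z : Set L) ⊆ S) :
    (↑Z : Set L) ⊆ dC S φ ∨ (↑Z : Set L) ⊆ dB S φ ∨ (↑Z : Set L) ⊆ dA S φ := by
  by_contra hc
  push Not at hc
  obtain ⟨h1, h2, h3⟩ := hc
  rw [Set.not_subset] at h1 h2 h3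
  obtain ⟨x, hx, hx'⟩ := h1
  obtain ⟨y, hy, hy'⟩ := h2
  obtain ⟨z, hz, hz'⟩ := h3
  refine h ⟨⟨z, hz, ?_⟩, ⟨y, hy, ?_⟩, ⟨x, hx, ?_⟩⟩
  · by_contra hc
    exact hz' ⟨hZ hz, hc⟩
  · by_contra hc
    exact hy' ⟨hZ hy, hc⟩
  · by_contra hc
    exact hx' ⟨hZ hx, hc⟩

end

theorem blk_EG0 (hF : Stmt_FID) (hO : Stmt_OVR) : Stmt_EG0 := by
  intro L S φ V P Q _ _ _ _ _ _ M
  obtain ⟨⟨fX, fV, fY, -⟩, ⟨fI, fK, -⟩, ⟨fI', fK', -⟩, -, ⟨dX, dI, dI'⟩, -⟩ := hF V P Q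
  constructor
  · rintro ⟨⟨⟨a1, a2, a3, a4, a5, a6⟩, ⟨b1, b2, b3, b4⟩, ⟨c1, c2, c3, c4⟩, d1, d2, d3⟩, hu⟩
    refine ⟨fun i hi => ⟨fun hv => ?_, fun hv => ?_, fun hv => ?_, fun hv => ?_⟩, ?_⟩
    · have hi' : i ∈ dC S φ := ⟨hi, hv⟩
      exact ⟨⟨a1.1 i hi', a2.1 i hi', a3.1 i hi'⟩, a4.1 i hi', a5.1 i hi', a6.1 i hi'⟩
    · have hi' : i ∈ dB S φ := ⟨hi, hv⟩
      exact ⟨⟨b1.1 i hi', b2.1 i hi'⟩, b3.1 i hi', b4.1 i hi'⟩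
    · have hi' : i ∈ dA S φ := ⟨hi, hv⟩
      exact ⟨⟨c1.1 i hi', c2.1 i hi'⟩, c3.1 i hi', c4.1 i hi'⟩
    · have hi' : i ∈ d01 S φ := ⟨hi, hv⟩
      exact ⟨fun c c' => (d1 c c').1 i hi', d2.1 i hi', d3.1 i hi'⟩
    · intro Z hZ ψ hor
      by_cases hH : Hit (↑Z : Set L) φ
      · exact hu Z hZ hH ψ (hor.resolve_left fun h => h hH)
      · rw [eq_bot_iff]
        intro w hw
        show w = 0
        rcases EG0_nh hH hZ with h | h | h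
        · rw [← dX w, EG0_zero a1 a4 h hw, EG0_zero a2 a5 h hw, EG0_zero a3 a6 h hw]
          simp
        · rw [← dI w, EG0_zero b1 b3 h hw, EG0_zero b2 b4 h hw]
          simp
        · rw [← dI' w, EG0_zero c1 c3 h hw, EG0_zero c2 c4 h hw]
          simp
  · rintro ⟨hx, hu⟩
    have uC : ∀ Z : Finset L, (↑Z : Set L) ⊆ dC S φ → ∀ ψ, M.u Z ψ = ⊥ := fun Z hZ ψ =>
      hu Z (fun z hz => (hZ hz).1) ψ (Or.inl fun ⟨_, _, z, hz, h⟩ => (hZ hz).2 h)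
    have uB : ∀ Z : Finset L, (↑Z : Set L) ⊆ dB S φ → ∀ ψ, M.u Z ψ = ⊥ := fun Z hZ ψ =>
      hu Z (fun z hz => (hZ hz).1) ψ (Or.inl fun ⟨_, ⟨z, hz, h⟩, _⟩ => (hZ hz).2 h)
    have uA : ∀ Z : Finset L, (↑Z : Set L) ⊆ dA S φ → ∀ ψ, M.u Z ψ = ⊥ := fun Z hZ ψ =>
      hu Z (fun z hz => (hZ hz).1) ψ (Or.inl fun ⟨⟨z, hz, h⟩, _⟩ => (hZ hz).2 h)
    have u0 : ∀ Z : Finset L, (↑Z : Set L) ⊆ d01 S φ → ∀ ψ, M.u Z ψ = ⊥ := fun Z hZ ψ =>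
      uC Z (fun z hz => ⟨(hZ hz).1, fun h => by
        rcases (hZ hz).2 with h' | h' <;> rw [h'] at h <;> exact absurd h (by decide)⟩) ψ
    have xC := fun i (hi : i ∈ dC S φ) => (hx i hi.1).1 hi.2
    have xB := fun i (hi : i ∈ dB S φ) => (hx i hi.1).2.1 hi.2
    have xA := fun i (hi : i ∈ dA S φ) => (hx i hi.1).2.2.1 hi.2
    have x0 := fun i (hi : i ∈ d01 S φ) => (hx i hi.1).2.2.2 hi.2
    refine ⟨⟨⟨?_, ?_, ?_, ?_, ?_, ?_⟩, ⟨?_, ?_, ?_, ?_⟩, ⟨?_, ?_, ?_, ?_⟩, ?_, ?_, ?_⟩, ?_⟩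
    · exact EG0_hom hO (fun i hi => (xC i hi).1.1) uC
    · exact EG0_hom hO (fun i hi => (xC i hi).1.2.1) uC
    · exact EG0_hom hO (fun i hi => (xC i hi).1.2.2) uC
    · exact EG0_vb fX (fun i hi => (xC i hi).2.1) uC
    · exact EG0_vb fV (fun i hi => (xC i hi).2.2.1) uC
    · exact EG0_vb fY (fun i hi => (xC i hi).2.2.2) uC
    · exact EG0_hom hO (fun i hi => (xB i hi).1.1) uB
    · exact EG0_hom hO (fun i hi => (xB i hi).1.2) uB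
    · exact EG0_vb fI (fun i hi => (xB i hi).2.1) uB
    · exact EG0_vb fK (fun i hi => (xB i hi).2.2) uB
    · exact EG0_hom hO (fun i hi => (xA i hi).1.1) uA
    · exact EG0_hom hO (fun i hi => (xA i hi).1.2) uA
    · exact EG0_vb fI' (fun i hi => (xA i hi).2.1) uA
    · exact EG0_vb fK' (fun i hi => (xA i hi).2.2) uA
    · exact fun c c' => EG0_hom hO (fun i hi => (x0 i hi).1 c c') u0
    · exact EG0_hom hO (fun i hi => (x0 i hi).2.1) u0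
    · exact EG0_hom hO (fun i hi => (x0 i hi).2.2) u0
    · exact fun Z hZ _ ψ hne => hu Z hZ ψ (Or.inr hne)

end Pool.NF
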