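import Pool.Agent.Work.MP_b103ef_pos.Interface1

/-! # Block FID (helper98): identities of the frame maps -/

set_option autoImplicit false

open Classical

namespace Pool.NF

namespace FIDaux

section

variable {V P Q : Type} [AddCommGroup V] [Module ℚ V] [AddCommGroup P] [Module ℚ P]
  [AddCommGroup Q] [Module ℚ Q]

theorem sh_succ (v : ℕ →₀ V) (n : ℕ) : sh v (n + 1) = v n :=
  Finsupp.mapDomain_apply Nat.succ_injective v n

theorem sh_zero (v : ℕ →₀ V) : sh v 0 = 0 := by
  refine Finsupp.mapDomain_of_notMem_range v 0 ?_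
  rintro ⟨n, hn⟩
  exact absurd hn (Nat.succ_ne_zero n)

theorem eta_s (z : V) : (mEta (mS z : FX V P) : FY V Q) = 0 := by
  simp [mEta, mS]

theorem eta_t (y : FY V Q) : (mEta (mT y : FX V P) : FY V Q) = 0 := by
  simp [mEta, mT]

theorem kap_r (y : FY V Q) : (mKap (mR y : FX V P) : FY V Q) = 0 := by
  simp [mKap, mR]

theorem rho_kap (x : FX V P) : mRho (mKap x : FY V Q) = 0 := by
  simp only [mRho, mKap, LinearMap.comp_apply, LinearMap.sub_apply, LinearMap.add_apply,
    LinearMap.inl_apply, LinearMap.fst_apply, Finsupp.lapply_apply, Finsupp.lsingle_apply,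
    Finsupp.add_apply]
  rw [show (1 : ℕ) = 0 + 1 from rfl, sh_succ, sh_zero, Finsupp.single_eq_same,
    Finsupp.single_eq_of_ne (by norm_num)]
  abel

theorem incX_apply (x : FX V P) : (incX x : FE V P Q) = (x, (0, 0)) := rfl
theorem incV_apply (z : V) : (incV z : FE V P Q) = (0, (z, 0)) := rfl
theorem incY_apply (y : FY V Q) : (incY y : FE V P Q) = (0, (0, y)) := rfl
theorem prX_apply (v : FE V P Q) : prX v = v.1 := rfl
theorem prV_apply (v : FE V P Q) : prV v = v.2.1 := rfl
theorem prY_apply (v : FE V P Q) : prY v = v.2.2 := rfl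

theorem incI_apply (x : FX V P) : (incI x : FE V P Q) = (x, (0, mEta x)) := by
  simp [incI, incX_apply, incY_apply]

theorem prI_apply (v : FE V P Q) :
    prI v = v.1 - mS v.2.1 - mT v.2.2 + mT (mEta v.1 : FY V Q) := by
  simp [prI, prX_apply, prV_apply, prY_apply]

theorem incK_apply (v : V × FY V Q) :
    (incK v : FE V P Q) = (mS v.1 + mT v.2, (v.1, v.2)) := by
  simp [incK, incX_apply, incY_apply, incV_apply]

theorem prK_apply (v : FE V P Q) : prK v = (v.2.1, v.2.2 - mEta v.1) := by
  simp [prK, prX_apply, prV_apply, prY_apply]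

theorem incI'_apply (v : FX V P × V) :
    (incI' v : FE V P Q) = (v.1, (v.2, mKap v.1)) := by
  simp [incI', incX_apply, incY_apply, incV_apply]

theorem prI'_apply (v : FE V P Q) :
    prI' v = (v.1 - mR v.2.2 + mR (mKap v.1 : FY V Q), v.2.1 - mRho v.2.2) := by
  simp [prI', prX_apply, prV_apply, prY_apply]

theorem incK'_apply (y : FY V Q) : (incK' y : FE V P Q) = (mR y, (mRho y, y)) := by
  simp [incK', incX_apply, incY_apply, incV_apply]

theorem prK'_apply (v : FE V P Q) : prK' v = v.2.2 - mKap v.1 := by
  simp [prK', prX_apply, prY_apply]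

theorem co_ext (v w : FE V P Q) (hP : prP v = prP w) (hQ : prQ v = prQ w)
    (hC : ∀ c : Co, prC c v = prC c w) : v = w := by
  obtain ⟨⟨T, R, p⟩, z, y, q⟩ := v
  obtain ⟨⟨T', R', p'⟩, z', y', q'⟩ := w
  have h1 : T = T' := Finsupp.ext fun n => hC (.T n)
  have h2 : R = R' := Finsupp.ext fun n => hC (.R n)
  have h3 : z = z' := hC .Z
  have h4 : y = y' := Finsupp.ext fun n => hC (.Y n)
  have h5 : p = p' := hP
  have h6 : q = q' := hQ
  rw [h1, h2, h3, h4, h5, h6]

theorem prC_incP (c : Co) (v : P) : prC c (incP v : FE V P Q) = 0 := by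
  cases c <;> simp [prC, incP, incX_apply, prX_apply, prV_apply, prY_apply]

theorem prC_incQ (c : Co) (v : Q) : prC c (incQ v : FE V P Q) = 0 := by
  cases c <;> simp [prC, incQ, incY_apply, prX_apply, prV_apply, prY_apply]

theorem prP_incC (c : Co) (v : V) : prP (incC c v : FE V P Q) = 0 := by
  cases c <;> simp [prP, incC, incX_apply, incV_apply, incY_apply, prX_apply]

theorem prQ_incC (c : Co) (v : V) : prQ (incC c v : FE V P Q) = 0 := by
  cases c <;> simp [prQ, incC, incX_apply, incV_apply, incY_apply, prY_apply]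

theorem prC_incC (c : Co) (v : V) : prC c (incC c v : FE V P Q) = v := by
  cases c <;> simp [prC, incC, incX_apply, incV_apply, incY_apply, prX_apply, prV_apply, prY_apply]

theorem prC_incC_ne (c c' : Co) (v : V) (h : c ≠ c') : prC c (incC c' v : FE V P Q) = 0 := by
  cases c <;> cases c' <;>
    simp [prC, incC, incX_apply, incV_apply, incY_apply, prX_apply, prV_apply, prY_apply,
      Finsupp.single_apply] at h ⊢ <;> tauto

theorem prP_incP (v : P) : prP (incP v : FE V P Q) = v := rfl
theorem prQ_incQ (v : Q) : prQ (incQ v : FE V P Q) = v := rfl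
theorem prQ_incP (v : P) : prQ (incP v : FE V P Q) = 0 := rfl
theorem prP_incQ (v : Q) : prP (incQ v : FE V P Q) = 0 := rfl

theorem sys0 : Sys (e0 : Option (Option Co) → (FE V P Q →ₗ[ℚ] FE V P Q)) := by
  intro v
  set s : Finset (Option (Option Co)) := insert none (insert (some none)
    (insert (some (some Co.Z))
      (v.1.1.support.image (fun n => some (some (Co.T n))) ∪
        (v.1.2.1.support.image (fun n => some (some (Co.R n))) ∪
          v.2.2.1.support.image (fun n => some (some (Co.Y n))))))) with hs
  have hzero : ∀ a, a ∉ s → e0 a v = 0 := by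
    intro a ha
    rcases a with _ | _ | c
    · exact absurd (by simp [hs]) ha
    · exact absurd (by simp [hs]) ha
    · have hc : prC c v = 0 := by
        cases c with
        | T n =>
          by_contra hne
          apply ha
          have : n ∈ v.1.1.support := Finsupp.mem_support_iff.2 hne
          simp only [hs, Finset.mem_insert, Finset.mem_union, Finset.mem_image]
          exact Or.inr (Or.inr (Or.inr (Or.inl ⟨n, this, rfl⟩)))
        | R n =>
          by_contra hne
          apply ha
          have : n ∈ v.1.2.1.support := Finsupp.mem_support_iff.2 hne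
          simp only [hs, Finset.mem_insert, Finset.mem_union, Finset.mem_image]
          exact Or.inr (Or.inr (Or.inr (Or.inr (Or.inl ⟨n, this, rfl⟩))))
        | Z => exact absurd (by simp [hs]) ha
        | Y n =>
          by_contra hne
          apply ha
          have : n ∈ v.2.2.1.support := Finsupp.mem_support_iff.2 hne
          simp only [hs, Finset.mem_insert, Finset.mem_union, Finset.mem_image]
          exact Or.inr (Or.inr (Or.inr (Or.inr (Or.inr ⟨n, this, rfl⟩))))
      change incC c (prC c v) = 0
      rw [hc, map_zero]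
  refine ⟨s, hzero, ?_⟩
  refine co_ext _ _ ?_ ?_ ?_
  · rw [map_sum, Finset.sum_eq_single_of_mem none (by simp [hs])]
    · exact prP_incP _
    · intro a _ ha
      rcases a with _ | _ | c
      · exact absurd rfl ha
      · exact prP_incQ _
      · exact prP_incC c _
  · rw [map_sum, Finset.sum_eq_single_of_mem (some none) (by simp [hs])]
    · exact prQ_incQ _
    · intro a _ ha
      rcases a with _ | _ | c
      · exact prQ_incP _
      · exact absurd rfl ha
      · exact prQ_incC c _
  · intro c
    rw [map_sum, Finset.sum_eq_single (some (some c))]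
    · exact prC_incC c _
    · intro a _ ha
      rcases a with _ | _ | c'
      · exact prC_incP c _
      · exact prC_incQ c _
      · refine prC_incC_ne c c' _ ?_
        intro h
        exact ha (by rw [h])
    · intro hn
      rw [hzero _ hn, map_zero]

end

end FIDaux

open FIDaux in
theorem p_FID : Stmt_FID := by
  intro V P Q _ _ _ _ _ _
  have k1 : ∀ v : FE V P Q, incX (prX v) + (incV (prV v) + incY (prY v)) = v := by
    intro v
    rw [incX_apply, incV_apply, incY_apply, prX_apply, prV_apply, prY_apply]
    refine Prod.ext ?_ (Prod.ext ?_ ?_) <;> simp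
  have k2 : ∀ v : FE V P Q, incI (prI v) + incK (prK v) = v := by
    intro v
    obtain ⟨x, z, y⟩ := v
    rw [prI_apply, prK_apply, incI_apply, incK_apply]
    refine Prod.ext ?_ (Prod.ext ?_ ?_)
    · simp only [Prod.fst_add, map_sub]
      abel
    · simp
    · simp only [Prod.snd_add, map_sub, map_add, eta_s, eta_t]
      abel
  have k3 : ∀ v : FE V P Q, incI' (prI' v) + incK' (prK' v) = v := by
    intro v
    obtain ⟨x, z, y⟩ := v
    rw [prI'_apply, prK'_apply, incI'_apply, incK'_apply]
    refine Prod.ext ?_ (Prod.ext ?_ ?_)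
    · simp only [Prod.fst_add, map_sub]
      abel
    · simp only [Prod.fst_add, Prod.snd_add, map_sub, rho_kap]
      abel
    · simp only [Prod.snd_add, map_sub, map_add, kap_r]
      abel
  refine ⟨⟨fun _ => rfl, fun _ => rfl, fun _ => rfl, fun _ => rfl, fun _ => rfl, fun _ => rfl,
    fun _ => rfl, fun _ => rfl, fun _ => rfl⟩, ⟨?_, ?_, ?_, ?_⟩, ⟨?_, ?_, ?_, ?_⟩,
    ⟨prP_incP, prQ_incQ, prQ_incP, prP_incQ, prC_incP, prC_incQ, prP_incC, prQ_incC, prC_incC,
      prC_incC_ne⟩, ⟨k1, k2, k3⟩, ⟨?_, ?_, ?_, sys0⟩⟩
  · intro v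
    rw [prI_apply, incI_apply]
    simp
  · intro v
    rw [prK_apply, incK_apply]
    simp [eta_s, eta_t]
  · intro v
    rw [prK_apply, incI_apply]
    simp
  · intro v
    rw [prI_apply, incK_apply]
    simp [eta_s, eta_t]
  · intro v
    rw [prI'_apply, incI'_apply]
    simp [rho_kap]
  · intro v
    rw [prK'_apply, incK'_apply]
    simp [kap_r]
  · intro v
    rw [prK'_apply, incI'_apply]
    simp
  · intro v
    rw [prI'_apply, incK'_apply]
    simp [kap_r]
  · intro v
    refine ⟨Finset.univ, fun a ha => absurd (Finset.mem_univ a) ha, ?_⟩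
    rw [Fin.sum_univ_three, add_assoc]
    exact k1 v
  · intro v
    refine ⟨Finset.univ, fun a ha => absurd (Finset.mem_univ a) ha, ?_⟩
    rw [Fin.sum_univ_two]
    exact k2 v
  · intro v
    refine ⟨Finset.univ, fun a ha => absurd (Finset.mem_univ a) ha, ?_⟩
    rw [Fin.sum_univ_two]
    exact k3 v

end Pool.NF
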