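import Pool.Agent.Work.MP_b103ef_pos.Interface3
import Pool.Agent.Work.MP_b103ef_pos.B_FID

/-!
# EK1: the identities for `lk` in `K`
-/

set_option autoImplicit false

open Classical

namespace Pool.NF

namespace EK

variable {L : Type}

theorem hom_mono {E F : Type} [AddCommGroup E] [Module ℚ E] [AddCommGroup F] [Module ℚ F]
    {S : Set L} {n m : ℕ} (hmn : m ≤ n) {M : Str L E} {M' : Str L F} {f : E →ₗ[ℚ] F}
    (h : Str.Hom S n M M' f) : Str.Hom S m M M' f :=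
  ⟨h.1, h.2.1, fun σ h1 h2 h3 => h.2.2 σ h1 h2 (h3.trans hmn)⟩

/-- The axiom of a symbol with nonhitting index set holds in frame structures. -/
theorem glue (hVXG : Stmt_VXG) (n : ℕ) (φ : L → V5) {V P Q : Type} [AddCommGroup V] [Module ℚ V]
    [AddCommGroup P] [Module ℚ P] [AddCommGroup Q] [Module ℚ Q] (M : Str L (FE V P Q))
    (hM : FrOK (n + 1) Set.univ φ M) (Z : Finset L) (hZ : ¬ Hit (↑Z : Set L) φ) (σ : Tm L)
    (hs : σ.IsSym) (hσ : ∀ S : Set L, (↑Z : Set L) ⊆ S → σ.Over S) (hr : σ.rank = n + 1) :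
    VAx (VG n) M σ (M.g σ) := by
  obtain ⟨⟨hX, hV, hY, vX, vV, vY⟩, ⟨hI, hK, vI, vK⟩, ⟨hI', hK', vI', vK'⟩, _⟩ := hM
  obtain ⟨f1, f2, f3, _, _, s1, s2, s3, _⟩ := p_FID V P Q
  have hcase : (↑Z : Set L) ⊆ dC Set.univ φ ∨ (↑Z : Set L) ⊆ dB Set.univ φ ∨
      (↑Z : Set L) ⊆ dA Set.univ φ := by
    by_contra hcon
    push Not at hcon
    obtain ⟨h1, h2, h3⟩ := hcon
    apply hZ
    rw [Set.not_subset] at h1 h2 h3
    obtain ⟨c, hc, hc'⟩ := h1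
    obtain ⟨b, hb, hb'⟩ := h2
    obtain ⟨a, ha, ha'⟩ := h3
    refine ⟨⟨a, ha, ?_⟩, ⟨b, hb, ?_⟩, ⟨c, hc, ?_⟩⟩
    · by_contra h; exact ha' ⟨Set.mem_univ _, h⟩
    · by_contra h; exact hb' ⟨Set.mem_univ _, h⟩
    · by_contra h; exact hc' ⟨Set.mem_univ _, h⟩
  rcases hcase with hc | hc | hc
  · have ho := hσ _ hc
    refine hVXG L (dC Set.univ φ) n (FE V P Q) (Fin 3) _ s1 M ?_ σ (M.g σ) ho hr ?_ ?_
    · intro a
      fin_cases a
      · exact hom_mono (Nat.le_succ n) hX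
      · exact hom_mono (Nat.le_succ n) hV
      · exact hom_mono (Nat.le_succ n) hY
    · intro a
      fin_cases a
      · exact hX.2.2 σ hs ho hr.le
      · exact hV.2.2 σ hs ho hr.le
      · exact hY.2.2 σ hs ho hr.le
    · intro a
      fin_cases a
      · exact ⟨_, _, _, incX, prX, f1.1, rfl, vX.2 σ ho hr⟩
      · exact ⟨_, _, _, incV, prV, f1.2.1, rfl, vV.2 σ ho hr⟩
      · exact ⟨_, _, _, incY, prY, f1.2.2.1, rfl, vY.2 σ ho hr⟩
  · have ho := hσ _ hc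
    refine hVXG L (dB Set.univ φ) n (FE V P Q) (Fin 2) _ s2 M ?_ σ (M.g σ) ho hr ?_ ?_
    · intro a
      fin_cases a
      · exact hom_mono (Nat.le_succ n) hI
      · exact hom_mono (Nat.le_succ n) hK
    · intro a
      fin_cases a
      · exact hI.2.2 σ hs ho hr.le
      · exact hK.2.2 σ hs ho hr.le
    · intro a
      fin_cases a
      · exact ⟨_, _, _, incI, prI, f2.1, rfl, vI.2 σ ho hr⟩
      · exact ⟨_, _, _, incK, prK, f2.2.1, rfl, vK.2 σ ho hr⟩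
  · have ho := hσ _ hc
    refine hVXG L (dA Set.univ φ) n (FE V P Q) (Fin 2) _ s3 M ?_ σ (M.g σ) ho hr ?_ ?_
    · intro a
      fin_cases a
      · exact hom_mono (Nat.le_succ n) hI'
      · exact hom_mono (Nat.le_succ n) hK'
    · intro a
      fin_cases a
      · exact hI'.2.2 σ hs ho hr.le
      · exact hK'.2.2 σ hs ho hr.le
    · intro a
      fin_cases a
      · exact ⟨_, _, _, incI', prI', f3.1, rfl, vI'.2 σ ho hr⟩
      · exact ⟨_, _, _, incK', prK', f3.2.1, rfl, vK'.2 σ ho hr⟩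

/-- An inequality that holds in all models holds in `K`. -/
theorem qle [Lattice L] (hTLM : Stmt_TLM) (hA : AllExt L) (D : KData L) (n : ℕ) (α β : Tm L)
    (hα : α.Over Set.univ) (hβ : β.Over Set.univ) (rα : α.rank ≤ n) (rβ : β.rank ≤ n)
    (hV : ∀ φ : L → V5, IsPt φ → IsV Set.univ φ → ∀ (E : Type) [AddCommGroup E] [Module ℚ E]
      (M : Str L E), VG n Set.univ φ E M → M.Le α β)
    (hE : ∀ φ : L → V5, IsPt φ → Hit Set.univ φ → ∀ (V P Q : Type) [AddCommGroup V] [Module ℚ V]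
      [AddCommGroup P] [Module ℚ P] [AddCommGroup Q] [Module ℚ Q] (M : Str L (FE V P Q)),
      EG n Set.univ φ V P Q M → M.Le α β) : D.q α ≤ D.q β :=
  (D.le_iff α β hα hβ).2 ((hTLM L hA α β n hα hβ rα rβ).2 ⟨hV, hE⟩)

end EK

/-- The conclusions in one structure. -/
def EK1.Con {L E : Type} [AddCommGroup E] [Module ℚ E] (M : Str L E) (Z : Finset L) (r : L → V5)
    (j : Lab L) (α β : Tm L) : Prop :=
    M.Le (.inf (.lk Z r j α β) (.sup α (.T0 Z r j))) (.sup (.inf α β) (.T0 Z r j)) ∧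
    M.Le (.sup (.inf α β) (.T0 Z r j)) (.inf (.lk Z r j α β) (.sup α (.T0 Z r j))) ∧
    M.Le (.sup (.lk Z r j α β) α) (.sup α (.T1 Z r j)) ∧
    M.Le (.sup α (.T1 Z r j)) (.sup (.lk Z r j α β) α) ∧
    M.Le (.T0 Z r j) (.T1 Z r j) ∧ M.Le (.inf (.T1 Z r j) α) (.T0 Z r j) ∧
    M.Le (.inf (.T1 Z r j) α) (.inf α β)

theorem EK1.core (hSAN : Stmt_SAN) {L : Type} (Z : Finset L) (r : L → V5) (j : Lab L)
    (α β : Tm L) (hα : α.Over Set.univ) (hβ : β.Over Set.univ)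
    (hσ : (Tm.lk Z r j α β).Over Set.univ) (hj : j ∉ α.vars ∪ β.vars)
    (E : Type) [AddCommGroup E] [Module ℚ E] (M : Str L E)
    (hS : Sane Set.univ (max α.rank β.rank + 1) M)
    (hM : MAP (M.ev (insert j (α.vars ∪ β.vars)) (Tm.T0 Z r j))
        (M.ev (insert j (α.vars ∪ β.vars)) (Tm.T1 Z r j))
        (M.ev (insert j (α.vars ∪ β.vars)) α ⊓ M.ev (insert j (α.vars ∪ β.vars)) β)
        (M.ev (insert j (α.vars ∪ β.vars)) α) (M.g (.lk Z r j α β))) :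
    EK1.Con M Z r j α β := by
  obtain ⟨s1, s2, s3⟩ := hSAN L Set.univ (max α.rank β.rank + 1) E M hS
  set G := insert j (α.vars ∪ β.vars) with hG
  have hjG : j ∈ G := Finset.mem_insert_self _ _
  have hαG : α.vars ⊆ G := Finset.subset_union_left.trans (Finset.subset_insert _ _)
  have hβG : β.vars ⊆ G := Finset.subset_union_right.trans (Finset.subset_insert _ _)
  have hjα : j ∉ α.vars := fun h => hj (Finset.mem_union_left _ h)
  have h0 : (Tm.T0 Z r j).Over Set.univ := by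
    intro k _
    exact ⟨⟨Set.mem_univ _, Set.mem_univ _⟩, Set.subset_univ _⟩
  have h1 : (Tm.T1 Z r j).Over Set.univ := by
    intro k _
    exact ⟨⟨Set.mem_univ _, Set.mem_univ _⟩, Set.subset_univ _⟩
  have rα : α.rank ≤ max α.rank β.rank + 1 := (le_max_left _ _).trans (Nat.le_succ _)
  have rβ : β.rank ≤ max α.rank β.rank + 1 := (le_max_right _ _).trans (Nat.le_succ _)
  have r0 : (Tm.T0 Z r j).rank ≤ max α.rank β.rank + 1 := Nat.zero_le _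
  have r1 : (Tm.T1 Z r j).rank ≤ max α.rank β.rank + 1 := Nat.zero_le _
  have rσ : (Tm.lk Z r j α β).rank ≤ max α.rank β.rank + 1 := le_rfl
  have v0 : (Tm.T0 Z r j).vars ⊆ G := by
    intro k hk
    rw [Finset.mem_singleton.1 hk]; exact hjG
  have v1 : (Tm.T1 Z r j).vars ⊆ G := by
    intro k hk
    rw [Finset.mem_singleton.1 hk]; exact hjG
  have vσ : (Tm.lk Z r j α β).vars ⊆ G := le_rfl
  -- box and values
  have b0 : box G M.B ≤ M.ev G (.T0 Z r j) := (s1 _ h0 r0 G v0).1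
  have bα : box G M.B ≤ M.ev G α := (s1 _ hα rα G hαG).1
  have bβ : box G M.B ≤ M.ev G β := (s1 _ hβ rβ G hβG).1
  have hev : M.ev G (.lk Z r j α β) = M.g (.lk Z r j α β) := by
    change M.g (.lk Z r j α β) ⊔ box G M.B = _
    rw [sup_eq_left]
    refine b0.trans ?_
    refine le_trans ?_ (hM.1.symm.le.trans inf_le_left)
    exact le_sup_right
  have h01 : M.ev G (.T0 Z r j) ≤ M.ev G (.T1 Z r j) := by
    change box {j} (fun k => M.B k ⊔ (M.un (.tau' Z r) ⊓ M.A k)) ⊔ box G M.B ≤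
      box {j} (fun k => M.B k ⊔ (M.un (.tau Z r) ⊓ M.A k)) ⊔ box G M.B
    refine sup_le_sup_right ?_ _
    intro v hv k
    refine ⟨fun hk => ?_, (hv k).2⟩
    have h2 : M.un (.tau' Z r) ≤ M.un (.tau Z r) := inf_le_left
    exact (sup_le_sup_left (inf_le_inf_right _ h2) _) ((hv k).1 hk)
  have h1a : M.ev G (.T1 Z r j) ⊓ M.ev G α ≤ box G M.B :=
    s3 α hα rα j hjα _ G (Finset.insert_subset hjG hαG)
  have key : ∀ γ δ : Tm L, γ.Over Set.univ → δ.Over Set.univ →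
      γ.rank ≤ max α.rank β.rank + 1 → δ.rank ≤ max α.rank β.rank + 1 → γ.vars ⊆ G →
      δ.vars ⊆ G → M.ev G γ ≤ M.ev G δ → M.Le γ δ := by
    intro γ δ hγ hδ rγ rδ vγ vδ h
    exact ((s2 γ δ hγ hδ rγ rδ G (Finset.union_subset vγ vδ)).1).2 h
  refine ⟨?_, ?_, ?_, ?_, ?_, ?_, ?_⟩
  · refine key _ _ ⟨hσ, hα, h0⟩ ⟨⟨hα, hβ⟩, h0⟩ (max_le rσ (max_le rα r0))
      (max_le (max_le rα rβ) r0) (Finset.union_subset vσ (Finset.union_subset hαG v0))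
      (Finset.union_subset (Finset.union_subset hαG hβG) v0) ?_
    change M.ev G (.lk Z r j α β) ⊓ (M.ev G α ⊔ M.ev G (.T0 Z r j)) ≤
      (M.ev G α ⊓ M.ev G β) ⊔ M.ev G (.T0 Z r j)
    rw [hev]; exact hM.1.le
  · refine key _ _ ⟨⟨hα, hβ⟩, h0⟩ ⟨hσ, hα, h0⟩ (max_le (max_le rα rβ) r0)
      (max_le rσ (max_le rα r0))
      (Finset.union_subset (Finset.union_subset hαG hβG) v0)
      (Finset.union_subset vσ (Finset.union_subset hαG v0)) ?_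
    change (M.ev G α ⊓ M.ev G β) ⊔ M.ev G (.T0 Z r j) ≤
      M.ev G (.lk Z r j α β) ⊓ (M.ev G α ⊔ M.ev G (.T0 Z r j))
    rw [hev]; exact hM.1.ge
  · refine key _ _ ⟨hσ, hα⟩ ⟨hα, h1⟩ (max_le rσ rα) (max_le rα r1)
      (Finset.union_subset vσ hαG) (Finset.union_subset hαG v1) ?_
    change M.ev G (.lk Z r j α β) ⊔ M.ev G α ≤ M.ev G α ⊔ M.ev G (.T1 Z r j)
    rw [hev]; exact hM.2.le
  · refine key _ _ ⟨hα, h1⟩ ⟨hσ, hα⟩ (max_le rα r1) (max_le rσ rα)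
      (Finset.union_subset hαG v1) (Finset.union_subset vσ hαG) ?_
    change M.ev G α ⊔ M.ev G (.T1 Z r j) ≤ M.ev G (.lk Z r j α β) ⊔ M.ev G α
    rw [hev]; exact hM.2.ge
  · exact key _ _ h0 h1 r0 r1 v0 v1 h01
  · refine key _ _ ⟨h1, hα⟩ h0 (max_le r1 rα) r0 (Finset.union_subset v1 hαG) v0 ?_
    exact h1a.trans b0
  · refine key _ _ ⟨h1, hα⟩ ⟨hα, hβ⟩ (max_le r1 rα) (max_le rα rβ)
      (Finset.union_subset v1 hαG) (Finset.union_subset hαG hβG) ?_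
    exact h1a.trans (le_inf bα bβ)

theorem p_EK1 (hTLM : Stmt_TLM) (hVXG : Stmt_VXG) (_hVMO : Stmt_VMO) (hSAN : Stmt_SAN)
    (hVSN : Stmt_VSN) (hESN : Stmt_ESN) (hOVR : Stmt_OVR) (_hBND : Stmt_BND) : Stmt_EK1 := by
  intro L _ hA D Z r j α β hα hβ hj hLoc
  set n := max α.rank β.rank with hn
  have hαu : α.Over Set.univ := (hOVR L α).2.1 _ _ (Set.subset_univ _) hα
  have hβu : β.Over Set.univ := (hOVR L β).2.1 _ _ (Set.subset_univ _) hβ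
  have hσ : ∀ S : Set L, (↑Z : Set L) ⊆ S → (Tm.lk Z r j α β).Over S :=
    fun S hS => ⟨hS, hα, hβ, hj⟩
  have hσu := hσ Set.univ (Set.subset_univ _)
  have hjn : j ∉ α.vars ∪ β.vars := hLoc.2.2.2.1
  have h0 : (Tm.T0 Z r j).Over Set.univ := by
    intro k _
    exact ⟨⟨Set.mem_univ _, Set.mem_univ _⟩, Set.subset_univ _⟩
  have h1 : (Tm.T1 Z r j).Over Set.univ := by
    intro k _
    exact ⟨⟨Set.mem_univ _, Set.mem_univ _⟩, Set.subset_univ _⟩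
  have rα : α.rank ≤ n + 1 := (le_max_left _ _).trans (Nat.le_succ _)
  have rβ : β.rank ≤ n + 1 := (le_max_right _ _).trans (Nat.le_succ _)
  have r0 : (Tm.T0 Z r j).rank ≤ n + 1 := Nat.zero_le _
  have r1 : (Tm.T1 Z r j).rank ≤ n + 1 := Nat.zero_le _
  have rσ : (Tm.lk Z r j α β).rank ≤ n + 1 := le_rfl
  have mV : ∀ φ : L → V5, IsPt φ → IsV Set.univ φ → ∀ (E : Type) [AddCommGroup E] [Module ℚ E]
      (M : Str L E), VG (n + 1) Set.univ φ E M → EK1.Con M Z r j α β := by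
    intro φ _ _ E _ _ M hM
    exact EK1.core hSAN Z r j α β hαu hβu hσu hjn E M (hVSN L _ _ _ E M hM)
      ((hM.2 _ hσu rfl).1 hLoc).1
  have mE : ∀ φ : L → V5, IsPt φ → Hit Set.univ φ → ∀ (V P Q : Type) [AddCommGroup V]
      [Module ℚ V] [AddCommGroup P] [Module ℚ P] [AddCommGroup Q] [Module ℚ Q]
      (M : Str L (FE V P Q)), EG (n + 1) Set.univ φ V P Q M → EK1.Con M Z r j α β := by
    intro φ _ _ V P Q _ _ _ _ _ _ M hM
    refine EK1.core hSAN Z r j α β hαu hβu hσu hjn (FE V P Q) M (hESN L _ _ _ V P Q M hM) ?_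
    by_cases hH : Hit (↑Z : Set L) φ
    · exact (hM.2.2 _ hσu rfl hH).1 hLoc
    · have h2 := EK.glue hVXG n φ M hM.2.1 Z hH (.lk Z r j α β) trivial hσ rfl
      exact (h2.1 hLoc).1
  have oi : (Tm.inf α β).Over Set.univ := ⟨hαu, hβu⟩
  have oa0 : (Tm.sup α (.T0 Z r j)).Over Set.univ := ⟨hαu, h0⟩
  have oa1 : (Tm.sup α (.T1 Z r j)).Over Set.univ := ⟨hαu, h1⟩
  have e1 : D.q (.inf (.lk Z r j α β) (.sup α (.T0 Z r j))) =
      D.q (.lk Z r j α β) ⊓ (D.q α ⊔ D.q (.T0 Z r j)) := by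
    rw [D.inf _ _ hσu oa0, D.sup _ _ hαu h0]
  have e2 : D.q (.sup (.inf α β) (.T0 Z r j)) = (D.q α ⊓ D.q β) ⊔ D.q (.T0 Z r j) := by
    rw [D.sup _ _ oi h0, D.inf _ _ hαu hβu]
  have e3 : D.q (.sup (.lk Z r j α β) α) = D.q (.lk Z r j α β) ⊔ D.q α := D.sup _ _ hσu hαu
  have e4 : D.q (.sup α (.T1 Z r j)) = D.q α ⊔ D.q (.T1 Z r j) := D.sup _ _ hαu h1
  have e5 : D.q (.inf (.T1 Z r j) α) = D.q (.T1 Z r j) ⊓ D.q α := D.inf _ _ h1 hαu
  have e6 : D.q (.inf α β) = D.q α ⊓ D.q β := D.inf _ _ hαu hβu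
  refine ⟨⟨?_, ?_⟩, ?_, ?_, ?_⟩
  · rw [← e1, ← e2]
    apply le_antisymm
    · exact EK.qle hTLM hA D (n + 1) _ _ ⟨hσu, oa0⟩ ⟨oi, h0⟩ (max_le rσ (max_le rα r0)) (max_le (max_le rα rβ) r0)
        (fun φ h2 h3 E _ _ M h4 => (mV φ h2 h3 E M h4).1)
        (fun φ h2 h3 V P Q _ _ _ _ _ _ M h4 => (mE φ h2 h3 V P Q M h4).1)
    · exact EK.qle hTLM hA D (n + 1) _ _ ⟨oi, h0⟩ ⟨hσu, oa0⟩ (max_le (max_le rα rβ) r0) (max_le rσ (max_le rα r0))
        (fun φ h2 h3 E _ _ M h4 => (mV φ h2 h3 E M h4).2.1)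
        (fun φ h2 h3 V P Q _ _ _ _ _ _ M h4 => (mE φ h2 h3 V P Q M h4).2.1)
  · rw [← e3, ← e4]
    apply le_antisymm
    · exact EK.qle hTLM hA D (n + 1) _ _ ⟨hσu, hαu⟩ oa1 (max_le rσ rα) (max_le rα r1)
        (fun φ h2 h3 E _ _ M h4 => (mV φ h2 h3 E M h4).2.2.1)
        (fun φ h2 h3 V P Q _ _ _ _ _ _ M h4 => (mE φ h2 h3 V P Q M h4).2.2.1)
    · exact EK.qle hTLM hA D (n + 1) _ _ oa1 ⟨hσu, hαu⟩ (max_le rα r1) (max_le rσ rα)
        (fun φ h2 h3 E _ _ M h4 => (mV φ h2 h3 E M h4).2.2.2.1)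
        (fun φ h2 h3 V P Q _ _ _ _ _ _ M h4 => (mE φ h2 h3 V P Q M h4).2.2.2.1)
  · exact EK.qle hTLM hA D (n + 1) _ _ h0 h1 r0 r1
        (fun φ h2 h3 E _ _ M h4 => (mV φ h2 h3 E M h4).2.2.2.2.1)
        (fun φ h2 h3 V P Q _ _ _ _ _ _ M h4 => (mE φ h2 h3 V P Q M h4).2.2.2.2.1)
  · rw [← e5]
    exact EK.qle hTLM hA D (n + 1) _ _ ⟨h1, hαu⟩ h0 (max_le r1 rα) r0
        (fun φ h2 h3 E _ _ M h4 => (mV φ h2 h3 E M h4).2.2.2.2.2.1)
        (fun φ h2 h3 V P Q _ _ _ _ _ _ M h4 => (mE φ h2 h3 V P Q M h4).2.2.2.2.2.1)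
  · rw [← e5, ← e6]
    exact EK.qle hTLM hA D (n + 1) _ _ ⟨h1, hαu⟩ oi (max_le r1 rα) (max_le rα rβ)
        (fun φ h2 h3 E _ _ M h4 => (mV φ h2 h3 E M h4).2.2.2.2.2.2)
        (fun φ h2 h3 V P Q _ _ _ _ _ _ M h4 => (mE φ h2 h3 V P Q M h4).2.2.2.2.2.2)

end Pool.NF
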