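import Pool.Agent.Work.MP_b103ef_pos.B_EK1

/-!
# EK2: the identities for `ek` in `K`
-/

set_option autoImplicit false

open Classical

namespace Pool.NF

/-- The conclusions in one structure. -/
def EK2.Con {L E : Type} [AddCommGroup E] [Module ℚ E] (M : Str L E) (Z : Finset L) (ψ : L → V5)
    (j : Lab L) (α β : Tm L) : Prop :=
    M.Le (.inf (.ek Z ψ j α β) (.sup (.U1 Z ψ j) (.inf α β))) (.sup .bot (.inf α β)) ∧
    M.Le (.sup .bot (.inf α β)) (.inf (.ek Z ψ j α β) (.sup (.U1 Z ψ j) (.inf α β))) ∧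
    M.Le (.sup (.ek Z ψ j α β) (.U1 Z ψ j)) (.sup (.U1 Z ψ j) α) ∧
    M.Le (.sup (.U1 Z ψ j) α) (.sup (.ek Z ψ j α β) (.U1 Z ψ j)) ∧
    M.Le (.sup (.ek Z ψ j α β) α) (.sup (.U1 Z ψ j) α) ∧
    M.Le (.sup (.U1 Z ψ j) α) (.sup (.ek Z ψ j α β) α) ∧
    M.Le .bot (.U1 Z ψ j) ∧ M.Le (.inf α (.U1 Z ψ j)) .bot ∧
    M.Le .bot (.inf α β)

theorem EK2.core (hSAN : Stmt_SAN) {L : Type} (Z : Finset L) (ψ : L → V5) (j : Lab L)
    (α β : Tm L) (hα : α.Over Set.univ) (hβ : β.Over Set.univ)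
    (hσ : (Tm.ek Z ψ j α β).Over Set.univ) (hj : j ∉ α.vars ∪ β.vars)
    (E : Type) [AddCommGroup E] [Module ℚ E] (M : Str L E)
    (hS : Sane Set.univ (max α.rank β.rank + 1) M)
    (hM : (MAP (M.ev (insert j (α.vars ∪ β.vars)) α ⊓ M.ev (insert j (α.vars ∪ β.vars)) β)
        (M.ev (insert j (α.vars ∪ β.vars)) α)
        (M.ev (insert j (α.vars ∪ β.vars)) Tm.bot)
        (M.ev (insert j (α.vars ∪ β.vars)) (Tm.U1 Z ψ j)) (M.g (.ek Z ψ j α β)) ∧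
      M.g (.ek Z ψ j α β) ⊔ M.ev (insert j (α.vars ∪ β.vars)) α =
        M.ev (insert j (α.vars ∪ β.vars)) α ⊔ M.ev (insert j (α.vars ∪ β.vars)) (Tm.U1 Z ψ j)) ∨
      (M.g (.ek Z ψ j α β) = M.ev (insert j (α.vars ∪ β.vars)) α ∧ M.u Z ψ = ⊥)) :
    EK2.Con M Z ψ j α β := by
  obtain ⟨s1, s2, s3⟩ := hSAN L Set.univ (max α.rank β.rank + 1) E M hS
  set G := insert j (α.vars ∪ β.vars) with hG
  have hjG : j ∈ G := Finset.mem_insert_self _ _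
  have hαG : α.vars ⊆ G := Finset.subset_union_left.trans (Finset.subset_insert _ _)
  have hβG : β.vars ⊆ G := Finset.subset_union_right.trans (Finset.subset_insert _ _)
  have hjα : j ∉ α.vars := fun h => hj (Finset.mem_union_left _ h)
  have h0 : (Tm.bot : Tm L).Over Set.univ := by
    intro k hk
    exact absurd hk (Finset.notMem_empty k)
  have h1 : (Tm.U1 Z ψ j).Over Set.univ := by
    intro k _
    exact ⟨⟨Set.mem_univ _, Set.mem_univ _⟩, Set.subset_univ _⟩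
  have rα : α.rank ≤ max α.rank β.rank + 1 := (le_max_left _ _).trans (Nat.le_succ _)
  have rβ : β.rank ≤ max α.rank β.rank + 1 := (le_max_right _ _).trans (Nat.le_succ _)
  have r0 : (Tm.bot : Tm L).rank ≤ max α.rank β.rank + 1 := Nat.zero_le _
  have r1 : (Tm.U1 Z ψ j).rank ≤ max α.rank β.rank + 1 := Nat.zero_le _
  have rσ : (Tm.ek Z ψ j α β).rank ≤ max α.rank β.rank + 1 := le_rfl
  have v0 : (Tm.bot : Tm L).vars ⊆ G := by
    intro k hk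
    exact absurd hk (Finset.notMem_empty k)
  have v1 : (Tm.U1 Z ψ j).vars ⊆ G := by
    intro k hk
    rw [Finset.mem_singleton.1 hk]; exact hjG
  have vσ : (Tm.ek Z ψ j α β).vars ⊆ G := le_rfl
  have bα : box G M.B ≤ M.ev G α := (s1 _ hα rα G hαG).1
  have bβ : box G M.B ≤ M.ev G β := (s1 _ hβ rβ G hβG).1
  have b1 : box G M.B ≤ M.ev G (.U1 Z ψ j) := (s1 _ h1 r1 G v1).1
  have hbot : M.ev G Tm.bot = box G M.B := by
    change box ∅ (fun k => M.B k ⊔ (M.un (.u ∅ fun _ => V5.o) ⊓ M.A k)) ⊔ box G M.B = _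
    rw [sup_eq_right]
    intro v hv k
    have h2 : v k = 0 := (hv k).2 (Finset.notMem_empty k)
    rw [h2]
    exact ⟨fun _ => Submodule.zero_mem _, fun _ => rfl⟩
  have h1a : M.ev G (.U1 Z ψ j) ⊓ M.ev G α ≤ box G M.B :=
    s3 α hα rα j hjα _ G (Finset.insert_subset hjG hαG)
  have hM' : M.ev G (.ek Z ψ j α β) ⊓ (M.ev G (.U1 Z ψ j) ⊔ (M.ev G α ⊓ M.ev G β)) =
        M.ev G Tm.bot ⊔ (M.ev G α ⊓ M.ev G β) ∧
      M.ev G (.ek Z ψ j α β) ⊔ M.ev G (.U1 Z ψ j) = M.ev G (.U1 Z ψ j) ⊔ M.ev G α ∧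
      M.ev G (.ek Z ψ j α β) ⊔ M.ev G α = M.ev G (.U1 Z ψ j) ⊔ M.ev G α := by
    have hev0 : M.ev G (.ek Z ψ j α β) = M.g (.ek Z ψ j α β) ⊔ box G M.B := rfl
    rcases hM with ⟨⟨m1, m2⟩, m3⟩ | ⟨m1, m2⟩
    · have hev : M.ev G (.ek Z ψ j α β) = M.g (.ek Z ψ j α β) := by
        rw [hev0, sup_eq_left]
        refine le_trans ?_ (m1.symm.le.trans inf_le_left)
        rw [hbot]
        exact le_sup_left
      rw [hev]
      exact ⟨m1, m2, m3.trans (sup_comm _ _)⟩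
    · have hU : M.ev G (.U1 Z ψ j) = box G M.B := by
        refine le_antisymm ?_ b1
        change box {j} (fun k => M.B k ⊔ (M.u Z ψ ⊓ M.A k)) ⊔ box G M.B ≤ box G M.B
        refine sup_le ?_ le_rfl
        intro v hv k
        constructor
        · intro hk
          by_cases hkj : k ∈ ({j} : Finset (Lab L))
          · have h2 : v k ∈ M.B k ⊔ (M.u Z ψ ⊓ M.A k) := (hv k).1 hkj
            rw [m2, bot_inf_eq, sup_bot_eq] at h2
            exact h2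
          · rw [(hv k).2 hkj]; exact Submodule.zero_mem _
        · intro hk
          apply (hv k).2
          intro hkj
          rw [Finset.mem_singleton.1 hkj] at hk
          exact hk hjG
      have hev : M.ev G (.ek Z ψ j α β) = M.ev G α := by
        rw [hev0, m1, sup_eq_left]; exact bα
      rw [hev, hU, hbot]
      have h2 : box G M.B ⊔ (M.ev G α ⊓ M.ev G β) = M.ev G α ⊓ M.ev G β :=
        sup_eq_right.2 (le_inf bα bβ)
      have h3 : box G M.B ⊔ M.ev G α = M.ev G α := sup_eq_right.2 bα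
      rw [h2, h3, sup_comm (M.ev G α) (box G M.B), h3, sup_idem]
      refine ⟨?_, rfl, rfl⟩
      rw [← inf_assoc, inf_idem]
  obtain ⟨m1, m2, m3⟩ := hM'
  have key : ∀ γ δ : Tm L, γ.Over Set.univ → δ.Over Set.univ →
      γ.rank ≤ max α.rank β.rank + 1 → δ.rank ≤ max α.rank β.rank + 1 → γ.vars ⊆ G →
      δ.vars ⊆ G → M.ev G γ ≤ M.ev G δ → M.Le γ δ := by
    intro γ δ hγ hδ rγ rδ vγ vδ h
    exact ((s2 γ δ hγ hδ rγ rδ G (Finset.union_subset vγ vδ)).1).2 h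
  have oi : (Tm.inf α β).Over Set.univ := ⟨hα, hβ⟩
  have ri : (Tm.inf α β).rank ≤ max α.rank β.rank + 1 := max_le rα rβ
  have vi : (Tm.inf α β).vars ⊆ G := Finset.union_subset hαG hβG
  refine ⟨?_, ?_, ?_, ?_, ?_, ?_, ?_, ?_, ?_⟩
  · exact key _ _ ⟨hσ, h1, oi⟩ ⟨h0, oi⟩ (max_le rσ (max_le r1 ri)) (max_le r0 ri)
      (Finset.union_subset vσ (Finset.union_subset v1 vi)) (Finset.union_subset v0 vi) m1.le
  · exact key _ _ ⟨h0, oi⟩ ⟨hσ, h1, oi⟩ (max_le r0 ri) (max_le rσ (max_le r1 ri))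
      (Finset.union_subset v0 vi) (Finset.union_subset vσ (Finset.union_subset v1 vi)) m1.ge
  · exact key _ _ ⟨hσ, h1⟩ ⟨h1, hα⟩ (max_le rσ r1) (max_le r1 rα)
      (Finset.union_subset vσ v1) (Finset.union_subset v1 hαG) m2.le
  · exact key _ _ ⟨h1, hα⟩ ⟨hσ, h1⟩ (max_le r1 rα) (max_le rσ r1)
      (Finset.union_subset v1 hαG) (Finset.union_subset vσ v1) m2.ge
  · exact key _ _ ⟨hσ, hα⟩ ⟨h1, hα⟩ (max_le rσ rα) (max_le r1 rα)
      (Finset.union_subset vσ hαG) (Finset.union_subset v1 hαG) m3.le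
  · exact key _ _ ⟨h1, hα⟩ ⟨hσ, hα⟩ (max_le r1 rα) (max_le rσ rα)
      (Finset.union_subset v1 hαG) (Finset.union_subset vσ hαG) m3.ge
  · exact key _ _ h0 h1 r0 r1 v0 v1 (hbot.le.trans b1)
  · refine key _ _ ⟨hα, h1⟩ h0 (max_le rα r1) r0 (Finset.union_subset hαG v1) v0 ?_
    rw [hbot]
    exact (inf_comm (M.ev G α) (M.ev G (.U1 Z ψ j))).le.trans h1a
  · refine key _ _ h0 oi r0 ri v0 vi ?_
    rw [hbot]
    exact le_inf bα bβ

theorem EK2.eg0 {L : Type} (φ : L → V5) {V P Q : Type} [AddCommGroup V] [Module ℚ V]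
    [AddCommGroup P] [Module ℚ P] [AddCommGroup Q] [Module ℚ Q] (M : Str L (FE V P Q)) (n : ℕ)
    (h : EG n Set.univ φ V P Q M) : EG 0 Set.univ φ V P Q M := by
  induction n with
  | zero => exact h
  | succ n ih => exact ih h.1

theorem EK2.vg0 {L : Type} (φ : L → V5) {E : Type} [AddCommGroup E] [Module ℚ E]
    (M : Str L E) (n : ℕ) (h : VG n Set.univ φ E M) : VG 0 Set.univ φ E M := by
  induction n with
  | zero => exact h
  | succ n ih => exact ih h.1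

theorem p_EK2 (hTLM : Stmt_TLM) (hVXG : Stmt_VXG) (_hVMO : Stmt_VMO) (hSAN : Stmt_SAN)
    (hVSN : Stmt_VSN) (hESN : Stmt_ESN) (hEG0 : Stmt_EG0) (hOVR : Stmt_OVR) : Stmt_EK2 := by
  intro L _ hA D Z ψ j α β hα hβ hj hLoc
  set n := max α.rank β.rank with hn
  have hαu : α.Over Set.univ := (hOVR L α).2.1 _ _ (Set.subset_univ _) hα
  have hβu : β.Over Set.univ := (hOVR L β).2.1 _ _ (Set.subset_univ _) hβ
  have hσ : ∀ S : Set L, (↑Z : Set L) ⊆ S → (Tm.ek Z ψ j α β).Over S :=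
    fun S hS => ⟨hS, hα, hβ, hj⟩
  have hσu := hσ Set.univ (Set.subset_univ _)
  have hjn : j ∉ α.vars ∪ β.vars := hLoc.2.2.2.1
  have h0 : (Tm.bot : Tm L).Over Set.univ := by
    intro k hk
    exact absurd hk (Finset.notMem_empty k)
  have h1 : (Tm.U1 Z ψ j).Over Set.univ := by
    intro k _
    exact ⟨⟨Set.mem_univ _, Set.mem_univ _⟩, Set.subset_univ _⟩
  have rα : α.rank ≤ n + 1 := (le_max_left _ _).trans (Nat.le_succ _)
  have rβ : β.rank ≤ n + 1 := (le_max_right _ _).trans (Nat.le_succ _)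
  have r0 : (Tm.bot : Tm L).rank ≤ n + 1 := Nat.zero_le _
  have r1 : (Tm.U1 Z ψ j).rank ≤ n + 1 := Nat.zero_le _
  have rσ : (Tm.ek Z ψ j α β).rank ≤ n + 1 := le_rfl
  have mV : ∀ φ : L → V5, IsPt φ → IsV Set.univ φ → ∀ (E : Type) [AddCommGroup E] [Module ℚ E]
      (M : Str L E), VG (n + 1) Set.univ φ E M → EK2.Con M Z ψ j α β := by
    intro φ _ _ E _ _ M hM
    refine EK2.core hSAN Z ψ j α β hαu hβu hσu hjn E M (hVSN L _ _ _ E M hM) (Or.inr ⟨?_, ?_⟩)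
    · exact hM.2 _ hσu rfl
    · exact (EK2.vg0 φ M _ hM).2 Z (Set.subset_univ _) ψ
  have mE : ∀ φ : L → V5, IsPt φ → Hit Set.univ φ → ∀ (V P Q : Type) [AddCommGroup V]
      [Module ℚ V] [AddCommGroup P] [Module ℚ P] [AddCommGroup Q] [Module ℚ Q]
      (M : Str L (FE V P Q)), EG (n + 1) Set.univ φ V P Q M → EK2.Con M Z ψ j α β := by
    intro φ _ _ V P Q _ _ _ _ _ _ M hM
    refine EK2.core hSAN Z ψ j α β hαu hβu hσu hjn (FE V P Q) M (hESN L _ _ _ V P Q M hM) ?_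
    have hu := ((hEG0 L Set.univ φ V P Q M).1 (EK2.eg0 φ M _ hM)).2 Z (Set.subset_univ _) ψ
    by_cases hH : Hit (↑Z : Set L) φ
    · by_cases hE : Set.EqOn ψ φ ↑Z
      · have h2 := (hM.2.2 _ hσu rfl hH).1 hLoc hE
        exact Or.inl ⟨h2.1, h2.2.1⟩
      · exact Or.inr ⟨(hM.2.2 _ hσu rfl hH).2 (fun h => hE h.2), hu (Or.inr hE)⟩
    · exact Or.inr ⟨EK.glue hVXG n φ M hM.2.1 Z hH (.ek Z ψ j α β) trivial hσ rfl,
        hu (Or.inl hH)⟩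
  have oi : (Tm.inf α β).Over Set.univ := ⟨hαu, hβu⟩
  have ri : (Tm.inf α β).rank ≤ n + 1 := max_le rα rβ
  have e1 : D.q (.inf (.ek Z ψ j α β) (.sup (.U1 Z ψ j) (.inf α β))) =
      D.q (.ek Z ψ j α β) ⊓ (D.q (.U1 Z ψ j) ⊔ (D.q α ⊓ D.q β)) := by
    have o2 : (Tm.sup (.U1 Z ψ j) (.inf α β)).Over Set.univ := ⟨h1, oi⟩
    rw [D.inf _ _ hσu o2, D.sup _ _ h1 oi, D.inf _ _ hαu hβu]
  have e2 : D.q (.sup .bot (.inf α β)) = D.q .bot ⊔ (D.q α ⊓ D.q β) := by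
    rw [D.sup _ _ h0 oi, D.inf _ _ hαu hβu]
  have e3 : D.q (.sup (.ek Z ψ j α β) (.U1 Z ψ j)) = D.q (.ek Z ψ j α β) ⊔ D.q (.U1 Z ψ j) :=
    D.sup _ _ hσu h1
  have e4 : D.q (.sup (.U1 Z ψ j) α) = D.q (.U1 Z ψ j) ⊔ D.q α := D.sup _ _ h1 hαu
  have e5 : D.q (.sup (.ek Z ψ j α β) α) = D.q (.ek Z ψ j α β) ⊔ D.q α := D.sup _ _ hσu hαu
  have e6 : D.q (.inf α (.U1 Z ψ j)) = D.q α ⊓ D.q (.U1 Z ψ j) := D.inf _ _ hαu h1
  have e7 : D.q (.inf α β) = D.q α ⊓ D.q β := D.inf _ _ hαu hβu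
  refine ⟨⟨?_, ?_⟩, ?_, ?_, ?_, ?_⟩
  · rw [← e1, ← e2]
    apply le_antisymm
    · exact EK.qle hTLM hA D (n + 1) _ _ ⟨hσu, h1, oi⟩ ⟨h0, oi⟩
        (max_le rσ (max_le r1 ri)) (max_le r0 ri)
        (fun φ h2 h3 E _ _ M h4 => (mV φ h2 h3 E M h4).1)
        (fun φ h2 h3 V P Q _ _ _ _ _ _ M h4 => (mE φ h2 h3 V P Q M h4).1)
    · exact EK.qle hTLM hA D (n + 1) _ _ ⟨h0, oi⟩ ⟨hσu, h1, oi⟩
        (max_le r0 ri) (max_le rσ (max_le r1 ri))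
        (fun φ h2 h3 E _ _ M h4 => (mV φ h2 h3 E M h4).2.1)
        (fun φ h2 h3 V P Q _ _ _ _ _ _ M h4 => (mE φ h2 h3 V P Q M h4).2.1)
  · rw [← e3, ← e4]
    apply le_antisymm
    · exact EK.qle hTLM hA D (n + 1) _ _ ⟨hσu, h1⟩ ⟨h1, hαu⟩ (max_le rσ r1) (max_le r1 rα)
        (fun φ h2 h3 E _ _ M h4 => (mV φ h2 h3 E M h4).2.2.1)
        (fun φ h2 h3 V P Q _ _ _ _ _ _ M h4 => (mE φ h2 h3 V P Q M h4).2.2.1)
    · exact EK.qle hTLM hA D (n + 1) _ _ ⟨h1, hαu⟩ ⟨hσu, h1⟩ (max_le r1 rα) (max_le rσ r1)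
        (fun φ h2 h3 E _ _ M h4 => (mV φ h2 h3 E M h4).2.2.2.1)
        (fun φ h2 h3 V P Q _ _ _ _ _ _ M h4 => (mE φ h2 h3 V P Q M h4).2.2.2.1)
  · rw [← e5, ← e4]
    apply le_antisymm
    · exact EK.qle hTLM hA D (n + 1) _ _ ⟨hσu, hαu⟩ ⟨h1, hαu⟩ (max_le rσ rα) (max_le r1 rα)
        (fun φ h2 h3 E _ _ M h4 => (mV φ h2 h3 E M h4).2.2.2.2.1)
        (fun φ h2 h3 V P Q _ _ _ _ _ _ M h4 => (mE φ h2 h3 V P Q M h4).2.2.2.2.1)
    · exact EK.qle hTLM hA D (n + 1) _ _ ⟨h1, hαu⟩ ⟨hσu, hαu⟩ (max_le r1 rα) (max_le rσ rα)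
        (fun φ h2 h3 E _ _ M h4 => (mV φ h2 h3 E M h4).2.2.2.2.2.1)
        (fun φ h2 h3 V P Q _ _ _ _ _ _ M h4 => (mE φ h2 h3 V P Q M h4).2.2.2.2.2.1)
  · exact EK.qle hTLM hA D (n + 1) _ _ h0 h1 r0 r1
        (fun φ h2 h3 E _ _ M h4 => (mV φ h2 h3 E M h4).2.2.2.2.2.2.1)
        (fun φ h2 h3 V P Q _ _ _ _ _ _ M h4 => (mE φ h2 h3 V P Q M h4).2.2.2.2.2.2.1)
  · rw [← e6]
    exact EK.qle hTLM hA D (n + 1) _ _ ⟨hαu, h1⟩ h0 (max_le rα r1) r0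
        (fun φ h2 h3 E _ _ M h4 => (mV φ h2 h3 E M h4).2.2.2.2.2.2.2.1)
        (fun φ h2 h3 V P Q _ _ _ _ _ _ M h4 => (mE φ h2 h3 V P Q M h4).2.2.2.2.2.2.2.1)
  · rw [← e7]
    exact EK.qle hTLM hA D (n + 1) _ _ h0 oi r0 ri
        (fun φ h2 h3 E _ _ M h4 => (mV φ h2 h3 E M h4).2.2.2.2.2.2.2.2)
        (fun φ h2 h3 V P Q _ _ _ _ _ _ M h4 => (mE φ h2 h3 V P Q M h4).2.2.2.2.2.2.2.2)

end Pool.NF
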