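import Pool.Agent.Work.MP_b103ef_pos.Interface1

/-! Block EMO: monotonicity of `E_n` (helper1). -/

set_option autoImplicit false

open Classical

namespace Pool.NF

section

variable {L : Type}

theorem EMO_agr_mono (hO : Stmt_OVR) {S Z : Set L} {m n : ℕ} {E : Type} [AddCommGroup E]
    [Module ℚ E] {M M' : Str L E} (hZ : Z ⊆ S) (hm : m ≤ n) (h : Str.Agree S n M M') :
    Str.Agree Z m M M' := by
  refine ⟨fun i hi l => h.1 i (hZ hi) l, fun Y hY ψ => h.2.1 Y (hY.trans hZ) ψ,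
    fun σ hs ho hr => h.2.2 σ hs ?_ (hr.trans hm)⟩
  exact (hO L σ).2.1 Z S hZ ho

theorem EMO_agr_pull {S : Set L} {n : ℕ} {E F : Type} [AddCommGroup E]
    [Module ℚ E] [AddCommGroup F] [Module ℚ F] {M M' : Str L E} (f : F →ₗ[ℚ] E)
    (h : Str.Agree S n M M') : Str.Agree S n (M.pull f) (M'.pull f) := by
  refine ⟨fun i hi l => ?_, fun Y hY ψ => ?_, fun σ hs ho hr => ?_⟩
  · show (M.x i l).comap f = (M'.x i l).comap f
    rw [h.1 i hi l]
  · show (M.u Y ψ).comap f = (M'.u Y ψ).comap f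
    rw [h.2.1 Y hY ψ]
  · show (M.g σ).comap (lift f) = (M'.g σ).comap (lift f)
    rw [h.2.2 σ hs ho hr]

theorem EMO_hom (hO : Stmt_OVR) {S Z : Set L} {m n : ℕ} {E : Type} [AddCommGroup E]
    [Module ℚ E] {M M' : Str L E} {f : E →ₗ[ℚ] E} (hZ : Z ⊆ S) (hm : m ≤ n)
    (h : Str.Hom S n M M f) (ha : Str.Agree Z m M M') : Str.Hom Z m M' M' f := by
  refine ⟨fun i hi l => ?_, fun Y hY ψ => ?_, fun σ hs ho hr => ?_⟩
  · rw [← ha.1 i hi l]
    exact h.1 i (hZ hi) l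
  · rw [← ha.2.1 Y hY ψ]
    exact h.2.1 Y (hY.trans hZ) ψ
  · rw [← ha.2.2 σ hs ho hr]
    exact h.2.2 σ hs ((hO L σ).2.1 Z S hZ ho) (hr.trans hm)

theorem EMO_vg (hV : Stmt_VMO) {S Z : Set L} {ρ ρ' : L → V5} {m n : ℕ} {E F : Type}
    [AddCommGroup E] [Module ℚ E] [AddCommGroup F] [Module ℚ F] {M M' : Str L E}
    {f : F →ₗ[ℚ] E} (hZ : Z ⊆ S) (hm : m ≤ n) (hρ : Set.EqOn ρ ρ' Z)
    (h : VG n S ρ F (M.pull f)) (ha : Str.Agree Z m M M') : VG m Z ρ' F (M'.pull f) :=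
  hV L S Z ρ ρ' m n F (M.pull f) (M'.pull f) h hm hZ hρ (EMO_agr_pull f ha)

theorem EMO_fr (hV : Stmt_VMO) (hO : Stmt_OVR) {S Z : Set L} {φ φ' : L → V5} {m n : ℕ}
    {V P Q : Type} [AddCommGroup V] [Module ℚ V] [AddCommGroup P] [Module ℚ P]
    [AddCommGroup Q] [Module ℚ Q] {M M' : Str L (FE V P Q)} (hZ : Z ⊆ S) (hm : m ≤ n)
    (hφ : Set.EqOn φ φ' Z) (ha : Str.Agree Z m M M') (h : FrOK n S φ M) : FrOK m Z φ' M' := by
  have sC : dC Z φ' ⊆ dC S φ := fun x hx => ⟨hZ hx.1, by rw [hφ hx.1]; exact hx.2⟩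
  have sB : dB Z φ' ⊆ dB S φ := fun x hx => ⟨hZ hx.1, by rw [hφ hx.1]; exact hx.2⟩
  have sA : dA Z φ' ⊆ dA S φ := fun x hx => ⟨hZ hx.1, by rw [hφ hx.1]; exact hx.2⟩
  have s0 : d01 Z φ' ⊆ d01 S φ := fun x hx => ⟨hZ hx.1, by rw [hφ hx.1]; exact hx.2⟩
  have zC : dC Z φ' ⊆ Z := fun x hx => hx.1
  have zB : dB Z φ' ⊆ Z := fun x hx => hx.1
  have zA : dA Z φ' ⊆ Z := fun x hx => hx.1
  have z0 : d01 Z φ' ⊆ Z := fun x hx => hx.1
  have aC : Str.Agree (dC Z φ') m M M' := EMO_agr_mono hO zC le_rfl ha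
  have aB : Str.Agree (dB Z φ') m M M' := EMO_agr_mono hO zB le_rfl ha
  have aA : Str.Agree (dA Z φ') m M M' := EMO_agr_mono hO zA le_rfl ha
  have a0 : Str.Agree (d01 Z φ') m M M' := EMO_agr_mono hO z0 le_rfl ha
  have eq : ∀ (g : V5 → V5) (Y : Set L), Y ⊆ Z → Set.EqOn (g ∘ φ) (g ∘ φ') Y := by
    intro g Y hY x hx
    simp only [Function.comp_apply]
    rw [hφ (hY hx)]
  obtain ⟨⟨h1, h2, h3, h4, h5, h6⟩, ⟨h7, h8, h9, h10⟩, ⟨h11, h12, h13, h14⟩,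
    h15, h16, h17⟩ := h
  refine ⟨⟨?_, ?_, ?_, ?_, ?_, ?_⟩, ⟨?_, ?_, ?_, ?_⟩, ⟨?_, ?_, ?_, ?_⟩, ?_, ?_, ?_⟩
  · exact EMO_hom hO sC hm h1 aC
  · exact EMO_hom hO sC hm h2 aC
  · exact EMO_hom hO sC hm h3 aC
  · exact EMO_vg hV sC hm (eq pp _ zC) h4 aC
  · exact EMO_vg hV sC hm (eq ps _ zC) h5 aC
  · exact EMO_vg hV sC hm (eq pq _ zC) h6 aC
  · exact EMO_hom hO sB hm h7 aB
  · exact EMO_hom hO sB hm h8 aB
  · exact EMO_vg hV sB hm (eq pp _ zB) h9 aB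
  · exact EMO_vg hV sB hm (eq pq _ zB) h10 aB
  · exact EMO_hom hO sA hm h11 aA
  · exact EMO_hom hO sA hm h12 aA
  · exact EMO_vg hV sA hm (eq pp _ zA) h13 aA
  · exact EMO_vg hV sA hm (eq pq _ zA) h14 aA
  · exact fun c c' => EMO_hom hO s0 hm (h15 c c') a0
  · exact EMO_hom hO s0 hm h16 a0
  · exact EMO_hom hO s0 hm h17 a0

theorem EMO_hit {Z : Set L} {φ φ' : L → V5} (hφ : Set.EqOn φ φ' Z) (h : Hit Z φ') : Hit Z φ := by
  obtain ⟨⟨x, hx, hx'⟩, ⟨y, hy, hy'⟩, ⟨z, hz, hz'⟩⟩ := h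
  exact ⟨⟨x, hx, by rw [hφ hx]; exact hx'⟩, ⟨y, hy, by rw [hφ hy]; exact hy'⟩,
    ⟨z, hz, by rw [hφ hz]; exact hz'⟩⟩

theorem EMO_hax (hA : Stmt_AGR) (hO : Stmt_OVR) (PV : VCls L) (PE : ECls L) {Z : Set L}
    {φ φ' : L → V5} {k : ℕ} {E : Type} [AddCommGroup E] [Module ℚ E] {M M' : Str L E}
    (hφ : Set.EqOn φ φ' Z) (ha : Str.Agree Z k M M') (σ : Tm L)
    (Γ : Submodule ℚ (Lab L →₀ E)) (ho : σ.Over Z) (hr : σ.rank = k + 1)
    (h : HAx PV PE φ M σ Γ) : HAx PV PE φ' M' σ Γ := by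
  have key := (hA L Z k E M M' ha).2.2.2.1
  cases σ with
  | base F g => trivial
  | inf α β => trivial
  | sup α β => trivial
  | lk Y r j α β =>
    obtain ⟨hY, hα, hβ, hj⟩ := ho
    have hr' : max α.rank β.rank + 1 = k + 1 := hr
    have hrα : α.rank ≤ k := by omega
    have hrβ : β.rank ≤ k := by omega
    have hG : ∀ i ∈ insert j (α.vars ∪ β.vars), LOver Z i := by
      intro i hi
      have : LOver (↑Y : Set L) i := by
        rcases Finset.mem_insert.1 hi with h | h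
        · rw [h]; exact hj
        · rcases Finset.mem_union.1 h with h | h
          · exact (hO L α).1 _ hα i h
          · exact (hO L β).1 _ hβ i h
      exact ⟨hY this.1, hY this.2⟩
    have e1 := key _ hG α ((hO L α).2.1 _ _ hY hα) hrα
    have e2 := key _ hG β ((hO L β).2.1 _ _ hY hβ) hrβ
    have e3 := key _ hG (Tm.T0 Y r j) (fun i hi => ⟨by
      rw [Finset.mem_singleton.1 hi]; exact ⟨hY hj.1, hY hj.2⟩, hY⟩) (Nat.zero_le _)
    have e4 := key _ hG (Tm.T1 Y r j) (fun i hi => ⟨by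
      rw [Finset.mem_singleton.1 hi]; exact ⟨hY hj.1, hY hj.2⟩, hY⟩) (Nat.zero_le _)
    intro hit
    have h' := h (EMO_hit (hφ.mono hY) hit)
    refine ⟨fun hl => ?_, h'.2⟩
    rw [← e1, ← e2, ← e3, ← e4]
    exact h'.1 hl
  | ek Y ψ j α β =>
    obtain ⟨hY, hα, hβ, hj⟩ := ho
    have hr' : max α.rank β.rank + 1 = k + 1 := hr
    have hrα : α.rank ≤ k := by omega
    have hrβ : β.rank ≤ k := by omega
    have hG : ∀ i ∈ insert j (α.vars ∪ β.vars), LOver Z i := by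
      intro i hi
      have : LOver (↑Y : Set L) i := by
        rcases Finset.mem_insert.1 hi with h | h
        · rw [h]; exact hj
        · rcases Finset.mem_union.1 h with h | h
          · exact (hO L α).1 _ hα i h
          · exact (hO L β).1 _ hβ i h
      exact ⟨hY this.1, hY this.2⟩
    have e1 := key _ hG α ((hO L α).2.1 _ _ hY hα) hrα
    have e2 := key _ hG β ((hO L β).2.1 _ _ hY hβ) hrβ
    have e3 := key _ hG (Tm.U1 Y ψ j) (fun i hi => ⟨by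
      rw [Finset.mem_singleton.1 hi]; exact ⟨hY hj.1, hY hj.2⟩, hY⟩) (Nat.zero_le _)
    have e4 := key _ hG Tm.bot (fun i hi => absurd hi (Finset.notMem_empty i)) (Nat.zero_le _)
    have hφY : Set.EqOn φ φ' (↑Y : Set L) := hφ.mono hY
    have hiff : Set.EqOn ψ φ' ↑Y ↔ Set.EqOn ψ φ ↑Y :=
      ⟨fun h => h.trans hφY.symm, fun h => h.trans hφY⟩
    intro hit
    have h' := h (EMO_hit hφY hit)
    refine ⟨fun hl he => ?_, fun hn => ?_⟩
    · rw [← e1, ← e2, ← e3, ← e4]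
      exact h'.1 hl (hiff.1 he)
    · rw [← e1]
      exact h'.2 fun hc => hn ⟨hc.1, hiff.2 hc.2⟩

theorem EMO_level (hV : Stmt_VMO) (hA : Stmt_AGR) (hO : Stmt_OVR) {S Z : Set L}
    {φ φ' : L → V5} {V P Q : Type} [AddCommGroup V] [Module ℚ V] [AddCommGroup P] [Module ℚ P]
    [AddCommGroup Q] [Module ℚ Q] {M M' : Str L (FE V P Q)} (hZ : Z ⊆ S)
    (hφ : Set.EqOn φ φ' Z) (k : ℕ) : Str.Agree Z k M M' → EG k S φ V P Q M →
    EG k Z φ' V P Q M' := by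
  induction k with
  | zero =>
    intro ha h
    refine ⟨EMO_fr hV hO hZ le_rfl hφ ha h.1, fun Y hY hit ψ hψ => ?_⟩
    have hφY : Set.EqOn φ φ' (↑Y : Set L) := hφ.mono hY
    rw [← ha.2.1 Y hY ψ]
    exact h.2 Y (hY.trans hZ) (EMO_hit hφY hit) ψ fun he => hψ (he.trans hφY)
  | succ k ih =>
    intro ha h
    have ha' : Str.Agree Z k M M' := EMO_agr_mono hO (le_refl Z) (Nat.le_succ k) ha
    refine ⟨ih ha' h.1, EMO_fr hV hO hZ le_rfl hφ ha h.2.1, fun σ ho hr => ?_⟩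
    have h1 := h.2.2 σ ((hO L σ).2.1 Z S hZ ho) hr
    cases σ with
    | base F g => trivial
    | inf α β => trivial
    | sup α β => trivial
    | lk Y r j α β =>
      rw [← ha.2.2 (.lk Y r j α β) trivial ho hr.le]
      exact EMO_hax hA hO _ _ hφ ha' _ _ ho hr h1
    | ek Y ψ j α β =>
      rw [← ha.2.2 (.ek Y ψ j α β) trivial ho hr.le]
      exact EMO_hax hA hO _ _ hφ ha' _ _ ho hr h1

theorem EMO_down {S : Set L} {φ : L → V5} {V P Q : Type} [AddCommGroup V] [Module ℚ V]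
    [AddCommGroup P] [Module ℚ P] [AddCommGroup Q] [Module ℚ Q] {M : Str L (FE V P Q)}
    {m n : ℕ} (hm : m ≤ n) (h : EG n S φ V P Q M) : EG m S φ V P Q M := by
  induction n with
  | zero =>
    obtain rfl : m = 0 := by omega
    exact h
  | succ n ih =>
    rcases Nat.lt_or_ge n m with h1 | h1
    · obtain rfl : m = n + 1 := by omega
      exact h
    · exact ih h1 h.1

end

theorem blk_EMO (hV : Stmt_VMO) (hA : Stmt_AGR) (hO : Stmt_OVR) : Stmt_EMO := by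
  intro L S Z φ φ' m n V P Q _ _ _ _ _ _ M M' h hm hZ hφ ha
  exact EMO_level hV hA hO hZ hφ m ha (EMO_down hm h)

end Pool.NF
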