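import Pool.Agent.Work.MP_b103ef_pos.Interface2

/-!
# MP_b103ef_al: block EPD
-/

set_option autoImplicit false

open Classical

namespace Pool.NF

/-- block EPD -/
theorem blk_EPD (hF : Stmt_FRP) (hX : Stmt_HXP) (hO : Stmt_OVR) : Stmt_EPD := by
  intro L S φ n V P Q V' P' Q' _ _ _ _ _ _ _ _ _ _ _ _ M M' hM hM'
  induction n with
  | zero =>
    obtain ⟨h1, h2⟩ := hM
    obtain ⟨h1', h2'⟩ := hM'
    refine ⟨hF L S φ 0 V P Q V' P' Q' M M' h1 h1', fun Z hZ hH ψ hψ => ?_⟩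
    show (M.u Z ψ).comap _ ⊓ (M'.u Z ψ).comap _ = ⊥
    rw [h2 Z hZ hH ψ hψ, h2' Z hZ hH ψ hψ]
    rw [eq_bot_iff]
    rintro v ⟨ha, hb⟩
    have ha' : mapE (LinearMap.fst ℚ V V') (LinearMap.fst ℚ P P') (LinearMap.fst ℚ Q Q') v = 0 := ha
    have hb' : mapE (LinearMap.snd ℚ V V') (LinearMap.snd ℚ P P') (LinearMap.snd ℚ Q Q') v = 0 := hb
    obtain ⟨⟨T, R, w⟩, z, y, q⟩ := v
    simp only [mapE, mapX, mapY, LinearMap.prodMap_apply, Prod.mk_eq_zero,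
      LinearMap.fst_apply, LinearMap.snd_apply] at ha' hb'
    obtain ⟨⟨a1, a2, a3⟩, a4, a5, a6⟩ := ha'
    obtain ⟨⟨b1, b2, b3⟩, b4, b5, b6⟩ := hb'
    have key : ∀ f : ℕ →₀ V × V', lift (LinearMap.fst ℚ V V') f = 0 →
        lift (LinearMap.snd ℚ V V') f = 0 → f = 0 := by
      intro f h1 h2
      ext j
      · simpa using congrArg (fun g => g j) h1
      · simpa using congrArg (fun g => g j) h2
    have hw : w = 0 := Prod.ext a3 b3
    have hz : z = 0 := Prod.ext a4 b4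
    have hq : q = 0 := Prod.ext a6 b6
    rw [key T a1 b1, key R a2 b2, key y a5 b5, hw, hz, hq]
    exact Submodule.zero_mem _
  | succ n ih =>
    obtain ⟨h1, h2, h3⟩ := hM
    obtain ⟨h1', h2', h3'⟩ := hM'
    refine ⟨ih h1 h1', hF L S φ (n + 1) V P Q V' P' Q' M M' h2 h2', fun σ hS hr => ?_⟩
    have hU : σ.Over Set.univ := (hO L σ).2.1 S Set.univ (Set.subset_univ _) hS
    exact (hX L φ V P Q V' P' Q' M M').2.2.2 n σ (M.g σ) (M'.g σ) hU (h3 σ hS hr) (h3' σ hS hr)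

end Pool.NF
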