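import Pool.Agent.Work.MP_b103ef_pos.Interface1

/-!
# MP_b103ef_al: block EPR (direct sums of two structures)
-/

set_option autoImplicit false

open Classical

namespace Pool.NF

section EPR

variable {L E F : Type} [AddCommGroup E] [Module ℚ E] [AddCommGroup F] [Module ℚ F]

theorem EPR_fst_inl {J : Type} (v : J →₀ E) :
    lift (LinearMap.fst ℚ E F) (lift (LinearMap.inl ℚ E F) v) = v := by
  ext j; simp

theorem EPR_snd_inl {J : Type} (v : J →₀ E) :
    lift (LinearMap.snd ℚ E F) (lift (LinearMap.inl ℚ E F) v) = 0 := by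
  ext j; simp

theorem EPR_snd_inr {J : Type} (v : J →₀ F) :
    lift (LinearMap.snd ℚ E F) (lift (LinearMap.inr ℚ E F) v) = v := by
  ext j; simp

theorem EPR_fst_inr {J : Type} (v : J →₀ F) :
    lift (LinearMap.fst ℚ E F) (lift (LinearMap.inr ℚ E F) v) = 0 := by
  ext j; simp

theorem EPR_add {J : Type} (v : J →₀ E × F) :
    lift (LinearMap.inl ℚ E F) (lift (LinearMap.fst ℚ E F) v) +
      lift (LinearMap.inr ℚ E F) (lift (LinearMap.snd ℚ E F) v) = v := by
  ext j <;> simp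

variable (M : Str L E) (M' : Str L F)

theorem EPR_inl (n : ℕ) : Str.Hom Set.univ n M (M.prod M') (LinearMap.inl ℚ E F) := by
  refine ⟨fun i _ l v hv => ?_, fun Z _ ψ v hv => ?_, fun σ _ _ _ v hv => ?_⟩
  · refine ⟨?_, ?_⟩
    · simpa [Str.pull] using hv
    · simp [Str.pull]
  · refine ⟨?_, ?_⟩
    · simpa [Str.pull] using hv
    · simp [Str.pull]
  · refine ⟨?_, ?_⟩
    · show lift (LinearMap.fst ℚ E F) (lift (LinearMap.inl ℚ E F) v) ∈ M.g σ
      rw [EPR_fst_inl]; exact hv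
    · show lift (LinearMap.snd ℚ E F) (lift (LinearMap.inl ℚ E F) v) ∈ M'.g σ
      rw [EPR_snd_inl]; exact zero_mem _

theorem EPR_inr (n : ℕ) : Str.Hom Set.univ n M' (M.prod M') (LinearMap.inr ℚ E F) := by
  refine ⟨fun i _ l v hv => ?_, fun Z _ ψ v hv => ?_, fun σ _ _ _ v hv => ?_⟩
  · refine ⟨?_, ?_⟩
    · simp [Str.pull]
    · simpa [Str.pull] using hv
  · refine ⟨?_, ?_⟩
    · simp [Str.pull]
    · simpa [Str.pull] using hv
  · refine ⟨?_, ?_⟩
    · show lift (LinearMap.fst ℚ E F) (lift (LinearMap.inr ℚ E F) v) ∈ M.g σ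
      rw [EPR_fst_inr]; exact zero_mem _
    · show lift (LinearMap.snd ℚ E F) (lift (LinearMap.inr ℚ E F) v) ∈ M'.g σ
      rw [EPR_snd_inr]; exact hv

theorem EPR_fst (n : ℕ) : Str.Hom Set.univ n (M.prod M') M (LinearMap.fst ℚ E F) :=
  ⟨fun _ _ _ _ hv => hv.1, fun _ _ _ _ hv => hv.1, fun _ _ _ _ _ hv => hv.1⟩

theorem EPR_snd (n : ℕ) : Str.Hom Set.univ n (M.prod M') M' (LinearMap.snd ℚ E F) :=
  ⟨fun _ _ _ _ hv => hv.2, fun _ _ _ _ hv => hv.2, fun _ _ _ _ _ hv => hv.2⟩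

end EPR

theorem blk_EPR (h1 : Stmt_EVH) (_h2 : Stmt_OVR) : Stmt_EPR := by
  intro L E F _ _ _ _ M M' n
  have hG : ∀ G : Finset (Lab L), ∀ j ∈ G, LOver (Set.univ : Set L) j :=
    fun _ _ _ => ⟨Set.mem_univ _, Set.mem_univ _⟩
  have il : ∀ (G : Finset (Lab L)) (α : Tm L), α.Over Set.univ →
      M.ev G α ≤ ((M.prod M').ev G α).comap (lift (LinearMap.inl ℚ E F)) := fun G α hα =>
    ((h1 L Set.univ α.rank E (E × F) M (M.prod M') _ (EPR_inl M M' _)).2.2 G (hG G)).2.2 α hα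
      le_rfl
  have ir : ∀ (G : Finset (Lab L)) (α : Tm L), α.Over Set.univ →
      M'.ev G α ≤ ((M.prod M').ev G α).comap (lift (LinearMap.inr ℚ E F)) := fun G α hα =>
    ((h1 L Set.univ α.rank F (E × F) M' (M.prod M') _ (EPR_inr M M' _)).2.2 G (hG G)).2.2 α hα
      le_rfl
  have pl : ∀ (G : Finset (Lab L)) (α : Tm L), α.Over Set.univ →
      (M.prod M').ev G α ≤ (M.ev G α).comap (lift (LinearMap.fst ℚ E F)) := fun G α hα =>
    ((h1 L Set.univ α.rank (E × F) E (M.prod M') M _ (EPR_fst M M' _)).2.2 G (hG G)).2.2 α hα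
      le_rfl
  have pr : ∀ (G : Finset (Lab L)) (α : Tm L), α.Over Set.univ →
      (M.prod M').ev G α ≤ (M'.ev G α).comap (lift (LinearMap.snd ℚ E F)) := fun G α hα =>
    ((h1 L Set.univ α.rank (E × F) F (M.prod M') M' _ (EPR_snd M M' _)).2.2 G (hG G)).2.2 α hα
      le_rfl
  have ev : ∀ (G : Finset (Lab L)) (α : Tm L), α.Over Set.univ →
      (M.prod M').ev G α = (M.ev G α).comap (lift (LinearMap.fst ℚ E F)) ⊓
        (M'.ev G α).comap (lift (LinearMap.snd ℚ E F)) := by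
    intro G α hα
    refine le_antisymm (le_inf (pl G α hα) (pr G α hα)) ?_
    rintro v ⟨hv1, hv2⟩
    rw [← EPR_add v]
    exact add_mem (il G α hα hv1) (ir G α hα hv2)
  refine ⟨EPR_inl M M' n, EPR_fst M M' n, EPR_inr M M' n, EPR_snd M M' n, ev, ?_⟩
  intro α β hα hβ
  constructor
  · intro h
    refine ⟨fun v hv => ?_, fun v hv => ?_⟩
    · have h3 : lift (LinearMap.fst ℚ E F) (lift (LinearMap.inl ℚ E F) v) ∈
          M.ev (α.vars ∪ β.vars) β :=
        Submodule.mem_comap.1 (pl _ β hβ (h (Submodule.mem_comap.1 (il _ α hα hv))))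
      rwa [EPR_fst_inl] at h3
    · have h3 : lift (LinearMap.snd ℚ E F) (lift (LinearMap.inr ℚ E F) v) ∈
          M'.ev (α.vars ∪ β.vars) β :=
        Submodule.mem_comap.1 (pr _ β hβ (h (Submodule.mem_comap.1 (ir _ α hα hv))))
      rwa [EPR_snd_inr] at h3
  · rintro ⟨h, h'⟩
    show (M.prod M').ev _ α ≤ (M.prod M').ev _ β
    rw [ev _ α hα, ev _ β hβ]
    exact inf_le_inf (Submodule.comap_mono h) (Submodule.comap_mono h')

end Pool.NF
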