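import Pool.Agent.Work.MP_b103ef_pos.Interface2

/-!
# MP_b103ef_al (S02731): block ESN (helper84)
-/

set_option autoImplicit false

open Classical

namespace Pool.NF

theorem ESN_le (hO : Stmt_OVR) (hS : Stmt_SAN) {L : Type} {S : Set L} {n : ℕ} {E : Type}
    [AddCommGroup E] [Module ℚ E] {M : Str L E} (h : Sane S n M) {Z : Finset L}
    (hZ : (↑Z : Set L) ⊆ S) {α : Tm L} (hα : α.Over ↑Z) (hr : α.rank ≤ n)
    {G : Finset (Lab L)} (hG : α.vars ⊆ G) : M.ev G α ≤ box G M.A :=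
  ((hS L S n E M h).1 α ((hO L α).2.1 _ _ hZ hα) hr G hG).2.1

/-- one part -/
theorem ESN_part {L : Type} {S : Set L} {n : ℕ} {E F : Type}
    [AddCommGroup E] [Module ℚ E] [AddCommGroup F] [Module ℚ F] {M : Str L E}
    (inc : F →ₗ[ℚ] E) (pr : E →ₗ[ℚ] F) (hH : Str.Hom S n M M (inc.comp pr))
    (hs : Sane S n (M.pull inc)) {σ : Tm L} (h1 : σ.IsSym) (h2 : σ.Over S) (h3 : σ.rank ≤ n)
    {v : Lab L →₀ E} (hv : v ∈ M.g σ) (j : Lab L) :
    (j ∈ σ.vars → inc (pr (v j)) ∈ M.A j) ∧ (j ∉ σ.vars → inc (pr (v j)) = 0) := by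
  have e1 : lift (inc.comp pr) v ∈ M.g σ := hH.2.2 σ h1 h2 h3 hv
  have e2 : lift pr v ∈ (M.pull inc).g σ := by
    change lift inc (lift pr v) ∈ M.g σ
    have : lift inc (lift pr v) = lift (inc.comp pr) v := by
      ext i
      simp
    rw [this]
    exact e1
  have e3 := hs σ h1 h2 h3 e2
  have e4 := e3 j
  have e6 : (lift pr v) j = pr (v j) := by simp
  rw [e6] at e4
  refine ⟨fun hj => ?_, fun hj => ?_⟩
  · exact e4.1 hj
  · rw [e4.2 hj, map_zero]

theorem ESN_two {L : Type} {S : Set L} {n : ℕ} {E F F' : Type}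
    [AddCommGroup E] [Module ℚ E] [AddCommGroup F] [Module ℚ F] [AddCommGroup F'] [Module ℚ F']
    {M : Str L E} (inc : F →ₗ[ℚ] E) (pr : E →ₗ[ℚ] F) (inc' : F' →ₗ[ℚ] E) (pr' : E →ₗ[ℚ] F')
    (hsum : ∀ v, inc (pr v) + inc' (pr' v) = v)
    (hH : Str.Hom S n M M (inc.comp pr)) (hH' : Str.Hom S n M M (inc'.comp pr'))
    (hs : Sane S n (M.pull inc)) (hs' : Sane S n (M.pull inc')) {σ : Tm L} (h1 : σ.IsSym)
    (h2 : σ.Over S) (h3 : σ.rank ≤ n) : M.g σ ≤ box σ.vars M.A := by
  intro v hv j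
  have p1 := ESN_part inc pr hH hs h1 h2 h3 hv j
  have p2 := ESN_part inc' pr' hH' hs' h1 h2 h3 hv j
  refine ⟨fun hj => ?_, fun hj => ?_⟩
  · rw [← hsum (v j)]
    exact (M.A j).add_mem (p1.1 hj) (p2.1 hj)
  · rw [← hsum (v j), p1.2 hj, p2.2 hj, add_zero]

theorem ESN_three {L : Type} {S : Set L} {n : ℕ} {E F F' F'' : Type}
    [AddCommGroup E] [Module ℚ E] [AddCommGroup F] [Module ℚ F] [AddCommGroup F'] [Module ℚ F']
    [AddCommGroup F''] [Module ℚ F'']
    {M : Str L E} (inc : F →ₗ[ℚ] E) (pr : E →ₗ[ℚ] F) (inc' : F' →ₗ[ℚ] E) (pr' : E →ₗ[ℚ] F')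
    (inc'' : F'' →ₗ[ℚ] E) (pr'' : E →ₗ[ℚ] F'')
    (hsum : ∀ v, inc (pr v) + (inc' (pr' v) + inc'' (pr'' v)) = v)
    (hH : Str.Hom S n M M (inc.comp pr)) (hH' : Str.Hom S n M M (inc'.comp pr'))
    (hH'' : Str.Hom S n M M (inc''.comp pr''))
    (hs : Sane S n (M.pull inc)) (hs' : Sane S n (M.pull inc')) (hs'' : Sane S n (M.pull inc''))
    {σ : Tm L} (h1 : σ.IsSym)
    (h2 : σ.Over S) (h3 : σ.rank ≤ n) : M.g σ ≤ box σ.vars M.A := by
  intro v hv j
  have p1 := ESN_part inc pr hH hs h1 h2 h3 hv j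
  have p2 := ESN_part inc' pr' hH' hs' h1 h2 h3 hv j
  have p3 := ESN_part inc'' pr'' hH'' hs'' h1 h2 h3 hv j
  refine ⟨fun hj => ?_, fun hj => ?_⟩
  · rw [← hsum (v j)]
    exact (M.A j).add_mem (p1.1 hj) ((M.A j).add_mem (p2.1 hj) (p3.1 hj))
  · rw [← hsum (v j), p1.2 hj, p2.2 hj, p3.2 hj, add_zero, add_zero]

theorem ESN_a {L : Type} {S Z : Set L} {φ : L → V5} (hZ : Z ⊆ S) (hc : ∀ x ∈ Z, φ x ≠ V5.a) :
    Z ⊆ dA S φ := fun x hx => ⟨hZ hx, hc x hx⟩
theorem ESN_b {L : Type} {S Z : Set L} {φ : L → V5} (hZ : Z ⊆ S) (hc : ∀ x ∈ Z, φ x ≠ V5.b) :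
    Z ⊆ dB S φ := fun x hx => ⟨hZ hx, hc x hx⟩
theorem ESN_c {L : Type} {S Z : Set L} {φ : L → V5} (hZ : Z ⊆ S) (hc : ∀ x ∈ Z, φ x ≠ V5.c) :
    Z ⊆ dC S φ := fun x hx => ⟨hZ hx, hc x hx⟩

theorem ESN_case {L : Type} {Z : Set L} {φ : L → V5} (hh : ¬ Hit Z φ) :
    (∀ x ∈ Z, φ x ≠ V5.a) ∨ (∀ x ∈ Z, φ x ≠ V5.b) ∨ (∀ x ∈ Z, φ x ≠ V5.c) := by
  by_contra hc
  push Not at hc
  exact hh hc

theorem blk_ESN (hS : Stmt_SAN) (hO : Stmt_OVR) (hV : Stmt_VSN) (_ : Stmt_SYS)
    (hF : Stmt_FID) : Stmt_ESN := by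
  intro L S φ n V P Q _ _ _ _ _ _ M
  obtain ⟨-, -, -, -, ⟨f1, f2, f3⟩, -⟩ := hF V P Q
  induction n with
  | zero =>
    intro _ σ hs _ hr
    have := ((hO L σ).2.2.2 hs).1
    omega
  | succ n ih =>
    intro hM σ hs ho hr
    obtain ⟨hM0, hFr, hM1⟩ := hM
    have hsane : Sane S n M := ih hM0
    rcases Nat.lt_or_ge σ.rank (n + 1) with h | h
    · exact hsane σ hs ho (by omega)
    · have hrk : σ.rank = n + 1 := le_antisymm hr h
      have hax := hM1 σ ho hrk
      obtain ⟨⟨a1, a2, a3, a4, a5, a6⟩, ⟨b1, b2, b3, b4⟩, ⟨c1, c2, c3, c4⟩, -⟩ := hFr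
      have sC1 := hV _ _ _ _ _ _ a4
      have sC2 := hV _ _ _ _ _ _ a5
      have sC3 := hV _ _ _ _ _ _ a6
      have sB1 := hV _ _ _ _ _ _ b3
      have sB2 := hV _ _ _ _ _ _ b4
      have sA1 := hV _ _ _ _ _ _ c3
      have sA2 := hV _ _ _ _ _ _ c4
      -- the non hitting case
      have key : ∀ Z : Finset L, (↑Z : Set L) ⊆ S → ¬ Hit (↑Z : Set L) φ →
          (∀ S' : Set L, (↑Z : Set L) ⊆ S' → σ.Over S') → M.g σ ≤ box σ.vars M.A := by
        intro Z hZ hh hov
        rcases ESN_case hh with hc | hc | hc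
        · have ov := hov (dA S φ) (ESN_a hZ hc)
          exact ESN_two (M := M) (incI' : FX V P × V →ₗ[ℚ] FE V P Q)
            (prI' : FE V P Q →ₗ[ℚ] FX V P × V) (incK' : FY V Q →ₗ[ℚ] FE V P Q)
            (prK' : FE V P Q →ₗ[ℚ] FY V Q) f3 c1 c2 sA1 sA2 hs ov hr
        · have ov := hov (dB S φ) (ESN_b hZ hc)
          exact ESN_two (M := M) (incI : FX V P →ₗ[ℚ] FE V P Q)
            (prI : FE V P Q →ₗ[ℚ] FX V P) (incK : V × FY V Q →ₗ[ℚ] FE V P Q)
            (prK : FE V P Q →ₗ[ℚ] V × FY V Q) f2 b1 b2 sB1 sB2 hs ov hr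
        · have ov := hov (dC S φ) (ESN_c hZ hc)
          exact ESN_three (M := M) (incX : FX V P →ₗ[ℚ] FE V P Q)
            (prX : FE V P Q →ₗ[ℚ] FX V P) (incV : V →ₗ[ℚ] FE V P Q)
            (prV : FE V P Q →ₗ[ℚ] V) (incY : FY V Q →ₗ[ℚ] FE V P Q)
            (prY : FE V P Q →ₗ[ℚ] FY V Q) f1 a1 a2 a3 sC1 sC2 sC3 hs ov hr
      cases σ with
      | base F g => exact hs.elim
      | inf α β => exact hs.elim
      | sup α β => exact hs.elim
      | lk Z r j α β =>
        obtain ⟨hZ, hα, hβ, hj⟩ := ho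
        by_cases hh : Hit (↑Z : Set L) φ
        · have hr' : max α.rank β.rank + 1 = n + 1 := hrk
          have hra : α.rank ≤ n := by omega
          have hVv : (Tm.lk Z r j α β).vars = insert j (α.vars ∪ β.vars) := rfl
          rw [hVv]
          have hax' := hax hh
          by_cases hl : Loc (VG n) Z r j α β
          · have hi := hax'.1 hl
            have h1 : M.g (Tm.lk Z r j α β) ≤
                M.ev (insert j (α.vars ∪ β.vars)) α ⊔
                  M.ev (insert j (α.vars ∪ β.vars)) (Tm.T1 Z r j) := by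
              rw [← hi.2]
              exact le_sup_left
            refine h1.trans (sup_le ?_ ?_)
            · exact ESN_le hO hS hsane hZ hα hra
                (fun x hx => Finset.mem_insert_of_mem (Finset.mem_union_left _ hx))
            · refine ESN_le hO hS hsane hZ (α := Tm.T1 Z r j) ?_ (Nat.zero_le n) ?_
              · intro i hi
                rw [Finset.mem_singleton] at hi
                subst hi
                exact ⟨hj, subset_rfl⟩
              · intro x hx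
                have : x = j := by simpa [Tm.T1, Tm.vars] using hx
                subst this
                exact Finset.mem_insert_self _ _
          · rw [hax'.2 hl]
            exact bot_le
        · exact key Z hZ hh (fun S' hS' => ⟨hS', hα, hβ, hj⟩)
      | ek Z ψ j α β =>
        obtain ⟨hZ, hα, hβ, hj⟩ := ho
        by_cases hh : Hit (↑Z : Set L) φ
        · have hr' : max α.rank β.rank + 1 = n + 1 := hrk
          have hra : α.rank ≤ n := by omega
          have hVv : (Tm.ek Z ψ j α β).vars = insert j (α.vars ∪ β.vars) := rfl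
          rw [hVv]
          have hax' := hax hh
          by_cases hl : ELoc (EG n) Z ψ j α β ∧ Set.EqOn ψ φ ↑Z
          · have hi := hax'.1 hl.1 hl.2
            have h1 : M.g (Tm.ek Z ψ j α β) ≤
                M.ev (insert j (α.vars ∪ β.vars)) α ⊔
                  M.ev (insert j (α.vars ∪ β.vars)) (Tm.U1 Z ψ j) := by
              rw [← hi.2.1]
              exact le_sup_left
            refine h1.trans (sup_le ?_ ?_)
            · exact ESN_le hO hS hsane hZ hα hra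
                (fun x hx => Finset.mem_insert_of_mem (Finset.mem_union_left _ hx))
            · refine ESN_le hO hS hsane hZ (α := Tm.U1 Z ψ j) ?_ (Nat.zero_le n) ?_
              · intro i hi
                rw [Finset.mem_singleton] at hi
                subst hi
                exact ⟨hj, subset_rfl⟩
              · intro x hx
                have : x = j := by simpa [Tm.U1, Tm.vars] using hx
                subst this
                exact Finset.mem_insert_self _ _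
          · rw [hax'.2 hl]
            exact ESN_le hO hS hsane hZ hα hra
              (fun x hx => Finset.mem_insert_of_mem (Finset.mem_union_left _ hx))
        · exact key Z hZ hh (fun S' hS' => ⟨hS', hα, hβ, hj⟩)

end Pool.NF
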