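import Pool.Agent.Work.MP_b103ef_pos.Interface2

set_option autoImplicit false

open Classical

namespace Pool.NF

theorem ESW_d01_dC {L : Type} (S : Set L) (φ : L → V5) : d01 S φ ⊆ dC S φ := by
  intro x hx
  refine ⟨hx.1, fun h => ?_⟩
  rcases hx.2 with h' | h'
  · rw [h] at h'; exact absurd h' (by decide)
  · rw [h] at h'; exact absurd h' (by decide)

theorem blk_ESW (h1 : Stmt_ESW1) (h2 : Stmt_ESW2) (h3 : Stmt_ESW3) (h4 : Stmt_ESW4)
    (hO : Stmt_OVR) : Stmt_ESW := by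
  intro L n hEV hEE S φ hH κ hκ V P Q _ _ _ _ _ _ M hM hF hc σ hs hS hr ΓV hV
  by_cases c01 : σ.Over (d01 S φ)
  · have hC : σ.Over (dC S φ) := (hO L σ).2.1 _ _ (ESW_d01_dC S φ) c01
    exact h1 L n hEV S φ hH κ hκ V P Q M hM hF hc σ hs hS hr c01 ΓV (hV hC)
  · by_cases cC : σ.Over (dC S φ)
    · exact h2 L n hEV S φ hH κ hκ V P Q M hM hF hc σ hs hS hr cC c01 ΓV (hV cC)
    · by_cases cA : σ.Over (dA S φ)
      · exact h3 L n hEV S φ hH κ hκ V P Q M hM hF hc σ hs hS hr (Or.inl cA) cC ΓV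
      · by_cases cB : σ.Over (dB S φ)
        · exact h3 L n hEV S φ hH κ hκ V P Q M hM hF hc σ hs hS hr (Or.inr cB) cC ΓV
        · exact h4 L n hEV hEE S φ hH κ hκ V P Q M hM hF hc σ hs hS hr cA cB cC ΓV

end Pool.NF
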