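import Pool.Agent.Work.MP_b103ef_pos.ESWAux

/-! Block ESW1: the extension step for a symbol over `S₀₁`, case (I) (helper34). -/

set_option autoImplicit false

open Classical

namespace Pool.NF

theorem blk_ESW1 (hVLK : Stmt_VLK) (hD01 : Stmt_D01) (hVXG : Stmt_VXG) (hSCA : Stmt_SCA)
    (hPAX : Stmt_PAX) (hVUP : Stmt_VUP) (hCRD : Stmt_CRD) (hFID : Stmt_FID) (hOVR : Stmt_OVR) :
    Stmt_ESW1 := by
  intro L n hEV S φ hHit κ hκ V P Q _ _ _ _ _ _ M hM hfull hcard σ hsym hS hrank h01 ΓV hΓV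
  have hfr := ESWA_fr hM
  obtain ⟨hagr, hgP, hgQ, hgV⟩ := hD01 L S φ n V P Q M hfr
  obtain ⟨⟨hX1, hV1, hY1, hX2, hV2, hY2, hX3, hV3, hY3⟩, ⟨hI1, hK1, hI2, hK2⟩,
    ⟨hI'1, hK'1, hI'2, hK'2⟩, ⟨hP1, hQ1, hQP, hPQ, hCP, hCQ, hPC, hQC, hC1, hC2⟩, -,
    hsX, hsI, hsI', hse⟩ := hFID V P Q
  obtain ⟨⟨hAX, hAV, hAY, -, -, -⟩, ⟨hBI, hBK, -, -⟩, ⟨hCI, hCK, -, -⟩, h0C, h0P, h0Q⟩ := hfr
  obtain ⟨-, -, -, -, -, -, -, -, hfP, hfQ⟩ := hfull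
  have hinjP : Function.Injective (incP : P →ₗ[ℚ] FE V P Q) :=
    Function.LeftInverse.injective (g := (prP : FE V P Q →ₗ[ℚ] P)) hP1
  have hinjQ : Function.Injective (incQ : Q →ₗ[ℚ] FE V P Q) :=
    Function.LeftInverse.injective (g := (prQ : FE V P Q →ₗ[ℚ] Q)) hQ1
  have hv01 := (ESWA_isv S φ).2.2
  obtain ⟨ΓP, hΓP⟩ := hVLK L n hEV (d01 S φ) φ hv01 κ hκ P (M.pull incP) hgP hfP
    ((hCRD.1 (Lab L) P (FE V P Q) incP hinjP).trans hcard) σ hsym h01 hrank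
  obtain ⟨ΓQ, hΓQ⟩ := hVLK L n hEV (d01 S φ) φ hv01 κ hκ Q (M.pull incQ) hgQ hfQ
    ((hCRD.1 (Lab L) Q (FE V P Q) incQ hinjQ).trans hcard) σ hsym h01 hrank
  obtain ⟨Γ, hΓ⟩ : ∃ Γ : Submodule ℚ (Lab L →₀ FE V P Q), ∀ v, v ∈ Γ ↔
      (∀ c, lift (prC c) v ∈ ΓV) ∧ lift prP v ∈ ΓP ∧ lift prQ v ∈ ΓQ :=
    ⟨(⨅ c : Co, ΓV.comap (lift (prC c))) ⊓ (ΓP.comap (lift prP) ⊓ ΓQ.comap (lift prQ)),
      fun v => by simp [Submodule.mem_iInf, Submodule.mem_inf]⟩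
  have hiC : ∀ c c' : Co, Inv Γ ((incC c').comp (prC c)) := by
    intro c c' v hv
    rw [Submodule.mem_comap, hΓ, ESWA_lc]
    rw [hΓ] at hv
    refine ⟨fun c'' => ?_, ?_, ?_⟩
    · by_cases hc : c'' = c'
      · subst hc
        rw [ESWA_l1 _ _ (hC1 c'')]
        exact hv.1 c
      · rw [ESWA_l0 _ _ (hC2 c'' c' · hc)]
        exact ΓV.zero_mem
    · rw [ESWA_l0 _ _ (hPC c')]
      exact ΓP.zero_mem
    · rw [ESWA_l0 _ _ (hQC c')]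
      exact ΓQ.zero_mem
  have hiP : Inv Γ (incP.comp prP) := by
    intro v hv
    rw [Submodule.mem_comap, hΓ, ESWA_lc]
    rw [hΓ] at hv
    refine ⟨fun c'' => ?_, ?_, ?_⟩
    · rw [ESWA_l0 _ _ (hCP c'')]
      exact ΓV.zero_mem
    · rw [ESWA_l1 _ _ hP1]
      exact hv.2.1
    · rw [ESWA_l0 _ _ hQP]
      exact ΓQ.zero_mem
  have hiQ : Inv Γ (incQ.comp prQ) := by
    intro v hv
    rw [Submodule.mem_comap, hΓ, ESWA_lc]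
    rw [hΓ] at hv
    refine ⟨fun c'' => ?_, ?_, ?_⟩
    · rw [ESWA_l0 _ _ (hCQ c'')]
      exact ΓV.zero_mem
    · rw [ESWA_l0 _ _ hPQ]
      exact ΓP.zero_mem
    · rw [ESWA_l1 _ _ hQ1]
      exact hv.2.2
  have hcC : ∀ c : Co, Γ.comap (lift (incC c)) = ΓV := by
    intro c
    ext v
    rw [Submodule.mem_comap, hΓ, ESWA_l0 _ _ (hPC c), ESWA_l0 _ _ (hQC c)]
    refine ⟨fun h => ?_, fun h => ⟨fun c' => ?_, ΓP.zero_mem, ΓQ.zero_mem⟩⟩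
    · have := h.1 c
      rwa [ESWA_l1 _ _ (hC1 c)] at this
    · by_cases hc : c' = c
      · subst hc
        rwa [ESWA_l1 _ _ (hC1 c')]
      · rw [ESWA_l0 _ _ (hC2 c' c · hc)]
        exact ΓV.zero_mem
  have hcP : Γ.comap (lift incP) = ΓP := by
    ext v
    rw [Submodule.mem_comap, hΓ, ESWA_l1 _ _ hP1, ESWA_l0 _ _ hQP]
    refine ⟨fun h => h.2.1, fun h => ⟨fun c' => ?_, h, ΓQ.zero_mem⟩⟩
    rw [ESWA_l0 _ _ (hCP c')]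
    exact ΓV.zero_mem
  have hcQ : Γ.comap (lift incQ) = ΓQ := by
    ext v
    rw [Submodule.mem_comap, hΓ, ESWA_l1 _ _ hQ1, ESWA_l0 _ _ hPQ]
    refine ⟨fun h => h.2.2, fun h => ⟨fun c' => ?_, ΓP.zero_mem, h⟩⟩
    rw [ESWA_l0 _ _ (hCQ c')]
    exact ΓV.zero_mem
  have hglob : VAx (VG n) M σ Γ := by
    refine hVXG L (d01 S φ) n (FE V P Q) (Option (Option Co)) e0 hse M ?_ σ Γ h01 hrank ?_ ?_
    · rintro (_ | _ | c)
      · exact h0P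
      · exact h0Q
      · exact h0C c c
    · rintro (_ | _ | c)
      · exact hiP
      · exact hiQ
      · exact hiC c c
    · rintro (_ | _ | c)
      · exact ⟨P, _, _, incP, prP, hP1, rfl, by rw [hcP]; exact hΓP⟩
      · exact ⟨Q, _, _, incQ, prQ, hQ1, rfl, by rw [hcQ]; exact hΓQ⟩
      · refine ⟨V, _, _, incC c, prC c, hC1 c, rfl, ?_⟩
        rw [hcC]
        exact (hVUP L (d01 S φ) φ n V (M.pull incV)).2 (M.pull (incC c)) σ ΓV (hagr c) h01 hrank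
          hΓV
  have hsC : d01 S φ ⊆ dC S φ := fun x hx => ⟨hx.1, by rcases hx.2 with h | h <;> simp [h]⟩
  have hsB : d01 S φ ⊆ dB S φ := fun x hx => ⟨hx.1, by rcases hx.2 with h | h <;> simp [h]⟩
  have hsA : d01 S φ ⊆ dA S φ := fun x hx => ⟨hx.1, by rcases hx.2 with h | h <;> simp [h]⟩
  obtain ⟨iX, iV, iY, iI, iK, iI', iK'⟩ := hSCA (Lab L) V P Q Γ hiC hiP hiQ
  have part : ∀ (F : Type) [AddCommGroup F] [Module ℚ F] (inc : F →ₗ[ℚ] FE V P Q)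
      (pr : FE V P Q →ₗ[ℚ] F), (∀ v, pr (inc v) = v) →
      Str.Hom (d01 S φ) n M M (inc.comp pr) → Inv Γ (inc.comp pr) →
      VAx (VG n) (M.pull inc) σ (Γ.comap (lift inc)) := by
    intro F _ _ inc pr h1 h2 h3
    exact hPAX L (d01 S φ) n (FE V P Q) F M inc pr h1 h2 σ Γ h01 hrank h3 hglob
  refine ⟨Γ, fun _ => ⟨⟨iX, iV, iY⟩, hcC Co.Z, part _ incX prX hX1 (ESWA_hom hOVR hsC hAX) iX,
    part _ incV prV hV1 (ESWA_hom hOVR hsC hAV) iV,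
    part _ incY prY hY1 (ESWA_hom hOVR hsC hAY) iY⟩,
    fun _ => ⟨⟨iI, iK⟩, part _ incI prI hI1 (ESWA_hom hOVR hsB hBI) iI,
      part _ incK prK hK1 (ESWA_hom hOVR hsB hBK) iK⟩,
    fun _ => ⟨⟨iI', iK'⟩, part _ incI' prI' hI'1 (ESWA_hom hOVR hsA hCI) iI',
      part _ incK' prK' hK'1 (ESWA_hom hOVR hsA hCK) iK'⟩,
    fun _ => ⟨hiC, hiP, hiQ⟩, ?_⟩
  refine ESWA_hax _ _ φ M σ Γ (d01 S φ) ?_ h01
  rintro ⟨⟨x, hx, hx'⟩, -, -⟩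
  rcases hx.2 with h | h <;> rw [h] at hx' <;> exact absurd hx' (by decide)

end Pool.NF
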