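import Pool.Agent.Work.MP_b103ef_pos.Interface2

/-!
# Block ESW3 (helper86): the extension step, case (III)
-/

set_option autoImplicit false

open Classical

namespace Pool.NF

theorem ESW3_isV_pp {L : Type} (S : Set L) (φ : L → V5) : IsV S (pp ∘ φ) := by
  intro x _
  simp only [Function.comp]
  cases φ x <;> simp [pp]

theorem ESW3_isV_pq {L : Type} (S : Set L) (φ : L → V5) : IsV S (pq ∘ φ) := by
  intro x _
  simp only [Function.comp]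
  cases φ x <;> simp [pq]

theorem ESW3_FrOK {L : Type} (n : ℕ) (S : Set L) (φ : L → V5) (V P Q : Type) [AddCommGroup V]
    [Module ℚ V] [AddCommGroup P] [Module ℚ P] [AddCommGroup Q] [Module ℚ Q]
    (M : Str L (FE V P Q)) (h : EG n S φ V P Q M) : FrOK n S φ M := by
  cases n with
  | zero => exact h.1
  | succ n => exact h.2.1

theorem ESW3_lift_apply {J E F : Type} [AddCommGroup E] [Module ℚ E] [AddCommGroup F]
    [Module ℚ F] (f : E →ₗ[ℚ] F) (v : J →₀ E) (j : J) : (lift f v) j = f (v j) := by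
  simp [lift]

theorem ESW3_glue (hVLK : Stmt_VLK) (hVXG : Stmt_VXG) (hCRD : Stmt_CRD)
    {L : Type} {n : ℕ} (hEV : EVst L n) {S : Set L} {κ : Cardinal.{0}}
    (hκ : Cardinal.aleph0 ≤ κ) {E F1 F2 : Type} [AddCommGroup E] [Module ℚ E]
    [AddCommGroup F1] [Module ℚ F1] [AddCommGroup F2] [Module ℚ F2]
    (M : Str L E) (inc1 : F1 →ₗ[ℚ] E) (pr1 : E →ₗ[ℚ] F1) (inc2 : F2 →ₗ[ℚ] E)
    (pr2 : E →ₗ[ℚ] F2)
    (h11 : ∀ v, pr1 (inc1 v) = v) (h22 : ∀ v, pr2 (inc2 v) = v)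
    (h21 : ∀ v, pr2 (inc1 v) = 0) (h12 : ∀ v, pr1 (inc2 v) = 0)
    (hs : Sys ![inc1.comp pr1, inc2.comp pr2])
    (hH1 : Str.Hom S n M M (inc1.comp pr1)) (hH2 : Str.Hom S n M M (inc2.comp pr2))
    {ρ1 ρ2 : L → V5} (hρ1 : IsV S ρ1) (hρ2 : IsV S ρ2)
    (hG1 : VG n S ρ1 F1 (M.pull inc1)) (hG2 : VG n S ρ2 F2 (M.pull inc2))
    (hF1 : VFull κ n S ρ1 (M.pull inc1)) (hF2 : VFull κ n S ρ2 (M.pull inc2))
    (hc : Cardinal.mk (Lab L →₀ E) ≤ κ)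
    (σ : Tm L) (hσ : σ.IsSym) (hσS : σ.Over S) (hσr : σ.rank = n + 1) :
    ∃ Γ : Submodule ℚ (Lab L →₀ E), Inv Γ (inc1.comp pr1) ∧ Inv Γ (inc2.comp pr2) ∧
      VAx (VG n) M σ Γ := by
  have hi1 : Function.Injective inc1 := Function.LeftInverse.injective (g := pr1) h11
  have hi2 : Function.Injective inc2 := Function.LeftInverse.injective (g := pr2) h22
  obtain ⟨Γ1, hΓ1⟩ := hVLK L n hEV S ρ1 hρ1 κ hκ F1 (M.pull inc1) hG1 hF1
    ((hCRD.1 (Lab L) F1 E inc1 hi1).trans hc) σ hσ hσS hσr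
  obtain ⟨Γ2, hΓ2⟩ := hVLK L n hEV S ρ2 hρ2 κ hκ F2 (M.pull inc2) hG2 hF2
    ((hCRD.1 (Lab L) F2 E inc2 hi2).trans hc) σ hσ hσS hσr
  set Γ : Submodule ℚ (Lab L →₀ E) := Γ1.comap (lift pr1) ⊓ Γ2.comap (lift pr2) with hΓ
  have e11 : ∀ v : Lab L →₀ F1, lift pr1 (lift inc1 v) = v := by
    intro v
    ext j
    rw [ESW3_lift_apply, ESW3_lift_apply, h11]
  have e22 : ∀ v : Lab L →₀ F2, lift pr2 (lift inc2 v) = v := by
    intro v
    ext j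
    rw [ESW3_lift_apply, ESW3_lift_apply, h22]
  have e21 : ∀ v : Lab L →₀ F1, lift pr2 (lift inc1 v) = 0 := by
    intro v
    ext j
    rw [ESW3_lift_apply, ESW3_lift_apply, h21]
    rfl
  have e12 : ∀ v : Lab L →₀ F2, lift pr1 (lift inc2 v) = 0 := by
    intro v
    ext j
    rw [ESW3_lift_apply, ESW3_lift_apply, h12]
    rfl
  have ec1 : ∀ v : Lab L →₀ E, lift (inc1.comp pr1) v = lift inc1 (lift pr1 v) := by
    intro v
    ext j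
    simp only [ESW3_lift_apply, LinearMap.comp_apply]
  have ec2 : ∀ v : Lab L →₀ E, lift (inc2.comp pr2) v = lift inc2 (lift pr2 v) := by
    intro v
    ext j
    simp only [ESW3_lift_apply, LinearMap.comp_apply]
  have hI1 : Inv Γ (inc1.comp pr1) := by
    intro v hv
    rw [Submodule.mem_comap, ec1]
    refine ⟨?_, ?_⟩
    · rw [SetLike.mem_coe, Submodule.mem_comap, e11]
      exact hv.1
    · rw [SetLike.mem_coe, Submodule.mem_comap, e21]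
      exact Γ2.zero_mem
  have hI2 : Inv Γ (inc2.comp pr2) := by
    intro v hv
    rw [Submodule.mem_comap, ec2]
    refine ⟨?_, ?_⟩
    · rw [SetLike.mem_coe, Submodule.mem_comap, e12]
      exact Γ1.zero_mem
    · rw [SetLike.mem_coe, Submodule.mem_comap, e22]
      exact hv.2
  have hc1 : Γ.comap (lift inc1) = Γ1 := by
    ext v
    rw [hΓ, Submodule.mem_comap, Submodule.mem_inf, Submodule.mem_comap, Submodule.mem_comap,
      e11, e21]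
    exact ⟨fun h => h.1, fun h => ⟨h, Γ2.zero_mem⟩⟩
  have hc2 : Γ.comap (lift inc2) = Γ2 := by
    ext v
    rw [hΓ, Submodule.mem_comap, Submodule.mem_inf, Submodule.mem_comap, Submodule.mem_comap,
      e12, e22]
    exact ⟨fun h => h.2, fun h => ⟨Γ1.zero_mem, h⟩⟩
  refine ⟨Γ, hI1, hI2, ?_⟩
  refine hVXG L S n E (Fin 2) ![inc1.comp pr1, inc2.comp pr2] hs M ?_ σ Γ hσS hσr ?_ ?_
  · intro a
    fin_cases a
    · exact hH1
    · exact hH2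
  · intro a
    fin_cases a
    · exact hI1
    · exact hI2
  · intro a
    fin_cases a
    · refine ⟨F1, inferInstance, inferInstance, inc1, pr1, h11, rfl, ?_⟩
      rw [hc1]
      exact hΓ1
    · refine ⟨F2, inferInstance, inferInstance, inc2, pr2, h22, rfl, ?_⟩
      rw [hc2]
      exact hΓ2

theorem ESW3_inv_ek (hEVH : Stmt_EVH) (hOVR : Stmt_OVR) {L : Type} {n : ℕ} {S : Set L}
    {E : Type} [AddCommGroup E] [Module ℚ E] (M : Str L E) (f : E →ₗ[ℚ] E)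
    (hf : Str.Hom S n M M f) (Z : Finset L) (hZ : (↑Z : Set L) ⊆ S) (j : Lab L) (α β : Tm L)
    (hα : α.Over (↑Z : Set L)) (hβ : β.Over (↑Z : Set L)) (hj : LOver (↑Z : Set L) j)
    (hr : α.rank ≤ n) : Inv (M.ev (insert j (α.vars ∪ β.vars)) α) f := by
  refine ((hEVH L S n E E M M f hf).2.2 (insert j (α.vars ∪ β.vars)) ?_).2.2 α
    ((hOVR L α).2.1 _ _ hZ hα) hr
  have hmono : ∀ i : Lab L, LOver (↑Z : Set L) i → LOver S i := fun i hi => ⟨hZ hi.1, hZ hi.2⟩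
  intro i hi
  rw [Finset.mem_insert, Finset.mem_union] at hi
  rcases hi with hi | hi | hi
  · rw [hi]
    exact hmono j hj
  · exact hmono i ((hOVR L α).1 _ hα i hi)
  · exact hmono i ((hOVR L β).1 _ hβ i hi)

theorem ESW3_inv_lk (hIVP : Stmt_IVP) (hVMO : Stmt_VMO) {L : Type} {n : ℕ} {S : Set L}
    {E F1 F2 : Type} [AddCommGroup E] [Module ℚ E] [AddCommGroup F1] [Module ℚ F1]
    [AddCommGroup F2] [Module ℚ F2] (M : Str L E) (inc1 : F1 →ₗ[ℚ] E) (pr1 : E →ₗ[ℚ] F1)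
    (inc2 : F2 →ₗ[ℚ] E) (pr2 : E →ₗ[ℚ] F2)
    (h11 : ∀ v, pr1 (inc1 v) = v) (h22 : ∀ v, pr2 (inc2 v) = v)
    (hid : ∀ v, inc1 (pr1 v) + inc2 (pr2 v) = v)
    (hH1 : Str.Hom S n M M (inc1.comp pr1)) (hH2 : Str.Hom S n M M (inc2.comp pr2))
    {ρ1 ρ2 : L → V5} (hρ1 : IsV S ρ1) (hρ2 : IsV S ρ2)
    (hG1 : VG n S ρ1 F1 (M.pull inc1)) (hG2 : VG n S ρ2 F2 (M.pull inc2))
    (Z : Finset L) (r : L → V5) (j : Lab L) (α β : Tm L) (Γ : Submodule ℚ (Lab L →₀ E))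
    (hσS : (Tm.lk Z r j α β).Over S) (hσr : (Tm.lk Z r j α β).rank = n + 1)
    (hne : ∃ z ∈ Z, ρ1 z ≠ ρ2 z) (hax : VAx (VG n) M (.lk Z r j α β) Γ) :
    Inv Γ (inc1.comp pr1) ∧ Inv Γ (inc2.comp pr2) := by
  by_cases hL : Loc (VG n) Z r j α β
  · have hISO := hax.1 hL
    have hZ : (↑Z : Set L) ⊆ S := hσS.1
    by_cases h1 : Set.EqOn ρ1 r ↑Z
    · have h2 : ¬ Set.EqOn ρ2 r ↑Z := by
        intro h2
        obtain ⟨z, hz, hzne⟩ := hne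
        exact hzne ((h1 hz).trans (h2 hz).symm)
      have h3 := hIVP L S n E F2 M inc2 pr2 (inc1.comp pr1) h22 hH2
        (fun v => by rw [LinearMap.comp_apply, add_comm]; exact hid v) ρ2 Z r j α β hσS hσr hL
        (fun x hx => hρ2 x (hZ hx)) h2
        (hVMO L S ↑Z ρ2 ρ2 n n F2 (M.pull inc2) (M.pull inc2) hG2 le_rfl hZ
          (fun _ _ => rfl) ⟨fun _ _ _ => rfl, fun _ _ _ => rfl, fun _ _ _ _ => rfl⟩) Γ hISO
      exact ⟨h3.2, h3.1⟩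
    · exact hIVP L S n E F1 M inc1 pr1 (inc2.comp pr2) h11 hH1
        (fun v => by rw [LinearMap.comp_apply]; exact hid v) ρ1 Z r j α β hσS hσr hL
        (fun x hx => hρ1 x (hZ hx)) h1
        (hVMO L S ↑Z ρ1 ρ1 n n F1 (M.pull inc1) (M.pull inc1) hG1 le_rfl hZ
          (fun _ _ => rfl) ⟨fun _ _ _ => rfl, fun _ _ _ => rfl, fun _ _ _ _ => rfl⟩) Γ hISO
  · have hΓ : Γ = ⊥ := hax.2 hL
    rw [hΓ]
    exact ⟨bot_le, bot_le⟩

theorem ESW3_fin (hPAX : Stmt_PAX) (hFID : Stmt_FID) {L : Type} {n : ℕ} {S : Set L}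
    {φ : L → V5} {V P Q : Type} [AddCommGroup V] [Module ℚ V] [AddCommGroup P] [Module ℚ P]
    [AddCommGroup Q] [Module ℚ Q] (M : Str L (FE V P Q)) (hM : FrOK n S φ M) (σ : Tm L)
    (hσr : σ.rank = n + 1) (hC : ¬ σ.Over (dC S φ)) (h01 : ¬ σ.Over (d01 S φ))
    (ΓV : Submodule ℚ (Lab L →₀ V)) (Γ : Submodule ℚ (Lab L →₀ FE V P Q))
    (hH : HAx (VG n) (EG n) φ M σ Γ) (hax : VAx (VG n) M σ Γ)
    (hB : σ.Over (dB S φ) → Inv Γ (incI.comp prI) ∧ Inv Γ (incK.comp prK))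
    (hA : σ.Over (dA S φ) → Inv Γ (incI'.comp prI') ∧ Inv Γ (incK'.comp prK')) :
    SymOK n S φ M σ ΓV Γ := by
  obtain ⟨_, ⟨fI, fK, _, _⟩, ⟨fI', fK', _, _⟩, _⟩ := hFID V P Q
  obtain ⟨_, ⟨hI, hK, _, _⟩, ⟨hI', hK', _, _⟩, _⟩ := hM
  refine ⟨fun h => absurd h hC, ?_, ?_, fun h => absurd h h01, hH⟩
  · intro h
    obtain ⟨b1, b2⟩ := hB h
    exact ⟨⟨b1, b2⟩, hPAX L (dB S φ) n _ _ M incI prI fI hI σ Γ h hσr b1 hax,
      hPAX L (dB S φ) n _ _ M incK prK fK hK σ Γ h hσr b2 hax⟩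
  · intro h
    obtain ⟨b1, b2⟩ := hA h
    exact ⟨⟨b1, b2⟩, hPAX L (dA S φ) n _ _ M incI' prI' fI' hI' σ Γ h hσr b1 hax,
      hPAX L (dA S φ) n _ _ M incK' prK' fK' hK' σ Γ h hσr b2 hax⟩

theorem blk_ESW3 (hVLK : Stmt_VLK) (hVXG : Stmt_VXG) (hPAX : Stmt_PAX) (hIVP : Stmt_IVP)
    (hCRD : Stmt_CRD) (hFID : Stmt_FID) (hVMO : Stmt_VMO) (hEVH : Stmt_EVH)
    (hOVR : Stmt_OVR) : Stmt_ESW3 := by
  intro L n hEV S φ hHit κ hκ V P Q _ _ _ _ _ _ M hM hFull hcard σ hσ hσS hσr hAB hnC ΓV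
  have hFr : FrOK n S φ M := ESW3_FrOK n S φ V P Q M hM
  obtain ⟨_, ⟨fI, fK, fKI, fIK⟩, ⟨fI', fK', fKI', fIK'⟩, _, ⟨_, fid, fid'⟩, ⟨_, fs, fs', _⟩⟩ :=
    hFID V P Q
  obtain ⟨_, ⟨hI, hK, gI, gK⟩, ⟨hI', hK', gI', gK'⟩, _⟩ := id hFr
  obtain ⟨_, _, _, _, uI, uK, uI', uK', _, _⟩ := hFull
  have h01C : d01 S φ ⊆ dC S φ := by
    rintro x ⟨hx, hx'⟩
    refine ⟨hx, ?_⟩
    rcases hx' with h | h <;> rw [h] <;> decide
  have hn01 : ¬ σ.Over (d01 S φ) := fun h => hnC ((hOVR L σ).2.1 _ _ h01C h)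
  cases σ with
  | base F g => exact absurd hσ (by simp [Tm.IsSym])
  | inf α β => exact absurd hσ (by simp [Tm.IsSym])
  | sup α β => exact absurd hσ (by simp [Tm.IsSym])
  | ek Z ψ j α β =>
    have hαr : α.rank ≤ n := by
      have : max α.rank β.rank + 1 = n + 1 := hσr
      omega
    have hnH : ¬ Hit (↑Z : Set L) φ := by
      rintro ⟨⟨x, hx, hxa⟩, ⟨y, hy, hyb⟩, _⟩
      rcases hAB with h | h
      · exact (h.1 hx).2 hxa
      · exact (h.1 hy).2 hyb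
    refine ⟨M.ev (insert j (α.vars ∪ β.vars)) α, ?_⟩
    refine ESW3_fin hPAX hFID M hFr _ hσr hnC hn01 ΓV _ (fun h => absurd h hnH) rfl ?_ ?_
    · intro h
      exact ⟨ESW3_inv_ek hEVH hOVR M _ hI Z h.1 j α β h.2.1 h.2.2.1 h.2.2.2 hαr,
        ESW3_inv_ek hEVH hOVR M _ hK Z h.1 j α β h.2.1 h.2.2.1 h.2.2.2 hαr⟩
    · intro h
      exact ⟨ESW3_inv_ek hEVH hOVR M _ hI' Z h.1 j α β h.2.1 h.2.2.1 h.2.2.2 hαr,
        ESW3_inv_ek hEVH hOVR M _ hK' Z h.1 j α β h.2.1 h.2.2.1 h.2.2.2 hαr⟩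
  | lk Z r j α β =>
    have hnH : ¬ Hit (↑Z : Set L) φ := by
      rintro ⟨⟨x, hx, hxa⟩, ⟨y, hy, hyb⟩, _⟩
      rcases hAB with h | h
      · exact (h.1 hx).2 hxa
      · exact (h.1 hy).2 hyb
    have hc : ∃ z ∈ Z, φ z = V5.c := by
      by_contra hcon
      apply hnC
      refine ⟨?_, hσS.2⟩
      intro z hz
      refine ⟨hσS.1 hz, fun h => hcon ⟨z, hz, h⟩⟩
    have hne : ∃ z ∈ Z, (pp ∘ φ) z ≠ (pq ∘ φ) z := by
      obtain ⟨z, hz, hzc⟩ := hc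
      refine ⟨z, hz, ?_⟩
      simp only [Function.comp, hzc]
      decide
    rcases hAB with hA | hB
    · obtain ⟨Γ, i1, i2, hax⟩ := ESW3_glue hVLK hVXG hCRD hEV hκ M incI' prI' incK' prK'
        fI' fK' fKI' fIK' fs' hI' hK' (ESW3_isV_pp _ φ) (ESW3_isV_pq _ φ) gI' gK' uI' uK' hcard
        _ hσ hA hσr
      refine ⟨Γ, ESW3_fin hPAX hFID M hFr _ hσr hnC hn01 ΓV Γ (fun h => absurd h hnH) hax ?_
        (fun _ => ⟨i1, i2⟩)⟩
      intro hB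
      exact ESW3_inv_lk hIVP hVMO M incI prI incK prK fI fK fid hI hK (ESW3_isV_pp _ φ)
        (ESW3_isV_pq _ φ) gI gK Z r j α β Γ hB hσr hne hax
    · obtain ⟨Γ, i1, i2, hax⟩ := ESW3_glue hVLK hVXG hCRD hEV hκ M incI prI incK prK
        fI fK fKI fIK fs hI hK (ESW3_isV_pp _ φ) (ESW3_isV_pq _ φ) gI gK uI uK hcard
        _ hσ hB hσr
      refine ⟨Γ, ESW3_fin hPAX hFID M hFr _ hσr hnC hn01 ΓV Γ (fun h => absurd h hnH) hax
        (fun _ => ⟨i1, i2⟩) ?_⟩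
      intro hA
      exact ESW3_inv_lk hIVP hVMO M incI' prI' incK' prK' fI' fK' fid' hI' hK'
        (ESW3_isV_pp _ φ) (ESW3_isV_pq _ φ) gI' gK' Z r j α β Γ hA hσr hne hax

end Pool.NF
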