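import Pool.Agent.Work.MP_b103ef_pos.Interface2

/-!
# Block ESW4 (MP_b103ef_al, S02731): extension case (IV), hitting index set
-/

set_option autoImplicit false

open Classical

namespace Pool.NF

theorem ESW4_encEq (hEMO : Stmt_EMO) {L : Type} (n : ℕ) (Z : Set L) (ψ φ : L → V5)
    (hψ : Set.EqOn ψ φ Z) (α β : Tm L) (h : ENC (EG n) Z ψ α β) : ENC (EG n) Z φ α β := by
  obtain ⟨V, P, Q, i1, i2, i3, i4, i5, i6, M, hM, hn⟩ := h
  refine ⟨V, P, Q, i1, i2, i3, i4, i5, i6, M, ?_, hn⟩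
  exact hEMO L Z Z ψ φ n n V P Q M M hM le_rfl (Set.Subset.refl _) hψ
    ⟨fun _ _ _ => rfl, fun _ _ _ => rfl, fun _ _ _ _ => rfl⟩

theorem ESW4_rank {L E : Type} [AddCommGroup E] [Module ℚ E] (M : Str L E)
    (G : Finset (Lab L)) (α β : Tm L) (t' : Submodule ℚ (Lab L →₀ E))
    (h : M.ev G α ⊓ M.ev G β = M.ev G α ⊓ t') :
    Module.rank ℚ (↥(M.ev G α) ⧸ t'.comap (M.ev G α).subtype) = M.rk G α β := by
  have e : t'.comap (M.ev G α).subtype = (M.ev G β).comap (M.ev G α).subtype := by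
    ext ⟨x, hx⟩
    simp only [Submodule.mem_comap, Submodule.subtype_apply]
    constructor
    · intro hx'
      have : x ∈ M.ev G α ⊓ t' := ⟨hx, hx'⟩
      rw [← h] at this
      exact this.2
    · intro hx'
      have : x ∈ M.ev G α ⊓ M.ev G β := ⟨hx, hx'⟩
      rw [h] at this
      exact this.2
  unfold Str.rk
  rw [e]

theorem blk_ESW4 (hSUPE : Stmt_SUPE) (hTU1 : Stmt_TU1) (hESN : Stmt_ESN) (hSAN : Stmt_SAN)
    (hRKL : Stmt_RKL) (hLEX : Stmt_LEX) (hMEX : Stmt_MEX) (hEMO : Stmt_EMO) (hOVR : Stmt_OVR) :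
    Stmt_ESW4 := by
  intro L n _hEV hEE S φ hφ κ hκ V P Q _ _ _ _ _ _ M hM hFull hcard σ hsym hover hrank hA hB hC ΓV
  have h01 : ¬ σ.Over (d01 S φ) := by
    intro h
    apply hC
    refine (hOVR L σ).2.1 _ _ ?_ h
    intro x hx
    refine ⟨hx.1, ?_⟩
    rcases hx.2 with h' | h' <;> rw [h'] <;> simp
  suffices h : ∃ Γ, HAx (VG n) (EG n) φ M σ Γ by
    obtain ⟨Γ, hΓ⟩ := h
    exact ⟨Γ, fun h => absurd h hC, fun h => absurd h hB, fun h => absurd h hA,
      fun h => absurd h h01, hΓ⟩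
  have hsane : Sane S n M := hESN L S φ n V P Q M hM
  obtain ⟨hS1, hS2, hS3⟩ := hSAN L S n _ M hsane
  cases σ with
  | base F g => exact absurd hsym (by simp [Tm.IsSym])
  | inf α β => exact absurd hsym (by simp [Tm.IsSym])
  | sup α β => exact absurd hsym (by simp [Tm.IsSym])
  | lk Z r j α β =>
    obtain ⟨hZ, hα, hβ, hj⟩ := hover
    have hrk : max α.rank β.rank = n := by
      simp only [Tm.rank] at hrank
      omega
    have hαr : α.rank ≤ n := by rw [← hrk]; exact le_max_left _ _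
    have hβr : β.rank ≤ n := by rw [← hrk]; exact le_max_right _ _
    have hαS := (hOVR L α).2.1 _ _ hZ hα
    have hβS := (hOVR L β).2.1 _ _ hZ hβ
    by_cases hloc : Loc (VG n) Z r j α β
    · set G := insert j (α.vars ∪ β.vars) with hG
      have hαG : α.vars ⊆ G := fun x hx => by simp [hG, hx]
      have hβG : β.vars ⊆ G := fun x hx => by simp [hG, hx]
      have hjα : j ∉ α.vars := fun h => hloc.2.2.2.1 (Finset.mem_union_left _ h)
      have hjαG : insert j α.vars ⊆ G := by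
        intro x hx
        rcases Finset.mem_insert.1 hx with rfl | hx
        · simp [hG]
        · exact hαG hx
      have ht't : M.ev G (Tm.T0 Z r j) ≤ M.ev G (Tm.T1 Z r j) := by
        simp only [Tm.T0, Tm.T1, Str.ev]
        refine sup_le_sup_right ?_ _
        intro v hv k
        refine ⟨fun hk => ?_, (hv k).2⟩
        have hv1 := (hv k).1 hk
        have hmono : M.B k ⊔ (M.un (.tau' Z r) ⊓ M.A k) ≤ M.B k ⊔ (M.un (.tau Z r) ⊓ M.A k) := by
          refine sup_le_sup_left (inf_le_inf_right _ ?_) _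
          simp only [Str.un]
          exact inf_le_left
        exact hmono hv1
      have hBt' : box G M.B ≤ M.ev G (Tm.T0 Z r j) := by
        simp only [Tm.T0, Str.ev]
        exact le_sup_right
      have hBα := (hS1 α hαS hαr G hαG).1
      have hBβ := (hS1 β hβS hβr G hβG).1
      have hdis : M.ev G (Tm.T1 Z r j) ⊓ M.ev G α ≤ box G M.B :=
        hS3 α hαS hαr j hjα _ G hjαG
      have hm := hMEX (Submodule ℚ (Lab L →₀ FE V P Q)) (M.ev G (Tm.T0 Z r j))
        (M.ev G (Tm.T1 Z r j)) (M.ev G α ⊓ M.ev G β) (M.ev G α)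
        ((M.ev G α ⊓ M.ev G β) ⊔ M.ev G (Tm.T1 Z r j)) ht't inf_le_left (hdis.trans hBt')
        (hdis.trans (le_inf hBα hBβ))
      refine ⟨(M.ev G α ⊓ M.ev G β) ⊔ M.ev G (Tm.T1 Z r j), fun _ => ⟨fun _ => hm.1,
        fun h => absurd hloc h⟩⟩
    · exact ⟨⊥, fun _ => ⟨fun h => absurd h hloc, fun _ => rfl⟩⟩
  | ek Z ψ j α β =>
    obtain ⟨hZ, hα, hβ, hj⟩ := hover
    have hrk : max α.rank β.rank = n := by
      simp only [Tm.rank] at hrank
      omega
    have hαr : α.rank ≤ n := by rw [← hrk]; exact le_max_left _ _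
    have hβr : β.rank ≤ n := by rw [← hrk]; exact le_max_right _ _
    have hαS := (hOVR L α).2.1 _ _ hZ hα
    have hβS := (hOVR L β).2.1 _ _ hZ hβ
    by_cases hloc : ELoc (EG n) Z ψ j α β ∧ Set.EqOn ψ φ ↑Z
    swap
    · exact ⟨M.ev (insert j (α.vars ∪ β.vars)) α, fun _ =>
        ⟨fun h h' => absurd ⟨h, h'⟩ hloc, fun _ => rfl⟩⟩
    obtain ⟨hE, hψφ⟩ := hloc
    obtain ⟨hHit, hja, hjc, hjn, hENC⟩ := hE
    by_cases hHitφ : Hit (↑Z : Set L) φ
    swap
    · exact ⟨⊥, fun h => absurd h hHitφ⟩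
    set G := insert j (α.vars ∪ β.vars) with hG
    have hαG : α.vars ⊆ G := fun x hx => by simp [hG, hx]
    have hβG : β.vars ⊆ G := fun x hx => by simp [hG, hx]
    have hαβG : α.vars ∪ β.vars ⊆ G := Finset.subset_insert _ _
    have hjα : j ∉ α.vars := fun h => hjn (Finset.mem_union_left _ h)
    have hjαG : insert j α.vars ⊆ G := by
      intro x hx
      rcases Finset.mem_insert.1 hx with rfl | hx
      · simp [hG]
      · exact hαG hx
    have hBα := (hS1 α hαS hαr G hαG).1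
    have hBβ := (hS1 β hβS hβr G hβG).1
    have hdis : M.ev G (Tm.U1 Z ψ j) ⊓ M.ev G α ≤ box G M.B :=
      hS3 α hαS hαr j hjα _ G hjαG
    have hbot : M.ev G Tm.bot = box G M.B := by
      simp only [Tm.bot, Str.ev]
      refine sup_eq_right.2 ?_
      intro v hv k
      have := (hv k).2 (Finset.notMem_empty _)
      rw [this]
      exact ⟨fun _ => zero_mem _, fun _ => rfl⟩
    have hBU : box G M.B ≤ M.ev G (Tm.U1 Z ψ j) := by
      simp only [Tm.U1, Str.ev]
      exact le_sup_right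
    -- overs and ranks of the label term
    have hUO : (Tm.U1 Z ψ j).Over (↑Z : Set L) := by
      intro k hk
      rw [Finset.mem_singleton] at hk
      subst hk
      exact ⟨hj, Set.Subset.refl _⟩
    have hbO : (Tm.bot : Tm L).Over (↑Z : Set L) := by
      intro k hk
      exact absurd hk (Finset.notMem_empty _)
    have hUS := (hOVR L (Tm.U1 Z ψ j)).2.1 _ _ hZ hUO
    have hbS := (hOVR L (Tm.bot : Tm L)).2.1 _ _ hZ hbO
    -- ranks
    have hr1 : M.rk G α β = κ := by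
      apply le_antisymm
      · exact ((hRKL L _ M G α β).1).trans hcard
      · rw [(hS2 α β hαS hβS hαr hβr G hαβG).2]
        refine hFull.1 α β hαS hβS hαr hβr ?_
        refine (hSUPE L n hEE n (↑Z) S φ le_rfl hZ hHitφ α β hα hβ hαr hβr).1 ?_
        exact ESW4_encEq hEMO n _ ψ φ hψφ α β hENC
    have hr2 : M.rk G (Tm.U1 Z ψ j) Tm.bot = κ := by
      apply le_antisymm
      · exact ((hRKL L _ M G _ _).1).trans hcard
      · have hv : (Tm.U1 Z ψ j).vars ∪ (Tm.bot : Tm L).vars ⊆ G := by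
          intro x hx
          simp only [Tm.U1, Tm.bot, Tm.vars, Finset.union_empty, Finset.mem_singleton] at hx
          subst hx
          simp [hG]
        rw [(hS2 _ _ hUS hbS (Nat.zero_le _) (Nat.zero_le _) G hv).2]
        refine hFull.1 _ _ hUS hbS (Nat.zero_le _) (Nat.zero_le _) ?_
        refine (hSUPE L n hEE 0 (↑Z) S φ (Nat.zero_le _) hZ hHitφ _ _ hUO hbO
          (Nat.zero_le _) (Nat.zero_le _)).1 ?_
        exact ESW4_encEq hEMO 0 _ ψ φ hψφ _ _ (hTU1 L Z ψ hHit j hj hja hjc)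
    have c1 : M.ev G α ⊓ M.ev G (Tm.U1 Z ψ j) ≤ M.ev G α ⊓ M.ev G β := by
      rw [inf_comm]
      exact hdis.trans (le_inf hBα hBβ)
    have c2 : M.ev G α ⊓ M.ev G (Tm.U1 Z ψ j) ≤ M.ev G Tm.bot := by
      rw [inf_comm, hbot]
      exact hdis
    have hbU : M.ev G Tm.bot ≤ M.ev G (Tm.U1 Z ψ j) := by
      rw [hbot]
      exact hBU
    obtain ⟨Γ, hΓ⟩ := hLEX (Lab L →₀ FE V P Q) (M.ev G α ⊓ M.ev G β) (M.ev G α)
      (M.ev G Tm.bot) (M.ev G (Tm.U1 Z ψ j)) inf_le_left hbU c1 c2 (by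
        rw [ESW4_rank M G α β (M.ev G α ⊓ M.ev G β) (by rw [← inf_assoc, inf_idem]),
          ESW4_rank M G (Tm.U1 Z ψ j) Tm.bot (M.ev G Tm.bot) rfl, hr1, hr2])
    have hm := hMEX (Submodule ℚ (Lab L →₀ FE V P Q)) (M.ev G α ⊓ M.ev G β) (M.ev G α)
      (M.ev G Tm.bot) (M.ev G (Tm.U1 Z ψ j)) Γ inf_le_left hbU c1 c2
    have hI := hm.2.2.1 hΓ
    refine ⟨Γ, fun _ => ⟨fun _ _ => ⟨hΓ.1, ?_, fun _ => hI.1⟩,
      fun h => absurd ⟨⟨hHit, hja, hjc, hjn, hENC⟩, hψφ⟩ h⟩⟩
    rw [hI.2.1, sup_comm]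

end Pool.NF
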