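import Pool.Agent.Work.MP_b103ef_pos.Interface2
import Pool.Agent.Work.MP_b103ef_pos.B_EMO

/-! Block EUP: new symbols for frame structures (helper1). -/

set_option autoImplicit false

open Classical

namespace Pool.NF

section

variable {L : Type}

theorem EUP_fr {S : Set L} {φ : L → V5} {n : ℕ} {V P Q : Type} [AddCommGroup V] [Module ℚ V]
    [AddCommGroup P] [Module ℚ P] [AddCommGroup Q] [Module ℚ Q] {M : Str L (FE V P Q)}
    (h : EG n S φ V P Q M) : FrOK n S φ M := by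
  cases n with
  | zero => exact h.1
  | succ n => exact h.2.1

theorem EUP_agree {E : Type} [AddCommGroup E] [Module ℚ E] (M : Str L E) (n : ℕ)
    (f : Tm L → Submodule ℚ (Lab L →₀ E)) (S : Set L) : Str.Agree S n M (M.upd (n + 1) f) := by
  refine ⟨fun _ _ _ => rfl, fun _ _ _ => rfl, fun σ _ _ hr => ?_⟩
  show M.g σ = if σ.rank = n + 1 then f σ else M.g σ
  rw [if_neg (by omega)]

theorem EUP_g {E : Type} [AddCommGroup E] [Module ℚ E] (M : Str L E) (n : ℕ)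
    (f : Tm L → Submodule ℚ (Lab L →₀ E)) (σ : Tm L) (h : σ.rank = n) :
    (M.upd n f).g σ = f σ := by
  show (if σ.rank = n then f σ else M.g σ) = f σ
  rw [if_pos h]

theorem EUP_pull {E F : Type} [AddCommGroup E] [Module ℚ E] [AddCommGroup F] [Module ℚ F]
    (M : Str L E) (n : ℕ) (f : Tm L → Submodule ℚ (Lab L →₀ E)) (i : F →ₗ[ℚ] E) :
    (M.upd n f).pull i = (M.pull i).upd n fun σ => (f σ).comap (lift i) := by
  unfold Str.pull Str.upd
  simp only [Str.mk.injEq, true_and]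
  funext σ
  split_ifs <;> rfl

theorem EUP_hom {S Z : Set L} (hZ : Z ⊆ S) (hO : Stmt_OVR) {n : ℕ} {E : Type} [AddCommGroup E]
    [Module ℚ E] {M : Str L E} {f : Tm L → Submodule ℚ (Lab L →₀ E)} {e : E →ₗ[ℚ] E}
    (h : Str.Hom Z n M M e)
    (hf : ∀ σ : Tm L, σ.IsSym → σ.Over S → σ.rank = n + 1 → σ.Over Z → Inv (f σ) e) :
    Str.Hom Z (n + 1) (M.upd (n + 1) f) (M.upd (n + 1) f) e := by
  refine ⟨h.1, h.2.1, fun σ hs ho hr => ?_⟩
  rcases Nat.lt_or_ge n σ.rank with h1 | h1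
  · have h2 : σ.rank = n + 1 := by omega
    rw [EUP_g M (n + 1) f σ h2]
    exact hf σ hs ((hO L σ).2.1 Z S hZ ho) h2 ho
  · rw [← (EUP_agree M n f Z).2.2 σ hs ho h1]
    exact h.2.2 σ hs ho h1

theorem EUP_vg (hU : Stmt_VUP) (hO : Stmt_OVR) {S Z : Set L} (hZ : Z ⊆ S) {ρ : L → V5} {n : ℕ}
    {E F : Type} [AddCommGroup E] [Module ℚ E] [AddCommGroup F] [Module ℚ F] {M : Str L E}
    {f : Tm L → Submodule ℚ (Lab L →₀ E)} {i : F →ₗ[ℚ] E} (h : VG n Z ρ F (M.pull i))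
    (hf : ∀ σ : Tm L, σ.IsSym → σ.Over S → σ.rank = n + 1 → σ.Over Z →
      VAx (VG n) (M.pull i) σ ((f σ).comap (lift i))) :
    VG (n + 1) Z ρ F ((M.upd (n + 1) f).pull i) := by
  rw [EUP_pull]
  exact ((hU L Z ρ n F (M.pull i)).1 _ h fun σ hs ho hr =>
    hf σ hs ((hO L σ).2.1 Z S hZ ho) hr ho).1

end

theorem blk_EUP (_hM : Stmt_EMO) (hU : Stmt_VUP) (hV : Stmt_VMO) (hA : Stmt_AGR)
    (hO : Stmt_OVR) : Stmt_EUP := by
  intro L S φ n V P Q _ _ _ _ _ _ M f h hf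
  have hag := fun Z => EUP_agree M n f Z
  refine ⟨⟨?_, ?_, ?_⟩, hag _⟩
  · exact EMO_level hV hA hO (le_refl S) (fun x _ => rfl) n (hag S) h
  · have zC : dC S φ ⊆ S := fun x hx => hx.1
    have zB : dB S φ ⊆ S := fun x hx => hx.1
    have zA : dA S φ ⊆ S := fun x hx => hx.1
    have z0 : d01 S φ ⊆ S := fun x hx => hx.1
    obtain ⟨⟨h1, h2, h3, h4, h5, h6⟩, ⟨h7, h8, h9, h10⟩, ⟨h11, h12, h13, h14⟩,
      h15, h16, h17⟩ := EUP_fr h
    refine ⟨⟨?_, ?_, ?_, ?_, ?_, ?_⟩, ⟨?_, ?_, ?_, ?_⟩, ⟨?_, ?_, ?_, ?_⟩, ?_, ?_, ?_⟩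
    · exact EUP_hom zC hO h1 fun σ hs ho hr hz => by
        obtain ⟨ΓV, k⟩ := hf σ hs ho hr
        exact (k.1 hz).1.1
    · exact EUP_hom zC hO h2 fun σ hs ho hr hz => by
        obtain ⟨ΓV, k⟩ := hf σ hs ho hr
        exact (k.1 hz).1.2.1
    · exact EUP_hom zC hO h3 fun σ hs ho hr hz => by
        obtain ⟨ΓV, k⟩ := hf σ hs ho hr
        exact (k.1 hz).1.2.2
    · exact EUP_vg hU hO zC h4 fun σ hs ho hr hz => by
        obtain ⟨ΓV, k⟩ := hf σ hs ho hr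
        exact (k.1 hz).2.2.1
    · exact EUP_vg hU hO zC h5 fun σ hs ho hr hz => by
        obtain ⟨ΓV, k⟩ := hf σ hs ho hr
        exact (k.1 hz).2.2.2.1
    · exact EUP_vg hU hO zC h6 fun σ hs ho hr hz => by
        obtain ⟨ΓV, k⟩ := hf σ hs ho hr
        exact (k.1 hz).2.2.2.2
    · exact EUP_hom zB hO h7 fun σ hs ho hr hz => by
        obtain ⟨ΓV, k⟩ := hf σ hs ho hr
        exact (k.2.1 hz).1.1
    · exact EUP_hom zB hO h8 fun σ hs ho hr hz => by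
        obtain ⟨ΓV, k⟩ := hf σ hs ho hr
        exact (k.2.1 hz).1.2
    · exact EUP_vg hU hO zB h9 fun σ hs ho hr hz => by
        obtain ⟨ΓV, k⟩ := hf σ hs ho hr
        exact (k.2.1 hz).2.1
    · exact EUP_vg hU hO zB h10 fun σ hs ho hr hz => by
        obtain ⟨ΓV, k⟩ := hf σ hs ho hr
        exact (k.2.1 hz).2.2
    · exact EUP_hom zA hO h11 fun σ hs ho hr hz => by
        obtain ⟨ΓV, k⟩ := hf σ hs ho hr
        exact (k.2.2.1 hz).1.1
    · exact EUP_hom zA hO h12 fun σ hs ho hr hz => by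
        obtain ⟨ΓV, k⟩ := hf σ hs ho hr
        exact (k.2.2.1 hz).1.2
    · exact EUP_vg hU hO zA h13 fun σ hs ho hr hz => by
        obtain ⟨ΓV, k⟩ := hf σ hs ho hr
        exact (k.2.2.1 hz).2.1
    · exact EUP_vg hU hO zA h14 fun σ hs ho hr hz => by
        obtain ⟨ΓV, k⟩ := hf σ hs ho hr
        exact (k.2.2.1 hz).2.2
    · exact fun c c' => EUP_hom z0 hO (h15 c c') fun σ hs ho hr hz => by
        obtain ⟨ΓV, k⟩ := hf σ hs ho hr
        exact (k.2.2.2.1 hz).1 c c'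
    · exact EUP_hom z0 hO h16 fun σ hs ho hr hz => by
        obtain ⟨ΓV, k⟩ := hf σ hs ho hr
        exact (k.2.2.2.1 hz).2.1
    · exact EUP_hom z0 hO h17 fun σ hs ho hr hz => by
        obtain ⟨ΓV, k⟩ := hf σ hs ho hr
        exact (k.2.2.2.1 hz).2.2
  · intro σ ho hr
    rw [EUP_g M (n + 1) f σ hr]
    cases σ with
    | base F g => trivial
    | inf α β => trivial
    | sup α β => trivial
    | lk Y r j α β =>
      obtain ⟨ΓV, k⟩ := hf (.lk Y r j α β) trivial ho hr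
      exact EMO_hax hA hO _ _ (fun x _ => rfl) (hag S) _ _ ho hr k.2.2.2.2
    | ek Y ψ j α β =>
      obtain ⟨ΓV, k⟩ := hf (.ek Y ψ j α β) trivial ho hr
      exact EMO_hax hA hO _ _ (fun x _ => rfl) (hag S) _ _ ho hr k.2.2.2.2

end Pool.NF
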