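import Pool.Agent.Work.MP_b103ef_pos.Interface2

set_option autoImplicit false

open Classical

namespace Pool.NF

theorem EV0.ker_fst {E : Type} [AddCommGroup E] [Module ℚ E] :
    (⊥ : Submodule ℚ E).comap (LinearMap.fst ℚ E PUnit) = ⊥ := by
  ext v
  simp only [Submodule.mem_comap, Submodule.mem_bot, LinearMap.fst_apply]
  constructor
  · intro h
    ext
    · simpa using h
  · rintro rfl
    rfl

theorem p_EV0 : Stmt_EV0 := by
  intro L m hm Z S hZS ρ hρ E _ _ M hM
  obtain rfl : m = 0 := by omega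
  have hM' : VBase Z ρ M := hM
  let M'' : Str L PUnit := ⟨fun _ _ => ⊤, fun _ _ => ⊤, fun _ => ⊤⟩
  let M' : Str L (E × PUnit) :=
    ⟨fun i l => if i ∈ Z then (M.prod M'').x i l else if ρ i = V5.i then ⊤ else ⊥,
      fun _ _ => ⊥, fun _ => ⊥⟩
  have hx : ∀ i l, (M.prod M'').x i l = (M.x i l).comap (LinearMap.fst ℚ E PUnit) := by
    intro i l
    change (M.x i l).comap (LinearMap.fst ℚ E PUnit) ⊓
      (⊤ : Submodule ℚ PUnit).comap (LinearMap.snd ℚ E PUnit) = _
    rw [Submodule.comap_top, inf_top_eq]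
  refine ⟨PUnit, inferInstance, inferInstance, M'', M', ?_, ?_, ?_, ?_, ?_⟩
  · refine ⟨fun i _ => ⟨fun _ => ⟨Subsingleton.elim _ _, Subsingleton.elim _ _⟩,
      fun _ => ⟨Subsingleton.elim _ _, Subsingleton.elim _ _⟩⟩, fun _ _ _ =>
      Subsingleton.elim _ _⟩
  · refine ⟨fun i hi => ?_, fun _ _ _ => rfl⟩
    by_cases hiZ : i ∈ Z
    · have h1 : ∀ l, M'.x i l = (M.x i l).comap (LinearMap.fst ℚ E PUnit) := by
        intro l
        change (if i ∈ Z then (M.prod M'').x i l else _) = _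
        rw [if_pos hiZ, hx]
      refine ⟨fun h => ?_, fun h => ?_⟩
      · have h2 := (hM'.1 i hiZ).1 h
        rw [h1, h1, h1, h2.1, h2.2, Submodule.comap_top]
        exact ⟨rfl, rfl⟩
      · have h2 := (hM'.1 i hiZ).2 h
        rw [h1, h1, h1, h2.1, h2.2, EV0.ker_fst]
        exact ⟨rfl, rfl⟩
    · have h1 : ∀ l, M'.x i l = if ρ i = V5.i then ⊤ else ⊥ := by
        intro l
        change (if i ∈ Z then (M.prod M'').x i l else _) = _
        rw [if_neg hiZ]
      refine ⟨fun h => ?_, fun h => ?_⟩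
      · rw [h1, h1, h1, if_pos h]
        exact ⟨rfl, rfl⟩
      · have h3 : ¬ ρ i = V5.i := by rw [h]; decide
        rw [h1, h1, h1, if_neg h3]
        exact ⟨rfl, rfl⟩
  · intro i hi l
    change (if i ∈ Z then (M.prod M'').x i l else _) = _
    rw [if_pos hi]
  · intro Z' hZ' ψ
    have h1 : M.u Z' ψ = ⊥ := hM'.2 Z' hZ' ψ
    change ⊥ = (M.u Z' ψ).comap (LinearMap.fst ℚ E PUnit) ⊓
      (⊤ : Submodule ℚ PUnit).comap (LinearMap.snd ℚ E PUnit)
    rw [h1, EV0.ker_fst, bot_inf_eq]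
  · intro σ hσ _ hr
    exfalso
    cases σ with
    | base => exact hσ
    | inf => exact hσ
    | sup => exact hσ
    | lk => simp [Tm.rank] at hr
    | ek => simp [Tm.rank] at hr

end Pool.NF
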