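import Pool.Agent.Work.MP_b103ef_pos.Interface1

set_option autoImplicit false

open Classical

namespace Pool.NF

theorem EVH_box {J E F : Type} [AddCommGroup E] [Module ℚ E] [AddCommGroup F] [Module ℚ F]
    (f : E →ₗ[ℚ] F) (G : Finset J) (C : J → Submodule ℚ E) (C' : J → Submodule ℚ F)
    (h : ∀ j ∈ G, C j ≤ (C' j).comap f) : box G C ≤ (box G C').comap (lift f) := by
  intro v hv j
  have hj := hv j
  refine ⟨fun hjG => ?_, fun hjG => ?_⟩
  · have := h j hjG (hj.1 hjG)
    simpa using this
  · have := hj.2 hjG
    simp [this]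

theorem blk_EVH : Stmt_EVH := by
  intro L S n E F _ _ _ _ M M' f hH
  obtain ⟨hx, hu, hg⟩ := hH
  have hun : ∀ t : Un L, t.Over S → M.un t ≤ (M'.un t).comap f := by
    intro t ht
    cases t with
    | x i l => exact hx i ht l
    | tau Z r =>
      simp only [Str.un, Submodule.comap_iInf]
      exact le_iInf fun i => le_iInf fun hi => le_iInf fun hr =>
        (iInf_le_of_le i (iInf_le_of_le hi (iInf_le_of_le hr le_rfl))).trans (hx i (ht hi) 0)
    | tau' Z r =>
      simp only [Str.un, Submodule.comap_inf, Submodule.comap_iInf]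
      refine inf_le_inf ?_ ?_
      · exact le_iInf fun i => le_iInf fun hi => le_iInf fun hr =>
          (iInf_le_of_le i (iInf_le_of_le hi (iInf_le_of_le hr le_rfl))).trans (hx i (ht hi) 0)
      · exact iSup_le fun i => iSup_le fun hi => iSup_le fun hr =>
          (hx i (ht hi) 2).trans (Submodule.comap_mono
            (le_iSup_of_le i (le_iSup_of_le hi (le_iSup_of_le hr le_rfl))))
    | u Z ψ => exact hu Z ht ψ
  have hA : ∀ j, LOver S j → M.A j ≤ (M'.A j).comap f := fun j hj => hx _ hj.2 0
  have hB : ∀ j, LOver S j → M.B j ≤ (M'.B j).comap f := fun j hj => by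
    simp only [Str.B, Submodule.comap_inf]
    exact inf_le_inf (hx _ hj.2 0) (hx _ hj.1 2)
  refine ⟨hun, fun j hj => ⟨hA j hj, hB j hj⟩, ?_⟩
  intro G hG
  have hbB : box G M.B ≤ (box G M'.B).comap (lift f) :=
    EVH_box f G _ _ (fun j hj => hB j (hG j hj))
  refine ⟨hbB, EVH_box f G _ _ (fun j hj => hA j (hG j hj)), ?_⟩
  intro α
  induction α with
  | base F g =>
    intro hα _
    simp only [Str.ev]
    refine sup_le ?_ (hbB.trans (Submodule.comap_mono le_sup_right))
    refine (EVH_box f F _ _ ?_).trans (Submodule.comap_mono le_sup_left)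
    intro j hj
    obtain ⟨h1, h2⟩ := hα j hj
    refine sup_le ((hB j h1).trans (Submodule.comap_mono le_sup_left)) ?_
    refine le_trans ?_ (Submodule.comap_mono le_sup_right)
    rw [Submodule.comap_inf]
    exact inf_le_inf (hun _ h2) (hA j h1)
  | inf α β iα iβ =>
    intro hα hr
    simp only [Str.ev, Submodule.comap_inf]
    simp only [Tm.rank] at hr
    exact inf_le_inf (iα hα.1 (by omega)) (iβ hα.2 (by omega))
  | sup α β iα iβ =>
    intro hα hr
    simp only [Str.ev]
    simp only [Tm.rank] at hr
    exact sup_le ((iα hα.1 (by omega)).trans (Submodule.comap_mono le_sup_left))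
      ((iβ hα.2 (by omega)).trans (Submodule.comap_mono le_sup_right))
  | lk Z r j α β _ _ =>
    intro hα hr
    simp only [Str.ev]
    exact sup_le ((hg (.lk Z r j α β) trivial hα hr).trans (Submodule.comap_mono le_sup_left))
      (hbB.trans (Submodule.comap_mono le_sup_right))
  | ek Z ψ j α β _ _ =>
    intro hα hr
    simp only [Str.ev]
    exact sup_le ((hg (.ek Z ψ j α β) trivial hα hr).trans (Submodule.comap_mono le_sup_left))
      (hbB.trans (Submodule.comap_mono le_sup_right))

end Pool.NF
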