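import Pool.Agent.Work.MP_b103ef_pos.Interface2

/-!
# MP_b103ef_al (S02731): block EVS (step `EVst n → EVst (n + 1)`)
-/

set_option autoImplicit false

open Classical

namespace Pool.NF

section

variable {L : Type} {E E₁ E₂ : Type} [AddCommGroup E] [Module ℚ E] [AddCommGroup E₁]
  [Module ℚ E₁] [AddCommGroup E₂] [Module ℚ E₂]

/-- the isomorphism `E × (E₁ × E₂) ≃ (E × E₁) × E₂` -/
noncomputable def EVS_a : E × (E₁ × E₂) →ₗ[ℚ] (E × E₁) × E₂ :=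
  ((LinearMap.fst ℚ E (E₁ × E₂)).prod
    ((LinearMap.fst ℚ E₁ E₂).comp (LinearMap.snd ℚ E (E₁ × E₂)))).prod
    ((LinearMap.snd ℚ E₁ E₂).comp (LinearMap.snd ℚ E (E₁ × E₂)))

/-- its inverse -/
noncomputable def EVS_b : (E × E₁) × E₂ →ₗ[ℚ] E × (E₁ × E₂) :=
  ((LinearMap.fst ℚ E E₁).comp (LinearMap.fst ℚ (E × E₁) E₂)).prod
    (((LinearMap.snd ℚ E E₁).comp (LinearMap.fst ℚ (E × E₁) E₂)).prod
      (LinearMap.snd ℚ (E × E₁) E₂))

theorem EVS_ba (v : E × (E₁ × E₂)) : EVS_b (EVS_a v) = v := rfl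

theorem EVS_ab (v : (E × E₁) × E₂) : EVS_a (EVS_b v) = v := rfl

/-- the identity is a homomorphism -/
theorem EVS_homid (S : Set L) (n : ℕ) (M : Str L E) (f : E →ₗ[ℚ] E) (hf : ∀ v, f v = v) :
    Str.Hom S n M M f := by
  have hf' : f = LinearMap.id := LinearMap.ext hf
  subst hf'
  refine ⟨fun i _ l v hv => hv, fun Z _ ψ v hv => hv, fun σ _ _ _ v hv => ?_⟩
  rw [Submodule.mem_comap]
  have : lift (LinearMap.id : E →ₗ[ℚ] E) v = v := by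
    ext j; simp
  rw [this]
  exact hv

theorem EVS_upos (M : Str L E) (m : ℕ) (f : Tm L → Submodule ℚ (Lab L →₀ E)) (σ : Tm L)
    (h : σ.rank = m) : (M.upd m f).g σ = f σ := if_pos h

theorem EVS_uneg (M : Str L E) (m : ℕ) (f : Tm L → Submodule ℚ (Lab L →₀ E)) (σ : Tm L)
    (h : ¬ σ.rank = m) : (M.upd m f).g σ = M.g σ := if_neg h

theorem EVS_prodg (M : Str L E) (M' : Str L E₁) (σ : Tm L) : (M.prod M').g σ =
    (M.g σ).comap (lift (LinearMap.fst ℚ E E₁)) ⊓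
      (M'.g σ).comap (lift (LinearMap.snd ℚ E E₁)) := rfl

/-- `EVst` for one structure with a full complement -/
theorem EVS_core (hFU : Stmt_VFU) (hFR : Stmt_VFR) (hCRD : Stmt_CRD) (hVPR : Stmt_VPR)
    (hVMO : Stmt_VMO) (hVRT : Stmt_VRT) {n : ℕ} (hn : EVst L n) {m : ℕ} (hm : m ≤ n)
    {Z S : Set L} (hZ : Z ⊆ S) {ρ : L → V5} (hρ : IsV S ρ) (M : Str L E) (hM : VG m Z ρ E M) :
    ∃ (κ : Cardinal.{0}) (E' : Type) (_ : AddCommGroup E') (_ : Module ℚ E') (N'' : Str L E')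
      (N : Str L (E × E')), Cardinal.aleph0 ≤ κ ∧ VG m Z ρ E' N'' ∧ VFull κ n Z ρ N'' ∧
      Cardinal.mk (Lab L →₀ E') ≤ κ ∧ VG n S ρ (E × E') N ∧ VFull κ n S ρ N ∧
      Cardinal.mk (Lab L →₀ (E × E')) ≤ κ ∧ Str.Agree Z m N (M.prod N'') := by
  obtain ⟨E₁, i1, i2, M₁'', M₁, h1, h2, h3⟩ := hn m hm Z S hZ ρ hρ E M hM
  obtain ⟨κ₁, hκ₁⟩ := hFU L S ρ n
  set κ : Cardinal.{0} := max (max κ₁ Cardinal.aleph0) (Cardinal.mk (Lab L →₀ (E × E₁))) with hκ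
  have hk1 : κ₁ ≤ κ := (le_max_left _ _).trans (le_max_left _ _)
  have hk2 : Cardinal.aleph0 ≤ κ := (le_max_right _ _).trans (le_max_left _ _)
  have hk3 : Cardinal.mk (Lab L →₀ (E × E₁)) ≤ κ := le_max_right _ _
  obtain ⟨E₂, j1, j2, F, hF1, hF2, hF3⟩ := hκ₁ κ hk1
  have hcE : Cardinal.mk (Lab L →₀ E) ≤ κ :=
    (hCRD.1 (Lab L) E (E × E₁) (LinearMap.inl ℚ E E₁) LinearMap.inl_injective).trans hk3
  have hcE₁ : Cardinal.mk (Lab L →₀ E₁) ≤ κ :=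
    (hCRD.1 (Lab L) E₁ (E × E₁) (LinearMap.inr ℚ E E₁) LinearMap.inr_injective).trans hk3
  have hcE' : Cardinal.mk (Lab L →₀ (E₁ × E₂)) ≤ κ := hCRD.2.1 (Lab L) E₁ E₂ κ hk2 hcE₁ hF3
  have hcEE : Cardinal.mk (Lab L →₀ (E × (E₁ × E₂))) ≤ κ :=
    hCRD.2.1 (Lab L) E (E₁ × E₂) κ hk2 hcE hcE'
  have hFm : VG m Z ρ E₂ F :=
    hVMO L S Z ρ ρ m n E₂ F F hF1 hm hZ (fun _ _ => rfl) ⟨fun _ _ _ => rfl, fun _ _ _ => rfl,
      fun _ _ _ _ => rfl⟩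
  have hN'' : VG m Z ρ (E₁ × E₂) (M₁''.prod F) := (hVPR L Z ρ m E₁ E₂ M₁'' F).1 h1 hFm
  have hfF : VFull κ n Z ρ F := (hFR L n S ρ κ E₂ F hF2).1 Z hn hρ hZ
  have hfN'' : VFull κ n Z ρ (M₁''.prod F) := (hFR L n Z ρ κ E₂ F hfF).2.2.1 E₁ M₁''
  have hN0 : VG n S ρ ((E × E₁) × E₂) (M₁.prod F) := (hVPR L S ρ n (E × E₁) E₂ M₁ F).1 h2 hF1
  have hN : VG n S ρ (E × (E₁ × E₂)) ((M₁.prod F).pull EVS_a) :=
    hVRT L S ρ n ((E × E₁) × E₂) (E × (E₁ × E₂)) (M₁.prod F) EVS_a EVS_b EVS_ba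
      (EVS_homid S n _ _ EVS_ab) hN0
  have hfN : VFull κ n S ρ ((M₁.prod F).pull (EVS_a (E := E) (E₁ := E₁) (E₂ := E₂))) := by
    refine (hFR L n S ρ κ E₂ F hF2).2.2.2 (E × (E₁ × E₂)) _
      ((LinearMap.inr ℚ E (E₁ × E₂)).comp (LinearMap.inr ℚ E₁ E₂))
      ((LinearMap.snd ℚ E₁ E₂).comp (LinearMap.snd ℚ E (E₁ × E₂))) (fun v => rfl) ?_ ?_
    · refine ⟨fun i _ l v hv => ?_, fun Z _ ψ v hv => ?_, fun σ _ _ _ v hv => ?_⟩
      · exact ⟨Submodule.zero_mem _, hv⟩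
      · exact ⟨Submodule.zero_mem _, hv⟩
      · constructor
        · have h00 : lift (LinearMap.fst ℚ (E × E₁) E₂) (lift EVS_a (lift ((LinearMap.inr ℚ E
              (E₁ × E₂)).comp (LinearMap.inr ℚ E₁ E₂)) v)) = 0 := by
            ext j <;> simp [EVS_a]
          have h1 : lift (LinearMap.fst ℚ (E × E₁) E₂) (lift EVS_a (lift ((LinearMap.inr ℚ E
              (E₁ × E₂)).comp (LinearMap.inr ℚ E₁ E₂)) v)) ∈ M₁.g σ := by
            rw [h00]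
            exact Submodule.zero_mem _
          exact h1
        · have h00 : lift (LinearMap.snd ℚ (E × E₁) E₂) (lift EVS_a (lift ((LinearMap.inr ℚ E
              (E₁ × E₂)).comp (LinearMap.inr ℚ E₁ E₂)) v)) = v := by
            ext j; simp [EVS_a]
          have h1 : lift (LinearMap.snd ℚ (E × E₁) E₂) (lift EVS_a (lift ((LinearMap.inr ℚ E
              (E₁ × E₂)).comp (LinearMap.inr ℚ E₁ E₂)) v)) ∈ F.g σ := by
            rw [h00]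
            exact hv
          exact h1
    · refine ⟨fun i _ l v hv => hv.2, fun Z _ ψ v hv => hv.2, fun σ _ _ _ v hv => ?_⟩
      have h' : lift (LinearMap.snd ℚ (E × E₁) E₂) (lift EVS_a v) ∈ F.g σ := hv.2
      have h00 : lift ((LinearMap.snd ℚ E₁ E₂).comp (LinearMap.snd ℚ E (E₁ × E₂))) v =
          lift (LinearMap.snd ℚ (E × E₁) E₂) (lift EVS_a v) := by
        ext j; simp [EVS_a]
      have h1 : lift ((LinearMap.snd ℚ E₁ E₂).comp (LinearMap.snd ℚ E (E₁ × E₂))) v ∈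
          F.g σ := by
        rw [h00]
        exact h'
      exact h1
  refine ⟨κ, E₁ × E₂, inferInstance, inferInstance, M₁''.prod F, (M₁.prod F).pull EVS_a, hk2,
    hN'', hfN'', hcE', hN, hfN, hcEE, ?_⟩
  obtain ⟨ha, hb, hc⟩ := h3
  refine ⟨fun i hi l => ?_, fun Z' hZ' ψ => ?_, fun σ hs ho hr => ?_⟩
  · have h := ha i hi l
    ext v
    constructor
    · rintro ⟨h1, h2⟩
      have h1' : (EVS_a v).1 ∈ M₁.x i l := h1
      rw [h] at h1'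
      exact ⟨h1'.1, h1'.2, h2⟩
    · rintro ⟨h1, h2, h3⟩
      have h9 : (EVS_a v).1 ∈ M₁.x i l := by
        rw [h]
        exact ⟨h1, h2⟩
      exact ⟨h9, h3⟩
  · have h := hb Z' hZ' ψ
    ext v
    constructor
    · rintro ⟨h1, h2⟩
      have h1' : (EVS_a v).1 ∈ M₁.u Z' ψ := h1
      rw [h] at h1'
      exact ⟨h1'.1, h1'.2, h2⟩
    · rintro ⟨h1, h2, h3⟩
      have h9 : (EVS_a v).1 ∈ M₁.u Z' ψ := by
        rw [h]
        exact ⟨h1, h2⟩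
      exact ⟨h9, h3⟩
  · have h := hc σ hs ho hr
    ext v
    have e1 : lift (LinearMap.fst ℚ E E₁) (lift (LinearMap.fst ℚ (E × E₁) E₂) (lift EVS_a v)) =
        lift (LinearMap.fst ℚ E (E₁ × E₂)) v := by
      ext j; simp [EVS_a]
    have e2 : lift (LinearMap.snd ℚ E E₁) (lift (LinearMap.fst ℚ (E × E₁) E₂) (lift EVS_a v)) =
        lift (LinearMap.fst ℚ E₁ E₂) (lift (LinearMap.snd ℚ E (E₁ × E₂)) v) := by
      ext j; simp [EVS_a]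
    have e3 : lift (LinearMap.snd ℚ (E × E₁) E₂) (lift EVS_a v) =
        lift (LinearMap.snd ℚ E₁ E₂) (lift (LinearMap.snd ℚ E (E₁ × E₂)) v) := by
      ext j; simp [EVS_a]
    constructor
    · rintro ⟨h1, h2⟩
      have h1' : lift (LinearMap.fst ℚ (E × E₁) E₂) (lift EVS_a v) ∈ M₁.g σ := h1
      rw [h] at h1'
      obtain ⟨p1, p2⟩ := h1'
      have p1' : lift (LinearMap.fst ℚ E E₁) (lift (LinearMap.fst ℚ (E × E₁) E₂)
        (lift EVS_a v)) ∈ M.g σ := p1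
      have p2' : lift (LinearMap.snd ℚ E E₁) (lift (LinearMap.fst ℚ (E × E₁) E₂)
        (lift EVS_a v)) ∈ M₁''.g σ := p2
      have h2' : lift (LinearMap.snd ℚ (E × E₁) E₂) (lift EVS_a v) ∈ F.g σ := h2
      rw [e1] at p1'
      rw [e2] at p2'
      rw [e3] at h2'
      exact ⟨p1', p2', h2'⟩
    · rintro ⟨h1, h2, h3⟩
      have h1' : lift (LinearMap.fst ℚ E (E₁ × E₂)) v ∈ M.g σ := h1
      have h2' : lift (LinearMap.fst ℚ E₁ E₂) (lift (LinearMap.snd ℚ E (E₁ × E₂)) v) ∈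
        M₁''.g σ := h2
      have h3' : lift (LinearMap.snd ℚ E₁ E₂) (lift (LinearMap.snd ℚ E (E₁ × E₂)) v) ∈
        F.g σ := h3
      rw [← e1] at h1'
      rw [← e2] at h2'
      rw [← e3] at h3'
      have h9 : lift (LinearMap.fst ℚ (E × E₁) E₂) (lift EVS_a v) ∈ M₁.g σ := by
        rw [h]
        exact ⟨h1', h2'⟩
      exact ⟨h9, h3'⟩

end

theorem blk_EVS (hVLK : Stmt_VLK) (hVFU : Stmt_VFU) (hVFR : Stmt_VFR) (hCRD : Stmt_CRD)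
    (hVPR : Stmt_VPR) (hVUP : Stmt_VUP) (hVMO : Stmt_VMO) (hVRT : Stmt_VRT) (hOVR : Stmt_OVR) :
    Stmt_EVS := by
  intro L n hn m hm Z S hZ ρ hρ E _ _ M hM
  rcases Nat.lt_or_ge m (n + 1) with hlt | hge
  · have hmn : m ≤ n := by omega
    obtain ⟨κ, E', i1, i2, N'', N, hκ, hN'', -, -, hN, hfN, hcN, hag⟩ :=
      EVS_core hVFU hVFR hCRD hVPR hVMO hVRT hn hmn hZ hρ M hM
    have hΓ : ∀ σ : Tm L, ∃ Γ : Submodule ℚ (Lab L →₀ (E × E')), σ.IsSym → σ.Over S →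
        σ.rank = n + 1 → VAx (VG n) N σ Γ := by
      intro σ
      by_cases h : σ.IsSym ∧ σ.Over S ∧ σ.rank = n + 1
      · obtain ⟨Γ, h'⟩ := hVLK L n hn S ρ hρ κ hκ (E × E') N hN hfN hcN σ h.1 h.2.1 h.2.2
        exact ⟨Γ, fun _ _ _ => h'⟩
      · exact ⟨⊥, fun a b c => absurd ⟨a, b, c⟩ h⟩
    choose f hf using hΓ
    obtain ⟨hU1, hU2⟩ := (hVUP L S ρ n (E × E') N).1 f hN hf
    refine ⟨E', i1, i2, N'', N.upd (n + 1) f, hN'', hU1, ?_⟩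
    refine ⟨fun i hi l => ?_, fun Z' hZ' ψ => ?_, fun σ hs ho hr => ?_⟩
    · rw [← hU2.1 i (Set.mem_univ _) l, hag.1 i hi l]
    · rw [← hU2.2.1 Z' (Set.subset_univ _) ψ, hag.2.1 Z' hZ' ψ]
    · rw [← hU2.2.2 σ hs ((hOVR L σ).2.1 _ _ (Set.subset_univ _) ho) (by omega),
        hag.2.2 σ hs ho hr]
  · have hmn : m = n + 1 := by omega
    subst hmn
    obtain ⟨hM0, hM1⟩ := hM
    obtain ⟨κ, E', i1, i2, N'', N, hκ, hN'', hfN'', hcN'', hN, hfN, hcN, hag⟩ :=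
      EVS_core hVFU hVFR hCRD hVPR hVMO hVRT hn le_rfl hZ hρ M hM0
    have hρZ : IsV Z ρ := fun x hx => hρ x (hZ hx)
    have hΓ'' : ∀ σ : Tm L, ∃ Γ : Submodule ℚ (Lab L →₀ E'), σ.IsSym → σ.Over Z →
        σ.rank = n + 1 → VAx (VG n) N'' σ Γ := by
      intro σ
      by_cases h : σ.IsSym ∧ σ.Over Z ∧ σ.rank = n + 1
      · obtain ⟨Γ, h'⟩ := hVLK L n hn Z ρ hρZ κ hκ E' N'' hN'' hfN'' hcN'' σ h.1 h.2.1 h.2.2
        exact ⟨Γ, fun _ _ _ => h'⟩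
      · exact ⟨⊥, fun a b c => absurd ⟨a, b, c⟩ h⟩
    choose f'' hf'' using hΓ''
    have hΓ : ∀ σ : Tm L, ∃ Γ : Submodule ℚ (Lab L →₀ (E × E')), (σ.IsSym → σ.Over S →
        σ.rank = n + 1 → VAx (VG n) N σ Γ) ∧ (σ.IsSym → σ.Over Z → σ.rank = n + 1 →
        Γ = (M.g σ).comap (lift (LinearMap.fst ℚ E E')) ⊓
          (f'' σ).comap (lift (LinearMap.snd ℚ E E'))) := by
      intro σ
      by_cases hZ' : σ.IsSym ∧ σ.Over Z ∧ σ.rank = n + 1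
      · refine ⟨_, fun hs _ hr => ?_, fun _ _ _ => rfl⟩
        have h1 : VAx (VG n) (M.prod N'') σ ((M.g σ).comap (lift (LinearMap.fst ℚ E E')) ⊓
            (f'' σ).comap (lift (LinearMap.snd ℚ E E'))) :=
          (hVPR L Z ρ n E E' M N'').2 σ (M.g σ) (f'' σ)
            ((hOVR L σ).2.1 _ _ (Set.subset_univ _) hZ'.2.1) (hM1 σ hZ'.2.1 hZ'.2.2)
            (hf'' σ hZ'.1 hZ'.2.1 hZ'.2.2)
        have hag' : Str.Agree Z n (M.prod N'') N :=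
          ⟨fun i hi l => (hag.1 i hi l).symm, fun Z' hZ' ψ => (hag.2.1 Z' hZ' ψ).symm,
            fun σ a b c => (hag.2.2 σ a b c).symm⟩
        exact (hVUP L Z ρ n (E × E') (M.prod N'')).2 N σ _ hag' hZ'.2.1 hZ'.2.2 h1
      · by_cases h : σ.IsSym ∧ σ.Over S ∧ σ.rank = n + 1
        · obtain ⟨Γ, h'⟩ := hVLK L n hn S ρ hρ κ hκ (E × E') N hN hfN hcN σ h.1 h.2.1 h.2.2
          exact ⟨Γ, fun _ _ _ => h', fun a b c => absurd ⟨a, b, c⟩ hZ'⟩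
        · exact ⟨⊥, fun a b c => absurd ⟨a, b, c⟩ h, fun a b c => absurd ⟨a, b, c⟩ hZ'⟩
    choose f hf1 hf2 using hΓ
    obtain ⟨hU1, hU2⟩ := (hVUP L S ρ n (E × E') N).1 f hN hf1
    obtain ⟨hV1, hV2⟩ := (hVUP L Z ρ n E' N'').1 f'' hN'' hf''
    refine ⟨E', i1, i2, N''.upd (n + 1) f'', N.upd (n + 1) f, hV1, hU1, ?_⟩
    refine ⟨fun i hi l => ?_, fun Z' hZ' ψ => ?_, fun σ hs ho hr => ?_⟩
    · exact hag.1 i hi l
    · exact hag.2.1 Z' hZ' ψ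
    · by_cases h : σ.rank = n + 1
      · have h1 : (N.upd (n + 1) f).g σ = f σ := EVS_upos N (n + 1) f σ h
        have h2 : (N''.upd (n + 1) f'').g σ = f'' σ := EVS_upos N'' (n + 1) f'' σ h
        rw [EVS_prodg, h1, h2]
        exact hf2 σ hs ho h
      · have h1 : (N.upd (n + 1) f).g σ = N.g σ := EVS_uneg N (n + 1) f σ h
        have h2 : (N''.upd (n + 1) f'').g σ = N''.g σ := EVS_uneg N'' (n + 1) f'' σ h
        rw [EVS_prodg, h1, h2, hag.2.2 σ hs ho (by omega), EVS_prodg]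

end Pool.NF
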