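import Pool.Agent.Work.MP_b103ef_pos.B_SEQ

set_option autoImplicit false

open Classical

namespace Pool.NF

theorem EW_hom0 {L : Type} (S : Set L) (n : ℕ) {E F : Type} [AddCommGroup E] [Module ℚ E]
    [AddCommGroup F] [Module ℚ F] [Subsingleton F] (N : Str L E) (inc : F →ₗ[ℚ] E)
    (pr : E →ₗ[ℚ] F) : Str.Hom S n N N (inc.comp pr) := by
  have h0 : inc.comp pr = 0 := by
    ext v
    rw [LinearMap.comp_apply, Subsingleton.elim (pr v) 0, map_zero]
    rfl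
  rw [h0]
  have h1 : (lift (0 : E →ₗ[ℚ] E) : (Lab L →₀ E) →ₗ[ℚ] (Lab L →₀ E)) = 0 := by
    ext; simp [lift]
  refine ⟨fun i _ l v _ => ?_, fun Z _ ψ v _ => ?_, fun σ _ _ _ v _ => ?_⟩
  · rw [Submodule.mem_comap, LinearMap.zero_apply]
    exact Submodule.zero_mem _
  · rw [Submodule.mem_comap, LinearMap.zero_apply]
    exact Submodule.zero_mem _
  · rw [Submodule.mem_comap, h1, LinearMap.zero_apply]
    exact Submodule.zero_mem _

theorem EW_hom1 {L : Type} (S : Set L) (n : ℕ) {E : Type} [AddCommGroup E] [Module ℚ E]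
    (N : Str L E) (e : E →ₗ[ℚ] E) (he : ∀ v, e v = v) : Str.Hom S n N N e := by
  have h0 : e = LinearMap.id := by ext v; exact he v
  rw [h0]
  have h1 : (lift (LinearMap.id : E →ₗ[ℚ] E) : (Lab L →₀ E) →ₗ[ℚ] (Lab L →₀ E)) =
      LinearMap.id := by
    ext; simp [lift]
  refine ⟨fun i _ l v hv => hv, fun Z _ ψ v hv => hv, fun σ _ _ _ v hv => ?_⟩
  rw [Submodule.mem_comap, h1]
  exact hv

theorem EW_agr {L : Type} (S : Set L) (n : ℕ) {E : Type} [AddCommGroup E] [Module ℚ E]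
    (N : Str L E) : Str.Agree S n N N :=
  ⟨fun _ _ _ => rfl, fun _ _ _ => rfl, fun _ _ _ _ => rfl⟩

theorem EW_vg (hR : Stmt_VRT) (hMo : Stmt_VMO) {L : Type} {S Z : Set L} {ρ : L → V5} {n : ℕ}
    {E F G : Type} [AddCommGroup E] [Module ℚ E] [AddCommGroup F] [Module ℚ F] [AddCommGroup G]
    [Module ℚ G] (M : Str L E) (p : G →ₗ[ℚ] E) (i : E →ₗ[ℚ] G) (inc : F →ₗ[ℚ] G)
    (pr : G →ₗ[ℚ] F) (h1 : ∀ w, p (i w) = w) (h2 : ∀ u, i (p u) = u) (h3 : ∀ v, pr (inc v) = v)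
    (h4 : ∀ u, inc (pr u) = u) (hM : VG n S ρ E M) (hZ : Z ⊆ S) :
    VG n Z ρ F ((M.pull p).pull inc) := by
  have hM' : VG n Z ρ E M := hMo L S Z ρ ρ n n E M M hM le_rfl hZ (fun _ _ => rfl) (EW_agr Z n M)
  rw [SEQ_pull]
  refine hR L Z ρ n E F M (p.comp inc) (pr.comp i) (fun v => ?_) ?_ hM'
  · simp only [LinearMap.comp_apply]; rw [h2, h3]
  · refine EW_hom1 Z n M _ (fun v => ?_)
    simp only [LinearMap.comp_apply]; rw [h4, h1]

theorem EW_incP {V E Q : Type} [AddCommGroup V] [Module ℚ V] [AddCommGroup E] [Module ℚ E]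
    [AddCommGroup Q] [Module ℚ Q] [Subsingleton V] [Subsingleton Q] (v : FE V E Q) :
    incP (prP v) = v :=
  Prod.ext (Prod.ext (Subsingleton.elim _ _) (Prod.ext (Subsingleton.elim _ _) rfl))
    (Subsingleton.elim _ _)

theorem EW_incQ {V P E : Type} [AddCommGroup V] [Module ℚ V] [AddCommGroup E] [Module ℚ E]
    [AddCommGroup P] [Module ℚ P] [Subsingleton V] [Subsingleton P] (v : FE V P E) :
    incQ (prQ v) = v :=
  Prod.ext (Subsingleton.elim _ _)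
    (Prod.ext (Subsingleton.elim _ _) (Prod.ext (Subsingleton.elim _ _) rfl))

theorem EW_frP (hF : Stmt_FID) (hR : Stmt_VRT) (hMo : Stmt_VMO) (hZr : Stmt_VZR) {L : Type}
    (S : Set L) (φ : L → V5) (n : ℕ) {V E Q : Type} [AddCommGroup V] [Module ℚ V]
    [AddCommGroup E] [Module ℚ E] [AddCommGroup Q] [Module ℚ Q] [Subsingleton V]
    [Subsingleton Q] (M : Str L E)
    (hM : VG n S (pp ∘ φ) E M) (N : Str L (FE V E Q)) (hN : N = M.pull prP) :
    FrOK n S φ N := by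
  obtain ⟨⟨a1, a2, a3, -⟩, ⟨b1, b2, -⟩, ⟨c1, c2, -⟩, ⟨d1, d2, -⟩, ⟨e1, e2, e3⟩, -⟩ :=
    hF V E Q
  have kX : ∀ u : FE V E Q, incX (prX u) = u := by
    intro u
    have h := e1 u
    rw [Subsingleton.elim (prV u) 0, Subsingleton.elim (prY u) 0, map_zero, map_zero, add_zero,
      add_zero] at h
    exact h
  have kI : ∀ u : FE V E Q, incI (prI u) = u := by
    intro u
    have h := e2 u
    rw [Subsingleton.elim (prK u) 0, map_zero, add_zero] at h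
    exact h
  have kJ : ∀ u : FE V E Q, incI' (prI' u) = u := by
    intro u
    have h := e3 u
    rw [Subsingleton.elim (prK' u) 0, map_zero, add_zero] at h
    exact h
  have kP : ∀ u : FE V E Q, incP (prP u) = u := EW_incP
  have sC : dC S φ ⊆ S := fun x hx => hx.1
  have sB : dB S φ ⊆ S := fun x hx => hx.1
  have sA : dA S φ ⊆ S := fun x hx => hx.1
  have A1 : Str.Hom (dC S φ) n N N (incX.comp prX) := EW_hom1 _ _ _ _ kX
  have A2 : Str.Hom (dC S φ) n N N (incV.comp prV) := EW_hom0 (dC S φ) n N incV prV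
  have A3 : Str.Hom (dC S φ) n N N (incY.comp prY) := EW_hom0 (dC S φ) n N incY prY
  have A4 : VG n (dC S φ) (pp ∘ φ) (FX V E) (N.pull incX) := by
    rw [hN]; exact EW_vg hR hMo M (prP : FE V E Q →ₗ[ℚ] E) incP (incX : FX V E →ₗ[ℚ] FE V E Q) prX d1 kP a1 kX hM sC
  have A5 : VG n (dC S φ) (ps ∘ φ) V (N.pull incV) := hZr L _ _ n V _
  have A6 : VG n (dC S φ) (pq ∘ φ) (FY V Q) (N.pull incY) := hZr L _ _ n (FY V Q) _
  have B1 : Str.Hom (dB S φ) n N N (incI.comp prI) := EW_hom1 _ _ _ _ kI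
  have B2 : Str.Hom (dB S φ) n N N (incK.comp prK) := EW_hom0 (dB S φ) n N incK prK
  have B3 : VG n (dB S φ) (pp ∘ φ) (FX V E) (N.pull incI) := by
    rw [hN]; exact EW_vg hR hMo M (prP : FE V E Q →ₗ[ℚ] E) incP (incI : FX V E →ₗ[ℚ] FE V E Q) prI d1 kP b1 kI hM sB
  have B4 : VG n (dB S φ) (pq ∘ φ) (V × FY V Q) (N.pull incK) := hZr L _ _ n (V × FY V Q) _
  have C1 : Str.Hom (dA S φ) n N N (incI'.comp prI') := EW_hom1 _ _ _ _ kJ
  have C2 : Str.Hom (dA S φ) n N N (incK'.comp prK') := EW_hom0 (dA S φ) n N incK' prK'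
  have C3 : VG n (dA S φ) (pp ∘ φ) (FX V E × V) (N.pull incI') := by
    rw [hN]; exact EW_vg hR hMo M (prP : FE V E Q →ₗ[ℚ] E) incP (incI' : FX V E × V →ₗ[ℚ] FE V E Q) prI' d1 kP c1 kJ hM sA
  have C4 : VG n (dA S φ) (pq ∘ φ) (FY V Q) (N.pull incK') := hZr L _ _ n (FY V Q) _
  have D1 : ∀ c c' : Co, Str.Hom (d01 S φ) n N N ((incC c').comp (prC c)) := fun c c' =>
    EW_hom0 (d01 S φ) n N (incC c') (prC c)
  have D2 : Str.Hom (d01 S φ) n N N (incP.comp prP) := EW_hom1 _ _ _ _ kP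
  have D3 : Str.Hom (d01 S φ) n N N (incQ.comp prQ) := EW_hom0 (d01 S φ) n N incQ prQ
  exact ⟨⟨A1, A2, A3, A4, A5, A6⟩, ⟨B1, B2, B3, B4⟩, ⟨C1, C2, C3, C4⟩, D1, D2, D3⟩

theorem EW_frQ (hF : Stmt_FID) (hR : Stmt_VRT) (hMo : Stmt_VMO) (hZr : Stmt_VZR) {L : Type}
    (S : Set L) (φ : L → V5) (n : ℕ) {V P E : Type} [AddCommGroup V] [Module ℚ V]
    [AddCommGroup P] [Module ℚ P] [AddCommGroup E] [Module ℚ E] [Subsingleton V]
    [Subsingleton P] (M : Str L E)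
    (hM : VG n S (pq ∘ φ) E M) (N : Str L (FE V P E)) (hN : N = M.pull prQ) :
    FrOK n S φ N := by
  obtain ⟨⟨a1, a2, a3, -⟩, ⟨b1, b2, -⟩, ⟨c1, c2, -⟩, ⟨d1, d2, -⟩, ⟨e1, e2, e3⟩, -⟩ :=
    hF V P E
  have kY : ∀ u : FE V P E, incY (prY u) = u := by
    intro u
    have h := e1 u
    rw [Subsingleton.elim (prV u) 0, Subsingleton.elim (prX u) 0, map_zero, map_zero, zero_add,
      zero_add] at h
    exact h
  have kK : ∀ u : FE V P E, incK (prK u) = u := by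
    intro u
    have h := e2 u
    rw [Subsingleton.elim (prI u) 0, map_zero, zero_add] at h
    exact h
  have kL : ∀ u : FE V P E, incK' (prK' u) = u := by
    intro u
    have h := e3 u
    rw [Subsingleton.elim (prI' u) 0, map_zero, zero_add] at h
    exact h
  have kQ : ∀ u : FE V P E, incQ (prQ u) = u := EW_incQ
  have sC : dC S φ ⊆ S := fun x hx => hx.1
  have sB : dB S φ ⊆ S := fun x hx => hx.1
  have sA : dA S φ ⊆ S := fun x hx => hx.1
  have A1 : Str.Hom (dC S φ) n N N (incX.comp prX) := EW_hom0 (dC S φ) n N incX prX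
  have A2 : Str.Hom (dC S φ) n N N (incV.comp prV) := EW_hom0 (dC S φ) n N incV prV
  have A3 : Str.Hom (dC S φ) n N N (incY.comp prY) := EW_hom1 _ _ _ _ kY
  have A4 : VG n (dC S φ) (pp ∘ φ) (FX V P) (N.pull incX) := hZr L _ _ n (FX V P) _
  have A5 : VG n (dC S φ) (ps ∘ φ) V (N.pull incV) := hZr L _ _ n V _
  have A6 : VG n (dC S φ) (pq ∘ φ) (FY V E) (N.pull incY) := by
    rw [hN]; exact EW_vg hR hMo M (prQ : FE V P E →ₗ[ℚ] E) incQ (incY : FY V E →ₗ[ℚ] FE V P E) prY d2 kQ a3 kY hM sC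
  have B1 : Str.Hom (dB S φ) n N N (incI.comp prI) := EW_hom0 (dB S φ) n N incI prI
  have B2 : Str.Hom (dB S φ) n N N (incK.comp prK) := EW_hom1 _ _ _ _ kK
  have B3 : VG n (dB S φ) (pp ∘ φ) (FX V P) (N.pull incI) := hZr L _ _ n (FX V P) _
  have B4 : VG n (dB S φ) (pq ∘ φ) (V × FY V E) (N.pull incK) := by
    rw [hN]; exact EW_vg hR hMo M (prQ : FE V P E →ₗ[ℚ] E) incQ (incK : V × FY V E →ₗ[ℚ] FE V P E) prK d2 kQ b2 kK hM sB
  have C1 : Str.Hom (dA S φ) n N N (incI'.comp prI') := EW_hom0 (dA S φ) n N incI' prI'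
  have C2 : Str.Hom (dA S φ) n N N (incK'.comp prK') := EW_hom1 _ _ _ _ kL
  have C3 : VG n (dA S φ) (pp ∘ φ) (FX V P × V) (N.pull incI') := hZr L _ _ n (FX V P × V) _
  have C4 : VG n (dA S φ) (pq ∘ φ) (FY V E) (N.pull incK') := by
    rw [hN]; exact EW_vg hR hMo M (prQ : FE V P E →ₗ[ℚ] E) incQ (incK' : FY V E →ₗ[ℚ] FE V P E) prK' d2 kQ c2 kL hM sA
  have D1 : ∀ c c' : Co, Str.Hom (d01 S φ) n N N ((incC c').comp (prC c)) := fun c c' =>
    EW_hom0 (d01 S φ) n N (incC c') (prC c)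
  have D2 : Str.Hom (d01 S φ) n N N (incP.comp prP) := EW_hom0 (d01 S φ) n N incP prP
  have D3 : Str.Hom (d01 S φ) n N N (incQ.comp prQ) := EW_hom1 _ _ _ _ kQ
  exact ⟨⟨A1, A2, A3, A4, A5, A6⟩, ⟨B1, B2, B3, B4⟩, ⟨C1, C2, C3, C4⟩, D1, D2, D3⟩

theorem EW_box_mono {J E : Type} [AddCommGroup E] [Module ℚ E] {F G : Finset J} (h : F ⊆ G)
    (C : J → Submodule ℚ E) : box F C ≤ box G C := by
  intro v hv j
  refine ⟨fun _ => ?_, fun hj => (hv j).2 (fun hF => hj (h hF))⟩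
  by_cases hF : j ∈ F
  · exact (hv j).1 hF
  · rw [(hv j).2 hF]; exact (C j).zero_mem

theorem EW_box_le {L E : Type} [AddCommGroup E] [Module ℚ E] (M : Str L E) (G : Finset (Lab L))
    (α : Tm L) : box G M.B ≤ M.ev G α := by
  induction α with
  | base F g => exact le_sup_right
  | inf α β ha hb => exact le_inf ha hb
  | sup α β ha hb => exact le_sup_of_le_left ha
  | lk Z r j α β _ _ => exact le_sup_right
  | ek Z r j α β _ _ => exact le_sup_right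

theorem EW_bot {L E : Type} [AddCommGroup E] [Module ℚ E] (M : Str L E) (G : Finset (Lab L)) :
    M.ev G Tm.bot = box G M.B := by
  refine le_antisymm (sup_le ?_ le_rfl) le_sup_right
  intro v hv j
  have h0 : v j = 0 := (hv j).2 (by simp)
  rw [h0]
  exact ⟨fun _ => (M.B j).zero_mem, fun _ => rfl⟩

theorem EW_U1 {L E : Type} [AddCommGroup E] [Module ℚ E] (M : Str L E) (G : Finset (Lab L))
    (Z : Finset L) (ψ : L → V5) (j : Lab L) (hj : j ∈ G) (hu : M.u Z ψ = ⊥) :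
    M.ev G (Tm.U1 Z ψ j) = box G M.B := by
  refine le_antisymm (sup_le ?_ le_rfl) le_sup_right
  have e : (fun j => M.B j ⊔ (M.un (Un.u Z ψ) ⊓ M.A j)) = M.B := by
    funext k
    have : M.un (Un.u Z ψ) = ⊥ := hu
    rw [this, bot_inf_eq, sup_bot_eq]
  show box {j} (fun j => M.B j ⊔ (M.un (Un.u Z ψ) ⊓ M.A j)) ≤ box G M.B
  rw [e]
  exact EW_box_mono (by simpa using hj) M.B

theorem EW_hax (hSan : Stmt_SAN) (hVS : Stmt_VSN) (hMo : Stmt_VMO) (hO : Stmt_OVR) {L : Type}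
    (S : Set L) (φ ρ : L → V5) (hρ : ∀ Z : Set L, IsV Z ρ) (n : ℕ) {E : Type} [AddCommGroup E]
    [Module ℚ E] (M : Str L E) (hM : VG (n + 1) S ρ E M) (σ : Tm L) (hσ : σ.Over S)
    (hr : σ.rank = n + 1) : HAx (VG n) (EG n) φ M σ (M.g σ) := by
  have hA := hM.2 σ hσ hr
  cases σ with
  | base F g => trivial
  | inf α β => trivial
  | sup α β => trivial
  | lk Z r j α β =>
    intro _
    exact ⟨fun hl => (hA.1 hl).1, hA.2⟩
  | ek Z ψ j α β =>
    intro _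
    obtain ⟨hZ, hα, hβ, hj⟩ := hσ
    have hA' : M.g (Tm.ek Z ψ j α β) = M.ev (insert j (α.vars ∪ β.vars)) α := hA
    have hrk : max α.rank β.rank = n := by
      have : max α.rank β.rank + 1 = n + 1 := hr
      omega
    have hra : α.rank ≤ n := hrk ▸ le_max_left _ _
    have hrb : β.rank ≤ n := hrk ▸ le_max_right _ _
    have h0 : VG 0 S ρ E M := hMo L S S ρ ρ 0 n E M M hM.1 (Nat.zero_le _) le_rfl
      (fun _ _ => rfl) (EW_agr S 0 M)
    have hu : M.u Z ψ = ⊥ := h0.2 Z hZ ψ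
    set G := insert j (α.vars ∪ β.vars) with hG
    have hjG : j ∈ G := Finset.mem_insert_self _ _
    have hU := EW_U1 M G Z ψ j hjG hu
    have hB := EW_bot M G
    have hba := EW_box_le M G α
    have hbb := EW_box_le M G β
    rw [hA']
    refine ⟨fun _ _ => ⟨⟨?_, ?_⟩, ?_, fun hcl => ?_⟩, fun _ => rfl⟩
    · rw [hU, hB, sup_eq_right.2 (le_inf hba hbb)]
      exact inf_eq_right.2 inf_le_left
    · exact sup_comm _ _
    · rw [hU, sup_eq_left.2 hba, sup_idem]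
    · have hSane : Sane S n M := hVS L S ρ n E M hM.1
      have haS : α.Over S := (hO L α).2.1 _ _ hZ hα
      have hbS : β.Over S := (hO L β).2.1 _ _ hZ hβ
      have hLe : M.Le α β := by
        by_contra hc
        refine hcl ρ (hρ _) ⟨E, inferInstance, inferInstance, M, ?_, hc⟩
        exact hMo L S (↑Z : Set L) ρ ρ n n E M M hM.1 le_rfl hZ (fun _ _ => rfl)
          (EW_agr _ n M)
      have hle := ((hSan L S n E M hSane).2.1 α β haS hbS hra hrb G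
        (Finset.subset_insert _ _)).1.1 hLe
      rw [inf_idem]
      exact (inf_eq_left.2 hle).symm

theorem EW_pp (φ : V5) : pp φ = V5.o ∨ pp φ = V5.i := by cases φ <;> simp [pp]
theorem EW_pq (φ : V5) : pq φ = V5.o ∨ pq φ = V5.i := by cases φ <;> simp [pq]

theorem EW_ubot {L E F : Type} [AddCommGroup E] [Module ℚ E] [AddCommGroup F] [Module ℚ F]
    (M : Str L E) (p : F →ₗ[ℚ] E) (i : E →ₗ[ℚ] F) (h : ∀ u, i (p u) = u) (Z : Finset L)
    (ψ : L → V5) (hu : M.u Z ψ = ⊥) : (M.pull p).u Z ψ = ⊥ := by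
  show (M.u Z ψ).comap p = ⊥
  rw [hu, eq_bot_iff]
  intro v hv
  have hv' : p v = 0 := by simpa using hv
  have := h v
  rw [hv', map_zero] at this
  rw [← this]
  exact Submodule.zero_mem _

/-- a bijection as a decomposition with one summand -/
noncomputable def EW_dec {E F : Type} [AddCommGroup E] [Module ℚ E] [AddCommGroup F]
    [Module ℚ F] (p : F →ₗ[ℚ] E) (i : E →ₗ[ℚ] F) (h1 : ∀ w, p (i w) = w)
    (h2 : ∀ u, i (p u) = u) : Dec F Unit (fun _ => E) where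
  inc := fun _ => i
  pr := fun _ => p
  pr_inc := fun _ v => h1 v
  pr_inc_ne := fun a b _ hab => absurd (Subsingleton.elim a b) hab
  fin := fun _ => Set.toFinite _
  ext := fun v hv => by
    have h := hv ()
    rw [← h2 v, h, map_zero]

theorem EW_p (hF : Stmt_FID) (hR : Stmt_VRT) (hMo : Stmt_VMO) (hZr : Stmt_VZR)
    (hSan : Stmt_SAN) (hVS : Stmt_VSN) (hO : Stmt_OVR) (hH : Stmt_HXD) {L : Type}
    (S : Set L) (φ : L → V5) {V E Q : Type} [AddCommGroup V] [Module ℚ V]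
    [AddCommGroup E] [Module ℚ E] [AddCommGroup Q] [Module ℚ Q] [Subsingleton V]
    [Subsingleton Q] (M : Str L E) (N : Str L (FE V E Q)) (hN : N = M.pull prP) :
    ∀ n : ℕ, VG n S (pp ∘ φ) E M → EG n S φ V E Q N := by
  have d1 : ∀ w : E, prP (incP w : FE V E Q) = w := (hF V E Q).2.2.2.1.1
  have d2 : ∀ u : FE V E Q, incP (prP u) = u := EW_incP
  intro n
  induction n with
  | zero =>
    intro hM
    refine ⟨EW_frP hF hR hMo hZr S φ 0 M hM N hN, fun Z hZ _ ψ _ => ?_⟩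
    rw [hN]
    exact EW_ubot M (prP : FE V E Q →ₗ[ℚ] E) (incP : E →ₗ[ℚ] FE V E Q) d2 Z ψ (hM.2 Z hZ ψ)
  | succ n ih =>
    intro hM
    refine ⟨ih hM.1, EW_frP hF hR hMo hZr S φ (n + 1) M hM N hN, fun σ hσ hr => ?_⟩
    have hσu : σ.Over Set.univ := (hO L σ).2.1 S Set.univ (Set.subset_univ _) hσ
    rw [hN]
    exact SEQ_hax hH φ n (EW_dec (prP : FE V E Q →ₗ[ℚ] E) (incP : E →ₗ[ℚ] FE V E Q) d1 d2)
      (prP : FE V E Q →ₗ[ℚ] E) rfl M σ (M.g σ) hσu
      (EW_hax hSan hVS hMo hO S φ (pp ∘ φ) (fun Z x _ => EW_pp (φ x)) n M hM σ hσ hr)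

theorem EW_q (hF : Stmt_FID) (hR : Stmt_VRT) (hMo : Stmt_VMO) (hZr : Stmt_VZR)
    (hSan : Stmt_SAN) (hVS : Stmt_VSN) (hO : Stmt_OVR) (hH : Stmt_HXD) {L : Type}
    (S : Set L) (φ : L → V5) {V P E : Type} [AddCommGroup V] [Module ℚ V]
    [AddCommGroup P] [Module ℚ P] [AddCommGroup E] [Module ℚ E] [Subsingleton V]
    [Subsingleton P] (M : Str L E) (N : Str L (FE V P E)) (hN : N = M.pull prQ) :
    ∀ n : ℕ, VG n S (pq ∘ φ) E M → EG n S φ V P E N := by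
  have d1 : ∀ w : E, prQ (incQ w : FE V P E) = w := (hF V P E).2.2.2.1.2.1
  have d2 : ∀ u : FE V P E, incQ (prQ u) = u := EW_incQ
  intro n
  induction n with
  | zero =>
    intro hM
    refine ⟨EW_frQ hF hR hMo hZr S φ 0 M hM N hN, fun Z hZ _ ψ _ => ?_⟩
    rw [hN]
    exact EW_ubot M (prQ : FE V P E →ₗ[ℚ] E) (incQ : E →ₗ[ℚ] FE V P E) d2 Z ψ (hM.2 Z hZ ψ)
  | succ n ih =>
    intro hM
    refine ⟨ih hM.1, EW_frQ hF hR hMo hZr S φ (n + 1) M hM N hN, fun σ hσ hr => ?_⟩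
    have hσu : σ.Over Set.univ := (hO L σ).2.1 S Set.univ (Set.subset_univ _) hσ
    rw [hN]
    exact SEQ_hax hH φ n (EW_dec (prQ : FE V P E →ₗ[ℚ] E) (incQ : E →ₗ[ℚ] FE V P E) d1 d2)
      (prQ : FE V P E →ₗ[ℚ] E) rfl M σ (M.g σ) hσu
      (EW_hax hSan hVS hMo hO S φ (pq ∘ φ) (fun Z x _ => EW_pq (φ x)) n M hM σ hσ hr)

theorem blk_EW (hF : Stmt_FID) (hR : Stmt_VRT) (hMo : Stmt_VMO) (hZr : Stmt_VZR)
    (hSan : Stmt_SAN) (hVS : Stmt_VSN) (hO : Stmt_OVR) (hH : Stmt_HXD) : Stmt_EW := by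
  intro L S φ n E _ _ M
  exact ⟨EW_p hF hR hMo hZr hSan hVS hO hH S φ M _ rfl n,
    EW_q hF hR hMo hZr hSan hVS hO hH S φ M _ rfl n⟩

end Pool.NF
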