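import Pool.Agent.Work.MP_b103ef_pos.Interface2

/-! # Block EX0 (helper60): start of the induction for `EXst` -/

set_option autoImplicit false

open Classical

namespace Pool.NF

section

variable {V P Q : Type} [AddCommGroup V] [Module ℚ V] [AddCommGroup P] [Module ℚ P]
  [AddCommGroup Q] [Module ℚ Q]

theorem EX0_prX (v : V) : prX (incV v : FE V P Q) = 0 := rfl

theorem EX0_prY (v : V) : prY (incV v : FE V P Q) = 0 := rfl

theorem EX0_prV (v : V) : prV (incV v : FE V P Q) = v := rfl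

theorem EX0_prP (v : V) : prP (incV v : FE V P Q) = 0 := by
  show _ = _
  simp [prP, EX0_prX]

theorem EX0_prQ (v : V) : prQ (incV v : FE V P Q) = 0 := by
  simp [prQ, EX0_prY]

theorem EX0_prT (v : V) : prT (incV v : FE V P Q) = 0 := by
  simp [prT, EX0_prX]

theorem EX0_prR (v : V) : prR (incV v : FE V P Q) = 0 := by
  simp [prR, EX0_prX]

theorem EX0_hO (H : Submodule ℚ V) (HP : Submodule ℚ P) (HQ : Submodule ℚ Q) (v : V) :
    (incV v : FE V P Q) ∈ hO H HP HQ ↔ v ∈ H := by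
  unfold hO
  rw [Submodule.mem_inf, Submodule.mem_inf, Submodule.mem_iInf]
  constructor
  · rintro ⟨⟨h1, -⟩, -⟩
    exact h1 Co.Z
  · intro h
    refine ⟨⟨fun c => ?_, ?_⟩, ?_⟩
    · rw [Submodule.mem_comap]
      cases c with
      | T n => simp [prC, EX0_prX]
      | R n => simp [prC, EX0_prX]
      | Z => exact h
      | Y n => simp [prC, EX0_prY]
    · rw [Submodule.mem_comap, EX0_prP]
      exact zero_mem _
    · rw [Submodule.mem_comap, EX0_prQ]
      exact zero_mem _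

/-- The flags restricted to `V`. -/
theorem EX0_fl (H : Submodule ℚ V) (HP : Submodule ℚ P) (HQ : Submodule ℚ Q) (w : V5)
    (hw : w ≠ V5.c) (x : Fin 3 → Submodule ℚ V) (hx : Ty (ps w) x) (hH : x 1 = H) (l : Fin 3) :
    (fl H HP HQ w l).comap (incV : V →ₗ[ℚ] FE V P Q) = x l := by
  subst hH
  ext v
  rw [Submodule.mem_comap]
  cases w with
  | c => exact absurd rfl hw
  | a =>
    obtain ⟨-, h2⟩ := hx
    obtain ⟨h3, h4⟩ := h2 rfl
    fin_cases l
    · show (incV v : FE V P Q) ∈ (LinearMap.ker prR ⊓ HP.comap prP ⊓ LinearMap.ker prV ⊓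
        LinearMap.ker prY) ↔ v ∈ x 0
      rw [h3]
      simp only [Submodule.mem_inf, LinearMap.mem_ker, Submodule.mem_comap, EX0_prR, EX0_prP,
        EX0_prV, EX0_prY, Submodule.mem_bot]
      constructor
      · rintro ⟨⟨-, h⟩, -⟩
        exact h
      · intro h
        exact ⟨⟨⟨trivial, zero_mem _⟩, h⟩, trivial⟩
    · show (incV v : FE V P Q) ∈ (LinearMap.ker prR ⊓ HP.comap prP ⊓ (x 1).comap prV ⊓
        HQ.comap prQ) ↔ v ∈ x 1
      simp only [Submodule.mem_inf, LinearMap.mem_ker, Submodule.mem_comap, EX0_prR, EX0_prP,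
        EX0_prV, EX0_prQ]
      constructor
      · rintro ⟨⟨-, h⟩, -⟩
        exact h
      · intro h
        exact ⟨⟨⟨trivial, zero_mem _⟩, h⟩, zero_mem _⟩
    · show (incV v : FE V P Q) ∈ ((x 1).comap prV ⊓ HQ.comap prQ) ↔ v ∈ x 2
      rw [h4]
      simp only [Submodule.mem_inf, Submodule.mem_comap, EX0_prV, EX0_prQ]
      constructor
      · rintro ⟨h, -⟩
        exact h
      · intro h
        exact ⟨h, zero_mem _⟩
  | b =>
    obtain ⟨h2, -⟩ := hx
    obtain ⟨h3, h4⟩ := h2 rfl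
    fin_cases l
    · show (incV v : FE V P Q) ∈ (LinearMap.ker prT ⊓ HP.comap prP ⊓ (x 1).comap prV ⊓
        LinearMap.ker prY) ↔ v ∈ x 0
      rw [h3]
      simp only [Submodule.mem_inf, LinearMap.mem_ker, Submodule.mem_comap, EX0_prT, EX0_prP,
        EX0_prV, EX0_prY]
      constructor
      · rintro ⟨⟨-, h⟩, -⟩
        exact h
      · intro h
        exact ⟨⟨⟨trivial, zero_mem _⟩, h⟩, trivial⟩
    · show (incV v : FE V P Q) ∈ (LinearMap.ker prT ⊓ HP.comap prP ⊓ (x 1).comap prV ⊓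
        ((x 1).comap mRho).comap prY ⊓ HQ.comap prQ) ↔ v ∈ x 1
      simp only [Submodule.mem_inf, LinearMap.mem_ker, Submodule.mem_comap, EX0_prT, EX0_prP,
        EX0_prV, EX0_prY, EX0_prQ, map_zero]
      constructor
      · rintro ⟨⟨⟨-, h⟩, -⟩, -⟩
        exact h
      · intro h
        exact ⟨⟨⟨⟨trivial, zero_mem _⟩, h⟩, zero_mem _⟩, zero_mem _⟩
    · show (incV v : FE V P Q) ∈ (((x 1).comap mRho).comap prY ⊓ HQ.comap prQ) ↔ v ∈ x 2
      rw [h4]
      simp only [Submodule.mem_inf, Submodule.mem_comap, EX0_prY, EX0_prQ, map_zero]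
      exact ⟨fun _ => Submodule.mem_top, fun _ => ⟨zero_mem _, zero_mem _⟩⟩
  | o =>
    obtain ⟨-, h2⟩ := hx
    obtain ⟨h3, h4⟩ := h2 rfl
    fin_cases l
    · show (incV v : FE V P Q) ∈ (⊥ : Submodule ℚ (FE V P Q)) ↔ v ∈ x 0
      rw [h3, Submodule.mem_bot, Submodule.mem_bot]
      constructor
      · intro h
        have h5 := congrArg prV h
        rw [EX0_prV, map_zero] at h5
        exact h5
      · intro h
        rw [h, map_zero]
    · exact EX0_hO (x 1) HP HQ v
    · show (incV v : FE V P Q) ∈ hO (x 1) HP HQ ↔ v ∈ x 2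
      rw [h4]
      exact EX0_hO (x 1) HP HQ v
  | i =>
    obtain ⟨h2, -⟩ := hx
    obtain ⟨h3, h4⟩ := h2 rfl
    fin_cases l
    · show (incV v : FE V P Q) ∈ hO (x 1) HP HQ ↔ v ∈ x 0
      rw [h3]
      exact EX0_hO (x 1) HP HQ v
    · exact EX0_hO (x 1) HP HQ v
    · show (incV v : FE V P Q) ∈ (⊤ : Submodule ℚ (FE V P Q)) ↔ v ∈ x 2
      rw [h4]
      exact ⟨fun _ => Submodule.mem_top, fun _ => Submodule.mem_top⟩

/-- `fl` is admissible. -/
theorem EX0_OK (hA : Stmt_OKA) (hB : Stmt_OKB) (hC : Stmt_OKC) (hO : Stmt_OKO)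
    (H : Submodule ℚ V) (HP : Submodule ℚ P) (HQ : Submodule ℚ Q) (w : V5) :
    OKx w (fl H HP HQ w) := by
  cases w with
  | a => exact hA V P Q H HP HQ
  | b => exact hB V P Q H HP HQ
  | c => exact hC V P Q H HP HQ
  | o => exact (hO V P Q H HP HQ).1
  | i => exact (hO V P Q H HP HQ).2

end

theorem blk_EX0 (hG : Stmt_EG0) (hA : Stmt_OKA) (hB : Stmt_OKB) (hC : Stmt_OKC) (hO : Stmt_OKO)
    (hZ : Stmt_VZR) (hOV : Stmt_OVR) : Stmt_EX0 := by
  intro L m hm S φ hφ V _ _ MV hMV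
  obtain rfl : m = 0 := by omega
  let MV' : Str L PUnit := ⟨fun _ _ => ⊥, fun _ _ => ⊥, fun _ => ⊥⟩
  let M' : Str L (FE (V × PUnit) PUnit PUnit) :=
    ⟨fun i l => fl ((MV.x i 1).comap (LinearMap.fst ℚ V PUnit)) ⊥ ⊥ (φ i) l, fun _ _ => ⊥,
      fun _ => ⊥⟩
  refine ⟨PUnit, PUnit, PUnit, inferInstance, inferInstance, inferInstance, inferInstance,
    inferInstance, inferInstance, MV', M', hZ _ _ _ _ _ _, ?_, ?_⟩
  · refine (hG L S φ (V × PUnit) PUnit PUnit M').mpr ⟨fun i _ => ?_, fun _ _ _ _ => rfl⟩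
    exact EX0_OK hA hB hC hO _ _ _ _
  · have hsnd : ∀ W : Submodule ℚ PUnit, W = ⊤ := by
      intro W
      rw [eq_top_iff]
      intro w _
      have : w = 0 := rfl
      rw [this]
      exact zero_mem _
    refine ⟨fun i hi l => ?_, fun Z hZS ψ => ?_, fun σ hs _ hr => ?_⟩
    · have hty : Ty (ps (φ i)) (fun l => (MV.x i l).comap (LinearMap.fst ℚ V PUnit)) := by
        have h1 := hMV.1 i hi
        refine ⟨fun hw => ?_, fun hw => ?_⟩
        · obtain ⟨h2, h3⟩ := h1.1 hw
          refine ⟨?_, ?_⟩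
          · show (MV.x i 0).comap _ = (MV.x i 1).comap _
            rw [h2]
          · show (MV.x i 2).comap _ = ⊤
            rw [h3, Submodule.comap_top]
        · obtain ⟨h2, h3⟩ := h1.2 hw
          refine ⟨?_, ?_⟩
          · show (MV.x i 0).comap _ = ⊥
            rw [h2, eq_bot_iff]
            intro v hv
            have h4 : v.1 = 0 := hv
            rw [Submodule.mem_bot]
            exact Prod.ext h4 rfl
          · show (MV.x i 2).comap _ = (MV.x i 1).comap _
            rw [h3]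
      have h5 := EX0_fl (P := PUnit) (Q := PUnit) ((MV.x i 1).comap (LinearMap.fst ℚ V PUnit)) ⊥ ⊥
        (φ i) hi.2 _ hty rfl l
      show (fl ((MV.x i 1).comap (LinearMap.fst ℚ V PUnit)) ⊥ ⊥ (φ i) l).comap incV =
        (MV.x i l).comap (LinearMap.fst ℚ V PUnit) ⊓ (MV'.x i l).comap (LinearMap.snd ℚ V PUnit)
      rw [h5, hsnd (MV'.x i l), Submodule.comap_top, inf_top_eq]
    · show (⊥ : Submodule ℚ (FE (V × PUnit) PUnit PUnit)).comap incV =
        (MV.u Z ψ).comap (LinearMap.fst ℚ V PUnit) ⊓ (MV'.u Z ψ).comap (LinearMap.snd ℚ V PUnit)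
      rw [hMV.2 Z hZS ψ, hsnd (MV'.u Z ψ), Submodule.comap_top, inf_top_eq]
      ext v
      rw [Submodule.mem_comap, Submodule.mem_comap, Submodule.mem_bot, Submodule.mem_bot]
      constructor
      · intro h
        have h5 := congrArg prV h
        rw [EX0_prV, map_zero] at h5
        rw [h5, map_zero]
      · intro h
        have h6 : v = 0 := Prod.ext h rfl
        rw [h6, map_zero]
    · have := ((hOV L σ).2.2.2 hs).1
      omega

end Pool.NF
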