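import Pool.Agent.Work.MP_b103ef_pos.Interface2

/-!
# MP_b103ef_al: block EXS (helper53): the step for `EXst`
-/

set_option autoImplicit false

open Classical

namespace Pool.NF

section EXSaux

variable {L : Type} {E F G : Type} [AddCommGroup E] [Module ℚ E] [AddCommGroup F] [Module ℚ F]
  [AddCommGroup G] [Module ℚ G]

theorem EXS_lift_comp {J : Type} (f : F →ₗ[ℚ] E) (g : G →ₗ[ℚ] F) :
    (lift (f.comp g) : (J →₀ G) →ₗ[ℚ] (J →₀ E)) = (lift f).comp (lift g) := by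
  ext i v j
  simp [lift]

theorem EXS_lift_id {J : Type} :
    (lift (LinearMap.id : E →ₗ[ℚ] E) : (J →₀ E) →ₗ[ℚ] (J →₀ E)) = LinearMap.id := by
  ext i v j
  simp [lift]

theorem EXS_pull_pull (M : Str L E) (f : F →ₗ[ℚ] E) (g : G →ₗ[ℚ] F) :
    (M.pull f).pull g = M.pull (f.comp g) := by
  unfold Str.pull
  congr 1
  · funext σ
    dsimp only
    rw [EXS_lift_comp, Submodule.comap_comp]

theorem EXS_pull_inf2 (M M' : Str L E) (f : F →ₗ[ℚ] E) :
    (M.inf2 M').pull f = (M.pull f).inf2 (M'.pull f) := rfl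

theorem EXS_inf2_assoc (A B C : Str L E) : (A.inf2 B).inf2 C = A.inf2 (B.inf2 C) := by
  unfold Str.inf2
  congr 1
  · funext i l
    exact inf_assoc _ _ _
  · funext Z ψ
    exact inf_assoc _ _ _
  · funext σ
    exact inf_assoc _ _ _

/-- associativity of the direct sum -/
theorem EXS_assoc (A : Str L E) (B : Str L F) (C : Str L G) :
    ((A.prod B).prod C).pull (LinearEquiv.prodAssoc ℚ E F G).symm.toLinearMap =
      A.prod (B.prod C) := by
  unfold Str.prod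
  simp only [EXS_pull_inf2, EXS_pull_pull, EXS_inf2_assoc]
  rfl

theorem EXS_assoc' (A : Str L E) (B : Str L F) (C : Str L G) :
    (A.prod (B.prod C)).pull (LinearEquiv.prodAssoc ℚ E F G).toLinearMap =
      (A.prod B).prod C := by
  unfold Str.prod
  simp only [EXS_pull_inf2, EXS_pull_pull, EXS_inf2_assoc]
  rfl

theorem EXS_agree_pull {S : Set L} {n : ℕ} {M M' : Str L E} (h : Str.Agree S n M M')
    (f : F →ₗ[ℚ] E) : Str.Agree S n (M.pull f) (M'.pull f) := by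
  refine ⟨fun i hi l => ?_, fun Z hZ ψ => ?_, fun σ h1 h2 h3 => ?_⟩
  · show (M.x i l).comap f = (M'.x i l).comap f
    rw [h.1 i hi l]
  · show (M.u Z ψ).comap f = (M'.u Z ψ).comap f
    rw [h.2.1 Z hZ ψ]
  · show (M.g σ).comap (lift f) = (M'.g σ).comap (lift f)
    rw [h.2.2 σ h1 h2 h3]

theorem EXS_agree_inf2 {S : Set L} {n : ℕ} {M M' N N' : Str L E} (h : Str.Agree S n M M')
    (h' : Str.Agree S n N N') : Str.Agree S n (M.inf2 N) (M'.inf2 N') := by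
  refine ⟨fun i hi l => ?_, fun Z hZ ψ => ?_, fun σ h1 h2 h3 => ?_⟩
  · show M.x i l ⊓ N.x i l = M'.x i l ⊓ N'.x i l
    rw [h.1 i hi l, h'.1 i hi l]
  · show M.u Z ψ ⊓ N.u Z ψ = M'.u Z ψ ⊓ N'.u Z ψ
    rw [h.2.1 Z hZ ψ, h'.2.1 Z hZ ψ]
  · show M.g σ ⊓ N.g σ = M'.g σ ⊓ N'.g σ
    rw [h.2.2 σ h1 h2 h3, h'.2.2 σ h1 h2 h3]

theorem EXS_agree_refl (S : Set L) (n : ℕ) (M : Str L E) : Str.Agree S n M M :=
  ⟨fun _ _ _ => rfl, fun _ _ _ => rfl, fun _ _ _ _ => rfl⟩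

theorem EXS_agree_symm {S : Set L} {n : ℕ} {M M' : Str L E} (h : Str.Agree S n M M') :
    Str.Agree S n M' M :=
  ⟨fun i hi l => (h.1 i hi l).symm, fun Z hZ ψ => (h.2.1 Z hZ ψ).symm,
    fun σ h1 h2 h3 => (h.2.2 σ h1 h2 h3).symm⟩

theorem EXS_agree_trans {S : Set L} {n : ℕ} {M M' M'' : Str L E} (h : Str.Agree S n M M')
    (h' : Str.Agree S n M' M'') : Str.Agree S n M M'' :=
  ⟨fun i hi l => (h.1 i hi l).trans (h'.1 i hi l), fun Z hZ ψ =>
    (h.2.1 Z hZ ψ).trans (h'.2.1 Z hZ ψ),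
    fun σ h1 h2 h3 => (h.2.2 σ h1 h2 h3).trans (h'.2.2 σ h1 h2 h3)⟩

theorem EXS_agree_mono {S Z : Set L} {n m : ℕ} {M M' : Str L E} (hO : Stmt_OVR) (hZ : Z ⊆ S)
    (hm : m ≤ n) (h : Str.Agree S n M M') : Str.Agree Z m M M' :=
  ⟨fun i hi l => h.1 i (hZ hi) l, fun Y hY ψ => h.2.1 Y (hY.trans hZ) ψ,
    fun σ h1 h2 h3 => h.2.2 σ h1 ((hO L σ).2.1 Z S hZ h2) (h3.trans hm)⟩

theorem EXS_agree_prod {S : Set L} {n : ℕ} {M M' : Str L E} {N N' : Str L F}
    (h : Str.Agree S n M M') (h' : Str.Agree S n N N') :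
    Str.Agree S n (M.prod N) (M'.prod N') :=
  EXS_agree_inf2 (EXS_agree_pull h _) (EXS_agree_pull h' _)

end EXSaux

/-- the `V`-part of the direct sum of two frame structures -/
theorem EXS_fprod_incV (hN : Stmt_NAT) {L : Type} {V P Q V' P' Q' : Type} [AddCommGroup V]
    [Module ℚ V] [AddCommGroup P] [Module ℚ P] [AddCommGroup Q] [Module ℚ Q] [AddCommGroup V']
    [Module ℚ V'] [AddCommGroup P'] [Module ℚ P'] [AddCommGroup Q'] [Module ℚ Q']
    (M : Str L (FE V P Q)) (M' : Str L (FE V' P' Q')) :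
    (fprod M M').pull incV = (M.pull incV).prod (M'.pull incV) := by
  have h1 := (hN (V × V') (P × P') (Q × Q') V P Q (LinearMap.fst ℚ V V') (LinearMap.fst ℚ P P')
    (LinearMap.fst ℚ Q Q')).2.1.1
  have h2 := (hN (V × V') (P × P') (Q × Q') V' P' Q' (LinearMap.snd ℚ V V')
    (LinearMap.snd ℚ P P') (LinearMap.snd ℚ Q Q')).2.1.1
  unfold fprod Str.prod
  rw [EXS_pull_inf2, EXS_pull_pull, EXS_pull_pull, EXS_pull_pull, EXS_pull_pull, h1, h2]

/-- all new symbols at once -/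
theorem EXS_core (hW : Stmt_ESW) (hU : Stmt_EUP) (L : Type) (n : ℕ)
    (hV : EVst L n) (hE : EEst L n) (S : Set L) (φ : L → V5) (hit : Hit S φ)
    (κ : Cardinal.{0}) (hκ : Cardinal.aleph0 ≤ κ) (V P Q : Type) [AddCommGroup V] [Module ℚ V]
    [AddCommGroup P] [Module ℚ P] [AddCommGroup Q] [Module ℚ Q] (M : Str L (FE V P Q))
    (hM : EG n S φ V P Q M) (hF : EFull κ n S φ M) (hc : Cardinal.mk (Lab L →₀ FE V P Q) ≤ κ)
    (ΓV : Tm L → Submodule ℚ (Lab L →₀ V))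
    (hΓ : ∀ σ : Tm L, σ.IsSym → σ.Over (dC S φ) → σ.rank = n + 1 →
      VAx (VG n) (M.pull incV) σ (ΓV σ)) :
    ∃ f : Tm L → Submodule ℚ (Lab L →₀ FE V P Q), EG (n + 1) S φ V P Q (M.upd (n + 1) f) ∧
      ∀ σ : Tm L, σ.IsSym → σ.Over S → σ.Over (dC S φ) → σ.rank = n + 1 →
        (f σ).comap (lift incV) = ΓV σ := by
  have h1 : ∀ σ : Tm L, ∃ Γ : Submodule ℚ (Lab L →₀ FE V P Q), σ.IsSym → σ.Over S →
      σ.rank = n + 1 → SymOK n S φ M σ (ΓV σ) Γ := by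
    intro σ
    by_cases h : σ.IsSym ∧ σ.Over S ∧ σ.rank = n + 1
    · obtain ⟨Γ, hΓ1⟩ := hW L n hV hE S φ hit κ hκ V P Q M hM hF hc σ h.1 h.2.1 h.2.2 (ΓV σ)
        (fun hh => hΓ σ h.1 hh h.2.2)
      exact ⟨Γ, fun _ _ _ => hΓ1⟩
    · exact ⟨⊥, fun a b c => absurd ⟨a, b, c⟩ h⟩
  choose f hf using h1
  refine ⟨f, (hU L S φ n V P Q M f hM (fun σ a b c => ⟨ΓV σ, hf σ a b c⟩)).1, ?_⟩
  intro σ a b c d
  exact ((hf σ a b d).1 c).2.1

theorem EXS_ps {L : Type} (S : Set L) (φ : L → V5) : IsV S (ps ∘ φ) := by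
  intro x _
  show ps (φ x) = V5.o ∨ ps (φ x) = V5.i
  cases φ x <;> simp [ps]

/-- transport of the axiom along an isomorphism -/
theorem EXS_vax (hP : Stmt_PAX) {L : Type} (S : Set L) (n : ℕ) {E F : Type} [AddCommGroup E]
    [Module ℚ E] [AddCommGroup F] [Module ℚ F] (M : Str L E) (e : F ≃ₗ[ℚ] E) (σ : Tm L)
    (Γ : Submodule ℚ (Lab L →₀ E)) (hσ : σ.Over S) (hr : σ.rank = n + 1)
    (h : VAx (VG n) M σ Γ) :
    VAx (VG n) (M.pull e.toLinearMap) σ (Γ.comap (lift e.toLinearMap)) := by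
  have h0 : e.toLinearMap.comp e.symm.toLinearMap = LinearMap.id := by
    ext v
    simp
  refine hP L S n E F M e.toLinearMap e.symm.toLinearMap (fun v => by simp) ?_ σ Γ hσ hr ?_ h
  · rw [h0]
    refine ⟨fun i _ l => ?_, fun Z _ ψ => ?_, fun τ _ _ _ => ?_⟩
    · rw [Submodule.comap_id]
    · rw [Submodule.comap_id]
    · rw [EXS_lift_id, Submodule.comap_id]
  · rw [h0]
    unfold Inv
    rw [EXS_lift_id, Submodule.comap_id]

theorem blk_EXS (hFU : Stmt_EFU) (hW : Stmt_ESW) (hU : Stmt_EUP) (hL : Stmt_VLK)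
    (hFR : Stmt_VFR) (hPD : Stmt_EPD) (hEQ : Stmt_EEQ) (hFS : Stmt_EFS) (hC : Stmt_CRD)
    (hVP : Stmt_VPR) (hVM : Stmt_VMO) (hVU : Stmt_VUP) (hPA : Stmt_PAX) (hN : Stmt_NAT)
    (hO : Stmt_OVR) : Stmt_EXS := by
  intro L n hV hX hE m hm S φ hit V _ _ MV hMV
  -- the level `n` extension
  have hMVn : VG (min m n) (dC S φ) (ps ∘ φ) V MV :=
    hVM L (dC S φ) (dC S φ) (ps ∘ φ) (ps ∘ φ) (min m n) m V MV MV hMV (min_le_left _ _)
      (subset_refl _) (Set.eqOn_refl _ _) (EXS_agree_refl _ _ _)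
  obtain ⟨V1, P1, Q1, iV1, mV1, iP1, mP1, iQ1, mQ1, MV1, M1, hMV1, hM1, hA1⟩ :=
    hX (min m n) (min_le_right _ _) S φ hit V MV hMVn
  -- the full frame
  obtain ⟨κ₁, hκ₁⟩ := hFU L n hV hX S φ hit
  set κ : Cardinal.{0} := max κ₁ (max Cardinal.aleph0
    (Cardinal.mk (Lab L →₀ FE (V × V1) P1 Q1))) with hκdef
  obtain ⟨VD, PD, QD, iVD, mVD, iPD, mPD, iQD, mQD, D, hD, hDF, hDc⟩ :=
    hκ₁ κ (le_max_left _ _)
  have hκ0 : Cardinal.aleph0 ≤ κ := (le_max_left _ _).trans (le_max_right _ _)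
  have hM1c : Cardinal.mk (Lab L →₀ FE (V × V1) P1 Q1) ≤ κ :=
    (le_max_right _ _).trans (le_max_right _ _)
  set M := fprod M1 D with hMdef
  have hM : EG n S φ ((V × V1) × VD) (P1 × PD) (Q1 × QD) M :=
    hPD L S φ n _ _ _ _ _ _ M1 D hM1 hD
  have hMF : EFull κ n S φ M := hFS L n S φ κ _ _ _ _ _ _ M1 D hDF
  have hMc : Cardinal.mk (Lab L →₀ FE ((V × V1) × VD) (P1 × PD) (Q1 × QD)) ≤ κ :=
    hC.2.2.1 (Lab L) _ _ _ _ _ _ κ hκ0 hM1c hDc
  -- the parts on `V`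
  set DV : Str L VD := D.pull incV with hDV
  have hDVn : VG n (dC S φ) (ps ∘ φ) VD DV := by
    have h : FrOK n S φ D := by
      cases n with
      | zero => exact hD.1
      | succ k => exact hD.2.1
    exact h.1.2.2.2.2.1
  have hDVF : VFull κ n (dC S φ) (ps ∘ φ) DV := hDF.2.2.1
  have hMV' : M.pull incV = (M1.pull incV).prod DV := EXS_fprod_incV hN M1 D
  have hag : Str.Agree (dC S φ) (min m n) (M.pull incV) ((MV.prod MV1).prod DV) := by
    rw [hMV']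
    exact EXS_agree_prod hA1 (EXS_agree_refl _ _ _)
  set e : ((V × V1) × VD) ≃ₗ[ℚ] (V × (V1 × VD)) := LinearEquiv.prodAssoc ℚ V V1 VD with he
  -- general conclusion
  have key : ∀ (f : Tm L → Submodule ℚ (Lab L →₀ FE ((V × V1) × VD) (P1 × PD) (Q1 × QD)))
      (N : Str L (V1 × VD)), EG (n + 1) S φ _ _ _ (M.upd (n + 1) f) →
      VG m (dC S φ) (ps ∘ φ) (V1 × VD) N →
      Str.Agree (dC S φ) m (((M.upd (n + 1) f).pull incV).pull e.symm.toLinearMap)
        (MV.prod N) →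
      ∃ (V' P Q : Type) (_ : AddCommGroup V') (_ : Module ℚ V') (_ : AddCommGroup P)
        (_ : Module ℚ P) (_ : AddCommGroup Q) (_ : Module ℚ Q) (MV' : Str L V')
        (M' : Str L (FE (V × V') P Q)),
        VG m (dC S φ) (ps ∘ φ) V' MV' ∧ EG (n + 1) S φ (V × V') P Q M' ∧
        Str.Agree (dC S φ) m (M'.pull incV) (MV.prod MV') := by
    intro f N h1 h2 h3
    refine ⟨V1 × VD, P1 × PD, Q1 × QD, inferInstance, inferInstance, inferInstance,
      inferInstance, inferInstance, inferInstance, N,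
      (M.upd (n + 1) f).pull (mapE e.symm.toLinearMap (LinearEquiv.refl ℚ (P1 × PD)).toLinearMap
        (LinearEquiv.refl ℚ (Q1 × QD)).toLinearMap), h2, ?_, ?_⟩
    · exact hEQ L S φ (n + 1) ((V × V1) × VD) (P1 × PD) (Q1 × QD) (V × (V1 × VD)) (P1 × PD)
        (Q1 × QD) e.symm (LinearEquiv.refl ℚ (P1 × PD)) (LinearEquiv.refl ℚ (Q1 × QD)) _ h1
    · have h4 := (hN (V × (V1 × VD)) (P1 × PD) (Q1 × QD) ((V × V1) × VD) (P1 × PD) (Q1 × QD)
        e.symm.toLinearMap (LinearEquiv.refl ℚ (P1 × PD)).toLinearMap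
        (LinearEquiv.refl ℚ (Q1 × QD)).toLinearMap).2.1.1
      rw [EXS_pull_pull, h4, ← EXS_pull_pull]
      exact h3
  have hincV : Function.Injective (incV : ((V × V1) × VD) →ₗ[ℚ]
      FE ((V × V1) × VD) (P1 × PD) (Q1 × QD)) := by
    intro a b h
    simpa [incV] using h
  -- level `≤ n` of the agreement
  have hassoc : ((MV.prod MV1).prod DV).pull e.symm.toLinearMap = MV.prod (MV1.prod DV) :=
    EXS_assoc MV MV1 DV
  have hagf : ∀ f : Tm L → Submodule ℚ (Lab L →₀ FE ((V × V1) × VD) (P1 × PD) (Q1 × QD)),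
      Str.Agree (dC S φ) (min m n) (((M.upd (n + 1) f).pull incV).pull e.symm.toLinearMap)
        (MV.prod (MV1.prod DV)) := by
    intro f
    have h1 : Str.Agree (dC S φ) (min m n) M (M.upd (n + 1) f) := by
      refine ⟨fun _ _ _ => rfl, fun _ _ _ => rfl, fun σ _ _ h3 => ?_⟩
      show M.g σ = if σ.rank = n + 1 then f σ else M.g σ
      rw [if_neg]
      have := h3.trans (min_le_right m n)
      omega
    have h2 := EXS_agree_trans (EXS_agree_symm (EXS_agree_pull h1 incV)) hag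
    have h3 := EXS_agree_pull h2 e.symm.toLinearMap
    rwa [hassoc] at h3
  have hprod : VG (min m n) (dC S φ) (ps ∘ φ) (V1 × VD) (MV1.prod DV) :=
    (hVP L (dC S φ) (ps ∘ φ) (min m n) V1 VD MV1 DV).1 hMV1
      (hVM L (dC S φ) (dC S φ) (ps ∘ φ) (ps ∘ φ) (min m n) n VD DV DV hDVn (min_le_right _ _)
        (subset_refl _) (Set.eqOn_refl _ _) (EXS_agree_refl _ _ _))
  rcases Nat.lt_or_ge n m with hnm | hnm
  · -- `m = n + 1`
    have hmn : m = n + 1 := by omega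
    subst hmn
    have hmin : min (n + 1) n = n := by omega
    rw [hmin] at hag hagf hprod hMV1
    have hinj : Function.Injective ((incV : ((V × V1) × VD) →ₗ[ℚ]
        FE ((V × V1) × VD) (P1 × PD) (Q1 × QD)).comp
        (((LinearMap.inr ℚ V V1).comp (LinearMap.fst ℚ V1 VD)).prod
          (LinearMap.snd ℚ V1 VD))) := by
      have h1 : Function.Injective (((LinearMap.inr ℚ V V1).comp (LinearMap.fst ℚ V1 VD)).prod
          (LinearMap.snd ℚ V1 VD)) := by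
        rintro ⟨a, b⟩ ⟨c, d⟩ h
        simp at h
        simp [h.1, h.2]
      rw [LinearMap.coe_comp]
      exact hincV.comp h1
    have hcard : Cardinal.mk (Lab L →₀ (V1 × VD)) ≤ κ :=
      (hC.1 (Lab L) _ _ _ hinj).trans hMc
    have hfull : VFull κ n (dC S φ) (ps ∘ φ) (MV1.prod DV) :=
      (hFR L n (dC S φ) (ps ∘ φ) κ VD DV hDVF).2.2.1 V1 MV1
    have hex : ∀ σ : Tm L, ∃ Γ : Submodule ℚ (Lab L →₀ (V1 × VD)), σ.IsSym →
        σ.Over (dC S φ) → σ.rank = n + 1 → VAx (VG n) (MV1.prod DV) σ Γ := by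
      intro σ
      by_cases h : σ.IsSym ∧ σ.Over (dC S φ) ∧ σ.rank = n + 1
      · obtain ⟨Γ, hΓ⟩ := hL L n hV (dC S φ) (ps ∘ φ) (EXS_ps _ _) κ hκ0 _ (MV1.prod DV) hprod
          hfull hcard σ h.1 h.2.1 h.2.2
        exact ⟨Γ, fun _ _ _ => hΓ⟩
      · exact ⟨⊥, fun a b c => absurd ⟨a, b, c⟩ h⟩
    choose Γ2 hΓ2 using hex
    set X : Tm L → Submodule ℚ (Lab L →₀ (V × (V1 × VD))) := fun σ =>
      (MV.g σ).comap (lift (LinearMap.fst ℚ V (V1 × VD))) ⊓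
        (Γ2 σ).comap (lift (LinearMap.snd ℚ V (V1 × VD))) with hXdef
    obtain ⟨f, hf, hf2⟩ := EXS_core hW hU L n hV hE S φ hit κ hκ0 _ _ _ M hM hMF hMc
      (fun σ => (X σ).comap (lift e.toLinearMap)) (by
        intro σ h1 h2 h3
        have h4 : VAx (VG n) MV σ (MV.g σ) := hMV.2 σ h2 h3
        have h5 : VAx (VG n) (MV.prod (MV1.prod DV)) σ (X σ) :=
          (hVP L (dC S φ) (ps ∘ φ) n V (V1 × VD) MV (MV1.prod DV)).2 σ (MV.g σ) (Γ2 σ)
            ((hO L σ).2.1 _ _ (Set.subset_univ _) h2) h4 (hΓ2 σ h1 h2 h3)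
        have h6 := EXS_vax hPA (dC S φ) n (MV.prod (MV1.prod DV)) e σ (X σ) h2 h3 h5
        rw [EXS_assoc'] at h6
        exact (hVU L (dC S φ) (ps ∘ φ) n ((V × V1) × VD) ((MV.prod MV1).prod DV)).2
          (M.pull incV) σ _ (EXS_agree_symm hag) h2 h3 h6)
    refine key f ((MV1.prod DV).upd (n + 1) Γ2) hf ?_ ?_
    · exact ((hVU L (dC S φ) (ps ∘ φ) n (V1 × VD) (MV1.prod DV)).1 Γ2 hprod hΓ2).1
    · refine ⟨(hagf f).1, (hagf f).2.1, fun σ h1 h2 h3 => ?_⟩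
      rcases Nat.lt_or_ge n σ.rank with h4 | h4
      · have h5 : σ.rank = n + 1 := by omega
        show (((M.upd (n + 1) f).g σ).comap (lift incV)).comap (lift e.symm.toLinearMap) =
          (MV.g σ).comap (lift (LinearMap.fst ℚ V (V1 × VD))) ⊓
            (((MV1.prod DV).upd (n + 1) Γ2).g σ).comap (lift (LinearMap.snd ℚ V (V1 × VD)))
        have h6 : (M.upd (n + 1) f).g σ = f σ := if_pos h5
        have h7 : ((MV1.prod DV).upd (n + 1) Γ2).g σ = Γ2 σ := if_pos h5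
        have h8 : σ.Over S := (hO L σ).2.1 _ _ (fun x hx => hx.1) h2
        rw [h6, h7, hf2 σ h1 h8 h2 h5, ← Submodule.comap_comp, ← EXS_lift_comp]
        have h9 : e.toLinearMap.comp e.symm.toLinearMap = LinearMap.id := by
          ext v <;> simp
        rw [h9, EXS_lift_id, Submodule.comap_id]
      · have h5 := (hagf f).2.2 σ h1 h2 h4
        rw [h5]
        show (MV.g σ).comap (lift (LinearMap.fst ℚ V (V1 × VD))) ⊓
            ((MV1.prod DV).g σ).comap (lift (LinearMap.snd ℚ V (V1 × VD))) =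
          (MV.g σ).comap (lift (LinearMap.fst ℚ V (V1 × VD))) ⊓
            (((MV1.prod DV).upd (n + 1) Γ2).g σ).comap (lift (LinearMap.snd ℚ V (V1 × VD)))
        have h7 : ((MV1.prod DV).upd (n + 1) Γ2).g σ = (MV1.prod DV).g σ :=
          if_neg (by omega)
        rw [h7]
  · have hmin : min m n = m := by omega
    rw [hmin] at hagf hprod
    have hex : ∀ σ : Tm L, ∃ Γ : Submodule ℚ (Lab L →₀ ((V × V1) × VD)), σ.IsSym →
        σ.Over (dC S φ) → σ.rank = n + 1 → VAx (VG n) (M.pull incV) σ Γ := by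
      intro σ
      by_cases h : σ.IsSym ∧ σ.Over (dC S φ) ∧ σ.rank = n + 1
      · have hFr : FrOK n S φ M := by
          cases n with
          | zero => exact hM.1
          | succ k => exact hM.2.1
        obtain ⟨Γ, hΓ⟩ := hL L n hV (dC S φ) (ps ∘ φ) (EXS_ps _ _) κ hκ0 _ (M.pull incV)
          hFr.1.2.2.2.2.1 hMF.2.2.1 ((hC.1 (Lab L) _ _ _ hincV).trans hMc) σ h.1 h.2.1 h.2.2
        exact ⟨Γ, fun _ _ _ => hΓ⟩
      · exact ⟨⊥, fun a b c => absurd ⟨a, b, c⟩ h⟩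
    choose ΓV hΓV using hex
    obtain ⟨f, hf, -⟩ := EXS_core hW hU L n hV hE S φ hit κ hκ0 _ _ _ M hM hMF hMc ΓV hΓV
    exact key f (MV1.prod DV) hf hprod (hagf f)

end Pool.NF
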