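import Pool.Agent.Work.MP_b103ef_pos.Interface2

set_option autoImplicit false

open Classical

namespace Pool.NF

theorem EZR_eq {J E : Type} [AddCommGroup E] [Module ℚ E] [Subsingleton E]
    (a b : Submodule ℚ (J →₀ E)) : a = b := by
  have : Subsingleton (J →₀ E) := inferInstance
  exact Subsingleton.elim a b

theorem EZR_eq' {E : Type} [AddCommGroup E] [Module ℚ E] [Subsingleton E]
    (a b : Submodule ℚ E) : a = b := Subsingleton.elim a b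

theorem EZR_hom {L : Type} (S : Set L) (n : ℕ) {E F : Type} [AddCommGroup E] [Module ℚ E]
    [Subsingleton E] [AddCommGroup F] [Module ℚ F] (M : Str L E) (M' : Str L F)
    (f : E →ₗ[ℚ] F) : Str.Hom S n M M' f := by
  refine ⟨fun i _ l => ?_, fun Z _ ψ => ?_, fun σ _ _ _ => ?_⟩
  · rw [EZR_eq' (M.x i l) ⊥]; exact bot_le
  · rw [EZR_eq' (M.u Z ψ) ⊥]; exact bot_le
  · rw [EZR_eq (M.g σ) ⊥]; exact bot_le

theorem EZR_hax {L : Type} (PV : VCls L) (PE : ECls L) (φ : L → V5) {E : Type}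
    [AddCommGroup E] [Module ℚ E] [Subsingleton E] (M : Str L E) (σ : Tm L)
    (Γ : Submodule ℚ (Lab L →₀ E)) : HAx PV PE φ M σ Γ := by
  cases σ with
  | base F g => trivial
  | inf α β => trivial
  | sup α β => trivial
  | lk Z r j α β =>
    intro _
    exact ⟨fun _ => ⟨EZR_eq _ _, EZR_eq _ _⟩, fun _ => EZR_eq _ _⟩
  | ek Z ψ j α β =>
    intro _
    exact ⟨fun _ _ => ⟨⟨EZR_eq _ _, EZR_eq _ _⟩, EZR_eq _ _, fun _ => EZR_eq _ _⟩,
      fun _ => EZR_eq _ _⟩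

theorem EZR_frok (hV : Stmt_VZR) {L : Type} (n : ℕ) (S : Set L) (φ : L → V5) {V P Q : Type}
    [AddCommGroup V] [Module ℚ V] [AddCommGroup P] [Module ℚ P] [AddCommGroup Q] [Module ℚ Q]
    [Subsingleton V] [Subsingleton P] [Subsingleton Q] (M : Str L (FE V P Q)) :
    FrOK n S φ M := by
  refine ⟨⟨EZR_hom _ _ _ _ _, EZR_hom _ _ _ _ _, EZR_hom _ _ _ _ _, hV _ _ _ _ _ _,
    hV _ _ _ _ _ _, hV _ _ _ _ _ _⟩,
    ⟨EZR_hom _ _ _ _ _, EZR_hom _ _ _ _ _, hV _ _ _ _ _ _, hV _ _ _ _ _ _⟩,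
    ⟨EZR_hom _ _ _ _ _, EZR_hom _ _ _ _ _, hV _ _ _ _ _ _, hV _ _ _ _ _ _⟩,
    ⟨fun c c' => EZR_hom _ _ _ _ _, EZR_hom _ _ _ _ _, EZR_hom _ _ _ _ _⟩⟩

theorem blk_EZR (hV : Stmt_VZR) : Stmt_EZR := by
  intro L S φ n
  induction n with
  | zero =>
    intro V P Q _ _ _ _ _ _ _ _ _ M
    exact ⟨EZR_frok hV 0 S φ M, fun Z _ _ ψ _ => EZR_eq' _ _⟩
  | succ n ih =>
    intro V P Q _ _ _ _ _ _ _ _ _ M
    exact ⟨ih V P Q M, EZR_frok hV (n + 1) S φ M, fun σ _ _ => EZR_hax _ _ _ _ _ _⟩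

end Pool.NF
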