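import Pool.Agent.Work.MP_b103ef_pos.Interface3

/-!
# MP_b103ef_al: block FIB (helper53): the congruence of `K` belonging to a set of points
-/

set_option autoImplicit false

open Classical

namespace Pool.NF

theorem blk_FIB (hQ : Stmt_QOS) : Stmt_FIB := by
  intro L _ hA D T hT
  have hQ' := hQ L hA Set.univ
  -- transitivity
  have tr : ∀ (φ : L → V5) (α β γ : Tm L), α.Over Set.univ → β.Over Set.univ →
      γ.Over Set.univ → ¬ NCs Set.univ φ α β → ¬ NCs Set.univ φ β γ →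
      ¬ NCs Set.univ φ α γ :=
    fun φ α β γ h1 h2 h3 => (hQ' φ α β γ h1 h2 h3).2.1
  have pt : ∀ (φ : L → V5), φ ∈ T → ∀ (α β : Tm L), α.Over Set.univ → β.Over Set.univ →
      D.q α ≤ D.q β → ¬ NCs Set.univ φ α β :=
    fun φ hφ α β h1 h2 h => (D.le_iff α β h1 h2).1 h φ (hT φ hφ)
  set r : D.K → D.K → Prop := fun a b => ∀ φ ∈ T, ∀ α β : Tm L, α.Over Set.univ →
    β.Over Set.univ → D.q α = a → D.q β = b → ¬ NCs Set.univ φ α β ∧ ¬ NCs Set.univ φ β α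
    with hr
  have key : ∀ α β : Tm L, α.Over Set.univ → β.Over Set.univ →
      (r (D.q α) (D.q β) ↔ ∀ φ ∈ T, ¬ NCs Set.univ φ α β ∧ ¬ NCs Set.univ φ β α) := by
    intro α β h1 h2
    refine ⟨fun h φ hφ => h φ hφ α β h1 h2 rfl rfl, fun h φ hφ α' β' h3 h4 h5 h6 => ?_⟩
    obtain ⟨h7, h8⟩ := h φ hφ
    exact ⟨tr φ α' β β' h3 h2 h4
      (tr φ α' α β h3 h1 h2 (pt φ hφ α' α h3 h1 h5.le) h7) (pt φ hφ β β' h2 h4 h6.ge),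
      tr φ β' α α' h4 h1 h3
      (tr φ β' β α h4 h2 h1 (pt φ hφ β' β h4 h2 h6.le) h8) (pt φ hφ α α' h1 h3 h5.ge)⟩
  refine ⟨r, ⟨⟨?_, ?_, ?_⟩, ?_⟩, key⟩
  · intro a φ hφ α β h1 h2 h3 h4
    exact ⟨pt φ hφ α β h1 h2 (by rw [h3, h4]), pt φ hφ β α h2 h1 (by rw [h3, h4])⟩
  · intro a b h φ hφ α β h1 h2 h3 h4
    exact (h φ hφ β α h2 h1 h4 h3).symm
  · intro a b c h h' φ hφ α γ h1 h3 h4 h5
    obtain ⟨β, h2, h6⟩ := D.surj b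
    obtain ⟨k1, k2⟩ := h φ hφ α β h1 h2 h4 h6
    obtain ⟨k3, k4⟩ := h' φ hφ β γ h2 h3 h6 h5
    exact ⟨tr φ α β γ h1 h2 h3 k1 k3, tr φ γ β α h3 h2 h1 k4 k2⟩
  · intro a b c d h h'
    obtain ⟨α, o1, rfl⟩ := D.surj a
    obtain ⟨β, o2, rfl⟩ := D.surj b
    obtain ⟨γ, o3, rfl⟩ := D.surj c
    obtain ⟨δ, o4, rfl⟩ := D.surj d
    have k := (key α β o1 o2).1 h
    have k' := (key γ δ o3 o4).1 h'
    have osup : ∀ {ε ζ : Tm L}, ε.Over Set.univ → ζ.Over Set.univ →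
        (Tm.sup ε ζ).Over Set.univ := fun h1 h2 => ⟨h1, h2⟩
    have oinf : ∀ {ε ζ : Tm L}, ε.Over Set.univ → ζ.Over Set.univ →
        (Tm.inf ε ζ).Over Set.univ := fun h1 h2 => ⟨h1, h2⟩
    constructor
    · rw [← D.sup α γ o1 o3, ← D.sup β δ o2 o4, key _ _ (osup o1 o3) (osup o2 o4)]
      intro φ hφ
      obtain ⟨k1, k2⟩ := k φ hφ
      obtain ⟨k3, k4⟩ := k' φ hφ
      have q1 := hQ' φ α γ (.sup β δ) o1 o3 (osup o2 o4)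
      have q2 := hQ' φ β δ (.sup β δ) o2 o4 (osup o2 o4)
      have q3 := hQ' φ β δ (.sup α γ) o2 o4 (osup o1 o3)
      have q4 := hQ' φ α γ (.sup α γ) o1 o3 (osup o1 o3)
      exact ⟨q1.2.2.2.2.2.2.2.1 (tr φ α β _ o1 o2 (osup o2 o4) k1 q2.2.2.2.2.2.1)
          (tr φ γ δ _ o3 o4 (osup o2 o4) k3 q2.2.2.2.2.2.2.1),
        q3.2.2.2.2.2.2.2.1 (tr φ β α _ o2 o1 (osup o1 o3) k2 q4.2.2.2.2.2.1)
          (tr φ δ γ _ o4 o3 (osup o1 o3) k4 q4.2.2.2.2.2.2.1)⟩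
    · rw [← D.inf α γ o1 o3, ← D.inf β δ o2 o4, key _ _ (oinf o1 o3) (oinf o2 o4)]
      intro φ hφ
      obtain ⟨k1, k2⟩ := k φ hφ
      obtain ⟨k3, k4⟩ := k' φ hφ
      have q1 := hQ' φ β δ (.inf α γ) o2 o4 (oinf o1 o3)
      have q2 := hQ' φ α γ (.inf α γ) o1 o3 (oinf o1 o3)
      have q3 := hQ' φ α γ (.inf β δ) o1 o3 (oinf o2 o4)
      have q4 := hQ' φ β δ (.inf β δ) o2 o4 (oinf o2 o4)
      exact ⟨q1.2.2.2.2.1 (tr φ _ α β (oinf o1 o3) o1 o2 q2.2.2.1 k1)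
          (tr φ _ γ δ (oinf o1 o3) o3 o4 q2.2.2.2.1 k3),
        q3.2.2.2.2.1 (tr φ _ β α (oinf o2 o4) o2 o1 q4.2.2.1 k2)
          (tr φ _ δ γ (oinf o2 o4) o4 o3 q4.2.2.2.1 k4)⟩

end Pool.NF
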