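import Pool.Agent.Work.MP_b103ef_pos.Interface3

/-!
# MP_b103ef_al (S02731): block FIN (helper67)

The conclusion (12): the congruence lattices of `L` and `K` are isomorphic.
-/

set_option autoImplicit false

open Classical

namespace Pool.NF

theorem FIN_box_empty {J E : Type} [AddCommGroup E] [Module ℚ E] (C : J → Submodule ℚ E) :
    box ∅ C = ⊥ := by
  rw [eq_bot_iff]
  intro v hv
  rw [Submodule.mem_bot]
  ext j
  exact (hv j).2 (Finset.notMem_empty j)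

/-- `bot ≤ AT j` in every structure -/
theorem FIN_bot_le {L E : Type} [AddCommGroup E] [Module ℚ E] (M : Str L E) (j : Lab L) :
    M.Le Tm.bot (Tm.AT j) := by
  change box _ _ ⊔ box _ _ ≤ box _ _ ⊔ box _ _
  rw [FIN_box_empty, bot_sup_eq]
  exact le_sup_right

theorem FIN_bot_nc {L : Type} (S : Set L) (φ : L → V5) (j : Lab L) :
    ¬ NCs S φ Tm.bot (Tm.AT j) := by
  rintro (⟨-, E, i1, i2, M, -, h⟩ | ⟨-, V, P, Q, i1, i2, i3, i4, i5, i6, M, -, h⟩)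
  · exact h (FIN_bot_le M j)
  · exact h (FIN_bot_le M j)

/-- the points above a congruence -/
def FIN_P {L : Type} [Lattice L] (θ : L → L → Prop) : Set (L → V5) :=
  {φ | IsPt φ ∧ ∀ u v, θ u v → φ u = φ v}

/-- the points at which a congruence of `K` is closed -/
def FIN_V {L : Type} [Lattice L] (D : KData L) (Θ : D.K → D.K → Prop) : Set (L → V5) :=
  {φ | IsPt φ ∧ ∀ α β : Tm L, α.Over Set.univ → β.Over Set.univ → InC D Θ α β →
    ¬ NCs Set.univ φ α β}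

theorem FIN_con {L : Type} [Lattice L] (T : Set (L → V5)) (hT : ∀ φ ∈ T, IsPt φ) :
    IsCon (fun u v : L => ∀ φ ∈ T, φ u = φ v) := by
  refine ⟨⟨fun _ _ _ => rfl, fun h φ hφ => (h φ hφ).symm,
    fun h k φ hφ => (h φ hφ).trans (k φ hφ)⟩, ?_⟩
  intro a b c d hab hcd
  refine ⟨fun φ hφ => ?_, fun φ hφ => ?_⟩
  · rw [(hT φ hφ).1 a c, (hT φ hφ).1 b d, hab φ hφ, hcd φ hφ]
  · rw [(hT φ hφ).2.1 a c, (hT φ hφ).2.1 b d, hab φ hφ, hcd φ hφ]

theorem FIN_inc {K : Type} [Lattice K] {r : K → K → Prop} (hr : IsCon r) {a b : K}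
    (h : r a b) : r (a ⊓ b) a := by
  have h1 := (hr.2 a a a b (hr.1.refl a) h).2
  rw [inf_idem] at h1
  exact hr.1.symm h1

theorem FIN_of {K : Type} [Lattice K] {r : K → K → Prop} (hr : IsCon r) {a b : K}
    (h : r (a ⊓ b) a) (h' : r (b ⊓ a) b) : r a b := by
  rw [inf_comm] at h'
  exact hr.1.trans (hr.1.symm h) h'

theorem blk_FIN (hULT : Stmt_ULT) (hFIA : Stmt_FIA) (hFIB : Stmt_FIB) (hAJ1 : Stmt_AJ1)
    (hAJ2 : Stmt_AJ2) : Stmt_FIN := by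
  intro L _ hAll hSep D
  have hex : ∀ θ : {r : L → L → Prop // IsCon r}, ∃ r : D.K → D.K → Prop, IsCon r ∧
      ∀ α β : Tm L, α.Over Set.univ → β.Over Set.univ →
        (r (D.q α) (D.q β) ↔
          ∀ φ ∈ FIN_P θ.1, ¬ NCs Set.univ φ α β ∧ ¬ NCs Set.univ φ β α) :=
    fun θ => hFIB L hAll D (FIN_P θ.1) (fun φ hφ => hφ.1)
  choose F hF1 hF2 using hex
  -- the comparison
  have hle : ∀ θ θ' : {r : L → L → Prop // IsCon r},
      (⟨F θ, hF1 θ⟩ : {r : D.K → D.K → Prop // IsCon r}) ≤ ⟨F θ', hF1 θ'⟩ ↔ θ ≤ θ' := by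
    intro θ θ'
    constructor
    · intro h u v huv
      by_contra hcon
      obtain ⟨φ, hφ, hφ1, hne⟩ := hSep θ'.1 θ'.2 u v hcon
      have hxy : θ.1 (u ⊓ v) (u ⊔ v) := by
        have k1 := (θ.2.2 u u u v (θ.2.1.refl u) huv).1
        have k2 := (θ.2.2 u u u v (θ.2.1.refl u) huv).2
        rw [sup_idem] at k1
        rw [inf_idem] at k2
        exact θ.2.1.trans (θ.2.1.symm k2) k1
      have hlt : φ (u ⊓ v) < φ (u ⊔ v) := by
        rw [hφ.1, hφ.2.1]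
        exact inf_lt_sup.2 hne
      have hO1 : (Tm.AT (u ⊓ v, u ⊔ v, 0) : Tm L).Over Set.univ :=
        fun _ _ => ⟨⟨trivial, trivial⟩, trivial⟩
      have hO2 : (Tm.bot : Tm L).Over Set.univ := fun i hi => absurd hi (Finset.notMem_empty i)
      have hΦ : F θ (D.q (Tm.AT (u ⊓ v, u ⊔ v, 0))) (D.q Tm.bot) := by
        rw [hF2 θ _ _ hO1 hO2]
        intro φ' hφ'
        exact ⟨hAJ1 L Set.univ φ' _ _ trivial trivial hφ'.1.2.2 (hφ'.2 _ _ hxy),
          FIN_bot_nc _ _ _⟩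
      have hΦ' : F θ' (D.q (Tm.AT (u ⊓ v, u ⊔ v, 0))) (D.q Tm.bot) := h _ _ hΦ
      rw [hF2 θ' _ _ hO1 hO2] at hΦ'
      exact (hΦ' φ ⟨hφ, hφ1⟩).1 (hAJ2 L Set.univ φ _ _ trivial trivial hφ.2.2 hlt)
    · intro h k k' hk
      obtain ⟨α, hα, rfl⟩ := D.surj k
      obtain ⟨β, hβ, rfl⟩ := D.surj k'
      change F θ' (D.q α) (D.q β)
      rw [hF2 θ' α β hα hβ]
      have hk' : F θ (D.q α) (D.q β) := hk
      rw [hF2 θ α β hα hβ] at hk'
      exact fun φ hφ => hk' φ ⟨hφ.1, fun u v huv => hφ.2 u v (h u v huv)⟩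
  -- surjectivity
  have hsurj : Function.Surjective
      (fun θ : {r : L → L → Prop // IsCon r} =>
        (⟨F θ, hF1 θ⟩ : {r : D.K → D.K → Prop // IsCon r})) := by
    rintro ⟨Θ, hΘ⟩
    have hc : IsCon (fun u v : L => ∀ φ ∈ FIN_V D Θ, φ u = φ v) :=
      FIN_con _ (fun φ hφ => hφ.1)
    have hPV : ∀ φ ∈ FIN_P (fun u v : L => ∀ φ ∈ FIN_V D Θ, φ u = φ v), φ ∈ FIN_V D Θ := by
      intro φ hφ
      refine ⟨hφ.1, fun α β hα hβ hin hnc => ?_⟩
      obtain ⟨x, y, -, hne, hxy⟩ := hFIA L hAll φ hφ.1 α β hα hβ hnc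
      refine hne (hφ.2 x y fun φ' hφ' => ?_)
      by_contra hne'
      exact hφ'.2 α β hα hβ hin (hxy φ' hφ'.1 hne')
    refine ⟨⟨_, hc⟩, ?_⟩
    apply Subtype.ext
    funext k k'
    obtain ⟨α, hα, rfl⟩ := D.surj k
    obtain ⟨β, hβ, rfl⟩ := D.surj k'
    apply propext
    change F ⟨_, hc⟩ (D.q α) (D.q β) ↔ Θ (D.q α) (D.q β)
    rw [hF2 ⟨_, hc⟩ α β hα hβ]
    constructor
    · intro h
      have key : ∀ α β : Tm L, α.Over Set.univ → β.Over Set.univ →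
          (∀ φ ∈ FIN_P (fun u v : L => ∀ φ ∈ FIN_V D Θ, φ u = φ v),
            ¬ NCs Set.univ φ α β) → InC D Θ α β := by
        intro α β hα hβ hn
        refine hULT L hAll D Θ hΘ α β hα hβ fun φ hφ hnc => ?_
        by_contra hcon
        have hV : φ ∈ FIN_V D Θ := by
          refine ⟨hφ, fun α' β' hα' hβ' hin hnc' => hcon ⟨α', β', hα', hβ', hin, hnc'⟩⟩
        exact hn φ ⟨hφ, fun u v huv => huv φ hV⟩ hnc
      exact FIN_of hΘ (key α β hα hβ fun φ hφ => (h φ hφ).1)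
        (key β α hβ hα fun φ hφ => (h φ hφ).2)
    · intro h φ hφ
      have hV := hPV φ hφ
      exact ⟨hV.2 α β hα hβ (FIN_inc hΘ h), hV.2 β α hβ hα (FIN_inc hΘ (hΘ.1.symm h))⟩
  exact ⟨RelIso.ofSurjective (OrderEmbedding.ofMapLEIff
    (fun θ : {r : L → L → Prop // IsCon r} =>
        (⟨F θ, hF1 θ⟩ : {r : D.K → D.K → Prop // IsCon r})) hle) hsurj⟩

end Pool.NF
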