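import Pool.Agent.Work.MP_b103ef_pos.Interface3

/-! # Block FLG (helper18): (10)(c), supports of the four factors -/

set_option autoImplicit false

open Classical

namespace Pool.NF

namespace FLGaux

theorem box_mono' {J E : Type} [AddCommGroup E] [Module ℚ E] (F : Finset J)
    {C C' : J → Submodule ℚ E} (h : ∀ j, C j ≤ C' j) : box F C ≤ box F C' := by
  intro v hv j
  exact ⟨fun hj => h j ((hv j).1 hj), (hv j).2⟩

section

variable {L : Type}

theorem ovr (hO : Stmt_OVR) (Z : Finset L) (k : L) (hk : k ∈ Z) (α β : Tm L)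
    (hα : α.Over (↑Z : Set L)) (hβ : β.Over (↑Z : Set L)) (m : Fin 5) :
    (flg α β k m).Over (↑Z : Set L) ∧ (flg α β k m).vars ⊆ α.vars ∪ β.vars := by
  have hX : ∀ l, (Tm.XT (α.vars ∪ β.vars) k l).Over (↑Z : Set L) := by
    intro l j hj
    refine ⟨?_, hk⟩
    rcases Finset.mem_union.1 hj with h | h
    · exact (hO L α).1 _ hα j h
    · exact (hO L β).1 _ hβ j h
  have hI : (Tm.inf α β).Over (↑Z : Set L) := ⟨hα, hβ⟩
  have hv : ∀ l, (Tm.sup (.inf α β) (.inf α (.XT (α.vars ∪ β.vars) k l))).vars ⊆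
      α.vars ∪ β.vars := by
    intro l
    change (α.vars ∪ β.vars) ∪ (α.vars ∪ (α.vars ∪ β.vars)) ⊆ α.vars ∪ β.vars
    exact Finset.union_subset subset_rfl
      (Finset.union_subset Finset.subset_union_left subset_rfl)
  fin_cases m
  · exact ⟨hI, subset_rfl⟩
  · exact ⟨⟨hI, hα, hX 0⟩, hv 0⟩
  · exact ⟨⟨hI, hα, hX 1⟩, hv 1⟩
  · exact ⟨⟨hI, hα, hX 2⟩, hv 2⟩
  · exact ⟨hα, Finset.subset_union_left⟩

theorem rank (α β : Tm L) (k : L) (m : Fin 5) :
    (flg α β k m).rank ≤ max α.rank β.rank := by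
  have h : ∀ l, (Tm.sup (.inf α β) (.inf α (.XT (α.vars ∪ β.vars) k l))).rank ≤
      max α.rank β.rank := by
    intro l
    change max (max α.rank β.rank) (max α.rank 0) ≤ _
    exact max_le le_rfl (max_le (le_max_left _ _) (Nat.zero_le _))
  fin_cases m
  · exact le_rfl
  · exact h 0
  · exact h 1
  · exact h 2
  · exact le_max_left _ _

theorem vars_eq (α β : Tm L) (k : L) (m : Fin 4) :
    (flg α β k m.succ).vars ∪ (flg α β k m.castSucc).vars = α.vars ∪ β.vars := by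
  fin_cases m
  · change ((α.vars ∪ β.vars) ∪ (α.vars ∪ (α.vars ∪ β.vars))) ∪ (α.vars ∪ β.vars) = _
    ext j
    simp only [Finset.mem_union]
    tauto
  · change ((α.vars ∪ β.vars) ∪ (α.vars ∪ (α.vars ∪ β.vars))) ∪
      ((α.vars ∪ β.vars) ∪ (α.vars ∪ (α.vars ∪ β.vars))) = _
    ext j
    simp only [Finset.mem_union]
    tauto
  · change ((α.vars ∪ β.vars) ∪ (α.vars ∪ (α.vars ∪ β.vars))) ∪
      ((α.vars ∪ β.vars) ∪ (α.vars ∪ (α.vars ∪ β.vars))) = _
    ext j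
    simp only [Finset.mem_union]
    tauto
  · change α.vars ∪ ((α.vars ∪ β.vars) ∪ (α.vars ∪ (α.vars ∪ β.vars))) = _
    ext j
    simp only [Finset.mem_union]
    tauto

theorem vbase (n : ℕ) (S : Set L) (ρ : L → V5) (E : Type) [AddCommGroup E] [Module ℚ E]
    (M : Str L E) (h : VG n S ρ E M) : VBase S ρ M := by
  induction n with
  | zero => exact h
  | succ n ih => exact ih h.1

theorem model (hS : Stmt_SAN) (hV : Stmt_VSN) (Z : Finset L) (k : L) (hk : k ∈ Z) (α β : Tm L)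
    (hα : α.Over (↑Z : Set L)) (hβ : β.Over (↑Z : Set L)) (ρ : L → V5) (n : ℕ)
    (hαn : α.rank ≤ n) (hβn : β.rank ≤ n)
    (E : Type) [AddCommGroup E] [Module ℚ E] (M : Str L E) (hM : VG n (↑Z : Set L) ρ E M) :
    (ρ k = V5.o → M.Le (flg α β k 1) (flg α β k 0) ∧ M.Le (flg α β k 3) (flg α β k 2)) ∧
    (ρ k = V5.i → M.Le (flg α β k 2) (flg α β k 1) ∧ M.Le (flg α β k 4) (flg α β k 3)) := by
  have hB := vbase n _ ρ E M hM
  have hs := hS L (↑Z : Set L) n E M (hV L _ ρ n E M hM)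
  have h01 : (flg α β k 1).vars ∪ (flg α β k 0).vars = α.vars ∪ β.vars := vars_eq α β k 0
  have h12 : (flg α β k 2).vars ∪ (flg α β k 1).vars = α.vars ∪ β.vars := vars_eq α β k 1
  have h23 : (flg α β k 3).vars ∪ (flg α β k 2).vars = α.vars ∪ β.vars := vars_eq α β k 2
  have h34 : (flg α β k 4).vars ∪ (flg α β k 3).vars = α.vars ∪ β.vars := vars_eq α β k 3
  refine ⟨fun ho => ?_, fun hi => ?_⟩
  · obtain ⟨hx0, hx2⟩ := (hB.1 k hk).2 ho
    constructor
    · unfold Str.Le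
      rw [h01]
      change (M.ev (α.vars ∪ β.vars) α ⊓ M.ev (α.vars ∪ β.vars) β) ⊔
        (M.ev (α.vars ∪ β.vars) α ⊓
          (box (α.vars ∪ β.vars) (fun j => M.B j ⊔ (M.x k 0 ⊓ M.A j)) ⊔
            box (α.vars ∪ β.vars) M.B)) ≤
        M.ev (α.vars ∪ β.vars) α ⊓ M.ev (α.vars ∪ β.vars) β
      have hb := (hs.1 β hβ hβn (α.vars ∪ β.vars) Finset.subset_union_right).1
      refine sup_le le_rfl (le_inf inf_le_left (inf_le_right.trans (sup_le ?_ hb)))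
      refine le_trans (box_mono' _ fun j => ?_) hb
      rw [hx0, bot_inf_eq, sup_bot_eq]
    · unfold Str.Le
      rw [h23]
      change (M.ev (α.vars ∪ β.vars) α ⊓ M.ev (α.vars ∪ β.vars) β) ⊔
        (M.ev (α.vars ∪ β.vars) α ⊓
          (box (α.vars ∪ β.vars) (fun j => M.B j ⊔ (M.x k 2 ⊓ M.A j)) ⊔
            box (α.vars ∪ β.vars) M.B)) ≤
        (M.ev (α.vars ∪ β.vars) α ⊓ M.ev (α.vars ∪ β.vars) β) ⊔
        (M.ev (α.vars ∪ β.vars) α ⊓
          (box (α.vars ∪ β.vars) (fun j => M.B j ⊔ (M.x k 1 ⊓ M.A j)) ⊔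
            box (α.vars ∪ β.vars) M.B))
      rw [hx2]
  · obtain ⟨hx0, hx2⟩ := (hB.1 k hk).1 hi
    constructor
    · unfold Str.Le
      rw [h12]
      change (M.ev (α.vars ∪ β.vars) α ⊓ M.ev (α.vars ∪ β.vars) β) ⊔
        (M.ev (α.vars ∪ β.vars) α ⊓
          (box (α.vars ∪ β.vars) (fun j => M.B j ⊔ (M.x k 1 ⊓ M.A j)) ⊔
            box (α.vars ∪ β.vars) M.B)) ≤
        (M.ev (α.vars ∪ β.vars) α ⊓ M.ev (α.vars ∪ β.vars) β) ⊔
        (M.ev (α.vars ∪ β.vars) α ⊓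
          (box (α.vars ∪ β.vars) (fun j => M.B j ⊔ (M.x k 0 ⊓ M.A j)) ⊔
            box (α.vars ∪ β.vars) M.B))
      rw [hx0]
    · unfold Str.Le
      rw [h34]
      change M.ev (α.vars ∪ β.vars) α ≤
        (M.ev (α.vars ∪ β.vars) α ⊓ M.ev (α.vars ∪ β.vars) β) ⊔
        (M.ev (α.vars ∪ β.vars) α ⊓
          (box (α.vars ∪ β.vars) (fun j => M.B j ⊔ (M.x k 2 ⊓ M.A j)) ⊔
            box (α.vars ∪ β.vars) M.B))
      have ha := (hs.1 α hα hαn (α.vars ∪ β.vars) Finset.subset_union_left).2.1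
      refine le_trans (le_inf le_rfl (ha.trans (le_trans (box_mono' _ fun j => ?_) le_sup_left)))
        le_sup_right
      rw [hx2, top_inf_eq]
      exact le_sup_right

end

end FLGaux

open FLGaux in
theorem blk_FLG (hM : Stmt_NCM) (hQ : Stmt_QOS) (hS : Stmt_SAN) (hV : Stmt_VSN)
    (hO : Stmt_OVR) : Stmt_FLG := by
  intro L hA Z k hk α β hα hβ
  have hov := ovr hO Z k hk α β hα hβ
  have hI : (Tm.inf α β).Over (↑Z : Set L) := ⟨hα, hβ⟩
  have hJ : ∀ l, (Tm.inf α (.XT (α.vars ∪ β.vars) k l)).Over (↑Z : Set L) := by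
    intro l
    refine ⟨hα, fun j hj => ⟨?_, hk⟩⟩
    rcases Finset.mem_union.1 hj with h | h
    · exact (hO L α).1 _ hα j h
    · exact (hO L β).1 _ hβ j h
  have hX : ∀ l, (Tm.XT (α.vars ∪ β.vars) k l).Over (↑Z : Set L) := fun l => (hJ l).2
  -- quasi-order facts
  have qrefl : ∀ χ (a : Tm L), a.Over (↑Z : Set L) → ¬ NCs (↑Z : Set L) χ a a :=
    fun χ a ha => (hQ L hA _ χ a a a ha ha ha).1
  have qtr : ∀ χ (a b c : Tm L), a.Over (↑Z : Set L) → b.Over (↑Z : Set L) →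
      c.Over (↑Z : Set L) → ¬ NCs (↑Z : Set L) χ a b → ¬ NCs (↑Z : Set L) χ b c →
      ¬ NCs (↑Z : Set L) χ a c := fun χ a b c ha hb hc => (hQ L hA _ χ a b c ha hb hc).2.1
  have qil : ∀ χ (a b : Tm L), a.Over (↑Z : Set L) → b.Over (↑Z : Set L) →
      ¬ NCs (↑Z : Set L) χ (.inf a b) a := fun χ a b ha hb => (hQ L hA _ χ a b a ha hb ha).2.2.1
  have qir : ∀ χ (a b : Tm L), a.Over (↑Z : Set L) → b.Over (↑Z : Set L) →
      ¬ NCs (↑Z : Set L) χ (.inf a b) b := fun χ a b ha hb => (hQ L hA _ χ a b a ha hb ha).2.2.2.1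
  have qli : ∀ χ (c a b : Tm L), c.Over (↑Z : Set L) → a.Over (↑Z : Set L) →
      b.Over (↑Z : Set L) → ¬ NCs (↑Z : Set L) χ c a → ¬ NCs (↑Z : Set L) χ c b →
      ¬ NCs (↑Z : Set L) χ c (.inf a b) :=
    fun χ c a b hc ha hb => (hQ L hA _ χ a b c ha hb hc).2.2.2.2.1
  have qsl : ∀ χ (a b : Tm L), a.Over (↑Z : Set L) → b.Over (↑Z : Set L) →
      ¬ NCs (↑Z : Set L) χ a (.sup a b) :=
    fun χ a b ha hb => (hQ L hA _ χ a b a ha hb ha).2.2.2.2.2.1
  have qls : ∀ χ (c a b : Tm L), c.Over (↑Z : Set L) → a.Over (↑Z : Set L) →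
      b.Over (↑Z : Set L) → ¬ NCs (↑Z : Set L) χ a c → ¬ NCs (↑Z : Set L) χ b c →
      ¬ NCs (↑Z : Set L) χ (.sup a b) c :=
    fun χ c a b hc ha hb => (hQ L hA _ χ a b c ha hb hc).2.2.2.2.2.2.2.1
  have up : ∀ χ (m : Fin 5), ¬ NCs (↑Z : Set L) χ (flg α β k m) α := by
    intro χ m
    have key : ∀ l, ¬ NCs (↑Z : Set L) χ
        (.sup (.inf α β) (.inf α (.XT (α.vars ∪ β.vars) k l))) α := fun l =>
      qls χ _ _ _ hα hI (hJ l) (qil χ _ _ hα hβ) (qil χ _ _ hα (hX l))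
    fin_cases m
    · exact qil χ _ _ hα hβ
    · exact key 0
    · exact key 1
    · exact key 2
    · exact qrefl χ _ hα
  have lo : ∀ χ (m : Fin 5), ¬ NCs (↑Z : Set L) χ (.inf α β) (flg α β k m) := by
    intro χ m
    fin_cases m
    · exact qrefl χ _ hI
    · exact qsl χ _ _ hI (hJ 0)
    · exact qsl χ _ _ hI (hJ 1)
    · exact qsl χ _ _ hI (hJ 2)
    · exact qil χ _ _ hα hβ
  refine ⟨hov, ?_, ?_, ?_⟩
  · intro m χ hne
    by_contra hc
    have h1 : ¬ NCs (↑Z : Set L) χ α (.inf α β) := qli χ _ _ _ hα hα hβ (qrefl χ _ hα) hc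
    have h2 := qtr χ _ _ _ (hov m.succ).1 hα hI (up χ m.succ) h1
    exact (qtr χ _ _ _ (hov m.succ).1 hI (hov m.castSucc).1 h2 (lo χ m.castSucc)) hne
  · intro ρ hρ
    have noHit : ¬ Hit (↑Z : Set L) ρ := by
      rintro ⟨⟨x, hx, hxa⟩, -, -⟩
      rcases hρ x hx with h | h
      · rw [hxa] at h
        exact absurd h (by decide)
      · rw [hxa] at h
        exact absurd h (by decide)
    have mk : ∀ a b : Tm L, a.Over (↑Z : Set L) → b.Over (↑Z : Set L) →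
        a.rank ≤ max α.rank β.rank → b.rank ≤ max α.rank β.rank →
        (∀ (E : Type) [AddCommGroup E] [Module ℚ E] (M : Str L E),
          VG (max α.rank β.rank) (↑Z : Set L) ρ E M → M.Le a b) →
        ¬ NCs (↑Z : Set L) ρ a b := by
      intro a b ha hb har hbr h
      exact (hM L hA _ ρ a b _ ha hb har hbr).2 ⟨fun _ => h, fun hh => absurd hh noHit⟩
    have md := fun (E : Type) (i1 : AddCommGroup E) (i2 : Module ℚ E) (M : Str L E)
      (hM' : VG (max α.rank β.rank) (↑Z : Set L) ρ E M) =>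
      model hS hV Z k hk α β hα hβ ρ (max α.rank β.rank) (le_max_left _ _) (le_max_right _ _)
        E M hM'
    refine ⟨fun ho => ⟨?_, ?_⟩, fun hi => ⟨?_, ?_⟩⟩
    · exact mk _ _ (hov 1).1 (hov 0).1 (rank α β k 1) (rank α β k 0)
        fun E i1 i2 M h => ((md E i1 i2 M h).1 ho).1
    · exact mk _ _ (hov 3).1 (hov 2).1 (rank α β k 3) (rank α β k 2)
        fun E i1 i2 M h => ((md E i1 i2 M h).1 ho).2
    · exact mk _ _ (hov 2).1 (hov 1).1 (rank α β k 2) (rank α β k 1)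
        fun E i1 i2 M h => ((md E i1 i2 M h).2 hi).1
    · exact mk _ _ (hov 4).1 (hov 3).1 (rank α β k 4) (rank α β k 3)
        fun E i1 i2 M h => ((md E i1 i2 M h).2 hi).2
  · intro χ hne
    by_contra hc
    have hc' : ∀ m : Fin 4, ¬ NCs (↑Z : Set L) χ (flg α β k m.succ) (flg α β k m.castSucc) :=
      fun m hm => hc ⟨m, hm⟩
    have h43 : ¬ NCs (↑Z : Set L) χ (flg α β k 4) (flg α β k 3) := hc' 3
    have h32 : ¬ NCs (↑Z : Set L) χ (flg α β k 3) (flg α β k 2) := hc' 2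
    have h21 : ¬ NCs (↑Z : Set L) χ (flg α β k 2) (flg α β k 1) := hc' 1
    have h10 : ¬ NCs (↑Z : Set L) χ (flg α β k 1) (flg α β k 0) := hc' 0
    have h42 := qtr χ _ _ _ (hov 4).1 (hov 3).1 (hov 2).1 h43 h32
    have h41 := qtr χ _ _ _ (hov 4).1 (hov 2).1 (hov 1).1 h42 h21
    have h40 := qtr χ _ _ _ (hov 4).1 (hov 1).1 (hov 0).1 h41 h10
    exact qtr χ _ _ _ hα hI hβ h40 (qir χ _ _ hα hβ) hne

end Pool.NF
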