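import Pool.Agent.Work.MP_b103ef_pos.Interface3

/-! # Block FLK (helper60): the flags in `K` -/

set_option autoImplicit false

open Classical

namespace Pool.NF

theorem FLK_box_mono {J E : Type} [AddCommGroup E] [Module ℚ E] (F : Finset J)
    (C C' : J → Submodule ℚ E) (h : ∀ j, C j ≤ C' j) : box F C ≤ box F C' := by
  intro v hv j
  exact ⟨fun hj => h j ((hv j).1 hj), (hv j).2⟩

theorem FLK_ev {L E : Type} [AddCommGroup E] [Module ℚ E] (M : Str L E) (F : Finset (Lab L))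
    (k : L) (l l' : Fin 3) (h : M.x k l ≤ M.x k l') : M.Le (Tm.XT F k l) (Tm.XT F k l') := by
  show M.ev (F ∪ F) (Tm.XT F k l) ≤ M.ev (F ∪ F) (Tm.XT F k l')
  show box F (fun j => M.B j ⊔ (M.x k l ⊓ M.A j)) ⊔ box (F ∪ F) M.B ≤
    box F (fun j => M.B j ⊔ (M.x k l' ⊓ M.A j)) ⊔ box (F ∪ F) M.B
  refine sup_le_sup_right (FLK_box_mono F _ _ (fun j => ?_)) _
  exact sup_le_sup_left (inf_le_inf_right _ h) _

theorem FLK_Over {L : Type} (F : Finset (Lab L)) (k : L) (l : Fin 3) :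
    (Tm.XT F k l).Over Set.univ :=
  fun _ _ => ⟨⟨trivial, trivial⟩, trivial⟩

/-- The chain condition for congruences. -/
theorem FLK_chain {W : Type} [Lattice W] (r : W → W → Prop) (hr : IsCon r) (c : Fin 5 → W)
    (hc : ∀ m : Fin 4, c m.castSucc ≤ c m.succ) :
    (r (c 0) (c 4) ↔ ∀ m : Fin 4, r (c m.castSucc) (c m.succ)) := by
  have hmono : Monotone c := Fin.monotone_iff_le_succ.mpr hc
  constructor
  · intro h m
    have h0 : c 0 ≤ c m.castSucc := hmono (Fin.zero_le _)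
    have h4 : c m.succ ≤ c 4 := hmono (Fin.le_last _)
    have h1 := (hr.2 _ _ _ _ h (hr.1.refl (c m.castSucc))).1
    rw [sup_of_le_right h0, sup_of_le_left (le_trans (hc m) h4)] at h1
    have h2 := (hr.2 _ _ _ _ h1 (hr.1.refl (c m.succ))).2
    rw [inf_of_le_left (hc m), inf_of_le_right h4] at h2
    exact h2
  · intro h
    have h0 := h 0
    have h1 := h 1
    have h2 := h 2
    have h3 := h 3
    exact hr.1.trans (hr.1.trans (hr.1.trans h0 h1) h2) h3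

theorem blk_FLK (hT : Stmt_TLM) (hB : Stmt_BND) : Stmt_FLK := by
  intro L _ hL D r hr k α β hα hβ
  set F := α.vars ∪ β.vars with hF
  -- monotonicity of the flag terms
  have hx : ∀ l l' : Fin 3, (∀ φ : L → V5, IsV Set.univ φ → ∀ (E : Type) [AddCommGroup E]
      [Module ℚ E] (M : Str L E), VG 0 Set.univ φ E M → M.x k l ≤ M.x k l') →
      (∀ φ : L → V5, ∀ (V P Q : Type) [AddCommGroup V] [Module ℚ V] [AddCommGroup P]
      [Module ℚ P] [AddCommGroup Q] [Module ℚ Q] (M : Str L (FE V P Q)),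
      EG 0 Set.univ φ V P Q M → M.x k l ≤ M.x k l') →
      D.q (Tm.XT F k l) ≤ D.q (Tm.XT F k l') := by
    intro l l' h1 h2
    rw [D.le_iff _ _ (FLK_Over F k l) (FLK_Over F k l')]
    rw [hT L hL (Tm.XT F k l) (Tm.XT F k l') 0 (FLK_Over F k l) (FLK_Over F k l') le_rfl le_rfl]
    exact ⟨fun φ _ hV E _ _ M hM => FLK_ev M F k l l' (h1 φ hV E M hM),
      fun φ _ _ V P Q _ _ _ _ _ _ M hM => FLK_ev M F k l l' (h2 φ V P Q M hM)⟩
  have hV01 : ∀ φ : L → V5, IsV Set.univ φ → ∀ (E : Type) [AddCommGroup E]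
      [Module ℚ E] (M : Str L E), VG 0 Set.univ φ E M → M.x k 0 ≤ M.x k 1 ∧ M.x k 1 ≤ M.x k 2 := by
    intro φ hφ E _ _ M hM
    have h1 := hM.1 k (Set.mem_univ k)
    rcases hφ k (Set.mem_univ k) with h2 | h2
    · obtain ⟨h3, h4⟩ := h1.2 h2
      exact ⟨by rw [h3]; exact bot_le, by rw [h4]⟩
    · obtain ⟨h3, h4⟩ := h1.1 h2
      exact ⟨by rw [h3], by rw [h4]; exact le_top⟩
  have hx01 : D.q (Tm.XT F k 0) ≤ D.q (Tm.XT F k 1) :=
    hx 0 1 (fun φ hφ E _ _ M hM => (hV01 φ hφ E M hM).1)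
      (fun φ V P Q _ _ _ _ _ _ M hM =>
        (hB L Set.univ φ V P Q M hM k (Set.mem_univ k)).2.2.2.2.2.1)
  have hx12 : D.q (Tm.XT F k 1) ≤ D.q (Tm.XT F k 2) :=
    hx 1 2 (fun φ hφ E _ _ M hM => (hV01 φ hφ E M hM).2)
      (fun φ V P Q _ _ _ _ _ _ M hM =>
        (hB L Set.univ φ V P Q M hM k (Set.mem_univ k)).2.2.2.2.2.2)
  -- the values of the chain
  have hq0 : D.q (flg α β k 0) = D.q α ⊓ D.q β := D.inf α β hα hβ
  have hqm : ∀ l : Fin 3, D.q (Tm.sup (Tm.inf α β) (Tm.inf α (Tm.XT F k l))) =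
      (D.q α ⊓ D.q β) ⊔ (D.q α ⊓ D.q (Tm.XT F k l)) := by
    intro l
    rw [D.sup (Tm.inf α β) (Tm.inf α (Tm.XT F k l)) ⟨hα, hβ⟩ ⟨hα, FLK_Over F k l⟩,
      D.inf α β hα hβ, D.inf α (Tm.XT F k l) hα (FLK_Over F k l)]
  have hc : ∀ m : Fin 4, D.q (flg α β k m.castSucc) ≤ D.q (flg α β k m.succ) := by
    intro m
    fin_cases m
    · show D.q (flg α β k 0) ≤ D.q (Tm.sup (Tm.inf α β) (Tm.inf α (Tm.XT F k 0)))
      rw [hq0, hqm]
      exact le_sup_left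
    · show D.q (Tm.sup (Tm.inf α β) (Tm.inf α (Tm.XT F k 0))) ≤
        D.q (Tm.sup (Tm.inf α β) (Tm.inf α (Tm.XT F k 1)))
      rw [hqm, hqm]
      exact sup_le_sup_left (inf_le_inf_left _ hx01) _
    · show D.q (Tm.sup (Tm.inf α β) (Tm.inf α (Tm.XT F k 1))) ≤
        D.q (Tm.sup (Tm.inf α β) (Tm.inf α (Tm.XT F k 2)))
      rw [hqm, hqm]
      exact sup_le_sup_left (inf_le_inf_left _ hx12) _
    · show D.q (Tm.sup (Tm.inf α β) (Tm.inf α (Tm.XT F k 2))) ≤ D.q α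
      rw [hqm]
      exact sup_le inf_le_left inf_le_left
  have hch := FLK_chain r hr (fun m => D.q (flg α β k m)) hc
  have e1 : InC D r α β ↔ r (D.q (flg α β k 0)) (D.q (flg α β k 4)) := by
    show r (D.q α ⊓ D.q β) (D.q α) ↔ r (D.q (flg α β k 0)) (D.q α)
    rw [hq0]
  have e2 : ∀ m : Fin 4, InC D r (flg α β k m.succ) (flg α β k m.castSucc) ↔
      r (D.q (flg α β k m.castSucc)) (D.q (flg α β k m.succ)) := by
    intro m
    show r (D.q (flg α β k m.succ) ⊓ D.q (flg α β k m.castSucc)) (D.q (flg α β k m.succ)) ↔ _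
    rw [inf_of_le_right (hc m)]
  rw [e1, hch]
  exact forall_congr' (fun m => (e2 m).symm)

end Pool.NF
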