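import Pool.Agent.Work.MP_b103ef_pos.Interface2

set_option autoImplicit false

open Classical

namespace Pool.NF

section FRD

theorem FRD_lift_comp {J E F G : Type} [AddCommGroup E] [Module ℚ E] [AddCommGroup F]
    [Module ℚ F] [AddCommGroup G] [Module ℚ G] (f : E →ₗ[ℚ] F) (g : F →ₗ[ℚ] G) :
    (lift (g.comp f) : (J →₀ E) →ₗ[ℚ] (J →₀ G)) = (lift g).comp (lift f) := by
  apply LinearMap.ext
  intro v
  ext j
  rfl

/-- pulling back a sum of structures -/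
theorem FRD_pull {L E G ι : Type} [AddCommGroup E] [Module ℚ E] [AddCommGroup G] [Module ℚ G]
    {F G' : ι → Type} [∀ a, AddCommGroup (F a)] [∀ a, Module ℚ (F a)]
    [∀ a, AddCommGroup (G' a)] [∀ a, Module ℚ (G' a)] (Ms : ∀ a, Str L (F a))
    (pr' : ∀ a, E →ₗ[ℚ] F a) (inc : G →ₗ[ℚ] E) (inc' : ∀ a, G' a →ₗ[ℚ] F a)
    (D' : Dec G ι G') (h : ∀ a, (pr' a).comp inc = (inc' a).comp (D'.pr a)) :
    (Str.iInf fun a => (Ms a).pull (pr' a)).pull inc = D'.sum (fun a => (Ms a).pull (inc' a)) := by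
  unfold Dec.sum Str.iInf Str.pull
  simp only [Str.mk.injEq]
  refine ⟨?_, ?_, ?_⟩
  · funext i l
    rw [Submodule.comap_iInf]
    refine iInf_congr fun a => ?_
    rw [← Submodule.comap_comp, ← Submodule.comap_comp, h a]
  · funext Z ψ
    rw [Submodule.comap_iInf]
    refine iInf_congr fun a => ?_
    rw [← Submodule.comap_comp, ← Submodule.comap_comp, h a]
  · funext σ
    rw [Submodule.comap_iInf]
    refine iInf_congr fun a => ?_
    rw [← Submodule.comap_comp, ← Submodule.comap_comp, ← FRD_lift_comp, ← FRD_lift_comp, h a]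

/-- homomorphisms of sums -/
theorem FRD_hom {L E ι : Type} [AddCommGroup E] [Module ℚ E] {F : ι → Type}
    [∀ a, AddCommGroup (F a)] [∀ a, Module ℚ (F a)] (S : Set L) (n : ℕ) (Ms : ∀ a, Str L (F a))
    (pr' : ∀ a, E →ₗ[ℚ] F a) (e : E →ₗ[ℚ] E) (e' : ∀ a, F a →ₗ[ℚ] F a)
    (h : ∀ a, (pr' a).comp e = (e' a).comp (pr' a))
    (hom : ∀ a, Str.Hom S n (Ms a) (Ms a) (e' a)) :
    Str.Hom S n (Str.iInf fun a => (Ms a).pull (pr' a)) (Str.iInf fun a => (Ms a).pull (pr' a))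
      e := by
  refine ⟨?_, ?_, ?_⟩
  · intro i hi l
    change (⨅ a, ((Ms a).x i l).comap (pr' a)) ≤ (⨅ a, ((Ms a).x i l).comap (pr' a)).comap e
    rw [Submodule.comap_iInf]
    refine iInf_mono fun a => ?_
    rw [← Submodule.comap_comp, h a, Submodule.comap_comp]
    exact Submodule.comap_mono ((hom a).1 i hi l)
  · intro Z hZ ψ
    change (⨅ a, ((Ms a).u Z ψ).comap (pr' a)) ≤ (⨅ a, ((Ms a).u Z ψ).comap (pr' a)).comap e
    rw [Submodule.comap_iInf]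
    refine iInf_mono fun a => ?_
    rw [← Submodule.comap_comp, h a, Submodule.comap_comp]
    exact Submodule.comap_mono ((hom a).2.1 Z hZ ψ)
  · intro σ h1 h2 h3
    change (⨅ a, ((Ms a).g σ).comap (lift (pr' a))) ≤
      (⨅ a, ((Ms a).g σ).comap (lift (pr' a))).comap (lift e)
    rw [Submodule.comap_iInf]
    refine iInf_mono fun a => ?_
    rw [← Submodule.comap_comp, ← FRD_lift_comp, h a, FRD_lift_comp, Submodule.comap_comp]
    exact Submodule.comap_mono ((hom a).2.2 σ h1 h2 h3)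

theorem blk_FRD (hDFE : Stmt_DFE) (hNAT : Stmt_NAT) (hVDC : Stmt_VDC) : Stmt_FRD := by
  intro L S φ n V P Q ι _ _ _ _ _ _ Vf Pf Qf _ _ _ _ _ _ DV DP DQ Ms hM
  obtain ⟨-, ⟨DX, hX, -⟩, ⟨DY, hY, -⟩, ⟨DK, hK, -⟩, ⟨DI, hI, -⟩⟩ :=
    hDFE V P Q ι Vf Pf Qf DV DP DQ
  have nat := fun a => hNAT V P Q (Vf a) (Pf a) (Qf a) (DV.pr a) (DP.pr a) (DQ.pr a)
  have hom : ∀ {S' : Set L} (e : FE V P Q →ₗ[ℚ] FE V P Q)
      (e' : ∀ a, FE (Vf a) (Pf a) (Qf a) →ₗ[ℚ] FE (Vf a) (Pf a) (Qf a)),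
      (∀ a, (mapE (DV.pr a) (DP.pr a) (DQ.pr a)).comp e =
        (e' a).comp (mapE (DV.pr a) (DP.pr a) (DQ.pr a))) →
      (∀ a, Str.Hom S' n (Ms a) (Ms a) (e' a)) →
      Str.Hom S' n (Dec.fsum DV DP DQ Ms) (Dec.fsum DV DP DQ Ms) e := by
    intro S' e e' h1 h2
    exact FRD_hom S' n Ms _ e e' h1 h2
  have cmp : ∀ {A B C A' B' : Type} [AddCommGroup A] [Module ℚ A] [AddCommGroup B] [Module ℚ B]
      [AddCommGroup A'] [Module ℚ A'] [AddCommGroup B'] [Module ℚ B']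
      (m : A →ₗ[ℚ] A') (inc : B →ₗ[ℚ] A) (pr : A →ₗ[ℚ] B) (inc' : B' →ₗ[ℚ] A')
      (pr' : A' →ₗ[ℚ] B') (m' : B →ₗ[ℚ] B'), m.comp inc = inc'.comp m' →
      pr'.comp m = m'.comp pr → m.comp (inc.comp pr) = (inc'.comp pr').comp m := by
    intro A B C A' B' _ _ _ _ _ _ _ _ m inc pr inc' pr' m' h1 h2
    rw [← LinearMap.comp_assoc, h1, LinearMap.comp_assoc, ← h2, LinearMap.comp_assoc]
  refine ⟨⟨?_, ?_, ?_, ?_, ?_, ?_⟩, ⟨?_, ?_, ?_, ?_⟩, ⟨?_, ?_, ?_, ?_⟩, ⟨?_, ?_, ?_⟩⟩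
  · exact hom _ _ (fun a => cmp (C := V) _ _ _ _ _ _ (nat a).1.1 (nat a).1.2)
      (fun a => (hM a).1.1)
  · exact hom _ _ (fun a => cmp (C := V) _ _ _ _ _ _ (nat a).2.1.1 (nat a).2.1.2)
      (fun a => (hM a).1.2.1)
  · exact hom _ _ (fun a => cmp (C := V) _ _ _ _ _ _ (nat a).2.2.1.1 (nat a).2.2.1.2)
      (fun a => (hM a).1.2.2.1)
  · have h1 : (Dec.fsum DV DP DQ Ms).pull incX = DX.sum (fun a => (Ms a).pull incX) := by
      refine FRD_pull (E := FE V P Q) Ms (fun a => mapE (DV.pr a) (DP.pr a) (DQ.pr a)) incX (fun a => incX) DX fun a => ?_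
      rw [hX a]
      exact (nat a).1.1
    rw [h1]
    exact (hVDC L _ _ n _ ι _ DX _).1 fun a => (hM a).1.2.2.2.1
  · have h1 : (Dec.fsum DV DP DQ Ms).pull incV = DV.sum (fun a => (Ms a).pull incV) := by
      refine FRD_pull (E := FE V P Q) Ms (fun a => mapE (DV.pr a) (DP.pr a) (DQ.pr a)) incV (fun a => incV) DV fun a => ?_
      exact (nat a).2.1.1
    rw [h1]
    exact (hVDC L _ _ n _ ι _ DV _).1 fun a => (hM a).1.2.2.2.2.1
  · have h1 : (Dec.fsum DV DP DQ Ms).pull incY = DY.sum (fun a => (Ms a).pull incY) := by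
      refine FRD_pull (E := FE V P Q) Ms (fun a => mapE (DV.pr a) (DP.pr a) (DQ.pr a)) incY (fun a => incY) DY fun a => ?_
      rw [hY a]
      exact (nat a).2.2.1.1
    rw [h1]
    exact (hVDC L _ _ n _ ι _ DY _).1 fun a => (hM a).1.2.2.2.2.2
  · exact hom _ _ (fun a => cmp (C := V) _ _ _ _ _ _ (nat a).2.2.2.1.1 (nat a).2.2.2.1.2)
      (fun a => (hM a).2.1.1)
  · exact hom _ _ (fun a => cmp (C := V) _ _ _ _ _ _ (nat a).2.2.2.2.1.1 (nat a).2.2.2.2.1.2)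
      (fun a => (hM a).2.1.2.1)
  · have h1 : (Dec.fsum DV DP DQ Ms).pull incI = DX.sum (fun a => (Ms a).pull incI) := by
      refine FRD_pull (E := FE V P Q) Ms (fun a => mapE (DV.pr a) (DP.pr a) (DQ.pr a)) incI (fun a => incI) DX fun a => ?_
      rw [hX a]
      exact (nat a).2.2.2.1.1
    rw [h1]
    exact (hVDC L _ _ n _ ι _ DX _).1 fun a => (hM a).2.1.2.2.1
  · have h1 : (Dec.fsum DV DP DQ Ms).pull incK = DK.sum (fun a => (Ms a).pull incK) := by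
      refine FRD_pull (E := FE V P Q) Ms (fun a => mapE (DV.pr a) (DP.pr a) (DQ.pr a)) incK (fun a => incK) DK fun a => ?_
      rw [hK a]
      exact (nat a).2.2.2.2.1.1
    rw [h1]
    exact (hVDC L _ _ n _ ι _ DK _).1 fun a => (hM a).2.1.2.2.2
  · exact hom _ _ (fun a => cmp (C := V) _ _ _ _ _ _ (nat a).2.2.2.2.2.1.1
      (nat a).2.2.2.2.2.1.2) (fun a => (hM a).2.2.1.1)
  · exact hom _ _ (fun a => cmp (C := V) _ _ _ _ _ _ (nat a).2.2.2.2.2.2.1.1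
      (nat a).2.2.2.2.2.2.1.2) (fun a => (hM a).2.2.1.2.1)
  · have h1 : (Dec.fsum DV DP DQ Ms).pull incI' = DI.sum (fun a => (Ms a).pull incI') := by
      refine FRD_pull (E := FE V P Q) Ms (fun a => mapE (DV.pr a) (DP.pr a) (DQ.pr a)) incI' (fun a => incI') DI fun a => ?_
      rw [hI a]
      exact (nat a).2.2.2.2.2.1.1
    rw [h1]
    exact (hVDC L _ _ n _ ι _ DI _).1 fun a => (hM a).2.2.1.2.2.1
  · have h1 : (Dec.fsum DV DP DQ Ms).pull incK' = DY.sum (fun a => (Ms a).pull incK') := by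
      refine FRD_pull (E := FE V P Q) Ms (fun a => mapE (DV.pr a) (DP.pr a) (DQ.pr a)) incK' (fun a => incK') DY fun a => ?_
      rw [hY a]
      exact (nat a).2.2.2.2.2.2.1.1
    rw [h1]
    exact (hVDC L _ _ n _ ι _ DY _).1 fun a => (hM a).2.2.1.2.2.2
  · intro c c'
    exact hom _ _ (fun a => cmp (C := V) _ _ _ _ _ _ ((nat a).2.2.2.2.2.2.2.2.2 c').1
      ((nat a).2.2.2.2.2.2.2.2.2 c).2) (fun a => (hM a).2.2.2.1 c c')
  · exact hom _ _ (fun a => cmp (C := V) _ _ _ _ _ _ (nat a).2.2.2.2.2.2.2.1.1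
      (nat a).2.2.2.2.2.2.2.1.2) (fun a => (hM a).2.2.2.2.1)
  · exact hom _ _ (fun a => cmp (C := V) _ _ _ _ _ _ (nat a).2.2.2.2.2.2.2.2.1.1
      (nat a).2.2.2.2.2.2.2.2.1.2) (fun a => (hM a).2.2.2.2.2)

end FRD

end Pool.NF
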