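import Pool.Agent.Work.MP_b103ef_pos.Interface2

/-!
# MP_b103ef_al: block FRP
-/

set_option autoImplicit false

open Classical

namespace Pool.NF

namespace FRPaux

variable {L : Type}

/-- `lift` and compositions -/
theorem lift_lift {J E F G : Type} [AddCommGroup E] [Module ℚ E] [AddCommGroup F] [Module ℚ F]
    [AddCommGroup G] [Module ℚ G] (f : E →ₗ[ℚ] F) (g : F →ₗ[ℚ] G) (v : J →₀ E) :
    lift g (lift f v) = lift (g.comp f) v := by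
  ext j; simp

/-- homomorphisms into the meet of two pullbacks -/
theorem homFP {S : Set L} {n : ℕ} {E E1 E2 : Type} [AddCommGroup E] [Module ℚ E]
    [AddCommGroup E1] [Module ℚ E1] [AddCommGroup E2] [Module ℚ E2]
    (M1 : Str L E1) (M2 : Str L E2) (F1 : E →ₗ[ℚ] E1) (F2 : E →ₗ[ℚ] E2)
    (e : E →ₗ[ℚ] E) (e1 : E1 →ₗ[ℚ] E1) (e2 : E2 →ₗ[ℚ] E2)
    (h1 : F1.comp e = e1.comp F1) (h2 : F2.comp e = e2.comp F2)
    (H1 : Str.Hom S n M1 M1 e1) (H2 : Str.Hom S n M2 M2 e2) :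
    Str.Hom S n ((M1.pull F1).inf2 (M2.pull F2)) ((M1.pull F1).inf2 (M2.pull F2)) e := by
  have k1 : ∀ v, F1 (e v) = e1 (F1 v) := fun v => by
    simpa using congrArg (fun f => f v) h1
  have k2 : ∀ v, F2 (e v) = e2 (F2 v) := fun v => by
    simpa using congrArg (fun f => f v) h2
  have K1 : ∀ v : Lab L →₀ E, lift F1 (lift e v) = lift e1 (lift F1 v) := fun v => by
    rw [lift_lift, lift_lift, h1]
  have K2 : ∀ v : Lab L →₀ E, lift F2 (lift e v) = lift e2 (lift F2 v) := fun v => by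
    rw [lift_lift, lift_lift, h2]
  refine ⟨fun i hi l v hv => ?_, fun Z hZ ψ v hv => ?_, fun σ hσ hS hr v hv => ?_⟩
  · obtain ⟨ha, hb⟩ := hv
    refine ⟨?_, ?_⟩
    · show F1 (e v) ∈ M1.x i l
      rw [k1]; exact H1.1 i hi l ha
    · show F2 (e v) ∈ M2.x i l
      rw [k2]; exact H2.1 i hi l hb
  · obtain ⟨ha, hb⟩ := hv
    refine ⟨?_, ?_⟩
    · show F1 (e v) ∈ M1.u Z ψ
      rw [k1]; exact H1.2.1 Z hZ ψ ha
    · show F2 (e v) ∈ M2.u Z ψ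
      rw [k2]; exact H2.2.1 Z hZ ψ hb
  · obtain ⟨ha, hb⟩ := hv
    refine ⟨?_, ?_⟩
    · show lift F1 (lift e v) ∈ M1.g σ
      rw [K1]; exact H1.2.2 σ hσ hS hr ha
    · show lift F2 (lift e v) ∈ M2.g σ
      rw [K2]; exact H2.2.2 σ hσ hS hr hb

/-- comparison of a pulled back meet with a direct sum -/
theorem pullFP {E E1 E2 G X1 X2 : Type} [AddCommGroup E] [Module ℚ E]
    [AddCommGroup E1] [Module ℚ E1] [AddCommGroup E2] [Module ℚ E2] [AddCommGroup G] [Module ℚ G]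
    [AddCommGroup X1] [Module ℚ X1] [AddCommGroup X2] [Module ℚ X2]
    (M1 : Str L E1) (M2 : Str L E2) (F1 : E →ₗ[ℚ] E1) (F2 : E →ₗ[ℚ] E2)
    (i : G →ₗ[ℚ] E) (i1 : X1 →ₗ[ℚ] E1) (i2 : X2 →ₗ[ℚ] E2)
    (p1 : G →ₗ[ℚ] X1) (p2 : G →ₗ[ℚ] X2)
    (h1 : F1.comp i = i1.comp p1) (h2 : F2.comp i = i2.comp p2) :
    ((M1.pull F1).inf2 (M2.pull F2)).pull i =
      ((M1.pull i1).prod (M2.pull i2)).pull (p1.prod p2) := by
  have k1 : ∀ v, F1 (i v) = i1 (p1 v) := fun v => by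
    simpa using congrArg (fun f => f v) h1
  have k2 : ∀ v, F2 (i v) = i2 (p2 v) := fun v => by
    simpa using congrArg (fun f => f v) h2
  have K1 : ∀ v : Lab L →₀ G, lift F1 (lift i v) =
      lift i1 (lift (LinearMap.fst ℚ X1 X2) (lift (p1.prod p2) v)) := fun v => by
    rw [lift_lift, lift_lift, lift_lift, h1, LinearMap.comp_assoc, LinearMap.fst_prod]
  have K2 : ∀ v : Lab L →₀ G, lift F2 (lift i v) =
      lift i2 (lift (LinearMap.snd ℚ X1 X2) (lift (p1.prod p2) v)) := fun v => by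
    rw [lift_lift, lift_lift, lift_lift, h2, LinearMap.comp_assoc, LinearMap.snd_prod]
  have hx : (((M1.pull F1).inf2 (M2.pull F2)).pull i).x =
      (((M1.pull i1).prod (M2.pull i2)).pull (p1.prod p2)).x := by
    funext a l
    ext v
    show (F1 (i v) ∈ M1.x a l ∧ F2 (i v) ∈ M2.x a l) ↔
      (i1 (p1 v) ∈ M1.x a l ∧ i2 (p2 v) ∈ M2.x a l)
    rw [k1, k2]
  have hu : (((M1.pull F1).inf2 (M2.pull F2)).pull i).u =
      (((M1.pull i1).prod (M2.pull i2)).pull (p1.prod p2)).u := by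
    funext a l
    ext v
    show (F1 (i v) ∈ M1.u a l ∧ F2 (i v) ∈ M2.u a l) ↔
      (i1 (p1 v) ∈ M1.u a l ∧ i2 (p2 v) ∈ M2.u a l)
    rw [k1, k2]
  have hg : (((M1.pull F1).inf2 (M2.pull F2)).pull i).g =
      (((M1.pull i1).prod (M2.pull i2)).pull (p1.prod p2)).g := by
    funext σ
    ext v
    show (lift F1 (lift i v) ∈ M1.g σ ∧ lift F2 (lift i v) ∈ M2.g σ) ↔
      (lift i1 (lift (LinearMap.fst ℚ X1 X2) (lift (p1.prod p2) v)) ∈ M1.g σ ∧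
        lift i2 (lift (LinearMap.snd ℚ X1 X2) (lift (p1.prod p2) v)) ∈ M2.g σ)
    rw [K1, K2]
  calc ((M1.pull F1).inf2 (M2.pull F2)).pull i
      = ⟨(((M1.pull F1).inf2 (M2.pull F2)).pull i).x, (((M1.pull F1).inf2 (M2.pull F2)).pull i).u,
          (((M1.pull F1).inf2 (M2.pull F2)).pull i).g⟩ := rfl
    _ = ⟨(((M1.pull i1).prod (M2.pull i2)).pull (p1.prod p2)).x,
          (((M1.pull i1).prod (M2.pull i2)).pull (p1.prod p2)).u,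
          (((M1.pull i1).prod (M2.pull i2)).pull (p1.prod p2)).g⟩ := by rw [hx, hu, hg]
    _ = ((M1.pull i1).prod (M2.pull i2)).pull (p1.prod p2) := rfl

/-- the vertex classes and pulled back meets -/
theorem vgFP (hP : Stmt_VPR) (hR : Stmt_VRT) {S : Set L} {ρ : L → V5} {n : ℕ}
    {E E1 E2 G X1 X2 : Type} [AddCommGroup E] [Module ℚ E]
    [AddCommGroup E1] [Module ℚ E1] [AddCommGroup E2] [Module ℚ E2] [AddCommGroup G] [Module ℚ G]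
    [AddCommGroup X1] [Module ℚ X1] [AddCommGroup X2] [Module ℚ X2]
    (M1 : Str L E1) (M2 : Str L E2) (F1 : E →ₗ[ℚ] E1) (F2 : E →ₗ[ℚ] E2)
    (i : G →ₗ[ℚ] E) (i1 : X1 →ₗ[ℚ] E1) (i2 : X2 →ₗ[ℚ] E2)
    (p1 : G →ₗ[ℚ] X1) (p2 : G →ₗ[ℚ] X2) (q : X1 × X2 →ₗ[ℚ] G)
    (h1 : F1.comp i = i1.comp p1) (h2 : F2.comp i = i2.comp p2)
    (hq : ∀ v, q (p1 v, p2 v) = v) (hq1 : ∀ w, p1 (q w) = w.1) (hq2 : ∀ w, p2 (q w) = w.2)
    (H1 : VG n S ρ X1 (M1.pull i1)) (H2 : VG n S ρ X2 (M2.pull i2)) :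
    VG n S ρ G (((M1.pull F1).inf2 (M2.pull F2)).pull i) := by
  rw [pullFP M1 M2 F1 F2 i i1 i2 p1 p2 h1 h2]
  have hpr := (hP L S ρ n X1 X2 (M1.pull i1) (M2.pull i2)).1 H1 H2
  refine hR L S ρ n (X1 × X2) G _ (p1.prod p2) q hq ?_ hpr
  have hid : (p1.prod p2).comp q = LinearMap.id := by
    apply LinearMap.ext
    intro w
    show (p1 (q w), p2 (q w)) = w
    rw [hq1, hq2]
  have hl : ∀ v : Lab L →₀ (X1 × X2), lift (LinearMap.id : X1 × X2 →ₗ[ℚ] X1 × X2) v = v :=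
    fun v => by ext j <;> simp
  rw [hid]
  refine ⟨fun i hi l v hv => hv, fun Z hZ ψ v hv => hv, fun σ hσ hS hr v hv => ?_⟩
  show lift (LinearMap.id : X1 × X2 →ₗ[ℚ] X1 × X2) v ∈
    ((M1.pull i1).prod (M2.pull i2)).g σ
  rw [hl]; exact hv

section

variable (V P V' P' : Type) [AddCommGroup V] [Module ℚ V] [AddCommGroup P] [Module ℚ P]
  [AddCommGroup V'] [Module ℚ V'] [AddCommGroup P'] [Module ℚ P']

/-- inverse for `𝕏` -/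
noncomputable def qX : FX V P × FX V' P' →ₗ[ℚ] FX (V × V') (P × P') :=
  (mapX (LinearMap.inl ℚ V V') (LinearMap.inl ℚ P P')).comp (LinearMap.fst ℚ _ _) +
    (mapX (LinearMap.inr ℚ V V') (LinearMap.inr ℚ P P')).comp (LinearMap.snd ℚ _ _)

/-- inverse for `𝕐` -/
noncomputable def qY : FY V P × FY V' P' →ₗ[ℚ] FY (V × V') (P × P') :=
  (mapY (LinearMap.inl ℚ V V') (LinearMap.inl ℚ P P')).comp (LinearMap.fst ℚ _ _) +
    (mapY (LinearMap.inr ℚ V V') (LinearMap.inr ℚ P P')).comp (LinearMap.snd ℚ _ _)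

theorem qX_p (v : FX (V × V') (P × P')) :
    qX V P V' P' (mapX (LinearMap.fst ℚ V V') (LinearMap.fst ℚ P P') v,
      mapX (LinearMap.snd ℚ V V') (LinearMap.snd ℚ P P') v) = v := by
  obtain ⟨a, b, c⟩ := v
  refine Prod.ext ?_ (Prod.ext ?_ ?_)
  · ext j <;> simp [qX, mapX]
  · ext j <;> simp [qX, mapX]
  · simp [qX, mapX]

theorem p1_qX (w : FX V P × FX V' P') :
    mapX (LinearMap.fst ℚ V V') (LinearMap.fst ℚ P P') (qX V P V' P' w) = w.1 := by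
  obtain ⟨⟨a, b, c⟩, ⟨a', b', c'⟩⟩ := w
  refine Prod.ext ?_ (Prod.ext ?_ ?_)
  · ext j; simp [qX, mapX]
  · ext j; simp [qX, mapX]
  · simp [qX, mapX]

theorem p2_qX (w : FX V P × FX V' P') :
    mapX (LinearMap.snd ℚ V V') (LinearMap.snd ℚ P P') (qX V P V' P' w) = w.2 := by
  obtain ⟨⟨a, b, c⟩, ⟨a', b', c'⟩⟩ := w
  refine Prod.ext ?_ (Prod.ext ?_ ?_)
  · ext j; simp [qX, mapX]
  · ext j; simp [qX, mapX]
  · simp [qX, mapX]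

theorem qY_p (v : FY (V × V') (P × P')) :
    qY V P V' P' (mapY (LinearMap.fst ℚ V V') (LinearMap.fst ℚ P P') v,
      mapY (LinearMap.snd ℚ V V') (LinearMap.snd ℚ P P') v) = v := by
  obtain ⟨a, c⟩ := v
  refine Prod.ext ?_ ?_
  · ext j <;> simp [qY, mapY]
  · simp [qY, mapY]

theorem p1_qY (w : FY V P × FY V' P') :
    mapY (LinearMap.fst ℚ V V') (LinearMap.fst ℚ P P') (qY V P V' P' w) = w.1 := by
  obtain ⟨⟨a, c⟩, ⟨a', c'⟩⟩ := w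
  refine Prod.ext ?_ ?_
  · ext j; simp [qY, mapY]
  · simp [qY, mapY]

theorem p2_qY (w : FY V P × FY V' P') :
    mapY (LinearMap.snd ℚ V V') (LinearMap.snd ℚ P P') (qY V P V' P' w) = w.2 := by
  obtain ⟨⟨a, c⟩, ⟨a', c'⟩⟩ := w
  refine Prod.ext ?_ ?_
  · ext j; simp [qY, mapY]
  · simp [qY, mapY]

end

end FRPaux

open FRPaux in
/-- block FRP -/
theorem blk_FRP (hN : Stmt_NAT) (hP : Stmt_VPR) (hR : Stmt_VRT) : Stmt_FRP := by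
  intro L S φ n V P Q V' P' Q' _ _ _ _ _ _ _ _ _ _ _ _ M M' hM hM'
  obtain ⟨⟨nX, nX'⟩, ⟨nV, nV'⟩, ⟨nY, nY'⟩, ⟨nI, nI'⟩, ⟨nK, nK'⟩, ⟨nI2, nI2'⟩, ⟨nK2, nK2'⟩,
    ⟨nP, nP'⟩, ⟨nQ, nQ'⟩, nC⟩ := hN (V × V') (P × P') (Q × Q') V P Q
      (LinearMap.fst ℚ V V') (LinearMap.fst ℚ P P') (LinearMap.fst ℚ Q Q')
  obtain ⟨⟨mX, mX'⟩, ⟨mV, mV'⟩, ⟨mY, mY'⟩, ⟨mI, mI'⟩, ⟨mK, mK'⟩, ⟨mI2, mI2'⟩, ⟨mK2, mK2'⟩,
    ⟨mP, mP'⟩, ⟨mQ, mQ'⟩, mC⟩ := hN (V × V') (P × P') (Q × Q') V' P' Q'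
      (LinearMap.snd ℚ V V') (LinearMap.snd ℚ P P') (LinearMap.snd ℚ Q Q')
  obtain ⟨⟨a1, a2, a3, a4, a5, a6⟩, ⟨b1, b2, b3, b4⟩, ⟨c1, c2, c3, c4⟩, ⟨d1, d2, d3⟩⟩ := hM
  obtain ⟨⟨a1', a2', a3', a4', a5', a6'⟩, ⟨b1', b2', b3', b4'⟩, ⟨c1', c2', c3', c4'⟩,
    ⟨d1', d2', d3'⟩⟩ := hM'
  -- commutation with the idempotents
  have com : ∀ {A B A' B' : Type} [AddCommGroup A] [Module ℚ A] [AddCommGroup B] [Module ℚ B]
      [AddCommGroup A'] [Module ℚ A'] [AddCommGroup B'] [Module ℚ B']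
      (F : A →ₗ[ℚ] A') (f : B →ₗ[ℚ] B') (i : B →ₗ[ℚ] A) (i' : B' →ₗ[ℚ] A')
      (p : A →ₗ[ℚ] B) (p' : A' →ₗ[ℚ] B'), F.comp i = i'.comp f → p'.comp F = f.comp p →
      F.comp (i.comp p) = (i'.comp p').comp F := by
    intro A B A' B' _ _ _ _ _ _ _ _ F f i i' p p' h1 h2
    rw [← LinearMap.comp_assoc, h1, LinearMap.comp_assoc, ← h2, LinearMap.comp_assoc]
  refine ⟨⟨?_, ?_, ?_, ?_, ?_, ?_⟩, ⟨?_, ?_, ?_, ?_⟩, ⟨?_, ?_, ?_, ?_⟩, ⟨?_, ?_, ?_⟩⟩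
  · exact homFP M M' _ _ _ _ _ (com _ _ _ _ _ _ nX nX') (com _ _ _ _ _ _ mX mX') a1 a1'
  · exact homFP M M' _ _ _ _ _ (com _ _ _ _ _ _ nV nV') (com _ _ _ _ _ _ mV mV') a2 a2'
  · exact homFP M M' _ _ _ _ _ (com _ _ _ _ _ _ nY nY') (com _ _ _ _ _ _ mY mY') a3 a3'
  · exact vgFP hP hR M M' _ _ _ _ _ _ _ (qX V P V' P') nX mX (qX_p V P V' P')
      (p1_qX V P V' P') (p2_qX V P V' P') a4 a4'
  · exact vgFP hP hR M M' _ _ _ _ _ _ _ LinearMap.id nV mV (fun v => rfl)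
      (fun w => rfl) (fun w => rfl) a5 a5'
  · exact vgFP hP hR M M' _ _ _ _ _ _ _ (qY V Q V' Q') nY mY (qY_p V Q V' Q')
      (p1_qY V Q V' Q') (p2_qY V Q V' Q') a6 a6'
  · exact homFP M M' _ _ _ _ _ (com _ _ _ _ _ _ nI nI') (com _ _ _ _ _ _ mI mI') b1 b1'
  · exact homFP M M' _ _ _ _ _ (com _ _ _ _ _ _ nK nK') (com _ _ _ _ _ _ mK mK') b2 b2'
  · exact vgFP hP hR M M' _ _ _ _ _ _ _ (qX V P V' P') nI mI (qX_p V P V' P')
      (p1_qX V P V' P') (p2_qX V P V' P') b3 b3'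
  · refine vgFP hP hR M M' _ _ _ _ _ _ _
      ((LinearMap.prodMap (LinearMap.fst ℚ V (FY V Q)) (LinearMap.fst ℚ V' (FY V' Q'))).prod
        ((qY V Q V' Q').comp
          (LinearMap.prodMap (LinearMap.snd ℚ V (FY V Q)) (LinearMap.snd ℚ V' (FY V' Q')))))
      nK mK ?_ ?_ ?_ b4 b4'
    · rintro ⟨a, y⟩
      refine Prod.ext rfl ?_
      exact qY_p V Q V' Q' y
    · rintro ⟨⟨a, y⟩, ⟨a', y'⟩⟩
      refine Prod.ext rfl ?_
      exact p1_qY V Q V' Q' (y, y')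
    · rintro ⟨⟨a, y⟩, ⟨a', y'⟩⟩
      refine Prod.ext rfl ?_
      exact p2_qY V Q V' Q' (y, y')
  · exact homFP M M' _ _ _ _ _ (com _ _ _ _ _ _ nI2 nI2') (com _ _ _ _ _ _ mI2 mI2') c1 c1'
  · exact homFP M M' _ _ _ _ _ (com _ _ _ _ _ _ nK2 nK2') (com _ _ _ _ _ _ mK2 mK2') c2 c2'
  · refine vgFP hP hR M M' _ _ _ _ _ _ _
      (((qX V P V' P').comp
          (LinearMap.prodMap (LinearMap.fst ℚ (FX V P) V) (LinearMap.fst ℚ (FX V' P') V'))).prod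
        (LinearMap.prodMap (LinearMap.snd ℚ (FX V P) V) (LinearMap.snd ℚ (FX V' P') V')))
      nI2 mI2 ?_ ?_ ?_ c3 c3'
    · rintro ⟨x, a⟩
      refine Prod.ext ?_ rfl
      exact qX_p V P V' P' x
    · rintro ⟨⟨x, a⟩, ⟨x', a'⟩⟩
      refine Prod.ext ?_ rfl
      exact p1_qX V P V' P' (x, x')
    · rintro ⟨⟨x, a⟩, ⟨x', a'⟩⟩
      refine Prod.ext ?_ rfl
      exact p2_qX V P V' P' (x, x')
  · exact vgFP hP hR M M' _ _ _ _ _ _ _ (qY V Q V' Q') nK2 mK2 (qY_p V Q V' Q')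
      (p1_qY V Q V' Q') (p2_qY V Q V' Q') c4 c4'
  · intro c c'
    have k1 : (mapE (LinearMap.fst ℚ V V') (LinearMap.fst ℚ P P') (LinearMap.fst ℚ Q Q')).comp
        ((incC c').comp (prC c)) = ((incC c').comp (prC c)).comp
          (mapE (LinearMap.fst ℚ V V') (LinearMap.fst ℚ P P') (LinearMap.fst ℚ Q Q')) :=
      com _ _ _ _ _ _ (nC c').1 (nC c).2
    have k2 : (mapE (LinearMap.snd ℚ V V') (LinearMap.snd ℚ P P') (LinearMap.snd ℚ Q Q')).comp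
        ((incC c').comp (prC c)) = ((incC c').comp (prC c)).comp
          (mapE (LinearMap.snd ℚ V V') (LinearMap.snd ℚ P P') (LinearMap.snd ℚ Q Q')) :=
      com _ _ _ _ _ _ (mC c').1 (mC c).2
    exact homFP M M' _ _ _ _ _ k1 k2 (d1 c c') (d1' c c')
  · exact homFP M M' _ _ _ _ _ (com _ _ _ _ _ _ nP nP') (com _ _ _ _ _ _ mP mP') d2 d2'
  · exact homFP M M' _ _ _ _ _ (com _ _ _ _ _ _ nQ nQ') (com _ _ _ _ _ _ mQ mQ') d3 d3'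

end Pool.NF
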