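import Pool.Agent.Work.MP_b103ef_pos.Interface2

set_option autoImplicit false

open Classical

namespace Pool.NF

theorem blk_HXD (hE : Stmt_EDEC) (hD : Stmt_DSM) (hO : Stmt_OVR) : Stmt_HXD := by
  intro L φ n E ι _ _ F _ _ D Ms σ Γ hσ h
  cases σ with
  | base F g => trivial
  | inf α β => trivial
  | sup α β => trivial
  | lk Z r j α β =>
    intro hit
    obtain ⟨hZ, hα, hβ, hj⟩ := hσ
    have hαu : α.Over Set.univ := (hO L α).2.1 _ _ (Set.subset_univ _) hα
    have hβu : β.Over Set.univ := (hO L β).2.1 _ _ (Set.subset_univ _) hβ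
    have hEv := fun G => (hE L E ι F D Ms G).2.1
    obtain ⟨hD1, -, hD3⟩ := hD (Lab L) E ι F D
    have h1 : Tm.Over (Tm.T1 Z r j) (Set.univ : Set L) := fun _ _ =>
      ⟨⟨Set.mem_univ _, Set.mem_univ _⟩, Set.subset_univ _⟩
    have h0 : Tm.Over (Tm.T0 Z r j) (Set.univ : Set L) := fun _ _ =>
      ⟨⟨Set.mem_univ _, Set.mem_univ _⟩, Set.subset_univ _⟩
    refine ⟨fun hL => ?_, fun hL => ?_⟩
    · have hI := fun a => (h a hit).1 hL
      rw [hEv _ _ hαu, hEv _ _ hβu, hEv _ _ h1, hEv _ _ h0, (hD1 _ _).2.1]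
      refine ⟨?_, ?_⟩
      · rw [(hD1 _ _).1, (hD1 _ _).2.1, (hD1 _ _).1]
        exact iInf_congr fun a => by rw [(hI a).1]
      · rw [(hD1 _ _).1, (hD1 _ _).1]
        exact iInf_congr fun a => by rw [(hI a).2]
    · have hI := fun a => (h a hit).2 hL
      rw [← hD3]
      exact iInf_congr fun a => by rw [hI a]
  | ek Z ψ j α β =>
    intro hit
    obtain ⟨hZ, hα, hβ, hj⟩ := hσ
    have hαu : α.Over Set.univ := (hO L α).2.1 _ _ (Set.subset_univ _) hα
    have hβu : β.Over Set.univ := (hO L β).2.1 _ _ (Set.subset_univ _) hβ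
    have hEv := fun G => (hE L E ι F D Ms G).2.1
    obtain ⟨hD1, -, -⟩ := hD (Lab L) E ι F D
    have h1 : Tm.Over (Tm.U1 Z ψ j) (Set.univ : Set L) := fun _ _ =>
      ⟨⟨Set.mem_univ _, Set.mem_univ _⟩, Set.subset_univ _⟩
    have h0 : Tm.Over (Tm.bot : Tm L) (Set.univ : Set L) := fun j hj => by
      simp at hj
    refine ⟨fun hL hq => ?_, fun hL => ?_⟩
    · have hI := fun a => (h a hit).1 hL hq
      rw [hEv _ _ hαu, hEv _ _ hβu, hEv _ _ h1, hEv _ _ h0, (hD1 _ _).2.1]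
      refine ⟨⟨?_, ?_⟩, ?_, fun hV => ?_⟩
      · rw [(hD1 _ _).1, (hD1 _ _).2.1, (hD1 _ _).1]
        exact iInf_congr fun a => by rw [(hI a).1.1]
      · rw [(hD1 _ _).1, (hD1 _ _).1]
        exact iInf_congr fun a => by rw [(hI a).1.2]
      · rw [(hD1 _ _).1, (hD1 _ _).1]
        exact iInf_congr fun a => by rw [(hI a).2.1]
      · rw [(hD1 _ _).2.1]
        exact iInf_congr fun a => by rw [(hI a).2.2 hV]
    · have hI := fun a => (h a hit).2 hL
      rw [hEv _ _ hαu]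
      exact iInf_congr fun a => by rw [hI a]

end Pool.NF
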