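import Pool.Agent.Work.MP_b103ef_pos.Interface2

/-!
# MP_b103ef_al: block HXP (sums of two frame structures)
-/

set_option autoImplicit false

open Classical

namespace Pool.NF

/-! ## Sums of two modules, abstractly -/

section HXPabs

variable {W W1 W2 : Type} [AddCommGroup W] [Module ℚ W] [AddCommGroup W1] [Module ℚ W1]
  [AddCommGroup W2] [Module ℚ W2]

/-- a decomposition into two summands -/
structure HXPD (I1 : W1 →ₗ[ℚ] W) (P1 : W →ₗ[ℚ] W1) (I2 : W2 →ₗ[ℚ] W) (P2 : W →ₗ[ℚ] W2) :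
    Prop where
  h11 : ∀ v, P1 (I1 v) = v
  h12 : ∀ v, P1 (I2 v) = 0
  h21 : ∀ v, P2 (I1 v) = 0
  h22 : ∀ v, P2 (I2 v) = v
  hs : ∀ v, I1 (P1 v) + I2 (P2 v) = v

variable {I1 : W1 →ₗ[ℚ] W} {P1 : W →ₗ[ℚ] W1} {I2 : W2 →ₗ[ℚ] W} {P2 : W →ₗ[ℚ] W2}

theorem HXP_lift (D : HXPD I1 P1 I2 P2) (J : Type) :
    HXPD (lift (J := J) I1) (lift P1) (lift I2) (lift P2) where
  h11 v := by ext j; simp [D.h11]
  h12 v := by ext j; simp [D.h12]
  h21 v := by ext j; simp [D.h21]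
  h22 v := by ext j; simp [D.h22]
  hs v := by ext j; simp [D.hs]

theorem HXP_sup (D : HXPD I1 P1 I2 P2) (U X : Submodule ℚ W1) (U' X' : Submodule ℚ W2) :
    (U.comap P1 ⊓ U'.comap P2) ⊔ (X.comap P1 ⊓ X'.comap P2) =
      (U ⊔ X).comap P1 ⊓ (U' ⊔ X').comap P2 := by
  refine le_antisymm (sup_le (inf_le_inf (Submodule.comap_mono le_sup_left)
    (Submodule.comap_mono le_sup_left)) (inf_le_inf (Submodule.comap_mono le_sup_right)
    (Submodule.comap_mono le_sup_right))) ?_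
  rintro v ⟨h1, h2⟩
  obtain ⟨a, ha, b, hb, h3⟩ := Submodule.mem_sup.1 (Submodule.mem_comap.1 h1)
  obtain ⟨a', ha', b', hb', h4⟩ := Submodule.mem_sup.1 (Submodule.mem_comap.1 h2)
  have h5 : v = (I1 a + I2 a') + (I1 b + I2 b') := by
    rw [← D.hs v, ← h3, ← h4, map_add, map_add]
    abel
  rw [h5]
  refine Submodule.add_mem_sup ⟨?_, ?_⟩ ⟨?_, ?_⟩
  · show P1 (I1 a + I2 a') ∈ U
    rw [map_add, D.h11, D.h12, add_zero]; exact ha
  · show P2 (I1 a + I2 a') ∈ U'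
    rw [map_add, D.h21, D.h22, zero_add]; exact ha'
  · show P1 (I1 b + I2 b') ∈ X
    rw [map_add, D.h11, D.h12, add_zero]; exact hb
  · show P2 (I1 b + I2 b') ∈ X'
    rw [map_add, D.h21, D.h22, zero_add]; exact hb'

theorem HXP_inf (U X : Submodule ℚ W1) (U' X' : Submodule ℚ W2) :
    (U.comap P1 ⊓ U'.comap P2) ⊓ (X.comap P1 ⊓ X'.comap P2) =
      (U ⊓ X).comap P1 ⊓ (U' ⊓ X').comap P2 := by
  rw [Submodule.comap_inf, Submodule.comap_inf]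
  exact inf_inf_inf_comm _ _ _ _

theorem HXP_bot (D : HXPD I1 P1 I2 P2) :
    ((⊥ : Submodule ℚ W1).comap P1 ⊓ (⊥ : Submodule ℚ W2).comap P2) = ⊥ := by
  rw [eq_bot_iff]
  rintro v ⟨h1, h2⟩
  have h3 : P1 v = 0 := h1
  have h4 : P2 v = 0 := h2
  rw [Submodule.mem_bot, ← D.hs v, h3, h4, map_zero, map_zero, add_zero]

end HXPabs

section HXPfr

variable {V P Q V' P' Q' : Type} [AddCommGroup V] [Module ℚ V] [AddCommGroup P] [Module ℚ P]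
  [AddCommGroup Q] [Module ℚ Q] [AddCommGroup V'] [Module ℚ V'] [AddCommGroup P'] [Module ℚ P']
  [AddCommGroup Q'] [Module ℚ Q']

theorem HXP_fr : HXPD (mapE (LinearMap.inl ℚ V V') (LinearMap.inl ℚ P P') (LinearMap.inl ℚ Q Q'))
    (mapE (LinearMap.fst ℚ V V') (LinearMap.fst ℚ P P') (LinearMap.fst ℚ Q Q'))
    (mapE (LinearMap.inr ℚ V V') (LinearMap.inr ℚ P P') (LinearMap.inr ℚ Q Q'))
    (mapE (LinearMap.snd ℚ V V') (LinearMap.snd ℚ P P') (LinearMap.snd ℚ Q Q')) where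
  h11 := by
    rintro ⟨⟨T, R, w⟩, z, y, q⟩
    refine Prod.ext (Prod.ext ?_ (Prod.ext ?_ rfl)) (Prod.ext rfl (Prod.ext ?_ rfl)) <;>
    · ext n; simp [mapE, mapX, mapY]
  h12 := by
    rintro ⟨⟨T, R, w⟩, z, y, q⟩
    refine Prod.ext (Prod.ext ?_ (Prod.ext ?_ rfl)) (Prod.ext rfl (Prod.ext ?_ rfl)) <;>
    · ext n; simp [mapE, mapX, mapY]
  h21 := by
    rintro ⟨⟨T, R, w⟩, z, y, q⟩
    refine Prod.ext (Prod.ext ?_ (Prod.ext ?_ rfl)) (Prod.ext rfl (Prod.ext ?_ rfl)) <;>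
    · ext n; simp [mapE, mapX, mapY]
  h22 := by
    rintro ⟨⟨T, R, w⟩, z, y, q⟩
    refine Prod.ext (Prod.ext ?_ (Prod.ext ?_ rfl)) (Prod.ext rfl (Prod.ext ?_ rfl)) <;>
    · ext n; simp [mapE, mapX, mapY]
  hs := by
    rintro ⟨⟨T, R, w⟩, z, y, q⟩
    refine Prod.ext (Prod.ext ?_ (Prod.ext ?_ ?_)) (Prod.ext ?_ (Prod.ext ?_ ?_))
    · ext n <;> simp [mapE, mapX, mapY]
    · ext n <;> simp [mapE, mapX, mapY]
    · ext <;> simp [mapE, mapX, mapY]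
    · ext <;> simp [mapE, mapX, mapY]
    · ext n <;> simp [mapE, mapX, mapY]
    · ext <;> simp [mapE, mapX, mapY]

end HXPfr

/-! ## Sums of two structures, abstractly -/

section HXPstr

variable {L W W1 W2 : Type} [AddCommGroup W] [Module ℚ W] [AddCommGroup W1] [Module ℚ W1]
  [AddCommGroup W2] [Module ℚ W2]
variable {I1 : W1 →ₗ[ℚ] W} {P1 : W →ₗ[ℚ] W1} {I2 : W2 →ₗ[ℚ] W} {P2 : W →ₗ[ℚ] W2}

theorem HXP_i1 (D : HXPD I1 P1 I2 P2) (M : Str L W1) (M' : Str L W2) (n : ℕ) :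
    Str.Hom Set.univ n M ((M.pull P1).inf2 (M'.pull P2)) I1 := by
  refine ⟨fun i _ l v hv => ⟨?_, ?_⟩, fun Z _ ψ v hv => ⟨?_, ?_⟩, fun σ _ _ _ v hv => ⟨?_, ?_⟩⟩
  · show P1 (I1 v) ∈ M.x i l
    rw [D.h11]; exact hv
  · show P2 (I1 v) ∈ M'.x i l
    rw [D.h21]; exact zero_mem _
  · show P1 (I1 v) ∈ M.u Z ψ
    rw [D.h11]; exact hv
  · show P2 (I1 v) ∈ M'.u Z ψ
    rw [D.h21]; exact zero_mem _
  · show lift P1 (lift I1 v) ∈ M.g σ
    rw [(HXP_lift D _).h11]; exact hv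
  · show lift P2 (lift I1 v) ∈ M'.g σ
    rw [(HXP_lift D _).h21]; exact zero_mem _

theorem HXP_i2 (D : HXPD I1 P1 I2 P2) (M : Str L W1) (M' : Str L W2) (n : ℕ) :
    Str.Hom Set.univ n M' ((M.pull P1).inf2 (M'.pull P2)) I2 := by
  refine ⟨fun i _ l v hv => ⟨?_, ?_⟩, fun Z _ ψ v hv => ⟨?_, ?_⟩, fun σ _ _ _ v hv => ⟨?_, ?_⟩⟩
  · show P1 (I2 v) ∈ M.x i l
    rw [D.h12]; exact zero_mem _
  · show P2 (I2 v) ∈ M'.x i l
    rw [D.h22]; exact hv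
  · show P1 (I2 v) ∈ M.u Z ψ
    rw [D.h12]; exact zero_mem _
  · show P2 (I2 v) ∈ M'.u Z ψ
    rw [D.h22]; exact hv
  · show lift P1 (lift I2 v) ∈ M.g σ
    rw [(HXP_lift D _).h12]; exact zero_mem _
  · show lift P2 (lift I2 v) ∈ M'.g σ
    rw [(HXP_lift D _).h22]; exact hv

theorem HXP_p1 (M : Str L W1) (M' : Str L W2) (n : ℕ) :
    Str.Hom Set.univ n ((M.pull P1).inf2 (M'.pull P2)) M P1 :=
  ⟨fun _ _ _ _ hv => hv.1, fun _ _ _ _ hv => hv.1, fun _ _ _ _ _ hv => hv.1⟩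

theorem HXP_p2 (M : Str L W1) (M' : Str L W2) (n : ℕ) :
    Str.Hom Set.univ n ((M.pull P1).inf2 (M'.pull P2)) M' P2 :=
  ⟨fun _ _ _ _ hv => hv.2, fun _ _ _ _ hv => hv.2, fun _ _ _ _ _ hv => hv.2⟩

theorem HXP_ev (h1 : Stmt_EVH) (D : HXPD I1 P1 I2 P2) (M : Str L W1) (M' : Str L W2)
    (G : Finset (Lab L)) (α : Tm L) (hα : α.Over Set.univ) :
    ((M.pull P1).inf2 (M'.pull P2)).ev G α =
      (M.ev G α).comap (lift P1) ⊓ (M'.ev G α).comap (lift P2) := by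
  have hG : ∀ j ∈ G, LOver (Set.univ : Set L) j := fun _ _ => ⟨Set.mem_univ _, Set.mem_univ _⟩
  refine le_antisymm (le_inf
    (((h1 L Set.univ α.rank W W1 _ M _ (HXP_p1 M M' _)).2.2 G hG).2.2 α hα le_rfl)
    (((h1 L Set.univ α.rank W W2 _ M' _ (HXP_p2 M M' _)).2.2 G hG).2.2 α hα le_rfl)) ?_
  rintro v ⟨hv1, hv2⟩
  rw [← (HXP_lift D _).hs v]
  exact add_mem
    (((h1 L Set.univ α.rank W1 W M _ _ (HXP_i1 D M M' _)).2.2 G hG).2.2 α hα le_rfl hv1)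
    (((h1 L Set.univ α.rank W2 W M' _ _ (HXP_i2 D M M' _)).2.2 G hG).2.2 α hα le_rfl hv2)

theorem HXP_le (h1 : Stmt_EVH) (D : HXPD I1 P1 I2 P2) (M : Str L W1) (M' : Str L W2)
    (α β : Tm L) (hα : α.Over Set.univ) (hβ : β.Over Set.univ) :
    ((M.pull P1).inf2 (M'.pull P2)).Le α β ↔ M.Le α β ∧ M'.Le α β := by
  have D' := HXP_lift D (Lab L)
  show (((M.pull P1).inf2 (M'.pull P2)).ev _ α ≤ ((M.pull P1).inf2 (M'.pull P2)).ev _ β) ↔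
    (M.ev _ α ≤ M.ev _ β ∧ M'.ev _ α ≤ M'.ev _ β)
  rw [HXP_ev h1 D M M' _ α hα, HXP_ev h1 D M M' _ β hβ]
  constructor
  · intro h
    refine ⟨fun v hv => ?_, fun v hv => ?_⟩
    · have h3 := (h (x := lift I1 v) ⟨by
        show lift P1 (lift I1 v) ∈ M.ev (α.vars ∪ β.vars) α
        rw [D'.h11]; exact hv, by
        show lift P2 (lift I1 v) ∈ M'.ev (α.vars ∪ β.vars) α
        rw [D'.h21]; exact zero_mem _⟩).1
      have h4 : lift P1 (lift I1 v) ∈ M.ev (α.vars ∪ β.vars) β := h3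
      rwa [D'.h11] at h4
    · have h3 := (h (x := lift I2 v) ⟨by
        show lift P1 (lift I2 v) ∈ M.ev (α.vars ∪ β.vars) α
        rw [D'.h12]; exact zero_mem _, by
        show lift P2 (lift I2 v) ∈ M'.ev (α.vars ∪ β.vars) α
        rw [D'.h22]; exact hv⟩).2
      have h4 : lift P2 (lift I2 v) ∈ M'.ev (α.vars ∪ β.vars) β := h3
      rwa [D'.h22] at h4
  · rintro ⟨h, h'⟩
    exact inf_le_inf (Submodule.comap_mono h) (Submodule.comap_mono h')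

theorem HXP_ax (h1 : Stmt_EVH) (hO : Stmt_OVR) (D : HXPD I1 P1 I2 P2) (PV : VCls L)
    (PE : ECls L) (φ : L → V5) (M : Str L W1) (M' : Str L W2) (σ : Tm L)
    (Γ : Submodule ℚ (Lab L →₀ W1)) (Γ' : Submodule ℚ (Lab L →₀ W2)) (hσ : σ.Over Set.univ)
    (h : HAx PV PE φ M σ Γ) (h' : HAx PV PE φ M' σ Γ') :
    HAx PV PE φ ((M.pull P1).inf2 (M'.pull P2)) σ
      (Γ.comap (lift P1) ⊓ Γ'.comap (lift P2)) := by
  have D' := HXP_lift D (Lab L)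
  cases σ with
  | base F g => trivial
  | inf α β => trivial
  | sup α β => trivial
  | lk Z r j α β =>
    obtain ⟨hZ, hα, hβ, hj⟩ := hσ
    have hαu : α.Over Set.univ := (hO L α).2.1 _ _ (Set.subset_univ _) hα
    have hβu : β.Over Set.univ := (hO L β).2.1 _ _ (Set.subset_univ _) hβ
    have hT1 : Tm.Over (Tm.T1 Z r j) (Set.univ : Set L) := fun _ _ =>
      ⟨⟨Set.mem_univ _, Set.mem_univ _⟩, Set.subset_univ _⟩
    have hT0 : Tm.Over (Tm.T0 Z r j) (Set.univ : Set L) := fun _ _ =>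
      ⟨⟨Set.mem_univ _, Set.mem_univ _⟩, Set.subset_univ _⟩
    intro hH
    refine ⟨fun hL => ?_, fun hL => ?_⟩
    · have hI := (h hH).1 hL
      have hI' := (h' hH).1 hL
      rw [HXP_ev h1 D M M' _ _ hαu, HXP_ev h1 D M M' _ _ hβu, HXP_ev h1 D M M' _ _ hT1,
        HXP_ev h1 D M M' _ _ hT0]
      refine ⟨?_, ?_⟩
      · rw [HXP_sup D', HXP_inf, HXP_inf, HXP_sup D', hI.1, hI'.1]
      · rw [HXP_sup D', HXP_sup D', hI.2, hI'.2]
    · rw [(h hH).2 hL, (h' hH).2 hL]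
      exact HXP_bot D'
  | ek Z ψ j α β =>
    obtain ⟨hZ, hα, hβ, hj⟩ := hσ
    have hαu : α.Over Set.univ := (hO L α).2.1 _ _ (Set.subset_univ _) hα
    have hβu : β.Over Set.univ := (hO L β).2.1 _ _ (Set.subset_univ _) hβ
    have hU : Tm.Over (Tm.U1 Z ψ j) (Set.univ : Set L) := fun _ _ =>
      ⟨⟨Set.mem_univ _, Set.mem_univ _⟩, Set.subset_univ _⟩
    have hB : Tm.Over (Tm.bot : Tm L) (Set.univ : Set L) := fun _ h => absurd h (by simp)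
    intro hH
    refine ⟨fun hL hE => ?_, fun hL => ?_⟩
    · have hI := (h hH).1 hL hE
      have hI' := (h' hH).1 hL hE
      rw [HXP_ev h1 D M M' _ _ hαu, HXP_ev h1 D M M' _ _ hβu, HXP_ev h1 D M M' _ _ hU,
        HXP_ev h1 D M M' _ _ hB]
      refine ⟨⟨?_, ?_⟩, ?_, fun hV => ?_⟩
      · rw [HXP_inf, HXP_sup D', HXP_inf, HXP_sup D', hI.1.1, hI'.1.1]
      · rw [HXP_sup D', HXP_sup D', hI.1.2, hI'.1.2]
      · rw [HXP_sup D', HXP_sup D', hI.2.1, hI'.2.1]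
      · rw [HXP_inf, HXP_inf, hI.2.2 hV, hI'.2.2 hV]
    · rw [(h hH).2 hL, (h' hH).2 hL, HXP_ev h1 D M M' _ _ hαu]

end HXPstr

theorem blk_HXP (h1 : Stmt_EVH) (h2 : Stmt_OVR) : Stmt_HXP := by
  intro L φ V P Q V' P' Q' _ _ _ _ _ _ _ _ _ _ _ _ M M'
  refine ⟨fun n => ⟨HXP_i1 HXP_fr M M' n, HXP_p1 M M' n, HXP_i2 HXP_fr M M' n, HXP_p2 M M' n⟩,
    fun G α hα => HXP_ev h1 HXP_fr M M' G α hα,
    fun α β hα hβ => HXP_le h1 HXP_fr M M' α β hα hβ, fun n σ Γ Γ' hσ h h' =>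
    HXP_ax h1 h2 HXP_fr (VG n) (EG n) φ M M' σ Γ Γ' hσ h h'⟩

end Pool.NF
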