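import Pool.Agent.Work.MP_b103ef_pos.Interface1

set_option autoImplicit false

open Classical

namespace Pool.NF

theorem INV_lift_add {J E : Type} [AddCommGroup E] [Module ℚ E] (e f : E →ₗ[ℚ] E)
    (hef : ∀ v, e v + f v = v) (v : J →₀ E) : lift e v + lift f v = v := by
  ext j
  simp [hef]

theorem INV_key {J E : Type} [AddCommGroup E] [Module ℚ E]
    {t' t b' al Ga : Submodule ℚ (J →₀ E)} {e : E →ₗ[ℚ] E} (h : MAP t' t b' al Ga)
    (h1 : t ≤ t'.comap (lift e)) (h2 : al ≤ b'.comap (lift e)) {g : J →₀ E} (hg : g ∈ Ga) :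
    lift e g ∈ Ga := by
  have hbt : b' ⊔ t' ≤ Ga := by rw [← h.1]; exact inf_le_left
  have hg' : g ∈ al ⊔ t := by
    rw [← h.2]; exact Submodule.mem_sup_left hg
  obtain ⟨a, ha, x, hx, rfl⟩ := Submodule.mem_sup.1 hg'
  rw [map_add]
  exact hbt (Submodule.add_mem_sup (h2 ha) (h1 hx))

theorem blk_INV : Stmt_INV := by
  intro J E _ _ t' t b' al Ga e f hef h h1 h2
  have key : Inv Ga e := fun g hg => INV_key h.1 h1 h2 hg
  refine ⟨key, fun g hg => ?_⟩
  have : lift f g = g - lift e g := by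
    rw [eq_sub_iff_add_eq, add_comm]
    exact INV_lift_add e f hef g
  rw [Submodule.mem_comap, this]
  exact Ga.sub_mem hg (key hg)

end Pool.NF
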