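import Pool.Agent.Work.MP_b103ef_pos.B_JOD

set_option autoImplicit false

namespace Pool.NF

open Pool.Agent.Work.MP_b103ef_al_h93 Pool.Agent.Work.MP_b103ef_al_h94

theorem ISOV_pp (v : V5) : N5.pi (JOD_vn v) = JOD_vn (pp v) := by cases v <;> rfl
theorem ISOV_pq (v : V5) : N5.rho (JOD_vn v) = JOD_vn (pq v) := by cases v <;> rfl
theorem ISOV_ps (v : V5) : N5.tau (JOD_vn v) = JOD_vn (ps v) := by cases v <;> rfl

theorem blk_ISOV : Stmt_ISOV := by
  intro L _ Z r hr ho hi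
  obtain ⟨zo, hzo, ho⟩ := ho
  obtain ⟨zi, hzi, hi⟩ := hi
  obtain ⟨x, y, hxy, h1, h2⟩ := isolate_vertex Z (fun z => JOD_vn (r z))
    (fun z hz => (hr z hz).imp (fun h => by simp only [h]; rfl) (fun h => by simp only [h]; rfl))
    ⟨zo, hzo, by simp only [ho]; rfl⟩ ⟨zi, hzi, by simp only [hi]; rfl⟩
  refine ⟨x, y, hxy, ?_, ?_⟩
  · intro φ hφ heq hne
    refine h2 (JOD_homN φ hφ) (fun z hz => ?_) ?_
    · show JOD_vn (φ z) = JOD_vn (r z)
      rw [heq hz]
    · show JOD_vn (φ x) = JOD_vn (φ y)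
      rw [hne]
  · intro φ hφ hne
    rcases h1 (JOD_homN φ hφ) (fun h => hne (JOD_vn_inj h)) with h | h | ⟨h3, h⟩
    · left
      intro z hz
      have h4 : N5.pi (JOD_vn (φ z)) = JOD_vn (r z) := h z hz
      rw [ISOV_pp] at h4
      exact (JOD_vn_inj h4).symm
    · right; left
      intro z hz
      have h4 : N5.rho (JOD_vn (φ z)) = JOD_vn (r z) := h z hz
      rw [ISOV_pq] at h4
      exact (JOD_vn_inj h4).symm
    · right; right
      refine ⟨fun z hz hc => h3 z hz ?_, ?_⟩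
      · show JOD_vn (φ z) = N5.c
        rw [hc]; rfl
      · intro z hz
        have h4 : N5.tau (JOD_vn (φ z)) = JOD_vn (r z) := h z hz
        rw [ISOV_ps] at h4
        exact (JOD_vn_inj h4).symm

end Pool.NF
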