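import Pool.Agent.Work.MP_b103ef_pos.Interface2

set_option autoImplicit false

open Classical

namespace Pool.NF

theorem blk_IVP (hINV : Stmt_INV) (hTRV : Stmt_TRV) (hVSN : Stmt_VSN) (hSAN : Stmt_SAN)
    (hVMO : Stmt_VMO) (hPUL : Stmt_PUL) (hEVH : Stmt_EVH) (hOVR : Stmt_OVR) :
    Stmt_IVP := by
  intro L S n E F _ _ _ _ M inc pr f hpi hhom hf ρ Z r j α β hover hrank hloc hρ hne hVG Γ hiso
  obtain ⟨hZS, hαZ, hβZ, hjZ⟩ := hover
  have hrk : max α.rank β.rank + 1 = n + 1 := hrank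
  have hαn : α.rank ≤ n := by
    have := le_max_left α.rank β.rank
    omega
  have hβn : β.rank ≤ n := by
    have := le_max_right α.rank β.rank
    omega
  set G : Finset (Lab L) := insert j (α.vars ∪ β.vars) with hG
  have hGZ : ∀ l ∈ G, LOver (↑Z : Set L) l := by
    intro l hl
    rw [hG, Finset.mem_insert, Finset.mem_union] at hl
    rcases hl with rfl | hl | hl
    · exact hjZ
    · exact (hOVR L α).1 _ hαZ l hl
    · exact (hOVR L β).1 _ hβZ l hl
  have hGS : ∀ l ∈ G, LOver S l := fun l hl => ⟨hZS (hGZ l hl).1, hZS (hGZ l hl).2⟩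
  obtain ⟨h1, h2⟩ := hPUL L S n E F M inc pr hpi hhom
  obtain ⟨-, -, ev1⟩ := hEVH L S n F E (M.pull inc) M inc h1
  obtain ⟨-, -, ev2⟩ := hEVH L S n E F M (M.pull inc) pr h2
  have hsane : Sane (↑Z : Set L) n (M.pull inc) := hVSN L _ ρ n F _ hVG
  obtain ⟨-, san, -⟩ := hSAN L _ n F _ hsane
  -- the key: passing through the retract
  have key : ∀ γ δ : Tm L, γ.Over (↑Z : Set L) → δ.Over (↑Z : Set L) → γ.rank ≤ n → δ.rank ≤ n →
      γ.vars ∪ δ.vars ⊆ G → (M.pull inc).Le γ δ →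
      M.ev G γ ≤ (M.ev G δ).comap (lift (inc.comp pr)) := by
    intro γ δ hγ hδ hγn hδn hvars hle v hv
    have h3 : lift pr v ∈ (M.pull inc).ev G γ :=
      (ev2 G hGS).2.2 γ ((hOVR L γ).2.1 _ _ hZS hγ) hγn hv
    have h4 : lift pr v ∈ (M.pull inc).ev G δ :=
      ((san γ δ hγ hδ hγn hδn G hvars).1.1 hle) h3
    have h5 : lift inc (lift pr v) ∈ M.ev G δ :=
      (ev1 G hGS).2.2 δ ((hOVR L δ).2.1 _ _ hZS hδ) hδn h4
    have h6 : lift (inc.comp pr) v = lift inc (lift pr v) := by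
      ext l
      rfl
    change lift (inc.comp pr) v ∈ M.ev G δ
    rw [h6]
    exact h5
  have hag : Str.Agree (↑Z : Set L) 0 (M.pull inc) (M.pull inc) :=
    ⟨fun _ _ _ => rfl, fun _ _ _ => rfl, fun _ _ _ _ => rfl⟩
  have hVG0 : VG 0 (↑Z : Set L) ρ F (M.pull inc) :=
    hVMO L _ _ ρ ρ 0 n F _ _ hVG (Nat.zero_le n) (fun _ h => h) (fun _ _ => rfl) hag
  have hT : (M.pull inc).Le (Tm.T1 Z r j) (Tm.T0 Z r j) :=
    (hTRV L Z r hloc.1).2 _ ρ F _ (fun _ h => h) hρ hne hVG0 j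
  have hT1 : (Tm.T1 Z r j).Over (↑Z : Set L) := by
    intro l hl
    rw [Finset.mem_singleton] at hl
    subst hl
    exact ⟨hjZ, fun _ h => h⟩
  have hT0 : (Tm.T0 Z r j).Over (↑Z : Set L) := by
    intro l hl
    rw [Finset.mem_singleton] at hl
    subst hl
    exact ⟨hjZ, fun _ h => h⟩
  refine hINV (Lab L) E _ _ _ _ Γ (inc.comp pr) f hf hiso ?_ ?_
  · refine key _ _ hT1 hT0 (Nat.zero_le _) (Nat.zero_le _) ?_ hT
    intro l hl
    have : l = j := by
      rw [Finset.mem_union] at hl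
      rcases hl with hl | hl
      · exact Finset.mem_singleton.1 hl
      · exact Finset.mem_singleton.1 hl
    rw [this, hG]
    exact Finset.mem_insert_self _ _
  · have hle : (M.pull inc).Le α β := by
      by_contra hcon
      exact hloc.2.2.2.2.2 ρ hρ hne ⟨F, _, _, M.pull inc, hVG, hcon⟩
    have hle' : (M.pull inc).Le α α := le_rfl
    rw [Submodule.comap_inf]
    refine le_inf ?_ ?_
    · refine key α α hαZ hαZ hαn hαn ?_ hle'
      rw [hG, Finset.union_idempotent]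
      exact Finset.Subset.trans Finset.subset_union_left (Finset.subset_insert _ _)
    · refine key α β hαZ hβZ hαn hβn ?_ hle
      rw [hG]
      exact Finset.subset_insert _ _

end Pool.NF
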