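import Pool.Agent.Work.MP_b103ef_pos.Interface3

set_option autoImplicit false

open Classical

namespace Pool.NF

section KD

variable {T : Type} [Preorder T] (i s : T → T → T)

theorem KD_map (f : T → T → T) (hf : ∀ a a' b b' : T, a ≤ a' → b ≤ b' → f a b ≤ f a' b') :
    ∀ ⦃a a' : T⦄, AntisymmRel (· ≤ ·) a a' → ∀ ⦃b b' : T⦄, AntisymmRel (· ≤ ·) b b' →
      AntisymmRel (· ≤ ·) (f a b) (f a' b') :=
  fun _ _ ha _ _ hb => ⟨hf _ _ _ _ ha.1 hb.1, hf _ _ _ _ ha.2 hb.2⟩

/-- the lattice of classes of a quasi-lattice -/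
noncomputable def KD_lat (h1 : ∀ a b, i a b ≤ a) (h2 : ∀ a b, i a b ≤ b)
    (h3 : ∀ a b c, c ≤ a → c ≤ b → c ≤ i a b) (h4 : ∀ a b, a ≤ s a b) (h5 : ∀ a b, b ≤ s a b)
    (h6 : ∀ a b c, a ≤ c → b ≤ c → s a b ≤ c) : Lattice (Antisymmetrization T (· ≤ ·)) where
  inf := Quotient.map₂ i (KD_map i fun a a' b b' ha hb =>
    h3 _ _ _ ((h1 _ _).trans ha) ((h2 _ _).trans hb))
  sup := Quotient.map₂ s (KD_map s fun a a' b b' ha hb =>
    h6 _ _ _ (ha.trans (h4 _ _)) (hb.trans (h5 _ _)))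
  le_sup_left := by
    intro a b
    induction a using Quotient.inductionOn
    induction b using Quotient.inductionOn
    exact h4 _ _
  le_sup_right := by
    intro a b
    induction a using Quotient.inductionOn
    induction b using Quotient.inductionOn
    exact h5 _ _
  sup_le := by
    intro a b c
    induction a using Quotient.inductionOn
    induction b using Quotient.inductionOn
    induction c using Quotient.inductionOn
    exact h6 _ _ _
  inf_le_left := by
    intro a b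
    induction a using Quotient.inductionOn
    induction b using Quotient.inductionOn
    exact h1 _ _
  inf_le_right := by
    intro a b
    induction a using Quotient.inductionOn
    induction b using Quotient.inductionOn
    exact h2 _ _
  le_inf := by
    intro a b c
    induction a using Quotient.inductionOn
    induction b using Quotient.inductionOn
    induction c using Quotient.inductionOn
    exact h3 _ _ _

end KD

theorem KD_bot_over {L : Type} : (Tm.bot : Tm L).Over Set.univ := by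
  intro j hj
  exact absurd hj (Finset.notMem_empty j)

theorem blk_KD (hQ : Stmt_QOS) : Stmt_KD := by
  intro L _ hA
  let T : Type := {α : Tm L // α.Over Set.univ}
  letI pre : Preorder T :=
    { le := fun a b => TLe a.1 b.1
      le_refl := fun a φ _ => (hQ L hA Set.univ φ a.1 a.1 a.1 a.2 a.2 a.2).1
      le_trans := fun a b c hab hbc φ hφ =>
        (hQ L hA Set.univ φ a.1 b.1 c.1 a.2 b.2 c.2).2.1 (hab φ hφ) (hbc φ hφ) }
  let i : T → T → T := fun a b => ⟨.inf a.1 b.1, a.2, b.2⟩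
  let s : T → T → T := fun a b => ⟨.sup a.1 b.1, a.2, b.2⟩
  have h1 : ∀ a b : T, i a b ≤ a := fun a b φ _ =>
    (hQ L hA Set.univ φ a.1 b.1 a.1 a.2 b.2 a.2).2.2.1
  have h2 : ∀ a b : T, i a b ≤ b := fun a b φ _ =>
    (hQ L hA Set.univ φ a.1 b.1 a.1 a.2 b.2 a.2).2.2.2.1
  have h3 : ∀ a b c : T, c ≤ a → c ≤ b → c ≤ i a b := fun a b c ha hb φ hφ =>
    (hQ L hA Set.univ φ a.1 b.1 c.1 a.2 b.2 c.2).2.2.2.2.1 (ha φ hφ) (hb φ hφ)
  have h4 : ∀ a b : T, a ≤ s a b := fun a b φ _ =>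
    (hQ L hA Set.univ φ a.1 b.1 a.1 a.2 b.2 a.2).2.2.2.2.2.1
  have h5 : ∀ a b : T, b ≤ s a b := fun a b φ _ =>
    (hQ L hA Set.univ φ a.1 b.1 a.1 a.2 b.2 a.2).2.2.2.2.2.2.1
  have h6 : ∀ a b c : T, a ≤ c → b ≤ c → s a b ≤ c := fun a b c ha hb φ hφ =>
    (hQ L hA Set.univ φ a.1 b.1 c.1 a.2 b.2 c.2).2.2.2.2.2.2.2.1 (ha φ hφ) (hb φ hφ)
  have h7 : ∀ a b c : T, c ≤ a → i a (s b c) ≤ s (i a b) c := fun a b c ha φ hφ =>
    (hQ L hA Set.univ φ a.1 b.1 c.1 a.2 b.2 c.2).2.2.2.2.2.2.2.2 (ha φ hφ)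
  letI lat := KD_lat i s h1 h2 h3 h4 h5 h6
  have hmod : IsModularLattice (Antisymmetrization T (· ≤ ·)) := by
    constructor
    intro x y z
    induction x using Quotient.inductionOn with
    | _ x =>
    induction y using Quotient.inductionOn with
    | _ y =>
    induction z using Quotient.inductionOn with
    | _ z =>
    intro hxz
    change i (s x y) z ≤ s x (i y z)
    have hxz' : x ≤ z := hxz
    have e1 : i (s x y) z ≤ i z (s y x) :=
      h3 _ _ _ (h2 _ _) ((h1 _ _).trans (h6 _ _ _ (h5 _ _) (h4 _ _)))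
    have e2 : s (i z y) x ≤ s x (i y z) :=
      h6 _ _ _ ((h3 _ _ _ (h2 _ _) (h1 _ _)).trans (h5 _ _)) (h4 _ _)
    exact e1.trans ((h7 z y x hxz').trans e2)
  let q : Tm L → Antisymmetrization T (· ≤ ·) := fun α =>
    if h : α.Over Set.univ then toAntisymmetrization (· ≤ ·) (⟨α, h⟩ : T)
    else toAntisymmetrization (· ≤ ·) (⟨Tm.bot, KD_bot_over⟩ : T)
  have hq : ∀ (α : Tm L) (h : α.Over Set.univ),
      q α = toAntisymmetrization (· ≤ ·) (⟨α, h⟩ : T) := fun α h => dif_pos h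
  refine ⟨{ K := Antisymmetrization T (· ≤ ·), lat := lat, mod := hmod, q := q, surj := ?_,
            le_iff := ?_, inf := ?_, sup := ?_ }⟩
  · intro k
    induction k using Quotient.inductionOn with
    | _ k => exact ⟨k.1, k.2, hq k.1 k.2⟩
  · intro α β hα hβ
    rw [hq α hα, hq β hβ]
    exact Iff.rfl
  · intro α β hα hβ
    rw [hq α hα, hq β hβ, hq (.inf α β) ⟨hα, hβ⟩]
    rfl
  · intro α β hα hβ
    rw [hq α hα, hq β hβ, hq (.sup α β) ⟨hα, hβ⟩]
    rfl

end Pool.NF
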