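import Pool.Agent.Work.MP_b103ef_pos.Interface3

/-! # Block KL1 (helper52): (10)(a) and (10)(d) together -/

set_option autoImplicit false

open Classical

namespace Pool.NF

theorem blk_KL1 (h1 : Stmt_KLA) (h2 : Stmt_KLD) : Stmt_KL1 := by
  intro L _ hA D r hr Z α β hα hβ hin χ hχ
  exact ⟨α.vars ∪ β.vars, fun j hj hjZ =>
    ⟨fun hV ho hi => h2 L hA D r hr Z α β hα hβ hin χ hV hχ j hj hjZ ho hi,
      fun hH ha hc => h1 L hA D r hr Z α β hα hβ hin χ hH hχ j hj hjZ ha hc⟩⟩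

end Pool.NF
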