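import Pool.Agent.Work.MP_b103ef_pos.Interface3

/-! # Block KLA: (10)(a) (helper94) -/

set_option autoImplicit false

open Classical

namespace Pool.NF

theorem KLA_notV {L : Type} {Z : Set L} {ψ : L → V5} (h : Hit Z ψ) : ¬ IsV Z ψ := by
  intro hv
  obtain ⟨⟨x, hx, hx'⟩, -⟩ := h
  rcases hv x hx with h1 | h1 <;> rw [hx'] at h1 <;> cases h1

theorem KLA_enc {L : Type} {Z : Set L} {ψ : L → V5} (h : Hit Z ψ) {α β : Tm L}
    (hn : NCs Z ψ α β) : ENC (EG (max α.rank β.rank)) Z ψ α β := by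
  rcases hn with ⟨h1, -⟩ | ⟨-, h2⟩
  · exact absurd h1 (KLA_notV h)
  · exact h2

theorem KLA_nc {L : Type} {Z : Set L} {ψ : L → V5} (h : IsV Z ψ) {α β : Tm L}
    (hn : NCs Z ψ α β) : NC (VG (max α.rank β.rank)) Z ψ α β := by
  rcases hn with ⟨-, h1⟩ | ⟨h2, -⟩
  · exact h1
  · exact absurd h (KLA_notV h2)

theorem KLA_refl {K : Type} [Lattice K] {r : K → K → Prop} (hr : IsCon r) (x : K) : r x x :=
  hr.1.refl x

/-- transitivity of collapsing -/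
theorem KLA_tr {K : Type} [Lattice K] {r : K → K → Prop} (hr : IsCon r) {x y z : K}
    (h1 : r (x ⊓ y) x) (h2 : r x z) : r (z ⊓ y) z := by
  have h3 : r (x ⊓ y) (z ⊓ y) := (hr.2 _ _ _ _ h2 (hr.1.refl y)).2
  exact hr.1.trans (hr.1.symm h3) (hr.1.trans h1 h2)

theorem blk_KLA (hEK2 : Stmt_EK2) (hMEX : Stmt_MEX) : Stmt_KLA := by
  intro L _ hA D r hr Z α β hα hβ hin ψ hψ hn j hj hjZ hja hjc
  have hE : ELoc (EG (max α.rank β.rank)) Z ψ j α β := ⟨hψ, hja, hjc, hj, KLA_enc hψ hn⟩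
  obtain ⟨hm, hs, h1, h2, h3⟩ := hEK2 L hA D Z ψ j α β hα hβ hjZ hE
  have h4 : D.q α ⊓ D.q (.U1 Z ψ j) ≤ D.q α ⊓ D.q β := h2.trans h3
  have h5 := (hMEX D.K (D.q α ⊓ D.q β) (D.q α) (D.q .bot) (D.q (.U1 Z ψ j))
    (D.q (.ek Z ψ j α β)) inf_le_left h1 h4 h2).2.2.2.2.2 hm hs h3 r hr
  show r (D.q (.U1 Z ψ j) ⊓ D.q .bot) (D.q (.U1 Z ψ j))
  rw [inf_eq_right.2 h1]
  exact h5.1 hin

end Pool.NF
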