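import Pool.Agent.Work.MP_b103ef_pos.B_KLA

/-! # Block KLB: (10)(b) (helper94) -/

set_option autoImplicit false

open Classical

namespace Pool.NF

/-- extension of a function on `Z` -/
noncomputable def KLB_ext {L : Type} (Z : Finset L) (χ : (↑Z : Set L) → V5) (x : L) : V5 :=
  if h : x ∈ (↑Z : Set L) then χ ⟨x, h⟩ else V5.o

theorem KLB_ext_on {L : Type} (Z : Finset L) (ψ : L → V5) :
    Set.EqOn (KLB_ext Z fun x => ψ x) ψ ↑Z := by
  intro x hx
  unfold KLB_ext
  rw [dif_pos hx]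

theorem KLB_over_lk {L : Type} {Z : Finset L} {r : L → V5} {j : Lab L} {α β : Tm L}
    (hα : α.Over (↑Z : Set L)) (hβ : β.Over (↑Z : Set L)) (hj : LOver (↑Z : Set L) j) :
    (Tm.lk Z r j α β).Over (↑Z : Set L) := ⟨subset_rfl, hα, hβ, hj⟩

theorem KLB_over_ek {L : Type} {Z : Finset L} {r : L → V5} {j : Lab L} {α β : Tm L}
    (hα : α.Over (↑Z : Set L)) (hβ : β.Over (↑Z : Set L)) (hj : LOver (↑Z : Set L) j) :
    (Tm.ek Z r j α β).Over (↑Z : Set L) := ⟨subset_rfl, hα, hβ, hj⟩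

theorem KLB_fresh {L : Type} (F : Finset (Lab L)) (x y : L) : ∃ n : ℕ, (x, y, n) ∉ F := by
  have hinj : Function.Injective (fun n : ℕ => ((x, y, n) : Lab L)) := by
    intro n m h
    have h' : ((x, y, n) : Lab L) = (x, y, m) := h
    simpa using h'
  have h1 : (Set.range (fun n : ℕ => ((x, y, n) : Lab L))).Infinite :=
    Set.infinite_range_of_injective hinj
  obtain ⟨a, ⟨n, rfl⟩, hn⟩ := h1.exists_notMem_finset F
  exact ⟨n, hn⟩

theorem blk_KLB (hEK2 : Stmt_EK2) (hMEX : Stmt_MEX) (hEC1 : Stmt_EC1) (hCLZ : Stmt_CLZ)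
    (hNCI : Stmt_NCI) (hOVR : Stmt_OVR) : Stmt_KLB := by
  intro L _ hA D r hr Z
  -- induction on the number of types
  have key : ∀ (N : ℕ) (α β : Tm L), α.Over (↑Z : Set L) → β.Over (↑Z : Set L) →
      (∀ ρ : L → V5, IsV (↑Z : Set L) ρ → ¬ NCs (↑Z : Set L) ρ α β) →
      (∀ ψ : L → V5, Hit (↑Z : Set L) ψ → NCs (↑Z : Set L) ψ α β → TEv D r Z ψ) →
      Set.ncard {χ : (↑Z : Set L) → V5 | NCs (↑Z : Set L) (KLB_ext Z χ) α β} ≤ N →
      InC D r α β := by
    intro N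
    induction N with
    | zero =>
      intro α β hα hβ hV hH hN
      have hα' : α.Over Set.univ := (hOVR L α).2.1 _ _ (Set.subset_univ _) hα
      have hβ' : β.Over Set.univ := (hOVR L β).2.1 _ _ (Set.subset_univ _) hβ
      have h0 : {χ : (↑Z : Set L) → V5 | NCs (↑Z : Set L) (KLB_ext Z χ) α β} = ∅ := by
        rwa [Nat.le_zero, Set.ncard_eq_zero] at hN
      have h1 : ∀ χ : L → V5, ¬ NCs (↑Z : Set L) χ α β := by
        intro χ hχ
        have h2 : (fun x : (↑Z : Set L) => χ x) ∈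
            {χ : (↑Z : Set L) → V5 | NCs (↑Z : Set L) (KLB_ext Z χ) α β} := by
          show NCs (↑Z : Set L) (KLB_ext Z fun x : (↑Z : Set L) => χ x) α β
          exact ((hNCI L hA ↑Z ↑Z χ α β (max α.rank β.rank) subset_rfl hα hβ (le_max_left _ _)
            (le_max_right _ _)).2.2.1 _ (KLB_ext_on Z χ).symm).1 hχ
        rw [h0] at h2
        exact h2
      have h3 : D.q α ≤ D.q β := (D.le_iff α β hα' hβ').2 (hCLZ L hA ↑Z α β hα hβ h1)
      show r (D.q α ⊓ D.q β) (D.q α)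
      rw [inf_eq_left.2 h3]
      exact hr.1.refl _
    | succ N ih =>
      intro α β hα hβ hV hH hN
      have hα' : α.Over Set.univ := (hOVR L α).2.1 _ _ (Set.subset_univ _) hα
      have hβ' : β.Over Set.univ := (hOVR L β).2.1 _ _ (Set.subset_univ _) hβ
      by_cases hex : ∃ ψ : L → V5, Hit (↑Z : Set L) ψ ∧ NCs (↑Z : Set L) ψ α β
      · obtain ⟨ψ, hψ, hn⟩ := hex
        obtain ⟨F0, hF0⟩ := hH ψ hψ hn
        obtain ⟨⟨x, hx, hxa⟩, -, ⟨y, hy, hyc⟩⟩ := hψ
        have hψ : Hit (↑Z : Set L) ψ := by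
          rcases hn with ⟨h1, -⟩ | ⟨h2, -⟩
          · exact absurd hxa (by rcases h1 x hx with h | h <;> rw [h] <;> decide)
          · exact h2
        obtain ⟨m, hm⟩ := KLB_fresh (F0 ∪ (α.vars ∪ β.vars)) x y
        rw [Finset.mem_union, not_or] at hm
        have hjZ : LOver (↑Z : Set L) ((x, y, m) : Lab L) := ⟨hx, hy⟩
        have hT := (hF0 (x, y, m) hm.1 hjZ).2 hψ hxa hyc
        have hE : ELoc (EG (max α.rank β.rank)) Z ψ (x, y, m) α β :=
          ⟨hψ, hxa, hyc, hm.2, KLA_enc hψ hn⟩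
        obtain ⟨hmp, hs, h1, h2, h3⟩ := hEK2 L hA D Z ψ (x, y, m) α β hα hβ hjZ hE
        have h4 : D.q α ⊓ D.q (.U1 Z ψ (x, y, m)) ≤ D.q α ⊓ D.q β := h2.trans h3
        have h5 := (hMEX D.K (D.q α ⊓ D.q β) (D.q α) (D.q .bot) (D.q (.U1 Z ψ (x, y, m)))
          (D.q (.ek Z ψ (x, y, m) α β)) inf_le_left h1 h4 h2).2.2.2.2.2 hmp hs h3 r hr
        have hT' : r (D.q .bot) (D.q (.U1 Z ψ (x, y, m))) := by
          have h6 : r (D.q (.U1 Z ψ (x, y, m)) ⊓ D.q .bot) (D.q (.U1 Z ψ (x, y, m))) := hT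
          rwa [inf_eq_right.2 h1] at h6
        have h7 := h5.2 hT'
        obtain ⟨e1, e2⟩ := hEC1 L hA Z ψ (x, y, m) α β hα hβ hjZ hE hV
        have hek : (Tm.ek Z ψ (x, y, m) α β).Over (↑Z : Set L) := KLB_over_ek hα hβ hjZ
        have hek' : (Tm.ek Z ψ (x, y, m) α β).Over Set.univ :=
          (hOVR L _).2.1 _ _ (Set.subset_univ _) hek
        have hcnt : Set.ncard {χ : (↑Z : Set L) → V5 | NCs (↑Z : Set L) (KLB_ext Z χ)
            (.inf (.ek Z ψ (x, y, m) α β) α) β} ≤ N := by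
          have hlt : Set.ncard {χ : (↑Z : Set L) → V5 | NCs (↑Z : Set L) (KLB_ext Z χ)
            (.inf (.ek Z ψ (x, y, m) α β) α) β} <
            Set.ncard {χ : (↑Z : Set L) → V5 | NCs (↑Z : Set L) (KLB_ext Z χ) α β} := by
            apply Set.ncard_lt_ncard _ (Set.toFinite _)
            refine ⟨fun χ hχ => e2 _ hχ, fun hsub => ?_⟩
            have h8 : (fun z : (↑Z : Set L) => ψ z) ∈
                {χ : (↑Z : Set L) → V5 | NCs (↑Z : Set L) (KLB_ext Z χ) α β} := by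
              show NCs (↑Z : Set L) (KLB_ext Z fun z : (↑Z : Set L) => ψ z) α β
              exact ((hNCI L hA ↑Z ↑Z ψ α β (max α.rank β.rank) subset_rfl hα hβ (le_max_left _ _)
                (le_max_right _ _)).2.2.1 _ (KLB_ext_on Z ψ).symm).1 hn
            exact e1 _ (KLB_ext_on Z ψ) (hsub h8)
          omega
        have h9 := ih (.inf (.ek Z ψ (x, y, m) α β) α) β ⟨hek, hα⟩ hβ
          (fun ρ hρ h => hV ρ hρ (e2 ρ h)) (fun ψ' hψ' h => hH ψ' hψ' (e2 ψ' h)) hcnt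
        have h10 : r (D.q (.inf (.ek Z ψ (x, y, m) α β) α) ⊓ D.q β)
          (D.q (.inf (.ek Z ψ (x, y, m) α β) α)) := h9
        rw [D.inf _ _ hek' hα'] at h10
        exact KLA_tr hr h10 h7
      · push Not at hex
        refine ih α β hα hβ hV hH ?_
        have h0 : {χ : (↑Z : Set L) → V5 | NCs (↑Z : Set L) (KLB_ext Z χ) α β} = ∅ := by
          rw [Set.eq_empty_iff_forall_notMem]
          intro χ hχ
          have hχ' : NCs (↑Z : Set L) (KLB_ext Z χ) α β := hχ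
          have hor : IsV (↑Z : Set L) (KLB_ext Z χ) ∨ Hit (↑Z : Set L) (KLB_ext Z χ) := by
            rcases hχ' with h | h
            · exact Or.inl h.1
            · exact Or.inr h.1
          rcases hor with h | h
          · exact hV _ h hχ'
          · exact hex _ h hχ'
        rw [h0, Set.ncard_empty]
        exact Nat.zero_le _
  intro α β hα hβ hV hH
  exact key _ α β hα hβ hV hH le_rfl

end Pool.NF
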