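import Pool.Agent.Work.MP_b103ef_pos.B_KLB

/-! # Block KLD: (10)(d) (helper94) -/

set_option autoImplicit false

open Classical

namespace Pool.NF

theorem KLD_over_T1 {L : Type} {Z : Finset L} {r : L → V5} {j : Lab L}
    (hj : LOver (↑Z : Set L) j) : (Tm.T1 Z r j).Over (↑Z : Set L) := by
  intro k hk
  rw [Finset.mem_singleton] at hk
  subst hk
  exact ⟨hj, subset_rfl⟩

theorem KLD_over_T0 {L : Type} {Z : Finset L} {r : L → V5} {j : Lab L}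
    (hj : LOver (↑Z : Set L) j) : (Tm.T0 Z r j).Over (↑Z : Set L) := by
  intro k hk
  rw [Finset.mem_singleton] at hk
  subst hk
  exact ⟨hj, subset_rfl⟩

/-- a pair which is closed at all vertex types except one, and not closed there -/
theorem KLD_loc {L : Type} {Z : Finset L} {ρ χ₀ : L → V5} {j : Lab L} {α β : Tm L}
    (hρ : IsV (↑Z : Set L) ρ) (hn : NCs (↑Z : Set L) ρ α β)
    (hχ : ∀ ρ' : L → V5, IsV (↑Z : Set L) ρ' → ¬ Set.EqOn ρ' χ₀ ↑Z → ¬ NCs (↑Z : Set L) ρ' α β)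
    (hj : j ∉ α.vars ∪ β.vars) (ho : ρ j.1 = V5.o) (hi : ρ j.2.1 = V5.i) :
    Loc (VG (max α.rank β.rank)) Z ρ j α β := by
  have h0 : Set.EqOn ρ χ₀ ↑Z := by
    by_contra h
    exact hχ ρ hρ h hn
  refine ⟨hρ, ho, hi, hj, KLA_nc hρ hn, ?_⟩
  intro ρ' hρ' hne hnc
  refine hχ ρ' hρ' (fun h => hne ?_) (Or.inl ⟨hρ', hnc⟩)
  intro x hx
  rw [h hx, h0 hx]

theorem blk_KLD (hKLA : Stmt_KLA) (hKLB : Stmt_KLB) (hREF : Stmt_REF) (hEK1 : Stmt_EK1)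
    (hEC2 : Stmt_EC2) (hMEX : Stmt_MEX) (hTRX : Stmt_TRX) (hNCH : Stmt_NCH) (hNCI : Stmt_NCI)
    (hOVR : Stmt_OVR) : Stmt_KLD := by
  intro L _ hA D r hr Z α β hα hβ hin ρ hρ hn j hj hjZ ho hi
  obtain ⟨l, hl, -, hl3⟩ := hREF L hA D r hr Z α β hα hβ
  obtain ⟨⟨α1, β1⟩, hp, hpn⟩ := hl3 ρ hn
  obtain ⟨hα1, hβ1, hvars, ⟨χ₀, -, hχ₀⟩, -, hin1⟩ := hl _ hp
  have hj1 : j ∉ α1.vars ∪ β1.vars := fun h => hj (hvars h)
  have hloc : Loc (VG (max α1.rank β1.rank)) Z ρ j α1 β1 := KLD_loc hρ hpn hχ₀ hj1 ho hi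
  obtain ⟨hm, h1, h2, h3⟩ := hEK1 L hA D Z ρ j α1 β1 hα1 hβ1 hjZ hloc
  have h5 := (hMEX D.K (D.q (.T0 Z ρ j)) (D.q (.T1 Z ρ j)) (D.q α1 ⊓ D.q β1) (D.q α1)
    (D.q (.lk Z ρ j α1 β1)) h1 inf_le_left h2 h3).2.2.2.1 hm r hr (hin1 hin)
  obtain ⟨e1, e2⟩ := hEC2 L hA Z ρ j α1 β1 hα1 hβ1 hjZ hloc
  have hT1 : (Tm.T1 Z ρ j).Over (↑Z : Set L) := KLD_over_T1 hjZ
  have hT0 : (Tm.T0 Z ρ j).Over (↑Z : Set L) := KLD_over_T0 hjZ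
  have hlk : (Tm.lk Z ρ j α1 β1).Over (↑Z : Set L) := KLB_over_lk hα1 hβ1 hjZ
  have hT1' : (Tm.T1 Z ρ j).Over Set.univ := (hOVR L _).2.1 _ _ (Set.subset_univ _) hT1
  have hlk' : (Tm.lk Z ρ j α1 β1).Over Set.univ := (hOVR L _).2.1 _ _ (Set.subset_univ _) hlk
  have h6 := hKLB L hA D r hr Z (.inf (.T1 Z ρ j) (.lk Z ρ j α1 β1)) (.T0 Z ρ j) ⟨hT1, hlk⟩ hT0
    e1 (by
      intro ψ hψ hnψ
      have h7 := (hTRX L hA Z ρ j hjZ ↑Z ψ subset_rfl (Or.inr hψ)).1 hρ (e2 ψ hnψ)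
      have h8 : NCs (↑Z : Set L) ψ α β := by
        have hN := hNCI L hA ↑Z ↑Z ρ α β (max α.rank β.rank) subset_rfl hα hβ (le_max_left _ _)
          (le_max_right _ _)
        have hH := hNCH L hA ↑Z ↑Z ψ α β subset_rfl hψ hα hβ
        rcases h7.2 hψ with h9 | h9
        · exact hH.2.2.1 ((hN.2.2.1 _ h9).1 hn)
        · exact hH.2.2.2 ((hN.2.2.1 _ h9).1 hn)
      refine ⟨α.vars ∪ β.vars, fun k hk hkZ => ⟨fun hv => absurd hv (KLA_notV hψ), ?_⟩⟩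
      intro _ hka hkc
      exact hKLA L hA D r hr Z α β hα hβ hin ψ hψ h8 k hk hkZ hka hkc)
  have h10 : r (D.q (.inf (.T1 Z ρ j) (.lk Z ρ j α1 β1)) ⊓ D.q (.T0 Z ρ j))
      (D.q (.inf (.T1 Z ρ j) (.lk Z ρ j α1 β1))) := h6
  rw [D.inf _ _ hT1' hlk'] at h10
  exact KLA_tr hr h10 h5

end Pool.NF
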