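import Pool.Agent.Work.MP_b103ef_pos.B_KLD

/-! # Block KLE: (10)(e) (helper94) -/

set_option autoImplicit false

open Classical

namespace Pool.NF

theorem blk_KLE (hKLB : Stmt_KLB) (hREF : Stmt_REF) (hEK1 : Stmt_EK1)
    (hEC3 : Stmt_EC3) (hMEX : Stmt_MEX) (hCST : Stmt_CST) (hNCI : Stmt_NCI)
    (hOVR : Stmt_OVR) : Stmt_KLE := by
  intro L _ hA D r hr Z α β hα hβ hT
  obtain ⟨l, hl, hl2, -⟩ := hREF L hA D r hr Z α β hα hβ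
  refine hl2 ?_
  rintro ⟨α1, β1⟩ hp
  obtain ⟨hα1, hβ1, -, ⟨χ₀, hχV, hχ₀⟩, hsup, -⟩ := hl _ hp
  show InC D r α1 β1
  by_cases hn : NCs (↑Z : Set L) χ₀ α1 β1
  · -- the pair is local at the type
    obtain ⟨F0, hF0⟩ := hT χ₀ (hsup χ₀ hn)
    have hoi : (∃ x ∈ (↑Z : Set L), χ₀ x = V5.o) ∧ ∃ y ∈ (↑Z : Set L), χ₀ y = V5.i := by
      by_contra hcon
      have hconst : ∀ x ∈ (↑Z : Set L), ∀ y ∈ (↑Z : Set L), χ₀ x = χ₀ y := by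
        intro x hx y hy
        rcases hχV x hx with h1 | h1 <;> rcases hχV y hy with h2 | h2
        · rw [h1, h2]
        · exact absurd ⟨⟨x, hx, h1⟩, ⟨y, hy, h2⟩⟩ hcon
        · exact absurd ⟨⟨y, hy, h2⟩, ⟨x, hx, h1⟩⟩ hcon
        · rw [h1, h2]
      exact hCST L ↑Z χ₀ (max α1.rank β1.rank) hconst hχV α1 β1 hα1 hβ1 (le_max_left _ _)
        (le_max_right _ _) (KLA_nc hχV hn)
    obtain ⟨⟨x, hx, hxo⟩, ⟨y, hy, hyi⟩⟩ := hoi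
    obtain ⟨m, hm⟩ := KLB_fresh (F0 ∪ (α1.vars ∪ β1.vars)) x y
    rw [Finset.mem_union, not_or] at hm
    have hjZ : LOver (↑Z : Set L) ((x, y, m) : Lab L) := ⟨hx, hy⟩
    have hloc : Loc (VG (max α1.rank β1.rank)) Z χ₀ (x, y, m) α1 β1 :=
      KLD_loc hχV hn hχ₀ hm.2 hxo hyi
    obtain ⟨hmp, h1, h2, h3⟩ := hEK1 L hA D Z χ₀ (x, y, m) α1 β1 hα1 hβ1 hjZ hloc
    have hTT : r (D.q (.T0 Z χ₀ (x, y, m))) (D.q (.T1 Z χ₀ (x, y, m))) := by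
      have h4 : r (D.q (.T1 Z χ₀ (x, y, m)) ⊓ D.q (.T0 Z χ₀ (x, y, m)))
          (D.q (.T1 Z χ₀ (x, y, m))) := (hF0 (x, y, m) hm.1 hjZ).1 hχV hxo hyi
      rwa [inf_eq_right.2 h1] at h4
    have h5 := (hMEX D.K (D.q (.T0 Z χ₀ (x, y, m))) (D.q (.T1 Z χ₀ (x, y, m)))
      (D.q α1 ⊓ D.q β1) (D.q α1) (D.q (.lk Z χ₀ (x, y, m) α1 β1)) h1 inf_le_left h2
      h3).2.2.2.2.1 hmp r hr hTT
    obtain ⟨e1, e2⟩ := hEC3 L hA Z χ₀ (x, y, m) α1 β1 hα1 hβ1 hjZ hloc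
    have hT1 : (Tm.T1 Z χ₀ (x, y, m)).Over (↑Z : Set L) := KLD_over_T1 hjZ
    have hlk : (Tm.lk Z χ₀ (x, y, m) α1 β1).Over (↑Z : Set L) := KLB_over_lk hα1 hβ1 hjZ
    have hT1' : (Tm.T1 Z χ₀ (x, y, m)).Over Set.univ :=
      (hOVR L _).2.1 _ _ (Set.subset_univ _) hT1
    have hlk' : (Tm.lk Z χ₀ (x, y, m) α1 β1).Over Set.univ :=
      (hOVR L _).2.1 _ _ (Set.subset_univ _) hlk
    have hα1' : α1.Over Set.univ := (hOVR L _).2.1 _ _ (Set.subset_univ _) hα1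
    have h6 : InC D r α1 (.inf α1 (.sup (.lk Z χ₀ (x, y, m) α1 β1) (.T1 Z χ₀ (x, y, m)))) := by
      refine hKLB L hA D r hr Z _ _ hα1 ⟨hα1, hlk, hT1⟩ e1 ?_
      intro ψ _ hnψ
      exact hT ψ (hsup ψ (e2 ψ hnψ))
    have h7 : r (D.q α1 ⊓ D.q (.inf α1 (.sup (.lk Z χ₀ (x, y, m) α1 β1) (.T1 Z χ₀ (x, y, m)))))
        (D.q α1) := h6
    have hsup' : (Tm.sup (.lk Z χ₀ (x, y, m) α1 β1) (.T1 Z χ₀ (x, y, m))).Over Set.univ :=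
      ⟨hlk', hT1'⟩
    rw [D.inf _ _ hα1' hsup', D.sup _ _ hlk' hT1', ← inf_assoc, inf_idem] at h7
    exact hr.1.trans h5 h7
  · refine hKLB L hA D r hr Z α1 β1 hα1 hβ1 ?_ ?_
    · intro ρ hρ hnρ
      by_cases he : Set.EqOn ρ χ₀ ↑Z
      · exact hn (((hNCI L hA ↑Z ↑Z ρ α1 β1 (max α1.rank β1.rank) subset_rfl hα1 hβ1
          (le_max_left _ _) (le_max_right _ _)).2.2.1 _ he).1 hnρ)
      · exact hχ₀ ρ hρ he hnρ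
    · intro ψ _ hnψ
      exact hT ψ (hsup ψ hnψ)

end Pool.NF
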