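import Pool.Agent.Work.MP_b103ef_pos.Interface1

/-! # Block LEX: existence of the graph of an isomorphism (helper74) -/

set_option autoImplicit false

open Classical

namespace Pool.NF

/-- One half of the statement. -/
theorem LEX_map {W : Type} [AddCommGroup W] [Module ℚ W] (t' t b' al : Submodule ℚ W)
    (htt : t' ≤ t) (hba : b' ≤ al) (h1 : t ⊓ al ≤ t')
    (R : W → W → Prop) (Ga : Submodule ℚ W)
    (hGa : ∀ v, v ∈ Ga ↔ ∃ x ∈ t, ∃ y ∈ al, R x y ∧ x + y = v)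
    (hR1 : ∀ x ∈ t', ∀ y ∈ al, R x y → y ∈ b')
    (hR2 : ∀ y ∈ b', R 0 y) (hR3 : ∀ x ∈ t', R x 0)
    (hR4 : ∀ x ∈ t, ∃ y ∈ al, R x y) : MAP t' t b' al Ga := by
  refine ⟨le_antisymm ?_ ?_, le_antisymm ?_ ?_⟩
  · rintro v ⟨hv1, hv2⟩
    obtain ⟨x, hx, y, hy, hxy, rfl⟩ := (hGa v).mp hv1
    obtain ⟨a, ha, s, hs, has⟩ := Submodule.mem_sup.mp hv2
    have h5 : x - s = a - y := by
      rw [sub_eq_sub_iff_add_eq_add, add_comm, add_comm x y] at *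
      rw [add_comm y x, ← has, add_comm s a] at *
    have h6 : x - s ∈ t' := by
      apply h1
      refine ⟨t.sub_mem hx (htt hs), ?_⟩
      rw [h5]
      exact al.sub_mem ha hy
    have hx' : x ∈ t' := by
      have := t'.add_mem h6 hs
      simpa using this
    have hy' := hR1 x hx' y hy hxy
    rw [sup_comm]
    exact Submodule.add_mem_sup hx' hy'
  · refine le_inf (sup_le ?_ ?_) (sup_le ?_ ?_)
    · intro v hv
      exact (hGa v).mpr ⟨0, t.zero_mem, v, hba hv, hR2 v hv, by simp⟩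
    · intro v hv
      exact (hGa v).mpr ⟨v, htt hv, 0, al.zero_mem, hR3 v hv, by simp⟩
    · exact hba.trans le_sup_left
    · exact le_sup_right
  · refine sup_le ?_ le_sup_left
    intro v hv
    obtain ⟨x, hx, y, hy, hxy, rfl⟩ := (hGa v).mp hv
    rw [sup_comm]
    exact Submodule.add_mem_sup hx hy
  · refine sup_le le_sup_right ?_
    intro x hx
    obtain ⟨y, hy, hxy⟩ := hR4 x hx
    have h7 : x + y ∈ Ga := (hGa _).mpr ⟨x, hx, y, hy, hxy, rfl⟩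
    have h8 := Submodule.add_mem_sup h7 (al.neg_mem hy)
    simpa using h8

theorem blk_LEX : Stmt_LEX := by
  intro W _ _ t' t b' al htt hba h1 h2 hrk
  obtain ⟨φ⟩ := nonempty_linearEquiv_of_rank_eq hrk
  set K : Submodule ℚ (↥t × ↥al) := LinearMap.ker
    ((φ.toLinearMap.comp ((t'.comap t.subtype).mkQ.comp (LinearMap.fst ℚ ↥t ↥al))) -
      ((b'.comap al.subtype).mkQ.comp (LinearMap.snd ℚ ↥t ↥al))) with hK
  set Ga : Submodule ℚ W := K.map (t.subtype.coprod al.subtype) with hGa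
  have hmemK : ∀ (x : ↥t) (y : ↥al), (x, y) ∈ K ↔
      φ ((t'.comap t.subtype).mkQ x) = (b'.comap al.subtype).mkQ y := by
    intro x y
    rw [hK, LinearMap.mem_ker]
    simp [sub_eq_zero]
  have hmk1 : ∀ x : ↥t, (t'.comap t.subtype).mkQ x = 0 ↔ (x : W) ∈ t' := by
    intro x
    rw [Submodule.mkQ_apply, Submodule.Quotient.mk_eq_zero]
    rfl
  have hmk2 : ∀ y : ↥al, (b'.comap al.subtype).mkQ y = 0 ↔ (y : W) ∈ b' := by
    intro y
    rw [Submodule.mkQ_apply, Submodule.Quotient.mk_eq_zero]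
    rfl
  refine ⟨Ga, ?_, ?_⟩
  · refine LEX_map t' t b' al htt hba h1
      (fun x y => ∃ (hx : x ∈ t) (hy : y ∈ al), ((⟨x, hx⟩ : ↥t), (⟨y, hy⟩ : ↥al)) ∈ K) Ga
      ?_ ?_ ?_ ?_ ?_
    · intro v
      rw [hGa, Submodule.mem_map]
      constructor
      · rintro ⟨⟨x, y⟩, hxy, rfl⟩
        exact ⟨x, x.2, y, y.2, ⟨x.2, y.2, hxy⟩, by simp⟩
      · rintro ⟨x, hx, y, hy, ⟨hx', hy', hxy⟩, rfl⟩
        exact ⟨(⟨x, hx'⟩, ⟨y, hy'⟩), hxy, by simp⟩
    · rintro x hx y hy ⟨hx', hy', hxy⟩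
      rw [hmemK, (hmk1 ⟨x, hx'⟩).mpr hx, map_zero] at hxy
      exact (hmk2 ⟨y, hy'⟩).mp hxy.symm
    · intro y hy
      refine ⟨t.zero_mem, hba hy, ?_⟩
      rw [hmemK, (hmk1 _).mpr t'.zero_mem, map_zero, (hmk2 _).mpr hy]
    · intro x hx
      refine ⟨htt hx, al.zero_mem, ?_⟩
      rw [hmemK, (hmk1 _).mpr hx, map_zero, (hmk2 _).mpr b'.zero_mem]
    · intro x hx
      obtain ⟨y, hy⟩ := (b'.comap al.subtype).mkQ_surjective (φ ((t'.comap t.subtype).mkQ ⟨x, hx⟩))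
      exact ⟨y, y.2, hx, y.2, (hmemK _ _).mpr hy.symm⟩
  · refine LEX_map b' al t' t hba htt (by rw [inf_comm]; exact h2)
      (fun y x => ∃ (hx : x ∈ t) (hy : y ∈ al), ((⟨x, hx⟩ : ↥t), (⟨y, hy⟩ : ↥al)) ∈ K) Ga
      ?_ ?_ ?_ ?_ ?_
    · intro v
      rw [hGa, Submodule.mem_map]
      constructor
      · rintro ⟨⟨x, y⟩, hxy, rfl⟩
        exact ⟨y, y.2, x, x.2, ⟨x.2, y.2, hxy⟩, by simp [add_comm]⟩
      · rintro ⟨y, hy, x, hx, ⟨hx', hy', hxy⟩, rfl⟩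
        exact ⟨(⟨x, hx'⟩, ⟨y, hy'⟩), hxy, by simp [add_comm]⟩
    · rintro y hy x hx ⟨hx', hy', hxy⟩
      rw [hmemK, (hmk2 ⟨y, hy'⟩).mpr hy] at hxy
      have := φ.map_eq_zero_iff.mp hxy
      exact (hmk1 ⟨x, hx'⟩).mp this
    · intro x hx
      refine ⟨htt hx, al.zero_mem, ?_⟩
      rw [hmemK, (hmk1 _).mpr hx, map_zero, (hmk2 _).mpr b'.zero_mem]
    · intro y hy
      refine ⟨t.zero_mem, hba hy, ?_⟩
      rw [hmemK, (hmk1 _).mpr t'.zero_mem, map_zero, (hmk2 _).mpr hy]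
    · intro y hy
      obtain ⟨x, hx⟩ := (t'.comap t.subtype).mkQ_surjective
        (φ.symm ((b'.comap al.subtype).mkQ ⟨y, hy⟩))
      refine ⟨x, x.2, x.2, hy, (hmemK _ _).mpr ?_⟩
      rw [hx, φ.apply_symm_apply]

end Pool.NF
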