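import Pool.Agent.Work.MP_b103ef_pos.Interface1

set_option autoImplicit false

open Classical

namespace Pool.NF

theorem MEX_one {W : Type} [Lattice W] [IsModularLattice W] {t' t b' al : W} (ht : t' ≤ t)
    (hb : b' ≤ al) (h1 : t ⊓ al ≤ t') : MAP t' t b' al (b' ⊔ t) := by
  constructor
  · have e1 : (b' ⊔ t) ⊓ (al ⊔ t') = b' ⊔ t ⊓ (al ⊔ t') :=
      sup_inf_assoc_of_le t (hb.trans le_sup_left)
    have e2 : t ⊓ (al ⊔ t') = t' := by
      rw [inf_comm, sup_comm al t', sup_inf_assoc_of_le al ht]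
      exact sup_eq_left.2 (by rw [inf_comm]; exact h1)
    rw [e1, e2]
  · rw [sup_comm b' t, sup_assoc, sup_eq_right.2 hb, sup_comm]

theorem MEX_two {W : Type} [Lattice W] [IsModularLattice W] {t' t b' al Ga : W} (ht : t' ≤ t)
    (hb : b' ≤ al) (h2 : t ⊓ al ≤ b') (h : MAP t' t b' al Ga) :
    t' ≤ Ga ∧ b' ≤ Ga ∧ Ga ≤ al ⊔ t ∧ Ga ⊓ al = b' := by
  obtain ⟨g1, g2⟩ := h
  refine ⟨?_, ?_, ?_, ?_⟩
  · exact le_sup_right.trans (g1.ge.trans inf_le_left)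
  · exact le_sup_left.trans (g1.ge.trans inf_le_left)
  · rw [← g2]; exact le_sup_left
  · have e1 : Ga ⊓ al = (Ga ⊓ (al ⊔ t')) ⊓ al := by
      rw [inf_assoc, inf_comm (al ⊔ t') al, inf_sup_self]
    rw [e1, g1, sup_inf_assoc_of_le t' hb]
    exact sup_eq_left.2 ((inf_le_inf_right al ht).trans h2)

theorem MEX_d {W : Type} [Lattice W] [IsModularLattice W] {t' t b' al Ga : W} (ht : t' ≤ t)
    (hb : b' ≤ al) (h2 : t ⊓ al ≤ b') (h : MAP t' t b' al Ga) (r : W → W → Prop) (hr : IsCon r)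
    (hba : r b' al) : r (t ⊓ Ga) t := by
  obtain ⟨-, k2, -, -⟩ := MEX_two ht hb h2 h
  have s1 := (hr.2 b' al Ga Ga hba (hr.1.refl Ga)).1
  rw [sup_eq_right.2 k2, sup_comm al Ga, h.2] at s1
  have s2 := (hr.2 _ _ t t s1 (hr.1.refl t)).2
  rw [inf_comm Ga t, inf_comm (al ⊔ t) t, sup_comm al t, inf_sup_self] at s2
  exact s2

theorem MEX_e {W : Type} [Lattice W] [IsModularLattice W] {t' t b' al Ga : W} (ht : t' ≤ t)
    (hb : b' ≤ al) (h2 : t ⊓ al ≤ b') (h : MAP t' t b' al Ga) (r : W → W → Prop) (hr : IsCon r)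
    (htt : r t' t) : r b' (al ⊓ (Ga ⊔ t)) := by
  obtain ⟨k1, -, -, k4⟩ := MEX_two ht hb h2 h
  have s1 := (hr.2 t' t Ga Ga htt (hr.1.refl Ga)).1
  rw [sup_eq_right.2 k1, sup_comm t Ga] at s1
  have s2 := (hr.2 _ _ al al s1 (hr.1.refl al)).2
  rw [k4, inf_comm (Ga ⊔ t) al] at s2
  exact s2

theorem blk_MEX : Stmt_MEX := by
  intro W _ _ t' t b' al Ga ht hb h1 h2
  refine ⟨MEX_one ht hb h1, MEX_two ht hb h2, ?_, MEX_d ht hb h2, MEX_e ht hb h2, ?_⟩
  · intro h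
    have k := MEX_two hb ht (by rw [inf_comm]; exact h1) h.2
    refine ⟨k.2.2.2, ?_, ?_⟩
    · rw [h.2.2, sup_comm]
    · rw [h.2.2]; exact le_sup_right
  · intro h hG _ r hr
    refine ⟨fun htt => ?_, fun hba => ?_⟩
    · have := MEX_e ht hb h2 h r hr htt
      rw [hG, inf_sup_self] at this
      exact this
    · have := MEX_d ht hb h2 h r hr hba
      rw [inf_comm] at this
      exact this

end Pool.NF
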