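import Pool.Agent.Work.MP_b103ef_pos.Interface1

/-! # Block NAT: naturality of the frame maps (helper86) -/

set_option autoImplicit false

open Classical

namespace Pool.NF

section

variable {V P Q V' P' Q' : Type} [AddCommGroup V] [Module ℚ V] [AddCommGroup P] [Module ℚ P]
    [AddCommGroup Q] [Module ℚ Q] [AddCommGroup V'] [Module ℚ V'] [AddCommGroup P']
    [Module ℚ P'] [AddCommGroup Q'] [Module ℚ Q']

theorem NAT_sh0 (T : ℕ →₀ V) : (sh T : ℕ →₀ V) 0 = 0 := by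
  unfold sh
  rw [Finsupp.lmapDomain_apply]
  exact Finsupp.mapDomain_of_notMem_range _ _ (by simp)

theorem NAT_shs (T : ℕ →₀ V) (n : ℕ) : (sh T : ℕ →₀ V) (n + 1) = T n := by
  unfold sh
  rw [Finsupp.lmapDomain_apply]
  exact Finsupp.mapDomain_apply Nat.succ_injective _ _

theorem NAT_sb (T : ℕ →₀ V) (n : ℕ) : (sb T : ℕ →₀ V) n = T (n + 1) := rfl

theorem NAT_lift (f : V →ₗ[ℚ] V') (T : ℕ →₀ V) (n : ℕ) : (lift f T) n = f (T n) := rfl

theorem NAT_liftsh (f : V →ₗ[ℚ] V') (T : ℕ →₀ V) : lift f (sh T) = sh (lift f T) := by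
  ext n
  cases n with
  | zero => rw [NAT_lift, NAT_sh0, NAT_sh0, map_zero]
  | succ n => rw [NAT_lift, NAT_shs, NAT_shs, NAT_lift]

theorem NAT_liftsb (f : V →ₗ[ℚ] V') (T : ℕ →₀ V) : lift f (sb T) = sb (lift f T) := by
  ext n
  rw [NAT_lift, NAT_sb, NAT_sb, NAT_lift]

theorem NAT_liftsingle (f : V →ₗ[ℚ] V') (n : ℕ) (v : V) :
    lift f (Finsupp.single n v) = Finsupp.single n (f v) := by
  simp [lift]

theorem NAT_mapX (f : V →ₗ[ℚ] V') (g : P →ₗ[ℚ] P') (T R : ℕ →₀ V) (w : P) :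
    mapX f g (T, R, w) = (lift f T, lift f R, g w) := rfl

theorem NAT_mapY (f : V →ₗ[ℚ] V') (h : Q →ₗ[ℚ] Q') (y : ℕ →₀ V) (q : Q) :
    mapY f h (y, q) = (lift f y, h q) := rfl

theorem NAT_mapE (f : V →ₗ[ℚ] V') (g : P →ₗ[ℚ] P') (h : Q →ₗ[ℚ] Q') (x : FX V P) (z : V)
    (y : FY V Q) : mapE f g h (x, z, y) = (mapX f g x, f z, mapY f h y) := rfl

theorem NAT_eta (f : V →ₗ[ℚ] V') (g : P →ₗ[ℚ] P') (h : Q →ₗ[ℚ] Q') (x : FX V P) :
    mapY f h (mEta (Q := Q) x) = mEta (Q := Q') (mapX f g x) := by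
  obtain ⟨T, R, w⟩ := x
  have e : ∀ (V P Q : Type) [AddCommGroup V] [Module ℚ V] [AddCommGroup P] [Module ℚ P]
      [AddCommGroup Q] [Module ℚ Q] (T R : ℕ →₀ V) (w : P),
      mEta (Q := Q) ((T, R, w) : FX V P) = (sh (R - sb R), 0) := fun _ _ _ => by
    intros; rfl
  rw [NAT_mapX, e, e, NAT_mapY, NAT_liftsh, map_sub, NAT_liftsb, map_zero]

theorem NAT_kap (f : V →ₗ[ℚ] V') (g : P →ₗ[ℚ] P') (h : Q →ₗ[ℚ] Q') (x : FX V P) :
    mapY f h (mKap (Q := Q) x) = mKap (Q := Q') (mapX f g x) := by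
  obtain ⟨T, R, w⟩ := x
  have e : ∀ (V P Q : Type) [AddCommGroup V] [Module ℚ V] [AddCommGroup P] [Module ℚ P]
      [AddCommGroup Q] [Module ℚ Q] (T R : ℕ →₀ V) (w : P),
      mKap (Q := Q) ((T, R, w) : FX V P) =
        (sh (sb T - T) + Finsupp.single 0 ((sb T - T) 0), 0) := fun _ _ _ => by
    intros; rfl
  have e1 : lift f (sb T - T) = sb (lift f T) - lift f T := by rw [map_sub, NAT_liftsb]
  rw [NAT_mapX, e, e, NAT_mapY, map_add, NAT_liftsh, NAT_liftsingle, ← NAT_lift, e1, map_zero h]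

theorem NAT_S (f : V →ₗ[ℚ] V') (g : P →ₗ[ℚ] P') (z : V) :
    mapX f g (mS (P := P) z) = mS (P := P') (f z) := by
  have e : ∀ (V P : Type) [AddCommGroup V] [Module ℚ V] [AddCommGroup P] [Module ℚ P]
      (z : V), mS (P := P) z = (Finsupp.single 0 z, 0, 0) := fun _ _ => by
    intros; rfl
  rw [e, e, NAT_mapX, NAT_liftsingle, map_zero, map_zero]

theorem NAT_T (f : V →ₗ[ℚ] V') (g : P →ₗ[ℚ] P') (h : Q →ₗ[ℚ] Q') (y : FY V Q) :
    mapX f g (mT (P := P) y) = mT (P := P') (mapY f h y) := by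
  obtain ⟨y, q⟩ := y
  have e : ∀ (V P Q : Type) [AddCommGroup V] [Module ℚ V] [AddCommGroup P] [Module ℚ P]
      [AddCommGroup Q] [Module ℚ Q] (y : ℕ →₀ V) (q : Q),
      mT (P := P) ((y, q) : FY V Q) = (y, 0, 0) := fun _ _ _ => by
    intros; rfl
  rw [NAT_mapY, e, e, NAT_mapX, map_zero, map_zero]

theorem NAT_R (f : V →ₗ[ℚ] V') (g : P →ₗ[ℚ] P') (h : Q →ₗ[ℚ] Q') (y : FY V Q) :
    mapX f g (mR (P := P) y) = mR (P := P') (mapY f h y) := by
  obtain ⟨y, q⟩ := y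
  have e : ∀ (V P Q : Type) [AddCommGroup V] [Module ℚ V] [AddCommGroup P] [Module ℚ P]
      [AddCommGroup Q] [Module ℚ Q] (y : ℕ →₀ V) (q : Q),
      mR (P := P) ((y, q) : FY V Q) = (0, sb y, 0) := fun _ _ _ => by
    intros; rfl
  rw [NAT_mapY, e, e, NAT_mapX, map_zero, map_zero, NAT_liftsb]

theorem NAT_Rho (f : V →ₗ[ℚ] V') (h : Q →ₗ[ℚ] Q') (y : FY V Q) :
    f (mRho y) = mRho (mapY f h y) := by
  obtain ⟨y, q⟩ := y
  have e : ∀ (V Q : Type) [AddCommGroup V] [Module ℚ V]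
      [AddCommGroup Q] [Module ℚ Q] (y : ℕ →₀ V) (q : Q),
      mRho ((y, q) : FY V Q) = y 1 - y 0 := fun _ _ => by
    intros; rfl
  rw [NAT_mapY, e, e, map_sub, NAT_lift, NAT_lift]

end

theorem blk_NAT : Stmt_NAT := by
  intro V P Q V' P' Q' _ _ _ _ _ _ _ _ _ _ _ _ f g h
  refine ⟨⟨?_, ?_⟩, ⟨?_, ?_⟩, ⟨?_, ?_⟩, ⟨?_, ?_⟩, ⟨?_, ?_⟩, ⟨?_, ?_⟩, ⟨?_, ?_⟩, ⟨?_, ?_⟩,
    ⟨?_, ?_⟩, fun c => ?_⟩
  · refine LinearMap.ext fun x => ?_
    change mapE f g h (x, 0, 0) = (mapX f g x, 0, 0)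
    rw [NAT_mapE, map_zero, map_zero]
  · rfl
  · refine LinearMap.ext fun z => ?_
    change mapE f g h (0, z, 0) = (0, f z, 0)
    rw [NAT_mapE, map_zero, map_zero]
  · rfl
  · refine LinearMap.ext fun y => ?_
    change mapE f g h (0, 0, y) = (0, 0, mapY f h y)
    rw [NAT_mapE, map_zero, map_zero]
  · rfl
  · refine LinearMap.ext fun x => ?_
    have e : ∀ (V P Q : Type) [AddCommGroup V] [Module ℚ V] [AddCommGroup P] [Module ℚ P]
      [AddCommGroup Q] [Module ℚ Q] (x : FX V P),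
      incI (Q := Q) x = (x, 0, mEta (Q := Q) x) := fun _ _ _ => by
      intros
      simp [incI, incX, incY]
    rw [LinearMap.comp_apply, LinearMap.comp_apply, e, e, NAT_mapE, NAT_eta f g h, map_zero]
  · refine LinearMap.ext fun x => ?_
    obtain ⟨x, z, y⟩ := x
    rw [LinearMap.comp_apply, LinearMap.comp_apply, NAT_mapE]
    change mapX f g x - mS (f z) - mT (mapY f h y) + mT (mEta (mapX f g x)) =
      mapX f g (x - mS z - mT y + mT (mEta (Q := Q) x))
    rw [map_add, map_sub, map_sub, NAT_S, NAT_T f g h, NAT_T f g h, NAT_eta f g h]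
  · refine LinearMap.ext fun x => ?_
    obtain ⟨z, y⟩ := x
    have e : ∀ (V P Q : Type) [AddCommGroup V] [Module ℚ V] [AddCommGroup P] [Module ℚ P]
      [AddCommGroup Q] [Module ℚ Q] (z : V) (y : FY V Q),
      incK (P := P) (z, y) = (mS z + mT y, z, y) := fun _ _ _ => by
      intros
      simp [incK, incX, incY, incV]
    rw [LinearMap.comp_apply, LinearMap.comp_apply, e, LinearMap.prodMap_apply, e, NAT_mapE,
      map_add, NAT_S, NAT_T f g h]
  · refine LinearMap.ext fun x => ?_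
    obtain ⟨x, z, y⟩ := x
    rw [LinearMap.comp_apply, LinearMap.comp_apply, NAT_mapE]
    change (f z, mapY f h y - mEta (mapX f g x)) = (f z, mapY f h (y - mEta (Q := Q) x))
    rw [map_sub, NAT_eta f g h]
  · refine LinearMap.ext fun x => ?_
    obtain ⟨x, z⟩ := x
    have e : ∀ (V P Q : Type) [AddCommGroup V] [Module ℚ V] [AddCommGroup P] [Module ℚ P]
      [AddCommGroup Q] [Module ℚ Q] (x : FX V P) (z : V),
      incI' (Q := Q) (x, z) = (x, z, mKap (Q := Q) x) := fun _ _ _ => by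
      intros
      simp [incI', incX, incY, incV]
    rw [LinearMap.comp_apply, LinearMap.comp_apply, e, LinearMap.prodMap_apply, e, NAT_mapE,
      NAT_kap f g h]
  · refine LinearMap.ext fun x => ?_
    obtain ⟨x, z, y⟩ := x
    rw [LinearMap.comp_apply, LinearMap.comp_apply, NAT_mapE]
    change (mapX f g x - mR (mapY f h y) + mR (mKap (mapX f g x)), f z - mRho (mapY f h y)) =
      (mapX f g (x - mR y + mR (mKap (Q := Q) x)), f (z - mRho y))
    rw [map_add, map_sub, map_sub, NAT_R f g h, NAT_R f g h, NAT_kap f g h, NAT_Rho f h]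
  · refine LinearMap.ext fun y => ?_
    have e : ∀ (V P Q : Type) [AddCommGroup V] [Module ℚ V] [AddCommGroup P] [Module ℚ P]
      [AddCommGroup Q] [Module ℚ Q] (y : FY V Q),
      incK' (P := P) y = (mR y, mRho y, y) := fun _ _ _ => by
      intros
      simp [incK', incX, incY, incV]
    rw [LinearMap.comp_apply, LinearMap.comp_apply, e, e, NAT_mapE, NAT_R f g h, NAT_Rho f h]
  · refine LinearMap.ext fun x => ?_
    obtain ⟨x, z, y⟩ := x
    rw [LinearMap.comp_apply, LinearMap.comp_apply, NAT_mapE]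
    change mapY f h y - mKap (mapX f g x) = mapY f h (y - mKap (Q := Q) x)
    rw [map_sub, NAT_kap f g h]
  · refine LinearMap.ext fun w => ?_
    change mapE f g h ((0, 0, w), 0, 0) = ((0, 0, g w), 0, 0)
    rw [NAT_mapE, NAT_mapX, map_zero, map_zero, map_zero]
  · rfl
  · refine LinearMap.ext fun q => ?_
    change mapE f g h (0, 0, (0, q)) = (0, 0, (0, h q))
    rw [NAT_mapE, NAT_mapY, map_zero, map_zero, map_zero]
  · rfl
  · cases c with
    | T n =>
      refine ⟨LinearMap.ext fun z => ?_, rfl⟩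
      change mapE f g h ((Finsupp.single n z, 0, 0), 0, 0) = ((Finsupp.single n (f z), 0, 0), 0, 0)
      rw [NAT_mapE, NAT_mapX, map_zero, map_zero, map_zero, map_zero, NAT_liftsingle]
    | R n =>
      refine ⟨LinearMap.ext fun z => ?_, rfl⟩
      change mapE f g h ((0, Finsupp.single n z, 0), 0, 0) = ((0, Finsupp.single n (f z), 0), 0, 0)
      rw [NAT_mapE, NAT_mapX, map_zero, map_zero, map_zero, map_zero, NAT_liftsingle]
    | Z =>
      refine ⟨LinearMap.ext fun z => ?_, rfl⟩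
      change mapE f g h (0, z, 0) = (0, f z, 0)
      rw [NAT_mapE, map_zero, map_zero]
    | Y n =>
      refine ⟨LinearMap.ext fun z => ?_, rfl⟩
      change mapE f g h (0, 0, (Finsupp.single n z, 0)) = (0, 0, (Finsupp.single n (f z), 0))
      rw [NAT_mapE, NAT_mapY, map_zero, map_zero, map_zero, NAT_liftsingle]

end Pool.NF
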