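import Pool.Agent.Work.MP_b103ef_pos.Interface3

/-! # Block NCH (helper63): supports at hitting types of nonhitting index sets; adjacency -/

set_option autoImplicit false

open Classical

namespace Pool.NF

section
variable {L : Type}

theorem NCH_isV (w : V5 → V5) (hw : ∀ v, w v = V5.o ∨ w v = V5.i) (S : Set L) (φ : L → V5) :
    IsV S (w ∘ φ) := fun x _ => hw (φ x)

theorem NCH_pp (v : V5) : pp v = V5.o ∨ pp v = V5.i := by cases v <;> simp [pp]
theorem NCH_pq (v : V5) : pq v = V5.o ∨ pq v = V5.i := by cases v <;> simp [pq]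
theorem NCH_ps (v : V5) : ps v = V5.o ∨ ps v = V5.i := by cases v <;> simp [ps]

theorem NCH_not_hit {S : Set L} {χ : L → V5} (h : IsV S χ) : ¬ Hit S χ := by
  rintro ⟨⟨x, hx, hxa⟩, -, -⟩
  rcases h x hx with h' | h' <;> rw [hxa] at h' <;> exact absurd h' (by decide)

/-- supports at vertex types -/
theorem NCH_v {S : Set L} {χ : L → V5} (h : IsV S χ) (α β : Tm L) :
    NCs S χ α β ↔ NC (VG (max α.rank β.rank)) S χ α β := by
  unfold NCs NCz
  constructor
  · rintro (h' | h')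
    · exact h'.2
    · exact absurd h'.1 (NCH_not_hit h)
  · intro h'
    exact Or.inl ⟨h, h'⟩

/-- supports at hitting types -/
theorem NCH_h {S : Set L} {χ : L → V5} (h : Hit S χ) (α β : Tm L) :
    NCs S χ α β ↔ ENC (EG (max α.rank β.rank)) S χ α β := by
  unfold NCs NCz
  constructor
  · rintro (h' | h')
    · exact absurd h (NCH_not_hit h'.1)
    · exact h'.2
  · intro h'
    exact Or.inr ⟨h, h'⟩

theorem NCH_fr {S : Set L} {φ : L → V5} {n : ℕ} {V P Q : Type} [AddCommGroup V] [Module ℚ V]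
    [AddCommGroup P] [Module ℚ P] [AddCommGroup Q] [Module ℚ Q] {M : Str L (FE V P Q)}
    (h : EG n S φ V P Q M) : FrOK n S φ M := by
  cases n with
  | zero => exact h.1
  | succ n => exact h.2.1

/-- restriction of the index set for one vertex structure -/
theorem NCH_down (hVMO : Stmt_VMO) {Z S : Set L} (hZS : Z ⊆ S) {ρ : L → V5}
    {n : ℕ} {E : Type} [AddCommGroup E] [Module ℚ E] {M : Str L E} {α β : Tm L}
    (hM : VG n S ρ E M) (hl : ¬ M.Le α β) : NC (VG n) Z ρ α β := by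
  have hag : Str.Agree Z n M M :=
    ⟨fun _ _ _ => rfl, fun _ _ _ => rfl, fun _ _ _ _ => rfl⟩
  exact ⟨E, inferInstance, inferInstance, M,
    hVMO L S Z ρ ρ n n E M M hM le_rfl hZS (fun _ _ => rfl) hag, hl⟩

/-- a structure is a retract of its inverse image under a retraction -/
theorem NCH_retr (hRET : Stmt_RET) {S : Set L} {n : ℕ} {E F : Type} [AddCommGroup E] [Module ℚ E]
    [AddCommGroup F] [Module ℚ F] (M : Str L F) (inc : F →ₗ[ℚ] E) (pr : E →ₗ[ℚ] F)
    (h : ∀ v, pr (inc v) = v) {α β : Tm L} (hα : α.Over S) (hβ : β.Over S) (ra : α.rank ≤ n)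
    (rb : β.rank ≤ n) (hc : (M.pull pr).Le α β) : M.Le α β := by
  have e1 : pr.comp inc = LinearMap.id := LinearMap.ext h
  have e2 : (lift pr : (Lab L →₀ E) →ₗ[ℚ] (Lab L →₀ F)).comp (lift inc) = LinearMap.id := by
    rw [← Finsupp.mapRange.linearMap_comp, e1, Finsupp.mapRange.linearMap_id]
  have hom1 : Str.Hom S n M (M.pull pr) inc := by
    refine ⟨fun i _ l => ?_, fun Z' _ ψ => ?_, fun σ _ _ _ => ?_⟩
    · show M.x i l ≤ ((M.x i l).comap pr).comap inc
      rw [← Submodule.comap_comp, e1, Submodule.comap_id]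
    · show M.u Z' ψ ≤ ((M.u Z' ψ).comap pr).comap inc
      rw [← Submodule.comap_comp, e1, Submodule.comap_id]
    · show M.g σ ≤ ((M.g σ).comap (lift pr)).comap (lift inc)
      rw [← Submodule.comap_comp, e2, Submodule.comap_id]
  have hom2 : Str.Hom S n (M.pull pr) M pr :=
    ⟨fun _ _ _ => le_rfl, fun _ _ _ => le_rfl, fun _ _ _ _ => le_rfl⟩
  exact ((hRET L S n E F (M.pull pr) M inc pr h hom1 hom2).2 α β hα hβ ra rb).1 hc

/-- parts of a decomposition -/
theorem NCH_part (hRET : Stmt_RET) (hPUL : Stmt_PUL) {S : Set L} {n : ℕ} {E F : Type}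
    [AddCommGroup E] [Module ℚ E]
    [AddCommGroup F] [Module ℚ F] (M : Str L E) (inc : F →ₗ[ℚ] E) (pr : E →ₗ[ℚ] F)
    (h : ∀ v, pr (inc v) = v) (hH : Str.Hom S n M M (inc.comp pr)) {α β : Tm L}
    (hα : α.Over S) (hβ : β.Over S) (ra : α.rank ≤ n)
    (rb : β.rank ≤ n) (hc : M.Le α β) : (M.pull inc).Le α β := by
  have hp := hPUL L S n E F M inc pr h hH
  exact ((hRET L S n E F M (M.pull inc) inc pr h hp.1 hp.2).2 α β hα hβ ra rb).1 hc

end

theorem blk_NCH (hSUPV : Stmt_SUPV) (hEW : Stmt_EW) (hPLE : Stmt_PLE) (hFID : Stmt_FID)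
    (hVMO : Stmt_VMO) (hEPR : Stmt_EPR) (hRET : Stmt_RET) (hPUL : Stmt_PUL) (hAGR : Stmt_AGR)
    (hOVR : Stmt_OVR) : Stmt_NCH := by
  intro L hA Z S φ α β hZS hHit hα hβ
  obtain ⟨hEV, hEX, hEE⟩ := hA
  set n := max α.rank β.rank with hn
  have hra : α.rank ≤ n := le_max_left _ _
  have hrb : β.rank ≤ n := le_max_right _ _
  have ovr : ∀ S' : Set L, Z ⊆ S' → α.Over S' ∧ β.Over S' := fun S' h =>
    ⟨(hOVR L α).2.1 Z S' h hα, (hOVR L β).2.1 Z S' h hβ⟩
  have vp : ∀ T : Set L, IsV T (pp ∘ φ) := fun T => NCH_isV pp NCH_pp T φ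
  have vq : ∀ T : Set L, IsV T (pq ∘ φ) := fun T => NCH_isV pq NCH_pq T φ
  have vs : ∀ T : Set L, IsV T (ps ∘ φ) := fun T => NCH_isV ps NCH_ps T φ
  -- adjacency
  have adjp : NCs Z (pp ∘ φ) α β → NCs S φ α β := by
    intro h
    rw [NCH_v (vp Z)] at h
    rw [NCH_h hHit]
    have h' := (hSUPV L n (hEV n) n Z S (pp ∘ φ) le_rfl hZS (vp S) α β hα hβ hra hrb).1 h
    obtain ⟨E, _, _, M, hM, hl⟩ := h'
    refine ⟨PUnit, E, PUnit, inferInstance, inferInstance, inferInstance, inferInstance,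
      inferInstance, inferInstance, M.pull prP, (hEW L S φ n E M).1 hM, fun hc => hl ?_⟩
    have hinc : ∀ v : E, prP (incP v : FE PUnit E PUnit) = v :=
      (hFID PUnit E PUnit).2.2.2.1.1
    exact NCH_retr (E := FE PUnit E PUnit) (F := E) hRET M incP prP hinc (ovr S hZS).1 (ovr S hZS).2 hra hrb hc
  have adjq : NCs Z (pq ∘ φ) α β → NCs S φ α β := by
    intro h
    rw [NCH_v (vq Z)] at h
    rw [NCH_h hHit]
    have h' := (hSUPV L n (hEV n) n Z S (pq ∘ φ) le_rfl hZS (vq S) α β hα hβ hra hrb).1 h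
    obtain ⟨E, _, _, M, hM, hl⟩ := h'
    refine ⟨PUnit, PUnit, E, inferInstance, inferInstance, inferInstance, inferInstance,
      inferInstance, inferInstance, M.pull prQ, (hEW L S φ n E M).2 hM, fun hc => hl ?_⟩
    have hinc : ∀ v : E, prQ (incQ v : FE PUnit PUnit E) = v :=
      (hFID PUnit PUnit E).2.2.2.1.2.1
    exact NCH_retr (E := FE PUnit PUnit E) (F := E) hRET M incQ prQ hinc (ovr S hZS).1 (ovr S hZS).2 hra hrb hc
  refine ⟨fun hC => ⟨?_, ?_⟩, fun hAB => ⟨?_, ?_⟩, adjp, adjq⟩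
  · -- index sets without `c`
    have hZC : Z ⊆ dC S φ := fun z hz => ⟨hZS hz, hC z hz⟩
    rw [NCH_h hHit, NCH_v (vp Z), NCH_v (vs Z), NCH_v (vq Z)]
    rintro ⟨V, P, Q, _, _, _, _, _, _, M, hM, hl⟩
    obtain ⟨⟨hX, hV, hY, gX, gV, gY⟩, -⟩ := NCH_fr hM
    by_contra hno
    rw [not_or, not_or] at hno
    refine hl (hPLE L (dC S φ) n (FE V P Q) (Fin 3)
      ![(incX.comp prX : FE V P Q →ₗ[ℚ] FE V P Q), incV.comp prV, incY.comp prY]
      (hFID V P Q).2.2.2.2.2.1 M ?_ α β (ovr _ hZC).1 (ovr _ hZC).2 hra hrb ?_)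
    · intro a
      fin_cases a
      · exact hX
      · exact hV
      · exact hY
    · intro a
      fin_cases a
      · refine ⟨FX V P, inferInstance, inferInstance, incX, prX, (hFID V P Q).1.1, rfl, ?_⟩
        by_contra hh
        exact hno.1 (NCH_down hVMO hZC gX hh)
      · refine ⟨V, inferInstance, inferInstance, incV, prV, (hFID V P Q).1.2.1, rfl, ?_⟩
        by_contra hh
        exact hno.2.1 (NCH_down hVMO hZC gV hh)
      · refine ⟨FY V Q, inferInstance, inferInstance, incY, prY, (hFID V P Q).1.2.2.1, rfl, ?_⟩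
        by_contra hh
        exact hno.2.2 (NCH_down hVMO hZC gY hh)
  · rintro (h | h | h)
    · exact adjp h
    · -- type `s`
      have hZC : Z ⊆ dC S φ := fun z hz => ⟨hZS hz, hC z hz⟩
      rw [NCH_v (vs Z)] at h
      rw [NCH_h hHit]
      have h' := (hSUPV L n (hEV n) n Z (dC S φ) (ps ∘ φ) le_rfl hZC (vs _) α β hα hβ
        hra hrb).1 h
      obtain ⟨V, _, _, MV, hMV, hl⟩ := h'
      obtain ⟨V', P, Q, _, _, _, _, _, _, MV', M', -, hM', hag⟩ :=
        hEX n n le_rfl S φ hHit V MV hMV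
      refine ⟨V × V', P, Q, inferInstance, inferInstance, inferInstance, inferInstance,
        inferInstance, inferInstance, M', hM', fun hc => hl ?_⟩
      obtain ⟨⟨-, hV, -⟩, -⟩ := NCH_fr hM'
      have hinc : ∀ v : V × V', prV (incV v : FE (V × V') P Q) = v := (hFID (V × V') P Q).1.2.1
      have h1 := NCH_part hRET hPUL M' incV prV hinc hV (ovr _ hZC).1 (ovr _ hZC).2 hra hrb hc
      have h2 := ((hAGR L (dC S φ) n (V × V') (M'.pull incV) (MV.prod MV') hag).2.2.2.2 α β
        (ovr _ hZC).1 (ovr _ hZC).2 hra hrb).1 h1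
      exact (((hEPR L V V' MV MV' n).2.2.2.2.2 α β (ovr _ (Set.subset_univ _)).1
        (ovr _ (Set.subset_univ _)).2).1 h2).1
    · exact adjq h
  · -- index sets without `b` or without `a`
    rw [NCH_h hHit, NCH_v (vp Z), NCH_v (vq Z)]
    rintro ⟨V, P, Q, _, _, _, _, _, _, M, hM, hl⟩
    obtain ⟨-, ⟨hI, hK, gI, gK⟩, ⟨hI', hK', gI', gK'⟩, -⟩ := NCH_fr hM
    by_contra hno
    rw [not_or] at hno
    rcases hAB with hB | hA
    · have hZB : Z ⊆ dB S φ := fun z hz => ⟨hZS hz, hB z hz⟩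
      refine hl (hPLE L (dB S φ) n (FE V P Q) (Fin 2)
        ![(incI.comp prI : FE V P Q →ₗ[ℚ] FE V P Q), incK.comp prK]
        (hFID V P Q).2.2.2.2.2.2.1 M ?_ α β (ovr _ hZB).1 (ovr _ hZB).2 hra hrb ?_)
      · intro a
        fin_cases a
        · exact hI
        · exact hK
      · intro a
        fin_cases a
        · refine ⟨FX V P, inferInstance, inferInstance, incI, prI, (hFID V P Q).2.1.1, rfl, ?_⟩
          by_contra hh
          exact hno.1 (NCH_down hVMO hZB gI hh)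
        · refine ⟨V × FY V Q, inferInstance, inferInstance, incK, prK, (hFID V P Q).2.1.2.1,
            rfl, ?_⟩
          by_contra hh
          exact hno.2 (NCH_down hVMO hZB gK hh)
    · have hZA : Z ⊆ dA S φ := fun z hz => ⟨hZS hz, hA z hz⟩
      refine hl (hPLE L (dA S φ) n (FE V P Q) (Fin 2)
        ![(incI'.comp prI' : FE V P Q →ₗ[ℚ] FE V P Q), incK'.comp prK']
        (hFID V P Q).2.2.2.2.2.2.2.1 M ?_ α β (ovr _ hZA).1 (ovr _ hZA).2 hra hrb ?_)
      · intro a
        fin_cases a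
        · exact hI'
        · exact hK'
      · intro a
        fin_cases a
        · refine ⟨FX V P × V, inferInstance, inferInstance, incI', prI',
            (hFID V P Q).2.2.1.1, rfl, ?_⟩
          by_contra hh
          exact hno.1 (NCH_down hVMO hZA gI' hh)
        · refine ⟨FY V Q, inferInstance, inferInstance, incK', prK',
            (hFID V P Q).2.2.1.2.1, rfl, ?_⟩
          by_contra hh
          exact hno.2 (NCH_down hVMO hZA gK' hh)
  · rintro (h | h)
    · exact adjp h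
    · exact adjq h

end Pool.NF
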