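import Pool.Agent.Work.MP_b103ef_pos.Interface3

set_option autoImplicit false

open Classical

namespace Pool.NF

theorem NCI_excl {L : Type} {Z : Set L} {χ : L → V5} (h1 : IsV Z χ) : ¬ Hit Z χ := by
  rintro ⟨⟨x, hx, h2⟩, -, -⟩
  rcases h1 x hx with h3 | h3 <;> rw [h2] at h3 <;> exact absurd h3 (by decide)

theorem NCI_isV {L : Type} {Z S : Set L} {χ : L → V5} (hZS : Z ⊆ S) (h1 : IsV S χ) : IsV Z χ :=
  fun x hx => h1 x (hZS hx)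

theorem NCI_hit {L : Type} {Z S : Set L} {χ : L → V5} (hZS : Z ⊆ S) (h1 : Hit Z χ) : Hit S χ := by
  obtain ⟨⟨x, hx, h2⟩, ⟨y, hy, h3⟩, ⟨z, hz, h4⟩⟩ := h1
  exact ⟨⟨x, hZS hx, h2⟩, ⟨y, hZS hy, h3⟩, ⟨z, hZS hz, h4⟩⟩

theorem NCI_isV_congr {L : Type} {Z : Set L} {χ χ' : L → V5} (h : Set.EqOn χ χ' Z)
    (h1 : IsV Z χ) : IsV Z χ' := by
  intro x hx
  rw [← h hx]
  exact h1 x hx

theorem NCI_hit_congr {L : Type} {Z : Set L} {χ χ' : L → V5} (h : Set.EqOn χ χ' Z)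
    (h1 : Hit Z χ) : Hit Z χ' := by
  obtain ⟨⟨x, hx, h2⟩, ⟨y, hy, h3⟩, ⟨z, hz, h4⟩⟩ := h1
  exact ⟨⟨x, hx, by rw [← h hx]; exact h2⟩, ⟨y, hy, by rw [← h hy]; exact h3⟩,
    ⟨z, hz, by rw [← h hz]; exact h4⟩⟩

theorem NCI_agree {L : Type} {E : Type} [AddCommGroup E] [Module ℚ E] (S : Set L) (n : ℕ)
    (M : Str L E) : Str.Agree S n M M :=
  ⟨fun _ _ _ => rfl, fun _ _ _ => rfl, fun _ _ _ _ => rfl⟩

theorem NCI_congr (hVMO : Stmt_VMO) (hEMO : Stmt_EMO) {L : Type} {Z : Set L} {χ χ' : L → V5}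
    (h : Set.EqOn χ χ' Z) (m : ℕ) (α β : Tm L) (h1 : NCz m Z χ α β) : NCz m Z χ' α β := by
  rcases h1 with ⟨h2, E, i1, i2, M, hM, hle⟩ | ⟨h2, V, P, Q, i1, i2, i3, i4, i5, i6, M, hM, hle⟩
  · exact Or.inl ⟨NCI_isV_congr h h2, E, i1, i2, M,
      hVMO L Z Z χ χ' m m E M M hM le_rfl (subset_refl _) h (NCI_agree _ _ _), hle⟩
  · exact Or.inr ⟨NCI_hit_congr h h2, V, P, Q, i1, i2, i3, i4, i5, i6, M,
      hEMO L Z Z χ χ' m m V P Q M M hM le_rfl (subset_refl _) h (NCI_agree _ _ _), hle⟩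

theorem NCI_V {L : Type} {Z : Set L} {χ : L → V5} (h : IsV Z χ) (m : ℕ) (α β : Tm L) :
    NCz m Z χ α β ↔ NC (VG m) Z χ α β := by
  constructor
  · rintro (⟨-, h2⟩ | ⟨h2, -⟩)
    · exact h2
    · exact absurd h2 (NCI_excl h)
  · exact fun h2 => Or.inl ⟨h, h2⟩

theorem NCI_E {L : Type} {Z : Set L} {χ : L → V5} (h : Hit Z χ) (m : ℕ) (α β : Tm L) :
    NCz m Z χ α β ↔ ENC (EG m) Z χ α β := by
  constructor
  · rintro (⟨h2, -⟩ | ⟨-, h2⟩)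
    · exact absurd h (NCI_excl h2)
    · exact h2
  · exact fun h2 => Or.inr ⟨h, h2⟩

/-- `NCs` does not depend on the level and on the set -/
theorem blk_NCI (hSUPV : Stmt_SUPV) (hSUPE : Stmt_SUPE) (hVMO : Stmt_VMO) (hEMO : Stmt_EMO)
    (hOVR : Stmt_OVR) : Stmt_NCI := by
  intro L hAll Z S χ α β n hZS hα hβ hαn hβn
  have hαS : α.Over S := (hOVR L α).2.1 Z S hZS hα
  have hβS : β.Over S := (hOVR L β).2.1 Z S hZS hβ
  have hmn : max α.rank β.rank ≤ n := max_le hαn hβn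
  have k1 : ∀ (Z' : Set L) (n' : ℕ), Z' ⊆ S → α.Over Z' → β.Over Z' → max α.rank β.rank ≤ n' →
      IsV S χ → (NCs Z' χ α β ↔ NC (VG n') S χ α β) := by
    intro Z' n' hZ' hα' hβ' hn' hV
    unfold NCs
    rw [NCI_V (NCI_isV hZ' hV)]
    exact hSUPV L n' (hAll.1 n') (max α.rank β.rank) Z' S χ hn' hZ' hV α β hα' hβ'
      (le_max_left _ _) (le_max_right _ _)
  have k2 : ∀ (Z' : Set L) (n' : ℕ), Z' ⊆ S → α.Over Z' → β.Over Z' → max α.rank β.rank ≤ n' →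
      Hit Z' χ → (NCs Z' χ α β ↔ ENC (EG n') S χ α β) := by
    intro Z' n' hZ' hα' hβ' hn' hH
    unfold NCs
    rw [NCI_E hH]
    exact hSUPE L n' (hAll.2.2 n') (max α.rank β.rank) Z' S χ hn' hZ' hH α β hα' hβ'
      (le_max_left _ _) (le_max_right _ _)
  refine ⟨k1 Z n hZS hα hβ hmn, k2 Z n hZS hα hβ hmn, ?_, ?_⟩
  · intro χ' h
    exact ⟨NCI_congr hVMO hEMO h _ α β, NCI_congr hVMO hEMO h.symm _ α β⟩
  · rintro (hV | hH)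
    · rw [k1 Z _ hZS hα hβ le_rfl hV, k1 S _ (subset_refl _) hαS hβS le_rfl hV]
    · rw [k2 Z _ hZS hα hβ le_rfl hH, k2 S _ (subset_refl _) hαS hβS le_rfl (NCI_hit hZS hH)]

end Pool.NF
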