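import Pool.Agent.Work.MP_b103ef_pos.Interface3

/-! # Block NCM (helper7) -/

set_option autoImplicit false

open Classical

namespace Pool.NF

theorem blk_NCM (hNCI : Stmt_NCI) : Stmt_NCM := by
  intro L hAll Z χ α β n ha hb hra hrb
  have h := hNCI L hAll Z Z χ α β n (Set.Subset.refl Z) ha hb hra hrb
  constructor
  · intro hn
    refine ⟨?_, ?_⟩
    · intro hV E _ _ M hM
      by_contra hL
      exact hn ((h.1 hV).mpr ⟨E, _, _, M, hM, hL⟩)
    · intro hH V P Q _ _ _ _ _ _ M hM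
      by_contra hL
      exact hn ((h.2.1 hH).mpr ⟨V, P, Q, _, _, _, _, _, _, M, hM, hL⟩)
  · rintro ⟨h1, h2⟩ hN
    rcases (show (IsV Z χ ∧ NC (VG (max α.rank β.rank)) Z χ α β) ∨
      (Hit Z χ ∧ ENC (EG (max α.rank β.rank)) Z χ α β) from hN) with ⟨hV, _⟩ | ⟨hH, _⟩
    · obtain ⟨E, i1, i2, M, hM, hL⟩ := (h.1 hV).mp hN
      exact hL (h1 hV E M hM)
    · obtain ⟨V, P, Q, i1, i2, i3, i4, i5, i6, M, hM, hL⟩ := (h.2.1 hH).mp hN
      exact hL (h2 hH V P Q M hM)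

end Pool.NF
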