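import Pool.Agent.Work.MP_b103ef_pos.Interface1
import Pool.Agent.Work.MP_b103ef_pos.B_FID

/-! # Block OKA (helper18): the flag of a generator of type `a` is admissible -/

set_option autoImplicit false

open Classical

namespace Pool.NF

namespace OKAaux

open FIDaux

section

variable {V P Q : Type} [AddCommGroup V] [Module ℚ V] [AddCommGroup P] [Module ℚ P]
  [AddCommGroup Q] [Module ℚ Q]
variable (H : Submodule ℚ V) (HP : Submodule ℚ P) (HQ : Submodule ℚ Q)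

theorem m0 (v : FE V P Q) : v ∈ fl H HP HQ V5.a 0 ↔
    v.1.2.1 = 0 ∧ v.1.2.2 ∈ HP ∧ v.2.1 = 0 ∧ v.2.2 = 0 := by
  change ((prR v = 0 ∧ prP v ∈ HP) ∧ prV v = 0) ∧ prY v = 0 ↔ _
  constructor
  · rintro ⟨⟨⟨h1, h2⟩, h3⟩, h4⟩
    exact ⟨h1, h2, h3, h4⟩
  · rintro ⟨h1, h2, h3, h4⟩
    exact ⟨⟨⟨h1, h2⟩, h3⟩, h4⟩

theorem m1 (v : FE V P Q) : v ∈ fl H HP HQ V5.a 1 ↔
    v.1.2.1 = 0 ∧ v.1.2.2 ∈ HP ∧ v.2.1 ∈ H ∧ v.2.2.2 ∈ HQ := by
  change ((prR v = 0 ∧ prP v ∈ HP) ∧ prV v ∈ H) ∧ prQ v ∈ HQ ↔ _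
  constructor
  · rintro ⟨⟨⟨h1, h2⟩, h3⟩, h4⟩
    exact ⟨h1, h2, h3, h4⟩
  · rintro ⟨h1, h2, h3, h4⟩
    exact ⟨⟨⟨h1, h2⟩, h3⟩, h4⟩

theorem m2 (v : FE V P Q) : v ∈ fl H HP HQ V5.a 2 ↔ v.2.1 ∈ H ∧ v.2.2.2 ∈ HQ := by
  change (prV v ∈ H ∧ prQ v ∈ HQ) ↔ _
  exact Iff.rfl

/-- criterion -/
theorem pr_of (f : FE V P Q →ₗ[ℚ] FE V P Q)
    (h0 : ∀ v : FE V P Q, v.1.2.1 = 0 → v.1.2.2 ∈ HP → v.2.1 = 0 → v.2.2 = 0 →
      (f v).1.2.1 = 0 ∧ (f v).1.2.2 ∈ HP ∧ (f v).2.1 = 0 ∧ (f v).2.2 = 0)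
    (h1 : ∀ v : FE V P Q, v.1.2.1 = 0 → v.1.2.2 ∈ HP → v.2.1 ∈ H → v.2.2.2 ∈ HQ →
      (f v).1.2.1 = 0 ∧ (f v).1.2.2 ∈ HP ∧ (f v).2.1 ∈ H ∧ (f v).2.2.2 ∈ HQ)
    (h2 : ∀ v : FE V P Q, v.2.1 ∈ H → v.2.2.2 ∈ HQ → (f v).2.1 ∈ H ∧ (f v).2.2.2 ∈ HQ) :
    Pr (fl H HP HQ V5.a) f := by
  intro l
  fin_cases l
  · intro v hv
    rw [Submodule.mem_comap]
    have hv' := (m0 H HP HQ v).1 hv
    exact (m0 H HP HQ _).2 (h0 v hv'.1 hv'.2.1 hv'.2.2.1 hv'.2.2.2)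
  · intro v hv
    rw [Submodule.mem_comap]
    have hv' := (m1 H HP HQ v).1 hv
    exact (m1 H HP HQ _).2 (h1 v hv'.1 hv'.2.1 hv'.2.2.1 hv'.2.2.2)
  · intro v hv
    rw [Submodule.mem_comap]
    have hv' := (m2 H HP HQ v).1 hv
    exact (m2 H HP HQ _).2 (h2 v hv'.1 hv'.2)

theorem eta0 (x : FX V P) (h : x.2.1 = 0) : (mEta x : FY V Q) = 0 := by
  change ((sh (x.2.1 - sb x.2.1), 0) : FY V Q) = 0
  rw [h]
  simp

theorem eta2 (x : FX V P) : (mEta x : FY V Q).2 = 0 := rfl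

theorem ms21 (z : V) : (mS z : FX V P).2.1 = 0 := rfl
theorem ms22 (z : V) : (mS z : FX V P).2.2 = 0 := rfl
theorem mt21 (y : FY V Q) : (mT y : FX V P).2.1 = 0 := rfl
theorem mt22 (y : FY V Q) : (mT y : FX V P).2.2 = 0 := rfl

theorem i21 (v : FE V P Q) : (prI v).2.1 = v.1.2.1 := by
  rw [prI_apply]
  change v.1.2.1 - 0 - 0 + 0 = _
  simp

theorem i22 (v : FE V P Q) : (prI v).2.2 = v.1.2.2 := by
  rw [prI_apply]
  change v.1.2.2 - 0 - 0 + 0 = _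
  simp

end

end OKAaux

open FIDaux OKAaux in
theorem blk_OKA : Stmt_OKA := by
  intro V P Q _ _ _ _ _ _ H HP HQ
  refine ⟨fun _ => ⟨⟨?_, ?_, ?_⟩, ⟨?_, ?_⟩, ⟨?_, ?_⟩, ⟨?_, ?_⟩⟩,
    fun _ => ⟨⟨?_, ?_⟩, ⟨?_, ?_⟩, ⟨?_, ?_⟩⟩, fun h => absurd rfl h, ?_⟩
  · refine pr_of H HP HQ _ ?_ ?_ ?_
    · intro v h1 h2 h3 h4
      exact ⟨h1, h2, rfl, rfl⟩
    · intro v h1 h2 h3 h4
      exact ⟨h1, h2, H.zero_mem, HQ.zero_mem⟩
    · intro v h1 h2
      exact ⟨H.zero_mem, HQ.zero_mem⟩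
  · refine pr_of H HP HQ _ ?_ ?_ ?_
    · intro v h1 h2 h3 h4
      exact ⟨rfl, HP.zero_mem, h3, rfl⟩
    · intro v h1 h2 h3 h4
      exact ⟨rfl, HP.zero_mem, h3, HQ.zero_mem⟩
    · intro v h1 h2
      exact ⟨h1, HQ.zero_mem⟩
  · refine pr_of H HP HQ _ ?_ ?_ ?_
    · intro v h1 h2 h3 h4
      exact ⟨rfl, HP.zero_mem, rfl, h4⟩
    · intro v h1 h2 h3 h4
      exact ⟨rfl, HP.zero_mem, H.zero_mem, h4⟩
    · intro v h1 h2
      exact ⟨H.zero_mem, h2⟩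
  · intro _
    refine ⟨?_, ?_⟩
    · ext x
      change (incX x : FE V P Q) ∈ fl H HP HQ V5.a 0 ↔ (incX x : FE V P Q) ∈ fl H HP HQ V5.a 1
      rw [m0, m1]
      constructor
      · rintro ⟨h1, h2, -, -⟩
        exact ⟨h1, h2, H.zero_mem, HQ.zero_mem⟩
      · rintro ⟨h1, h2, -, -⟩
        exact ⟨h1, h2, rfl, rfl⟩
    · ext x
      change (incX x : FE V P Q) ∈ fl H HP HQ V5.a 2 ↔ x ∈ (⊤ : Submodule ℚ (FX V P))
      rw [m2]
      exact ⟨fun _ => Submodule.mem_top, fun _ => ⟨H.zero_mem, HQ.zero_mem⟩⟩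
  · intro h
    exact absurd h (by decide)
  · intro h
    exact absurd h (by decide)
  · intro _
    refine ⟨?_, ?_⟩
    · ext z
      change (incV z : FE V P Q) ∈ fl H HP HQ V5.a 0 ↔ z ∈ (⊥ : Submodule ℚ V)
      rw [m0, Submodule.mem_bot]
      constructor
      · rintro ⟨-, -, h, -⟩
        exact h
      · intro h
        exact ⟨rfl, HP.zero_mem, h, rfl⟩
    · ext z
      change (incV z : FE V P Q) ∈ fl H HP HQ V5.a 2 ↔ (incV z : FE V P Q) ∈ fl H HP HQ V5.a 1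
      rw [m2, m1]
      constructor
      · rintro ⟨h, h'⟩
        exact ⟨rfl, HP.zero_mem, h, h'⟩
      · rintro ⟨-, -, h, h'⟩
        exact ⟨h, h'⟩
  · intro h
    exact absurd h (by decide)
  · intro _
    refine ⟨?_, ?_⟩
    · ext y
      change (incY y : FE V P Q) ∈ fl H HP HQ V5.a 0 ↔ y ∈ (⊥ : Submodule ℚ (FY V Q))
      rw [m0, Submodule.mem_bot]
      constructor
      · rintro ⟨-, -, -, h⟩
        exact h
      · intro h
        exact ⟨rfl, HP.zero_mem, rfl, h⟩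
    · ext y
      change (incY y : FE V P Q) ∈ fl H HP HQ V5.a 2 ↔ (incY y : FE V P Q) ∈ fl H HP HQ V5.a 1
      rw [m2, m1]
      constructor
      · rintro ⟨h, h'⟩
        exact ⟨rfl, HP.zero_mem, h, h'⟩
      · rintro ⟨-, -, h, h'⟩
        exact ⟨h, h'⟩
  · refine pr_of H HP HQ _ ?_ ?_ ?_
    · intro v h1 h2 h3 h4
      rw [LinearMap.comp_apply, incI_apply]
      exact ⟨(i21 v).trans h1, by rw [i22 v]; exact h2, rfl, eta0 _ ((i21 v).trans h1)⟩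
    · intro v h1 h2 h3 h4
      rw [LinearMap.comp_apply, incI_apply]
      exact ⟨(i21 v).trans h1, by rw [i22 v]; exact h2, H.zero_mem, HQ.zero_mem⟩
    · intro v h1 h2
      rw [LinearMap.comp_apply, incI_apply]
      exact ⟨H.zero_mem, HQ.zero_mem⟩
  · refine pr_of H HP HQ _ ?_ ?_ ?_
    · intro v h1 h2 h3 h4
      rw [LinearMap.comp_apply, prK_apply, incK_apply]
      refine ⟨?_, ?_, h3, ?_⟩
      · change (0 : ℕ →₀ V) + 0 = 0
        simp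
      · change (0 : P) + 0 ∈ HP
        simp
      · change v.2.2 - mEta v.1 = 0
        rw [h4, eta0 _ h1, sub_zero]
    · intro v h1 h2 h3 h4
      rw [LinearMap.comp_apply, prK_apply, incK_apply]
      refine ⟨?_, ?_, h3, ?_⟩
      · change (0 : ℕ →₀ V) + 0 = 0
        simp
      · change (0 : P) + 0 ∈ HP
        simp
      · change v.2.2.2 - 0 ∈ HQ
        rw [sub_zero]
        exact h4
    · intro v h1 h2
      rw [LinearMap.comp_apply, prK_apply, incK_apply]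
      refine ⟨h1, ?_⟩
      change v.2.2.2 - 0 ∈ HQ
      rw [sub_zero]
      exact h2
  · intro _
    refine ⟨?_, ?_⟩
    · ext x
      change (incI x : FE V P Q) ∈ fl H HP HQ V5.a 0 ↔ (incI x : FE V P Q) ∈ fl H HP HQ V5.a 1
      rw [m0, m1, incI_apply]
      constructor
      · rintro ⟨h1, h2, -, -⟩
        exact ⟨h1, h2, H.zero_mem, HQ.zero_mem⟩
      · rintro ⟨h1, h2, -, -⟩
        exact ⟨h1, h2, rfl, eta0 x h1⟩
    · ext x
      change (incI x : FE V P Q) ∈ fl H HP HQ V5.a 2 ↔ x ∈ (⊤ : Submodule ℚ (FX V P))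
      rw [m2, incI_apply]
      exact ⟨fun _ => Submodule.mem_top, fun _ => ⟨H.zero_mem, HQ.zero_mem⟩⟩
  · intro h
    exact absurd h (by decide)
  · intro h
    exact absurd h (by decide)
  · intro _
    refine ⟨?_, ?_⟩
    · ext y
      change (incK y : FE V P Q) ∈ fl H HP HQ V5.a 0 ↔ y ∈ (⊥ : Submodule ℚ (V × FY V Q))
      rw [m0, Submodule.mem_bot, incK_apply]
      constructor
      · rintro ⟨-, -, h, h'⟩
        exact Prod.ext h h'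
      · intro h
        rw [h]
        refine ⟨?_, ?_, rfl, rfl⟩
        · change (0 : ℕ →₀ V) + 0 = 0
          simp
        · change (0 : P) + 0 ∈ HP
          simp
    · ext y
      change (incK y : FE V P Q) ∈ fl H HP HQ V5.a 2 ↔ (incK y : FE V P Q) ∈ fl H HP HQ V5.a 1
      rw [m2, m1, incK_apply]
      constructor
      · rintro ⟨h, h'⟩
        refine ⟨?_, ?_, h, h'⟩
        · change (0 : ℕ →₀ V) + 0 = 0
          simp
        · change (0 : P) + 0 ∈ HP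
          simp
      · rintro ⟨-, -, h, h'⟩
        exact ⟨h, h'⟩
  · intro h
    rcases h with h | h
    · exact absurd h (by decide)
    · exact absurd h (by decide)

end Pool.NF
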