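import Pool.Agent.Work.MP_b103ef_pos.Interface1

set_option autoImplicit false

open Classical

namespace Pool.NF

section OKB

variable {V P Q : Type} [AddCommGroup V] [Module ℚ V] [AddCommGroup P] [Module ℚ P]
  [AddCommGroup Q] [Module ℚ Q]

theorem OKB_sb (v : ℕ →₀ V) (n : ℕ) : (sb v) n = v (n + 1) := by
  simp [sb]

theorem OKB_sh0 (v : ℕ →₀ V) : (sh v) 0 = 0 := by
  simp only [sh, Finsupp.lmapDomain_apply]
  apply Finsupp.mapDomain_notin_range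
  rintro ⟨n, hn⟩
  exact Nat.succ_ne_zero n hn

theorem OKB_sh1 (v : ℕ →₀ V) (n : ℕ) : (sh v) (n + 1) = v n := by
  simp only [sh, Finsupp.lmapDomain_apply]
  exact Finsupp.mapDomain_apply Nat.succ_injective v n

theorem OKB_e00 (v : V) : (Finsupp.single 0 v : ℕ →₀ V) 0 = v := Finsupp.single_eq_same

theorem OKB_e01 (v : V) (n : ℕ) : (Finsupp.single 0 v : ℕ →₀ V) (n + 1) = 0 := by
  rw [Finsupp.single_apply, if_neg (Nat.succ_ne_zero n).symm]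

/-- the value of `κ` -/
noncomputable def OKB_k (T : ℕ →₀ V) : ℕ →₀ V :=
  sh (sb T - T) + Finsupp.single 0 (T 1 - T 0)

theorem OKB_kap (T R : ℕ →₀ V) (w : P) :
    (mKap (T, (R, w)) : FY V Q) = (OKB_k T, 0) := by
  simp [mKap, OKB_k, OKB_sb]

theorem OKB_k0 (T : ℕ →₀ V) : OKB_k T 0 = T 1 - T 0 := by
  simp [OKB_k, OKB_sh0]

theorem OKB_k1 (T : ℕ →₀ V) (n : ℕ) : OKB_k T (n + 1) = T (n + 1) - T n := by
  simp [OKB_k, OKB_sh1, OKB_sb, OKB_e01]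

theorem OKB_kzero : OKB_k (0 : ℕ →₀ V) = 0 := by
  ext n
  cases n with
  | zero => simp [OKB_k0]
  | succ n => simp [OKB_k1]

/-- the value of `η` -/
noncomputable def OKB_h (R : ℕ →₀ V) : ℕ →₀ V := sh (R - sb R)

theorem OKB_eta (T R : ℕ →₀ V) (w : P) : (mEta (T, (R, w)) : FY V Q) = (OKB_h R, 0) := by
  simp [mEta, OKB_h]

theorem OKB_h0 (R : ℕ →₀ V) : OKB_h R 0 = 0 := by
  simp [OKB_h, OKB_sh0]

theorem OKB_h1 (R : ℕ →₀ V) (n : ℕ) : OKB_h R (n + 1) = R n - R (n + 1) := by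
  simp [OKB_h, OKB_sh1, OKB_sb]

theorem OKB_rho (y : ℕ →₀ V) (q : Q) : mRho (y, q) = y 1 - y 0 := by
  simp [mRho]

theorem OKB_r (y : ℕ →₀ V) (q : Q) : (mR (y, q) : FX V P) = (0, (sb y, 0)) := by
  simp [mR]

theorem OKB_s (z : V) : (mS z : FX V P) = (Finsupp.single 0 z, (0, 0)) := by
  simp [mS]
  rfl

theorem OKB_t (y : ℕ →₀ V) (q : Q) : (mT (y, q) : FX V P) = (y, (0, 0)) := by
  simp [mT]
  rfl

theorem OKB_incX (x : FX V P) : (incX x : FE V P Q) = (x, (0, 0)) := rfl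
theorem OKB_incV (z : V) : (incV z : FE V P Q) = (0, (z, 0)) := rfl
theorem OKB_incY (y : FY V Q) : (incY y : FE V P Q) = (0, (0, y)) := rfl
theorem OKB_prX (v : FE V P Q) : prX v = v.1 := rfl
theorem OKB_prV (v : FE V P Q) : prV v = v.2.1 := rfl
theorem OKB_prY (v : FE V P Q) : prY v = v.2.2 := rfl

theorem OKB_incI (T R : ℕ →₀ V) (w : P) :
    (incI (T, (R, w)) : FE V P Q) = ((T, (R, w)), (0, (OKB_h R, 0))) := by
  simp [incI, OKB_incX, OKB_incY, OKB_eta]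

theorem OKB_incK (z : V) (y : ℕ →₀ V) (q : Q) :
    (incK (z, (y, q)) : FE V P Q) = ((Finsupp.single 0 z + y, (0, 0)), (z, (y, q))) := by
  simp [incK, OKB_incX, OKB_incY, OKB_incV, OKB_s, OKB_t]

theorem OKB_incI' (T R : ℕ →₀ V) (w : P) (z : V) :
    (incI' ((T, (R, w)), z) : FE V P Q) = ((T, (R, w)), (z, (OKB_k T, 0))) := by
  simp [incI', OKB_incX, OKB_incY, OKB_incV, OKB_kap]

theorem OKB_incK' (y : ℕ →₀ V) (q : Q) :
    (incK' (y, q) : FE V P Q) = ((0, (sb y, 0)), (y 1 - y 0, (y, q))) := by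
  simp [incK', OKB_incX, OKB_incY, OKB_incV, OKB_r, OKB_rho]

theorem OKB_prI (T R : ℕ →₀ V) (w : P) (z : V) (y : ℕ →₀ V) (q : Q) :
    prI ((T, (R, w)), (z, (y, q))) = (T - Finsupp.single 0 z - y + OKB_h R, (R, w)) := by
  simp [prI, OKB_prX, OKB_prY, OKB_prV, OKB_s, OKB_t, OKB_eta]

theorem OKB_prK (T R : ℕ →₀ V) (w : P) (z : V) (y : ℕ →₀ V) (q : Q) :
    prK ((T, (R, w)), (z, (y, q))) = (z, (y - OKB_h R, q)) := by
  simp [prK, OKB_prX, OKB_prY, OKB_prV, OKB_eta]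

theorem OKB_prI' (T R : ℕ →₀ V) (w : P) (z : V) (y : ℕ →₀ V) (q : Q) :
    prI' ((T, (R, w)), (z, (y, q))) = ((T, (R - sb y + sb (OKB_k T), w)), z - (y 1 - y 0)) := by
  simp [prI', OKB_prX, OKB_prY, OKB_prV, OKB_r, OKB_rho, OKB_kap]

theorem OKB_prK' (T R : ℕ →₀ V) (w : P) (z : V) (y : ℕ →₀ V) (q : Q) :
    prK' ((T, (R, w)), (z, (y, q))) = (y - OKB_k T, q) := by
  simp [prK', OKB_prX, OKB_prY, OKB_kap]

variable (H : Submodule ℚ V) (HP : Submodule ℚ P) (HQ : Submodule ℚ Q)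

theorem OKB_m0 (T R : ℕ →₀ V) (w : P) (z : V) (y : ℕ →₀ V) (q : Q) :
    ((T, (R, w)), (z, (y, q))) ∈ flB H HP HQ 0 ↔ T = 0 ∧ w ∈ HP ∧ z ∈ H ∧ y = 0 ∧ q = 0 := by
  simp [flB, prT, prP, OKB_prX, OKB_prY, OKB_prV, and_assoc, Prod.mk_eq_zero]

theorem OKB_m1 (T R : ℕ →₀ V) (w : P) (z : V) (y : ℕ →₀ V) (q : Q) :
    ((T, (R, w)), (z, (y, q))) ∈ flB H HP HQ 1 ↔
      T = 0 ∧ w ∈ HP ∧ z ∈ H ∧ y 1 - y 0 ∈ H ∧ q ∈ HQ := by
  simp [flB, prT, prP, prQ, OKB_prX, OKB_prY, OKB_prV, OKB_rho, and_assoc]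

theorem OKB_m2 (T R : ℕ →₀ V) (w : P) (z : V) (y : ℕ →₀ V) (q : Q) :
    ((T, (R, w)), (z, (y, q))) ∈ flB H HP HQ 2 ↔ y 1 - y 0 ∈ H ∧ q ∈ HQ := by
  simp [flB, prQ, OKB_prY, OKB_rho]

theorem blk_OKB : Stmt_OKB := by
  intro V P Q _ _ _ _ _ _ H HP HQ
  have hk : ∀ T : ℕ →₀ V, OKB_k T 1 - OKB_k T 0 = 0 := by
    intro T
    rw [OKB_k0, OKB_k1, zero_add, sub_self]
  refine ⟨fun _ => ⟨⟨?_, ?_, ?_⟩, ?_, ?_, ?_⟩, fun h => absurd rfl h,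
    fun _ => ⟨⟨?_, ?_⟩, ?_, ?_⟩, fun h => ?_⟩
  · -- incX prX
    intro l
    rintro ⟨⟨T, R, w⟩, ⟨z, y, q⟩⟩ hv
    change (incX (prX ((T, (R, w)), (z, (y, q)))) : FE V P Q) ∈ flB H HP HQ l
    rw [OKB_prX, OKB_incX]
    fin_cases l
    · have h := (OKB_m0 H HP HQ T R w z y q).1 hv
      exact (OKB_m0 H HP HQ T R w 0 0 0).2 ⟨h.1, h.2.1, H.zero_mem, rfl, rfl⟩
    · have h := (OKB_m1 H HP HQ T R w z y q).1 hv
      exact (OKB_m1 H HP HQ T R w 0 0 0).2 ⟨h.1, h.2.1, H.zero_mem, by simp, HQ.zero_mem⟩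
    · exact (OKB_m2 H HP HQ T R w 0 0 0).2 ⟨by simp, HQ.zero_mem⟩
  · -- incV prV
    intro l
    rintro ⟨⟨T, R, w⟩, ⟨z, y, q⟩⟩ hv
    change (incV (prV ((T, (R, w)), (z, (y, q)))) : FE V P Q) ∈ flB H HP HQ l
    rw [OKB_prV, OKB_incV]
    fin_cases l
    · have h := (OKB_m0 H HP HQ T R w z y q).1 hv
      exact (OKB_m0 H HP HQ 0 0 0 z 0 0).2 ⟨rfl, HP.zero_mem, h.2.2.1, rfl, rfl⟩
    · have h := (OKB_m1 H HP HQ T R w z y q).1 hv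
      exact (OKB_m1 H HP HQ 0 0 0 z 0 0).2 ⟨rfl, HP.zero_mem, h.2.2.1, by simp, HQ.zero_mem⟩
    · exact (OKB_m2 H HP HQ 0 0 0 z 0 0).2 ⟨by simp, HQ.zero_mem⟩
  · -- incY prY
    intro l
    rintro ⟨⟨T, R, w⟩, ⟨z, y, q⟩⟩ hv
    change (incY (prY ((T, (R, w)), (z, (y, q)))) : FE V P Q) ∈ flB H HP HQ l
    rw [OKB_prY, OKB_incY]
    fin_cases l
    · have h := (OKB_m0 H HP HQ T R w z y q).1 hv
      exact (OKB_m0 H HP HQ 0 0 0 0 y q).2 ⟨rfl, HP.zero_mem, H.zero_mem, h.2.2.2.1, h.2.2.2.2⟩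
    · have h := (OKB_m1 H HP HQ T R w z y q).1 hv
      exact (OKB_m1 H HP HQ 0 0 0 0 y q).2 ⟨rfl, HP.zero_mem, H.zero_mem, h.2.2.2.1, h.2.2.2.2⟩
    · have h := (OKB_m2 H HP HQ T R w z y q).1 hv
      exact (OKB_m2 H HP HQ 0 0 0 0 y q).2 h
  · -- Ty on X, type i
    refine ⟨fun _ => ⟨?_, ?_⟩, fun h => by cases h⟩
    · ext ⟨T, R, w⟩
      change ((T, (R, w)), ((0 : V), ((0 : ℕ →₀ V), (0 : Q)))) ∈ flB H HP HQ 0 ↔
        ((T, (R, w)), ((0 : V), ((0 : ℕ →₀ V), (0 : Q)))) ∈ flB H HP HQ 1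
      rw [OKB_m0, OKB_m1]
      simp
    · rw [eq_top_iff]
      rintro ⟨T, R, w⟩ _
      exact (OKB_m2 H HP HQ T R w 0 0 0).2 ⟨by simp, HQ.zero_mem⟩
  · -- Ty on V, type i
    refine ⟨fun _ => ⟨?_, ?_⟩, fun h => by cases h⟩
    · ext z
      change (((0 : ℕ →₀ V), ((0 : ℕ →₀ V), (0 : P))), (z, ((0 : ℕ →₀ V), (0 : Q)))) ∈
          flB H HP HQ 0 ↔
        (((0 : ℕ →₀ V), ((0 : ℕ →₀ V), (0 : P))), (z, ((0 : ℕ →₀ V), (0 : Q)))) ∈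
          flB H HP HQ 1
      rw [OKB_m0, OKB_m1]
      simp
    · rw [eq_top_iff]
      intro z _
      exact (OKB_m2 H HP HQ 0 0 0 z 0 0).2 ⟨by simp, HQ.zero_mem⟩
  · -- Ty on Y, type o
    refine ⟨fun h => (by cases h), fun _ => ⟨?_, ?_⟩⟩
    · rw [eq_bot_iff]
      rintro ⟨y, q⟩ hv
      have h := (OKB_m0 H HP HQ 0 0 0 0 y q).1 hv
      rw [Submodule.mem_bot]
      exact Prod.ext h.2.2.2.1 h.2.2.2.2
    · ext ⟨y, q⟩
      change (((0 : ℕ →₀ V), ((0 : ℕ →₀ V), (0 : P))), ((0 : V), (y, q))) ∈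
          flB H HP HQ 2 ↔
        (((0 : ℕ →₀ V), ((0 : ℕ →₀ V), (0 : P))), ((0 : V), (y, q))) ∈
          flB H HP HQ 1
      rw [OKB_m2, OKB_m1]
      simp
  · -- incI' prI'
    intro l
    rintro ⟨⟨T, R, w⟩, ⟨z, y, q⟩⟩ hv
    change (incI' (prI' ((T, (R, w)), (z, (y, q)))) : FE V P Q) ∈ flB H HP HQ l
    rw [OKB_prI', OKB_incI']
    fin_cases l
    · have h := (OKB_m0 H HP HQ T R w z y q).1 hv
      refine (OKB_m0 H HP HQ _ _ _ _ _ _).2 ⟨h.1, h.2.1, ?_, ?_, rfl⟩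
      · rw [h.2.2.2.1]
        simpa using h.2.2.1
      · rw [h.1, OKB_kzero]
    · have h := (OKB_m1 H HP HQ T R w z y q).1 hv
      refine (OKB_m1 H HP HQ _ _ _ _ _ _).2 ⟨h.1, h.2.1, ?_, ?_, HQ.zero_mem⟩
      · exact H.sub_mem h.2.2.1 h.2.2.2.1
      · rw [hk]
        exact H.zero_mem
    · refine (OKB_m2 H HP HQ _ _ _ _ _ _).2 ⟨?_, HQ.zero_mem⟩
      rw [hk]
      exact H.zero_mem
  · -- incK' prK'
    intro l
    rintro ⟨⟨T, R, w⟩, ⟨z, y, q⟩⟩ hv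
    change (incK' (prK' ((T, (R, w)), (z, (y, q)))) : FE V P Q) ∈ flB H HP HQ l
    rw [OKB_prK', OKB_incK']
    have h1 : (y - OKB_k T) 1 - (y - OKB_k T) 0 = y 1 - y 0 := by
      have h2 := hk T
      rw [Finsupp.sub_apply, Finsupp.sub_apply]
      rw [sub_eq_zero] at h2
      rw [h2]
      abel
    fin_cases l
    · have h := (OKB_m0 H HP HQ T R w z y q).1 hv
      have hy : y - OKB_k T = 0 := by
        rw [h.1, OKB_kzero, h.2.2.2.1, sub_zero]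
      refine (OKB_m0 H HP HQ _ _ _ _ _ _).2 ⟨rfl, HP.zero_mem, ?_, hy, h.2.2.2.2⟩
      rw [hy]
      simp
    · have h := (OKB_m1 H HP HQ T R w z y q).1 hv
      refine (OKB_m1 H HP HQ _ _ _ _ _ _).2 ⟨rfl, HP.zero_mem, ?_, ?_, h.2.2.2.2⟩
      · rw [h1]
        exact h.2.2.2.1
      · rw [h1]
        exact h.2.2.2.1
    · have h := (OKB_m2 H HP HQ T R w z y q).1 hv
      refine (OKB_m2 H HP HQ _ _ _ _ _ _).2 ⟨?_, h.2⟩
      rw [h1]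
      exact h.1
  · -- Ty on I', type i
    refine ⟨fun _ => ⟨?_, ?_⟩, fun h => by cases h⟩
    · ext ⟨⟨T, R, w⟩, z⟩
      change (incI' ((T, (R, w)), z) : FE V P Q) ∈ flB H HP HQ 0 ↔
        (incI' ((T, (R, w)), z) : FE V P Q) ∈ flB H HP HQ 1
      rw [OKB_incI', OKB_m0, OKB_m1, hk]
      constructor
      · rintro ⟨h1, h2, h3, -, -⟩
        exact ⟨h1, h2, h3, H.zero_mem, HQ.zero_mem⟩
      · rintro ⟨h1, h2, h3, -, -⟩
        exact ⟨h1, h2, h3, by rw [h1, OKB_kzero], rfl⟩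
    · rw [eq_top_iff]
      rintro ⟨⟨T, R, w⟩, z⟩ _
      change (incI' ((T, (R, w)), z) : FE V P Q) ∈ flB H HP HQ 2
      rw [OKB_incI', OKB_m2, hk]
      exact ⟨H.zero_mem, HQ.zero_mem⟩
  · -- Ty on K', type o
    refine ⟨fun h => (by cases h), fun _ => ⟨?_, ?_⟩⟩
    · rw [eq_bot_iff]
      rintro ⟨y, q⟩ hv
      change (incK' (y, q) : FE V P Q) ∈ flB H HP HQ 0 at hv
      rw [OKB_incK', OKB_m0] at hv
      rw [Submodule.mem_bot]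
      exact Prod.ext hv.2.2.2.1 hv.2.2.2.2
    · ext ⟨y, q⟩
      change (incK' (y, q) : FE V P Q) ∈ flB H HP HQ 2 ↔
        (incK' (y, q) : FE V P Q) ∈ flB H HP HQ 1
      rw [OKB_incK', OKB_m2, OKB_m1]
      constructor
      · rintro ⟨h1, h2⟩
        exact ⟨rfl, HP.zero_mem, h1, h1, h2⟩
      · rintro ⟨-, -, -, h1, h2⟩
        exact ⟨h1, h2⟩
  · rcases h with h | h <;> cases h

end OKB

end Pool.NF
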