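import Pool.Agent.Work.MP_b103ef_pos.Interface1
import Pool.Agent.Work.MP_b103ef_pos.B_OKB

set_option autoImplicit false

open Classical

namespace Pool.NF

section OKC

variable {V P Q : Type} [AddCommGroup V] [Module ℚ V] [AddCommGroup P] [Module ℚ P]
  [AddCommGroup Q] [Module ℚ Q]

/-- a sequence is determined by `x 0` and `x (n + 1)` -/
theorem OKC_ext {x y : ℕ →₀ V} (h0 : x 0 = y 0) (h1 : ∀ n, x (n + 1) = y (n + 1)) : x = y := by
  ext n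
  cases n with
  | zero => exact h0
  | succ n => exact h1 n

variable (H : Submodule ℚ V) (HP : Submodule ℚ P) (HQ : Submodule ℚ Q)

theorem OKC_m0 (T R : ℕ →₀ V) (w : P) (z : V) (y : ℕ →₀ V) (q : Q) :
    ((T, (R, w)), (z, (y, q))) ∈ flC HP HQ 0 ↔
      T = 0 ∧ R = 0 ∧ w = 0 ∧ y + Finsupp.single 0 z = 0 ∧ q ∈ HQ := by
  simp [flC, prY1, prQ, OKB_prX, OKB_prY, OKB_prV, and_assoc, Prod.mk_eq_zero]

theorem OKC_m1 (T R : ℕ →₀ V) (w : P) (z : V) (y : ℕ →₀ V) (q : Q) :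
    ((T, (R, w)), (z, (y, q))) ∈ flC HP HQ 1 ↔
      T + R = 0 ∧ y - (sh R - R + Finsupp.single 0 (R 0 - z)) = 0 ∧ w ∈ HP ∧ q ∈ HQ := by
  simp [flC, hC, prY1, prT, prR, prP, prQ, OKB_prX, OKB_prY, OKB_prV, and_assoc]

/-- the shape of `h` -/
def OKC_P (T R : ℕ →₀ V) (z : V) (y : ℕ →₀ V) : Prop :=
  (∀ n, T n = - R n) ∧ y 0 = - R 0 + R 0 - z ∧ ∀ n, y (n + 1) = R n - R (n + 1)

theorem OKC_p1 (T R : ℕ →₀ V) (w : P) (z : V) (y : ℕ →₀ V) (q : Q) :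
    ((T, (R, w)), (z, (y, q))) ∈ flC HP HQ 1 ↔
      ((∀ n, T n = - R n) ∧ y 0 = - z ∧ ∀ n, y (n + 1) = R n - R (n + 1)) ∧ w ∈ HP ∧ q ∈ HQ := by
  rw [OKC_m1, ← and_assoc]
  refine and_congr_left fun _ => ?_
  constructor
  · rintro ⟨h1, h2⟩
    refine ⟨fun n => ?_, ?_, fun n => ?_⟩
    · have := DFunLike.congr_fun h1 n
      rw [Finsupp.add_apply, Finsupp.zero_apply] at this
      exact eq_neg_of_add_eq_zero_left this
    · have := DFunLike.congr_fun (sub_eq_zero.1 h2) 0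
      rw [this, Finsupp.add_apply, Finsupp.sub_apply, OKB_sh0, OKB_e00]
      abel
    · have := DFunLike.congr_fun (sub_eq_zero.1 h2) (n + 1)
      rw [this, Finsupp.add_apply, Finsupp.sub_apply, OKB_sh1, OKB_e01]
      abel
  · rintro ⟨h1, h2, h3⟩
    refine ⟨?_, ?_⟩
    · ext n
      rw [Finsupp.add_apply, h1]
      simp
    · rw [sub_eq_zero]
      apply OKC_ext
      · rw [h2, Finsupp.add_apply, Finsupp.sub_apply, OKB_sh0, OKB_e00]
        abel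
      · intro n
        rw [h3, Finsupp.add_apply, Finsupp.sub_apply, OKB_sh1, OKB_e01]
        abel

theorem OKC_p0 (T R : ℕ →₀ V) (w : P) (z : V) (y : ℕ →₀ V) (q : Q) :
    ((T, (R, w)), (z, (y, q))) ∈ flC HP HQ 0 ↔
      T = 0 ∧ R = 0 ∧ w = 0 ∧ (y 0 = - z ∧ ∀ n, y (n + 1) = 0) ∧ q ∈ HQ := by
  rw [OKC_m0]
  refine and_congr_right fun _ => and_congr_right fun _ => and_congr_right fun _ =>
    and_congr_left fun _ => ?_
  constructor
  · intro h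
    refine ⟨?_, fun n => ?_⟩
    · have := DFunLike.congr_fun h 0
      rw [Finsupp.add_apply, OKB_e00, Finsupp.zero_apply] at this
      exact eq_neg_of_add_eq_zero_left this
    · have := DFunLike.congr_fun h (n + 1)
      rwa [Finsupp.add_apply, OKB_e01, Finsupp.zero_apply, add_zero] at this
  · rintro ⟨h1, h2⟩
    apply OKC_ext
    · rw [Finsupp.add_apply, h1, OKB_e00]
      simp
    · intro n
      rw [Finsupp.add_apply, h2, OKB_e01]
      simp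

theorem OKC_p2 (T R : ℕ →₀ V) (w : P) (z : V) (y : ℕ →₀ V) (q : Q) :
    ((T, (R, w)), (z, (y, q))) ∈ flC HP HQ 2 ↔
      (y 0 = T 0 + R 0 - z ∧ ∀ n, y (n + 1) = R n + T (n + 1)) ∧ w ∈ HP := by
  constructor
  · intro h
    obtain ⟨⟨⟨T1, R1, w1⟩, ⟨z1, y1, q1⟩⟩, h1, u, ⟨⟨z2, y2, q2⟩, rfl⟩, h2⟩ := Submodule.mem_sup.1 h
    have h1' := (OKC_p1 HP HQ T1 R1 w1 z1 y1 q1).1 h1
    rw [OKB_incK] at h2
    simp only [Prod.mk_add_mk, Prod.mk.injEq] at h2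
    obtain ⟨⟨rfl, rfl, rfl⟩, rfl, rfl, rfl⟩ := h2
    obtain ⟨⟨a1, a2, a3⟩, a4, a5⟩ := h1'
    refine ⟨⟨?_, fun n => ?_⟩, ?_⟩
    · simp only [Finsupp.add_apply, OKB_e00, a1, a2, Finsupp.zero_apply]
      abel
    · simp only [Finsupp.add_apply, OKB_e01, a1, a3, Finsupp.zero_apply]
      abel
    · rw [add_zero]
      exact a4
  · rintro ⟨⟨h1, h2⟩, h3⟩
    have h4 : (((T, (R, w)), (z, (y, q))) : FE V P Q) =
        ((-R, (R, w)), (0, (sh R - R + Finsupp.single 0 (R 0), 0))) +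
          incK (z, (T + R - Finsupp.single 0 z, q)) := by
      rw [OKB_incK]
      simp only [Prod.mk_add_mk, Prod.mk.injEq]
      refine ⟨⟨by abel, by abel, by abel⟩, by abel, ?_, by abel⟩
      apply OKC_ext
      · rw [h1]
        simp only [Finsupp.add_apply, Finsupp.sub_apply, OKB_sh0, OKB_e00]
        abel
      · intro n
        rw [h2]
        simp only [Finsupp.add_apply, Finsupp.sub_apply, OKB_sh1, OKB_e01]
        abel
    rw [h4]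
    refine Submodule.add_mem_sup ?_ ⟨_, rfl⟩
    refine (OKC_p1 HP HQ _ _ _ _ _ _).2 ⟨⟨fun n => rfl, ?_, fun n => ?_⟩, h3, HQ.zero_mem⟩
    · simp only [Finsupp.add_apply, Finsupp.sub_apply, OKB_sh0, OKB_e00]
      abel
    · simp only [Finsupp.add_apply, Finsupp.sub_apply, OKB_sh1, OKB_e01]
      abel

theorem OKC_01 {T R : ℕ →₀ V} {w : P} {z : V} {y : ℕ →₀ V} {q : Q}
    (h : (((T, (R, w)), (z, (y, q))) : FE V P Q) ∈ flC HP HQ 0) :
    (((T, (R, w)), (z, (y, q))) : FE V P Q) ∈ flC HP HQ 1 := by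
  rw [OKC_p0] at h
  obtain ⟨rfl, rfl, rfl, ⟨h1, h2⟩, h3⟩ := h
  rw [OKC_p1]
  refine ⟨⟨fun n => by simp, h1, fun n => by rw [h2]; simp⟩, HP.zero_mem, h3⟩

theorem OKC_12 {v : FE V P Q} (h : v ∈ flC HP HQ 1) : v ∈ flC HP HQ 2 :=
  Submodule.mem_sup_left h

/-- `incI (prI v)` -/
theorem OKC_I2 {T R : ℕ →₀ V} {w : P} {z : V} {y : ℕ →₀ V} {q : Q}
    (h : (((T, (R, w)), (z, (y, q))) : FE V P Q) ∈ flC HP HQ 2) :
    (incI (prI ((T, (R, w)), (z, (y, q)))) : FE V P Q) ∈ flC HP HQ 1 := by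
  rw [OKC_p2] at h
  obtain ⟨⟨h1, h2⟩, h3⟩ := h
  rw [OKB_prI, OKB_incI, OKC_p1]
  refine ⟨⟨fun n => ?_, ?_, fun n => ?_⟩, h3, HQ.zero_mem⟩
  · cases n with
    | zero =>
      simp only [Finsupp.add_apply, Finsupp.sub_apply, OKB_e00, OKB_h0, h1]
      abel
    | succ n =>
      simp only [Finsupp.add_apply, Finsupp.sub_apply, OKB_e01, OKB_h1, h2]
      abel
  · rw [OKB_h0, neg_zero]
  · rw [OKB_h1]

theorem OKC_I0 {T R : ℕ →₀ V} {w : P} {z : V} {y : ℕ →₀ V} {q : Q}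
    (h : (((T, (R, w)), (z, (y, q))) : FE V P Q) ∈ flC HP HQ 0) :
    (incI (prI ((T, (R, w)), (z, (y, q)))) : FE V P Q) ∈ flC HP HQ 0 := by
  rw [OKC_p0] at h
  obtain ⟨rfl, rfl, rfl, ⟨h1, h2⟩, h3⟩ := h
  rw [OKB_prI, OKB_incI, OKC_p0]
  have h4 : OKB_h (0 : ℕ →₀ V) = 0 := by
    apply OKC_ext
    · rw [OKB_h0]; rfl
    · intro n; rw [OKB_h1]; simp
  refine ⟨?_, rfl, rfl, ⟨?_, fun n => ?_⟩, HQ.zero_mem⟩
  · rw [h4]
    apply OKC_ext
    · simp only [Finsupp.add_apply, Finsupp.sub_apply, OKB_e00, h1, Finsupp.zero_apply]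
      abel
    · intro n
      simp only [Finsupp.add_apply, Finsupp.sub_apply, OKB_e01, h2, Finsupp.zero_apply]
      abel
  · rw [h4]; simp
  · rw [h4]; rfl

/-- `incK (prK v)` -/
theorem OKC_K1 {T R : ℕ →₀ V} {w : P} {z : V} {y : ℕ →₀ V} {q : Q}
    (h : (((T, (R, w)), (z, (y, q))) : FE V P Q) ∈ flC HP HQ 1) :
    (incK (prK ((T, (R, w)), (z, (y, q)))) : FE V P Q) ∈ flC HP HQ 0 := by
  rw [OKC_p1] at h
  obtain ⟨⟨h1, h2, h3⟩, h4, h5⟩ := h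
  rw [OKB_prK, OKB_incK, OKC_p0]
  refine ⟨?_, rfl, rfl, ⟨?_, fun n => ?_⟩, h5⟩
  · apply OKC_ext
    · simp only [Finsupp.add_apply, Finsupp.sub_apply, OKB_e00, OKB_h0, h2, Finsupp.zero_apply]
      abel
    · intro n
      simp only [Finsupp.add_apply, Finsupp.sub_apply, OKB_e01, OKB_h1, h3, Finsupp.zero_apply]
      abel
  · simp only [Finsupp.sub_apply, OKB_h0, h2]
    abel
  · simp only [Finsupp.sub_apply, OKB_h1, h3]
    abel

/-- `incI' (prI' v)` -/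
theorem OKC_J2 {T R : ℕ →₀ V} {w : P} {z : V} {y : ℕ →₀ V} {q : Q}
    (h : (((T, (R, w)), (z, (y, q))) : FE V P Q) ∈ flC HP HQ 2) :
    (incI' (prI' ((T, (R, w)), (z, (y, q)))) : FE V P Q) ∈ flC HP HQ 1 := by
  rw [OKC_p2] at h
  obtain ⟨⟨h1, h2⟩, h3⟩ := h
  rw [OKB_prI', OKB_incI', OKC_p1]
  refine ⟨⟨fun n => ?_, ?_, fun n => ?_⟩, h3, HQ.zero_mem⟩
  · simp only [Finsupp.add_apply, Finsupp.sub_apply, OKB_sb, OKB_k1, h2]
    abel
  · rw [OKB_k0, h1, h2 0]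
    abel
  · simp only [Finsupp.add_apply, Finsupp.sub_apply, OKB_sb, OKB_k1, h2]
    abel

theorem OKC_J0 {T R : ℕ →₀ V} {w : P} {z : V} {y : ℕ →₀ V} {q : Q}
    (h : (((T, (R, w)), (z, (y, q))) : FE V P Q) ∈ flC HP HQ 0) :
    (incI' (prI' ((T, (R, w)), (z, (y, q)))) : FE V P Q) ∈ flC HP HQ 0 := by
  rw [OKC_p0] at h
  obtain ⟨rfl, rfl, rfl, ⟨h1, h2⟩, h3⟩ := h
  rw [OKB_prI', OKB_incI', OKC_p0]
  have hz : z - (y 1 - y 0) = 0 := by
    rw [h1, h2 0]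
    abel
  refine ⟨rfl, ?_, rfl, ⟨?_, fun n => ?_⟩, HQ.zero_mem⟩
  · ext n
    simp only [Finsupp.add_apply, Finsupp.sub_apply, OKB_sb, OKB_kzero, h2, Finsupp.zero_apply]
    abel
  · rw [hz, OKB_kzero]; simp
  · rw [OKB_kzero]; rfl

/-- `incK' (prK' v)` -/
theorem OKC_L1 {T R : ℕ →₀ V} {w : P} {z : V} {y : ℕ →₀ V} {q : Q}
    (h : (((T, (R, w)), (z, (y, q))) : FE V P Q) ∈ flC HP HQ 1) :
    (incK' (prK' ((T, (R, w)), (z, (y, q)))) : FE V P Q) ∈ flC HP HQ 0 := by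
  rw [OKC_p1] at h
  obtain ⟨⟨h1, h2, h3⟩, h4, h5⟩ := h
  rw [OKB_prK', OKB_incK', OKC_p0]
  have h6 : ∀ n, y (n + 1) - OKB_k T (n + 1) = 0 := by
    intro n
    rw [OKB_k1, h3, h1, h1]
    abel
  refine ⟨rfl, ?_, rfl, ⟨?_, fun n => ?_⟩, h5⟩
  · ext n
    simp only [OKB_sb, Finsupp.sub_apply, h6, Finsupp.zero_apply]
  · simp only [Finsupp.sub_apply]
    have := h6 0
    rw [zero_add] at this
    rw [this]
    abel
  · rw [Finsupp.sub_apply, h6]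

theorem OKC_incK2 (v : V × FY V Q) : (incK v : FE V P Q) ∈ flC HP HQ 2 :=
  Submodule.mem_sup_right ⟨v, rfl⟩

theorem OKC_incK'2 (v : FY V Q) : (incK' v : FE V P Q) ∈ flC HP HQ 2 := by
  obtain ⟨y, q⟩ := v
  rw [OKB_incK', OKC_p2]
  refine ⟨⟨?_, fun n => ?_⟩, HP.zero_mem⟩
  · rw [OKB_sb]
    simp
  · rw [OKB_sb]
    simp

theorem blk_OKC : Stmt_OKC := by
  intro V P Q _ _ _ _ _ _ H HP HQ
  refine ⟨fun h => absurd rfl h, fun _ => ⟨⟨?_, ?_⟩, ?_, ?_⟩, fun _ => ⟨⟨?_, ?_⟩, ?_, ?_⟩,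
    fun h => ?_⟩
  · -- incI prI
    intro l
    rintro ⟨⟨T, R, w⟩, ⟨z, y, q⟩⟩ hv
    change (incI (prI ((T, (R, w)), (z, (y, q)))) : FE V P Q) ∈ flC HP HQ l
    fin_cases l
    · exact OKC_I0 HP HQ hv
    · exact OKC_I2 HP HQ (OKC_12 HP HQ hv)
    · exact OKC_12 HP HQ (OKC_I2 HP HQ hv)
  · -- incK prK
    intro l
    rintro ⟨⟨T, R, w⟩, ⟨z, y, q⟩⟩ hv
    change (incK (prK ((T, (R, w)), (z, (y, q)))) : FE V P Q) ∈ flC HP HQ l
    fin_cases l
    · exact OKC_K1 HP HQ (OKC_01 HP HQ hv)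
    · have h1 := OKC_K1 HP HQ hv
      rw [OKB_prK, OKB_incK] at h1 ⊢
      exact OKC_01 HP HQ h1
    · exact OKC_incK2 HP HQ _
  · -- Ty on I, type o
    refine ⟨fun h => (by cases h), fun _ => ⟨?_, ?_⟩⟩
    · rw [eq_bot_iff]
      rintro ⟨T, R, w⟩ hv
      change (incI (T, (R, w)) : FE V P Q) ∈ flC HP HQ 0 at hv
      rw [OKB_incI, OKC_p0] at hv
      rw [Submodule.mem_bot]
      obtain ⟨h1, h2, h3, -⟩ := hv
      rw [h1, h2, h3]
      rfl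
    · ext ⟨T, R, w⟩
      change (incI (T, (R, w)) : FE V P Q) ∈ flC HP HQ 2 ↔
        (incI (T, (R, w)) : FE V P Q) ∈ flC HP HQ 1
      constructor
      · intro h
        rw [OKB_incI] at h ⊢
        have h2 := OKC_I2 HP HQ h
        rw [OKB_prI, OKB_incI] at h2
        have h3 : T - Finsupp.single 0 (0 : V) - OKB_h R + OKB_h R = T := by simp
        rwa [h3] at h2
      · exact OKC_12 HP HQ
  · -- Ty on K, type i
    refine ⟨fun _ => ⟨?_, ?_⟩, fun h => (by cases h)⟩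
    · ext ⟨z, y, q⟩
      change (incK (z, (y, q)) : FE V P Q) ∈ flC HP HQ 0 ↔
        (incK (z, (y, q)) : FE V P Q) ∈ flC HP HQ 1
      constructor
      · intro h
        rw [OKB_incK] at h ⊢
        exact OKC_01 HP HQ h
      · intro h
        have h4 : OKB_h (0 : ℕ →₀ V) = 0 := by
          apply OKC_ext
          · rw [OKB_h0]; rfl
          · intro n; rw [OKB_h1]; simp
        rw [OKB_incK] at h ⊢
        have h2 := OKC_K1 HP HQ h
        rwa [OKB_prK, OKB_incK, h4, sub_zero] at h2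
    · rw [eq_top_iff]
      intro v _
      exact OKC_incK2 HP HQ v
  · -- incI' prI'
    intro l
    rintro ⟨⟨T, R, w⟩, ⟨z, y, q⟩⟩ hv
    change (incI' (prI' ((T, (R, w)), (z, (y, q)))) : FE V P Q) ∈ flC HP HQ l
    fin_cases l
    · exact OKC_J0 HP HQ hv
    · exact OKC_J2 HP HQ (OKC_12 HP HQ hv)
    · exact OKC_12 HP HQ (OKC_J2 HP HQ hv)
  · -- incK' prK'
    intro l
    rintro ⟨⟨T, R, w⟩, ⟨z, y, q⟩⟩ hv
    change (incK' (prK' ((T, (R, w)), (z, (y, q)))) : FE V P Q) ∈ flC HP HQ l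
    fin_cases l
    · exact OKC_L1 HP HQ (OKC_01 HP HQ hv)
    · have h1 := OKC_L1 HP HQ hv
      rw [OKB_prK', OKB_incK'] at h1 ⊢
      exact OKC_01 HP HQ h1
    · exact OKC_incK'2 HP HQ _
  · -- Ty on I', type o
    refine ⟨fun h => (by cases h), fun _ => ⟨?_, ?_⟩⟩
    · rw [eq_bot_iff]
      rintro ⟨⟨T, R, w⟩, z⟩ hv
      change (incI' ((T, (R, w)), z) : FE V P Q) ∈ flC HP HQ 0 at hv
      rw [OKB_incI', OKC_p0] at hv
      rw [Submodule.mem_bot]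
      obtain ⟨h1, h2, h3, ⟨h4, -⟩, -⟩ := hv
      have h5 : z = 0 := by
        rw [h1, OKB_kzero] at h4
        have := neg_eq_zero.1 h4.symm
        exact this
      rw [h1, h2, h3, h5]
      rfl
    · ext ⟨⟨T, R, w⟩, z⟩
      change (incI' ((T, (R, w)), z) : FE V P Q) ∈ flC HP HQ 2 ↔
        (incI' ((T, (R, w)), z) : FE V P Q) ∈ flC HP HQ 1
      constructor
      · intro h
        rw [OKB_incI'] at h ⊢
        have h2 := OKC_J2 HP HQ h
        have h3 : OKB_k T 1 - OKB_k T 0 = 0 := by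
          rw [OKB_k0, OKB_k1, zero_add, sub_self]
        rwa [OKB_prI', OKB_incI', h3, sub_zero, sub_add_cancel] at h2
      · exact OKC_12 HP HQ
  · -- Ty on K', type i
    refine ⟨fun _ => ⟨?_, ?_⟩, fun h => (by cases h)⟩
    · ext ⟨y, q⟩
      change (incK' (y, q) : FE V P Q) ∈ flC HP HQ 0 ↔
        (incK' (y, q) : FE V P Q) ∈ flC HP HQ 1
      constructor
      · intro h
        rw [OKB_incK'] at h ⊢
        exact OKC_01 HP HQ h
      · intro h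
        rw [OKB_incK'] at h ⊢
        have h2 := OKC_L1 HP HQ h
        rwa [OKB_prK', OKB_incK', OKB_kzero, sub_zero] at h2
    · rw [eq_top_iff]
      intro v _
      exact OKC_incK'2 HP HQ v
  · rcases h with h | h <;> cases h

end OKC

end Pool.NF
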