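import Pool.Agent.Work.MP_b103ef_pos.Interface1

/-! # Block OKN: `OKx` is stable under isomorphisms of `V`, `P`, `Q` (helper99) -/

set_option autoImplicit false

open Classical

namespace Pool.NF

theorem OKN_ty {F F' : Type} [AddCommGroup F] [Module ℚ F] [AddCommGroup F'] [Module ℚ F']
    (w : V5) (y : Fin 3 → Submodule ℚ F) (m : F' →ₗ[ℚ] F) (hm : Function.Injective m)
    (h : Ty w y) : Ty w (fun l => (y l).comap m) := by
  refine ⟨fun hw => ?_, fun hw => ?_⟩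
  · obtain ⟨h1, h2⟩ := h.1 hw
    exact ⟨by show (y 0).comap m = (y 1).comap m; rw [h1],
      by show (y 2).comap m = ⊤; rw [h2, Submodule.comap_top]⟩
  · obtain ⟨h1, h2⟩ := h.2 hw
    refine ⟨?_, by show (y 2).comap m = (y 1).comap m; rw [h2]⟩
    show (y 0).comap m = ⊥
    rw [h1]
    exact LinearMap.ker_eq_bot.2 hm

theorem OKN_ty' {F F' W W' : Type} [AddCommGroup F] [Module ℚ F] [AddCommGroup F'] [Module ℚ F']
    [AddCommGroup W] [Module ℚ W] [AddCommGroup W'] [Module ℚ W']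
    (w : V5) (x : Fin 3 → Submodule ℚ W) (E : W' →ₗ[ℚ] W) (inc : F →ₗ[ℚ] W)
    (inc' : F' →ₗ[ℚ] W') (m : F' →ₗ[ℚ] F) (hm : Function.Injective m)
    (hE : E.comp inc' = inc.comp m)
    (h : Ty w (fun l => (x l).comap inc)) : Ty w (fun l => ((x l).comap E).comap inc') := by
  have h1 := OKN_ty w _ m hm h
  have e : (fun l => ((x l).comap E).comap inc') = fun l => ((x l).comap inc).comap m := by
    funext l
    rw [← Submodule.comap_comp, hE, Submodule.comap_comp]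
  rw [e]; exact h1

theorem OKN_pr {W W' F F' : Type} [AddCommGroup W] [Module ℚ W] [AddCommGroup W']
    [Module ℚ W'] [AddCommGroup F] [Module ℚ F] [AddCommGroup F'] [Module ℚ F']
    (x : Fin 3 → Submodule ℚ W) (E : W' →ₗ[ℚ] W) (inc : F →ₗ[ℚ] W) (inc' : F' →ₗ[ℚ] W')
    (pr : W →ₗ[ℚ] F) (pr' : W' →ₗ[ℚ] F') (m : F' →ₗ[ℚ] F)
    (h1 : E.comp inc' = inc.comp m) (h2 : pr.comp E = m.comp pr')
    (h : Pr x (inc.comp pr)) : Pr (fun l => (x l).comap E) (inc'.comp pr') := by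
  intro l v hv
  have hv' : E v ∈ x l := hv
  show E (inc' (pr' v)) ∈ x l
  have e1 : E (inc' (pr' v)) = inc (m (pr' v)) := LinearMap.congr_fun h1 (pr' v)
  have e2 : pr (E v) = m (pr' v) := LinearMap.congr_fun h2 v
  rw [e1, ← e2]
  exact h l hv'

theorem OKN_lift {E F : Type} [AddCommGroup E] [Module ℚ E] [AddCommGroup F] [Module ℚ F]
    (f : E →ₗ[ℚ] F) (hf : Function.Injective f) :
    Function.Injective (lift f : (ℕ →₀ E) →ₗ[ℚ] (ℕ →₀ F)) :=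
  Finsupp.mapRange_injective f (map_zero f) hf

theorem OKN_prodMap {A B C D : Type} [AddCommGroup A] [Module ℚ A] [AddCommGroup B] [Module ℚ B]
    [AddCommGroup C] [Module ℚ C] [AddCommGroup D] [Module ℚ D] (f : A →ₗ[ℚ] C) (g : B →ₗ[ℚ] D)
    (hf : Function.Injective f) (hg : Function.Injective g) : Function.Injective (f.prodMap g) := by
  intro x y h
  have h1 : f x.1 = f y.1 := congrArg Prod.fst h
  have h2 : g x.2 = g y.2 := congrArg Prod.snd h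
  exact Prod.ext (hf h1) (hg h2)

theorem blk_OKN (hNAT : Stmt_NAT) : Stmt_OKN := by
  intro V P Q V' P' Q' _ _ _ _ _ _ _ _ _ _ _ _ f g h v x hx
  obtain ⟨⟨a1, a2⟩, ⟨b1, b2⟩, ⟨c1, c2⟩, ⟨d1, d2⟩, ⟨e1, e2⟩, ⟨f1, f2⟩, ⟨g1, g2⟩, ⟨h1, h2⟩,
    ⟨i1, i2⟩, hC⟩ := hNAT V' P' Q' V P Q f.toLinearMap g.toLinearMap h.toLinearMap
  have jf : Function.Injective f.toLinearMap := f.injective
  have jg : Function.Injective g.toLinearMap := g.injective
  have jh : Function.Injective h.toLinearMap := h.injective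
  have jX : Function.Injective (mapX f.toLinearMap g.toLinearMap) :=
    OKN_prodMap _ _ (OKN_lift _ jf) (OKN_prodMap _ _ (OKN_lift _ jf) jg)
  have jY : Function.Injective (mapY f.toLinearMap h.toLinearMap) :=
    OKN_prodMap _ _ (OKN_lift _ jf) jh
  have jVY : Function.Injective (f.toLinearMap.prodMap (mapY f.toLinearMap h.toLinearMap)) :=
    OKN_prodMap _ _ jf jY
  have jXV : Function.Injective ((mapX f.toLinearMap g.toLinearMap).prodMap f.toLinearMap) :=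
    OKN_prodMap _ _ jX jf
  obtain ⟨hA, hB, hD, hO⟩ := hx
  refine ⟨fun hv => ?_, fun hv => ?_, fun hv => ?_, fun hv => ?_⟩
  · obtain ⟨⟨p1, p2, p3⟩, t1, t2, t3⟩ := hA hv
    exact ⟨⟨OKN_pr x _ _ _ _ _ _ a1 a2 p1,
      OKN_pr x _ _ _ _ _ _ b1 b2 p2,
      OKN_pr x _ _ _ _ _ _ c1 c2 p3⟩,
      OKN_ty' _ x _ _ _ _ jX a1 t1, OKN_ty' _ x _ _ _ _ jf b1 t2, OKN_ty' _ x _ _ _ _ jY c1 t3⟩
  · obtain ⟨⟨p1, p2⟩, t1, t2⟩ := hB hv
    exact ⟨⟨OKN_pr x _ _ _ _ _ _ d1 d2 p1,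
      OKN_pr x _ _ _ _ _ _ e1 e2 p2⟩,
      OKN_ty' _ x _ _ _ _ jX d1 t1, OKN_ty' _ x _ _ _ _ jVY e1 t2⟩
  · obtain ⟨⟨p1, p2⟩, t1, t2⟩ := hD hv
    exact ⟨⟨OKN_pr x _ _ _ _ _ _ f1 f2 p1,
      OKN_pr x _ _ _ _ _ _ g1 g2 p2⟩,
      OKN_ty' _ x _ _ _ _ jXV f1 t1, OKN_ty' _ x _ _ _ _ jY g1 t2⟩
  · obtain ⟨p1, p2, p3⟩ := hO hv
    exact ⟨fun c c' => OKN_pr x _ _ _ _ _ _ (hC c').1 (hC c).2 (p1 c c'),
      OKN_pr x _ _ _ _ _ _ h1 h2 p2,
      OKN_pr x _ _ _ _ _ _ i1 i2 p3⟩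

end Pool.NF
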