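import Pool.Agent.Work.MP_b103ef_pos.Interface1
import Pool.Agent.Work.MP_b103ef_pos.B_FID

/-! # Block OKO (helper18): the flags of generators of types `o`, `i` are admissible -/

set_option autoImplicit false

open Classical

namespace Pool.NF

namespace OKOaux

open FIDaux

section

variable {V P Q : Type} [AddCommGroup V] [Module ℚ V] [AddCommGroup P] [Module ℚ P]
  [AddCommGroup Q] [Module ℚ Q]
variable (H : Submodule ℚ V) (HP : Submodule ℚ P) (HQ : Submodule ℚ Q)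

/-- product condition on `𝕏` -/
def PX (x : FX V P) : Prop := (∀ n, x.1 n ∈ H) ∧ (∀ n, x.2.1 n ∈ H) ∧ x.2.2 ∈ HP
/-- product condition on `𝕐` -/
def PY (y : FY V Q) : Prop := (∀ n, y.1 n ∈ H) ∧ y.2 ∈ HQ

theorem mem_hO (v : FE V P Q) : v ∈ hO H HP HQ ↔ PX H HP v.1 ∧ v.2.1 ∈ H ∧ PY H HQ v.2.2 := by
  have key : v ∈ hO H HP HQ ↔ ((∀ c : Co, prC c v ∈ H) ∧ prP v ∈ HP) ∧ prQ v ∈ HQ := by
    unfold hO
    rw [Submodule.mem_inf, Submodule.mem_inf, Submodule.mem_iInf]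
    rfl
  rw [key]
  constructor
  · rintro ⟨⟨h1, h2⟩, h3⟩
    exact ⟨⟨fun n => h1 (.T n), fun n => h1 (.R n), h2⟩, h1 .Z, fun n => h1 (.Y n), h3⟩
  · rintro ⟨⟨h1, h2, h3⟩, h4, h5, h6⟩
    refine ⟨⟨fun c => ?_, h3⟩, h6⟩
    cases c with
    | T n => exact h1 n
    | R n => exact h2 n
    | Z => exact h4
    | Y n => exact h5 n

theorem sh_mem (w : ℕ →₀ V) (h : ∀ n, w n ∈ H) (n : ℕ) : sh w n ∈ H := by
  cases n with
  | zero => rw [sh_zero]; exact H.zero_mem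
  | succ n => rw [sh_succ]; exact h n

theorem sb_mem (w : ℕ →₀ V) (h : ∀ n, w n ∈ H) (n : ℕ) : sb w n ∈ H := h (n + 1)

theorem sg_mem (z : V) (h : z ∈ H) (k n : ℕ) : (Finsupp.single k z : ℕ →₀ V) n ∈ H := by
  rw [Finsupp.single_apply]
  split_ifs
  · exact h
  · exact H.zero_mem

theorem PX0 : PX H HP (0 : FX V P) := ⟨fun _ => H.zero_mem, fun _ => H.zero_mem, HP.zero_mem⟩
theorem PY0 : PY H HQ (0 : FY V Q) := ⟨fun _ => H.zero_mem, HQ.zero_mem⟩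

theorem PXadd (x x' : FX V P) (h : PX H HP x) (h' : PX H HP x') : PX H HP (x + x') :=
  ⟨fun n => H.add_mem (h.1 n) (h'.1 n), fun n => H.add_mem (h.2.1 n) (h'.2.1 n),
    HP.add_mem h.2.2 h'.2.2⟩
theorem PXsub (x x' : FX V P) (h : PX H HP x) (h' : PX H HP x') : PX H HP (x - x') :=
  ⟨fun n => H.sub_mem (h.1 n) (h'.1 n), fun n => H.sub_mem (h.2.1 n) (h'.2.1 n),
    HP.sub_mem h.2.2 h'.2.2⟩
theorem PYsub (y y' : FY V Q) (h : PY H HQ y) (h' : PY H HQ y') : PY H HQ (y - y') :=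
  ⟨fun n => H.sub_mem (h.1 n) (h'.1 n), HQ.sub_mem h.2 h'.2⟩

theorem hmS (z : V) (h : z ∈ H) : PX H HP (mS z : FX V P) :=
  ⟨fun n => sg_mem H z h 0 n, fun _ => H.zero_mem, HP.zero_mem⟩
theorem hmT (y : FY V Q) (h : PY H HQ y) : PX H HP (mT y : FX V P) :=
  ⟨h.1, fun _ => H.zero_mem, HP.zero_mem⟩
theorem hmR (y : FY V Q) (h : PY H HQ y) : PX H HP (mR y : FX V P) :=
  ⟨fun _ => H.zero_mem, sb_mem H _ h.1, HP.zero_mem⟩
theorem hmRho (y : FY V Q) (h : PY H HQ y) : mRho y ∈ H := H.sub_mem (h.1 1) (h.1 0)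
theorem hmEta (x : FX V P) (h : PX H HP x) : PY H HQ (mEta x : FY V Q) :=
  ⟨sh_mem H _ fun n => H.sub_mem (h.2.1 n) (sb_mem H _ h.2.1 n), HQ.zero_mem⟩
theorem hmKap (x : FX V P) (h : PX H HP x) : PY H HQ (mKap x : FY V Q) := by
  refine ⟨fun n => H.add_mem (sh_mem H _ (fun n => H.sub_mem (sb_mem H _ h.1 n) (h.1 n)) n)
    (sg_mem H _ ?_ 0 n), HQ.zero_mem⟩
  exact H.sub_mem (sb_mem H _ h.1 0) (h.1 0)

/-- the ten maps preserve `hO` -/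
theorem all : (hO H HP HQ ≤ (hO H HP HQ).comap ((incX.comp prX : FE V P Q →ₗ[ℚ] FE V P Q)) ∧
    hO H HP HQ ≤ (hO H HP HQ).comap ((incV.comp prV : FE V P Q →ₗ[ℚ] FE V P Q)) ∧
    hO H HP HQ ≤ (hO H HP HQ).comap ((incY.comp prY : FE V P Q →ₗ[ℚ] FE V P Q))) ∧
    (hO H HP HQ ≤ (hO H HP HQ).comap ((incI.comp prI : FE V P Q →ₗ[ℚ] FE V P Q)) ∧
    hO H HP HQ ≤ (hO H HP HQ).comap ((incK.comp prK : FE V P Q →ₗ[ℚ] FE V P Q))) ∧
    (hO H HP HQ ≤ (hO H HP HQ).comap ((incI'.comp prI' : FE V P Q →ₗ[ℚ] FE V P Q)) ∧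
    hO H HP HQ ≤ (hO H HP HQ).comap ((incK'.comp prK' : FE V P Q →ₗ[ℚ] FE V P Q))) ∧
    (∀ c c' : Co, hO H HP HQ ≤ (hO H HP HQ).comap (((incC c').comp (prC c) :
      FE V P Q →ₗ[ℚ] FE V P Q))) ∧
    hO H HP HQ ≤ (hO H HP HQ).comap ((incP.comp prP : FE V P Q →ₗ[ℚ] FE V P Q)) ∧
    hO H HP HQ ≤ (hO H HP HQ).comap ((incQ.comp prQ : FE V P Q →ₗ[ℚ] FE V P Q)) := by
  refine ⟨⟨?_, ?_, ?_⟩, ⟨?_, ?_⟩, ⟨?_, ?_⟩, ?_, ?_, ?_⟩
  · intro v hv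
    rw [Submodule.mem_comap, mem_hO]
    have hv' := (mem_hO H HP HQ v).1 hv
    exact ⟨hv'.1, H.zero_mem, PY0 H HQ⟩
  · intro v hv
    rw [Submodule.mem_comap, mem_hO]
    have hv' := (mem_hO H HP HQ v).1 hv
    exact ⟨PX0 H HP, hv'.2.1, PY0 H HQ⟩
  · intro v hv
    rw [Submodule.mem_comap, mem_hO]
    have hv' := (mem_hO H HP HQ v).1 hv
    exact ⟨PX0 H HP, H.zero_mem, hv'.2.2⟩
  · intro v hv
    rw [Submodule.mem_comap, mem_hO, LinearMap.comp_apply, incI_apply]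
    obtain ⟨h1, h2, h3⟩ := (mem_hO H HP HQ v).1 hv
    have h4 : PX H HP (prI v) := by
      rw [prI_apply]
      exact PXadd H HP _ _ (PXsub H HP _ _ (PXsub H HP _ _ h1 (hmS H HP _ h2))
        (hmT H HP HQ _ h3)) (hmT H HP HQ _ (hmEta H HP HQ _ h1))
    exact ⟨h4, H.zero_mem, hmEta H HP HQ _ h4⟩
  · intro v hv
    rw [Submodule.mem_comap, mem_hO, LinearMap.comp_apply, prK_apply, incK_apply]
    obtain ⟨h1, h2, h3⟩ := (mem_hO H HP HQ v).1 hv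
    have h4 : PY H HQ (v.2.2 - mEta v.1) := PYsub H HQ _ _ h3 (hmEta H HP HQ _ h1)
    exact ⟨PXadd H HP _ _ (hmS H HP _ h2) (hmT H HP HQ _ h4), h2, h4⟩
  · intro v hv
    rw [Submodule.mem_comap, mem_hO, LinearMap.comp_apply, prI'_apply, incI'_apply]
    obtain ⟨h1, h2, h3⟩ := (mem_hO H HP HQ v).1 hv
    have h4 : PX H HP (v.1 - mR v.2.2 + mR (mKap v.1 : FY V Q)) :=
      PXadd H HP _ _ (PXsub H HP _ _ h1 (hmR H HP HQ _ h3)) (hmR H HP HQ _ (hmKap H HP HQ _ h1))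
    exact ⟨h4, H.sub_mem h2 (hmRho H HQ _ h3), hmKap H HP HQ _ h4⟩
  · intro v hv
    rw [Submodule.mem_comap, mem_hO, LinearMap.comp_apply, prK'_apply, incK'_apply]
    obtain ⟨h1, h2, h3⟩ := (mem_hO H HP HQ v).1 hv
    have h4 : PY H HQ (v.2.2 - mKap v.1) := PYsub H HQ _ _ h3 (hmKap H HP HQ _ h1)
    exact ⟨hmR H HP HQ _ h4, hmRho H HQ _ h4, h4⟩
  · intro c c' v hv
    have hv' : prC c v ∈ H := by
      obtain ⟨h1, h2, h3⟩ := (mem_hO H HP HQ v).1 hv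
      cases c with
      | T n => exact h1.1 n
      | R n => exact h1.2.1 n
      | Z => exact h2
      | Y n => exact h3.1 n
    rw [Submodule.mem_comap, mem_hO, LinearMap.comp_apply]
    cases c' with
    | T n =>
      exact ⟨⟨fun k => sg_mem H _ hv' n k, fun _ => H.zero_mem, HP.zero_mem⟩, H.zero_mem,
        PY0 H HQ⟩
    | R n =>
      exact ⟨⟨fun _ => H.zero_mem, fun k => sg_mem H _ hv' n k, HP.zero_mem⟩, H.zero_mem,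
        PY0 H HQ⟩
    | Z => exact ⟨PX0 H HP, hv', PY0 H HQ⟩
    | Y n =>
      exact ⟨PX0 H HP, H.zero_mem, fun k => sg_mem H _ hv' n k, HQ.zero_mem⟩
  · intro v hv
    rw [Submodule.mem_comap, mem_hO]
    obtain ⟨h1, h2, h3⟩ := (mem_hO H HP HQ v).1 hv
    exact ⟨⟨fun _ => H.zero_mem, fun _ => H.zero_mem, h1.2.2⟩, H.zero_mem, PY0 H HQ⟩
  · intro v hv
    rw [Submodule.mem_comap, mem_hO]
    obtain ⟨h1, h2, h3⟩ := (mem_hO H HP HQ v).1 hv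
    exact ⟨PX0 H HP, H.zero_mem, fun _ => H.zero_mem, h3.2⟩

theorem prO (f : FE V P Q →ₗ[ℚ] FE V P Q) (hf : hO H HP HQ ≤ (hO H HP HQ).comap f) :
    Pr (fl H HP HQ V5.o) f := by
  intro l
  fin_cases l
  · exact bot_le
  · exact hf
  · exact hf

theorem prI_ (f : FE V P Q →ₗ[ℚ] FE V P Q) (hf : hO H HP HQ ≤ (hO H HP HQ).comap f) :
    Pr (fl H HP HQ V5.i) f := by
  intro l
  fin_cases l
  · exact hf
  · exact hf
  · exact le_top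

theorem tyO {F : Type} [AddCommGroup F] [Module ℚ F] (g : F →ₗ[ℚ] FE V P Q)
    (hg : ∀ v, g v = 0 → v = 0) : Ty V5.o (fun l => (fl H HP HQ V5.o l).comap g) := by
  refine ⟨fun h => absurd h (by decide), fun _ => ⟨?_, rfl⟩⟩
  ext v
  exact ⟨fun h => hg v h, fun h => by
    have h0 : v = 0 := h
    rw [h0]
    exact Submodule.zero_mem _⟩

theorem tyI {F : Type} [AddCommGroup F] [Module ℚ F] (g : F →ₗ[ℚ] FE V P Q) :
    Ty V5.i (fun l => (fl H HP HQ V5.i l).comap g) :=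
  ⟨fun _ => ⟨rfl, rfl⟩, fun h => absurd h (by decide)⟩

theorem inj {F : Type} [AddCommGroup F] [Module ℚ F] (g : F →ₗ[ℚ] FE V P Q)
    (p : FE V P Q →ₗ[ℚ] F) (h : ∀ v, p (g v) = v) (v : F) (hv : g v = 0) : v = 0 := by
  rw [← h v, hv, map_zero]

end

end OKOaux

open FIDaux OKOaux in
theorem blk_OKO (hF : Stmt_FID) : Stmt_OKO := by
  intro V P Q _ _ _ _ _ _ H HP HQ
  obtain ⟨⟨f1, f2, f3, -⟩, ⟨f4, f5, -⟩, ⟨f6, f7, -⟩, -⟩ := hF V P Q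
  obtain ⟨⟨a1, a2, a3⟩, ⟨a4, a5⟩, ⟨a6, a7⟩, a8, a9, a10⟩ := all H HP HQ
  refine ⟨⟨fun _ => ⟨⟨prO H HP HQ _ a1, prO H HP HQ _ a2, prO H HP HQ _ a3⟩,
      tyO H HP HQ _ (inj _ _ f1), tyO H HP HQ _ (inj _ _ f2), tyO H HP HQ _ (inj _ _ f3)⟩,
    fun _ => ⟨⟨prO H HP HQ _ a4, prO H HP HQ _ a5⟩,
      tyO H HP HQ _ (inj _ _ f4), tyO H HP HQ _ (inj _ _ f5)⟩,
    fun _ => ⟨⟨prO H HP HQ _ a6, prO H HP HQ _ a7⟩,
      tyO H HP HQ _ (inj _ _ f6), tyO H HP HQ _ (inj _ _ f7)⟩,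
    fun _ => ⟨fun c c' => prO H HP HQ _ (a8 c c'), prO H HP HQ _ a9, prO H HP HQ _ a10⟩⟩,
    ⟨fun _ => ⟨⟨prI_ H HP HQ _ a1, prI_ H HP HQ _ a2, prI_ H HP HQ _ a3⟩,
      tyI H HP HQ _, tyI H HP HQ _, tyI H HP HQ _⟩,
    fun _ => ⟨⟨prI_ H HP HQ _ a4, prI_ H HP HQ _ a5⟩,
      tyI H HP HQ _, tyI H HP HQ _⟩,
    fun _ => ⟨⟨prI_ H HP HQ _ a6, prI_ H HP HQ _ a7⟩,
      tyI H HP HQ _, tyI H HP HQ _⟩,
    fun _ => ⟨fun c c' => prI_ H HP HQ _ (a8 c c'), prI_ H HP HQ _ a9, prI_ H HP HQ _ a10⟩⟩⟩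

end Pool.NF
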