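import Pool.Agent.Work.MP_b103ef_pos.Interface1

set_option autoImplicit false

open Classical

namespace Pool.NF

theorem OVR_lmono {L : Type} {S S' : Set L} (h : S ⊆ S') (j : Lab L) (hj : LOver S j) :
    LOver S' j := ⟨h hj.1, h hj.2⟩

theorem OVR_umono {L : Type} {S S' : Set L} (h : S ⊆ S') (t : Un L) (ht : t.Over S) :
    t.Over S' := by
  cases t with
  | x i l => exact h ht
  | tau Z r => exact Set.Subset.trans ht h
  | tau' Z r => exact Set.Subset.trans ht h
  | u Z ψ => exact Set.Subset.trans ht h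

theorem OVR_mono {L : Type} {S S' : Set L} (h : S ⊆ S') (α : Tm L) (hα : α.Over S) :
    α.Over S' := by
  induction α with
  | base F g => exact fun j hj => ⟨OVR_lmono h j (hα j hj).1, OVR_umono h _ (hα j hj).2⟩
  | inf α β iα iβ => exact ⟨iα hα.1, iβ hα.2⟩
  | sup α β iα iβ => exact ⟨iα hα.1, iβ hα.2⟩
  | lk Z r j α β iα iβ => exact ⟨Set.Subset.trans hα.1 h, hα.2⟩
  | ek Z ψ j α β iα iβ => exact ⟨Set.Subset.trans hα.1 h, hα.2⟩

theorem OVR_vars {L : Type} (α : Tm L) : ∀ S : Set L, α.Over S → ∀ j ∈ α.vars, LOver S j := by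
  induction α with
  | base F g => exact fun S hα j hj => (hα j hj).1
  | inf α β iα iβ =>
    intro S hα j hj
    rcases Finset.mem_union.1 hj with h | h
    · exact iα S hα.1 j h
    · exact iβ S hα.2 j h
  | sup α β iα iβ =>
    intro S hα j hj
    rcases Finset.mem_union.1 hj with h | h
    · exact iα S hα.1 j h
    · exact iβ S hα.2 j h
  | lk Z r k α β iα iβ =>
    intro S hα j hj
    refine OVR_lmono hα.1 j ?_
    rcases Finset.mem_insert.1 hj with h | h
    · rw [h]
      exact hα.2.2.2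
    · rcases Finset.mem_union.1 h with h | h
      · exact iα _ hα.2.1 j h
      · exact iβ _ hα.2.2.1 j h
  | ek Z ψ k α β iα iβ =>
    intro S hα j hj
    refine OVR_lmono hα.1 j ?_
    rcases Finset.mem_insert.1 hj with h | h
    · rw [h]
      exact hα.2.2.2
    · rcases Finset.mem_union.1 h with h | h
      · exact iα _ hα.2.1 j h
      · exact iβ _ hα.2.2.1 j h

theorem OVR_ufin {L : Type} (S : Set L) (t : Un L) (ht : t.Over S) :
    ∃ Z : Finset L, (↑Z : Set L) ⊆ S ∧ t.Over (↑Z : Set L) := by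
  cases t with
  | x i l =>
    refine ⟨{i}, ?_, ?_⟩
    · intro y hy
      rw [Finset.mem_coe, Finset.mem_singleton] at hy
      rw [hy]
      exact ht
    · exact Finset.mem_singleton_self i
  | tau Z r => exact ⟨Z, ht, Set.Subset.rfl⟩
  | tau' Z r => exact ⟨Z, ht, Set.Subset.rfl⟩
  | u Z ψ => exact ⟨Z, ht, Set.Subset.rfl⟩

theorem OVR_bfin {L : Type} (S : Set L) (g : Lab L → Un L) (F : Finset (Lab L)) :
    (∀ j ∈ F, LOver S j ∧ (g j).Over S) →
    ∃ Z : Finset L, (↑Z : Set L) ⊆ S ∧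
      ∀ j ∈ F, LOver (↑Z : Set L) j ∧ (g j).Over (↑Z : Set L) := by
  refine Finset.induction_on F ?_ ?_
  · intro _
    exact ⟨∅, by simp, fun j hj => absurd hj (Finset.notMem_empty j)⟩
  · intro a F _ ih h
    obtain ⟨Z, hZ, hF⟩ := ih (fun j hj => h j (Finset.mem_insert_of_mem hj))
    obtain ⟨h1, h2⟩ := h a (Finset.mem_insert_self a F)
    obtain ⟨Z', hZ', hu⟩ := OVR_ufin S (g a) h2
    refine ⟨insert a.1 (insert a.2.1 (Z ∪ Z')), ?_, ?_⟩
    · intro y hy
      rw [Finset.mem_coe, Finset.mem_insert, Finset.mem_insert, Finset.mem_union] at hy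
      rcases hy with h | h | h | h
      · rw [h]
        exact h1.1
      · rw [h]
        exact h1.2
      · exact hZ h
      · exact hZ' h
    · have s1 : (↑Z : Set L) ⊆ ↑(insert a.1 (insert a.2.1 (Z ∪ Z'))) := by
        intro y hy
        rw [Finset.mem_coe, Finset.mem_insert, Finset.mem_insert, Finset.mem_union]
        exact Or.inr (Or.inr (Or.inl hy))
      have s2 : (↑Z' : Set L) ⊆ ↑(insert a.1 (insert a.2.1 (Z ∪ Z'))) := by
        intro y hy
        rw [Finset.mem_coe, Finset.mem_insert, Finset.mem_insert, Finset.mem_union]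
        exact Or.inr (Or.inr (Or.inr hy))
      intro j hj
      rcases Finset.mem_insert.1 hj with h | h
      · rw [h]
        refine ⟨⟨?_, ?_⟩, OVR_umono s2 _ hu⟩
        · exact Finset.mem_coe.2 (Finset.mem_insert_self _ _)
        · exact Finset.mem_coe.2 (Finset.mem_insert_of_mem (Finset.mem_insert_self _ _))
      · exact ⟨OVR_lmono s1 _ (hF j h).1, OVR_umono s1 _ (hF j h).2⟩

theorem OVR_fin {L : Type} (α : Tm L) : ∀ S : Set L, α.Over S →
    ∃ Z : Finset L, (↑Z : Set L) ⊆ S ∧ α.Over (↑Z : Set L) := by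
  have key : ∀ (α β : Tm L) (S : Set L),
      (∃ Z : Finset L, (↑Z : Set L) ⊆ S ∧ α.Over (↑Z : Set L)) →
      (∃ Z : Finset L, (↑Z : Set L) ⊆ S ∧ β.Over (↑Z : Set L)) →
      ∃ Z : Finset L, (↑Z : Set L) ⊆ S ∧ α.Over (↑Z : Set L) ∧ β.Over (↑Z : Set L) := by
    rintro α β S ⟨Z, hZ, hα⟩ ⟨Z', hZ', hβ⟩
    refine ⟨Z ∪ Z', ?_, ?_, ?_⟩
    · rw [Finset.coe_union]
      exact Set.union_subset hZ hZ'
    · refine OVR_mono ?_ α hα
      rw [Finset.coe_union]
      exact Set.subset_union_left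
    · refine OVR_mono ?_ β hβ
      rw [Finset.coe_union]
      exact Set.subset_union_right
  induction α with
  | base F g => exact fun S hα => OVR_bfin S g F hα
  | inf α β iα iβ => exact fun S hα => key α β S (iα S hα.1) (iβ S hα.2)
  | sup α β iα iβ => exact fun S hα => key α β S (iα S hα.1) (iβ S hα.2)
  | lk Z r k α β iα iβ => exact fun S hα => ⟨Z, hα.1, Set.Subset.rfl, hα.2⟩
  | ek Z ψ k α β iα iβ => exact fun S hα => ⟨Z, hα.1, Set.Subset.rfl, hα.2⟩

theorem blk_OVR : Stmt_OVR := by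
  intro L α
  refine ⟨OVR_vars α, fun S S' h hα => OVR_mono h α hα, OVR_fin α, ?_⟩
  intro hs
  cases α with
  | base F g => exact hs.elim
  | inf α β => exact hs.elim
  | sup α β => exact hs.elim
  | lk Z r j α β =>
    refine ⟨?_, fun S S' h h' => ⟨Set.subset_inter h.1 h'.1, h.2⟩⟩
    show 1 ≤ max α.rank β.rank + 1
    omega
  | ek Z ψ j α β =>
    refine ⟨?_, fun S S' h h' => ⟨Set.subset_inter h.1 h'.1, h.2⟩⟩
    show 1 ≤ max α.rank β.rank + 1
    omega

end Pool.NF
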