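import Pool.Agent.Work.MP_b103ef_pos.Interface1

/-! Block PLE: `Le` can be checked on the parts. -/

set_option autoImplicit false

open Classical

namespace Pool.NF

theorem blk_PLE (hEVH : Stmt_EVH) (hOVR : Stmt_OVR) (hSYS : Stmt_SYS) (hPUL : Stmt_PUL) :
    Stmt_PLE := by
  intro L S n E ι _ _ e he M hM α β hα hβ hrα hrβ hpart
  have hG : ∀ j ∈ α.vars ∪ β.vars, LOver S j := by
    intro j hj
    rcases Finset.mem_union.1 hj with h | h
    · exact (hOVR L α).1 S hα j h
    · exact (hOVR L β).1 S hβ j h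
  unfold Str.Le
  set G := α.vars ∪ β.vars with hGdef
  have hinv : ∀ a, Inv (M.ev G β) (e a) := fun a =>
    ((hEVH L S n E E M M (e a) (hM a)).2.2 G hG).2.2 β hβ hrβ
  intro v hv
  rw [(hSYS (Lab L) E ι e he (M.ev G β) hinv).1 v]
  intro a
  obtain ⟨F, _, _, inc, pr, hpr, hcomp, hle⟩ := hpart a
  have hHom : Str.Hom S n M M (inc.comp pr) := by
    rw [hcomp]
    exact hM a
  obtain ⟨h1, h2⟩ := hPUL L S n E F M inc pr hpr hHom
  have h3 : lift pr v ∈ (M.pull inc).ev G α :=
    ((hEVH L S n E F M (M.pull inc) pr h2).2.2 G hG).2.2 α hα hrα hv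
  have h4 : lift pr v ∈ (M.pull inc).ev G β := hle h3
  have h5 : lift inc (lift pr v) ∈ M.ev G β :=
    ((hEVH L S n F E (M.pull inc) M inc h1).2.2 G hG).2.2 β hβ hrβ h4
  have h6 : lift (e a) v = lift inc (lift pr v) := by
    rw [← hcomp]
    ext j
    simp [lift]
  rw [h6]
  exact h5

end Pool.NF
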