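import Pool.Agent.Work.MP_b103ef_pos.Interface1

/-! # Block PTP (helper7) -/

set_option autoImplicit false

open Classical

namespace Pool.NF

theorem PTP_pp_sup (u v : V5) : pp (u ⊔ v) = pp u ⊔ pp v := by
  cases u <;> cases v <;> rfl

theorem PTP_pp_inf (u v : V5) : pp (u ⊓ v) = pp u ⊓ pp v := by
  cases u <;> cases v <;> rfl

theorem PTP_pq_sup (u v : V5) : pq (u ⊔ v) = pq u ⊔ pq v := by
  cases u <;> cases v <;> rfl

theorem PTP_pq_inf (u v : V5) : pq (u ⊓ v) = pq u ⊓ pq v := by
  cases u <;> cases v <;> rfl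

theorem PTP_ps_sup (u v : V5) (hu : u ≠ V5.c) (hv : v ≠ V5.c) : ps (u ⊔ v) = ps u ⊔ ps v := by
  cases u <;> cases v <;> first | rfl | exact absurd rfl hu | exact absurd rfl hv

theorem PTP_ps_inf (u v : V5) : ps (u ⊓ v) = ps u ⊓ ps v := by
  cases u <;> cases v <;> rfl

theorem blk_PTP : Stmt_PTP := by
  intro L _ φ hφ
  refine ⟨⟨⟨?_, ?_⟩, ⟨?_, ?_⟩, ?_⟩, ?_, ?_⟩
  · intro x y
    simp only [Function.comp]
    rw [hφ.1, PTP_pp_sup]
  · intro x y
    simp only [Function.comp]
    rw [hφ.2, PTP_pp_inf]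
  · intro x y
    simp only [Function.comp]
    rw [hφ.1, PTP_pq_sup]
  · intro x y
    simp only [Function.comp]
    rw [hφ.2, PTP_pq_inf]
  · intro hc
    refine ⟨?_, ?_⟩
    · intro x y
      simp only [Function.comp]
      rw [hφ.1, PTP_ps_sup _ _ (hc x) (hc y)]
    · intro x y
      simp only [Function.comp]
      rw [hφ.2, PTP_ps_inf]
  · intro S
    refine ⟨?_, ?_, ?_⟩
    · intro x _
      simp only [Function.comp]
      cases φ x <;> simp [pp]
    · intro x _
      simp only [Function.comp]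
      cases φ x <;> simp [pq]
    · intro x _
      simp only [Function.comp]
      cases φ x <;> simp [ps]
  · intro Z χ hR x hx y hy
    rcases hR with ⟨_, h⟩ | ⟨_, h | h | ⟨hc, h⟩⟩
    · refine ⟨fun hs => ?_, fun hs => ?_⟩
      · rw [h hs, h hx, h hy, hφ.1]
      · rw [h hs, h hx, h hy, hφ.2]
    · refine ⟨fun hs => ?_, fun hs => ?_⟩
      · rw [h hs, h hx, h hy]
        simp only [Function.comp]
        rw [hφ.1, PTP_pp_sup]
      · rw [h hs, h hx, h hy]
        simp only [Function.comp]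
        rw [hφ.2, PTP_pp_inf]
    · refine ⟨fun hs => ?_, fun hs => ?_⟩
      · rw [h hs, h hx, h hy]
        simp only [Function.comp]
        rw [hφ.1, PTP_pq_sup]
      · rw [h hs, h hx, h hy]
        simp only [Function.comp]
        rw [hφ.2, PTP_pq_inf]
    · refine ⟨fun hs => ?_, fun hs => ?_⟩
      · rw [h hs, h hx, h hy]
        simp only [Function.comp]
        rw [hφ.1, PTP_ps_sup _ _ (hc x hx) (hc y hy)]
      · rw [h hs, h hx, h hy]
        simp only [Function.comp]
        rw [hφ.2, PTP_ps_inf]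

end Pool.NF
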