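import Pool.Agent.Work.MP_b103ef_pos.Interface1

set_option autoImplicit false

open Classical

namespace Pool.NF

theorem blk_PUL : Stmt_PUL := by
  intro L S n E F _ _ _ _ M inc pr hpr hH
  obtain ⟨h1, h2, h3⟩ := hH
  refine ⟨⟨fun i _ l => le_rfl, fun Z _ ψ => le_rfl, fun σ _ _ _ => le_rfl⟩,
    ⟨fun i hi l => ?_, fun Z hZ ψ => ?_, fun σ hs ho hr => ?_⟩⟩
  · intro v hv
    exact h1 i hi l hv
  · intro v hv
    exact h2 Z hZ ψ hv
  · intro v hv
    have h := h3 σ hs ho hr hv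
    have e : (lift (inc.comp pr) : (Lab L →₀ E) →ₗ[ℚ] (Lab L →₀ E)) =
        (lift inc).comp (lift pr) :=
      Finsupp.mapRange.linearMap_comp inc pr
    rw [e] at h
    exact h

end Pool.NF
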