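import Pool.Agent.Work.MP_b103ef_pos.Interface3

set_option autoImplicit false

open Classical

namespace Pool.NF

/-- an implication between inequalities, valid in all sane structures, passes to `NCs` -/
theorem QOS_imp2 (hN : Stmt_NCM) (hV : Stmt_VSN) (hE : Stmt_ESN) (L : Type) (hA : AllExt L)
    (S : Set L) (χ : L → V5) (n : ℕ) (a b a' b' c d : Tm L)
    (ha : a.Over S) (hb : b.Over S) (ha' : a'.Over S) (hb' : b'.Over S) (hc : c.Over S)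
    (hd : d.Over S) (ra : a.rank ≤ n) (rb : b.rank ≤ n) (ra' : a'.rank ≤ n) (rb' : b'.rank ≤ n)
    (rc : c.rank ≤ n) (rd : d.rank ≤ n)
    (h : ∀ (E : Type) [AddCommGroup E] [Module ℚ E] (M : Str L E), Sane S n M →
      M.Le a b → M.Le a' b' → M.Le c d)
    (h1 : ¬ NCs S χ a b) (h2 : ¬ NCs S χ a' b') : ¬ NCs S χ c d := by
  have k1 := (hN L hA S χ a b n ha hb ra rb).1 h1
  have k2 := (hN L hA S χ a' b' n ha' hb' ra' rb').1 h2
  refine (hN L hA S χ c d n hc hd rc rd).2 ⟨fun hv E _ _ M hM => ?_,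
    fun hh V P Q _ _ _ _ _ _ M hM => ?_⟩
  · exact h E M (hV L S χ n E M hM) (k1.1 hv E M hM) (k2.1 hv E M hM)
  · exact h _ M (hE L S χ n V P Q M hM) (k1.2 hh V P Q M hM) (k2.2 hh V P Q M hM)

theorem QOS_imp0 (hN : Stmt_NCM) (hV : Stmt_VSN) (hE : Stmt_ESN) (L : Type) (hA : AllExt L)
    (S : Set L) (χ : L → V5) (n : ℕ) (c d : Tm L) (hc : c.Over S)
    (hd : d.Over S) (rc : c.rank ≤ n) (rd : d.rank ≤ n)
    (h : ∀ (E : Type) [AddCommGroup E] [Module ℚ E] (M : Str L E), Sane S n M → M.Le c d) :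
    ¬ NCs S χ c d := by
  refine (hN L hA S χ c d n hc hd rc rd).2 ⟨fun hv E _ _ M hM => ?_,
    fun hh V P Q _ _ _ _ _ _ M hM => ?_⟩
  · exact h E M (hV L S χ n E M hM)
  · exact h _ M (hE L S χ n V P Q M hM)

theorem QOS_imp1 (hN : Stmt_NCM) (hV : Stmt_VSN) (hE : Stmt_ESN) (L : Type) (hA : AllExt L)
    (S : Set L) (χ : L → V5) (n : ℕ) (a b c d : Tm L)
    (ha : a.Over S) (hb : b.Over S) (hc : c.Over S)
    (hd : d.Over S) (ra : a.rank ≤ n) (rb : b.rank ≤ n)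
    (rc : c.rank ≤ n) (rd : d.rank ≤ n)
    (h : ∀ (E : Type) [AddCommGroup E] [Module ℚ E] (M : Str L E), Sane S n M →
      M.Le a b → M.Le c d)
    (h1 : ¬ NCs S χ a b) : ¬ NCs S χ c d :=
  QOS_imp2 hN hV hE L hA S χ n a b a b c d ha hb ha hb hc hd ra rb ra rb rc rd
    (fun E _ _ M hM k _ => h E M hM k) h1 h1

theorem blk_QOS (hN : Stmt_NCM) (hV : Stmt_VSN) (hE : Stmt_ESN) (hS : Stmt_SAN) :
    Stmt_QOS := by
  intro L hA S χ α β γ hα hβ hγ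
  obtain ⟨n, hn⟩ : ∃ n, n = max (max α.rank β.rank) γ.rank := ⟨_, rfl⟩
  obtain ⟨G, hG⟩ : ∃ G, G = α.vars ∪ β.vars ∪ γ.vars := ⟨_, rfl⟩
  have rα : α.rank ≤ n := by rw [hn]; exact (le_max_left _ _).trans (le_max_left _ _)
  have rβ : β.rank ≤ n := by rw [hn]; exact (le_max_right _ _).trans (le_max_left _ _)
  have rγ : γ.rank ≤ n := by rw [hn]; exact le_max_right _ _
  have gα : α.vars ⊆ G := by
    rw [hG]; exact Finset.subset_union_left.trans Finset.subset_union_left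
  have gβ : β.vars ⊆ G := by
    rw [hG]; exact Finset.subset_union_right.trans Finset.subset_union_left
  have gγ : γ.vars ⊆ G := by rw [hG]; exact Finset.subset_union_right
  have key : ∀ (E : Type) [AddCommGroup E] [Module ℚ E] (M : Str L E), Sane S n M →
      ∀ a b : Tm L, a.Over S → b.Over S → a.rank ≤ n → b.rank ≤ n → a.vars ⊆ G → b.vars ⊆ G →
      (M.Le a b ↔ M.ev G a ≤ M.ev G b) := fun E _ _ M hM a b ha hb ra rb ga gb =>
    ((hS L S n E M hM).2.1 a b ha hb ra rb G (Finset.union_subset ga gb)).1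
  have ri : ∀ a b : Tm L, a.rank ≤ n → b.rank ≤ n → (Tm.inf a b).rank ≤ n :=
    fun a b h1 h2 => max_le h1 h2
  have rs : ∀ a b : Tm L, a.rank ≤ n → b.rank ≤ n → (Tm.sup a b).rank ≤ n :=
    fun a b h1 h2 => max_le h1 h2
  have gi : ∀ a b : Tm L, a.vars ⊆ G → b.vars ⊆ G → (Tm.inf a b).vars ⊆ G :=
    fun a b h1 h2 => Finset.union_subset h1 h2
  have gs : ∀ a b : Tm L, a.vars ⊆ G → b.vars ⊆ G → (Tm.sup a b).vars ⊆ G :=
    fun a b h1 h2 => Finset.union_subset h1 h2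
  have oi : ∀ a b : Tm L, a.Over S → b.Over S → (Tm.inf a b).Over S :=
    fun a b h1 h2 => ⟨h1, h2⟩
  have os : ∀ a b : Tm L, a.Over S → b.Over S → (Tm.sup a b).Over S :=
    fun a b h1 h2 => ⟨h1, h2⟩
  refine ⟨?_, ?_, ?_, ?_, ?_, ?_, ?_, ?_, ?_⟩
  · refine QOS_imp0 hN hV hE L hA S χ n α α hα hα rα rα ?_
    intro E _ _ M hM
    exact (key E M hM α α hα hα rα rα gα gα).2 le_rfl
  · refine QOS_imp2 hN hV hE L hA S χ n α β β γ α γ hα hβ hβ hγ hα hγ rα rβ rβ rγ rα rγ ?_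
    intro E _ _ M hM h1 h2
    exact (key E M hM α γ hα hγ rα rγ gα gγ).2
      (((key E M hM α β hα hβ rα rβ gα gβ).1 h1).trans
        ((key E M hM β γ hβ hγ rβ rγ gβ gγ).1 h2))
  · refine QOS_imp0 hN hV hE L hA S χ n _ _ (oi _ _ hα hβ) hα (ri _ _ rα rβ) rα ?_
    intro E _ _ M hM
    exact (key E M hM _ _ (oi _ _ hα hβ) hα (ri _ _ rα rβ) rα (gi _ _ gα gβ) gα).2 inf_le_left
  · refine QOS_imp0 hN hV hE L hA S χ n _ _ (oi _ _ hα hβ) hβ (ri _ _ rα rβ) rβ ?_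
    intro E _ _ M hM
    exact (key E M hM _ _ (oi _ _ hα hβ) hβ (ri _ _ rα rβ) rβ (gi _ _ gα gβ) gβ).2 inf_le_right
  · refine QOS_imp2 hN hV hE L hA S χ n γ α γ β γ (.inf α β) hγ hα hγ hβ hγ (oi _ _ hα hβ)
      rγ rα rγ rβ rγ (ri _ _ rα rβ) ?_
    intro E _ _ M hM h1 h2
    exact (key E M hM _ _ hγ (oi _ _ hα hβ) rγ (ri _ _ rα rβ) gγ (gi _ _ gα gβ)).2
      (le_inf ((key E M hM γ α hγ hα rγ rα gγ gα).1 h1)
        ((key E M hM γ β hγ hβ rγ rβ gγ gβ).1 h2))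
  · refine QOS_imp0 hN hV hE L hA S χ n _ _ hα (os _ _ hα hβ) rα (rs _ _ rα rβ) ?_
    intro E _ _ M hM
    exact (key E M hM _ _ hα (os _ _ hα hβ) rα (rs _ _ rα rβ) gα (gs _ _ gα gβ)).2 le_sup_left
  · refine QOS_imp0 hN hV hE L hA S χ n _ _ hβ (os _ _ hα hβ) rβ (rs _ _ rα rβ) ?_
    intro E _ _ M hM
    exact (key E M hM _ _ hβ (os _ _ hα hβ) rβ (rs _ _ rα rβ) gβ (gs _ _ gα gβ)).2 le_sup_right
  · refine QOS_imp2 hN hV hE L hA S χ n α γ β γ (.sup α β) γ hα hγ hβ hγ (os _ _ hα hβ) hγ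
      rα rγ rβ rγ (rs _ _ rα rβ) rγ ?_
    intro E _ _ M hM h1 h2
    exact (key E M hM _ _ (os _ _ hα hβ) hγ (rs _ _ rα rβ) rγ (gs _ _ gα gβ) gγ).2
      (sup_le ((key E M hM α γ hα hγ rα rγ gα gγ).1 h1)
        ((key E M hM β γ hβ hγ rβ rγ gβ gγ).1 h2))
  · refine QOS_imp1 hN hV hE L hA S χ n γ α _ _ hγ hα (oi _ _ hα (os _ _ hβ hγ))
      (os _ _ (oi _ _ hα hβ) hγ) rγ rα (ri _ _ rα (rs _ _ rβ rγ)) (rs _ _ (ri _ _ rα rβ) rγ) ?_
    intro E _ _ M hM h1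
    have h1' := (key E M hM γ α hγ hα rγ rα gγ gα).1 h1
    refine (key E M hM _ _ (oi _ _ hα (os _ _ hβ hγ)) (os _ _ (oi _ _ hα hβ) hγ)
      (ri _ _ rα (rs _ _ rβ rγ)) (rs _ _ (ri _ _ rα rβ) rγ) (gi _ _ gα (gs _ _ gβ gγ))
      (gs _ _ (gi _ _ gα gβ) gγ)).2 ?_
    change M.ev G α ⊓ (M.ev G β ⊔ M.ev G γ) ≤ (M.ev G α ⊓ M.ev G β) ⊔ M.ev G γ
    exact (inf_sup_assoc_of_le (M.ev G β) h1').ge

end Pool.NF
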