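import Pool.Agent.Work.MP_b103ef_pos.Interface3

set_option autoImplicit false

open Classical

namespace Pool.NF

/-- the pairs of the step -/
noncomputable def REF_new {L : Type} (k : L) (p : Tm L × Tm L) : List (Tm L × Tm L) :=
  (List.finRange 4).map fun m : Fin 4 => (flg p.1 p.2 k m.succ, flg p.1 p.2 k m.castSucc)

theorem REF_mem {L : Type} {k : L} {l : List (Tm L × Tm L)} {q : Tm L × Tm L} :
    q ∈ l.flatMap (REF_new k) ↔ ∃ p ∈ l, ∃ m : Fin 4,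
      q = (flg p.1 p.2 k m.succ, flg p.1 p.2 k m.castSucc) := by
  rw [List.mem_flatMap]
  constructor
  · rintro ⟨p, hp, hq⟩
    obtain ⟨m, -, rfl⟩ := List.mem_map.1 hq
    exact ⟨p, hp, m, rfl⟩
  · rintro ⟨p, hp, m, rfl⟩
    exact ⟨p, hp, List.mem_map.2 ⟨m, List.mem_finRange m, rfl⟩⟩

theorem REF_type (hF : Stmt_FLG) {L : Type} (hE : AllExt L) (Z : Finset L) (k : L) (hk : k ∈ Z)
    (α β : Tm L) (hα : α.Over (↑Z : Set L)) (hβ : β.Over (↑Z : Set L)) (m : Fin 4) :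
    ∃ v : V5, (v = V5.o ∨ v = V5.i) ∧ ∀ ρ : L → V5, IsV (↑Z : Set L) ρ →
      NCs (↑Z : Set L) ρ (flg α β k m.succ) (flg α β k m.castSucc) → ρ k = v := by
  obtain ⟨-, -, h3, -⟩ := hF L hE Z k hk α β hα hβ
  have key : ∀ ρ : L → V5, IsV (↑Z : Set L) ρ → ρ k = V5.o ∨ ρ k = V5.i :=
    fun ρ hρ => hρ k hk
  match m with
  | 0 =>
    refine ⟨V5.i, Or.inr rfl, fun ρ hρ h => ?_⟩
    rcases key ρ hρ with h' | h'
    · exact absurd h ((h3 ρ hρ).1 h').1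
    · exact h'
  | 1 =>
    refine ⟨V5.o, Or.inl rfl, fun ρ hρ h => ?_⟩
    rcases key ρ hρ with h' | h'
    · exact h'
    · exact absurd h ((h3 ρ hρ).2 h').1
  | 2 =>
    refine ⟨V5.i, Or.inr rfl, fun ρ hρ h => ?_⟩
    rcases key ρ hρ with h' | h'
    · exact absurd h ((h3 ρ hρ).1 h').2
    · exact h'
  | 3 =>
    refine ⟨V5.o, Or.inl rfl, fun ρ hρ h => ?_⟩
    rcases key ρ hρ with h' | h'
    · exact h'
    · exact absurd h ((h3 ρ hρ).2 h').2

theorem REF_aux (hF : Stmt_FLG) (hK : Stmt_FLK) (hO : Stmt_OVR) {L : Type} [Lattice L]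
    (hE : AllExt L) (D : KData L) (r : D.K → D.K → Prop) (hr : IsCon r) (Z : Finset L)
    (α β : Tm L) (hα : α.Over (↑Z : Set L)) (hβ : β.Over (↑Z : Set L)) :
    ∀ W : Finset L, W ⊆ Z → ∃ l : List (Tm L × Tm L),
    (∀ p ∈ l, p.1.Over (↑Z : Set L) ∧ p.2.Over (↑Z : Set L) ∧
      p.1.vars ∪ p.2.vars ⊆ α.vars ∪ β.vars ∧
      (∃ χ₀ : L → V5, IsV (↑Z : Set L) χ₀ ∧ ∀ ρ : L → V5, IsV (↑Z : Set L) ρ →
        NCs (↑Z : Set L) ρ p.1 p.2 → Set.EqOn ρ χ₀ ↑W) ∧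
      (∀ χ : L → V5, NCs (↑Z : Set L) χ p.1 p.2 → NCs (↑Z : Set L) χ α β) ∧
      (InC D r α β → InC D r p.1 p.2)) ∧
    ((∀ p ∈ l, InC D r p.1 p.2) → InC D r α β) ∧
    ∀ χ : L → V5, NCs (↑Z : Set L) χ α β → ∃ p ∈ l, NCs (↑Z : Set L) χ p.1 p.2 := by
  intro W
  induction W using Finset.induction_on with
  | empty =>
    intro _
    refine ⟨[(α, β)], ?_, ?_, ?_⟩
    · intro p hp
      rw [List.mem_singleton.1 hp]
      exact ⟨hα, hβ, le_rfl, ⟨fun _ => V5.o, fun _ _ => Or.inl rfl, fun ρ _ _ x hx => by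
        simp at hx⟩, fun _ h => h, fun h => h⟩
    · intro h
      exact h (α, β) (by simp)
    · intro χ h
      exact ⟨(α, β), by simp, h⟩
  | insert k W hkW ih =>
    intro hW
    have hk : k ∈ Z := hW (Finset.mem_insert_self k W)
    obtain ⟨l, h1, h2, h3⟩ := ih fun x hx => hW (Finset.mem_insert_of_mem hx)
    refine ⟨l.flatMap (REF_new k), ?_, ?_, ?_⟩
    · intro q hq
      obtain ⟨p, hp, m, rfl⟩ := REF_mem.1 hq
      obtain ⟨p1, p2, p3, ⟨χ₀, pv, p4⟩, p5, p6⟩ := h1 p hp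
      obtain ⟨f1, f2, -, -⟩ := hF L hE Z k hk p.1 p.2 p1 p2
      obtain ⟨v, hv, hρv⟩ := REF_type hF hE Z k hk p.1 p.2 p1 p2 m
      have u1 : p.1.Over (Set.univ : Set L) := (hO L p.1).2.1 _ _ (Set.subset_univ _) p1
      have u2 : p.2.Over (Set.univ : Set L) := (hO L p.2).2.1 _ _ (Set.subset_univ _) p2
      refine ⟨(f1 _).1, (f1 _).1, (Finset.union_subset (f1 _).2 (f1 _).2).trans p3,
        ⟨Function.update χ₀ k v, ?_, ?_⟩, ?_, ?_⟩
      · intro x hx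
        by_cases hxk : x = k
        · subst hxk; simpa using hv
        · rw [Function.update_of_ne hxk]
          exact pv x hx
      · intro ρ hρ hn x hx
        by_cases hxk : x = k
        · subst hxk
          rw [Function.update_self]
          exact hρv ρ hρ hn
        · rw [Function.update_of_ne hxk]
          refine p4 ρ hρ (f2 m ρ hn) ?_
          have hx' : x ∈ insert k W := hx
          rcases Finset.mem_insert.1 hx' with h | h
          · exact absurd h hxk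
          · exact h
      · intro χ hn
        exact p5 χ (f2 m χ hn)
      · intro h
        exact (hK L hE D r hr k p.1 p.2 u1 u2).1 (p6 h) m
    · intro h
      refine h2 fun p hp => ?_
      obtain ⟨p1, p2, -⟩ := h1 p hp
      have u1 : p.1.Over (Set.univ : Set L) := (hO L p.1).2.1 _ _ (Set.subset_univ _) p1
      have u2 : p.2.Over (Set.univ : Set L) := (hO L p.2).2.1 _ _ (Set.subset_univ _) p2
      refine (hK L hE D r hr k p.1 p.2 u1 u2).2 fun m => ?_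
      exact h (flg p.1 p.2 k m.succ, flg p.1 p.2 k m.castSucc) (REF_mem.2 ⟨p, hp, m, rfl⟩)
    · intro χ hn
      obtain ⟨p, hp, hn'⟩ := h3 χ hn
      obtain ⟨p1, p2, -⟩ := h1 p hp
      obtain ⟨-, -, -, f4⟩ := hF L hE Z k hk p.1 p.2 p1 p2
      obtain ⟨m, hm⟩ := f4 χ hn'
      exact ⟨(flg p.1 p.2 k m.succ, flg p.1 p.2 k m.castSucc), REF_mem.2 ⟨p, hp, m, rfl⟩, hm⟩

theorem blk_REF (hF : Stmt_FLG) (hK : Stmt_FLK) (hO : Stmt_OVR) : Stmt_REF := by
  intro L _ hE D r hr Z α β hα hβ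
  obtain ⟨l, h1, h2, h3⟩ := REF_aux hF hK hO hE D r hr Z α β hα hβ Z le_rfl
  refine ⟨l, fun p hp => ?_, h2, h3⟩
  obtain ⟨p1, p2, p3, ⟨χ₀, pv, p4⟩, p5, p6⟩ := h1 p hp
  exact ⟨p1, p2, p3, ⟨χ₀, pv, fun ρ hρ hne hn => hne (p4 ρ hρ hn)⟩, p5, p6⟩

end Pool.NF
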