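import Pool.Agent.Work.MP_b103ef_pos.Interface1

/-! # Block RET (helper17): retracts -/

set_option autoImplicit false

open Classical

namespace Pool.NF

theorem RET_aux {L E F : Type} [AddCommGroup E] [Module ℚ E] [AddCommGroup F] [Module ℚ F]
    (M : Str L E) (M' : Str L F) (inc : F →ₗ[ℚ] E) (G : Finset (Lab L)) (α β : Tm L)
    (hα : M'.ev G α = (M.ev G α).comap (lift inc))
    (hβ : M'.ev G β = (M.ev G β).comap (lift inc)) : M'.rk G α β ≤ M.rk G α β := by
  unfold Str.rk
  have h1 : ∀ v ∈ M'.ev G α, lift inc v ∈ M.ev G α := by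
    intro v hv
    rw [hα] at hv
    exact hv
  set f : ↥(M'.ev G α) →ₗ[ℚ] ↥(M.ev G α) := (lift inc).restrict h1 with hf
  set p : Submodule ℚ ↥(M'.ev G α) := (M'.ev G β).comap (M'.ev G α).subtype with hp
  set q : Submodule ℚ ↥(M.ev G α) := (M.ev G β).comap (M.ev G α).subtype with hq
  have h2 : q.comap f = p := by
    ext v
    rw [hp, hq, Submodule.mem_comap, Submodule.mem_comap, Submodule.mem_comap, hβ,
      Submodule.mem_comap]
    rfl
  have h3 : p ≤ LinearMap.ker (q.mkQ.comp f) := by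
    rw [LinearMap.ker_comp, Submodule.ker_mkQ, h2]
  have h4 : LinearMap.ker (q.mkQ.comp f) ≤ p := by
    rw [LinearMap.ker_comp, Submodule.ker_mkQ, h2]
  have h5 : LinearMap.ker (p.liftQ (q.mkQ.comp f) h3) = ⊥ :=
    Submodule.ker_liftQ_eq_bot p (q.mkQ.comp f) h3 h4
  exact LinearMap.rank_le_of_injective _ (LinearMap.ker_eq_bot.1 h5)

theorem blk_RET (hEVH : Stmt_EVH) (hOVR : Stmt_OVR) : Stmt_RET := by
  intro L S n E F _ _ _ _ M M' inc pr hpr hi hp
  have key : ∀ G : Finset (Lab L), (∀ j ∈ G, LOver S j) → ∀ α : Tm L, α.Over S → α.rank ≤ n →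
      M'.ev G α = (M.ev G α).comap (lift inc) := by
    intro G hG α hα hr
    apply le_antisymm
    · exact ((hEVH L S n F E M' M inc hi).2.2 G hG).2.2 α hα hr
    · intro v hv
      have h1 := ((hEVH L S n E F M M' pr hp).2.2 G hG).2.2 α hα hr hv
      rw [Submodule.mem_comap] at h1
      have h2 : lift pr (lift inc v) = v := by
        ext1 j
        simp [lift, hpr]
      rw [h2] at h1
      exact h1
  refine ⟨key, ?_⟩
  intro α β hα hβ hrα hrβ
  refine ⟨?_, ?_⟩
  · intro h
    unfold Str.Le at h ⊢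
    have hG : ∀ j ∈ α.vars ∪ β.vars, LOver S j := by
      intro j hj
      rcases Finset.mem_union.1 hj with h1 | h1
      · exact (hOVR L α).1 S hα j h1
      · exact (hOVR L β).1 S hβ j h1
    rw [key _ hG α hα hrα, key _ hG β hβ hrβ]
    exact Submodule.comap_mono h
  · intro G hG
    exact RET_aux M M' inc G α β (key G hG α hα hrα) (key G hG β hβ hrβ)

end Pool.NF
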