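import Pool.Agent.Work.MP_b103ef_pos.Interface1

set_option autoImplicit false

open Classical

namespace Pool.NF

theorem blk_RKL : Stmt_RKL := by
  intro L E _ _ M G α β
  constructor
  · unfold Str.rk
    refine (rank_le_card ℚ _).trans ?_
    refine (Cardinal.mk_le_of_surjective (Submodule.mkQ_surjective _)).trans ?_
    exact Cardinal.mk_set_le (M.ev G α : Set (Lab L →₀ E))
  · unfold Str.rk
    rw [rank_zero_iff, Submodule.Quotient.subsingleton_iff, Submodule.comap_subtype_eq_top]

end Pool.NF
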