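import Pool.Agent.Work.MP_b103ef_pos.Interface2

/-! # Block SAG: `SymOK` depends only on the lower symbols (helper94) -/

set_option autoImplicit false

open Classical

namespace Pool.NF

theorem SAG_pull {L E F : Type} [AddCommGroup E] [Module ℚ E] [AddCommGroup F] [Module ℚ F]
    {Z : Set L} {n : ℕ} {M M' : Str L E} (h : Str.Agree Z n M M') (f : F →ₗ[ℚ] E) :
    Str.Agree Z n (M.pull f) (M'.pull f) := by
  refine ⟨fun i hi l => ?_, fun W hW ψ => ?_, fun σ hs ho hr => ?_⟩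
  · show (M.x i l).comap f = (M'.x i l).comap f
    rw [h.1 i hi l]
  · show (M.u W ψ).comap f = (M'.u W ψ).comap f
    rw [h.2.1 W hW ψ]
  · show (M.g σ).comap (lift f) = (M'.g σ).comap (lift f)
    rw [h.2.2 σ hs ho hr]

theorem SAG_hax (h1 : Stmt_AGR) (h2 : Stmt_OVR) {L : Type} {S : Set L} {n : ℕ} {E : Type}
    [AddCommGroup E] [Module ℚ E] {M M' : Str L E} (PV : VCls L) (PE : ECls L) (φ : L → V5)
    (hA : Str.Agree S n M M') (σ : Tm L)
    (Γ : Submodule ℚ (Lab L →₀ E)) (hσ : σ.Over S) (hr : σ.rank = n + 1)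
    (hV : HAx PV PE φ M σ Γ) : HAx PV PE φ M' σ Γ := by
  obtain ⟨-, -, -, hev, -⟩ := h1 L S n E M M' hA
  cases σ with
  | base F g => trivial
  | inf α β => trivial
  | sup α β => trivial
  | lk Z r j α β =>
    obtain ⟨hZ, hα, hβ, hj⟩ := hσ
    have hr' : max α.rank β.rank + 1 = n + 1 := hr
    have hαr : α.rank ≤ n := by
      have := le_max_left α.rank β.rank; omega
    have hβr : β.rank ≤ n := by
      have := le_max_right α.rank β.rank; omega
    have hαS : α.Over S := (h2 L α).2.1 _ _ hZ hα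
    have hβS : β.Over S := (h2 L β).2.1 _ _ hZ hβ
    have hjS : LOver S j := ⟨hZ hj.1, hZ hj.2⟩
    have hG : ∀ k ∈ insert j (α.vars ∪ β.vars), LOver S k := by
      intro k hk
      rw [Finset.mem_insert, Finset.mem_union] at hk
      rcases hk with rfl | hk | hk
      · exact hjS
      · exact (h2 L α).1 S hαS k hk
      · exact (h2 L β).1 S hβS k hk
    have hT0 : (Tm.T0 Z r j).Over S := by
      intro k hk
      rw [Finset.mem_singleton] at hk
      subst hk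
      exact ⟨hjS, hZ⟩
    have hT1 : (Tm.T1 Z r j).Over S := by
      intro k hk
      rw [Finset.mem_singleton] at hk
      subst hk
      exact ⟨hjS, hZ⟩
    intro hh
    obtain ⟨hV1, hV2⟩ := hV hh
    refine ⟨fun hL => ?_, hV2⟩
    have h3 := hV1 hL
    rw [← hev _ hG _ hT0 (Nat.zero_le n), ← hev _ hG _ hT1 (Nat.zero_le n),
      ← hev _ hG _ hαS hαr, ← hev _ hG _ hβS hβr]
    exact h3
  | ek Z ψ j α β =>
    obtain ⟨hZ, hα, hβ, hj⟩ := hσ
    have hr' : max α.rank β.rank + 1 = n + 1 := hr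
    have hαr : α.rank ≤ n := by
      have := le_max_left α.rank β.rank; omega
    have hβr : β.rank ≤ n := by
      have := le_max_right α.rank β.rank; omega
    have hαS : α.Over S := (h2 L α).2.1 _ _ hZ hα
    have hβS : β.Over S := (h2 L β).2.1 _ _ hZ hβ
    have hjS : LOver S j := ⟨hZ hj.1, hZ hj.2⟩
    have hG : ∀ k ∈ insert j (α.vars ∪ β.vars), LOver S k := by
      intro k hk
      rw [Finset.mem_insert, Finset.mem_union] at hk
      rcases hk with rfl | hk | hk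
      · exact hjS
      · exact (h2 L α).1 S hαS k hk
      · exact (h2 L β).1 S hβS k hk
    have hU : (Tm.U1 Z ψ j).Over S := by
      intro k hk
      rw [Finset.mem_singleton] at hk
      subst hk
      exact ⟨hjS, hZ⟩
    have hbot : (Tm.bot : Tm L).Over S := by
      intro k hk
      exact absurd hk (Finset.notMem_empty k)
    intro hh
    obtain ⟨hV1, hV2⟩ := hV hh
    rw [hev _ hG _ hαS hαr, hev _ hG _ hβS hβr, hev _ hG _ hU (Nat.zero_le n),
      hev _ hG _ hbot (Nat.zero_le n)] at hV1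
    rw [hev _ hG _ hαS hαr] at hV2
    exact ⟨hV1, hV2⟩

theorem blk_SAG (h1 : Stmt_AGR) (h2 : Stmt_OVR) (h3 : Stmt_VUP) : Stmt_SAG := by
  intro L S Z φ n V P Q _ _ _ _ _ _ M M' σ ΓV Γ hZS hs hσ hr hA hOK
  obtain ⟨hAB, hAC, hBC, h01, hH⟩ := hOK
  have hint := ((h2 L σ).2.2.2 hs).2
  have hax : ∀ (F : Type) [AddCommGroup F] [Module ℚ F] (f : F →ₗ[ℚ] FE V P Q)
      (Δ : Submodule ℚ (Lab L →₀ F)), VAx (VG n) (M.pull f) σ Δ →
      VAx (VG n) (M'.pull f) σ Δ := by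
    intro F _ _ f Δ h
    exact (h3 L Z φ n F (M.pull f)).2 (M'.pull f) σ Δ (SAG_pull hA f) hσ hr h
  refine ⟨fun ho => ?_, fun ho => ?_, fun ho => ?_, fun ho => ?_, ?_⟩
  · have ho' : σ.Over (dC Z φ) := by
      refine (h2 L σ).2.1 _ _ ?_ (hint _ _ hσ ho)
      rintro x ⟨hx, hx'⟩
      exact ⟨hx, hx'.2⟩
    obtain ⟨a1, a2, a3, a4, a5⟩ := hAB ho'
    exact ⟨a1, a2, hax _ _ _ a3, hax _ _ _ a4, hax _ _ _ a5⟩
  · have ho' : σ.Over (dB Z φ) := by
      refine (h2 L σ).2.1 _ _ ?_ (hint _ _ hσ ho)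
      rintro x ⟨hx, hx'⟩
      exact ⟨hx, hx'.2⟩
    obtain ⟨a1, a2, a3⟩ := hAC ho'
    exact ⟨a1, hax _ _ _ a2, hax _ _ _ a3⟩
  · have ho' : σ.Over (dA Z φ) := by
      refine (h2 L σ).2.1 _ _ ?_ (hint _ _ hσ ho)
      rintro x ⟨hx, hx'⟩
      exact ⟨hx, hx'.2⟩
    obtain ⟨a1, a2, a3⟩ := hBC ho'
    exact ⟨a1, hax _ _ _ a2, hax _ _ _ a3⟩
  · have ho' : σ.Over (d01 Z φ) := by
      refine (h2 L σ).2.1 _ _ ?_ (hint _ _ hσ ho)
      rintro x ⟨hx, hx'⟩
      exact ⟨hx, hx'.2⟩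
    exact h01 ho'
  · exact SAG_hax h1 h2 (VG n) (EG n) φ hA σ Γ hσ hr hH

end Pool.NF
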