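import Pool.Agent.Work.MP_b103ef_pos.Interface1

/-!
# Block SAN (S02731): dependence of `ev`, `Le`, `rk` on `G`
-/

set_option autoImplicit false

open Classical

namespace Pool.NF

section

variable {J : Type} {E : Type} [AddCommGroup E] [Module ℚ E]

theorem SAN_mem_box {F : Finset J} {C : J → Submodule ℚ E} {v : J →₀ E} :
    v ∈ box F C ↔ ∀ j, (j ∈ F → v j ∈ C j) ∧ (j ∉ F → v j = 0) := Iff.rfl

theorem SAN_box_mono {F G : Finset J} {C D : J → Submodule ℚ E} (h : F ⊆ G)
    (hC : ∀ j ∈ F, C j ≤ D j) : box F C ≤ box G D := by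
  intro v hv j
  refine ⟨fun hj => ?_, fun hj => (hv j).2 fun h' => hj (h h')⟩
  by_cases h' : j ∈ F
  · exact hC j h' ((hv j).1 h')
  · rw [(hv j).2 h']
    exact (D j).zero_mem

/-- restriction to `G` -/
noncomputable def SAN_r (G : Finset J) (v : J →₀ E) : J →₀ E := v.filter (fun j => j ∈ G)

theorem SAN_r_pos {G : Finset J} {j : J} (hj : j ∈ G) (v : J →₀ E) : SAN_r G v j = v j :=
  Finsupp.filter_apply_pos _ _ hj

theorem SAN_r_neg {G : Finset J} {j : J} (hj : j ∉ G) (v : J →₀ E) : SAN_r G v j = 0 :=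
  Finsupp.filter_apply_neg _ _ hj

theorem SAN_key {G G' : Finset J} {B A : J → Submodule ℚ E} {U : Submodule ℚ (J →₀ E)}
    (h1 : box G B ≤ U) (h2 : U ≤ box G A) (hG : G ⊆ G') (v : J →₀ E) :
    v ∈ U ⊔ box G' B ↔ SAN_r G v ∈ U ∧ v - SAN_r G v ∈ box G' B := by
  constructor
  · intro hv
    obtain ⟨u, hu, b, hb, rfl⟩ := Submodule.mem_sup.1 hv
    have hfu : SAN_r G (u + b) = u + SAN_r G b := by
      ext j
      by_cases hj : j ∈ G
      · rw [SAN_r_pos hj, Finsupp.add_apply, Finsupp.add_apply, SAN_r_pos hj]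
      · rw [SAN_r_neg hj, Finsupp.add_apply, SAN_r_neg hj, ((h2 hu) j).2 hj, add_zero]
    have hfb : SAN_r G b ∈ box G B := by
      intro j
      refine ⟨fun hj => ?_, fun hj => ?_⟩
      · rw [SAN_r_pos hj]
        exact (hb j).1 (hG hj)
      · rw [SAN_r_neg hj]
    rw [hfu]
    refine ⟨U.add_mem hu (h1 hfb), ?_⟩
    have e : u + b - (u + SAN_r G b) = b - SAN_r G b := by abel
    rw [e]
    exact (box G' B).sub_mem hb (SAN_box_mono hG (fun _ _ => le_rfl) hfb)
  · rintro ⟨ha, hb⟩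
    have e : v = SAN_r G v + (v - SAN_r G v) := by abel
    rw [e]
    exact Submodule.add_mem_sup ha hb

theorem SAN_filter_self {G : Finset J} {A : J → Submodule ℚ E} {v : J →₀ E}
    (hv : v ∈ box G A) : SAN_r G v = v := by
  ext j
  by_cases hj : j ∈ G
  · rw [SAN_r_pos hj]
  · rw [SAN_r_neg hj, (hv j).2 hj]

/-- ranks of quotients -/
theorem SAN_rank {W : Type} [AddCommGroup W] [Module ℚ W] (a b a' b' : Submodule ℚ W)
    (h1 : a ≤ a') (h2 : a' ≤ a ⊔ b') (h3 : ∀ v ∈ a, v ∈ b' ↔ v ∈ b) :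
    Module.rank ℚ (↥a' ⧸ b'.comap a'.subtype) = Module.rank ℚ (↥a ⧸ b.comap a.subtype) := by
  let f : ↥a →ₗ[ℚ] (↥a' ⧸ b'.comap a'.subtype) :=
    (b'.comap a'.subtype).mkQ.comp (Submodule.inclusion h1)
  have hs : Function.Surjective f := by
    intro y
    obtain ⟨x, rfl⟩ := Submodule.mkQ_surjective _ y
    obtain ⟨u, hu, w, hw, huw⟩ := Submodule.mem_sup.1 (h2 x.2)
    refine ⟨⟨u, hu⟩, ?_⟩
    show (b'.comap a'.subtype).mkQ (Submodule.inclusion h1 ⟨u, hu⟩) = _
    rw [← sub_eq_zero, ← map_sub, Submodule.mkQ_apply, Submodule.Quotient.mk_eq_zero,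
      Submodule.mem_comap]
    have e : a'.subtype (Submodule.inclusion h1 ⟨u, hu⟩ - x) = -w := by
      rw [map_sub]
      show u - (x : W) = -w
      rw [← huw]
      abel
    rw [e]
    exact b'.neg_mem hw
  have hk : LinearMap.ker f = b.comap a.subtype := by
    ext x
    rw [LinearMap.mem_ker]
    show (b'.comap a'.subtype).mkQ (Submodule.inclusion h1 x) = 0 ↔ _
    rw [Submodule.mkQ_apply, Submodule.Quotient.mk_eq_zero, Submodule.mem_comap,
      Submodule.mem_comap]
    exact h3 x.1 x.2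
  have e1 := (f.quotKerEquivOfSurjective hs).rank_eq
  have e2 := (Submodule.quotEquivOfEq _ _ hk).rank_eq
  rw [← e1, e2]

end

section

variable {L : Type} {E : Type} [AddCommGroup E] [Module ℚ E]

theorem SAN_BA (M : Str L E) (j : Lab L) : M.B j ≤ M.A j := inf_le_left

theorem SAN_sup (M : Str L E) (U : Submodule ℚ (Lab L →₀ E)) (G G' : Finset (Lab L))
    (hG : G ⊆ G') : U ⊔ box G' M.B = (U ⊔ box G M.B) ⊔ box G' M.B := by
  rw [sup_assoc, sup_eq_right.2 (SAN_box_mono hG fun _ _ => le_rfl)]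

theorem SAN_one {S : Set L} {n : ℕ} {M : Str L E} (hM : Sane S n M) :
    ∀ α : Tm L, α.Over S → α.rank ≤ n → ∀ G : Finset (Lab L), α.vars ⊆ G →
    box G M.B ≤ M.ev G α ∧ M.ev G α ≤ box G M.A ∧
    ∀ G' : Finset (Lab L), G ⊆ G' → M.ev G' α = M.ev G α ⊔ box G' M.B := by
  intro α
  induction α with
  | base F g =>
    intro hO hr G hG
    refine ⟨le_sup_right, sup_le ?_ ?_, ?_⟩
    · exact SAN_box_mono hG fun j _ => sup_le (SAN_BA M j) inf_le_right
    · exact SAN_box_mono (Finset.Subset.refl _) fun j _ => SAN_BA M j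
    · intro G' hG'
      exact SAN_sup M _ G G' hG'
  | inf α β iha ihb =>
    intro hO hr G hG
    have hra : α.rank ≤ n := le_trans (le_max_left _ _) hr
    have hrb : β.rank ≤ n := le_trans (le_max_right _ _) hr
    obtain ⟨a1, a2, a3⟩ := iha hO.1 hra G (Finset.union_subset_left hG)
    obtain ⟨b1, b2, b3⟩ := ihb hO.2 hrb G (Finset.union_subset_right hG)
    refine ⟨le_inf a1 b1, le_trans inf_le_left a2, ?_⟩
    intro G' hG'
    show M.ev G' α ⊓ M.ev G' β = (M.ev G α ⊓ M.ev G β) ⊔ box G' M.B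
    rw [a3 G' hG', b3 G' hG']
    ext v
    rw [Submodule.mem_inf, SAN_key a1 a2 hG', SAN_key b1 b2 hG',
      SAN_key (le_inf a1 b1) (le_trans inf_le_left a2) hG', Submodule.mem_inf]
    tauto
  | sup α β iha ihb =>
    intro hO hr G hG
    have hra : α.rank ≤ n := le_trans (le_max_left _ _) hr
    have hrb : β.rank ≤ n := le_trans (le_max_right _ _) hr
    obtain ⟨a1, a2, a3⟩ := iha hO.1 hra G (Finset.union_subset_left hG)
    obtain ⟨b1, b2, b3⟩ := ihb hO.2 hrb G (Finset.union_subset_right hG)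
    refine ⟨le_trans a1 le_sup_left, sup_le a2 b2, ?_⟩
    intro G' hG'
    show M.ev G' α ⊔ M.ev G' β = (M.ev G α ⊔ M.ev G β) ⊔ box G' M.B
    rw [a3 G' hG', b3 G' hG', sup_sup_sup_comm, sup_idem]
  | lk Z r j α β iha ihb =>
    intro hO hr G hG
    have hg := hM (.lk Z r j α β) trivial hO hr
    refine ⟨le_sup_right, sup_le (le_trans hg ?_) ?_, ?_⟩
    · exact SAN_box_mono hG fun j _ => le_rfl
    · exact SAN_box_mono (Finset.Subset.refl _) fun j _ => SAN_BA M j
    · intro G' hG'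
      exact SAN_sup M _ G G' hG'
  | ek Z ψ j α β iha ihb =>
    intro hO hr G hG
    have hg := hM (.ek Z ψ j α β) trivial hO hr
    refine ⟨le_sup_right, sup_le (le_trans hg ?_) ?_, ?_⟩
    · exact SAN_box_mono hG fun j _ => le_rfl
    · exact SAN_box_mono (Finset.Subset.refl _) fun j _ => SAN_BA M j
    · intro G' hG'
      exact SAN_sup M _ G G' hG'

theorem blk_SAN : Stmt_SAN := by
  intro L S n E _ _ M hM
  have h1 := SAN_one hM
  refine ⟨h1, ?_, ?_⟩
  · intro α β hα hβ ra rb G hG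
    obtain ⟨a1, a2, a3⟩ := h1 α hα ra (α.vars ∪ β.vars) Finset.subset_union_left
    obtain ⟨b1, b2, b3⟩ := h1 β hβ rb (α.vars ∪ β.vars) Finset.subset_union_right
    have ea := a3 G hG
    have eb := b3 G hG
    have hmem : ∀ v ∈ M.ev (α.vars ∪ β.vars) α, v ∈ M.ev G β ↔ v ∈ M.ev (α.vars ∪ β.vars) β := by
      intro v hv
      have hf := SAN_filter_self (a2 hv)
      rw [eb]
      constructor
      · intro h
        have := ((SAN_key b1 b2 hG v).1 h).1
        rwa [hf] at this
      · intro h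
        exact Submodule.mem_sup_left h
    refine ⟨⟨fun h => ?_, fun h => ?_⟩, ?_⟩
    · rw [ea, eb]
      exact sup_le_sup_right h _
    · intro v hv
      refine (hmem v hv).1 (h ?_)
      rw [ea]
      exact Submodule.mem_sup_left hv
    · refine SAN_rank _ _ _ _ ?_ ?_ hmem
      · rw [ea]
        exact le_sup_left
      · rw [ea, eb]
        exact sup_le_sup_left le_sup_right _
  · intro α hα ra j hj g G hG
    obtain ⟨a1, a2, a3⟩ := h1 α hα ra α.vars (Finset.Subset.refl _)
    have hG' : α.vars ⊆ G := fun k hk => hG (Finset.mem_insert_of_mem hk)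
    have ea := a3 G hG'
    intro v hv
    obtain ⟨hv1, hv2⟩ := Submodule.mem_inf.1 hv
    rw [ea] at hv2
    have hv3 := ((SAN_key a1 a2 hG' v).1 hv2).2
    obtain ⟨c, hc, b, hb, hcb⟩ := Submodule.mem_sup.1 hv1
    intro k
    by_cases hk : k ∈ α.vars
    · have hkj : k ∉ ({j} : Finset (Lab L)) := by
        intro h
        rw [Finset.mem_singleton] at h
        exact hj (h ▸ hk)
      have e : v k = b k := by
        rw [← hcb, Finsupp.add_apply, (hc k).2 hkj, zero_add]
      rw [e]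
      exact hb k
    · have e : (v - SAN_r α.vars v) k = v k := by
        rw [Finsupp.sub_apply, SAN_r_neg hk, sub_zero]
      have := hv3 k
      rw [e] at this
      exact this

end

end Pool.NF
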