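import Pool.Agent.Work.MP_b103ef_pos.Interface1

/-! Block SYS: invariant submodules are determined by their components. -/

set_option autoImplicit false

open Classical

namespace Pool.NF

/-- every finitely supported vector is the finite sum of its components -/
theorem SYS_aux {J E ι : Type} [AddCommGroup E] [Module ℚ E] (e : ι → E →ₗ[ℚ] E) (he : Sys e)
    (v : J →₀ E) : ∃ s : Finset ι, ∑ a ∈ s, lift (e a) v = v := by
  choose t ht using he
  refine ⟨v.support.biUnion fun j => t (v j), ?_⟩
  ext j
  rw [Finsupp.finsetSum_apply]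
  have h1 : ∀ a, (lift (e a) v) j = e a (v j) := fun a => by simp [lift]
  simp only [h1]
  by_cases hj : j ∈ v.support
  · have hsub : t (v j) ⊆ v.support.biUnion fun j => t (v j) :=
      Finset.subset_biUnion_of_mem (fun j => t (v j)) hj
    rw [← Finset.sum_subset hsub fun a _ ha => (ht (v j)).1 a ha]
    exact (ht (v j)).2
  · have h0 : v j = 0 := by simpa using hj
    simp [h0]

theorem blk_SYS : Stmt_SYS := by
  intro J E ι _ _ e he Γ hΓ
  refine ⟨fun v => ⟨fun hv a => hΓ a hv, fun hv => ?_⟩, fun Γ' _ h v hv => ?_⟩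
  · obtain ⟨s, hs⟩ := SYS_aux e he v
    rw [← hs]
    exact Submodule.sum_mem _ fun a _ => hv a
  · obtain ⟨s, hs⟩ := SYS_aux e he v
    rw [← hs]
    exact Submodule.sum_mem _ fun a _ => h a ⟨hΓ a hv, ⟨v, rfl⟩⟩

end Pool.NF
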