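import Pool.Agent.Work.MP_b103ef_pos.B_FID
import Pool.Agent.Work.MP_b103ef_pos.B_SYS

/-! # Block SCA (helper17): scalar matrices preserve submodules in product form -/

set_option autoImplicit false

open Classical

namespace Pool.NF

namespace SCAaux

open FIDaux

section

variable {V P Q : Type} [AddCommGroup V] [Module ℚ V] [AddCommGroup P] [Module ℚ P]
  [AddCommGroup Q] [Module ℚ Q]

theorem lift_apply {J E F : Type} [AddCommGroup E] [Module ℚ E] [AddCommGroup F] [Module ℚ F]
    (f : E →ₗ[ℚ] F) (v : J →₀ E) (j : J) : lift f v j = f (v j) := by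
  simp [lift]

/-- the span of the coordinates -/
noncomputable def W : Submodule ℚ (FE V P Q →ₗ[ℚ] V) :=
  Submodule.span ℚ (Set.range (prC : Co → (FE V P Q →ₗ[ℚ] V)))

theorem memW (c : Co) : (prC c : FE V P Q →ₗ[ℚ] V) ∈ (W : Submodule ℚ (FE V P Q →ₗ[ℚ] V)) :=
  Submodule.subset_span ⟨c, rfl⟩

/-- maps with a scalar matrix -/
def Good (f : FE V P Q →ₗ[ℚ] FE V P Q) : Prop :=
  (∀ c : Co, (prC c).comp f ∈ (W : Submodule ℚ (FE V P Q →ₗ[ℚ] V))) ∧
  (∃ a : ℚ, prP.comp f = a • (prP : FE V P Q →ₗ[ℚ] P)) ∧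
  (∃ a : ℚ, prQ.comp f = a • (prQ : FE V P Q →ₗ[ℚ] Q))

theorem good_inv {J : Type} (Γ : Submodule ℚ (J →₀ FE V P Q))
    (hC : ∀ c c' : Co, Inv Γ ((incC c').comp (prC c))) (hP : Inv Γ (incP.comp prP))
    (hQ : Inv Γ (incQ.comp prQ)) (f : FE V P Q →ₗ[ℚ] FE V P Q) (hf : Good f) : Inv Γ f := by
  have hI : ∀ a, Inv Γ ((e0 : Option (Option Co) → (FE V P Q →ₗ[ℚ] FE V P Q)) a) := by
    intro a
    rcases a with _ | _ | c
    · exact hP
    · exact hQ
    · exact hC c c
  intro v hv
  rw [Submodule.mem_comap]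
  rw [((blk_SYS J (FE V P Q) (Option (Option Co)) e0 sys0 Γ hI).1 (lift f v))]
  intro a
  have hcomp : lift (e0 a) (lift f v) = lift ((e0 a).comp f) v := by
    ext1 j
    rw [lift_apply, lift_apply, lift_apply]
    rfl
  rw [hcomp]
  rcases a with _ | _ | c
  · obtain ⟨a, ha⟩ := hf.2.1
    have h1 : lift ((e0 none).comp f) v = a • lift (incP.comp prP) v := by
      ext1 j
      rw [Finsupp.smul_apply, lift_apply, lift_apply]
      have h2 := LinearMap.congr_fun ha (v j)
      change incP (prP (f (v j))) = a • incP (prP (v j))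
      change prP (f (v j)) = a • prP (v j) at h2
      rw [h2, map_smul]
    rw [h1]
    exact Γ.smul_mem _ (hP hv)
  · obtain ⟨a, ha⟩ := hf.2.2
    have h1 : lift ((e0 (some none)).comp f) v = a • lift (incQ.comp prQ) v := by
      ext1 j
      rw [Finsupp.smul_apply, lift_apply, lift_apply]
      have h2 := LinearMap.congr_fun ha (v j)
      change incQ (prQ (f (v j))) = a • incQ (prQ (v j))
      change prQ (f (v j)) = a • prQ (v j) at h2
      rw [h2, map_smul]
    rw [h1]
    exact Γ.smul_mem _ (hQ hv)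
  · have key : ∀ g ∈ (W : Submodule ℚ (FE V P Q →ₗ[ℚ] V)), lift ((incC c : V →ₗ[ℚ] FE V P Q).comp g) v ∈ Γ := by
      intro g hg
      refine Submodule.span_induction (p := fun g _ => lift ((incC c : V →ₗ[ℚ] FE V P Q).comp g) v ∈ Γ)
        ?_ ?_ ?_ ?_ hg
      · rintro _ ⟨c', rfl⟩
        exact hC c' c hv
      · have h0 : lift ((incC c : V →ₗ[ℚ] FE V P Q).comp (0 : FE V P Q →ₗ[ℚ] V)) v = 0 := by
          ext1 j
          rw [lift_apply]
          simp
        rw [h0]
        exact Γ.zero_mem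
      · intro g g' _ _ h1 h2
        have h3 : lift ((incC c : V →ₗ[ℚ] FE V P Q).comp (g + g')) v =
            lift ((incC c : V →ₗ[ℚ] FE V P Q).comp g) v + lift ((incC c : V →ₗ[ℚ] FE V P Q).comp g') v := by
          ext1 j
          rw [Finsupp.add_apply, lift_apply, lift_apply, lift_apply]
          simp
        rw [h3]
        exact Γ.add_mem h1 h2
      · intro a g _ h1
        have h3 : lift ((incC c : V →ₗ[ℚ] FE V P Q).comp (a • g)) v = a • lift ((incC c : V →ₗ[ℚ] FE V P Q).comp g) v := by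
          ext1 j
          rw [Finsupp.smul_apply, lift_apply, lift_apply]
          simp
        rw [h3]
        exact Γ.smul_mem _ h1
    exact key _ (hf.1 c)

theorem inv_compl {J : Type} (Γ : Submodule ℚ (J →₀ FE V P Q))
    (f g : FE V P Q →ₗ[ℚ] FE V P Q) (h : ∀ v, f v + g v = v) (hf : Inv Γ f) : Inv Γ g := by
  intro v hv
  rw [Submodule.mem_comap]
  have h1 : lift g v = v - lift f v := by
    ext1 j
    rw [Finsupp.sub_apply, lift_apply, lift_apply]
    exact eq_sub_of_add_eq' (h (v j))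
  rw [h1]
  exact Γ.sub_mem hv (hf hv)

theorem good_X : Good (incX.comp prX : FE V P Q →ₗ[ℚ] FE V P Q) := by
  refine ⟨fun c => ?_, ⟨1, ?_⟩, ⟨0, ?_⟩⟩
  · cases c with
    | T n => exact memW (.T n)
    | R n => exact memW (.R n)
    | Z => exact W.zero_mem
    | Y n => exact W.zero_mem
  · rw [one_smul]
    rfl
  · rw [zero_smul]
    rfl

theorem good_V : Good (incV.comp prV : FE V P Q →ₗ[ℚ] FE V P Q) := by
  refine ⟨fun c => ?_, ⟨0, ?_⟩, ⟨0, ?_⟩⟩
  · cases c with
    | T n => exact W.zero_mem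
    | R n => exact W.zero_mem
    | Z => exact memW .Z
    | Y n => exact W.zero_mem
  · rw [zero_smul]
    rfl
  · rw [zero_smul]
    rfl

theorem good_Y : Good (incY.comp prY : FE V P Q →ₗ[ℚ] FE V P Q) := by
  refine ⟨fun c => ?_, ⟨0, ?_⟩, ⟨1, ?_⟩⟩
  · cases c with
    | T n => exact W.zero_mem
    | R n => exact W.zero_mem
    | Z => exact W.zero_mem
    | Y n => exact memW (.Y n)
  · rw [zero_smul]
    rfl
  · rw [one_smul]
    rfl

theorem eta_succ (x : FX V P) (n : ℕ) :
    (mEta x : FY V Q).1 (n + 1) = x.2.1 n - x.2.1 (n + 1) := by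
  change sh (x.2.1 - sb x.2.1) (n + 1) = _
  rw [sh_succ]
  rfl

theorem eta_zero (x : FX V P) : (mEta x : FY V Q).1 0 = 0 := by
  change sh (x.2.1 - sb x.2.1) 0 = _
  rw [sh_zero]

theorem kap_succ (x : FX V P) (n : ℕ) :
    (mKap x : FY V Q).1 (n + 1) = x.1 (n + 1) - x.1 n := by
  change sh (sb x.1 - x.1) (n + 1) + (Finsupp.single 0 ((sb x.1 - x.1) 0) : ℕ →₀ V) (n + 1) = _
  rw [sh_succ, Finsupp.single_eq_of_ne (Nat.succ_ne_zero n), add_zero]
  rfl

theorem kap_zero (x : FX V P) : (mKap x : FY V Q).1 0 = x.1 1 - x.1 0 := by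
  change sh (sb x.1 - x.1) 0 + (Finsupp.single 0 ((sb x.1 - x.1) 0) : ℕ →₀ V) 0 = _
  rw [sh_zero, Finsupp.single_eq_same, zero_add]
  rfl

theorem eta_snd (x : FX V P) : (mEta x : FY V Q).2 = 0 := rfl
theorem kap_snd (x : FX V P) : (mKap x : FY V Q).2 = 0 := rfl

theorem prI_T_zero (v : FE V P Q) :
    (prI v).1 0 = prC (.T 0) v - prC .Z v - prC (.Y 0) v := by
  rw [prI_apply]
  change v.1.1 0 - (Finsupp.single 0 v.2.1 : ℕ →₀ V) 0 - v.2.2.1 0 +
    (mEta v.1 : FY V Q).1 0 = _
  rw [eta_zero, Finsupp.single_eq_same, add_zero]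
  rfl

theorem prI_T_succ (v : FE V P Q) (n : ℕ) :
    (prI v).1 (n + 1) = prC (.T (n + 1)) v - prC (.Y (n + 1)) v +
      (prC (.R n) v - prC (.R (n + 1)) v) := by
  rw [prI_apply]
  change v.1.1 (n + 1) - (Finsupp.single 0 v.2.1 : ℕ →₀ V) (n + 1) - v.2.2.1 (n + 1) +
    (mEta v.1 : FY V Q).1 (n + 1) = _
  rw [eta_succ, Finsupp.single_eq_of_ne (Nat.succ_ne_zero n), sub_zero]
  rfl

theorem prI_R (v : FE V P Q) (n : ℕ) : (prI v).2.1 n = prC (.R n) v := by
  rw [prI_apply]
  change v.1.2.1 n - 0 - 0 + 0 = _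
  rw [sub_zero, sub_zero, add_zero]
  rfl

theorem good_I : Good (incI.comp prI : FE V P Q →ₗ[ℚ] FE V P Q) := by
  refine ⟨fun c => ?_, ⟨1, ?_⟩, ⟨0, ?_⟩⟩
  · cases c with
    | T n =>
      cases n with
      | zero =>
        have h : (prC (.T 0)).comp (incI.comp prI : FE V P Q →ₗ[ℚ] FE V P Q) =
            prC (.T 0) - prC .Z - prC (.Y 0) := by
          refine LinearMap.ext fun v => ?_
          change (incI (prI v) : FE V P Q).1.1 0 = _
          rw [incI_apply]
          exact prI_T_zero v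
        rw [h]
        exact W.sub_mem (W.sub_mem (memW _) (memW _)) (memW _)
      | succ n =>
        have h : (prC (.T (n + 1))).comp (incI.comp prI : FE V P Q →ₗ[ℚ] FE V P Q) =
            prC (.T (n + 1)) - prC (.Y (n + 1)) + (prC (.R n) - prC (.R (n + 1))) := by
          refine LinearMap.ext fun v => ?_
          change (incI (prI v) : FE V P Q).1.1 (n + 1) = _
          rw [incI_apply]
          exact prI_T_succ v n
        rw [h]
        exact W.add_mem (W.sub_mem (memW _) (memW _)) (W.sub_mem (memW _) (memW _))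
    | R n =>
      have h : (prC (.R n)).comp (incI.comp prI : FE V P Q →ₗ[ℚ] FE V P Q) = prC (.R n) := by
        refine LinearMap.ext fun v => ?_
        change (incI (prI v) : FE V P Q).1.2.1 n = _
        rw [incI_apply]
        exact prI_R v n
      rw [h]
      exact memW _
    | Z =>
      have h : (prC .Z).comp (incI.comp prI : FE V P Q →ₗ[ℚ] FE V P Q) = 0 := by
        refine LinearMap.ext fun v => ?_
        change (incI (prI v) : FE V P Q).2.1 = _
        rw [incI_apply]
        rfl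
      rw [h]
      exact W.zero_mem
    | Y n =>
      cases n with
      | zero =>
        have h : (prC (.Y 0)).comp (incI.comp prI : FE V P Q →ₗ[ℚ] FE V P Q) = 0 := by
          refine LinearMap.ext fun v => ?_
          change (incI (prI v) : FE V P Q).2.2.1 0 = _
          rw [incI_apply]
          exact eta_zero _
        rw [h]
        exact W.zero_mem
      | succ n =>
        have h : (prC (.Y (n + 1))).comp (incI.comp prI : FE V P Q →ₗ[ℚ] FE V P Q) =
            prC (.R n) - prC (.R (n + 1)) := by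
          refine LinearMap.ext fun v => ?_
          change (incI (prI v) : FE V P Q).2.2.1 (n + 1) = _
          rw [incI_apply]
          change (mEta (prI v) : FY V Q).1 (n + 1) = _
          rw [eta_succ, prI_R, prI_R]
          rfl
        rw [h]
        exact W.sub_mem (memW _) (memW _)
  · rw [one_smul]
    refine LinearMap.ext fun v => ?_
    change (incI (prI v) : FE V P Q).1.2.2 = _
    rw [incI_apply, prI_apply]
    change v.1.2.2 - 0 - 0 + 0 = _
    rw [sub_zero, sub_zero, add_zero]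
    rfl
  · rw [zero_smul]
    refine LinearMap.ext fun v => ?_
    change (incI (prI v) : FE V P Q).2.2.2 = _
    rw [incI_apply]
    rfl

theorem prK'_zero (v : FE V P Q) :
    (prK' v).1 0 = prC (.Y 0) v - (prC (.T 1) v - prC (.T 0) v) := by
  rw [prK'_apply]
  change v.2.2.1 0 - (mKap v.1 : FY V Q).1 0 = _
  rw [kap_zero]
  rfl

theorem prK'_succ (v : FE V P Q) (n : ℕ) :
    (prK' v).1 (n + 1) = prC (.Y (n + 1)) v - (prC (.T (n + 1)) v - prC (.T n) v) := by
  rw [prK'_apply]
  change v.2.2.1 (n + 1) - (mKap v.1 : FY V Q).1 (n + 1) = _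
  rw [kap_succ]
  rfl

theorem good_K' : Good (incK'.comp prK' : FE V P Q →ₗ[ℚ] FE V P Q) := by
  refine ⟨fun c => ?_, ⟨0, ?_⟩, ⟨1, ?_⟩⟩
  · cases c with
    | T n =>
      have h : (prC (.T n)).comp (incK'.comp prK' : FE V P Q →ₗ[ℚ] FE V P Q) = 0 := by
        refine LinearMap.ext fun v => ?_
        change (incK' (prK' v) : FE V P Q).1.1 n = _
        rw [incK'_apply]
        rfl
      rw [h]
      exact W.zero_mem
    | R n =>
      have h : (prC (.R n)).comp (incK'.comp prK' : FE V P Q →ₗ[ℚ] FE V P Q) =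
          prC (.Y (n + 1)) - (prC (.T (n + 1)) - prC (.T n)) := by
        refine LinearMap.ext fun v => ?_
        change (incK' (prK' v) : FE V P Q).1.2.1 n = _
        rw [incK'_apply]
        exact prK'_succ v n
      rw [h]
      exact W.sub_mem (memW _) (W.sub_mem (memW _) (memW _))
    | Z =>
      have h : (prC .Z).comp (incK'.comp prK' : FE V P Q →ₗ[ℚ] FE V P Q) =
          prC (.Y 1) - (prC (.T 1) - prC (.T 0)) - (prC (.Y 0) - (prC (.T 1) - prC (.T 0))) := by
        refine LinearMap.ext fun v => ?_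
        change (incK' (prK' v) : FE V P Q).2.1 = _
        rw [incK'_apply]
        change (prK' v).1 (0 + 1) - (prK' v).1 0 = _
        rw [prK'_succ, prK'_zero]
        rfl
      rw [h]
      exact W.sub_mem (W.sub_mem (memW _) (W.sub_mem (memW _) (memW _)))
        (W.sub_mem (memW _) (W.sub_mem (memW _) (memW _)))
    | Y n =>
      cases n with
      | zero =>
        have h : (prC (.Y 0)).comp (incK'.comp prK' : FE V P Q →ₗ[ℚ] FE V P Q) =
            prC (.Y 0) - (prC (.T 1) - prC (.T 0)) := by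
          refine LinearMap.ext fun v => ?_
          change (incK' (prK' v) : FE V P Q).2.2.1 0 = _
          rw [incK'_apply]
          exact prK'_zero v
        rw [h]
        exact W.sub_mem (memW _) (W.sub_mem (memW _) (memW _))
      | succ n =>
        have h : (prC (.Y (n + 1))).comp (incK'.comp prK' : FE V P Q →ₗ[ℚ] FE V P Q) =
            prC (.Y (n + 1)) - (prC (.T (n + 1)) - prC (.T n)) := by
          refine LinearMap.ext fun v => ?_
          change (incK' (prK' v) : FE V P Q).2.2.1 (n + 1) = _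
          rw [incK'_apply]
          exact prK'_succ v n
        rw [h]
        exact W.sub_mem (memW _) (W.sub_mem (memW _) (memW _))
  · rw [zero_smul]
    refine LinearMap.ext fun v => ?_
    change (incK' (prK' v) : FE V P Q).1.2.2 = _
    rw [incK'_apply]
    rfl
  · rw [one_smul]
    refine LinearMap.ext fun v => ?_
    change (incK' (prK' v) : FE V P Q).2.2.2 = _
    rw [incK'_apply, prK'_apply]
    change v.2.2.2 - 0 = _
    rw [sub_zero]
    rfl

end

end SCAaux

open SCAaux in
theorem blk_SCA : Stmt_SCA := by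
  intro J V P Q _ _ _ _ _ _ Γ hC hP hQ
  have hI : Inv Γ (incI.comp prI) := good_inv Γ hC hP hQ _ good_I
  have hK' : Inv Γ (incK'.comp prK') := good_inv Γ hC hP hQ _ good_K'
  have hid := (p_FID V P Q).2.2.2.2.1
  refine ⟨good_inv Γ hC hP hQ _ good_X, good_inv Γ hC hP hQ _ good_V,
    good_inv Γ hC hP hQ _ good_Y, hI, ?_, ?_, hK'⟩
  · exact inv_compl Γ _ _ (fun v => hid.2.1 v) hI
  · exact inv_compl Γ _ _ (fun v => by rw [add_comm]; exact hid.2.2 v) hK'

end Pool.NF
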