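import Pool.Agent.Work.MP_b103ef_pos.Interface2

set_option autoImplicit false

open Classical

namespace Pool.NF

theorem SEQ_lift {J E F G : Type} [AddCommGroup E] [Module ℚ E] [AddCommGroup F] [Module ℚ F]
    [AddCommGroup G] [Module ℚ G] (f : E →ₗ[ℚ] F) (g : F →ₗ[ℚ] G) (v : J →₀ E) :
    lift g (lift f v) = lift (g.comp f) v := by
  ext j; simp [lift]

theorem SEQ_comap {J E F G : Type} [AddCommGroup E] [Module ℚ E] [AddCommGroup F] [Module ℚ F]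
    [AddCommGroup G] [Module ℚ G] (f : E →ₗ[ℚ] F) (g : F →ₗ[ℚ] G)
    (Γ : Submodule ℚ (J →₀ G)) :
    (Γ.comap (lift g)).comap (lift f) = Γ.comap (lift (g.comp f)) := by
  ext v; simp only [Submodule.mem_comap, SEQ_lift]

theorem SEQ_pull {L E F G : Type} [AddCommGroup E] [Module ℚ E] [AddCommGroup F] [Module ℚ F]
    [AddCommGroup G] [Module ℚ G] (M : Str L G) (f : E →ₗ[ℚ] F) (g : F →ₗ[ℚ] G) :
    (M.pull g).pull f = M.pull (g.comp f) := by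
  simp only [Str.pull, Str.mk.injEq]
  refine ⟨rfl, rfl, ?_⟩
  funext σ
  exact SEQ_comap f g (M.g σ)

theorem SEQ_iInf {L E : Type} [AddCommGroup E] [Module ℚ E] (N : Str L E) :
    Str.iInf (fun _ : Unit => N) = N := by
  cases N
  simp [Str.iInf]

/-- an isomorphism as a decomposition with one summand -/
noncomputable def SEQ_dec {V V' : Type} [AddCommGroup V] [Module ℚ V] [AddCommGroup V']
    [Module ℚ V'] (f : V' ≃ₗ[ℚ] V) : Dec V' Unit (fun _ => V) where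
  inc := fun _ => f.symm.toLinearMap
  pr := fun _ => f.toLinearMap
  pr_inc := fun _ v => f.apply_symm_apply v
  pr_inc_ne := fun a b _ hab => absurd (Subsingleton.elim a b) hab
  fin := fun _ => Set.toFinite _
  ext := fun v hv => by
    have h := hv ()
    exact f.map_eq_zero_iff.1 h

theorem SEQ_vax (hV : Stmt_VDC) {L : Type} (n : ℕ) {E F : Type} [AddCommGroup E] [Module ℚ E]
    [AddCommGroup F] [Module ℚ F] (D : Dec E Unit (fun _ => F)) (τ : E →ₗ[ℚ] F)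
    (hτ : D.pr () = τ) (M : Str L F) (σ : Tm L) (Γ : Submodule ℚ (Lab L →₀ F))
    (hσ : σ.Over Set.univ) (h : VAx (VG n) M σ Γ) :
    VAx (VG n) (M.pull τ) σ (Γ.comap (lift τ)) := by
  subst hτ
  have key := (hV L Set.univ (fun _ => V5.o) n E Unit (fun _ => F) D (fun _ => M)).2 σ
    (fun _ => Γ) hσ (fun _ => h)
  have e : D.sum (fun _ => M) = M.pull (D.pr ()) := SEQ_iInf (M.pull (D.pr ()))
  have e2 : (⨅ a : Unit, Γ.comap (lift (D.pr a))) = Γ.comap (lift (D.pr ())) :=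
    iInf_unique _
  rw [e, e2] at key
  exact key

theorem SEQ_hax (hH : Stmt_HXD) {L : Type} (φ : L → V5) (n : ℕ) {E F : Type} [AddCommGroup E]
    [Module ℚ E] [AddCommGroup F] [Module ℚ F] (D : Dec E Unit (fun _ => F)) (τ : E →ₗ[ℚ] F)
    (hτ : D.pr () = τ) (M : Str L F) (σ : Tm L) (Γ : Submodule ℚ (Lab L →₀ F))
    (hσ : σ.Over Set.univ) (h : HAx (VG n) (EG n) φ M σ Γ) :
    HAx (VG n) (EG n) φ (M.pull τ) σ (Γ.comap (lift τ)) := by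
  subst hτ
  have key := hH L φ n E Unit (fun _ => F) D (fun _ => M) σ (fun _ => Γ) hσ (fun _ => h)
  have e : D.sum (fun _ => M) = M.pull (D.pr ()) := SEQ_iInf (M.pull (D.pr ()))
  have e2 : (⨅ a : Unit, Γ.comap (lift (D.pr a))) = Γ.comap (lift (D.pr ())) :=
    iInf_unique _
  rw [e, e2] at key
  exact key

/-- invariance -/
theorem SEQ_inv {J E F : Type} [AddCommGroup E] [Module ℚ E] [AddCommGroup F] [Module ℚ F]
    (T : E →ₗ[ℚ] F) (e' : E →ₗ[ℚ] E) (e : F →ₗ[ℚ] F) (h : T.comp e' = e.comp T)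
    (Γ : Submodule ℚ (J →₀ F)) (hi : Inv Γ e) : Inv (Γ.comap (lift T)) e' := by
  intro v hv
  have h1 : lift T (lift e' v) = lift e (lift T v) := by rw [SEQ_lift, SEQ_lift, h]
  show lift T (lift e' v) ∈ Γ
  rw [h1]
  exact hi hv

/-- one part -/
theorem SEQ_part (hV : Stmt_VDC) {L : Type} (n : ℕ) {E F E' F' : Type} [AddCommGroup E]
    [Module ℚ E] [AddCommGroup F] [Module ℚ F] [AddCommGroup E'] [Module ℚ E']
    [AddCommGroup F'] [Module ℚ F'] (T : E' →ₗ[ℚ] E) (inc : F →ₗ[ℚ] E) (inc' : F' →ₗ[ℚ] E')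
    (τ : F' →ₗ[ℚ] F) (D : Dec F' Unit (fun _ => F)) (hD : D.pr () = τ)
    (h : T.comp inc' = inc.comp τ) (M : Str L E) (σ : Tm L) (Γ : Submodule ℚ (Lab L →₀ E))
    (hσ : σ.Over Set.univ) (ha : VAx (VG n) (M.pull inc) σ (Γ.comap (lift inc))) :
    VAx (VG n) ((M.pull T).pull inc') σ ((Γ.comap (lift T)).comap (lift inc')) := by
  rw [SEQ_pull, SEQ_comap, h, ← SEQ_pull, ← SEQ_comap]
  exact SEQ_vax hV n D τ hD (M.pull inc) σ (Γ.comap (lift inc)) hσ ha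

theorem SEQ_ip {E F E' F' : Type} [AddCommGroup E] [Module ℚ E] [AddCommGroup F] [Module ℚ F]
    [AddCommGroup E'] [Module ℚ E'] [AddCommGroup F'] [Module ℚ F'] (T : E' →ₗ[ℚ] E)
    (inc : F →ₗ[ℚ] E) (inc' : F' →ₗ[ℚ] E') (pr : E →ₗ[ℚ] F) (pr' : E' →ₗ[ℚ] F')
    (τ : F' →ₗ[ℚ] F) (h : T.comp inc' = inc.comp τ) (h' : pr.comp T = τ.comp pr') :
    T.comp (inc'.comp pr') = (inc.comp pr).comp T := by
  rw [← LinearMap.comp_assoc, h, LinearMap.comp_assoc, ← h', LinearMap.comp_assoc]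

theorem blk_SEQ (hN : Stmt_NAT) (hV : Stmt_VDC) (hH : Stmt_HXD) (hD : Stmt_DFE)
    (hO : Stmt_OVR) : Stmt_SEQ := by
  intro L S φ n V P Q V' P' Q' _ _ _ _ _ _ _ _ _ _ _ _ f g h M σ ΓV Γ hσ hS
  have hσu : σ.Over Set.univ := (hO L σ).2.1 S Set.univ (Set.subset_univ _) hσ
  obtain ⟨⟨DE, hDE, -⟩, ⟨DX, hDX, -⟩, ⟨DY, hDY, -⟩, ⟨DK, hDK, -⟩, ⟨DI, hDI, -⟩⟩ :=
    hD V' P' Q' Unit (fun _ => V) (fun _ => P) (fun _ => Q) (SEQ_dec f) (SEQ_dec g) (SEQ_dec h)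
  have DE1 := hDE ()
  have DX1 := hDX ()
  have DY1 := hDY ()
  have DK1 := hDK ()
  have DI1 := hDI ()
  have DV1 : (SEQ_dec f).pr () = f.toLinearMap := rfl
  obtain ⟨⟨nX, nX'⟩, ⟨nV, nV'⟩, ⟨nY, nY'⟩, ⟨nI, nI'⟩, ⟨nK, nK'⟩, ⟨nJ, nJ'⟩, ⟨nL, nL'⟩,
    ⟨nP, nP'⟩, ⟨nQ, nQ'⟩, nC⟩ :=
    hN V' P' Q' V P Q f.toLinearMap g.toLinearMap h.toLinearMap
  obtain ⟨h1, h2, h3, h4, h5⟩ := hS
  refine ⟨fun ho => ?_, fun ho => ?_, fun ho => ?_, fun ho => ?_, ?_⟩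
  · obtain ⟨⟨i1, i2, i3⟩, hg, a1, a2, a3⟩ := h1 ho
    refine ⟨⟨SEQ_inv _ _ _ (SEQ_ip _ _ _ _ _ _ nX nX') Γ i1,
      SEQ_inv _ _ _ (SEQ_ip _ _ _ _ _ _ nV nV') Γ i2,
      SEQ_inv _ _ _ (SEQ_ip _ _ _ _ _ _ nY nY') Γ i3⟩, ?_,
      SEQ_part hV n _ _ _ _ DX DX1 nX M σ Γ hσu a1,
      SEQ_part hV n _ _ _ _ (SEQ_dec f) DV1 nV M σ Γ hσu a2,
      SEQ_part hV n _ _ _ _ DY DY1 nY M σ Γ hσu a3⟩
    rw [SEQ_comap, nV, ← SEQ_comap, hg]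
  · obtain ⟨⟨i1, i2⟩, a1, a2⟩ := h2 ho
    exact ⟨⟨SEQ_inv _ _ _ (SEQ_ip _ _ _ _ _ _ nI nI') Γ i1,
      SEQ_inv _ _ _ (SEQ_ip _ _ _ _ _ _ nK nK') Γ i2⟩,
      SEQ_part hV n _ _ _ _ DX DX1 nI M σ Γ hσu a1,
      SEQ_part hV n _ _ _ _ DK DK1 nK M σ Γ hσu a2⟩
  · obtain ⟨⟨i1, i2⟩, a1, a2⟩ := h3 ho
    exact ⟨⟨SEQ_inv _ _ _ (SEQ_ip _ _ _ _ _ _ nJ nJ') Γ i1,
      SEQ_inv _ _ _ (SEQ_ip _ _ _ _ _ _ nL nL') Γ i2⟩,
      SEQ_part hV n _ _ _ _ DI DI1 nJ M σ Γ hσu a1,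
      SEQ_part hV n _ _ _ _ DY DY1 nL M σ Γ hσu a2⟩
  · obtain ⟨i1, i2, i3⟩ := h4 ho
    refine ⟨fun c c' => ?_, SEQ_inv _ _ _ (SEQ_ip _ _ _ _ _ _ nP nP') Γ i2,
      SEQ_inv _ _ _ (SEQ_ip _ _ _ _ _ _ nQ nQ') Γ i3⟩
    exact SEQ_inv _ _ _ (SEQ_ip _ _ _ _ _ _ (nC c').1 (nC c).2) Γ (i1 c c')
  · exact SEQ_hax hH φ n DE _ DE1 M σ Γ hσu h5

end Pool.NF
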