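import Pool.Agent.Work.MP_b103ef_pos.Interface2

/-!
# MP_b103ef_al, block SMF: sums of `κ` copies of test structures (helper68)
-/

set_option autoImplicit false

open Classical

namespace Pool.NF

theorem SMF_pull_pull {L E F W : Type} [AddCommGroup E] [Module ℚ E] [AddCommGroup F]
    [Module ℚ F] [AddCommGroup W] [Module ℚ W] (M : Str L E) (f : F →ₗ[ℚ] E) (g : W →ₗ[ℚ] F) :
    (M.pull f).pull g = M.pull (f.comp g) := by
  simp only [Str.pull]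
  congr 1
  funext σ
  rw [← Submodule.comap_comp]
  congr 1
  exact (Finsupp.mapRange.linearMap_comp f g).symm

theorem SMF_iInf_pull {L E F ι : Type} [AddCommGroup E] [Module ℚ E] [AddCommGroup F]
    [Module ℚ F] (Ms : ι → Str L E) (f : F →ₗ[ℚ] E) :
    (Str.iInf Ms).pull f = Str.iInf fun a => (Ms a).pull f := by
  simp only [Str.pull, Str.iInf, Submodule.comap_iInf]

theorem SMF_sum {L V P Q ι W : Type} [AddCommGroup V] [Module ℚ V] [AddCommGroup P]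
    [Module ℚ P] [AddCommGroup Q] [Module ℚ Q] [AddCommGroup W] [Module ℚ W]
    {Vf Pf Qf Wf : ι → Type}
    [∀ a, AddCommGroup (Vf a)] [∀ a, Module ℚ (Vf a)] [∀ a, AddCommGroup (Pf a)]
    [∀ a, Module ℚ (Pf a)] [∀ a, AddCommGroup (Qf a)] [∀ a, Module ℚ (Qf a)]
    [∀ a, AddCommGroup (Wf a)] [∀ a, Module ℚ (Wf a)]
    (DV : Dec V ι Vf) (DP : Dec P ι Pf) (DQ : Dec Q ι Qf)
    (Ms : ∀ a, Str L (FE (Vf a) (Pf a) (Qf a))) (D : Dec W ι Wf)
    (inc : W →ₗ[ℚ] FE V P Q) (incf : ∀ a, Wf a →ₗ[ℚ] FE (Vf a) (Pf a) (Qf a))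
    (h : ∀ a, (mapE (DV.pr a) (DP.pr a) (DQ.pr a)).comp inc = (incf a).comp (D.pr a)) :
    (Dec.fsum DV DP DQ Ms).pull inc = D.sum fun a => (Ms a).pull (incf a) := by
  simp only [Dec.fsum, Dec.sum]
  rw [SMF_iInf_pull]
  congr 1
  funext a
  rw [SMF_pull_pull, h a, ← SMF_pull_pull]

theorem SMF_rank (hEDEC : Stmt_EDEC) {L W ι : Type} [AddCommGroup W] [Module ℚ W]
    (κ : Cardinal.{0}) {Wf : κ.out × ι → Type} [∀ a, AddCommGroup (Wf a)]
    [∀ a, Module ℚ (Wf a)] (D : Dec W (κ.out × ι) Wf) (Ns : ∀ x, Str L (Wf x)) (α β : Tm L)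
    (hα : α.Over Set.univ) (hβ : β.Over Set.univ) (a₀ : ι)
    (h : ∀ c : κ.out, ¬ (Ns (c, a₀)).Le α β) :
    κ ≤ (D.sum Ns).rk (α.vars ∪ β.vars) α β := by
  have h1 := ((hEDEC L W (κ.out × ι) Wf D Ns (α.vars ∪ β.vars)).2.2 α β hα hβ).2
  refine le_trans ?_ h1
  conv_lhs => rw [← Cardinal.mk_out κ]
  refine Cardinal.mk_le_of_injective (f := fun c : κ.out => ⟨(c, a₀), h c⟩) ?_
  intro c c' hcc
  have := congrArg (fun x => x.1.1) hcc
  exact this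

theorem blk_SMF (hEDC : Stmt_EDC) (hDFE : Stmt_DFE) (hNAT : Stmt_NAT) (hEDEC : Stmt_EDEC)
    (hDPI : Stmt_DPI) (hCRD : Stmt_CRD) : Stmt_SMF := by
  intro L S φ n ι Vt Pt Qt _ _ _ _ _ _ Ms hMs
  refine ⟨Cardinal.aleph0 + Cardinal.mk (Lab L) + Cardinal.mk ι +
    Cardinal.sum (fun a : ι => Cardinal.mk (Vt a) + Cardinal.mk (Pt a) + Cardinal.mk (Qt a)),
    fun κ hκ => ?_⟩
  have h0 : Cardinal.aleph0 ≤ κ := le_trans (le_trans (le_trans (self_le_add_right _ _)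
    (self_le_add_right _ _)) (self_le_add_right _ _)) hκ
  have hL : Cardinal.mk (Lab L) ≤ κ := le_trans (le_trans (le_trans (self_le_add_left _ _)
    (self_le_add_right _ _)) (self_le_add_right _ _)) hκ
  have hι : Cardinal.mk ι ≤ κ := le_trans (le_trans (self_le_add_left _ _)
    (self_le_add_right _ _)) hκ
  have hsum : ∀ a : ι, Cardinal.mk (Vt a) + Cardinal.mk (Pt a) + Cardinal.mk (Qt a) ≤ κ :=
    fun a => le_trans (Cardinal.le_sum
      (fun a : ι => Cardinal.mk (Vt a) + Cardinal.mk (Pt a) + Cardinal.mk (Qt a)) a)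
      (le_trans (self_le_add_left _ _) hκ)
  have hVt : ∀ a, Cardinal.mk (Vt a) ≤ κ := fun a =>
    le_trans (le_trans (self_le_add_right _ _) (self_le_add_right _ _)) (hsum a)
  have hPt : ∀ a, Cardinal.mk (Pt a) ≤ κ := fun a =>
    le_trans (le_trans (self_le_add_left _ _) (self_le_add_right _ _)) (hsum a)
  have hQt : ∀ a, Cardinal.mk (Qt a) ≤ κ := fun a =>
    le_trans (self_le_add_left _ _) (hsum a)
  have hJ : Cardinal.mk (κ.out × ι) ≤ κ := by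
    rw [Cardinal.mk_prod, Cardinal.lift_id, Cardinal.lift_id, Cardinal.mk_out]
    exact Cardinal.mul_le_of_le h0 le_rfl hι
  obtain ⟨DV, -, -⟩ := hDPI (κ.out × ι) (fun x => Vt x.2)
  obtain ⟨DP, -, -⟩ := hDPI (κ.out × ι) (fun x => Pt x.2)
  obtain ⟨DQ, -, -⟩ := hDPI (κ.out × ι) (fun x => Qt x.2)
  have hcV : Cardinal.mk (Π₀ x : κ.out × ι, Vt x.2) ≤ κ :=
    (hCRD.2.2.2.1 (Lab L) (κ.out × ι) (fun x => Vt x.2) κ h0 hL hJ (fun x => hVt x.2)).2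
  have hcP : Cardinal.mk (Π₀ x : κ.out × ι, Pt x.2) ≤ κ :=
    (hCRD.2.2.2.1 (Lab L) (κ.out × ι) (fun x => Pt x.2) κ h0 hL hJ (fun x => hPt x.2)).2
  have hcQ : Cardinal.mk (Π₀ x : κ.out × ι, Qt x.2) ≤ κ :=
    (hCRD.2.2.2.1 (Lab L) (κ.out × ι) (fun x => Qt x.2) κ h0 hL hJ (fun x => hQt x.2)).2
  obtain ⟨⟨DE, hE1, -⟩, ⟨DX, hX1, -⟩, ⟨DY, hY1, -⟩, ⟨DK, hK1, -⟩, ⟨DI, hI1, -⟩⟩ :=
    hDFE (Π₀ x : κ.out × ι, Vt x.2) (Π₀ x : κ.out × ι, Pt x.2) (Π₀ x : κ.out × ι, Qt x.2)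
      (κ.out × ι) (fun x => Vt x.2) (fun x => Pt x.2) (fun x => Qt x.2) DV DP DQ
  have hnat := fun x : κ.out × ι => hNAT _ _ _ _ _ _ (DV.pr x) (DP.pr x) (DQ.pr x)
  refine ⟨Π₀ x : κ.out × ι, Vt x.2, Π₀ x : κ.out × ι, Pt x.2, Π₀ x : κ.out × ι, Qt x.2,
    inferInstance, inferInstance, inferInstance, inferInstance, inferInstance, inferInstance,
    Dec.fsum DV DP DQ (fun x => Ms x.2), ?_, ?_, ?_⟩
  · exact hEDC L S φ n _ _ _ (κ.out × ι) _ _ _ DV DP DQ _ (fun x => hMs x.2)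
  · exact hCRD.2.2.2.2 (Lab L) _ _ _ κ h0 hL hcV hcP hcQ
  · intro α β hα hβ _ _
    refine ⟨?_, ?_, ?_, ?_, ?_, ?_, ?_, ?_, ?_, ?_⟩
    · rintro ⟨a, ha⟩
      have h1 : Dec.fsum DV DP DQ (fun x => Ms x.2) = DE.sum (fun x => Ms x.2) := by
        simp only [Dec.fsum, Dec.sum]
        congr 1
        funext x
        rw [hE1 x]
      rw [h1]
      exact SMF_rank hEDEC κ DE _ α β hα hβ a (fun _ => ha)
    · rintro ⟨a, ha⟩
      rw [SMF_sum DV DP DQ (fun x => Ms x.2) DX incX (fun _ => incX)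
        (fun x => by rw [hX1 x]; exact (hnat x).1.1)]
      exact SMF_rank hEDEC κ DX _ α β hα hβ a (fun _ => ha)
    · rintro ⟨a, ha⟩
      rw [SMF_sum DV DP DQ (fun x => Ms x.2) DV incV (fun _ => incV)
        (fun x => (hnat x).2.1.1)]
      exact SMF_rank hEDEC κ DV _ α β hα hβ a (fun _ => ha)
    · rintro ⟨a, ha⟩
      rw [SMF_sum DV DP DQ (fun x => Ms x.2) DY incY (fun _ => incY)
        (fun x => by rw [hY1 x]; exact (hnat x).2.2.1.1)]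
      exact SMF_rank hEDEC κ DY _ α β hα hβ a (fun _ => ha)
    · rintro ⟨a, ha⟩
      rw [SMF_sum DV DP DQ (fun x => Ms x.2) DX incI (fun _ => incI)
        (fun x => by rw [hX1 x]; exact (hnat x).2.2.2.1.1)]
      exact SMF_rank hEDEC κ DX _ α β hα hβ a (fun _ => ha)
    · rintro ⟨a, ha⟩
      rw [SMF_sum DV DP DQ (fun x => Ms x.2) DK incK (fun _ => incK)
        (fun x => by rw [hK1 x]; exact (hnat x).2.2.2.2.1.1)]
      exact SMF_rank hEDEC κ DK _ α β hα hβ a (fun _ => ha)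
    · rintro ⟨a, ha⟩
      rw [SMF_sum DV DP DQ (fun x => Ms x.2) DI incI' (fun _ => incI')
        (fun x => by rw [hI1 x]; exact (hnat x).2.2.2.2.2.1.1)]
      exact SMF_rank hEDEC κ DI _ α β hα hβ a (fun _ => ha)
    · rintro ⟨a, ha⟩
      rw [SMF_sum DV DP DQ (fun x => Ms x.2) DY incK' (fun _ => incK')
        (fun x => by rw [hY1 x]; exact (hnat x).2.2.2.2.2.2.1.1)]
      exact SMF_rank hEDEC κ DY _ α β hα hβ a (fun _ => ha)
    · rintro ⟨a, ha⟩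
      rw [SMF_sum DV DP DQ (fun x => Ms x.2) DP incP (fun _ => incP)
        (fun x => (hnat x).2.2.2.2.2.2.2.1.1)]
      exact SMF_rank hEDEC κ DP _ α β hα hβ a (fun _ => ha)
    · rintro ⟨a, ha⟩
      rw [SMF_sum DV DP DQ (fun x => Ms x.2) DQ incQ (fun _ => incQ)
        (fun x => (hnat x).2.2.2.2.2.2.2.2.1.1)]
      exact SMF_rank hEDEC κ DQ _ α β hα hβ a (fun _ => ha)

end Pool.NF
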