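import Pool.Agent.Work.MP_b103ef_pos.Interface2

/-! # Block SMI: the values of the symbols are admissible (helper94) -/

set_option autoImplicit false

open Classical

namespace Pool.NF

theorem SMI_hom {L E : Type} [AddCommGroup E] [Module ℚ E] {S : Set L} {n : ℕ} {M : Str L E}
    {f : E →ₗ[ℚ] E} (h : Str.Hom S n M M f) {σ : Tm L} (hs : σ.IsSym) (hσ : σ.Over S)
    (hr : σ.rank ≤ n) : Inv (M.g σ) f := h.2.2 σ hs hσ hr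

theorem SMI_vax {L E F : Type} [AddCommGroup E] [Module ℚ E] [AddCommGroup F] [Module ℚ F]
    {S : Set L} {n : ℕ} {ρ : L → V5} {M : Str L E} {i : F →ₗ[ℚ] E}
    (h : VG (n + 1) S ρ F (M.pull i)) {σ : Tm L} (hσ : σ.Over S) (hr : σ.rank = n + 1) :
    VAx (VG n) (M.pull i) σ ((M.g σ).comap (lift i)) := h.2 σ hσ hr

theorem blk_SMI : Stmt_SMI := by
  intro L S φ n V P Q _ _ _ _ _ _ M hM σ hs hσ hr
  obtain ⟨-, ⟨⟨h1, h2, h3, h4, h5, h6⟩, ⟨k1, k2, k3, k4⟩, ⟨l1, l2, l3, l4⟩, ⟨m1, m2, m3⟩⟩, hH⟩ := hM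
  have hr' : σ.rank ≤ n + 1 := hr.le
  refine ⟨fun ho => ⟨⟨SMI_hom h1 hs ho hr', SMI_hom h2 hs ho hr', SMI_hom h3 hs ho hr'⟩, rfl,
      SMI_vax h4 ho hr, SMI_vax h5 ho hr, SMI_vax h6 ho hr⟩,
    fun ho => ⟨⟨SMI_hom k1 hs ho hr', SMI_hom k2 hs ho hr'⟩, SMI_vax k3 ho hr, SMI_vax k4 ho hr⟩,
    fun ho => ⟨⟨SMI_hom l1 hs ho hr', SMI_hom l2 hs ho hr'⟩, SMI_vax l3 ho hr, SMI_vax l4 ho hr⟩,
    fun ho => ⟨fun c c' => SMI_hom (m1 c c') hs ho hr', SMI_hom m2 hs ho hr',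
      SMI_hom m3 hs ho hr'⟩, hH σ hσ hr⟩

end Pool.NF
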