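import Pool.Agent.Work.MP_b103ef_pos.Interface2
import Pool.Agent.Work.MP_b103ef_pos.B_EVH

/-!
# MP_b103ef_al: block SSM (`SymOK` and sums of two structures), helper62
-/

set_option autoImplicit false

open Classical

namespace Pool.NF

section SSMgen

variable {L : Type}

theorem SSM_lift_comp {J E F G : Type} [AddCommGroup E] [Module ℚ E] [AddCommGroup F]
    [Module ℚ F] [AddCommGroup G] [Module ℚ G] (f : E →ₗ[ℚ] F) (g : F →ₗ[ℚ] G) (v : J →₀ E) :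
    lift g (lift f v) = lift (g.comp f) v := by
  ext j; simp

theorem SSM_comap_comap {J E F G : Type} [AddCommGroup E] [Module ℚ E] [AddCommGroup F]
    [Module ℚ F] [AddCommGroup G] [Module ℚ G] (f : E →ₗ[ℚ] F) (g : F →ₗ[ℚ] G)
    (U : Submodule ℚ (J →₀ G)) :
    (U.comap (lift g)).comap (lift f) = U.comap (lift (g.comp f)) := by
  ext v
  simp only [Submodule.mem_comap, SSM_lift_comp]

/-- transport of terms along an isomorphism -/
theorem SSM_ev {E F : Type} [AddCommGroup E] [Module ℚ E] [AddCommGroup F] [Module ℚ F]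
    (M : Str L E) (e : F ≃ₗ[ℚ] E) (G : Finset (Lab L)) (α : Tm L) (hα : α.Over Set.univ) :
    (M.pull e.toLinearMap).ev G α = (M.ev G α).comap (lift e.toLinearMap) := by
  have h1 : Str.Hom Set.univ α.rank (M.pull e.toLinearMap) M e.toLinearMap :=
    ⟨fun _ _ _ => le_refl _, fun _ _ _ => le_refl _, fun _ _ _ _ => le_refl _⟩
  have h2 : Str.Hom Set.univ α.rank M (M.pull e.toLinearMap) e.symm.toLinearMap := by
    refine ⟨fun i _ l v hv => ?_, fun Z _ ψ v hv => ?_, fun σ _ _ _ v hv => ?_⟩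
    · show e (e.symm v) ∈ M.x i l
      rwa [e.apply_symm_apply]
    · show e (e.symm v) ∈ M.u Z ψ
      rwa [e.apply_symm_apply]
    · show lift e.toLinearMap (lift e.symm.toLinearMap v) ∈ M.g σ
      rw [SSM_lift_comp]
      have : e.toLinearMap.comp e.symm.toLinearMap = LinearMap.id := by ext; simp
      rw [this]
      have h3 : lift (LinearMap.id : E →ₗ[ℚ] E) v = v := by ext j; simp
      rwa [h3]
  have hG : ∀ j ∈ G, LOver (Set.univ : Set L) j := fun j _ => ⟨Set.mem_univ _, Set.mem_univ _⟩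
  refine le_antisymm ((((blk_EVH L Set.univ α.rank F E _ M _ h1).2.2 G hG).2.2) α hα le_rfl) ?_
  intro v hv
  have h4 := (((blk_EVH L Set.univ α.rank E F M _ _ h2).2.2 G hG).2.2) α hα le_rfl hv
  rw [Submodule.mem_comap, SSM_lift_comp] at h4
  have : e.symm.toLinearMap.comp e.toLinearMap = LinearMap.id := by ext; simp
  rw [this] at h4
  have h3 : lift (LinearMap.id : F →ₗ[ℚ] F) v = v := by ext j; simp
  rwa [h3] at h4

theorem SSM_comap_sup {J E F : Type} [AddCommGroup E] [Module ℚ E] [AddCommGroup F] [Module ℚ F]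
    (e : F ≃ₗ[ℚ] E) (U U' : Submodule ℚ (J →₀ E)) :
    (U ⊔ U').comap (lift e.toLinearMap) =
      U.comap (lift e.toLinearMap) ⊔ U'.comap (lift e.toLinearMap) := by
  refine le_antisymm ?_ (sup_le (Submodule.comap_mono le_sup_left)
    (Submodule.comap_mono le_sup_right))
  intro v hv
  obtain ⟨a, ha, b, hb, hab⟩ := Submodule.mem_sup.1 (Submodule.mem_comap.1 hv)
  have key : ∀ w : J →₀ E, lift e.toLinearMap (lift e.symm.toLinearMap w) = w := by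
    intro w; ext j; simp
  have key' : ∀ w : J →₀ F, lift e.symm.toLinearMap (lift e.toLinearMap w) = w := by
    intro w; ext j; simp
  refine Submodule.mem_sup.2 ⟨lift e.symm.toLinearMap a, ?_, lift e.symm.toLinearMap b, ?_, ?_⟩
  · rw [Submodule.mem_comap, key]; exact ha
  · rw [Submodule.mem_comap, key]; exact hb
  · rw [← map_add, hab, key']

theorem SSM_comap_bot {J E F : Type} [AddCommGroup E] [Module ℚ E] [AddCommGroup F] [Module ℚ F]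
    (e : F ≃ₗ[ℚ] E) : (⊥ : Submodule ℚ (J →₀ E)).comap (lift e.toLinearMap) = ⊥ := by
  rw [eq_bot_iff]
  intro v hv
  rw [Submodule.mem_comap, Submodule.mem_bot] at hv
  have : lift e.symm.toLinearMap (lift e.toLinearMap v) = v := by ext j; simp
  rw [hv, map_zero] at this
  rw [Submodule.mem_bot]; exact this.symm

theorem SSM_map {J E F : Type} [AddCommGroup E] [Module ℚ E] [AddCommGroup F] [Module ℚ F]
    (e : F ≃ₗ[ℚ] E) (t' t b' al Ga : Submodule ℚ (J →₀ E)) (h : MAP t' t b' al Ga) :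
    MAP (t'.comap (lift e.toLinearMap)) (t.comap (lift e.toLinearMap))
      (b'.comap (lift e.toLinearMap)) (al.comap (lift e.toLinearMap))
      (Ga.comap (lift e.toLinearMap)) := by
  unfold MAP
  rw [← SSM_comap_sup, ← SSM_comap_sup, ← SSM_comap_sup, ← SSM_comap_sup,
    ← Submodule.comap_inf, h.1, h.2]
  exact ⟨rfl, rfl⟩

/-- transport of the axioms of link symbols along an isomorphism -/
theorem SSM_vax {E F : Type} [AddCommGroup E] [Module ℚ E] [AddCommGroup F] [Module ℚ F]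
    (hO : Stmt_OVR) (PV : VCls L) (M : Str L E) (e : F ≃ₗ[ℚ] E) (σ : Tm L)
    (hσ : σ.Over Set.univ) (Γ : Submodule ℚ (Lab L →₀ E)) (h : VAx PV M σ Γ) :
    VAx PV (M.pull e.toLinearMap) σ (Γ.comap (lift e.toLinearMap)) := by
  cases σ with
  | base F g => trivial
  | inf α β => trivial
  | sup α β => trivial
  | lk Z r j α β =>
    obtain ⟨_, hα, hβ, hj⟩ := hσ
    have hα' : α.Over Set.univ := (hO L α).2.1 _ _ (Set.subset_univ _) hα
    have hβ' : β.Over Set.univ := (hO L β).2.1 _ _ (Set.subset_univ _) hβ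
    have hT1 : (Tm.T1 Z r j).Over (Set.univ : Set L) := fun _ _ =>
      ⟨⟨Set.mem_univ _, Set.mem_univ _⟩, Set.subset_univ _⟩
    have hT0 : (Tm.T0 Z r j).Over (Set.univ : Set L) := fun _ _ =>
      ⟨⟨Set.mem_univ _, Set.mem_univ _⟩, Set.subset_univ _⟩
    refine ⟨fun hL => ?_, fun hL => ?_⟩
    · have h1 := h.1 hL
      rw [SSM_ev M e _ _ hα', SSM_ev M e _ _ hβ', SSM_ev M e _ _ hT1, SSM_ev M e _ _ hT0,
        ← Submodule.comap_inf]
      exact ⟨SSM_map e _ _ _ _ _ h1.1, SSM_map e _ _ _ _ _ h1.2⟩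
    · rw [h.2 hL, SSM_comap_bot]
  | ek Z ψ j α β =>
    obtain ⟨_, hα, hβ, hj⟩ := hσ
    have hα' : α.Over Set.univ := (hO L α).2.1 _ _ (Set.subset_univ _) hα
    show _ = _
    rw [SSM_ev M e _ _ hα']
    have h1 : Γ = M.ev (insert j (α.vars ∪ β.vars)) α := h
    rw [h1]

/-- two summands -/
noncomputable def SSM_equiv {A A' T : Type} [AddCommGroup A] [Module ℚ A] [AddCommGroup A']
    [Module ℚ A'] [AddCommGroup T] [Module ℚ T] (p : T →ₗ[ℚ] A) (p' : T →ₗ[ℚ] A')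
    (i : A →ₗ[ℚ] T) (i' : A' →ₗ[ℚ] T) (h1 : ∀ v, p (i v) = v) (h2 : ∀ v, p' (i' v) = v)
    (h3 : ∀ v, p (i' v) = 0) (h4 : ∀ v, p' (i v) = 0) (h5 : ∀ v, i (p v) + i' (p' v) = v) :
    T ≃ₗ[ℚ] A × A' :=
  LinearEquiv.ofLinearMap (p.prod p') (i.coprod i')
    (by
      apply LinearMap.ext
      rintro ⟨a, b⟩
      ext
      · simp [h1, h3]
      · simp [h2, h4])
    (by
      apply LinearMap.ext
      intro v
      simp [h5])

/-- gluing, one part -/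
theorem SSM_part (hO : Stmt_OVR) (hV : Stmt_VPR) {E E' T A A' B : Type} [AddCommGroup E]
    [Module ℚ E] [AddCommGroup E'] [Module ℚ E'] [AddCommGroup T] [Module ℚ T] [AddCommGroup A]
    [Module ℚ A] [AddCommGroup A'] [Module ℚ A'] [AddCommGroup B] [Module ℚ B]
    (m : T →ₗ[ℚ] E) (m' : T →ₗ[ℚ] E') (inc : A →ₗ[ℚ] E) (inc' : A' →ₗ[ℚ] E')
    (incT : B →ₗ[ℚ] T) (p : B →ₗ[ℚ] A) (p' : B →ₗ[ℚ] A')
    (i : A →ₗ[ℚ] B) (i' : A' →ₗ[ℚ] B) (h1 : ∀ v, p (i v) = v) (h2 : ∀ v, p' (i' v) = v)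
    (h3 : ∀ v, p (i' v) = 0) (h4 : ∀ v, p' (i v) = 0) (h5 : ∀ v, i (p v) + i' (p' v) = v)
    (hm : m.comp incT = inc.comp p) (hm' : m'.comp incT = inc'.comp p')
    (n : ℕ) (M : Str L E) (M' : Str L E') (σ : Tm L) (hσ : σ.Over Set.univ)
    (Γ : Submodule ℚ (Lab L →₀ E)) (Γ' : Submodule ℚ (Lab L →₀ E'))
    (hΓ : VAx (VG n) (M.pull inc) σ (Γ.comap (lift inc)))
    (hΓ' : VAx (VG n) (M'.pull inc') σ (Γ'.comap (lift inc'))) :
    VAx (VG n) (((M.pull m).inf2 (M'.pull m')).pull incT) σ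
      ((Γ.comap (lift m) ⊓ Γ'.comap (lift m')).comap (lift incT)) := by
  have hp := (hV L Set.univ (fun _ => V5.o) n A A' (M.pull inc) (M'.pull inc')).2 σ _ _ hσ hΓ hΓ'
  have he := SSM_vax hO (VG n) _ (SSM_equiv p p' i i' h1 h2 h3 h4 h5) σ hσ _ hp
  have hfst : (LinearMap.fst ℚ A A').comp (SSM_equiv p p' i i' h1 h2 h3 h4 h5).toLinearMap = p := by
    apply LinearMap.ext; intro v; simp [SSM_equiv]
  have hsnd : (LinearMap.snd ℚ A A').comp (SSM_equiv p p' i i' h1 h2 h3 h4 h5).toLinearMap =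
      p' := by
    apply LinearMap.ext; intro v; simp [SSM_equiv]
  have hM : ((M.pull m).inf2 (M'.pull m')).pull incT =
      ((M.pull inc).prod (M'.pull inc')).pull (SSM_equiv p p' i i' h1 h2 h3 h4 h5).toLinearMap := by
    unfold Str.pull Str.inf2 Str.prod
    congr 1
    · funext a l
      simp only [Str.pull, Str.inf2, Submodule.comap_inf, ← Submodule.comap_comp]
      rw [hm, hm', LinearMap.comp_assoc, LinearMap.comp_assoc, hfst, hsnd]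
    · funext Z ψ
      simp only [Str.pull, Str.inf2, Submodule.comap_inf, ← Submodule.comap_comp]
      rw [hm, hm', LinearMap.comp_assoc, LinearMap.comp_assoc, hfst, hsnd]
    · funext τ
      simp only [Str.pull, Str.inf2, Submodule.comap_inf, SSM_comap_comap]
      rw [hm, hm', LinearMap.comp_assoc, LinearMap.comp_assoc, hfst, hsnd]
  have hG : (Γ.comap (lift m) ⊓ Γ'.comap (lift m')).comap (lift incT) =
      ((Γ.comap (lift inc)).comap (lift (LinearMap.fst ℚ A A')) ⊓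
        (Γ'.comap (lift inc')).comap (lift (LinearMap.snd ℚ A A'))).comap
        (lift (SSM_equiv p p' i i' h1 h2 h3 h4 h5).toLinearMap) := by
    simp only [Submodule.comap_inf, SSM_comap_comap]
    rw [hm, hm', LinearMap.comp_assoc, LinearMap.comp_assoc, hfst, hsnd]
  rw [hM, hG]
  exact he

theorem SSM_inv {J E E' T : Type} [AddCommGroup E] [Module ℚ E] [AddCommGroup E'] [Module ℚ E']
    [AddCommGroup T] [Module ℚ T] (m : T →ₗ[ℚ] E) (m' : T →ₗ[ℚ] E') (f : E →ₗ[ℚ] E)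
    (f' : E' →ₗ[ℚ] E') (fT : T →ₗ[ℚ] T) (hm : m.comp fT = f.comp m) (hm' : m'.comp fT = f'.comp m')
    (Γ : Submodule ℚ (J →₀ E)) (Γ' : Submodule ℚ (J →₀ E')) (h : Inv Γ f) (h' : Inv Γ' f') :
    Inv (Γ.comap (lift m) ⊓ Γ'.comap (lift m')) fT := by
  intro v hv
  refine ⟨?_, ?_⟩
  · show lift m (lift fT v) ∈ Γ
    rw [SSM_lift_comp, hm, ← SSM_lift_comp]
    exact h hv.1
  · show lift m' (lift fT v) ∈ Γ'
    rw [SSM_lift_comp, hm', ← SSM_lift_comp]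
    exact h' hv.2

end SSMgen

section SSMfr

variable {V P Q V' P' Q' : Type} [AddCommGroup V] [Module ℚ V] [AddCommGroup P] [Module ℚ P]
  [AddCommGroup Q] [Module ℚ Q] [AddCommGroup V'] [Module ℚ V'] [AddCommGroup P'] [Module ℚ P']
  [AddCommGroup Q'] [Module ℚ Q']

theorem SSM_X :
    (∀ v : FX V P, mapX (LinearMap.fst ℚ V V') (LinearMap.fst ℚ P P')
      (mapX (LinearMap.inl ℚ V V') (LinearMap.inl ℚ P P') v) = v) ∧
    (∀ v : FX V' P', mapX (LinearMap.snd ℚ V V') (LinearMap.snd ℚ P P')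
      (mapX (LinearMap.inr ℚ V V') (LinearMap.inr ℚ P P') v) = v) ∧
    (∀ v : FX V' P', mapX (LinearMap.fst ℚ V V') (LinearMap.fst ℚ P P')
      (mapX (LinearMap.inr ℚ V V') (LinearMap.inr ℚ P P') v) = 0) ∧
    (∀ v : FX V P, mapX (LinearMap.snd ℚ V V') (LinearMap.snd ℚ P P')
      (mapX (LinearMap.inl ℚ V V') (LinearMap.inl ℚ P P') v) = 0) ∧
    (∀ v : FX (V × V') (P × P'), mapX (LinearMap.inl ℚ V V') (LinearMap.inl ℚ P P')
      (mapX (LinearMap.fst ℚ V V') (LinearMap.fst ℚ P P') v) +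
      mapX (LinearMap.inr ℚ V V') (LinearMap.inr ℚ P P')
      (mapX (LinearMap.snd ℚ V V') (LinearMap.snd ℚ P P') v) = v) := by
  refine ⟨fun v => ?_, fun v => ?_, fun v => ?_, fun v => ?_, fun v => ?_⟩ <;>
    refine Prod.ext ?_ (Prod.ext ?_ ?_) <;>
    first
      | (ext j <;> simp [mapX])
      | (simp [mapX])

theorem SSM_Y :
    (∀ v : FY V Q, mapY (LinearMap.fst ℚ V V') (LinearMap.fst ℚ Q Q')
      (mapY (LinearMap.inl ℚ V V') (LinearMap.inl ℚ Q Q') v) = v) ∧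
    (∀ v : FY V' Q', mapY (LinearMap.snd ℚ V V') (LinearMap.snd ℚ Q Q')
      (mapY (LinearMap.inr ℚ V V') (LinearMap.inr ℚ Q Q') v) = v) ∧
    (∀ v : FY V' Q', mapY (LinearMap.fst ℚ V V') (LinearMap.fst ℚ Q Q')
      (mapY (LinearMap.inr ℚ V V') (LinearMap.inr ℚ Q Q') v) = 0) ∧
    (∀ v : FY V Q, mapY (LinearMap.snd ℚ V V') (LinearMap.snd ℚ Q Q')
      (mapY (LinearMap.inl ℚ V V') (LinearMap.inl ℚ Q Q') v) = 0) ∧
    (∀ v : FY (V × V') (Q × Q'), mapY (LinearMap.inl ℚ V V') (LinearMap.inl ℚ Q Q')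
      (mapY (LinearMap.fst ℚ V V') (LinearMap.fst ℚ Q Q') v) +
      mapY (LinearMap.inr ℚ V V') (LinearMap.inr ℚ Q Q')
      (mapY (LinearMap.snd ℚ V V') (LinearMap.snd ℚ Q Q') v) = v) := by
  refine ⟨fun v => ?_, fun v => ?_, fun v => ?_, fun v => ?_, fun v => ?_⟩ <;>
    refine Prod.ext ?_ ?_ <;>
    first
      | (ext j <;> simp [mapY])
      | (simp [mapY])

end SSMfr

theorem blk_SSM (hX : Stmt_HXP) (hV : Stmt_VPR) (hN : Stmt_NAT) (hO : Stmt_OVR) : Stmt_SSM := by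
  intro L S φ n V P Q V' P' Q' _ _ _ _ _ _ _ _ _ _ _ _ M M' σ ΓV Γ ΓV' Γ' hS h h'
  have hσ : σ.Over Set.univ := (hO L σ).2.1 S _ (Set.subset_univ _) hS
  obtain ⟨nX, nV, nY, nI, nK, nI', nK', nP, nQ, nC⟩ := hN (V × V') (P × P') (Q × Q') V P Q
    (LinearMap.fst ℚ V V') (LinearMap.fst ℚ P P') (LinearMap.fst ℚ Q Q')
  obtain ⟨mX, mV, mY, mI, mK, mI', mK', mP, mQ, mC⟩ := hN (V × V') (P × P') (Q × Q') V' P' Q'
    (LinearMap.snd ℚ V V') (LinearMap.snd ℚ P P') (LinearMap.snd ℚ Q Q')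
  obtain ⟨x1, x2, x3, x4, x5⟩ := SSM_X (V := V) (P := P) (V' := V') (P' := P')
  obtain ⟨y1, y2, y3, y4, y5⟩ := SSM_Y (V := V) (Q := Q) (V' := V') (Q' := Q')
  -- idempotents
  have idem : ∀ {T E A B : Type} [AddCommGroup T] [Module ℚ T] [AddCommGroup E] [Module ℚ E]
      [AddCommGroup A] [Module ℚ A] [AddCommGroup B] [Module ℚ B] (m : T →ₗ[ℚ] E)
      (iT : B →ₗ[ℚ] T) (pT : T →ₗ[ℚ] B) (i : A →ₗ[ℚ] E) (p : E →ₗ[ℚ] A) (k : B →ₗ[ℚ] A),
      m.comp iT = i.comp k → p.comp m = k.comp pT → m.comp (iT.comp pT) = (i.comp p).comp m := by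
    intro T E A B _ _ _ _ _ _ _ _ m iT pT i p k h1 h2
    rw [← LinearMap.comp_assoc, h1, LinearMap.comp_assoc, ← h2, LinearMap.comp_assoc]
  refine ⟨fun hC => ?_, fun hB => ?_, fun hA => ?_, fun h0 => ?_, ?_⟩
  · obtain ⟨⟨a1, a2, a3⟩, a4, a5, a6, a7⟩ := h.1 hC
    obtain ⟨⟨b1, b2, b3⟩, b4, b5, b6, b7⟩ := h'.1 hC
    refine ⟨⟨?_, ?_, ?_⟩, ?_, ?_, ?_, ?_⟩
    · exact SSM_inv _ _ _ _ _ (idem _ _ _ _ _ _ nX.1 nX.2) (idem _ _ _ _ _ _ mX.1 mX.2) _ _ a1 b1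
    · exact SSM_inv _ _ _ _ _ (idem _ _ _ _ _ _ nV.1 nV.2) (idem _ _ _ _ _ _ mV.1 mV.2) _ _ a2 b2
    · exact SSM_inv _ _ _ _ _ (idem _ _ _ _ _ _ nY.1 nY.2) (idem _ _ _ _ _ _ mY.1 mY.2) _ _ a3 b3
    · rw [Submodule.comap_inf, SSM_comap_comap, SSM_comap_comap, nV.1, mV.1, ← SSM_comap_comap,
        ← SSM_comap_comap, a4, b4]
    · exact SSM_part hO hV _ _ _ _ _ _ _ _ _ x1 x2 x3 x4 x5 nX.1 mX.1 n M M' σ hσ Γ Γ' a5 b5
    · exact SSM_part hO hV _ _ _ _ _ _ _ (LinearMap.inl ℚ V V') (LinearMap.inr ℚ V V')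
        (fun v => rfl) (fun v => rfl) (fun v => rfl) (fun v => rfl) (fun v => by simp) nV.1 mV.1
        n M M' σ hσ Γ Γ' a6 b6
    · exact SSM_part hO hV _ _ _ _ _ _ _ _ _ y1 y2 y3 y4 y5 nY.1 mY.1 n M M' σ hσ Γ Γ' a7 b7
  · obtain ⟨⟨a1, a2⟩, a3, a4⟩ := h.2.1 hB
    obtain ⟨⟨b1, b2⟩, b3, b4⟩ := h'.2.1 hB
    refine ⟨⟨?_, ?_⟩, ?_, ?_⟩
    · exact SSM_inv _ _ _ _ _ (idem _ _ _ _ _ _ nI.1 nI.2) (idem _ _ _ _ _ _ mI.1 mI.2) _ _ a1 b1
    · exact SSM_inv _ _ _ _ _ (idem _ _ _ _ _ _ nK.1 nK.2) (idem _ _ _ _ _ _ mK.1 mK.2) _ _ a2 b2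
    · exact SSM_part hO hV _ _ _ _ _ _ _ _ _ x1 x2 x3 x4 x5 nI.1 mI.1 n M M' σ hσ Γ Γ' a3 b3
    · refine SSM_part hO hV _ _ _ _ _ _ _
        ((LinearMap.inl ℚ V V').prodMap (mapY (LinearMap.inl ℚ V V') (LinearMap.inl ℚ Q Q')))
        ((LinearMap.inr ℚ V V').prodMap (mapY (LinearMap.inr ℚ V V') (LinearMap.inr ℚ Q Q')))
        ?_ ?_ ?_ ?_ ?_ nK.1 mK.1 n M M' σ hσ Γ Γ' a4 b4
      · rintro ⟨v, w⟩; exact Prod.ext rfl (y1 w)
      · rintro ⟨v, w⟩; exact Prod.ext rfl (y2 w)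
      · rintro ⟨v, w⟩; exact Prod.ext rfl (y3 w)
      · rintro ⟨v, w⟩; exact Prod.ext rfl (y4 w)
      · rintro ⟨v, w⟩; exact Prod.ext (by simp) (y5 w)
  · obtain ⟨⟨a1, a2⟩, a3, a4⟩ := h.2.2.1 hA
    obtain ⟨⟨b1, b2⟩, b3, b4⟩ := h'.2.2.1 hA
    refine ⟨⟨?_, ?_⟩, ?_, ?_⟩
    · exact SSM_inv _ _ _ _ _ (idem _ _ _ _ _ _ nI'.1 nI'.2) (idem _ _ _ _ _ _ mI'.1 mI'.2)
        _ _ a1 b1
    · exact SSM_inv _ _ _ _ _ (idem _ _ _ _ _ _ nK'.1 nK'.2) (idem _ _ _ _ _ _ mK'.1 mK'.2)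
        _ _ a2 b2
    · refine SSM_part hO hV _ _ _ _ _ _ _
        ((mapX (LinearMap.inl ℚ V V') (LinearMap.inl ℚ P P')).prodMap (LinearMap.inl ℚ V V'))
        ((mapX (LinearMap.inr ℚ V V') (LinearMap.inr ℚ P P')).prodMap (LinearMap.inr ℚ V V'))
        ?_ ?_ ?_ ?_ ?_ nI'.1 mI'.1 n M M' σ hσ Γ Γ' a3 b3
      · rintro ⟨v, w⟩; exact Prod.ext (x1 v) rfl
      · rintro ⟨v, w⟩; exact Prod.ext (x2 v) rfl
      · rintro ⟨v, w⟩; exact Prod.ext (x3 v) rfl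
      · rintro ⟨v, w⟩; exact Prod.ext (x4 v) rfl
      · rintro ⟨v, w⟩; exact Prod.ext (x5 v) (by simp)
    · exact SSM_part hO hV _ _ _ _ _ _ _ _ _ y1 y2 y3 y4 y5 nK'.1 mK'.1 n M M' σ hσ Γ Γ' a4 b4
  · obtain ⟨a1, a2, a3⟩ := h.2.2.2.1 h0
    obtain ⟨b1, b2, b3⟩ := h'.2.2.2.1 h0
    refine ⟨fun c c' => ?_, ?_, ?_⟩
    · exact SSM_inv _ _ _ _ _ (idem _ _ _ _ _ _ (nC c').1 (nC c).2)
        (idem _ _ _ _ _ _ (mC c').1 (mC c).2) _ _ (a1 c c') (b1 c c')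
    · exact SSM_inv _ _ _ _ _ (idem _ _ _ _ _ _ nP.1 nP.2) (idem _ _ _ _ _ _ mP.1 mP.2) _ _ a2 b2
    · exact SSM_inv _ _ _ _ _ (idem _ _ _ _ _ _ nQ.1 nQ.2) (idem _ _ _ _ _ _ mQ.1 mQ.2) _ _ a3 b3
  · exact (hX L φ V P Q V' P' Q' M M').2.2.2 n σ Γ Γ' hσ h.2.2.2.2 h'.2.2.2.2

end Pool.NF
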