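import Pool.Agent.Work.MP_b103ef_pos.Interface2

set_option autoImplicit false

open Classical

namespace Pool.NF

/-- stage independence for hitting types -/
theorem blk_SUPE (hEMO : Stmt_EMO) (hAGR : Stmt_AGR) (hHXP : Stmt_HXP) (hOVR : Stmt_OVR) :
    Stmt_SUPE := by
  intro L n hEE m Z S φ hmn hZS hφ α β hα hβ hαm hβm
  constructor
  · rintro ⟨V, P, Q, i1, i2, i3, i4, i5, i6, M, hM, hle⟩
    obtain ⟨V', P', Q', j1, j2, j3, j4, j5, j6, M'', M', h1, h2, h3⟩ :=
      hEE m hmn Z S hZS φ hφ V P Q M hM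
    refine ⟨V × V', P × P', Q × Q', inferInstance, inferInstance, inferInstance, inferInstance,
      inferInstance, inferInstance, M', h2, fun h4 => hle ?_⟩
    have hαu : α.Over Set.univ := (hOVR L α).2.1 Z Set.univ (Set.subset_univ _) hα
    have hβu : β.Over Set.univ := (hOVR L β).2.1 Z Set.univ (Set.subset_univ _) hβ
    have h5 := ((hAGR L Z m (FE (V × V') (P × P') (Q × Q')) M' (fprod M M'') h3).2.2.2.2
      α β hα hβ hαm hβm).1 h4
    exact (((hHXP L φ V P Q V' P' Q' M M'').2.2.1 α β hαu hβu).1 h5).1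
  · rintro ⟨V, P, Q, i1, i2, i3, i4, i5, i6, M, hM, hle⟩
    exact ⟨V, P, Q, i1, i2, i3, i4, i5, i6, M,
      hEMO L S Z φ φ m n V P Q M M hM hmn hZS (fun _ _ => rfl)
      ⟨fun _ _ _ => rfl, fun _ _ _ => rfl, fun _ _ _ _ => rfl⟩, hle⟩

end Pool.NF
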