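import Pool.Agent.Work.MP_b103ef_pos.Interface2

set_option autoImplicit false

open Classical

namespace Pool.NF

/-- stage independence for vertex types -/
theorem blk_SUPV (hVMO : Stmt_VMO) (hAGR : Stmt_AGR) (hEPR : Stmt_EPR) (hOVR : Stmt_OVR) :
    Stmt_SUPV := by
  intro L n hEV m Z S ρ hmn hZS hρ α β hα hβ hαm hβm
  constructor
  · rintro ⟨E, i1, i2, M, hM, hle⟩
    obtain ⟨E', j1, j2, M'', M', h1, h2, h3⟩ := hEV m hmn Z S hZS ρ hρ E M hM
    refine ⟨E × E', inferInstance, inferInstance, M', h2, fun h4 => hle ?_⟩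
    have hαu : α.Over Set.univ := (hOVR L α).2.1 Z Set.univ (Set.subset_univ _) hα
    have hβu : β.Over Set.univ := (hOVR L β).2.1 Z Set.univ (Set.subset_univ _) hβ
    have h5 := ((hAGR L Z m (E × E') M' (M.prod M'') h3).2.2.2.2 α β hα hβ hαm hβm).1 h4
    exact (((hEPR L E E' M M'' m).2.2.2.2.2 α β hαu hβu).1 h5).1
  · rintro ⟨E, i1, i2, M, hM, hle⟩
    exact ⟨E, i1, i2, M, hVMO L S Z ρ ρ m n E M M hM hmn hZS (fun _ _ => rfl)
      ⟨fun _ _ _ => rfl, fun _ _ _ => rfl, fun _ _ _ _ => rfl⟩, hle⟩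

end Pool.NF
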