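import Pool.Agent.Work.MP_b103ef_pos.Interface3

/-!
# MP_b103ef_al (S02731): block TLM
-/

set_option autoImplicit false

open Classical

namespace Pool.NF

theorem blk_TLM (hM : Stmt_NCM) : Stmt_TLM := by
  intro L _ hE α β n hα hβ rα rβ
  constructor
  · intro h
    refine ⟨?_, ?_⟩
    · intro φ hφ hv E _ _ M hMm
      exact ((hM L hE Set.univ φ α β n hα hβ rα rβ).1 (h φ hφ)).1 hv E M hMm
    · intro φ hφ hh V P Q _ _ _ _ _ _ M hMm
      exact ((hM L hE Set.univ φ α β n hα hβ rα rβ).1 (h φ hφ)).2 hh V P Q M hMm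
  · rintro ⟨h1, h2⟩ φ hφ
    refine (hM L hE Set.univ φ α β n hα hβ rα rβ).2 ⟨?_, ?_⟩
    · intro hv E _ _ M hMm
      exact h1 φ hφ hv E M hMm
    · intro hh V P Q _ _ _ _ _ _ M hMm
      exact h2 φ hφ hh V P Q M hMm

end Pool.NF
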