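import Pool.Agent.Work.MP_b103ef_pos.Interface3

/-! Block TR2 (helper85): `T_r(j)` at hitting types of `Z`. -/

set_option autoImplicit false

open Classical

namespace Pool.NF

section geo

variable {V P Q : Type} [AddCommGroup V] [Module ℚ V] [AddCommGroup P] [Module ℚ P]
  [AddCommGroup Q] [Module ℚ Q]

theorem TR2_XK_inf : LinearMap.range (incX : FX V P →ₗ[ℚ] FE V P Q) ⊓
    LinearMap.range (incK : V × FY V Q →ₗ[ℚ] FE V P Q) = ⊥ := by
  rw [eq_bot_iff]
  rintro v ⟨⟨x, hx⟩, ⟨w, hw⟩⟩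
  have h1 : v.2 = 0 := by rw [← hx]; simp [incX]
  have h2 : v.2 = w := by rw [← hw]; simp [incX, incV, incY, incK]
  have h3 : w = 0 := by rw [← h2, h1]
  rw [Submodule.mem_bot, ← hw, h3, map_zero]

theorem TR2_XK_sup : LinearMap.range (incX : FX V P →ₗ[ℚ] FE V P Q) ⊔
    LinearMap.range (incK : V × FY V Q →ₗ[ℚ] FE V P Q) = ⊤ := by
  rw [eq_top_iff]
  intro v _
  refine Submodule.mem_sup.2 ⟨incX (v.1 - (mS v.2.1 + mT v.2.2)), ⟨_, rfl⟩, incK v.2, ⟨_, rfl⟩, ?_⟩
  ext1
  · simp [incX, incV, incY, incK]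
  · simp [incX, incV, incY, incK]

theorem TR2_XVK_inf : (LinearMap.range (incX : FX V P →ₗ[ℚ] FE V P Q) ⊔
    LinearMap.range (incV : V →ₗ[ℚ] FE V P Q)) ⊓
    LinearMap.range (incK' : FY V Q →ₗ[ℚ] FE V P Q) = ⊥ := by
  rw [eq_bot_iff]
  rintro v ⟨hv, ⟨w, hw⟩⟩
  obtain ⟨a, ⟨x, rfl⟩, b, ⟨z, rfl⟩, hab⟩ := Submodule.mem_sup.1 hv
  have h1 : v.2.2 = 0 := by rw [← hab]; simp [incX, incV]
  have h2 : v.2.2 = w := by rw [← hw]; simp [incX, incV, incY, incK']
  have h3 : w = 0 := by rw [← h2, h1]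
  rw [Submodule.mem_bot, ← hw, h3, map_zero]

theorem TR2_XVK_sup : (LinearMap.range (incX : FX V P →ₗ[ℚ] FE V P Q) ⊔
    LinearMap.range (incV : V →ₗ[ℚ] FE V P Q)) ⊔
    LinearMap.range (incK' : FY V Q →ₗ[ℚ] FE V P Q) = ⊤ := by
  rw [eq_top_iff]
  intro v _
  refine Submodule.mem_sup.2 ⟨incX (v.1 - mR v.2.2) + incV (v.2.1 - mRho v.2.2),
    Submodule.add_mem_sup ⟨_, rfl⟩ ⟨_, rfl⟩, incK' v.2.2, ⟨_, rfl⟩, ?_⟩
  ext1
  · simp [incX, incV, incY, incK']
  · ext1
    · simp [incX, incV, incY, incK']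
    · simp [incX, incV, incY, incK']

end geo

theorem blk_TR2 (hB : Stmt_BND) : Stmt_TR2 := by
  intro L S φ V P Q _ _ _ _ _ _ M hM Z r hZS hHit hr hnp hnq j
  have hB' : ∀ k ∈ Z, _ := fun k hk => hB L S φ V P Q M hM k (hZS hk)
  -- lower bounds of the sup, upper bounds of the inf
  have hinf : ∀ k ∈ Z, r k = V5.i → (⨅ i ∈ Z, ⨅ (_ : r i = V5.i), M.x i 0) ≤ M.x k 0 :=
    fun k hk h => iInf_le_of_le k (iInf_le_of_le hk (iInf_le_of_le h le_rfl))
  have hsup : ∀ k ∈ Z, r k = V5.o → M.x k 2 ≤ (⨆ i ∈ Z, ⨆ (_ : r i = V5.o), M.x i 2) :=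
    fun k hk h => le_iSup_of_le k (le_iSup_of_le hk (le_iSup_of_le h le_rfl))
  have key : (⨅ i ∈ Z, ⨅ (_ : r i = V5.i), M.x i 0) ≤
      (⨆ i ∈ Z, ⨆ (_ : r i = V5.o), M.x i 2) := by
    generalize (⨅ i ∈ Z, ⨅ (_ : r i = V5.i), M.x i 0) = I at hinf ⊢
    generalize (⨆ i ∈ Z, ⨆ (_ : r i = V5.o), M.x i 2) = T at hsup ⊢
    by_contra hcon
    -- the values at the vertex elements
    have hvo : ∀ k ∈ Z, φ k = V5.o → r k = V5.o := by
      intro k hk h
      rcases hr k hk with h' | h'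
      · exact h'
      · exact absurd ((hinf k hk h').trans ((((hB' k hk).2.2.2.1 h).1).le.trans bot_le)) hcon
    have hvi : ∀ k ∈ Z, φ k = V5.i → r k = V5.i := by
      intro k hk h
      rcases hr k hk with h' | h'
      · exact absurd (le_top.trans ((((hB' k hk).2.2.2.2.1 h).2).ge.trans (hsup k hk h'))) hcon
      · exact h'
    -- bounds
    set X := LinearMap.range (incX : FX V P →ₗ[ℚ] FE V P Q)
    set XV := LinearMap.range (incX : FX V P →ₗ[ℚ] FE V P Q) ⊔
      LinearMap.range (incV : V →ₗ[ℚ] FE V P Q)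
    set K := LinearMap.range (incK : V × FY V Q →ₗ[ℚ] FE V P Q)
    set K' := LinearMap.range (incK' : FY V Q →ₗ[ℚ] FE V P Q)
    have hXXV : X ≤ XV := le_sup_left
    have ha0 : ∀ k ∈ Z, φ k = V5.a → r k = V5.i → I ≤ X := fun k hk h h' =>
      (hinf k hk h').trans ((hB' k hk).1 h).1
    have ha2 : ∀ k ∈ Z, φ k = V5.a → r k = V5.o → X ≤ T := fun k hk h h' =>
      ((hB' k hk).1 h).2.trans (hsup k hk h')
    have hb0 : ∀ k ∈ Z, φ k = V5.b → r k = V5.i → I ≤ XV := fun k hk h h' =>
      (hinf k hk h').trans ((hB' k hk).2.1 h).1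
    have hb2 : ∀ k ∈ Z, φ k = V5.b → r k = V5.o → XV ≤ T := fun k hk h h' =>
      ((hB' k hk).2.1 h).2.trans (hsup k hk h')
    have hc0 : ∀ k ∈ Z, φ k = V5.c → r k = V5.i → I ≤ K ⊓ K' := fun k hk h h' =>
      (hinf k hk h').trans ((hB' k hk).2.2.1 h).1
    have hc2 : ∀ k ∈ Z, φ k = V5.c → r k = V5.o → K ⊔ K' ≤ T := fun k hk h h' =>
      ((hB' k hk).2.2.1 h).2.trans (hsup k hk h')
    obtain ⟨-, -, ⟨kc, hkcZ, hkc⟩⟩ := hHit
    have hkcZ' : kc ∈ Z := by simpa using hkcZ
    rcases hr kc hkcZ with hc | hc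
    · -- `r kc = o`
      have hT := hc2 kc hkcZ' hkc hc
      have hai : ∀ k ∈ Z, φ k = V5.a → r k = V5.i := by
        intro k hk h
        rcases hr k hk with h' | h'
        · exfalso
          apply hcon
          have : X ⊔ K ≤ T := sup_le (ha2 k hk h h') (le_sup_left.trans hT)
          rw [TR2_XK_sup] at this
          exact le_top.trans this
        · exact h'
      have hbi : ∀ k ∈ Z, φ k = V5.b → r k = V5.i := by
        intro k hk h
        rcases hr k hk with h' | h'
        · exfalso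
          apply hcon
          have : XV ⊔ K' ≤ T := sup_le (hb2 k hk h h') (le_sup_right.trans hT)
          rw [TR2_XVK_sup] at this
          exact le_top.trans this
        · exact h'
      have hco : ∀ k ∈ Z, φ k = V5.c → r k = V5.o := by
        intro k hk h
        rcases hr k hk with h' | h'
        · exact h'
        · exact absurd ((hc0 k hk h h').trans ((inf_le_left.trans le_sup_left).trans hT)) hcon
      apply hnp
      intro k hk
      have hk' : k ∈ Z := by simpa using hk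
      show r k = pp (φ k)
      rcases hφ : φ k with _ | _ | _ | _ | _
      · exact hvo k hk' hφ
      · exact hai k hk' hφ
      · exact hbi k hk' hφ
      · exact hco k hk' hφ
      · exact hvi k hk' hφ
    · -- `r kc = i`
      have hI := hc0 kc hkcZ' hkc hc
      have hao : ∀ k ∈ Z, φ k = V5.a → r k = V5.o := by
        intro k hk h
        rcases hr k hk with h' | h'
        · exact h'
        · exfalso
          apply hcon
          have : I ≤ X ⊓ K := le_inf (ha0 k hk h h') (hI.trans inf_le_left)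
          rw [TR2_XK_inf] at this
          exact this.trans bot_le
      have hbo : ∀ k ∈ Z, φ k = V5.b → r k = V5.o := by
        intro k hk h
        rcases hr k hk with h' | h'
        · exact h'
        · exfalso
          apply hcon
          have : I ≤ XV ⊓ K' := le_inf (hb0 k hk h h') (hI.trans inf_le_right)
          rw [TR2_XVK_inf] at this
          exact this.trans bot_le
      have hci : ∀ k ∈ Z, φ k = V5.c → r k = V5.i := by
        intro k hk h
        rcases hr k hk with h' | h'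
        · exact absurd (hI.trans ((inf_le_left.trans le_sup_left).trans (hc2 k hk h h'))) hcon
        · exact h'
      apply hnq
      intro k hk
      have hk' : k ∈ Z := by simpa using hk
      show r k = pq (φ k)
      rcases hφ : φ k with _ | _ | _ | _ | _
      · exact hvo k hk' hφ
      · exact hao k hk' hφ
      · exact hbo k hk' hφ
      · exact hci k hk' hφ
      · exact hvi k hk' hφ
  -- conclusion
  have hun : M.un (.tau Z r) ≤ M.un (.tau' Z r) := le_inf le_rfl key
  show M.ev _ (.base {j} fun _ => .tau Z r) ≤ M.ev _ (.base {j} fun _ => .tau' Z r)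
  simp only [Str.ev]
  refine sup_le_sup_right ?_ _
  intro v hv j'
  refine ⟨fun hj' => ?_, fun hj' => (hv j').2 hj'⟩
  exact (sup_le_sup_left (inf_le_inf_right _ hun) _) ((hv j').1 hj')

end Pool.NF
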