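import Pool.Agent.Work.MP_b103ef_pos.Interface1

/-! # Block TRV: `T_r(j)` at the vertex types (helper99) -/

set_option autoImplicit false

open Classical

namespace Pool.NF

theorem TRV_box_mono {J E : Type} [AddCommGroup E] [Module ℚ E] (F : Finset J)
    (C C' : J → Submodule ℚ E) (h : ∀ j, C j ≤ C' j) : box F C ≤ box F C' := by
  intro v hv j
  exact ⟨fun hj => h j ((hv j).1 hj), (hv j).2⟩

/-- the test structure -/
noncomputable def TRV_M {L : Type} (r : L → V5) : Str L ℚ where
  x i _ := if r i = V5.i then ⊤ else ⊥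
  u _ _ := ⊥
  g _ := ⊥

theorem blk_TRV : Stmt_TRV := by
  intro L Z r hr
  refine ⟨?_, ?_⟩
  · intro j hj hj1 hj2
    refine ⟨ℚ, inferInstance, inferInstance, TRV_M r, ?_, ?_⟩
    · show VBase (↑Z : Set L) r (TRV_M r)
      refine ⟨fun i _ => ⟨fun hi => ?_, fun hi => ?_⟩, fun _ _ _ => rfl⟩
      · simp [TRV_M, hi]
      · simp [TRV_M, hi]
    · intro hle
      have hA : (TRV_M r).A j = ⊤ := by simp [Str.A, TRV_M, hj2]
      have hB : (TRV_M r).B j = ⊥ := by simp [Str.B, TRV_M, hj1]
      have hG : (Tm.T1 Z r j).vars ∪ (Tm.T0 Z r j).vars = {j} := by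
        show ({j} : Finset (Lab L)) ∪ {j} = {j}
        exact Finset.union_self _
      have hle' : (TRV_M r).ev {j} (Tm.T1 Z r j) ≤ (TRV_M r).ev {j} (Tm.T0 Z r j) := by
        have := hle
        unfold Str.Le at this
        rwa [hG] at this
      have hmem : (Finsupp.single j (1 : ℚ)) ∈ (TRV_M r).ev {j} (Tm.T1 Z r j) := by
        show _ ∈ box {j} (fun j' => (TRV_M r).B j' ⊔ ((TRV_M r).un (.tau Z r) ⊓ (TRV_M r).A j')) ⊔
          box {j} (TRV_M r).B
        refine Submodule.mem_sup_left ?_
        intro k
        refine ⟨fun hk => ?_, fun hk => ?_⟩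
        · rw [Finset.mem_singleton] at hk
          subst hk
          refine Submodule.mem_sup_right ?_
          rw [hA, inf_top_eq]
          have : (TRV_M r).un (.tau Z r) = ⊤ := by
            show (⨅ i ∈ Z, ⨅ (_ : r i = V5.i), (TRV_M r).x i 0) = ⊤
            simp only [iInf_eq_top]
            intro i _ hi
            simp [TRV_M, hi]
          rw [this]; trivial
        · rw [Finset.mem_singleton] at hk
          rw [Finsupp.single_eq_of_ne hk]
      have h2 := hle' hmem
      have hbot : (TRV_M r).ev {j} (Tm.T0 Z r j) = ⊥ := by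
        show box {j} (fun j' => (TRV_M r).B j' ⊔ ((TRV_M r).un (.tau' Z r) ⊓ (TRV_M r).A j')) ⊔
          box {j} (TRV_M r).B = ⊥
        have hu : (TRV_M r).un (.tau' Z r) = ⊥ := by
          show (⨅ i ∈ Z, ⨅ (_ : r i = V5.i), (TRV_M r).x i 0) ⊓
            (⨆ i ∈ Z, ⨆ (_ : r i = V5.o), (TRV_M r).x i 2) = ⊥
          have : (⨆ i ∈ Z, ⨆ (_ : r i = V5.o), (TRV_M r).x i 2) = ⊥ := by
            simp only [iSup_eq_bot]
            intro i _ hi
            simp [TRV_M, hi]
          rw [this, inf_bot_eq]
        rw [eq_bot_iff, sup_le_iff]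
        constructor
        · intro v hv
          rw [Submodule.mem_bot]
          ext k
          by_cases hk : k = j
          · subst hk
            have h3 : v k ∈ (TRV_M r).B k ⊔ ((TRV_M r).un (.tau' Z r) ⊓ (TRV_M r).A k) :=
              (hv k).1 (Finset.mem_singleton_self k)
            rw [hB, hu, bot_inf_eq, sup_bot_eq, Submodule.mem_bot] at h3
            simpa using h3
          · have h3 := (hv k).2 (by rw [Finset.mem_singleton]; exact hk)
            simpa using h3
        · intro v hv
          rw [Submodule.mem_bot]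
          ext k
          by_cases hk : k = j
          · subst hk
            have h3 := (hv k).1 (Finset.mem_singleton_self k)
            rw [hB, Submodule.mem_bot] at h3
            simpa using h3
          · have h3 := (hv k).2 (by rw [Finset.mem_singleton]; exact hk)
            simpa using h3
      rw [hbot, Submodule.mem_bot] at h2
      have h3 := DFunLike.congr_fun h2 j
      simp at h3
  · intro S ρ E _ _ M hZS hρ hne hM j
    have hM' : VBase S ρ M := hM
    have hun : M.un (.tau Z r) ≤ M.un (.tau' Z r) := by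
      obtain ⟨z, hz, hzne⟩ : ∃ z ∈ (↑Z : Set L), ρ z ≠ r z := by
        by_contra hcon
        apply hne
        intro z hz
        by_contra h4
        exact hcon ⟨z, hz, h4⟩
      show (⨅ i ∈ Z, ⨅ (_ : r i = V5.i), M.x i 0) ≤ (⨅ i ∈ Z, ⨅ (_ : r i = V5.i), M.x i 0) ⊓
            (⨆ i ∈ Z, ⨆ (_ : r i = V5.o), M.x i 2)
      refine le_inf le_rfl ?_
      rcases hr z hz with h1 | h1
      · -- `r z = o`, so `ρ z = i`
        have h2 : ρ z = V5.i := by
          rcases hρ z (hZS hz) with h3 | h3
          · exact absurd (h3.trans h1.symm) hzne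
          · exact h3
        have h3 := ((hM'.1 z (hZS hz)).1 h2).2
        refine le_trans le_top ?_
        rw [← h3]
        exact le_iSup_of_le z (le_iSup_of_le (Finset.mem_coe.1 hz) (le_iSup_of_le h1 le_rfl))
      · have h2 : ρ z = V5.o := by
          rcases hρ z (hZS hz) with h3 | h3
          · exact h3
          · exact absurd (h3.trans h1.symm) hzne
        have h3 := ((hM'.1 z (hZS hz)).2 h2).1
        refine le_trans ?_ bot_le
        rw [← h3]
        exact iInf_le_of_le z (iInf_le_of_le (Finset.mem_coe.1 hz) (iInf_le_of_le h1 le_rfl))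
    unfold Str.Le
    show box {j} (fun j' => M.B j' ⊔ (M.un (.tau Z r) ⊓ M.A j')) ⊔ box _ M.B ≤
      box {j} (fun j' => M.B j' ⊔ (M.un (.tau' Z r) ⊓ M.A j')) ⊔ box _ M.B
    exact sup_le_sup_right (TRV_box_mono _ _ _ (fun j' =>
      sup_le_sup_left (inf_le_inf_right _ hun) _)) _

end Pool.NF
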