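import Pool.Agent.Work.MP_b103ef_pos.Interface2

/-!
# MP_b103ef_al (S02731): block TST (helper75)
-/

set_option autoImplicit false

open Classical

namespace Pool.NF

theorem TST_ret (hRET : Stmt_RET) {L : Type} {S : Set L} {n : ℕ} {E W F : Type}
    [AddCommGroup E] [Module ℚ E] [AddCommGroup W] [Module ℚ W] [AddCommGroup F] [Module ℚ F]
    (N : Str L E) (q : W →ₗ[ℚ] E) (k : F →ₗ[ℚ] W) (inc : E →ₗ[ℚ] F)
    (h : ∀ v, q (k (inc v)) = v) {α β : Tm L} (hα : α.Over S) (hβ : β.Over S)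
    (hra : α.rank ≤ n) (hrb : β.rank ≤ n) (hle : ((N.pull q).pull k).Le α β) : N.Le α β := by
  have e1 : ∀ v : Lab L →₀ E, lift q (lift k (lift inc v)) = v := by
    intro v
    ext j
    simp [h]
  have e2 : ∀ v : Lab L →₀ F, lift (q.comp k) v = lift q (lift k v) := by
    intro v
    ext j
    simp
  refine ((hRET L S n F E ((N.pull q).pull k) N inc (q.comp k) h ?_ ?_).2 α β hα hβ hra hrb).1 hle
  · refine ⟨fun i _ l v hv => ?_, fun Z _ ψ v hv => ?_, fun σ _ _ _ v hv => ?_⟩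
    · change q (k (inc v)) ∈ N.x i l
      rw [h]
      exact hv
    · change q (k (inc v)) ∈ N.u Z ψ
      rw [h]
      exact hv
    · change lift q (lift k (lift inc v)) ∈ N.g σ
      rw [e1]
      exact hv
  · refine ⟨fun i _ l v hv => hv, fun Z _ ψ v hv => hv, fun σ _ _ _ v hv => ?_⟩
    change lift (q.comp k) v ∈ N.g σ
    rw [e2]
    exact hv

theorem TST_isVp {L : Type} (S : Set L) (φ : L → V5) : IsV S (pp ∘ φ) := by
  intro x _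
  change pp (φ x) = V5.o ∨ pp (φ x) = V5.i
  cases φ x <;> simp [pp]

theorem TST_isVq {L : Type} (S : Set L) (φ : L → V5) : IsV S (pq ∘ φ) := by
  intro x _
  change pq (φ x) = V5.o ∨ pq (φ x) = V5.i
  cases φ x <;> simp [pq]

theorem TST_pp (hS : Stmt_SUPV) (hE : Stmt_EW) {L : Type} {n : ℕ} (hEV : EVst L n)
    {S T : Set L} (φ : L → V5) (hT : T ⊆ S) {α β : Tm L} (hα : α.Over T) (hβ : β.Over T)
    (hra : α.rank ≤ n) (hrb : β.rank ≤ n) (h : NC (VG n) T (pp ∘ φ) α β) :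
    ∃ (E : Type) (_ : AddCommGroup E) (_ : Module ℚ E) (N : Str L E),
      EG n S φ PUnit E PUnit (N.pull prP) ∧ ¬ N.Le α β := by
  obtain ⟨E, i1, i2, N, hN, hle⟩ :=
    (hS L n hEV n T S (pp ∘ φ) le_rfl hT (TST_isVp S φ) α β hα hβ hra hrb).1 h
  exact ⟨E, i1, i2, N, (hE L S φ n E N).1 hN, hle⟩

theorem TST_pq (hS : Stmt_SUPV) (hE : Stmt_EW) {L : Type} {n : ℕ} (hEV : EVst L n)
    {S T : Set L} (φ : L → V5) (hT : T ⊆ S) {α β : Tm L} (hα : α.Over T) (hβ : β.Over T)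
    (hra : α.rank ≤ n) (hrb : β.rank ≤ n) (h : NC (VG n) T (pq ∘ φ) α β) :
    ∃ (E : Type) (_ : AddCommGroup E) (_ : Module ℚ E) (N : Str L E),
      EG n S φ PUnit PUnit E (N.pull prQ) ∧ ¬ N.Le α β := by
  obtain ⟨E, i1, i2, N, hN, hle⟩ :=
    (hS L n hEV n T S (pq ∘ φ) le_rfl hT (TST_isVq S φ) α β hα hβ hra hrb).1 h
  exact ⟨E, i1, i2, N, (hE L S φ n E N).2 hN, hle⟩


section
variable {V P Q : Type} [AddCommGroup V] [Module ℚ V] [AddCommGroup P] [Module ℚ P]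
  [AddCommGroup Q] [Module ℚ Q]

/-- embedding of `P` in `𝕏` -/
noncomputable def TST_jX : P →ₗ[ℚ] FX V P :=
  (LinearMap.inr ℚ (ℕ →₀ V) ((ℕ →₀ V) × P)).comp (LinearMap.inr ℚ (ℕ →₀ V) P)

/-- embedding of `Q` in `𝕐` -/
noncomputable def TST_jY : Q →ₗ[ℚ] FY V Q :=
  LinearMap.inr ℚ (ℕ →₀ V) Q

theorem TST_1 (v : P) : (prP : FE V P Q →ₗ[ℚ] P) (incX (TST_jX v)) = v := by
  simp [prP, prX, incX, TST_jX]

theorem TST_2 (v : Q) : (prQ : FE V P Q →ₗ[ℚ] Q) (incY (TST_jY v)) = v := by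
  simp [prQ, prY, incY, TST_jY]

theorem TST_3 (v : P) : (prP : FE V P Q →ₗ[ℚ] P) (incI (TST_jX v)) = v := by
  simp [prP, prX, incI, incX, incY, TST_jX]

theorem TST_4 (v : Q) : (prQ : FE V P Q →ₗ[ℚ] Q)
    (incK ((LinearMap.inr ℚ V (FY V Q)).comp TST_jY v)) = v := by
  simp [prQ, prY, incK, incX, incY, incV, TST_jY]

theorem TST_5 (v : P) : (prP : FE V P Q →ₗ[ℚ] P)
    (incI' ((LinearMap.inl ℚ (FX V P) V).comp TST_jX v)) = v := by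
  simp [prP, prX, incI', incX, incY, incV, TST_jX]

theorem TST_6 (v : Q) : (prQ : FE V P Q →ₗ[ℚ] Q) (incK' (TST_jY v)) = v := by
  simp [prQ, prY, incK', incX, incY, incV, TST_jY]

theorem TST_7 (v : P) : (prP : FE V P Q →ₗ[ℚ] P) (incP v) = v := by
  simp [prP, prX, incP, incX]

theorem TST_8 (v : Q) : (prQ : FE V P Q →ₗ[ℚ] Q) (incQ v) = v := by
  simp [prQ, prY, incQ, incY]

variable (hRET : Stmt_RET) {L : Type} {S : Set L} {n : ℕ}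
  {α β : Tm L} (hα : α.Over S) (hβ : β.Over S) (hra : α.rank ≤ n) (hrb : β.rank ≤ n)

include hRET hα hβ hra hrb

theorem TST_X (N : Str L P) (hc : ((N.pull (prP : FE V P Q →ₗ[ℚ] P)).pull incX).Le α β) :
    N.Le α β :=
  TST_ret hRET N (prP : FE V P Q →ₗ[ℚ] P) incX TST_jX TST_1 hα hβ hra hrb hc

theorem TST_Y (N : Str L Q) (hc : ((N.pull (prQ : FE V P Q →ₗ[ℚ] Q)).pull incY).Le α β) :
    N.Le α β :=
  TST_ret hRET N (prQ : FE V P Q →ₗ[ℚ] Q) incY TST_jY TST_2 hα hβ hra hrb hc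

theorem TST_I (N : Str L P) (hc : ((N.pull (prP : FE V P Q →ₗ[ℚ] P)).pull incI).Le α β) :
    N.Le α β :=
  TST_ret hRET N (prP : FE V P Q →ₗ[ℚ] P) incI TST_jX TST_3 hα hβ hra hrb hc

theorem TST_K (N : Str L Q) (hc : ((N.pull (prQ : FE V P Q →ₗ[ℚ] Q)).pull incK).Le α β) :
    N.Le α β :=
  TST_ret hRET N (prQ : FE V P Q →ₗ[ℚ] Q) incK _ TST_4 hα hβ hra hrb hc

theorem TST_I' (N : Str L P) (hc : ((N.pull (prP : FE V P Q →ₗ[ℚ] P)).pull incI').Le α β) :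
    N.Le α β :=
  TST_ret hRET N (prP : FE V P Q →ₗ[ℚ] P) incI' _ TST_5 hα hβ hra hrb hc

theorem TST_K' (N : Str L Q) (hc : ((N.pull (prQ : FE V P Q →ₗ[ℚ] Q)).pull incK').Le α β) :
    N.Le α β :=
  TST_ret hRET N (prQ : FE V P Q →ₗ[ℚ] Q) incK' TST_jY TST_6 hα hβ hra hrb hc

theorem TST_P (N : Str L P) (hc : ((N.pull (prP : FE V P Q →ₗ[ℚ] P)).pull incP).Le α β) :
    N.Le α β :=
  TST_ret hRET N (prP : FE V P Q →ₗ[ℚ] P) incP LinearMap.id TST_7 hα hβ hra hrb hc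

theorem TST_Q (N : Str L Q) (hc : ((N.pull (prQ : FE V P Q →ₗ[ℚ] Q)).pull incQ).Le α β) :
    N.Le α β :=
  TST_ret hRET N (prQ : FE V P Q →ₗ[ℚ] Q) incQ LinearMap.id TST_8 hα hβ hra hrb hc

end

theorem blk_TST (hSUPV : Stmt_SUPV) (hEW : Stmt_EW) (hVMO : Stmt_VMO) (hEPR : Stmt_EPR)
    (hAGR : Stmt_AGR) (hRET : Stmt_RET) (hOVR : Stmt_OVR) : Stmt_TST := by
  intro L n hEV hEX S φ hHit α β hra hrb
  have hC : dC S φ ⊆ S := fun x hx => hx.1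
  have hB : dB S φ ⊆ S := fun x hx => hx.1
  have hA : dA S φ ⊆ S := fun x hx => hx.1
  have h01 : d01 S φ ⊆ S := fun x hx => hx.1
  refine ⟨fun hα hβ => ⟨fun h => ?_, fun h => ?_, fun h => ?_⟩,
    fun hα hβ => ⟨fun h => ?_, fun h => ?_⟩, fun hα hβ => ⟨fun h => ?_, fun h => ?_⟩,
    fun hα hβ h => ⟨?_, ?_⟩⟩
  · obtain ⟨E, i1, i2, N, hN, hle⟩ := TST_pp hSUPV hEW hEV φ hC hα hβ hra hrb h
    exact ⟨PUnit, E, PUnit, _, _, i1, i2, _, _, N.pull prP, hN, fun hc => hle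
      (TST_X hRET hα hβ hra hrb N hc)⟩
  · obtain ⟨V, i1, i2, MV, hM, hle⟩ := h
    obtain ⟨V', P, Q, j1, j2, j3, j4, j5, j6, MV', M', h1, h2, h3⟩ :=
      hEX n le_rfl S φ hHit V MV hM
    refine ⟨V × V', P, Q, _, _, j3, j4, j5, j6, M', h2, fun hc => hle ?_⟩
    have h4 := ((hAGR L (dC S φ) n _ _ _ h3).2.2.2.2 α β hα hβ hra hrb).1 hc
    have hu : ∀ γ : Tm L, γ.Over (dC S φ) → γ.Over Set.univ := fun γ hγ =>
      (hOVR L γ).2.1 _ _ (Set.subset_univ _) hγ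
    exact ((((hEPR L V V' MV MV' n).2.2.2.2.2 α β (hu α hα) (hu β hβ)).1 h4)).1
  · obtain ⟨E, i1, i2, N, hN, hle⟩ := TST_pq hSUPV hEW hEV φ hC hα hβ hra hrb h
    exact ⟨PUnit, PUnit, E, _, _, _, _, i1, i2, N.pull prQ, hN, fun hc => hle
      (TST_Y hRET hα hβ hra hrb N hc)⟩
  · obtain ⟨E, i1, i2, N, hN, hle⟩ := TST_pp hSUPV hEW hEV φ hB hα hβ hra hrb h
    exact ⟨PUnit, E, PUnit, _, _, i1, i2, _, _, N.pull prP, hN, fun hc => hle
      (TST_I hRET hα hβ hra hrb N hc)⟩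
  · obtain ⟨E, i1, i2, N, hN, hle⟩ := TST_pq hSUPV hEW hEV φ hB hα hβ hra hrb h
    exact ⟨PUnit, PUnit, E, _, _, _, _, i1, i2, N.pull prQ, hN, fun hc => hle
      (TST_K hRET hα hβ hra hrb N hc)⟩
  · obtain ⟨E, i1, i2, N, hN, hle⟩ := TST_pp hSUPV hEW hEV φ hA hα hβ hra hrb h
    exact ⟨PUnit, E, PUnit, _, _, i1, i2, _, _, N.pull prP, hN, fun hc => hle
      (TST_I' hRET hα hβ hra hrb N hc)⟩
  · obtain ⟨E, i1, i2, N, hN, hle⟩ := TST_pq hSUPV hEW hEV φ hA hα hβ hra hrb h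
    exact ⟨PUnit, PUnit, E, _, _, _, _, i1, i2, N.pull prQ, hN, fun hc => hle
      (TST_K' hRET hα hβ hra hrb N hc)⟩
  · have e : Set.EqOn φ (pp ∘ φ) (d01 S φ) := by
      intro x hx
      rcases hx.2 with h | h <;> simp [h, pp]
    have h' : NC (VG n) (d01 S φ) (pp ∘ φ) α β := by
      obtain ⟨E, i1, i2, N, hN, hle⟩ := h
      exact ⟨E, i1, i2, N, hVMO L (d01 S φ) (d01 S φ) φ (pp ∘ φ) n n E N N hN le_rfl
        (Set.Subset.refl _) e ⟨fun _ _ _ => rfl, fun _ _ _ => rfl, fun _ _ _ _ => rfl⟩, hle⟩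
    obtain ⟨E, i1, i2, N, hN, hle⟩ := TST_pp hSUPV hEW hEV φ h01 hα hβ hra hrb h'
    exact ⟨PUnit, E, PUnit, _, _, i1, i2, _, _, N.pull prP, hN, fun hc => hle
      (TST_P hRET hα hβ hra hrb N hc)⟩
  · have e : Set.EqOn φ (pq ∘ φ) (d01 S φ) := by
      intro x hx
      rcases hx.2 with h | h <;> simp [h, pq]
    have h' : NC (VG n) (d01 S φ) (pq ∘ φ) α β := by
      obtain ⟨E, i1, i2, N, hN, hle⟩ := h
      exact ⟨E, i1, i2, N, hVMO L (d01 S φ) (d01 S φ) φ (pq ∘ φ) n n E N N hN le_rfl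
        (Set.Subset.refl _) e ⟨fun _ _ _ => rfl, fun _ _ _ => rfl, fun _ _ _ _ => rfl⟩, hle⟩
    obtain ⟨E, i1, i2, N, hN, hle⟩ := TST_pq hSUPV hEW hEV φ h01 hα hβ hra hrb h'
    exact ⟨PUnit, PUnit, E, _, _, _, _, i1, i2, N.pull prQ, hN, fun hc => hle
      (TST_Q hRET hα hβ hra hrb N hc)⟩

end Pool.NF
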