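import Pool.Agent.Work.MP_b103ef_pos.Interface2

/-!
# MP_b103ef_al (S02731): block TU1
-/

set_option autoImplicit false

open Classical

namespace Pool.NF

/-- the test structure -/
private noncomputable def tu1_M {L : Type} (ψ : L → V5) : Str L (FE ℚ ℚ ℚ) where
  x i l := fl (⊥ : Submodule ℚ ℚ) (⊥ : Submodule ℚ ℚ) (⊥ : Submodule ℚ ℚ) (ψ i) l
  u Z' ψ' := if Hit (↑Z' : Set L) ψ ∧ Set.EqOn ψ' ψ ↑Z' then ⊤ else ⊥
  g _ := ⊥

/-- the test vector -/
private noncomputable def tu1_e : FE ℚ ℚ ℚ :=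
  (0, ((1 : ℚ), (-(Finsupp.single 0 (1 : ℚ)), (0 : ℚ))))

theorem blk_TU1 (hG : Stmt_EG0) (hA : Stmt_OKA) (hB : Stmt_OKB) (hC : Stmt_OKC)
    (hO : Stmt_OKO) : Stmt_TU1 := by
  intro L Z ψ hit j hj ha hc
  refine ⟨ℚ, ℚ, ℚ, inferInstance, inferInstance, inferInstance, inferInstance, inferInstance,
    inferInstance, tu1_M ψ, ?_, ?_⟩
  · rw [hG]
    refine ⟨?_, ?_⟩
    · intro i _
      have e : (tu1_M ψ).x i = fl (⊥ : Submodule ℚ ℚ) (⊥ : Submodule ℚ ℚ)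
          (⊥ : Submodule ℚ ℚ) (ψ i) := rfl
      rw [e]
      cases h : ψ i with
      | o => exact (hO ℚ ℚ ℚ ⊥ ⊥ ⊥).1
      | a => exact hA ℚ ℚ ℚ ⊥ ⊥ ⊥
      | b => exact hB ℚ ℚ ℚ ⊥ ⊥ ⊥
      | c => exact hC ℚ ℚ ℚ ⊥ ⊥ ⊥
      | i => exact (hO ℚ ℚ ℚ ⊥ ⊥ ⊥).2
    · intro Z' _ ψ' h
      have : ¬ (Hit (↑Z' : Set L) ψ ∧ Set.EqOn ψ' ψ ↑Z') := by tauto
      simp only [tu1_M, if_neg this]
  · intro hle
    have hu : (tu1_M ψ).u Z ψ = ⊤ := by
      have : Hit (↑Z : Set L) ψ ∧ Set.EqOn ψ ψ ↑Z := ⟨hit, fun _ _ => rfl⟩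
      simp only [tu1_M, if_pos this]
    have hA : tu1_e ∈ (tu1_M ψ).A j := by
      simp only [Str.A, tu1_M, hc, fl, flC]
      refine ⟨⟨?_, ?_⟩, ?_⟩
      · simp [tu1_e, prX]
      · simp [tu1_e, prY1, prY, prV]
      · simp [tu1_e, prQ, prY]
    have hB : tu1_e ∉ (tu1_M ψ).B j := by
      intro h
      have h2 := h.2
      simp only [tu1_M, ha, fl, flA] at h2
      have h3 := h2.1
      simp [tu1_e, prV] at h3
    have h1 : (Finsupp.single j tu1_e : Lab L →₀ FE ℚ ℚ ℚ) ∈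
        (tu1_M ψ).ev ((Tm.U1 Z ψ j).vars ∪ (Tm.bot : Tm L).vars) (Tm.U1 Z ψ j) := by
      simp only [Tm.U1, Str.ev]
      refine Submodule.mem_sup_left ?_
      intro k
      refine ⟨fun hk => ?_, fun hk => ?_⟩
      · have : k = j := by simpa using hk
        subst this
        simp only [Finsupp.single_eq_same]
        refine Submodule.mem_sup_right ⟨?_, hA⟩
        show tu1_e ∈ (tu1_M ψ).u Z ψ
        rw [hu]
        exact Submodule.mem_top
      · have : k ≠ j := by simpa using hk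
        exact Finsupp.single_eq_of_ne this
    have h2 := hle h1
    simp only [Tm.bot, Str.ev] at h2
    have h3 : box (∅ : Finset (Lab L)) (fun j => (tu1_M ψ).B j ⊔
        ((tu1_M ψ).un (Un.u ∅ fun _ => V5.o) ⊓ (tu1_M ψ).A j)) ≤
        box ((Tm.U1 Z ψ j).vars ∪ (Tm.base ∅ fun _ => Un.u ∅ fun _ => V5.o : Tm L).vars)
          (tu1_M ψ).B := by
      intro v hv k
      have : v k = 0 := (hv k).2 (by simp)
      refine ⟨fun _ => by rw [this]; exact Submodule.zero_mem _, fun _ => this⟩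
    rw [sup_eq_right.2 h3] at h2
    have h4 := (h2 j).1 (by simp [Tm.U1, Tm.vars])
    simp only [Finsupp.single_eq_same] at h4
    exact hB h4

end Pool.NF
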