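import Pool.Agent.Work.MP_b103ef_pos.Interface3

set_option autoImplicit false

open Classical

namespace Pool.NF

theorem blk_ULB (hPTP : Stmt_PTP) : Stmt_ULB := by
  intro L _ Z₀ χ h
  obtain ⟨U, hU⟩ : ∃ U : Ultrafilter (Finset L), (U : Filter (Finset L)) ≤ Filter.atTop :=
    ⟨Ultrafilter.of Filter.atTop, Ultrafilter.of_le _⟩
  have hlim : ∀ x : L, ∃ v : V5, ∀ᶠ Z in (U : Filter (Finset L)), χ Z x = v := by
    intro x
    obtain ⟨v, hv⟩ := (U.map fun Z => χ Z x).eq_pure_of_finite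
    refine ⟨v, ?_⟩
    have h1 : ({v} : Set V5) ∈ (U.map fun Z => χ Z x) := by
      rw [hv]
      exact Set.mem_singleton v
    exact h1
  choose φ hφ using hlim
  have hsub : ∀ Z₁ : Finset L, ∀ᶠ Z in (U : Filter (Finset L)), Z₁ ⊆ Z := fun Z₁ =>
    hU (Filter.eventually_ge_atTop Z₁)
  have heq : ∀ Z₁ : Finset L, ∀ᶠ Z in (U : Filter (Finset L)), Set.EqOn (χ Z) φ ↑Z₁ := by
    intro Z₁
    have h1 : ∀ᶠ Z in (U : Filter (Finset L)), ∀ x ∈ Z₁, χ Z x = φ x :=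
      (Filter.eventually_all_finset Z₁).2 fun x _ => hφ x
    filter_upwards [h1] with Z hZ x hx
    exact hZ x hx
  have hhom : IsHom φ := by
    have key : ∀ x y : L, φ (x ⊔ y) = φ x ⊔ φ y ∧ φ (x ⊓ y) = φ x ⊓ φ y := by
      intro x y
      have h1 := ((hsub {x, y, x ⊔ y, x ⊓ y}).and (heq {x, y, x ⊔ y, x ⊓ y})).and (hsub Z₀)
      obtain ⟨Z, ⟨hZ1, hZ2⟩, hZ3⟩ := h1.exists
      obtain ⟨φ', hφ', hr⟩ := h Z hZ3
      have hx : x ∈ Z := hZ1 (by simp)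
      have hy : y ∈ Z := hZ1 (by simp)
      have hj : x ⊔ y ∈ Z := hZ1 (by simp)
      have hm : x ⊓ y ∈ Z := hZ1 (by simp)
      have h2 := (hPTP L φ' hφ').2.2 (↑Z : Set L) (χ Z) hr x hx y hy
      have e1 : χ Z x = φ x := hZ2 (by simp)
      have e2 : χ Z y = φ y := hZ2 (by simp)
      have e3 : χ Z (x ⊔ y) = φ (x ⊔ y) := hZ2 (by simp)
      have e4 : χ Z (x ⊓ y) = φ (x ⊓ y) := hZ2 (by simp)
      refine ⟨?_, ?_⟩
      · rw [← e1, ← e2, ← e3]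
        exact h2.1 hj
      · rw [← e1, ← e2, ← e4]
        exact h2.2 hm
    exact ⟨fun x y => (key x y).1, fun x y => (key x y).2⟩
  refine ⟨φ, hhom, ?_⟩
  have hor : ∀ᶠ Z : Finset L in (U : Filter (Finset L)),
      IsV (↑Z : Set L) (χ Z) ∨ Hit (↑Z : Set L) (χ Z) := by
    filter_upwards [hsub Z₀] with Z hZ
    obtain ⟨φ', _, hr⟩ := h Z hZ
    rcases hr with hr | hr
    · exact Or.inr hr.1
    · exact Or.inl hr.1
  rcases Ultrafilter.eventually_or.1 hor with hv | hv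
  · left
    intro Z₁
    obtain ⟨Z, ⟨⟨hZ1, hZ2⟩, hZ3⟩, hZ4⟩ :=
      ((((hsub Z₁).and (hsub Z₀)).and hv).and (heq Z₁)).exists
    exact ⟨Z, hZ1, hZ2, hZ3, hZ4⟩
  · right
    intro Z₁
    obtain ⟨Z, ⟨⟨hZ1, hZ2⟩, hZ3⟩, hZ4⟩ :=
      ((((hsub Z₁).and (hsub Z₀)).and hv).and (heq Z₁)).exists
    exact ⟨Z, hZ1, hZ2, hZ3, hZ4⟩

end Pool.NF
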