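import Pool.Agent.Work.MP_b103ef_pos.Interface3

set_option autoImplicit false

open Classical

namespace Pool.NF

/-- a pair that is not collapsed is not closed at some point -/
theorem ULT_pt {L : Type} [Lattice L] (D : KData L) (r : D.K → D.K → Prop) (hr : IsCon r)
    (α β : Tm L) (hα : α.Over Set.univ) (hβ : β.Over Set.univ) (h : ¬ InC D r α β) :
    ∃ φ : L → V5, IsPt φ ∧ NCs Set.univ φ α β := by
  by_contra hcon
  apply h
  have h1 : TLe α β := by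
    intro φ hφ hn
    exact hcon ⟨φ, hφ, hn⟩
  have h2 : D.q α ≤ D.q β := (D.le_iff α β hα hβ).2 h1
  have h3 : D.q α ⊓ D.q β = D.q α := inf_eq_left.2 h2
  unfold InC
  rw [h3]
  exact hr.1.refl _

theorem blk_ULT (hULB : Stmt_ULB) (hKL1 : Stmt_KL1) (hKLE : Stmt_KLE) (hTRX : Stmt_TRX)
    (hNCI : Stmt_NCI) (hNCH : Stmt_NCH) (hPTP : Stmt_PTP) (hOVR : Stmt_OVR) : Stmt_ULT := by
  intro L _ hE D r hr α β hα hβ hyp
  by_contra hnot
  obtain ⟨Za, _, hZa⟩ := (hOVR L α).2.2.1 Set.univ hα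
  obtain ⟨Zb, _, hZb⟩ := (hOVR L β).2.2.1 Set.univ hβ
  have mono : ∀ (γ : Tm L) (S S' : Set L), S ⊆ S' → γ.Over S → γ.Over S' :=
    fun γ S S' h1 h2 => (hOVR L γ).2.1 S S' h1 h2
  set Z₀ : Finset L := Za ∪ Zb with hZ₀
  have hα0 : α.Over (↑Z₀ : Set L) := mono α _ _ (by
    rw [hZ₀]; exact Finset.coe_subset.2 Finset.subset_union_left) hZa
  have hβ0 : β.Over (↑Z₀ : Set L) := mono β _ _ (by
    rw [hZ₀]; exact Finset.coe_subset.2 Finset.subset_union_right) hZb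
  -- the types `χ Z`
  have hex : ∀ Z : Finset L, ∃ χ : L → V5, Z₀ ⊆ Z →
      NCs (↑Z : Set L) χ α β ∧ ¬ TEv D r Z χ := by
    intro Z
    by_cases hZ : Z₀ ⊆ Z
    · by_contra hcon
      apply hnot
      refine hKLE L hE D r hr Z α β (mono α _ _ (Finset.coe_subset.2 hZ) hα0)
        (mono β _ _ (Finset.coe_subset.2 hZ) hβ0) ?_
      intro χ hχ
      by_contra ht
      exact hcon ⟨χ, fun _ => ⟨hχ, ht⟩⟩
    · exact ⟨fun _ => V5.o, fun h => absurd h hZ⟩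
  choose χ hχ using hex
  -- they lie below homomorphisms
  have hrel : ∀ Z : Finset L, Z₀ ⊆ Z → ∃ φ : L → V5, IsHom φ ∧ Rel (↑Z : Set L) (χ Z) φ := by
    intro Z hZ
    have h1 := (hχ Z hZ).2
    have h2 : ∃ j : Lab L, LOver (↑Z : Set L) j ∧ ¬ TIn D r Z (χ Z) j := by
      by_contra hcon
      apply h1
      refine ⟨∅, fun j _ hj => ?_⟩
      by_contra hn
      exact hcon ⟨j, hj, hn⟩
    obtain ⟨j, hj, hnT⟩ := h2
    have hju : LOver (Set.univ : Set L) j := ⟨Set.mem_univ _, Set.mem_univ _⟩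
    have hT1 : (Tm.T1 Z (χ Z) j).Over (Set.univ : Set L) := by
      intro j' hj'
      rw [Finset.mem_singleton] at hj'
      rw [hj']
      exact ⟨hju, Set.subset_univ _⟩
    have hT0 : (Tm.T0 Z (χ Z) j).Over (Set.univ : Set L) := by
      intro j' hj'
      rw [Finset.mem_singleton] at hj'
      rw [hj']
      exact ⟨hju, Set.subset_univ _⟩
    have hU1 : (Tm.U1 Z (χ Z) j).Over (Set.univ : Set L) := by
      intro j' hj'
      rw [Finset.mem_singleton] at hj'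
      rw [hj']
      exact ⟨hju, Set.subset_univ _⟩
    have hbot : (Tm.bot : Tm L).Over (Set.univ : Set L) := by
      intro j' hj'
      exact absurd hj' (Finset.notMem_empty _)
    unfold TIn at hnT
    rw [not_and_or] at hnT
    rcases hnT with hnT | hnT
    · push Not at hnT
      obtain ⟨hV, _, _, hn⟩ := hnT
      obtain ⟨φ, hpt, hnc⟩ := ULT_pt D r hr _ _ hT1 hT0 hn
      have h3 := (hTRX L hE Z (χ Z) j hj Set.univ φ (Set.subset_univ _) hpt.2.2).1 hV hnc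
      exact ⟨φ, ⟨hpt.1, hpt.2.1⟩, h3.1⟩
    · push Not at hnT
      obtain ⟨hH, _, _, hn⟩ := hnT
      obtain ⟨φ, hpt, hnc⟩ := ULT_pt D r hr _ _ hU1 hbot hn
      have h3 := (hTRX L hE Z (χ Z) j hj Set.univ φ (Set.subset_univ _) hpt.2.2).2 hH hnc
      exact ⟨φ, ⟨hpt.1, hpt.2.1⟩, Or.inl ⟨hH, h3.2⟩⟩
  obtain ⟨φ, hhom, hlim⟩ := hULB L Z₀ χ hrel
  -- independence of the set, and of the values outside
  have nci : ∀ (Z S : Set L) (ψ : L → V5) (γ δ : Tm L), Z ⊆ S → γ.Over Z → δ.Over Z →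
      (IsV S ψ ∨ Hit Z ψ) → (NCs Z ψ γ δ ↔ NCs S ψ γ δ) := by
    intro Z S ψ γ δ hZS hγ hδ h
    exact (hNCI L hE Z S ψ γ δ (max γ.rank δ.rank) hZS hγ hδ (le_max_left _ _)
      (le_max_right _ _)).2.2.2 h
  have ncc : ∀ (Z : Set L) (ψ ψ' : L → V5) (γ δ : Tm L), γ.Over Z → δ.Over Z →
      Set.EqOn ψ ψ' Z → (NCs Z ψ γ δ ↔ NCs Z ψ' γ δ) := by
    intro Z ψ ψ' γ δ hγ hδ h
    exact (hNCI L hE Z Z ψ γ δ (max γ.rank δ.rank) (le_refl _) hγ hδ (le_max_left _ _)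
      (le_max_right _ _)).2.2.1 ψ' h
  -- the closing step
  have fin : ∀ (φ₁ : L → V5) (Z₃ : Finset L), IsPt φ₁ → NCs Set.univ φ₁ α β →
      (Hit Set.univ φ₁ → Hit (↑Z₃ : Set L) φ₁) →
      (∀ Z₂ : Finset L, Z₃ ⊆ Z₂ → ∀ α' β' : Tm L, α'.Over (↑Z₂ : Set L) →
        β'.Over (↑Z₂ : Set L) → NCs (↑Z₂ : Set L) φ₁ α' β' →
        ∃ Z : Finset L, Z₀ ⊆ Z ∧ Z₂ ⊆ Z ∧ NCs (↑Z : Set L) (χ Z) α' β') → False := by
    intro φ₁ Z₃ hpt hnc hhit hcl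
    obtain ⟨α', β', hα', hβ', hin, hnc'⟩ := hyp φ₁ hpt hnc
    obtain ⟨Z4, _, hZ4⟩ := (hOVR L α').2.2.1 Set.univ hα'
    obtain ⟨Z5, _, hZ5⟩ := (hOVR L β').2.2.1 Set.univ hβ'
    have h31 : Z₃ ⊆ Z₃ ∪ (Z4 ∪ Z5) := Finset.subset_union_left
    have h41 : Z4 ⊆ Z₃ ∪ (Z4 ∪ Z5) :=
      Finset.subset_union_left.trans Finset.subset_union_right
    have h51 : Z5 ⊆ Z₃ ∪ (Z4 ∪ Z5) :=
      Finset.subset_union_right.trans Finset.subset_union_right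
    have hα2 := mono α' _ _ (Finset.coe_subset.2 h41) hZ4
    have hβ2 := mono β' _ _ (Finset.coe_subset.2 h51) hZ5
    have hcase : IsV Set.univ φ₁ ∨ Hit (↑(Z₃ ∪ (Z4 ∪ Z5)) : Set L) φ₁ := by
      rcases hpt.2.2 with h | h
      · exact Or.inl h
      · right
        obtain ⟨⟨x, hx, hx'⟩, ⟨y, hy, hy'⟩, ⟨z, hz, hz'⟩⟩ := hhit h
        exact ⟨⟨x, Finset.coe_subset.2 h31 hx, hx'⟩, ⟨y, Finset.coe_subset.2 h31 hy, hy'⟩,
          ⟨z, Finset.coe_subset.2 h31 hz, hz'⟩⟩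
    have hnc2 : NCs (↑(Z₃ ∪ (Z4 ∪ Z5)) : Set L) φ₁ α' β' :=
      (nci _ Set.univ φ₁ α' β' (Set.subset_univ _) hα2 hβ2 hcase).2 hnc'
    obtain ⟨Z, hZ0, hZ2, hncZ⟩ := hcl _ h31 α' β' hα2 hβ2 hnc2
    exact (hχ Z hZ0).2 (hKL1 L hE D r hr Z α' β' (mono α' _ _ (Finset.coe_subset.2 hZ2) hα2)
      (mono β' _ _ (Finset.coe_subset.2 hZ2) hβ2) hin (χ Z) hncZ)
  rcases hlim with hlim | hlim
  · -- vertex types
    have hVφ : IsV (Set.univ : Set L) φ := by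
      intro x _
      obtain ⟨Z, hZ1, _, hV, heq⟩ := hlim {x}
      have h1 : χ Z x = φ x := heq (by simp)
      rw [← h1]
      exact hV x (hZ1 (by simp))
    have hpt : IsPt φ := ⟨hhom.1, hhom.2, Or.inl hVφ⟩
    have hnc : NCs Set.univ φ α β := by
      obtain ⟨Z, _, hZ0, hV, heq⟩ := hlim Z₀
      have h1 := (hχ Z hZ0).1
      have h2 : NCs (↑Z₀ : Set L) (χ Z) α β :=
        (nci _ (↑Z : Set L) (χ Z) α β (Finset.coe_subset.2 hZ0) hα0 hβ0 (Or.inl hV)).2 h1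
      have h3 : NCs (↑Z₀ : Set L) φ α β := (ncc _ (χ Z) φ α β hα0 hβ0 heq).1 h2
      exact (nci _ Set.univ φ α β (Set.subset_univ _) hα0 hβ0 (Or.inl hVφ)).1 h3
    refine fin φ ∅ hpt hnc ?_ ?_
    · rintro ⟨⟨x, _, hx⟩, _⟩
      rcases hVφ x (Set.mem_univ _) with h | h <;> rw [hx] at h <;> simp at h
    · intro Z₂ _ α' β' hα' hβ' hn
      obtain ⟨Z, hZ2, hZ0, hV, heq⟩ := hlim Z₂
      refine ⟨Z, hZ0, hZ2, ?_⟩
      have h2 : NCs (↑Z₂ : Set L) (χ Z) α' β' := (ncc _ (χ Z) φ α' β' hα' hβ' heq).2 hn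
      exact (nci _ (↑Z : Set L) (χ Z) α' β' (Finset.coe_subset.2 hZ2) hα' hβ' (Or.inl hV)).1 h2
  · -- hitting types
    by_cases hH : Hit (Set.univ : Set L) φ
    · have hpt : IsPt φ := ⟨hhom.1, hhom.2, Or.inr hH⟩
      obtain ⟨⟨x, _, hx⟩, ⟨y, _, hy⟩, ⟨z, _, hz⟩⟩ := hH
      have hhit : ∀ Z₂ : Finset L, Z₀ ∪ {x, y, z} ⊆ Z₂ → Hit (↑Z₂ : Set L) φ := by
        intro Z₂ h
        exact ⟨⟨x, h (by simp), hx⟩, ⟨y, h (by simp), hy⟩, ⟨z, h (by simp), hz⟩⟩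
      have hhit' : ∀ (Z₂ : Finset L) (ψ : L → V5), Set.EqOn ψ φ ↑Z₂ → Hit (↑Z₂ : Set L) φ →
          Hit (↑Z₂ : Set L) ψ := by
        rintro Z₂ ψ he ⟨⟨x, h1, hx⟩, ⟨y, h2, hy⟩, ⟨z, h3, hz⟩⟩
        exact ⟨⟨x, h1, (he h1).trans hx⟩, ⟨y, h2, (he h2).trans hy⟩, ⟨z, h3, (he h3).trans hz⟩⟩
      have hsub0 : Z₀ ⊆ Z₀ ∪ {x, y, z} := Finset.subset_union_left
      have hα1 := mono α _ _ (Finset.coe_subset.2 hsub0) hα0
      have hβ1 := mono β _ _ (Finset.coe_subset.2 hsub0) hβ0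
      have hnc : NCs Set.univ φ α β := by
        obtain ⟨Z, hZ1, hZ0, _, heq⟩ := hlim (Z₀ ∪ {x, y, z})
        have h1 := (hχ Z hZ0).1
        have h2 : NCs (↑(Z₀ ∪ {x, y, z}) : Set L) (χ Z) α β :=
          (nci _ (↑Z : Set L) (χ Z) α β (Finset.coe_subset.2 hZ1) hα1 hβ1
            (Or.inr (hhit' _ _ heq (hhit _ (le_refl _))))).2 h1
        have h3 : NCs (↑(Z₀ ∪ {x, y, z}) : Set L) φ α β := (ncc _ (χ Z) φ α β hα1 hβ1 heq).1 h2
        exact (nci _ Set.univ φ α β (Set.subset_univ _) hα1 hβ1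
          (Or.inr (hhit _ (le_refl _)))).1 h3
      refine fin φ (Z₀ ∪ {x, y, z}) hpt hnc (fun _ => hhit _ (le_refl _)) ?_
      intro Z₂ h2 α' β' hα' hβ' hn
      obtain ⟨Z, hZ2, hZ0, _, heq⟩ := hlim Z₂
      refine ⟨Z, hZ0, hZ2, ?_⟩
      have h3 : NCs (↑Z₂ : Set L) (χ Z) α' β' := (ncc _ (χ Z) φ α' β' hα' hβ' heq).2 hn
      exact (nci _ (↑Z : Set L) (χ Z) α' β' (Finset.coe_subset.2 hZ2) hα' hβ'
        (Or.inr (hhit' _ _ heq (hhit _ h2)))).1 h3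
    · -- the limit does not hit
      have hP := hPTP L φ hhom
      have hcomp : ∀ (g : V5 → V5) (Z₂ : Finset L) (ψ : L → V5), Set.EqOn ψ φ ↑Z₂ →
          Set.EqOn (g ∘ ψ) (g ∘ φ) ↑Z₂ := by
        intro g Z₂ ψ he w hw
        exact congrArg g (he hw)
      -- closing for a projection
      have clos : ∀ g : V5 → V5, IsHom (g ∘ φ) → IsV (Set.univ : Set L) (g ∘ φ) →
          (∃ Z : Finset L, Set.EqOn (χ Z) φ ↑Z₀ ∧ NCs (↑Z₀ : Set L) (g ∘ χ Z) α β) →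
          (∀ (Z₂ Z : Finset L), Z₂ ⊆ Z → Hit (↑Z : Set L) (χ Z) → Set.EqOn (χ Z) φ ↑Z₂ →
            ∀ α' β' : Tm L, α'.Over (↑Z₂ : Set L) → β'.Over (↑Z₂ : Set L) →
            NCs (↑Z₂ : Set L) (g ∘ χ Z) α' β' → NCs (↑Z : Set L) (χ Z) α' β') → False := by
        intro g hgh hgV hex hcl
        have hpt : IsPt (g ∘ φ) := ⟨hgh.1, hgh.2, Or.inl hgV⟩
        have hnc : NCs Set.univ (g ∘ φ) α β := by
          obtain ⟨Z, heq, hn⟩ := hex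
          have h3 : NCs (↑Z₀ : Set L) (g ∘ φ) α β :=
            (ncc _ (g ∘ χ Z) (g ∘ φ) α β hα0 hβ0 (hcomp g _ _ heq)).1 hn
          exact (nci _ Set.univ (g ∘ φ) α β (Set.subset_univ _) hα0 hβ0 (Or.inl hgV)).1 h3
        refine fin (g ∘ φ) ∅ hpt hnc ?_ ?_
        · rintro ⟨⟨x, _, hx⟩, _⟩
          rcases hgV x (Set.mem_univ _) with h | h <;> rw [hx] at h <;> simp at h
        · intro Z₂ _ α' β' hα' hβ' hn
          obtain ⟨Z, hZ2, hZ0, hHZ, heq⟩ := hlim Z₂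
          refine ⟨Z, hZ0, hZ2, ?_⟩
          refine hcl Z₂ Z hZ2 hHZ heq α' β' hα' hβ' ?_
          exact (ncc _ (g ∘ χ Z) (g ∘ φ) α' β' hα' hβ' (hcomp g _ _ heq)).2 hn
      obtain ⟨Z, _, hZ0, hHZ, heqZ⟩ := hlim Z₀
      have hncZ := (hχ Z hZ0).1
      have hN := fun (Z₂ Z : Finset L) (h2 : Z₂ ⊆ Z) (hh : Hit (↑Z : Set L) (χ Z))
          (α' β' : Tm L) (h4 : α'.Over (↑Z₂ : Set L)) (h5 : β'.Over (↑Z₂ : Set L)) =>
        hNCH L hE (↑Z₂ : Set L) (↑Z : Set L) (χ Z) α' β' (Finset.coe_subset.2 h2) hh h4 h5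
      have clp : NCs (↑Z₀ : Set L) (pp ∘ χ Z) α β → False := fun hn =>
        clos pp hP.1.1 (hP.2.1 _).1 ⟨Z, heqZ, hn⟩ fun Z₂ Z h2 hh _ α' β' h4 h5 h6 =>
          (hN Z₂ Z h2 hh α' β' h4 h5).2.2.1 h6
      have clq : NCs (↑Z₀ : Set L) (pq ∘ χ Z) α β → False := fun hn =>
        clos pq hP.1.2.1 (hP.2.1 _).2.1 ⟨Z, heqZ, hn⟩ fun Z₂ Z h2 hh _ α' β' h4 h5 h6 =>
          (hN Z₂ Z h2 hh α' β' h4 h5).2.2.2 h6
      by_cases hc : ∀ z, φ z ≠ V5.c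
      · have h1 := ((hN Z₀ Z hZ0 hHZ α β hα0 hβ0).1 (fun z hz => by
          rw [heqZ hz]; exact hc z)).1 hncZ
        rcases h1 with h1 | h1 | h1
        · exact clp h1
        · refine clos ps (hP.1.2.2 hc) (hP.2.1 _).2.2 ⟨Z, heqZ, h1⟩ ?_
          intro Z₂ Z h2 hh he α' β' h4 h5 h6
          exact ((hN Z₂ Z h2 hh α' β' h4 h5).1 (fun z hz => by
            rw [he hz]; exact hc z)).2 (Or.inr (Or.inl h6))
        · exact clq h1
      · have hab : (∀ z, φ z ≠ V5.b) ∨ (∀ z, φ z ≠ V5.a) := by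
          by_contra hcon
          rw [not_or] at hcon
          obtain ⟨h1, h2⟩ := hcon
          push Not at h1 h2 hc
          obtain ⟨y, hy⟩ := h1
          obtain ⟨x, hx⟩ := h2
          obtain ⟨z, hz⟩ := hc
          exact hH ⟨⟨x, Set.mem_univ _, hx⟩, ⟨y, Set.mem_univ _, hy⟩, ⟨z, Set.mem_univ _, hz⟩⟩
        have h1 := ((hN Z₀ Z hZ0 hHZ α β hα0 hβ0).2.1 (by
          rcases hab with h | h
          · exact Or.inl fun z hz => by rw [heqZ hz]; exact h z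
          · exact Or.inr fun z hz => by rw [heqZ hz]; exact h z)).1 hncZ
        rcases h1 with h1 | h1
        · exact clp h1
        · exact clq h1

end Pool.NF
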