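import Pool.Agent.Work.MP_b103ef_pos.Interface1

/-! # Block VDC (helper53): `V_n` is closed under direct sums -/

set_option autoImplicit false

open Classical

namespace Pool.NF

theorem VDC_ax (hO : Stmt_OVR) (hD : Stmt_DSM) (hE : Stmt_EDEC) {L : Type} (PV : VCls L)
    {E ι : Type} [AddCommGroup E] [Module ℚ E] {F : ι → Type} [∀ a, AddCommGroup (F a)]
    [∀ a, Module ℚ (F a)] (D : Dec E ι F) (Ms : ∀ a, Str L (F a)) (σ : Tm L)
    (Γ : ∀ a, Submodule ℚ (Lab L →₀ F a)) (hσ : σ.Over Set.univ)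
    (h : ∀ a, VAx PV (Ms a) σ (Γ a)) :
    VAx PV (D.sum Ms) σ (⨅ a, (Γ a).comap (lift (D.pr a))) := by
  cases σ with
  | base F g => trivial
  | inf α β => trivial
  | sup α β => trivial
  | lk Z r j α β =>
    obtain ⟨hZ, hα, hβ, hj⟩ := hσ
    have hαu : α.Over Set.univ := (hO L α).2.1 _ _ (Set.subset_univ _) hα
    have hβu : β.Over Set.univ := (hO L β).2.1 _ _ (Set.subset_univ _) hβ
    have hEv := fun G => (hE L E ι F D Ms G).2.1
    obtain ⟨hD1, -, hD3⟩ := hD (Lab L) E ι F D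
    have h1 : Tm.Over (Tm.T1 Z r j) (Set.univ : Set L) := fun _ _ =>
      ⟨⟨Set.mem_univ _, Set.mem_univ _⟩, Set.subset_univ _⟩
    have h0 : Tm.Over (Tm.T0 Z r j) (Set.univ : Set L) := fun _ _ =>
      ⟨⟨Set.mem_univ _, Set.mem_univ _⟩, Set.subset_univ _⟩
    refine ⟨fun hL => ?_, fun hL => ?_⟩
    · have hI := fun a => (h a).1 hL
      rw [hEv _ _ hαu, hEv _ _ hβu, hEv _ _ h1, hEv _ _ h0, (hD1 _ _).2.1]
      refine ⟨⟨?_, ?_⟩, ?_, ?_⟩
      · rw [(hD1 _ _).1, (hD1 _ _).2.1, (hD1 _ _).1]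
        exact iInf_congr fun a => by rw [(hI a).1.1]
      · rw [(hD1 _ _).1, (hD1 _ _).1]
        exact iInf_congr fun a => by rw [(hI a).1.2]
      · rw [(hD1 _ _).1, (hD1 _ _).2.1, (hD1 _ _).1]
        exact iInf_congr fun a => by rw [(hI a).2.1]
      · rw [(hD1 _ _).1, (hD1 _ _).1]
        exact iInf_congr fun a => by rw [(hI a).2.2]
    · have hI := fun a => (h a).2 hL
      rw [← hD3]
      exact iInf_congr fun a => by rw [hI a]
  | ek Z ψ j α β =>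
    obtain ⟨hZ, hα, hβ, hj⟩ := hσ
    have hαu : α.Over Set.univ := (hO L α).2.1 _ _ (Set.subset_univ _) hα
    show _ = _
    rw [(hE L E ι F D Ms _).2.1 _ hαu]
    exact iInf_congr fun a => by rw [show Γ a = _ from h a]

theorem VDC_bot {E ι : Type} [AddCommGroup E] [Module ℚ E] {F : ι → Type}
    [∀ a, AddCommGroup (F a)] [∀ a, Module ℚ (F a)] (D : Dec E ι F)
    (U : ∀ a, Submodule ℚ (F a)) (hU : ∀ a, U a = ⊥) : (⨅ a, (U a).comap (D.pr a)) = ⊥ := by
  rw [eq_bot_iff]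
  intro v hv
  rw [Submodule.mem_iInf] at hv
  refine (Submodule.mem_bot ℚ).2 (D.ext v fun a => ?_)
  have := hv a
  rw [hU a] at this
  exact (Submodule.mem_bot ℚ).1 this

theorem blk_VDC (hO : Stmt_OVR) (hD : Stmt_DSM) (hE : Stmt_EDEC) : Stmt_VDC := by
  intro L S ρ n E ι _ _ F _ _ D Ms
  refine ⟨?_, fun σ Γ hσ h => VDC_ax hO hD hE (VG n) D Ms σ Γ hσ h⟩
  induction n with
  | zero =>
    intro h
    refine ⟨fun i hi => ⟨fun hρ => ⟨?_, ?_⟩, fun hρ => ⟨?_, ?_⟩⟩, fun Z hZ ψ => ?_⟩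
    · exact iInf_congr fun a => congrArg (Submodule.comap (D.pr a)) (((h a).1 i hi).1 hρ).1
    · show (⨅ a, ((Ms a).x i 2).comap (D.pr a)) = ⊤
      rw [iInf_eq_top]
      intro a
      rw [(((h a).1 i hi).1 hρ).2, Submodule.comap_top]
    · exact VDC_bot D _ fun a => (((h a).1 i hi).2 hρ).1
    · exact iInf_congr fun a => congrArg (Submodule.comap (D.pr a)) (((h a).1 i hi).2 hρ).2
    · exact VDC_bot D _ fun a => (h a).2 Z hZ ψ
  | succ n ih =>
    intro h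
    refine ⟨ih fun a => (h a).1, fun σ hσ hr => ?_⟩
    exact VDC_ax hO hD hE (VG n) D Ms σ _ ((hO L σ).2.1 _ _ (Set.subset_univ _) hσ)
      fun a => (h a).2 σ hσ hr

end Pool.NF
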