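import Pool.Agent.Work.MP_b103ef_pos.Interface2

/-! # Block VFR (helper7) -/

set_option autoImplicit false

open Classical

namespace Pool.NF

theorem VFR_agree {L E : Type} [AddCommGroup E] [Module ℚ E] (S : Set L) (n : ℕ)
    (M : Str L E) : Str.Agree S n M M :=
  ⟨fun _ _ _ => rfl, fun _ _ _ => rfl, fun _ _ _ _ => rfl⟩

theorem VFR_hom (hOVR : Stmt_OVR) {L E F : Type} [AddCommGroup E] [Module ℚ E]
    [AddCommGroup F] [Module ℚ F] (S : Set L) (n : ℕ) (M : Str L E) (M' : Str L F)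
    (f : E →ₗ[ℚ] F) (h : Str.Hom Set.univ n M M' f) : Str.Hom S n M M' f := by
  refine ⟨fun i _ l => h.1 i (Set.mem_univ i) l,
    fun Z _ ψ => h.2.1 Z (Set.subset_univ _) ψ, ?_⟩
  intro σ hs ho hr
  exact h.2.2 σ hs ((hOVR L σ).2.1 S Set.univ (Set.subset_univ S) ho) hr

theorem VFR_retract (hRET : Stmt_RET) (hOVR : Stmt_OVR) {L : Type} {n : ℕ} {S : Set L}
    {ρ : L → V5} {κ : Cardinal.{0}} {E : Type} [AddCommGroup E] [Module ℚ E] (M : Str L E)
    (hM : VFull κ n S ρ M) (F : Type) [AddCommGroup F] [Module ℚ F] (M' : Str L F)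
    (inc : E →ₗ[ℚ] F) (pr : F →ₗ[ℚ] E) (h1 : ∀ v, pr (inc v) = v)
    (h2 : Str.Hom S n M M' inc) (h3 : Str.Hom S n M' M pr) : VFull κ n S ρ M' := by
  intro α β ha hb hra hrb hNC
  have h4 := hM α β ha hb hra hrb hNC
  refine h4.trans ?_
  refine ((hRET L S n F E M' M inc pr h1 h2 h3).2 α β ha hb hra hrb).2 _ ?_
  intro j hj
  rcases Finset.mem_union.mp hj with h | h
  · exact (hOVR L α).1 S ha j h
  · exact (hOVR L β).1 S hb j h

theorem blk_VFR (hSUPV : Stmt_SUPV) (hVMO : Stmt_VMO) (hRET : Stmt_RET) (hEPR : Stmt_EPR)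
    (hOVR : Stmt_OVR) : Stmt_VFR := by
  intro L n S ρ κ E _ _ M hM
  refine ⟨?_, ?_, ?_, ?_⟩
  · intro Z hEV hV hZ α β ha hb hra hrb hNC
    have ha' := (hOVR L α).2.1 Z S hZ ha
    have hb' := (hOVR L β).2.1 Z S hZ hb
    exact hM α β ha' hb' hra hrb
      ((hSUPV L n hEV n Z S ρ (le_refl n) hZ hV α β ha hb hra hrb).mp hNC)
  · intro ρ' hρ α β ha hb hra hrb hNC
    obtain ⟨E', i1, i2, M', hM', hL⟩ := hNC
    refine hM α β ha hb hra hrb ⟨E', i1, i2, M', ?_, hL⟩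
    exact hVMO L S S ρ' ρ n n E' M' M' hM' (le_refl n) (Set.Subset.refl S)
      (fun x hx => (hρ hx).symm) (VFR_agree S n M')
  · intro F _ _ M'
    have h := hEPR L F E M' M n
    exact VFR_retract hRET hOVR M hM (F × E) (M'.prod M) (LinearMap.inr ℚ F E)
      (LinearMap.snd ℚ F E) (fun v => rfl) (VFR_hom hOVR S n _ _ _ h.2.2.1)
      (VFR_hom hOVR S n _ _ _ h.2.2.2.1)
  · intro F _ _ M' inc pr h1 h2 h3
    exact VFR_retract hRET hOVR M hM F M' inc pr h1 h2 h3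

end Pool.NF
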