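import Pool.Agent.Work.MP_b103ef_pos.Interface2

/-! # Block VFU (helper52): full vertex structures exist -/

set_option autoImplicit false

open Classical

namespace Pool.NF

theorem VFU_over {L : Type} {S : Set L} : ∀ α : Tm L, α.Over S → α.Over Set.univ
  | .base F g, h => fun j hj => by
      refine ⟨⟨trivial, trivial⟩, ?_⟩
      cases g j <;> simp [Un.Over]
  | .inf α β, h => ⟨VFU_over α h.1, VFU_over β h.2⟩
  | .sup α β, h => ⟨VFU_over α h.1, VFU_over β h.2⟩
  | .lk Z r j α β, h => ⟨Set.subset_univ _, h.2.1, h.2.2.1, h.2.2.2⟩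
  | .ek Z ψ j α β, h => ⟨Set.subset_univ _, h.2.1, h.2.2.1, h.2.2.2⟩

theorem blk_VFU (h1 : Stmt_VDC) (h2 : Stmt_EDEC) (h3 : Stmt_DPI) (h4 : Stmt_CRD) : Stmt_VFU := by
  intro L S ρ n
  let I : Type := {p : Tm L × Tm L //
    (p.1.Over S ∧ p.2.Over S ∧ p.1.rank ≤ n ∧ p.2.rank ≤ n) ∧ NC (VG n) S ρ p.1 p.2}
  choose E0 iA iM M0 hV hL using (fun p : I => p.2.2)
  refine ⟨max Cardinal.aleph0 (max (Cardinal.mk (Lab L)) (max (Cardinal.mk I)
    (iSup fun p : I => Cardinal.mk (E0 p)))), fun κ hκ => ?_⟩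
  have k0 : Cardinal.aleph0 ≤ κ := (le_max_left _ _).trans hκ
  have k1 : Cardinal.mk (Lab L) ≤ κ :=
    ((le_max_left _ _).trans (le_max_right _ _)).trans hκ
  have k2 : Cardinal.mk I ≤ κ :=
    (((le_max_left _ _).trans (le_max_right _ _)).trans (le_max_right _ _)).trans hκ
  have k3 : ∀ p : I, Cardinal.mk (E0 p) ≤ κ := fun p =>
    (((le_ciSup (Cardinal.bddAbove_of_small) p).trans (le_max_right _ _)).trans
      ((le_max_right _ _).trans (le_max_right _ _))).trans hκ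
  let ι : Type := I × κ.out
  let F : ι → Type := fun a => E0 a.1
  let iF : ∀ a, AddCommGroup (F a) := fun a => iA a.1
  let iF' : ∀ a, Module ℚ (F a) := fun a => iM a.1
  have kι : Cardinal.mk ι ≤ κ := by
    have : Cardinal.mk ι = Cardinal.mk I * κ := by
      simp [ι]
    rw [this]
    exact Cardinal.mul_le_of_le k0 k2 le_rfl
  obtain ⟨D, -, -⟩ := h3 ι F
  let Ms : ∀ a : ι, Str L (F a) := fun a => M0 a.1
  refine ⟨Π₀ a, F a, inferInstance, inferInstance, D.sum Ms,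
    (h1 L S ρ n (Π₀ a, F a) ι F D Ms).1 (fun a => hV a.1), ?_, ?_⟩
  · intro α β hα hβ hrα hrβ hNC
    have hr := ((h2 L (Π₀ a, F a) ι F D Ms (α.vars ∪ β.vars)).2.2 α β (VFU_over α hα)
      (VFU_over β hβ)).2
    refine le_trans ?_ hr
    let p : I := ⟨(α, β), ⟨hα, hβ, hrα, hrβ⟩, hNC⟩
    have hp : ¬ (M0 p).Le α β := hL p
    let f : κ.out → {a : ι // ¬ (Ms a).ev (α.vars ∪ β.vars) α ≤ (Ms a).ev (α.vars ∪ β.vars) β} :=
      fun x => ⟨(p, x), hp⟩
    have hf : Function.Injective f := by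
      intro x y hxy
      have h := congrArg Subtype.val hxy
      exact (Prod.mk.inj h).2
    have := Cardinal.mk_le_of_injective hf
    rwa [Cardinal.mk_out] at this
  · exact (h4.2.2.2.1 (Lab L) ι F κ k0 k1 kι (fun a => k3 a.1)).1

end Pool.NF
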