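import Pool.Agent.Work.MP_b103ef_pos.Interface2

/-!
# MP_b103ef_al (S02731): block VLK (helper67)

Existence of links in full vertex structures.
-/

set_option autoImplicit false

open Classical

namespace Pool.NF

theorem VLK_agree {L : Type} {Z : Set L} {n : ℕ} {E : Type} [AddCommGroup E] [Module ℚ E]
    (M : Str L E) : Str.Agree Z n M M :=
  ⟨fun _ _ _ => rfl, fun _ _ _ => rfl, fun _ _ _ _ => rfl⟩

theorem VLK_mono (hVMO : Stmt_VMO) {L : Type} {S Z : Set L} {ρ ρ' : L → V5} {m n : ℕ} {E : Type}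
    [AddCommGroup E] [Module ℚ E] {M : Str L E} (hM : VG n S ρ E M) (hm : m ≤ n) (hZ : Z ⊆ S)
    (he : Set.EqOn ρ ρ' Z) : VG m Z ρ' E M :=
  hVMO L S Z ρ ρ' m n E M M hM hm hZ he (VLK_agree M)

theorem VLK_nc (hVMO : Stmt_VMO) {L : Type} {Z : Set L} {ρ ρ' : L → V5} {n : ℕ} {α β : Tm L}
    (he : Set.EqOn ρ ρ' Z) (h : NC (VG n) Z ρ α β) : NC (VG n) Z ρ' α β := by
  obtain ⟨E, i1, i2, M, hM, hn⟩ := h
  exact ⟨E, i1, i2, M, VLK_mono hVMO hM le_rfl subset_rfl he, hn⟩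

theorem VLK_T_over {L : Type} {Z : Finset L} {S : Set L} (hZ : (↑Z : Set L) ⊆ S) {j : Lab L}
    (hj : LOver (↑Z : Set L) j) (r : L → V5) :
    (Tm.T1 Z r j).Over S ∧ (Tm.T0 Z r j).Over S := by
  constructor
  · intro i hi
    rw [Finset.mem_singleton] at hi
    subst hi
    exact ⟨⟨hZ hj.1, hZ hj.2⟩, hZ⟩
  · intro i hi
    rw [Finset.mem_singleton] at hi
    subst hi
    exact ⟨⟨hZ hj.1, hZ hj.2⟩, hZ⟩

theorem VLK_box {J E : Type} [AddCommGroup E] [Module ℚ E] {F : Finset J}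
    {C D : J → Submodule ℚ E} (h : ∀ j, C j ≤ D j) : box F C ≤ box F D := by
  intro v hv j
  exact ⟨fun hj => h j ((hv j).1 hj), fun hj => (hv j).2 hj⟩

theorem VLK_T_le {L : Type} {E : Type} [AddCommGroup E] [Module ℚ E] (M : Str L E)
    (G : Finset (Lab L)) (Z : Finset L) (r : L → V5) (j : Lab L) :
    M.ev G (Tm.T0 Z r j) ≤ M.ev G (Tm.T1 Z r j) := by
  change box _ _ ⊔ box _ _ ≤ box _ _ ⊔ box _ _
  refine sup_le_sup_right (VLK_box fun k => ?_) _
  refine sup_le_sup_left (inf_le_inf_right _ ?_) _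
  change (⨅ i ∈ Z, ⨅ (_ : r i = V5.i), M.x i 0) ⊓ (⨆ i ∈ Z, ⨆ (_ : r i = V5.o), M.x i 2) ≤
    ⨅ i ∈ Z, ⨅ (_ : r i = V5.i), M.x i 0
  exact inf_le_left

theorem blk_VLK (hSUPV : Stmt_SUPV) (hTRV : Stmt_TRV) (hSAN : Stmt_SAN) (hVSN : Stmt_VSN)
    (hRKL : Stmt_RKL) (hLEX : Stmt_LEX) (hVMO : Stmt_VMO) (hOVR : Stmt_OVR) : Stmt_VLK := by
  intro L n hEV S ρ hρ κ hκ E _ _ M hM hF hc σ hs ho hr
  cases σ with
  | base F g => exact hs.elim
  | inf α β => exact hs.elim
  | sup α β => exact hs.elim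
  | ek Z ψ j α β => exact ⟨_, rfl⟩
  | lk Z r j α β =>
    by_cases hL : Loc (VG n) Z r j α β
    swap
    · exact ⟨⊥, fun h => absurd h hL, fun _ => rfl⟩
    obtain ⟨hrv, hj1, hj2, hjn, hNC, hoth⟩ := id hL
    obtain ⟨hZ, hα, hβ, hj⟩ := ho
    have hr' : max α.rank β.rank + 1 = n + 1 := hr
    have hra : α.rank ≤ n := by
      have := le_max_left α.rank β.rank; omega
    have hrb : β.rank ≤ n := by
      have := le_max_right α.rank β.rank; omega
    have hαS : α.Over S := (hOVR L α).2.1 _ _ hZ hα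
    have hβS : β.Over S := (hOVR L β).2.1 _ _ hZ hβ
    have hsane : Sane S n M := hVSN L S ρ n E M hM
    obtain ⟨hT1, hT0⟩ := VLK_T_over hZ hj r
    obtain ⟨hT1Z, hT0Z⟩ := VLK_T_over (S := (↑Z : Set L)) subset_rfl hj r
    obtain ⟨s1, s2, s3⟩ := hSAN L S n E M hsane
    have hvT1 : (Tm.T1 Z r j).vars = {j} := rfl
    have hvT0 : (Tm.T0 Z r j).vars = {j} := rfl
    have hGT : (Tm.T1 Z r j).vars ∪ (Tm.T0 Z r j).vars ⊆ insert j (α.vars ∪ β.vars) := by
      rw [hvT1, hvT0]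
      intro k hk
      simp only [Finset.union_idempotent, Finset.mem_singleton] at hk
      subst hk
      exact Finset.mem_insert_self _ _
    have hGab : α.vars ∪ β.vars ⊆ insert j (α.vars ∪ β.vars) := Finset.subset_insert _ _
    have hGa : α.vars ⊆ insert j (α.vars ∪ β.vars) := Finset.subset_union_left.trans hGab
    have hGb : β.vars ⊆ insert j (α.vars ∪ β.vars) := Finset.subset_union_right.trans hGab
    have hja : j ∉ α.vars := fun h => hjn (Finset.mem_union_left _ h)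
    have hG1 : insert j α.vars ⊆ insert j (α.vars ∪ β.vars) :=
      Finset.insert_subset_insert _ Finset.subset_union_left
    have hdis : M.ev (insert j (α.vars ∪ β.vars)) (Tm.T1 Z r j) ⊓
        M.ev (insert j (α.vars ∪ β.vars)) α ≤ box (insert j (α.vars ∪ β.vars)) M.B :=
      s3 α hαS hra j hja (fun _ => .tau Z r) _ hG1
    have hB0 : box (insert j (α.vars ∪ β.vars)) M.B ≤
        M.ev (insert j (α.vars ∪ β.vars)) (Tm.T0 Z r j) :=
      (s1 _ hT0 (Nat.zero_le n) _ (Finset.subset_union_right.trans hGT)).1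
    have hBa : box (insert j (α.vars ∪ β.vars)) M.B ≤ M.ev (insert j (α.vars ∪ β.vars)) α :=
      (s1 _ hαS hra _ hGa).1
    have hBb : box (insert j (α.vars ∪ β.vars)) M.B ≤ M.ev (insert j (α.vars ∪ β.vars)) β :=
      (s1 _ hβS hrb _ hGb).1
    -- the ranks
    have hrT := (s2 _ _ hT1 hT0 (Nat.zero_le n) (Nat.zero_le n) _ hGT)
    have hrab := (s2 _ _ hαS hβS hra hrb _ hGab)
    have hrank : M.rk (insert j (α.vars ∪ β.vars)) (Tm.T1 Z r j) (Tm.T0 Z r j) =
        M.rk (insert j (α.vars ∪ β.vars)) α β := by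
      by_cases he : Set.EqOn ρ r ↑Z
      · have n1 : NC (VG n) S ρ α β :=
          (hSUPV L n hEV n ↑Z S ρ le_rfl hZ hρ α β hα hβ hra hrb).1
            (VLK_nc hVMO he.symm hNC)
        have n2 : NC (VG n) S ρ (Tm.T1 Z r j) (Tm.T0 Z r j) :=
          (hSUPV L n hEV 0 ↑Z S ρ (Nat.zero_le n) hZ hρ _ _ hT1Z hT0Z le_rfl le_rfl).1
            (VLK_nc hVMO he.symm ((hTRV L Z r hrv).1 j hj hj1 hj2))
        have k1 := hF α β hαS hβS hra hrb n1
        have k2 := hF _ _ hT1 hT0 (Nat.zero_le n) (Nat.zero_le n) n2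
        rw [← hrab.2] at k1
        rw [← hrT.2] at k2
        exact le_antisymm (((hRKL L E M _ _ _).1.trans hc).trans k1)
          (((hRKL L E M _ _ _).1.trans hc).trans k2)
      · have l1 : M.Le (Tm.T1 Z r j) (Tm.T0 Z r j) :=
          (hTRV L Z r hrv).2 S ρ E M hZ hρ he
            (VLK_mono hVMO hM (Nat.zero_le n) subset_rfl (fun _ _ => rfl)) j
        have l2 : M.Le α β := by
          by_contra hcon
          exact hoth ρ (fun x hx => hρ x (hZ hx)) he
            ⟨E, _, _, M, VLK_mono hVMO hM le_rfl hZ (fun _ _ => rfl), hcon⟩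
        rw [(hRKL L E M _ _ _).2.2 (hrT.1.1 l1), (hRKL L E M _ _ _).2.2 (hrab.1.1 l2)]
    obtain ⟨Ga, hGa'⟩ := hLEX (Lab L →₀ E)
      (M.ev (insert j (α.vars ∪ β.vars)) (Tm.T0 Z r j))
      (M.ev (insert j (α.vars ∪ β.vars)) (Tm.T1 Z r j))
      (M.ev (insert j (α.vars ∪ β.vars)) α ⊓ M.ev (insert j (α.vars ∪ β.vars)) β)
      (M.ev (insert j (α.vars ∪ β.vars)) α) (VLK_T_le M _ Z r j) inf_le_left
      (hdis.trans hB0) (hdis.trans (le_inf hBa hBb)) (by
        have hcm : (M.ev (insert j (α.vars ∪ β.vars)) α ⊓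
            M.ev (insert j (α.vars ∪ β.vars)) β).comap
              (M.ev (insert j (α.vars ∪ β.vars)) α).subtype =
            (M.ev (insert j (α.vars ∪ β.vars)) β).comap
              (M.ev (insert j (α.vars ∪ β.vars)) α).subtype := by
          ext v
          constructor
          · intro h; exact h.2
          · intro h; exact ⟨v.2, h⟩
        rw [hcm]
        exact hrank)
    exact ⟨Ga, fun _ => hGa', fun h => absurd hL h⟩

end Pool.NF
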