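import Pool.Agent.Work.MP_b103ef_pos.Interface1

set_option autoImplicit false

open Classical

namespace Pool.NF

theorem VMO_down {L : Type} (S : Set L) (ρ : L → V5) (E : Type) [AddCommGroup E] [Module ℚ E]
    (M : Str L E) (m : ℕ) : ∀ n : ℕ, m ≤ n → VG n S ρ E M → VG m S ρ E M := by
  intro n
  induction n with
  | zero =>
    intro h hM
    obtain rfl : m = 0 := Nat.le_zero.1 h
    exact hM
  | succ n ih =>
    intro h hM
    rcases Nat.lt_or_ge n m with h' | h'
    · obtain rfl : m = n + 1 := le_antisymm h h'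
      exact hM
    · exact ih h' hM.1

theorem VMO_agree {L : Type} {Z : Set L} {m n : ℕ} {E : Type} [AddCommGroup E] [Module ℚ E]
    {M M' : Str L E} (h : Str.Agree Z n M M') (hmn : m ≤ n) : Str.Agree Z m M M' :=
  ⟨h.1, h.2.1, fun σ h1 h2 h3 => h.2.2 σ h1 h2 (h3.trans hmn)⟩

theorem VMO_step (hA : Stmt_AGR) (hO : Stmt_OVR) {L : Type} (S Z : Set L) (ρ ρ' : L → V5)
    (E : Type) [AddCommGroup E] [Module ℚ E] (M M' : Str L E) (hZ : Z ⊆ S)
    (hρ : Set.EqOn ρ ρ' Z) :
    ∀ m : ℕ, VG m S ρ E M → Str.Agree Z m M M' → VG m Z ρ' E M' := by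
  intro m
  induction m with
  | zero =>
    intro hM hag
    obtain ⟨b1, b2⟩ : VBase S ρ M := hM
    refine ⟨fun i hi => ⟨fun h => ?_, fun h => ?_⟩, fun Z0 hZ0 ψ => ?_⟩
    · have := (b1 i (hZ hi)).1 (by rw [hρ hi]; exact h)
      rw [hag.1 i hi 0, hag.1 i hi 1, hag.1 i hi 2] at this
      exact this
    · have := (b1 i (hZ hi)).2 (by rw [hρ hi]; exact h)
      rw [hag.1 i hi 0, hag.1 i hi 1, hag.1 i hi 2] at this
      exact this
    · rw [← hag.2.1 Z0 hZ0 ψ]
      exact b2 Z0 (hZ0.trans hZ) ψ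
  | succ m ih =>
    intro hM hag
    refine ⟨ih hM.1 (VMO_agree hag (Nat.le_succ m)), fun σ hσ hr => ?_⟩
    have hax := hM.2 σ ((hO L σ).2.1 Z S hZ hσ) hr
    have hagm := VMO_agree hag (Nat.le_succ m)
    obtain ⟨-, -, -, hev, -⟩ := hA L Z m E M M' hagm
    cases σ with
    | base F g => trivial
    | inf α β => trivial
    | sup α β => trivial
    | lk Z0 r j α β =>
      have hg : M.g (.lk Z0 r j α β) = M'.g (.lk Z0 r j α β) := hag.2.2 _ trivial hσ hr.le
      obtain ⟨h0, hα, hβ, hj⟩ := hσ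
      have hαZ : α.Over Z := (hO L α).2.1 _ Z h0 hα
      have hβZ : β.Over Z := (hO L β).2.1 _ Z h0 hβ
      have hrr : max α.rank β.rank + 1 = m + 1 := hr
      have hαr : α.rank ≤ m := by omega
      have hβr : β.rank ≤ m := by omega
      have hG : ∀ j' ∈ insert j (α.vars ∪ β.vars), LOver Z j' := by
        intro j' hj'
        rcases Finset.mem_insert.1 hj' with rfl | hj'
        · exact ⟨h0 hj.1, h0 hj.2⟩
        · rcases Finset.mem_union.1 hj' with hj' | hj'
          · exact (hO L α).1 Z hαZ j' hj'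
          · exact (hO L β).1 Z hβZ j' hj'
      have hjZ : LOver Z j := ⟨h0 hj.1, h0 hj.2⟩
      have e0 := hev _ hG (Tm.T0 Z0 r j)
        (fun j' hj' => by rw [Finset.mem_singleton.1 hj']; exact ⟨hjZ, h0⟩) (Nat.zero_le _)
      have e1 := hev _ hG (Tm.T1 Z0 r j)
        (fun j' hj' => by rw [Finset.mem_singleton.1 hj']; exact ⟨hjZ, h0⟩) (Nat.zero_le _)
      have e2 := hev _ hG α hαZ hαr
      have e3 := hev _ hG β hβZ hβr
      rw [← hg]
      refine ⟨fun hl => ?_, hax.2⟩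
      rw [← e0, ← e1, ← e2, ← e3]
      exact hax.1 hl
    | ek Z0 ψ j α β =>
      have hg : M.g (.ek Z0 ψ j α β) = M'.g (.ek Z0 ψ j α β) := hag.2.2 _ trivial hσ hr.le
      obtain ⟨h0, hα, hβ, hj⟩ := hσ
      have hαZ : α.Over Z := (hO L α).2.1 _ Z h0 hα
      have hβZ : β.Over Z := (hO L β).2.1 _ Z h0 hβ
      have hrr : max α.rank β.rank + 1 = m + 1 := hr
      have hαr : α.rank ≤ m := by omega
      have hG : ∀ j' ∈ insert j (α.vars ∪ β.vars), LOver Z j' := by
        intro j' hj'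
        rcases Finset.mem_insert.1 hj' with rfl | hj'
        · exact ⟨h0 hj.1, h0 hj.2⟩
        · rcases Finset.mem_union.1 hj' with hj' | hj'
          · exact (hO L α).1 Z hαZ j' hj'
          · exact (hO L β).1 Z hβZ j' hj'
      have e2 := hev _ hG α hαZ hαr
      have hax' : M.g (.ek Z0 ψ j α β) = M.ev (insert j (α.vars ∪ β.vars)) α := hax
      show M'.g (.ek Z0 ψ j α β) = M'.ev (insert j (α.vars ∪ β.vars)) α
      rw [← hg, hax', e2]

theorem blk_VMO (hA : Stmt_AGR) (hO : Stmt_OVR) : Stmt_VMO := by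
  intro L S Z ρ ρ' m n E _ _ M M' hM hmn hZ hρ hag
  exact VMO_step hA hO S Z ρ ρ' E M M' hZ hρ m (VMO_down S ρ E M m n hmn hM) hag

end Pool.NF
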