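import Pool.Agent.Work.MP_b103ef_pos.Interface1

/-! # Block VPR (helper33): `V_n` is closed under direct sums of two structures -/

set_option autoImplicit false

open Classical

namespace Pool.NF

section VPR

variable {J E F : Type} [AddCommGroup E] [Module ℚ E] [AddCommGroup F] [Module ℚ F]

/-- the submodule with components `Γ`, `Γ'` -/
noncomputable def VPRc (Γ : Submodule ℚ (J →₀ E)) (Γ' : Submodule ℚ (J →₀ F)) :
    Submodule ℚ (J →₀ (E × F)) :=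
  Γ.comap (lift (LinearMap.fst ℚ E F)) ⊓ Γ'.comap (lift (LinearMap.snd ℚ E F))

theorem VPR_mk (a : J →₀ E) (b : J →₀ F) :
    lift (LinearMap.fst ℚ E F) (lift (LinearMap.inl ℚ E F) a + lift (LinearMap.inr ℚ E F) b) = a ∧
    lift (LinearMap.snd ℚ E F) (lift (LinearMap.inl ℚ E F) a + lift (LinearMap.inr ℚ E F) b) =
      b := by
  constructor
  · ext j; simp
  · ext j; simp

theorem VPR_add (v : J →₀ E × F) :
    lift (LinearMap.inl ℚ E F) (lift (LinearMap.fst ℚ E F) v) +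
      lift (LinearMap.inr ℚ E F) (lift (LinearMap.snd ℚ E F) v) = v := by
  ext j <;> simp

theorem VPR_mem {Γ : Submodule ℚ (J →₀ E)} {Γ' : Submodule ℚ (J →₀ F)} {a : J →₀ E} {b : J →₀ F}
    (ha : a ∈ Γ) (hb : b ∈ Γ') :
    lift (LinearMap.inl ℚ E F) a + lift (LinearMap.inr ℚ E F) b ∈ VPRc Γ Γ' := by
  refine ⟨?_, ?_⟩
  · show lift (LinearMap.fst ℚ E F) _ ∈ Γ
    rw [(VPR_mk a b).1]; exact ha
  · show lift (LinearMap.snd ℚ E F) _ ∈ Γ'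
    rw [(VPR_mk a b).2]; exact hb

theorem VPR_sup (A B : Submodule ℚ (J →₀ E)) (A' B' : Submodule ℚ (J →₀ F)) :
    VPRc A A' ⊔ VPRc B B' = VPRc (A ⊔ B) (A' ⊔ B') := by
  refine le_antisymm (sup_le ?_ ?_) ?_
  · exact inf_le_inf (Submodule.comap_mono le_sup_left) (Submodule.comap_mono le_sup_left)
  · exact inf_le_inf (Submodule.comap_mono le_sup_right) (Submodule.comap_mono le_sup_right)
  · rintro v ⟨h1, h2⟩
    obtain ⟨a, ha, b, hb, hab⟩ := Submodule.mem_sup.1 (Submodule.mem_comap.1 h1)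
    obtain ⟨a', ha', b', hb', hab'⟩ := Submodule.mem_sup.1 (Submodule.mem_comap.1 h2)
    refine Submodule.mem_sup.2 ⟨_, VPR_mem ha ha', _, VPR_mem hb hb', ?_⟩
    rw [← VPR_add v, ← hab, ← hab', map_add, map_add]
    abel

theorem VPR_inf (A B : Submodule ℚ (J →₀ E)) (A' B' : Submodule ℚ (J →₀ F)) :
    VPRc A A' ⊓ VPRc B B' = VPRc (A ⊓ B) (A' ⊓ B') := by
  simp only [VPRc, Submodule.comap_inf]
  exact inf_inf_inf_comm _ _ _ _

theorem VPR_bot : VPRc (⊥ : Submodule ℚ (J →₀ E)) (⊥ : Submodule ℚ (J →₀ F)) = ⊥ := by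
  rw [eq_bot_iff]
  rintro v ⟨h1, h2⟩
  rw [Submodule.mem_bot, ← VPR_add v, (Submodule.mem_bot ℚ).1 (Submodule.mem_comap.1 h1),
    (Submodule.mem_bot ℚ).1 (Submodule.mem_comap.1 h2), map_zero, map_zero, add_zero]

theorem VPR_ax (hO : Stmt_OVR) (hE : Stmt_EPR) {L : Type} (PV : VCls L) (M : Str L E)
    (M' : Str L F) (σ : Tm L) (Γ : Submodule ℚ (Lab L →₀ E)) (Γ' : Submodule ℚ (Lab L →₀ F))
    (hσ : σ.Over Set.univ) (h : VAx PV M σ Γ) (h' : VAx PV M' σ Γ') :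
    VAx PV (M.prod M') σ (VPRc Γ Γ') := by
  have hEv : ∀ (G : Finset (Lab L)) (α : Tm L), α.Over Set.univ →
      (M.prod M').ev G α = VPRc (M.ev G α) (M'.ev G α) := (hE L E F M M' 0).2.2.2.2.1
  cases σ with
  | base F g => trivial
  | inf α β => trivial
  | sup α β => trivial
  | lk Z r j α β =>
    obtain ⟨hZ, hα, hβ, hj⟩ := hσ
    have hαu : α.Over Set.univ := (hO L α).2.1 _ _ (Set.subset_univ _) hα
    have hβu : β.Over Set.univ := (hO L β).2.1 _ _ (Set.subset_univ _) hβ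
    have h1 : Tm.Over (Tm.T1 Z r j) (Set.univ : Set L) := fun _ _ =>
      ⟨⟨Set.mem_univ _, Set.mem_univ _⟩, Set.subset_univ _⟩
    have h0 : Tm.Over (Tm.T0 Z r j) (Set.univ : Set L) := fun _ _ =>
      ⟨⟨Set.mem_univ _, Set.mem_univ _⟩, Set.subset_univ _⟩
    refine ⟨fun hL => ?_, fun hL => ?_⟩
    · have hI := h.1 hL
      have hI' := h'.1 hL
      rw [hEv _ _ hαu, hEv _ _ hβu, hEv _ _ h1, hEv _ _ h0, VPR_inf]
      refine ⟨⟨?_, ?_⟩, ?_, ?_⟩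
      · rw [VPR_sup, VPR_inf, VPR_sup, hI.1.1, hI'.1.1]
      · rw [VPR_sup, VPR_sup, hI.1.2, hI'.1.2]
      · rw [VPR_sup, VPR_inf, VPR_sup, hI.2.1, hI'.2.1]
      · rw [VPR_sup, VPR_sup, hI.2.2, hI'.2.2]
    · rw [h.2 hL, h'.2 hL, VPR_bot]
  | ek Z ψ j α β =>
    obtain ⟨hZ, hα, hβ, hj⟩ := hσ
    have hαu : α.Over Set.univ := (hO L α).2.1 _ _ (Set.subset_univ _) hα
    show _ = _
    rw [hEv _ _ hαu, show Γ = _ from h, show Γ' = _ from h']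

theorem VPR_bot' : (⊥ : Submodule ℚ E).comap (LinearMap.fst ℚ E F) ⊓
    (⊥ : Submodule ℚ F).comap (LinearMap.snd ℚ E F) = ⊥ := by
  rw [eq_bot_iff]
  rintro ⟨a, b⟩ ⟨h1, h2⟩
  exact (Submodule.mem_bot ℚ).2 (Prod.ext ((Submodule.mem_bot ℚ).1 h1)
    ((Submodule.mem_bot ℚ).1 h2))

end VPR

theorem blk_VPR (hO : Stmt_OVR) (hE : Stmt_EPR) : Stmt_VPR := by
  intro L S ρ n E F _ _ _ _ M M'
  refine ⟨?_, fun σ Γ Γ' hσ h h' => VPR_ax hO hE (VG n) M M' σ Γ Γ' hσ h h'⟩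
  induction n with
  | zero =>
    intro h h'
    refine ⟨fun i hi => ⟨fun hρ => ⟨?_, ?_⟩, fun hρ => ⟨?_, ?_⟩⟩, fun Z hZ ψ => ?_⟩
    · show (M.x i 0).comap _ ⊓ (M'.x i 0).comap _ = (M.x i 1).comap _ ⊓ (M'.x i 1).comap _
      rw [((h.1 i hi).1 hρ).1, ((h'.1 i hi).1 hρ).1]
    · show (M.x i 2).comap _ ⊓ (M'.x i 2).comap _ = ⊤
      rw [((h.1 i hi).1 hρ).2, ((h'.1 i hi).1 hρ).2, Submodule.comap_top, Submodule.comap_top,
        inf_top_eq]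
    · show (M.x i 0).comap _ ⊓ (M'.x i 0).comap _ = ⊥
      rw [((h.1 i hi).2 hρ).1, ((h'.1 i hi).2 hρ).1]
      exact VPR_bot'
    · show (M.x i 2).comap _ ⊓ (M'.x i 2).comap _ = (M.x i 1).comap _ ⊓ (M'.x i 1).comap _
      rw [((h.1 i hi).2 hρ).2, ((h'.1 i hi).2 hρ).2]
    · show (M.u Z ψ).comap _ ⊓ (M'.u Z ψ).comap _ = ⊥
      rw [h.2 Z hZ ψ, h'.2 Z hZ ψ]
      exact VPR_bot'
  | succ n ih =>
    intro h h'
    refine ⟨ih h.1 h'.1, fun σ hσ hr => ?_⟩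
    exact VPR_ax hO hE (VG n) M M' σ _ _ ((hO L σ).2.1 _ _ (Set.subset_univ _) hσ)
      (h.2 σ hσ hr) (h'.2 σ hσ hr)

end Pool.NF
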