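import Pool.Agent.Work.MP_b103ef_pos.Interface1

/-!
# MP_b103ef_al (S02731): block VSN
-/

set_option autoImplicit false

open Classical

namespace Pool.NF

/-- value of `α` lies in the box of `A` -/
theorem VSN_le (hO : Stmt_OVR) (hS : Stmt_SAN) {L : Type} {S : Set L} {n : ℕ} {E : Type}
    [AddCommGroup E] [Module ℚ E] {M : Str L E} (h : Sane S n M) {Z : Finset L}
    (hZ : (↑Z : Set L) ⊆ S) {α : Tm L} (hα : α.Over ↑Z) (hr : α.rank ≤ n)
    {G : Finset (Lab L)} (hG : α.vars ⊆ G) : M.ev G α ≤ box G M.A :=
  ((hS L S n E M h).1 α ((hO L α).2.1 _ _ hZ hα) hr G hG).2.1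

theorem blk_VSN (hO : Stmt_OVR) (hS : Stmt_SAN) : Stmt_VSN := by
  intro L S ρ n E _ _ M
  induction n with
  | zero =>
    intro _ σ hs _ hr
    have := ((hO L σ).2.2.2 hs).1
    omega
  | succ n ih =>
    intro hM σ hs ho hr
    obtain ⟨hM0, hM1⟩ := hM
    have hsane : Sane S n M := ih hM0
    rcases Nat.lt_or_ge σ.rank (n + 1) with h | h
    · exact hsane σ hs ho (by omega)
    · have hrk : σ.rank = n + 1 := le_antisymm hr h
      have hax := hM1 σ ho hrk
      cases σ with
      | base F g => exact hs.elim
      | inf α β => exact hs.elim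
      | sup α β => exact hs.elim
      | lk Z r j α β =>
        obtain ⟨hZ, hα, hβ, hj⟩ := ho
        have hr' : max α.rank β.rank + 1 = n + 1 := hrk
        have hra : α.rank ≤ n := by omega
        have hV : (Tm.lk Z r j α β).vars = insert j (α.vars ∪ β.vars) := rfl
        rw [hV]
        by_cases hl : Loc (VG n) Z r j α β
        · have hi := hax.1 hl
          have h1 : M.g (Tm.lk Z r j α β) ≤
              M.ev (insert j (α.vars ∪ β.vars)) α ⊔
                M.ev (insert j (α.vars ∪ β.vars)) (Tm.T1 Z r j) := by
            rw [← hi.1.2]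
            exact le_sup_left
          refine h1.trans (sup_le ?_ ?_)
          · exact VSN_le hO hS hsane hZ hα hra
              (fun x hx => Finset.mem_insert_of_mem (Finset.mem_union_left _ hx))
          · refine VSN_le hO hS hsane hZ (α := Tm.T1 Z r j) ?_ (Nat.zero_le n) ?_
            · intro i hi
              rw [Finset.mem_singleton] at hi
              subst hi
              exact ⟨hj, subset_rfl⟩
            · intro x hx
              have : x = j := by simpa [Tm.T1, Tm.vars] using hx
              subst this
              exact Finset.mem_insert_self _ _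
        · rw [hax.2 hl]
          exact bot_le
      | ek Z r j α β =>
        obtain ⟨hZ, hα, hβ, hj⟩ := ho
        have hr' : max α.rank β.rank + 1 = n + 1 := hrk
        have hra : α.rank ≤ n := by omega
        have hV : (Tm.ek Z r j α β).vars = insert j (α.vars ∪ β.vars) := rfl
        have h1 : M.g (Tm.ek Z r j α β) = M.ev (insert j (α.vars ∪ β.vars)) α := hax
        rw [hV, h1]
        exact VSN_le hO hS hsane hZ hα hra
          (fun x hx => Finset.mem_insert_of_mem (Finset.mem_union_left _ hx))

end Pool.NF
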