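import Pool.Agent.Work.MP_b103ef_pos.Interface1

/-! # Block VUP (helper65): new symbols for vertex structures -/

set_option autoImplicit false

open Classical

namespace Pool.NF

theorem VUP_ax (h1 : Stmt_AGR) (h2 : Stmt_OVR) {L : Type} {S : Set L} {n : ℕ} {E : Type}
    [AddCommGroup E] [Module ℚ E] {M M' : Str L E} (hA : Str.Agree S n M M') (σ : Tm L)
    (Γ : Submodule ℚ (Lab L →₀ E)) (hσ : σ.Over S) (hr : σ.rank = n + 1)
    (hV : VAx (VG n) M σ Γ) : VAx (VG n) M' σ Γ := by
  obtain ⟨-, -, -, hev, -⟩ := h1 L S n E M M' hA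
  cases σ with
  | base F g => trivial
  | inf α β => trivial
  | sup α β => trivial
  | lk Z r j α β =>
    obtain ⟨hZ, hα, hβ, hj⟩ := hσ
    have hr' : max α.rank β.rank + 1 = n + 1 := hr
    have hαr : α.rank ≤ n := by
      have := le_max_left α.rank β.rank; omega
    have hβr : β.rank ≤ n := by
      have := le_max_right α.rank β.rank; omega
    have hαS : α.Over S := (h2 L α).2.1 _ _ hZ hα
    have hβS : β.Over S := (h2 L β).2.1 _ _ hZ hβ
    have hjS : LOver S j := ⟨hZ hj.1, hZ hj.2⟩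
    have hG : ∀ k ∈ insert j (α.vars ∪ β.vars), LOver S k := by
      intro k hk
      rw [Finset.mem_insert, Finset.mem_union] at hk
      rcases hk with rfl | hk | hk
      · exact hjS
      · exact (h2 L α).1 S hαS k hk
      · exact (h2 L β).1 S hβS k hk
    have hT0 : (Tm.T0 Z r j).Over S := by
      intro k hk
      rw [Finset.mem_singleton] at hk
      subst hk
      exact ⟨hjS, hZ⟩
    have hT1 : (Tm.T1 Z r j).Over S := by
      intro k hk
      rw [Finset.mem_singleton] at hk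
      subst hk
      exact ⟨hjS, hZ⟩
    refine ⟨fun hL => ?_, hV.2⟩
    have h3 := hV.1 hL
    rw [← hev _ hG _ hT0 (Nat.zero_le n), ← hev _ hG _ hT1 (Nat.zero_le n),
      ← hev _ hG _ hαS hαr, ← hev _ hG _ hβS hβr]
    exact h3
  | ek Z ψ j α β =>
    obtain ⟨hZ, hα, hβ, hj⟩ := hσ
    have hr' : max α.rank β.rank + 1 = n + 1 := hr
    have hαr : α.rank ≤ n := by
      have := le_max_left α.rank β.rank; omega
    have hαS : α.Over S := (h2 L α).2.1 _ _ hZ hα
    have hβS : β.Over S := (h2 L β).2.1 _ _ hZ hβ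
    have hjS : LOver S j := ⟨hZ hj.1, hZ hj.2⟩
    have hG : ∀ k ∈ insert j (α.vars ∪ β.vars), LOver S k := by
      intro k hk
      rw [Finset.mem_insert, Finset.mem_union] at hk
      rcases hk with rfl | hk | hk
      · exact hjS
      · exact (h2 L α).1 S hαS k hk
      · exact (h2 L β).1 S hβS k hk
    show Γ = M'.ev (insert j (α.vars ∪ β.vars)) α
    rw [← hev _ hG _ hαS hαr]
    exact hV

theorem blk_VUP (h1 : Stmt_AGR) (h2 : Stmt_OVR) (h3 : Stmt_VMO) : Stmt_VUP := by
  intro L S ρ n E _ _ M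
  refine ⟨fun f hM hf => ?_, fun M' σ Γ hA hσ hr hV => VUP_ax h1 h2 hA σ Γ hσ hr hV⟩
  have hAg : Str.Agree Set.univ n M (M.upd (n + 1) f) := by
    refine ⟨fun _ _ _ => rfl, fun _ _ _ => rfl, fun σ _ _ hr => ?_⟩
    show M.g σ = if σ.rank = n + 1 then f σ else M.g σ
    rw [if_neg (by omega)]
  have hAS : Str.Agree S n M (M.upd (n + 1) f) := by
    refine ⟨fun _ _ _ => rfl, fun _ _ _ => rfl, fun σ hs _ hr => ?_⟩
    show M.g σ = if σ.rank = n + 1 then f σ else M.g σ
    rw [if_neg (by omega)]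
  refine ⟨⟨h3 L S S ρ ρ n n E M _ hM le_rfl subset_rfl (fun _ _ => rfl) hAS, ?_⟩, hAg⟩
  intro σ hσ hr
  cases hc : σ with
  | base F g => trivial
  | inf α β => trivial
  | sup α β => trivial
  | lk Z r j α β =>
    have hs : σ.IsSym := by rw [hc]; trivial
    rw [← hc]
    have e : (M.upd (n + 1) f).g σ = f σ := by
      show (if σ.rank = n + 1 then f σ else M.g σ) = f σ
      rw [if_pos hr]
    rw [e]
    exact VUP_ax h1 h2 hAS σ (f σ) hσ hr (hf σ hs hσ hr)
  | ek Z ψ j α β =>
    have hs : σ.IsSym := by rw [hc]; trivial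
    rw [← hc]
    have e : (M.upd (n + 1) f).g σ = f σ := by
      show (if σ.rank = n + 1 then f σ else M.g σ) = f σ
      rw [if_pos hr]
    rw [e]
    exact VUP_ax h1 h2 hAS σ (f σ) hσ hr (hf σ hs hσ hr)

end Pool.NF
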