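import Pool.Agent.Work.MP_b103ef_pos.Interface1

/-! Block VXG: the axioms can be glued (helper1). -/

set_option autoImplicit false

open Classical

namespace Pool.NF

section

variable {J E F ι : Type} [AddCommGroup E] [Module ℚ E] [AddCommGroup F] [Module ℚ F]

theorem VXG_comp (inc : F →ₗ[ℚ] E) (pr : E →ₗ[ℚ] F) (v : J →₀ E) :
    lift (inc.comp pr) v = lift inc (lift pr v) := by
  ext j
  simp

theorem VXG_retr (inc : F →ₗ[ℚ] E) (pr : E →ₗ[ℚ] F) (h : ∀ v, pr (inc v) = v) (w : J →₀ F) :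
    lift pr (lift inc w) = w := by
  ext j
  simp [h]

theorem VXG_inv_inf {U U' : Submodule ℚ (J →₀ E)} {f : E →ₗ[ℚ] E} (h : Inv U f)
    (h' : Inv U' f) : Inv (U ⊓ U') f := fun _ hv => ⟨h hv.1, h' hv.2⟩

theorem VXG_inv_sup {U U' : Submodule ℚ (J →₀ E)} {f : E →ₗ[ℚ] E} (h : Inv U f)
    (h' : Inv U' f) : Inv (U ⊔ U') f := by
  intro v hv
  obtain ⟨u, hu, u', hu', rfl⟩ := Submodule.mem_sup.1 hv
  rw [Submodule.mem_comap, map_add]
  exact Submodule.add_mem_sup (h hu) (h' hu')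

theorem VXG_inv_bot (f : E →ₗ[ℚ] E) : Inv (⊥ : Submodule ℚ (J →₀ E)) f := by
  intro v hv
  rw [Submodule.mem_bot] at hv
  rw [hv]
  exact Submodule.zero_mem _

theorem VXG_comap_sup {U U' : Submodule ℚ (J →₀ E)} (inc : F →ₗ[ℚ] E) (pr : E →ₗ[ℚ] F)
    (h : ∀ v, pr (inc v) = v) (hU : Inv U (inc.comp pr)) (hU' : Inv U' (inc.comp pr)) :
    (U ⊔ U').comap (lift inc) = U.comap (lift inc) ⊔ U'.comap (lift inc) := by
  apply le_antisymm
  · intro w hw
    obtain ⟨u, hu, u', hu', he⟩ := Submodule.mem_sup.1 (Submodule.mem_comap.1 hw)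
    rw [← VXG_retr inc pr h w, ← he, map_add]
    refine Submodule.add_mem_sup ?_ ?_
    · rw [Submodule.mem_comap, ← VXG_comp]
      exact hU hu
    · rw [Submodule.mem_comap, ← VXG_comp]
      exact hU' hu'
  · exact sup_le (Submodule.comap_mono le_sup_left) (Submodule.comap_mono le_sup_right)

/-- equality of invariant submodules can be checked on the parts -/
theorem VXG_eq (hS : Stmt_SYS) {e : ι → E →ₗ[ℚ] E} (he : Sys e)
    {U U' : Submodule ℚ (J →₀ E)} (hU : ∀ a, Inv U (e a)) (hU' : ∀ a, Inv U' (e a))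
    (h : ∀ a, ∃ (F : Type) (_ : AddCommGroup F) (_ : Module ℚ F) (inc : F →ₗ[ℚ] E)
      (pr : E →ₗ[ℚ] F), inc.comp pr = e a ∧ U.comap (lift inc) = U'.comap (lift inc)) :
    U = U' := by
  ext v
  rw [(hS J E ι e he U hU).1 v, (hS J E ι e he U' hU').1 v]
  refine forall_congr' fun a => ?_
  obtain ⟨F, _, _, inc, pr, h1, h2⟩ := h a
  rw [← h1, VXG_comp]
  have : lift pr v ∈ U.comap (lift inc) ↔ lift pr v ∈ U'.comap (lift inc) := by rw [h2]
  exact this

/-- `MAP` can be checked on the parts -/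
theorem VXG_map (hS : Stmt_SYS) {e : ι → E →ₗ[ℚ] E} (he : Sys e)
    {t' t b' al Ga : Submodule ℚ (J →₀ E)} (h1 : ∀ a, Inv t' (e a)) (h2 : ∀ a, Inv t (e a))
    (h3 : ∀ a, Inv b' (e a)) (h4 : ∀ a, Inv al (e a)) (h5 : ∀ a, Inv Ga (e a))
    (h : ∀ a, ∃ (F : Type) (_ : AddCommGroup F) (_ : Module ℚ F) (inc : F →ₗ[ℚ] E)
      (pr : E →ₗ[ℚ] F), (∀ v, pr (inc v) = v) ∧ inc.comp pr = e a ∧
      MAP (t'.comap (lift inc)) (t.comap (lift inc)) (b'.comap (lift inc))
        (al.comap (lift inc)) (Ga.comap (lift inc))) : MAP t' t b' al Ga := by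
  refine ⟨?_, ?_⟩
  · refine VXG_eq hS he (fun a => VXG_inv_inf (h5 a) (VXG_inv_sup (h4 a) (h1 a)))
      (fun a => VXG_inv_sup (h3 a) (h1 a)) fun a => ?_
    obtain ⟨F, _, _, inc, pr, hp, hc, hm⟩ := h a
    refine ⟨F, _, _, inc, pr, hc, ?_⟩
    rw [Submodule.comap_inf, VXG_comap_sup inc pr hp (hc ▸ h4 a) (hc ▸ h1 a),
      VXG_comap_sup inc pr hp (hc ▸ h3 a) (hc ▸ h1 a)]
    exact hm.1
  · refine VXG_eq hS he (fun a => VXG_inv_sup (h5 a) (h4 a))
      (fun a => VXG_inv_sup (h4 a) (h2 a)) fun a => ?_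
    obtain ⟨F, _, _, inc, pr, hp, hc, hm⟩ := h a
    refine ⟨F, _, _, inc, pr, hc, ?_⟩
    rw [VXG_comap_sup inc pr hp (hc ▸ h5 a) (hc ▸ h4 a),
      VXG_comap_sup inc pr hp (hc ▸ h4 a) (hc ▸ h2 a)]
    exact hm.2

end

theorem blk_VXG (hE : Stmt_EVH) (hO : Stmt_OVR) (hR : Stmt_RET) (hP : Stmt_PUL)
    (hS : Stmt_SYS) : Stmt_VXG := by
  intro L S n E ι _ _ e he M hM σ Γ ho hr hΓ h
  -- values of terms are invariant, and their restrictions to the parts are the values
  have hinv : ∀ a, ∀ G : Finset (Lab L), (∀ j ∈ G, LOver S j) → ∀ α : Tm L, α.Over S →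
      α.rank ≤ n → Inv (M.ev G α) (e a) := fun a G hG α hα hr =>
    ((hE L S n E E M M (e a) (hM a)).2.2 G hG).2.2 α hα hr
  have hval : ∀ a, ∀ (F : Type) [AddCommGroup F] [Module ℚ F] (inc : F →ₗ[ℚ] E)
      (pr : E →ₗ[ℚ] F), (∀ v, pr (inc v) = v) → inc.comp pr = e a →
      ∀ G : Finset (Lab L), (∀ j ∈ G, LOver S j) → ∀ α : Tm L, α.Over S →
      α.rank ≤ n → (M.pull inc).ev G α = (M.ev G α).comap (lift inc) := by
    intro a F _ _ inc pr hp hc G hG α hα hr
    have hh := hP L S n E F M inc pr hp (by rw [hc]; exact hM a)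
    exact (hR L S n E F M (M.pull inc) inc pr hp hh.1 hh.2).1 G hG α hα hr
  cases σ with
  | base F g => trivial
  | inf α β => trivial
  | sup α β => trivial
  | lk Y r j α β =>
    obtain ⟨hY, hα, hβ, hj⟩ := ho
    have hr' : max α.rank β.rank + 1 = n + 1 := hr
    have hrα : α.rank ≤ n := by omega
    have hrβ : β.rank ≤ n := by omega
    have hG : ∀ i ∈ insert j (α.vars ∪ β.vars), LOver S i := by
      intro i hi
      have : LOver (↑Y : Set L) i := by
        rcases Finset.mem_insert.1 hi with h | h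
        · rw [h]; exact hj
        · rcases Finset.mem_union.1 h with h | h
          · exact (hO L α).1 _ hα i h
          · exact (hO L β).1 _ hβ i h
      exact ⟨hY this.1, hY this.2⟩
    have oα := (hO L α).2.1 _ _ hY hα
    have oβ := (hO L β).2.1 _ _ hY hβ
    have o0 : (Tm.T0 Y r j).Over S := fun i hi => ⟨by
      rw [Finset.mem_singleton.1 hi]; exact ⟨hY hj.1, hY hj.2⟩, hY⟩
    have o1 : (Tm.T1 Y r j).Over S := fun i hi => ⟨by
      rw [Finset.mem_singleton.1 hi]; exact ⟨hY hj.1, hY hj.2⟩, hY⟩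
    have i0 := fun a => hinv a _ hG _ o0 (Nat.zero_le _)
    have i1 := fun a => hinv a _ hG _ o1 (Nat.zero_le _)
    have iα := fun a => hinv a _ hG _ oα hrα
    have iβ := fun a => hinv a _ hG _ oβ hrβ
    have ib := fun a => VXG_inv_inf (iα a) (iβ a)
    refine ⟨fun hl => ⟨?_, ?_⟩, fun hn => ?_⟩
    · refine VXG_map hS he i0 i1 ib iα hΓ fun a => ?_
      obtain ⟨F, _, _, inc, pr, hp, hc, hx⟩ := h a
      refine ⟨F, _, _, inc, pr, hp, hc, ?_⟩
      have := (hx.1 hl).1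
      rw [hval a F inc pr hp hc _ hG _ o0 (Nat.zero_le _),
        hval a F inc pr hp hc _ hG _ o1 (Nat.zero_le _), hval a F inc pr hp hc _ hG _ oα hrα,
        hval a F inc pr hp hc _ hG _ oβ hrβ, ← Submodule.comap_inf] at this
      exact this
    · refine VXG_map hS he ib iα i0 i1 hΓ fun a => ?_
      obtain ⟨F, _, _, inc, pr, hp, hc, hx⟩ := h a
      refine ⟨F, _, _, inc, pr, hp, hc, ?_⟩
      have := (hx.1 hl).2
      rw [hval a F inc pr hp hc _ hG _ o0 (Nat.zero_le _),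
        hval a F inc pr hp hc _ hG _ o1 (Nat.zero_le _), hval a F inc pr hp hc _ hG _ oα hrα,
        hval a F inc pr hp hc _ hG _ oβ hrβ, ← Submodule.comap_inf] at this
      exact this
    · refine VXG_eq hS he hΓ (fun a => VXG_inv_bot (e a)) fun a => ?_
      obtain ⟨F, _, _, inc, pr, hp, hc, hx⟩ := h a
      refine ⟨F, _, _, inc, pr, hc, ?_⟩
      rw [hx.2 hn]
      symm
      rw [eq_bot_iff]
      intro w hw
      rw [Submodule.mem_comap, Submodule.mem_bot] at hw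
      rw [Submodule.mem_bot, ← VXG_retr inc pr hp w, hw, map_zero]
  | ek Y ψ j α β =>
    obtain ⟨hY, hα, hβ, hj⟩ := ho
    have hr' : max α.rank β.rank + 1 = n + 1 := hr
    have hrα : α.rank ≤ n := by omega
    have hG : ∀ i ∈ insert j (α.vars ∪ β.vars), LOver S i := by
      intro i hi
      have : LOver (↑Y : Set L) i := by
        rcases Finset.mem_insert.1 hi with h | h
        · rw [h]; exact hj
        · rcases Finset.mem_union.1 h with h | h
          · exact (hO L α).1 _ hα i h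
          · exact (hO L β).1 _ hβ i h
      exact ⟨hY this.1, hY this.2⟩
    have oα := (hO L α).2.1 _ _ hY hα
    show Γ = M.ev (insert j (α.vars ∪ β.vars)) α
    refine VXG_eq hS he hΓ (fun a => hinv a _ hG _ oα hrα) fun a => ?_
    obtain ⟨F, _, _, inc, pr, hp, hc, hx⟩ := h a
    refine ⟨F, _, _, inc, pr, hc, ?_⟩
    have hx' : Γ.comap (lift inc) = (M.pull inc).ev (insert j (α.vars ∪ β.vars)) α := hx
    rw [hx', hval a F inc pr hp hc _ hG _ oα hrα]

end Pool.NF
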