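import Pool.Agent.Work.MP_b103ef_pos.Interface1

set_option autoImplicit false

open Classical

namespace Pool.NF

theorem blk_VZR : Stmt_VZR := by
  intro L S ρ n E _ _ _ M
  have s1 : Subsingleton (Submodule ℚ E) := (Submodule.subsingleton_iff ℚ).2 inferInstance
  have s2 : Subsingleton (Submodule ℚ (Lab L →₀ E)) :=
    (Submodule.subsingleton_iff ℚ).2 inferInstance
  induction n with
  | zero =>
    exact ⟨fun i _ => ⟨fun _ => ⟨Subsingleton.elim _ _, Subsingleton.elim _ _⟩,
      fun _ => ⟨Subsingleton.elim _ _, Subsingleton.elim _ _⟩⟩,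
      fun Z _ ψ => Subsingleton.elim _ _⟩
  | succ n ih =>
    refine ⟨ih, fun σ _ _ => ?_⟩
    cases σ with
    | base F g => trivial
    | inf α β => trivial
    | sup α β => trivial
    | lk Z r j α β =>
      exact ⟨fun _ => ⟨⟨Subsingleton.elim _ _, Subsingleton.elim _ _⟩,
        ⟨Subsingleton.elim _ _, Subsingleton.elim _ _⟩⟩, fun _ => Subsingleton.elim _ _⟩
    | ek Z ψ j α β => exact Subsingleton.elim _ _

end Pool.NF
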