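import Pool.Agent.Work.MP_b103ef_pos.Interface3
import Pool.Agent.Work.MP_b103ef_pos.B_AGR
import Pool.Agent.Work.MP_b103ef_pos.B_AJ1
import Pool.Agent.Work.MP_b103ef_pos.B_AJ2
import Pool.Agent.Work.MP_b103ef_pos.B_BND
import Pool.Agent.Work.MP_b103ef_pos.B_CLZ
import Pool.Agent.Work.MP_b103ef_pos.B_CRD
import Pool.Agent.Work.MP_b103ef_pos.B_CST
import Pool.Agent.Work.MP_b103ef_pos.B_D01
import Pool.Agent.Work.MP_b103ef_pos.B_DFE
import Pool.Agent.Work.MP_b103ef_pos.B_DPI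
import Pool.Agent.Work.MP_b103ef_pos.B_DSM
import Pool.Agent.Work.MP_b103ef_pos.B_EC1
import Pool.Agent.Work.MP_b103ef_pos.B_EC2
import Pool.Agent.Work.MP_b103ef_pos.B_EC3
import Pool.Agent.Work.MP_b103ef_pos.B_EDC
import Pool.Agent.Work.MP_b103ef_pos.B_EDEC
import Pool.Agent.Work.MP_b103ef_pos.B_EE0
import Pool.Agent.Work.MP_b103ef_pos.B_EEQ
import Pool.Agent.Work.MP_b103ef_pos.B_EES
import Pool.Agent.Work.MP_b103ef_pos.B_EFR
import Pool.Agent.Work.MP_b103ef_pos.B_EFS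
import Pool.Agent.Work.MP_b103ef_pos.B_EFU
import Pool.Agent.Work.MP_b103ef_pos.B_EG0
import Pool.Agent.Work.MP_b103ef_pos.B_EK1
import Pool.Agent.Work.MP_b103ef_pos.B_EK2
import Pool.Agent.Work.MP_b103ef_pos.B_EMO
import Pool.Agent.Work.MP_b103ef_pos.B_EPD
import Pool.Agent.Work.MP_b103ef_pos.B_EPR
import Pool.Agent.Work.MP_b103ef_pos.B_ESN
import Pool.Agent.Work.MP_b103ef_pos.B_ESW
import Pool.Agent.Work.MP_b103ef_pos.B_ESW1
import Pool.Agent.Work.MP_b103ef_pos.B_ESW2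
import Pool.Agent.Work.MP_b103ef_pos.B_ESW3
import Pool.Agent.Work.MP_b103ef_pos.B_ESW4
import Pool.Agent.Work.MP_b103ef_pos.B_EUP
import Pool.Agent.Work.MP_b103ef_pos.B_EV0
import Pool.Agent.Work.MP_b103ef_pos.B_EVH
import Pool.Agent.Work.MP_b103ef_pos.B_EVS
import Pool.Agent.Work.MP_b103ef_pos.B_EW
import Pool.Agent.Work.MP_b103ef_pos.B_EX0
import Pool.Agent.Work.MP_b103ef_pos.B_EXS
import Pool.Agent.Work.MP_b103ef_pos.B_EZR
import Pool.Agent.Work.MP_b103ef_pos.B_FIA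
import Pool.Agent.Work.MP_b103ef_pos.B_FIB
import Pool.Agent.Work.MP_b103ef_pos.B_FID
import Pool.Agent.Work.MP_b103ef_pos.B_FIN
import Pool.Agent.Work.MP_b103ef_pos.B_FLG
import Pool.Agent.Work.MP_b103ef_pos.B_FLK
import Pool.Agent.Work.MP_b103ef_pos.B_FRD
import Pool.Agent.Work.MP_b103ef_pos.B_FRP
import Pool.Agent.Work.MP_b103ef_pos.B_HXD
import Pool.Agent.Work.MP_b103ef_pos.B_HXP
import Pool.Agent.Work.MP_b103ef_pos.B_INV
import Pool.Agent.Work.MP_b103ef_pos.B_ISO5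
import Pool.Agent.Work.MP_b103ef_pos.B_ISOV
import Pool.Agent.Work.MP_b103ef_pos.B_IVP
import Pool.Agent.Work.MP_b103ef_pos.B_KD
import Pool.Agent.Work.MP_b103ef_pos.B_KL1
import Pool.Agent.Work.MP_b103ef_pos.B_KLA
import Pool.Agent.Work.MP_b103ef_pos.B_KLB
import Pool.Agent.Work.MP_b103ef_pos.B_KLD
import Pool.Agent.Work.MP_b103ef_pos.B_KLE
import Pool.Agent.Work.MP_b103ef_pos.B_LEX
import Pool.Agent.Work.MP_b103ef_pos.B_MEX
import Pool.Agent.Work.MP_b103ef_pos.B_MPF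
import Pool.Agent.Work.MP_b103ef_pos.B_NAT
import Pool.Agent.Work.MP_b103ef_pos.B_NCH
import Pool.Agent.Work.MP_b103ef_pos.B_NCI
import Pool.Agent.Work.MP_b103ef_pos.B_NCM
import Pool.Agent.Work.MP_b103ef_pos.B_OKA
import Pool.Agent.Work.MP_b103ef_pos.B_OKB
import Pool.Agent.Work.MP_b103ef_pos.B_OKC
import Pool.Agent.Work.MP_b103ef_pos.B_OKN
import Pool.Agent.Work.MP_b103ef_pos.B_OKO
import Pool.Agent.Work.MP_b103ef_pos.B_OVR
import Pool.Agent.Work.MP_b103ef_pos.B_PAX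
import Pool.Agent.Work.MP_b103ef_pos.B_PLE
import Pool.Agent.Work.MP_b103ef_pos.B_PTP
import Pool.Agent.Work.MP_b103ef_pos.B_PUL
import Pool.Agent.Work.MP_b103ef_pos.B_QOS
import Pool.Agent.Work.MP_b103ef_pos.B_REF
import Pool.Agent.Work.MP_b103ef_pos.B_RET
import Pool.Agent.Work.MP_b103ef_pos.B_RKL
import Pool.Agent.Work.MP_b103ef_pos.B_SAG
import Pool.Agent.Work.MP_b103ef_pos.B_SAN
import Pool.Agent.Work.MP_b103ef_pos.B_SCA
import Pool.Agent.Work.MP_b103ef_pos.B_SEP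
import Pool.Agent.Work.MP_b103ef_pos.B_SEQ
import Pool.Agent.Work.MP_b103ef_pos.B_SMF
import Pool.Agent.Work.MP_b103ef_pos.B_SMI
import Pool.Agent.Work.MP_b103ef_pos.B_SSM
import Pool.Agent.Work.MP_b103ef_pos.B_SUPE
import Pool.Agent.Work.MP_b103ef_pos.B_SUPV
import Pool.Agent.Work.MP_b103ef_pos.B_SYS
import Pool.Agent.Work.MP_b103ef_pos.B_TLM
import Pool.Agent.Work.MP_b103ef_pos.B_TR2
import Pool.Agent.Work.MP_b103ef_pos.B_TRV
import Pool.Agent.Work.MP_b103ef_pos.B_TRX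
import Pool.Agent.Work.MP_b103ef_pos.B_TST
import Pool.Agent.Work.MP_b103ef_pos.B_TU1
import Pool.Agent.Work.MP_b103ef_pos.B_ULB
import Pool.Agent.Work.MP_b103ef_pos.B_ULT
import Pool.Agent.Work.MP_b103ef_pos.B_VDC
import Pool.Agent.Work.MP_b103ef_pos.B_VFR
import Pool.Agent.Work.MP_b103ef_pos.B_VFU
import Pool.Agent.Work.MP_b103ef_pos.B_VLK
import Pool.Agent.Work.MP_b103ef_pos.B_VMO
import Pool.Agent.Work.MP_b103ef_pos.B_VPR
import Pool.Agent.Work.MP_b103ef_pos.B_VRT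
import Pool.Agent.Work.MP_b103ef_pos.B_VSN
import Pool.Agent.Work.MP_b103ef_pos.B_VUP
import Pool.Agent.Work.MP_b103ef_pos.B_VXG
import Pool.Agent.Work.MP_b103ef_pos.B_VZR

/-! # MP_b103ef_al (S02731): assembly (generated) -/

set_option autoImplicit false

namespace Pool.NF

theorem all_ISO5 : Stmt_ISO5 := blk_ISO5
theorem all_ISOV : Stmt_ISOV := blk_ISOV
theorem all_PTP : Stmt_PTP := blk_PTP
theorem all_EVH : Stmt_EVH := blk_EVH
theorem all_OVR : Stmt_OVR := blk_OVR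
theorem all_RET : Stmt_RET := blk_RET all_EVH all_OVR
theorem all_PUL : Stmt_PUL := blk_PUL
theorem all_SYS : Stmt_SYS := blk_SYS
theorem all_PLE : Stmt_PLE := blk_PLE all_EVH all_OVR all_SYS all_PUL
theorem all_AGR : Stmt_AGR := blk_AGR all_OVR
theorem all_SAN : Stmt_SAN := blk_SAN
theorem all_DSM : Stmt_DSM := blk_DSM
theorem all_EDEC : Stmt_EDEC := blk_EDEC
theorem all_EPR : Stmt_EPR := blk_EPR all_EVH all_OVR
theorem all_RKL : Stmt_RKL := blk_RKL
theorem all_LEX : Stmt_LEX := blk_LEX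
theorem all_MEX : Stmt_MEX := blk_MEX
theorem all_INV : Stmt_INV := blk_INV
theorem all_VMO : Stmt_VMO := blk_VMO all_AGR all_OVR
theorem all_EMO : Stmt_EMO := blk_EMO all_VMO all_AGR all_OVR
theorem all_VSN : Stmt_VSN := blk_VSN all_OVR all_SAN
theorem all_PAX : Stmt_PAX := blk_PAX all_EVH all_OVR all_RET all_PUL
theorem all_VRT : Stmt_VRT := blk_VRT all_PAX
theorem all_VXG : Stmt_VXG := blk_VXG all_EVH all_OVR all_RET all_PUL all_SYS
theorem all_VDC : Stmt_VDC := blk_VDC all_OVR all_DSM all_EDEC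
theorem all_VPR : Stmt_VPR := blk_VPR all_OVR all_EPR
theorem all_VZR : Stmt_VZR := blk_VZR
theorem all_VUP : Stmt_VUP := blk_VUP all_AGR all_OVR all_VMO
theorem all_TRV : Stmt_TRV := blk_TRV
theorem all_CST : Stmt_CST := blk_CST all_VSN all_SAN all_OVR
theorem all_FID : Stmt_FID := p_FID
theorem all_NAT : Stmt_NAT := blk_NAT
theorem all_MPF : Stmt_MPF := blk_MPF
theorem all_SCA : Stmt_SCA := blk_SCA
theorem all_DFE : Stmt_DFE := blk_DFE
theorem all_DPI : Stmt_DPI := blk_DPI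
theorem all_OKA : Stmt_OKA := blk_OKA
theorem all_OKB : Stmt_OKB := blk_OKB
theorem all_OKC : Stmt_OKC := blk_OKC
theorem all_OKO : Stmt_OKO := blk_OKO all_FID
theorem all_OKN : Stmt_OKN := blk_OKN all_NAT
theorem all_EG0 : Stmt_EG0 := blk_EG0 all_FID all_OVR
theorem all_ESN : Stmt_ESN := blk_ESN all_SAN all_OVR all_VSN all_SYS all_FID
theorem all_SUPV : Stmt_SUPV := blk_SUPV all_VMO all_AGR all_EPR all_OVR
theorem all_HXP : Stmt_HXP := blk_HXP all_EVH all_OVR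
theorem all_SUPE : Stmt_SUPE := blk_SUPE all_EMO all_AGR all_HXP all_OVR
theorem all_CRD : Stmt_CRD := blk_CRD
theorem all_VFU : Stmt_VFU := blk_VFU all_VDC all_EDEC all_DPI all_CRD
theorem all_VFR : Stmt_VFR := blk_VFR all_SUPV all_VMO all_RET all_EPR all_OVR
theorem all_VLK : Stmt_VLK := blk_VLK all_SUPV all_TRV all_SAN all_VSN all_RKL all_LEX all_VMO all_OVR
theorem all_EV0 : Stmt_EV0 := p_EV0
theorem all_EVS : Stmt_EVS := blk_EVS all_VLK all_VFU all_VFR all_CRD all_VPR all_VUP all_VMO all_VRT all_OVR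
theorem all_HXD : Stmt_HXD := blk_HXD all_EDEC all_DSM all_OVR
theorem all_EW : Stmt_EW := blk_EW all_FID all_VRT all_VMO all_VZR all_SAN all_VSN all_OVR all_HXD
theorem all_FRD : Stmt_FRD := blk_FRD all_DFE all_NAT all_VDC
theorem all_EDC : Stmt_EDC := blk_EDC all_FRD all_HXD all_DFE all_OVR
theorem all_FRP : Stmt_FRP := blk_FRP all_NAT all_VPR all_VRT
theorem all_EPD : Stmt_EPD := blk_EPD all_FRP all_HXP all_OVR
theorem all_EEQ : Stmt_EEQ := blk_EEQ all_EDC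
theorem all_EZR : Stmt_EZR := blk_EZR all_VZR
theorem all_SMI : Stmt_SMI := blk_SMI
theorem all_EUP : Stmt_EUP := blk_EUP all_EMO all_VUP all_VMO all_AGR all_OVR
theorem all_SAG : Stmt_SAG := blk_SAG all_AGR all_OVR all_VUP
theorem all_SSM : Stmt_SSM := blk_SSM all_HXP all_VPR all_NAT all_OVR
theorem all_SEQ : Stmt_SEQ := blk_SEQ all_NAT all_VDC all_HXD all_DFE all_OVR
theorem all_D01 : Stmt_D01 := p_D01 all_VMO all_VRT all_FID all_OVR
theorem all_TU1 : Stmt_TU1 := blk_TU1 all_EG0 all_OKA all_OKB all_OKC all_OKO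
theorem all_TST : Stmt_TST := blk_TST all_SUPV all_EW all_VMO all_EPR all_AGR all_RET all_OVR
theorem all_SMF : Stmt_SMF := blk_SMF all_EDC all_DFE all_NAT all_EDEC all_DPI all_CRD
theorem all_EFU : Stmt_EFU := blk_EFU all_TST all_SMF all_OVR
theorem all_EFR : Stmt_EFR := p_EFR all_VFR all_SUPE all_OVR
theorem all_EFS : Stmt_EFS := blk_EFS all_HXP all_VFR all_NAT all_MPF all_RET all_OVR
theorem all_IVP : Stmt_IVP := blk_IVP all_INV all_TRV all_VSN all_SAN all_VMO all_PUL all_EVH all_OVR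
theorem all_ESW1 : Stmt_ESW1 := blk_ESW1 all_VLK all_D01 all_VXG all_SCA all_PAX all_VUP all_CRD all_FID all_OVR
theorem all_ESW2 : Stmt_ESW2 := blk_ESW2 all_VLK all_VXG all_PAX all_IVP all_CRD all_FID all_VMO all_EVH all_OVR
theorem all_ESW3 : Stmt_ESW3 := blk_ESW3 all_VLK all_VXG all_PAX all_IVP all_CRD all_FID all_VMO all_EVH all_OVR
theorem all_ESW4 : Stmt_ESW4 := blk_ESW4 all_SUPE all_TU1 all_ESN all_SAN all_RKL all_LEX all_MEX all_EMO all_OVR
theorem all_ESW : Stmt_ESW := blk_ESW all_ESW1 all_ESW2 all_ESW3 all_ESW4 all_OVR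
theorem all_EX0 : Stmt_EX0 := blk_EX0 all_EG0 all_OKA all_OKB all_OKC all_OKO all_VZR all_OVR
theorem all_EE0 : Stmt_EE0 := blk_EE0 all_EG0 all_OKA all_OKB all_OKC all_OKO all_OKN all_EZR all_OVR
theorem all_EXS : Stmt_EXS := blk_EXS all_EFU all_ESW all_EUP all_VLK all_VFR all_EPD all_EEQ all_EFS all_CRD all_VPR all_VMO all_VUP all_PAX all_NAT all_OVR
theorem all_EES : Stmt_EES := blk_EES all_EFU all_EFR all_EFS all_ESW all_EUP all_SSM all_SAG all_SMI all_SEQ all_EPD all_EEQ all_EMO all_CRD all_VLK all_MPF all_OVR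
theorem all_NCI : Stmt_NCI := blk_NCI all_SUPV all_SUPE all_VMO all_EMO all_OVR
theorem all_NCM : Stmt_NCM := blk_NCM all_NCI
theorem all_NCH : Stmt_NCH := blk_NCH all_SUPV all_EW all_PLE all_FID all_VMO all_EPR all_RET all_PUL all_AGR all_OVR
theorem all_BND : Stmt_BND := blk_BND all_FID
theorem all_TR2 : Stmt_TR2 := blk_TR2 all_BND
theorem all_TRX : Stmt_TRX := blk_TRX all_NCH all_TRV all_TR2 all_EG0
theorem all_AJ1 : Stmt_AJ1 := blk_AJ1 all_BND
theorem all_AJ2 : Stmt_AJ2 := blk_AJ2 all_EG0 all_OKA all_OKB all_OKC all_OKO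
theorem all_CLZ : Stmt_CLZ := blk_CLZ all_NCI all_NCH
theorem all_TLM : Stmt_TLM := blk_TLM all_NCM
theorem all_QOS : Stmt_QOS := blk_QOS all_NCM all_VSN all_ESN all_SAN
theorem all_KD : Stmt_KD := blk_KD all_QOS
theorem all_EK1 : Stmt_EK1 := p_EK1 all_TLM all_VXG all_VMO all_SAN all_VSN all_ESN all_OVR all_BND
theorem all_EK2 : Stmt_EK2 := p_EK2 all_TLM all_VXG all_VMO all_SAN all_VSN all_ESN all_EG0 all_OVR
theorem all_EC1 : Stmt_EC1 := blk_EC1 all_NCM all_SAN all_ESN all_QOS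
theorem all_EC2 : Stmt_EC2 := blk_EC2 all_NCM all_MEX all_SAN all_ESN all_VSN
theorem all_EC3 : Stmt_EC3 := blk_EC3 all_NCM all_SAN all_ESN
theorem all_FLG : Stmt_FLG := blk_FLG all_NCM all_QOS all_SAN all_VSN all_OVR
theorem all_FLK : Stmt_FLK := blk_FLK all_TLM all_BND
theorem all_REF : Stmt_REF := blk_REF all_FLG all_FLK all_OVR
theorem all_KLA : Stmt_KLA := blk_KLA all_EK2 all_MEX
theorem all_KLB : Stmt_KLB := blk_KLB all_EK2 all_MEX all_EC1 all_CLZ all_NCI all_OVR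
theorem all_KLD : Stmt_KLD := blk_KLD all_KLA all_KLB all_REF all_EK1 all_EC2 all_MEX all_TRX all_NCH all_NCI all_OVR
theorem all_KLE : Stmt_KLE := blk_KLE all_KLB all_REF all_EK1 all_EC3 all_MEX all_CST all_NCI all_OVR
theorem all_KL1 : Stmt_KL1 := blk_KL1 all_KLA all_KLD
theorem all_ULB : Stmt_ULB := blk_ULB all_PTP
theorem all_ULT : Stmt_ULT := blk_ULT all_ULB all_KL1 all_KLE all_TRX all_NCI all_NCH all_PTP all_OVR
theorem all_FIA : Stmt_FIA := blk_FIA all_ISO5 all_ISOV all_NCI all_NCH all_CST all_OVR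
theorem all_FIB : Stmt_FIB := blk_FIB all_QOS
theorem all_SEP : Stmt_SEP := blk_SEP
theorem all_FIN : Stmt_FIN := blk_FIN all_ULT all_FIA all_FIB all_AJ1 all_AJ2

end Pool.NF
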