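import Pool.Agent.Work.MP_b103ef_pos.Interface2

/-! Block ALL: everything extends. -/

namespace Pool.NF

theorem blk_ALL (h1 : Stmt_EV0) (h2 : Stmt_EVS) (h3 : Stmt_EX0) (h4 : Stmt_EXS)
    (h5 : Stmt_EE0) (h6 : Stmt_EES) : Stmt_ALL := by
  intro L
  have hV : ∀ n, EVst L n := by
    intro n
    induction n with
    | zero => exact h1 L
    | succ n ih => exact h2 L n ih
  have hXE : ∀ n, EXst L n ∧ EEst L n := by
    intro n
    induction n with
    | zero => exact ⟨h3 L, h5 L⟩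
    | succ n ih => exact ⟨h4 L n (hV n) ih.1 ih.2, h6 L n (hV n) ih.1 ih.2⟩
  exact ⟨hV, fun n => (hXE n).1, fun n => (hXE n).2⟩

end Pool.NF
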