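import Pool.Agent.Work.MP_b103ef_pos.Interface1

set_option autoImplicit false

open Classical

namespace Pool.NF

theorem blk_DPI : Stmt_DPI := by
  intro ι F _ _
  refine ⟨{ inc := fun a => DFinsupp.lsingle a
            pr := fun a => DFinsupp.lapply a
            pr_inc := fun a v => ?_
            pr_inc_ne := fun a b v hab => ?_
            fin := fun v => ?_
            ext := fun v hv => ?_ }, fun a v => ?_, fun a v => ?_⟩
  · simp
  · simp only [DFinsupp.lapply_apply, DFinsupp.lsingle_apply]
    exact DFinsupp.single_eq_of_ne hab
  · refine Set.Finite.subset (DFinsupp.support v).finite_toSet fun a ha => ?_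
    simpa using ha
  · exact DFinsupp.ext hv
  · simp
  · rfl

end Pool.NF
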