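import Pool.Agent.Work.MP_b103ef_pos.Interface2

/-! Block EFS: fullness passes to sums. -/

set_option autoImplicit false

open Classical

namespace Pool.NF

/-- Homomorphisms restrict to smaller sets. -/
theorem EFS_mono (hOVR : Stmt_OVR) {L : Type} {S S' : Set L} (h : S ⊆ S') {n : ℕ} {E F : Type}
    [AddCommGroup E] [Module ℚ E] [AddCommGroup F] [Module ℚ F] {M : Str L E} {M' : Str L F}
    {f : E →ₗ[ℚ] F} (hf : Str.Hom S' n M M' f) : Str.Hom S n M M' f := by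
  refine ⟨fun i hi l => hf.1 i (h hi) l, fun Z hZ ψ => hf.2.1 Z (hZ.trans h) ψ,
    fun σ hσ ho hr => hf.2.2 σ hσ ((hOVR L σ).2.1 S S' h ho) hr⟩

/-- Naturality of pullbacks. -/
theorem EFS_pull {L : Type} {S : Set L} {n : ℕ} {E F E' F' : Type}
    [AddCommGroup E] [Module ℚ E] [AddCommGroup F] [Module ℚ F]
    [AddCommGroup E'] [Module ℚ E'] [AddCommGroup F'] [Module ℚ F'] {M : Str L E} {M' : Str L F}
    {f : E →ₗ[ℚ] F} (hf : Str.Hom S n M M' f) (i : E' →ₗ[ℚ] E) (i' : F' →ₗ[ℚ] F)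
    (f' : E' →ₗ[ℚ] F') (hc : f.comp i = i'.comp f') :
    Str.Hom S n (M.pull i) (M'.pull i') f' := by
  have hc1 : ∀ v, f (i v) = i' (f' v) := fun v => LinearMap.congr_fun hc v
  have hc2 : ∀ v : Lab L →₀ E', lift f (lift i v) = lift i' (lift f' v) := by
    intro v
    ext j
    simp [lift, hc1]
  refine ⟨?_, ?_, ?_⟩
  · intro a ha l v hv
    have h1 : i v ∈ M.x a l := hv
    have h2 := hf.1 a ha l h1
    show i' (f' v) ∈ M'.x a l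
    rw [← hc1]
    exact h2
  · intro Z hZ ψ v hv
    have h1 : i v ∈ M.u Z ψ := hv
    have h2 := hf.2.1 Z hZ ψ h1
    show i' (f' v) ∈ M'.u Z ψ
    rw [← hc1]
    exact h2
  · intro σ hσ ho hr v hv
    have h1 : lift i v ∈ M.g σ := hv
    have h2 := hf.2.2 σ hσ ho hr h1
    show lift i' (lift f' v) ∈ M'.g σ
    rw [← hc2]
    exact h2

/-- Fullness of the parts. -/
theorem EFS_part (hVFR : Stmt_VFR) (hOVR : Stmt_OVR) {L : Type} {n : ℕ} {S : Set L} {ρ : L → V5}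
    {κ : Cardinal.{0}} {E F E' F' : Type}
    [AddCommGroup E] [Module ℚ E] [AddCommGroup F] [Module ℚ F]
    [AddCommGroup E'] [Module ℚ E'] [AddCommGroup F'] [Module ℚ F'] {M : Str L E} {M' : Str L F}
    {f : E →ₗ[ℚ] F} {g : F →ₗ[ℚ] E} (hf : Str.Hom Set.univ n M M' f)
    (hg : Str.Hom Set.univ n M' M g) (i : E' →ₗ[ℚ] E) (i' : F' →ₗ[ℚ] F)
    (f' : E' →ₗ[ℚ] F') (g' : F' →ₗ[ℚ] E') (hc : f.comp i = i'.comp f')
    (hc' : g.comp i' = i.comp g') (hid : g'.comp f' = LinearMap.id)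
    (hF : VFull κ n S ρ (M.pull i)) : VFull κ n S ρ (M'.pull i') := by
  refine (hVFR L n S ρ κ E' (M.pull i) hF).2.2.2 F' (M'.pull i') f' g'
    (fun v => LinearMap.congr_fun hid v) ?_ ?_
  · exact EFS_pull (EFS_mono hOVR (Set.subset_univ S) hf) i i' f' hc
  · exact EFS_pull (EFS_mono hOVR (Set.subset_univ S) hg) i' i g' hc'

/-- **EFS** -/
theorem blk_EFS (hHXP : Stmt_HXP) (hVFR : Stmt_VFR) (hNAT : Stmt_NAT) (hMPF : Stmt_MPF)
    (hRET : Stmt_RET) (hOVR : Stmt_OVR) : Stmt_EFS := by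
  intro L n S φ κ V P Q V' P' Q' _ _ _ _ _ _ _ _ _ _ _ _ M M' hF
  have hH := (hHXP L φ V P Q V' P' Q' M M').1 n
  have h1 := hH.2.2.1
  have h2 := hH.2.2.2
  have eV : (LinearMap.snd ℚ V V').comp (LinearMap.inr ℚ V V') = LinearMap.id :=
    LinearMap.snd_comp_inr ℚ V V'
  have eP : (LinearMap.snd ℚ P P').comp (LinearMap.inr ℚ P P') = LinearMap.id :=
    LinearMap.snd_comp_inr ℚ P P'
  have eQ : (LinearMap.snd ℚ Q Q').comp (LinearMap.inr ℚ Q Q') = LinearMap.id :=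
    LinearMap.snd_comp_inr ℚ Q Q'
  have hM := hMPF V' P' Q' (V × V') (P × P') (Q × Q') V' P' Q' (LinearMap.inr ℚ V V')
    (LinearMap.inr ℚ P P') (LinearMap.inr ℚ Q Q') (LinearMap.snd ℚ V V') (LinearMap.snd ℚ P P')
    (LinearMap.snd ℚ Q Q')
  rw [eV, eP, eQ] at hM
  obtain ⟨mE, mX, mY, iE, iX, iY⟩ := hM
  have hN1 := hNAT V' P' Q' (V × V') (P × P') (Q × Q') (LinearMap.inr ℚ V V')
    (LinearMap.inr ℚ P P') (LinearMap.inr ℚ Q Q')
  have hN2 := hNAT (V × V') (P × P') (Q × Q') V' P' Q' (LinearMap.snd ℚ V V')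
    (LinearMap.snd ℚ P P') (LinearMap.snd ℚ Q Q')
  obtain ⟨⟨aX, -⟩, ⟨aV, -⟩, ⟨aY, -⟩, ⟨aI, -⟩, ⟨aK, -⟩, ⟨aI', -⟩, ⟨aK', -⟩, ⟨aP, -⟩, ⟨aQ, -⟩, -⟩ := hN1
  obtain ⟨⟨bX, -⟩, ⟨bV, -⟩, ⟨bY, -⟩, ⟨bI, -⟩, ⟨bK, -⟩, ⟨bI', -⟩, ⟨bK', -⟩, ⟨bP, -⟩, ⟨bQ, -⟩, -⟩ := hN2
  have pid : ∀ {A B A' B' : Type} [AddCommGroup A] [Module ℚ A] [AddCommGroup B] [Module ℚ B]
      [AddCommGroup A'] [Module ℚ A'] [AddCommGroup B'] [Module ℚ B'] (f : A →ₗ[ℚ] A')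
      (g : B →ₗ[ℚ] B') (f' : A' →ₗ[ℚ] A) (g' : B' →ₗ[ℚ] B), f'.comp f = LinearMap.id →
      g'.comp g = LinearMap.id → (f'.prodMap g').comp (f.prodMap g) = LinearMap.id := by
    intro A B A' B' _ _ _ _ _ _ _ _ f g f' g' e1 e2
    rw [LinearMap.prodMap_comp, e1, e2]
    exact LinearMap.prodMap_id
  obtain ⟨F1, FX1, FV1, FY1, FI1, FK1, FI2, FK2, FP1, FQ1⟩ := hF
  refine ⟨?_, ?_, ?_, ?_, ?_, ?_, ?_, ?_, ?_, ?_⟩
  · intro α β hα hβ hrα hrβ hE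
    have h3 := F1 α β hα hβ hrα hrβ hE
    refine h3.trans ?_
    refine ((hRET L S n _ _ (fprod M M') M' _ _ (fun v => ?_)
      (EFS_mono hOVR (Set.subset_univ S) h1) (EFS_mono hOVR (Set.subset_univ S) h2)).2 α β hα hβ
      hrα hrβ).2 _ ?_
    · have := LinearMap.congr_fun (mE.trans iE) v
      exact this
    · intro j hj
      rcases Finset.mem_union.mp hj with hj | hj
      · exact (hOVR L α).1 S hα j hj
      · exact (hOVR L β).1 S hβ j hj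
  · exact EFS_part hVFR hOVR h1 h2 incX incX _ _ aX bX (mX.trans iX) FX1
  · exact EFS_part hVFR hOVR h1 h2 incV incV _ _ aV bV eV FV1
  · exact EFS_part hVFR hOVR h1 h2 incY incY _ _ aY bY (mY.trans iY) FY1
  · exact EFS_part hVFR hOVR h1 h2 incI incI _ _ aI bI (mX.trans iX) FI1
  · exact EFS_part hVFR hOVR h1 h2 incK incK _ _ aK bK
      (pid _ _ _ _ eV (mY.trans iY)) FK1
  · exact EFS_part hVFR hOVR h1 h2 incI' incI' _ _ aI' bI'
      (pid _ _ _ _ (mX.trans iX) eV) FI2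
  · exact EFS_part hVFR hOVR h1 h2 incK' incK' _ _ aK' bK' (mY.trans iY) FK2
  · exact EFS_part hVFR hOVR h1 h2 incP incP _ _ aP bP eP FP1
  · exact EFS_part hVFR hOVR h1 h2 incQ incQ _ _ aQ bQ eQ FQ1

end Pool.NF
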