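import Pool.Agent.Work.MP_b103ef_pos.ESWAux

/-! Block ESW2: the extension step for a symbol over `S ∖ C`, case (II) (helper34). -/

set_option autoImplicit false

open Classical

namespace Pool.NF

/-- invariance of the value of a symbol under the two idempotents of a decomposition -/
theorem ESW2_inv {L : Type} (hIVP : Stmt_IVP) (hVMO : Stmt_VMO) (hEVH : Stmt_EVH)
    (hOVR : Stmt_OVR) {S : Set L} {φ : L → V5} {n : ℕ} {E F1 F2 : Type} [AddCommGroup E]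
    [Module ℚ E] [AddCommGroup F1] [Module ℚ F1] [AddCommGroup F2] [Module ℚ F2] (M : Str L E)
    (inc1 : F1 →ₗ[ℚ] E) (pr1 : E →ₗ[ℚ] F1) (inc2 : F2 →ₗ[ℚ] E) (pr2 : E →ₗ[ℚ] F2)
    (h11 : ∀ v, pr1 (inc1 v) = v) (h22 : ∀ v, pr2 (inc2 v) = v)
    (hs : ∀ v, inc1 (pr1 v) + inc2 (pr2 v) = v)
    (hh1 : Str.Hom S n M M (inc1.comp pr1)) (hh2 : Str.Hom S n M M (inc2.comp pr2))
    (hg1 : VG n S (pp ∘ φ) F1 (M.pull inc1)) (hg2 : VG n S (pq ∘ φ) F2 (M.pull inc2))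
    (σ : Tm L) (Γ : Submodule ℚ (Lab L →₀ E)) (hσ : σ.Over S) (hsym : σ.IsSym)
    (hrank : σ.rank = n + 1)
    (hne : ∀ (Z : Finset L) (r : L → V5) (j : Lab L) (α β : Tm L), σ = Tm.lk Z r j α β →
      ∃ z ∈ Z, pp (φ z) ≠ pq (φ z)) (hax : VAx (VG n) M σ Γ) :
    Inv Γ (inc1.comp pr1) ∧ Inv Γ (inc2.comp pr2) := by
  cases σ with
  | base F g => exact absurd hsym id
  | inf α β => exact absurd hsym id
  | sup α β => exact absurd hsym id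
  | lk Z r j α β =>
    by_cases hL : Loc (VG n) Z r j α β
    · have iso := hax.1 hL
      obtain ⟨z, hz, hz'⟩ := hne Z r j α β rfl
      have hagr : ∀ (F : Type) [AddCommGroup F] [Module ℚ F] (M' : Str L F),
          Str.Agree (↑Z : Set L) n M' M' := fun F _ _ M' =>
        ⟨fun _ _ _ => rfl, fun _ _ _ => rfl, fun _ _ _ _ => rfl⟩
      by_cases he : Set.EqOn (pp ∘ φ) r ↑Z
      · have he' : ¬ Set.EqOn (pq ∘ φ) r ↑Z := by
          intro h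
          exact hz' ((he (Finset.mem_coe.mpr hz)).trans (h (Finset.mem_coe.mpr hz)).symm)
        have := hIVP L S n E F2 M inc2 pr2 (inc1.comp pr1) h22 hh2
          (fun v => by rw [add_comm]; exact hs v) (pq ∘ φ) Z r j α β hσ hrank hL
          (ESWA_isv _ φ).2.1 he'
          (hVMO L S ↑Z (pq ∘ φ) (pq ∘ φ) n n F2 (M.pull inc2) (M.pull inc2) hg2 le_rfl hσ.1
            (fun _ _ => rfl) (hagr F2 _)) Γ iso
        exact ⟨this.2, this.1⟩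
      · exact hIVP L S n E F1 M inc1 pr1 (inc2.comp pr2) h11 hh1 hs (pp ∘ φ) Z r j α β hσ hrank
          hL (ESWA_isv _ φ).1 he
          (hVMO L S ↑Z (pp ∘ φ) (pp ∘ φ) n n F1 (M.pull inc1) (M.pull inc1) hg1 le_rfl hσ.1
            (fun _ _ => rfl) (hagr F1 _)) Γ iso
    · have h0 : Γ = ⊥ := hax.2 hL
      subst h0
      exact ⟨bot_le, bot_le⟩
  | ek Z ψ j α β =>
    have h0 : Γ = M.ev (insert j (α.vars ∪ β.vars)) α := hax
    subst h0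
    obtain ⟨hZ, hα, hβ, hj⟩ := hσ
    have hα' : α.Over S := (hOVR L α).2.1 _ _ hZ hα
    have hβ' : β.Over S := (hOVR L β).2.1 _ _ hZ hβ
    have hrα : α.rank ≤ n := by
      have := le_max_left α.rank β.rank
      simp only [Tm.rank] at hrank
      omega
    have hG : ∀ j' ∈ insert j (α.vars ∪ β.vars), LOver S j' := by
      intro j' hj'
      rcases Finset.mem_insert.mp hj' with h | h
      · subst h
        exact ⟨hZ hj.1, hZ hj.2⟩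
      · rcases Finset.mem_union.mp h with h | h
        · exact (hOVR L α).1 S hα' j' h
        · exact (hOVR L β).1 S hβ' j' h
    exact ⟨((hEVH L S n E E M M (inc1.comp pr1) hh1).2.2 _ hG).2.2 α hα' hrα,
      ((hEVH L S n E E M M (inc2.comp pr2) hh2).2.2 _ hG).2.2 α hα' hrα⟩

theorem blk_ESW2 (hVLK : Stmt_VLK) (hVXG : Stmt_VXG) (hPAX : Stmt_PAX) (hIVP : Stmt_IVP)
    (hCRD : Stmt_CRD) (hFID : Stmt_FID) (hVMO : Stmt_VMO) (hEVH : Stmt_EVH)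
    (hOVR : Stmt_OVR) : Stmt_ESW2 := by
  intro L n hEV S φ hHit κ hκ V P Q _ _ _ _ _ _ M hM hfull hcard σ hsym hS hrank hC h01 ΓV hΓV
  have hfr := ESWA_fr hM
  obtain ⟨⟨hX1, hV1, hY1, hVX, hYX, hXV, hYV, hXY, hVY⟩, ⟨hI1, hK1, -, -⟩,
    ⟨hI'1, hK'1, -, -⟩, -, ⟨-, hIK, hIK'⟩, hsX, -, -, -⟩ := hFID V P Q
  obtain ⟨⟨hAX, hAV, hAY, gX, gV, gY⟩, ⟨hBI, hBK, gI, gK⟩, ⟨hCI, hCK, gI', gK'⟩, -⟩ := hfr
  obtain ⟨-, fX, -, fY, -⟩ := hfull
  have hinjX : Function.Injective (incX : FX V P →ₗ[ℚ] FE V P Q) :=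
    Function.LeftInverse.injective (g := (prX : FE V P Q →ₗ[ℚ] FX V P)) hX1
  have hinjY : Function.Injective (incY : FY V Q →ₗ[ℚ] FE V P Q) :=
    Function.LeftInverse.injective (g := (prY : FE V P Q →ₗ[ℚ] FY V Q)) hY1
  obtain ⟨ΓX, hΓX⟩ := hVLK L n hEV (dC S φ) (pp ∘ φ) (ESWA_isv _ φ).1 κ hκ (FX V P)
    (M.pull incX) gX fX ((hCRD.1 (Lab L) (FX V P) (FE V P Q) incX hinjX).trans hcard) σ hsym hC
    hrank
  obtain ⟨ΓY, hΓY⟩ := hVLK L n hEV (dC S φ) (pq ∘ φ) (ESWA_isv _ φ).2.1 κ hκ (FY V Q)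
    (M.pull incY) gY fY ((hCRD.1 (Lab L) (FY V Q) (FE V P Q) incY hinjY).trans hcard) σ hsym hC
    hrank
  obtain ⟨Γ, hΓ⟩ : ∃ Γ : Submodule ℚ (Lab L →₀ FE V P Q), ∀ v, v ∈ Γ ↔
      lift prX v ∈ ΓX ∧ lift prV v ∈ ΓV ∧ lift prY v ∈ ΓY :=
    ⟨ΓX.comap (lift prX) ⊓ (ΓV.comap (lift prV) ⊓ ΓY.comap (lift prY)),
      fun v => by simp [Submodule.mem_inf]⟩
  have iX : Inv Γ (incX.comp prX) := by
    intro v hv
    rw [Submodule.mem_comap, hΓ, ESWA_lc, ESWA_l1 _ _ hX1, ESWA_l0 _ _ hVX, ESWA_l0 _ _ hYX]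
    rw [hΓ] at hv
    exact ⟨hv.1, ΓV.zero_mem, ΓY.zero_mem⟩
  have iV : Inv Γ (incV.comp prV) := by
    intro v hv
    rw [Submodule.mem_comap, hΓ, ESWA_lc, ESWA_l1 _ _ hV1, ESWA_l0 _ _ hXV, ESWA_l0 _ _ hYV]
    rw [hΓ] at hv
    exact ⟨ΓX.zero_mem, hv.2.1, ΓY.zero_mem⟩
  have iY : Inv Γ (incY.comp prY) := by
    intro v hv
    rw [Submodule.mem_comap, hΓ, ESWA_lc, ESWA_l1 _ _ hY1, ESWA_l0 _ _ hXY, ESWA_l0 _ _ hVY]
    rw [hΓ] at hv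
    exact ⟨ΓX.zero_mem, ΓV.zero_mem, hv.2.2⟩
  have cX : Γ.comap (lift incX) = ΓX := by
    ext v
    rw [Submodule.mem_comap, hΓ, ESWA_l1 _ _ hX1, ESWA_l0 _ _ hVX, ESWA_l0 _ _ hYX]
    exact ⟨fun h => h.1, fun h => ⟨h, ΓV.zero_mem, ΓY.zero_mem⟩⟩
  have cV : Γ.comap (lift incV) = ΓV := by
    ext v
    rw [Submodule.mem_comap, hΓ, ESWA_l1 _ _ hV1, ESWA_l0 _ _ hXV, ESWA_l0 _ _ hYV]
    exact ⟨fun h => h.2.1, fun h => ⟨ΓX.zero_mem, h, ΓY.zero_mem⟩⟩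
  have cY : Γ.comap (lift incY) = ΓY := by
    ext v
    rw [Submodule.mem_comap, hΓ, ESWA_l1 _ _ hY1, ESWA_l0 _ _ hXY, ESWA_l0 _ _ hVY]
    exact ⟨fun h => h.2.2, fun h => ⟨ΓX.zero_mem, ΓV.zero_mem, h⟩⟩
  have aX : VAx (VG n) (M.pull incX) σ (Γ.comap (lift incX)) := by rw [cX]; exact hΓX
  have aV : VAx (VG n) (M.pull incV) σ (Γ.comap (lift incV)) := by rw [cV]; exact hΓV
  have aY : VAx (VG n) (M.pull incY) σ (Γ.comap (lift incY)) := by rw [cY]; exact hΓY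
  have hglob : VAx (VG n) M σ Γ := by
    refine hVXG L (dC S φ) n (FE V P Q) (Fin 3) _ hsX M ?_ σ Γ hC hrank ?_ ?_
    · intro a
      match a with
      | 0 => exact hAX
      | 1 => exact hAV
      | 2 => exact hAY
    · intro a
      match a with
      | 0 => exact iX
      | 1 => exact iV
      | 2 => exact iY
    · intro a
      match a with
      | 0 => exact ⟨FX V P, _, _, incX, prX, hX1, rfl, aX⟩
      | 1 => exact ⟨V, _, _, incV, prV, hV1, rfl, aV⟩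
      | 2 => exact ⟨FY V Q, _, _, incY, prY, hY1, rfl, aY⟩
  have hne : ∀ (Z : Finset L) (r : L → V5) (j : Lab L) (α β : Tm L), σ = Tm.lk Z r j α β →
      ∃ z ∈ Z, pp (φ z) ≠ pq (φ z) := by
    rintro Z r j α β rfl
    by_contra hcon
    push Not at hcon
    refine h01 ⟨fun z hz => ⟨hS.1 hz, ?_⟩, hC.2⟩
    have h1 := hcon z (Finset.mem_coe.mp hz)
    cases hz' : φ z <;> rw [hz'] at h1 <;> simp [pp, pq] at h1 <;> simp
  refine ⟨Γ, fun _ => ⟨⟨iX, iV, iY⟩, cV, aX, aV, aY⟩, fun hB => ?_, fun hA => ?_,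
    fun h => absurd h h01, ?_⟩
  · obtain ⟨i1, i2⟩ := ESW2_inv hIVP hVMO hEVH hOVR M incI prI incK prK hI1 hK1 hIK hBI hBK gI gK
      σ Γ hB hsym hrank hne hglob
    exact ⟨⟨i1, i2⟩, hPAX L (dB S φ) n (FE V P Q) _ M incI prI hI1 hBI σ Γ hB hrank i1 hglob,
      hPAX L (dB S φ) n (FE V P Q) _ M incK prK hK1 hBK σ Γ hB hrank i2 hglob⟩
  · obtain ⟨i1, i2⟩ := ESW2_inv hIVP hVMO hEVH hOVR M incI' prI' incK' prK' hI'1 hK'1 hIK' hCI
      hCK gI' gK' σ Γ hA hsym hrank hne hglob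
    exact ⟨⟨i1, i2⟩, hPAX L (dA S φ) n (FE V P Q) _ M incI' prI' hI'1 hCI σ Γ hA hrank i1 hglob,
      hPAX L (dA S φ) n (FE V P Q) _ M incK' prK' hK'1 hCK σ Γ hA hrank i2 hglob⟩
  · refine ESWA_hax _ _ φ M σ Γ (dC S φ) ?_ hC
    rintro ⟨-, -, ⟨x, hx, hx'⟩⟩
    exact hx.2 hx'

end Pool.NF
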