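import Pool.Agent.Work.MP_b103ef_pos.Interface3

set_option autoImplicit false

open Classical

namespace Pool.NF

theorem FIA_fix (φ : V5) (h : φ = V5.o ∨ φ = V5.i) : pp φ = φ ∧ pq φ = φ ∧ ps φ = φ := by
  rcases h with h | h <;> subst h <;> exact ⟨rfl, rfl, rfl⟩

theorem blk_FIA (hI5 : Stmt_ISO5) (hIV : Stmt_ISOV) (hNCI : Stmt_NCI) (hNCH : Stmt_NCH)
    (hCST : Stmt_CST) (hOVR : Stmt_OVR) : Stmt_FIA := by
  intro L _ hAll φ hφ α β hα hβ hNC
  obtain ⟨Zα, -, hZα⟩ := (hOVR L α).2.2.1 Set.univ hα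
  obtain ⟨Zβ, -, hZβ⟩ := (hOVR L β).2.2.1 Set.univ hβ
  -- a finite index set containing any given finite set
  have hover : ∀ T : Finset L, α.Over (↑(Zα ∪ Zβ ∪ T) : Set L) ∧ β.Over (↑(Zα ∪ Zβ ∪ T) : Set L) := by
    intro T
    constructor
    · refine (hOVR L α).2.1 _ _ ?_ hZα
      intro x hx
      simp only [Finset.coe_union, Set.mem_union]
      exact Or.inl (Or.inl hx)
    · refine (hOVR L β).2.1 _ _ ?_ hZβ
      intro x hx
      simp only [Finset.coe_union, Set.mem_union]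
      exact Or.inl (Or.inr hx)
  have hhom : ∀ φ' : L → V5, IsPt φ' → IsHom φ' := fun φ' h => ⟨h.1, h.2.1⟩
  rcases hφ.2.2 with hV | hH
  · -- vertex points
    have hnc : NC (VG (max α.rank β.rank)) Set.univ φ α β := by
      rcases hNC with h | h
      · exact h.2
      · obtain ⟨⟨x, hx, hxa⟩, -, -⟩ := h.1
        rcases hV x hx with h' | h' <;> rw [hxa] at h' <;> cases h'
    have hcst : ∃ z z' : L, φ z = V5.o ∧ φ z' = V5.i := by
      by_contra hcon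
      push Not at hcon
      refine hCST L Set.univ φ (max α.rank β.rank) ?_ hV α β hα hβ (le_max_left _ _)
        (le_max_right _ _) hnc
      intro x hx y hy
      rcases hV x hx with h1 | h1 <;> rcases hV y hy with h2 | h2
      · rw [h1, h2]
      · exact absurd h2 (hcon x y h1)
      · exact absurd h1 (hcon y x h2)
      · rw [h1, h2]
    obtain ⟨z, z', hz, hz'⟩ := hcst
    set Z : Finset L := Zα ∪ Zβ ∪ {z, z'} with hZ
    obtain ⟨hαZ, hβZ⟩ := hover {z, z'}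
    have hzZ : z ∈ Z := by simp [hZ]
    have hzZ' : z' ∈ Z := by simp [hZ]
    have hVZ : IsV (↑Z : Set L) φ := fun x _ => hV x (Set.mem_univ x)
    obtain ⟨x, y, hxy, h1, h2⟩ := hIV L Z φ hVZ ⟨z, hzZ, hz⟩ ⟨z', hzZ', hz'⟩
    refine ⟨x, y, hxy, h1 φ (hhom φ hφ) (fun _ _ => rfl), fun φ' hφ' hne => ?_⟩
    have h3 := h2 φ' (hhom φ' hφ') hne
    have hN := fun χ => hNCI L hAll (↑Z : Set L) Set.univ χ α β (max α.rank β.rank)
      (Set.subset_univ _) hαZ hβZ (le_max_left _ _) (le_max_right _ _)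
    have hNφ : NCs (↑Z : Set L) φ α β := ((hN φ).2.2.2 (Or.inl hV)).2 hNC
    rcases hφ'.2.2 with hV' | hH'
    · have heq : Set.EqOn φ φ' ↑Z := by
        rcases h3 with h | h | ⟨-, h⟩
        · exact fun w hw => (h hw).trans (FIA_fix _ (hV' w (Set.mem_univ w))).1
        · exact fun w hw => (h hw).trans (FIA_fix _ (hV' w (Set.mem_univ w))).2.1
        · exact fun w hw => (h hw).trans (FIA_fix _ (hV' w (Set.mem_univ w))).2.2
      exact ((hN φ').2.2.2 (Or.inl hV')).1 (((hN φ).2.2.1 φ' heq).1 hNφ)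
    · have hH := hNCH L hAll (↑Z : Set L) Set.univ φ' α β (Set.subset_univ _) hH' hαZ hβZ
      rcases h3 with h | h | ⟨hc, h⟩
      · exact hH.2.2.1 (((hN φ).2.2.1 _ h).1 hNφ)
      · exact hH.2.2.2 (((hN φ).2.2.1 _ h).1 hNφ)
      · exact (hH.1 hc).2 (Or.inr (Or.inl (((hN φ).2.2.1 _ h).1 hNφ)))
  · -- hitting points
    obtain ⟨⟨xa, -, ha⟩, ⟨xb, -, hb⟩, ⟨xc, -, hc⟩⟩ := hH
    set Z : Finset L := Zα ∪ Zβ ∪ {xa, xb, xc} with hZ
    obtain ⟨hαZ, hβZ⟩ := hover {xa, xb, xc}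
    have hHZ : Hit (↑Z : Set L) φ :=
      ⟨⟨xa, by simp [hZ], ha⟩, ⟨xb, by simp [hZ], hb⟩, ⟨xc, by simp [hZ], hc⟩⟩
    obtain ⟨x, y, hxy, h1⟩ := hI5 L Z φ hHZ
    refine ⟨x, y, hxy, (h1 φ (hhom φ hφ)).2 (fun _ _ => rfl), fun φ' hφ' hne => ?_⟩
    have heq : Set.EqOn φ' φ ↑Z := (h1 φ' (hhom φ' hφ')).1 hne
    have hHZ' : Hit (↑Z : Set L) φ' := by
      refine ⟨⟨xa, by simp [hZ], ?_⟩, ⟨xb, by simp [hZ], ?_⟩, ⟨xc, by simp [hZ], ?_⟩⟩
      · rw [heq (by simp [hZ]), ha]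
      · rw [heq (by simp [hZ]), hb]
      · rw [heq (by simp [hZ]), hc]
    have hN := fun χ => hNCI L hAll (↑Z : Set L) Set.univ χ α β (max α.rank β.rank)
      (Set.subset_univ _) hαZ hβZ (le_max_left _ _) (le_max_right _ _)
    have hNφ : NCs (↑Z : Set L) φ α β := ((hN φ).2.2.2 (Or.inr hHZ)).2 hNC
    exact ((hN φ').2.2.2 (Or.inr hHZ')).1 (((hN φ').2.2.1 φ heq).2 hNφ)

end Pool.NF
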