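import Pool.Agent.Work.MP_b103ef_pos.B_JOD

set_option autoImplicit false

namespace Pool.NF

open Pool.Agent.Work.MP_b103ef_al_h93 Pool.Agent.Work.MP_b103ef_al_h94

theorem blk_ISO5 : Stmt_ISO5 := by
  intro L _ Z ψ hψ
  obtain ⟨⟨za, hza, ha⟩, ⟨zb, hzb, hb⟩, ⟨zc, hzc, hc⟩⟩ := hψ
  obtain ⟨x, y, hxy, h⟩ := isolate_hitting Z (fun z => JOD_vn (ψ z))
    ⟨za, hza, by simp only [ha]; rfl⟩ ⟨zb, hzb, by simp only [hb]; rfl⟩
    ⟨zc, hzc, by simp only [hc]; rfl⟩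
  refine ⟨x, y, hxy, ?_⟩
  intro φ hφ
  have h1 := h (JOD_homN φ hφ)
  constructor
  · intro hne z hz
    exact JOD_vn_inj (h1.1 (fun h2 => hne (JOD_vn_inj h2)) z hz)
  · intro heq h2
    refine h1.2 (fun z hz => ?_) ?_
    · show JOD_vn (φ z) = JOD_vn (ψ z)
      rw [heq hz]
    · show JOD_vn (φ x) = JOD_vn (φ y)
      rw [h2]

end Pool.NF
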