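import Pool.Agent.Work.MP_b103ef_pos.Interface1
import Pool.Agent.Work.MP_b103ef_al_h94.Sec1c

set_option autoImplicit false

namespace Pool.NF

open Pool.Agent.Work.MP_b103ef_al_h93 Pool.Agent.Work.MP_b103ef_al_h94

/-- comparison of the two copies of the pentagon -/
def JOD_vn : V5 → N5
  | .o => .o | .a => .a | .b => .b | .c => .c | .i => .i

/-- comparison of the two copies of the pentagon -/
def JOD_nv : N5 → V5
  | .o => .o | .a => .a | .b => .b | .c => .c | .i => .i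

theorem JOD_vn_sup : ∀ x y : V5, JOD_vn (x ⊔ y) = JOD_vn x ⊔ JOD_vn y := by
  intro x y; cases x <;> cases y <;> rfl
theorem JOD_vn_inf : ∀ x y : V5, JOD_vn (x ⊓ y) = JOD_vn x ⊓ JOD_vn y := by
  intro x y; cases x <;> cases y <;> rfl
theorem JOD_nv_sup : ∀ x y : N5, JOD_nv (x ⊔ y) = JOD_nv x ⊔ JOD_nv y := by
  intro x y; cases x <;> cases y <;> rfl
theorem JOD_nv_inf : ∀ x y : N5, JOD_nv (x ⊓ y) = JOD_nv x ⊓ JOD_nv y := by
  intro x y; cases x <;> cases y <;> rfl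
theorem JOD_nv_vn : ∀ x : V5, JOD_nv (JOD_vn x) = x := by
  intro x; cases x <;> rfl
theorem JOD_vn_nv : ∀ x : N5, JOD_vn (JOD_nv x) = x := by
  intro x; cases x <;> rfl
theorem JOD_vn_inj : Function.Injective JOD_vn := fun x y h => by
  rw [← JOD_nv_vn x, h, JOD_nv_vn]
theorem JOD_nv_inj : Function.Injective JOD_nv := fun x y h => by
  rw [← JOD_vn_nv x, h, JOD_vn_nv]

variable {L : Type} [Lattice L]

/-- bundled homomorphism to `V5` -/
def JOD_hom (φ : L → V5) (h : IsHom φ) : LatticeHom L V5 := ⟨⟨φ, h.1⟩, h.2⟩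

/-- bundled homomorphism to `N5` -/
def JOD_homN (φ : L → V5) (h : IsHom φ) : LatticeHom L N5 :=
  ⟨⟨fun x => JOD_vn (φ x), fun x y => by rw [h.1, JOD_vn_sup]⟩,
    fun x y => by show JOD_vn (φ (x ⊓ y)) = _; rw [h.2, JOD_vn_inf]⟩

theorem JOD_homN_apply (φ : L → V5) (h : IsHom φ) (x : L) : JOD_homN φ h x = JOD_vn (φ x) := rfl

/-- back -/
theorem JOD_back (φ : LatticeHom L N5) : IsHom fun x => JOD_nv (φ x) :=
  ⟨fun x y => by
      show JOD_nv (φ (x ⊔ y)) = JOD_nv (φ x) ⊔ JOD_nv (φ y)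
      rw [map_sup, JOD_nv_sup],
    fun x y => by
      show JOD_nv (φ (x ⊓ y)) = JOD_nv (φ x) ⊓ JOD_nv (φ y)
      rw [map_inf, JOD_nv_inf]⟩

theorem blk_JOD : Stmt_JOD := by
  intro L _ I f hf hinj θ hθ x y hxy
  let θ0 : LCon L := ⟨θ, hθ⟩
  have hn : ¬ θ0.1 x y := hxy
  have h' : ¬ θ0.1 (x ⊓ y) (x ⊔ y) := by
    intro h1
    apply hn
    exact θ0.trans (θ0.symm (θ0.bot_mid h1 inf_le_left le_sup_left))
      (θ0.bot_mid h1 inf_le_right le_sup_right)
  have hle : x ⊓ y ≤ x ⊔ y := inf_le_left.trans le_sup_left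
  obtain ⟨η, hη1, hη2, hη3⟩ := exists_max θ0 h'
  haveI : Finite V5 := Finite.of_injective JOD_vn JOD_vn_inj
  let F : LatticeHom L (I → V5) := ⟨⟨fun x i => f x i, fun x y => by
      funext i; exact (hf i).1 x y⟩, fun x y => by funext i; exact (hf i).2 x y⟩
  have hF : Function.Injective F := hinj
  obtain ⟨g, hg⟩ := ultralimit F hF η hle hη2 hη3
  refine ⟨η.1, η.2, fun u v huv => hη1 u v huv, ?_, fun x => g x,
    ⟨fun x y => map_sup g x y, fun x y => map_inf g x y⟩, hg⟩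
  intro h
  apply hη2
  have h1 : η.1 (x ⊓ y) y := by
    have := η.inf_right y h
    rwa [inf_idem] at this
  have h2 : η.1 (x ⊔ y) y := by
    have := η.sup_right y h
    rwa [sup_idem] at this
  exact η.trans h1 (η.symm h2)

end Pool.NF
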