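import Pool.Agent.Work.MP_b103ef_pos.B_JOD

set_option autoImplicit false

namespace Pool.NF

open Pool.Agent.Work.MP_b103ef_al_h93 Pool.Agent.Work.MP_b103ef_al_h94

theorem blk_JOP : Stmt_JOP := by
  intro L _ θ hθ x y hxy g hg hker
  let θ0 : LCon L := ⟨θ, hθ⟩
  have hn : ¬ θ0.1 x y := hxy
  have h' : ¬ θ0.1 (x ⊓ y) (x ⊔ y) := by
    intro h1
    apply hn
    exact θ0.trans (θ0.symm (θ0.bot_mid h1 inf_le_left le_sup_left))
      (θ0.bot_mid h1 inf_le_right le_sup_right)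
  have hle : x ⊓ y ≤ x ⊔ y := inf_le_left.trans le_sup_left
  let g' : LatticeHom L N5 := JOD_homN g hg
  have hk : ∀ u v, g' u = g' v → θ0.1 u v := fun u v h => hker u v (JOD_vn_inj h)
  by_cases hcase : ∀ ua ub uc : L, g' ua = N5.a → g' ub = N5.b → g' uc = N5.c → θ0.1 ua ub
  · obtain ⟨η, hη1, hη2, hη3⟩ := exists_max θ0 h'
    have hk' : ∀ u v, g' u = g' v → η.1 u v := fun u v h => hη1 _ _ (hk u v h)
    obtain ⟨φ, h1, h2, h3⟩ := two_hom η hle hη2 hη3 (distrib_mod g' η hk'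
      (fun ua ub uc ha hb hc => hη1 _ _ (hcase ua ub uc ha hb hc)))
    have hb := JOD_back φ
    refine ⟨fun z => JOD_nv (φ z), ⟨hb.1, hb.2, Or.inl ?_⟩, ?_, ?_⟩
    · intro z _
      rcases h1 z with h | h
      · left
        show JOD_nv (φ z) = V5.o
        rw [h]; rfl
      · right
        show JOD_nv (φ z) = V5.i
        rw [h]; rfl
    · intro u v huv
      show JOD_nv (φ u) = JOD_nv (φ v)
      rw [h2 u v (hη1 _ _ huv)]
    · intro h4
      apply h3
      have h5 : φ x = φ y := JOD_nv_inj h4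
      rw [map_inf, map_sup, h5, inf_idem, sup_idem]
  · push Not at hcase
    obtain ⟨ua, ub, uc, ha, hb, hc, hab⟩ := hcase
    have key : ∀ u v, θ0.1 u v → g u = g v := by
      intro u v huv
      exact JOD_vn_inj (le_ker g' θ0 ha hb hc hk hab huv)
    have inv : ∀ (z : L) (e : V5), g' z = JOD_vn e → g z = e := fun z e h => JOD_vn_inj h
    refine ⟨g, ⟨hg.1, hg.2, Or.inr ⟨⟨ua, Set.mem_univ _, inv ua V5.a ha⟩,
      ⟨ub, Set.mem_univ _, inv ub V5.b hb⟩, ⟨uc, Set.mem_univ _, inv uc V5.c hc⟩⟩⟩, key, ?_⟩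
    intro h4
    exact hn (hker x y h4)

end Pool.NF
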