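import Pool.Agent.Work.MP_b103ef_pos.Interface1

set_option autoImplicit false

open Classical

namespace Pool.NF

theorem MPF_lift_comp {J A B C : Type} [AddCommGroup A] [Module ℚ A] [AddCommGroup B]
    [Module ℚ B] [AddCommGroup C] [Module ℚ C] (f : A →ₗ[ℚ] B) (g : B →ₗ[ℚ] C) :
    (lift g : (J →₀ B) →ₗ[ℚ] (J →₀ C)).comp (lift f) = lift (g.comp f) := by
  apply LinearMap.ext
  intro v
  ext j
  simp

theorem MPF_lift_id {J A : Type} [AddCommGroup A] [Module ℚ A] :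
    (lift (LinearMap.id : A →ₗ[ℚ] A) : (J →₀ A) →ₗ[ℚ] (J →₀ A)) = LinearMap.id := by
  apply LinearMap.ext
  intro v
  ext j
  simp

theorem MPF_prodMap_comp {A B C A' B' C' : Type} [AddCommGroup A] [Module ℚ A] [AddCommGroup B]
    [Module ℚ B] [AddCommGroup C] [Module ℚ C] [AddCommGroup A'] [Module ℚ A'] [AddCommGroup B']
    [Module ℚ B'] [AddCommGroup C'] [Module ℚ C'] (f : A →ₗ[ℚ] B) (g : B →ₗ[ℚ] C)
    (f' : A' →ₗ[ℚ] B') (g' : B' →ₗ[ℚ] C') :
    (g.prodMap g').comp (f.prodMap f') = (g.comp f).prodMap (g'.comp f') := rfl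

theorem blk_MPF : Stmt_MPF := by
  intro V P Q V' P' Q' V'' P'' Q'' _ _ _ _ _ _ _ _ _ _ _ _ _ _ _ _ _ _ f g h f' g' h'
  refine ⟨?_, ?_, ?_, ?_, ?_, ?_⟩
  · unfold mapE mapX mapY
    rw [MPF_prodMap_comp, MPF_prodMap_comp, MPF_prodMap_comp, MPF_prodMap_comp,
      MPF_prodMap_comp, MPF_lift_comp]
  · unfold mapX
    rw [MPF_prodMap_comp, MPF_prodMap_comp, MPF_lift_comp]
  · unfold mapY
    rw [MPF_prodMap_comp, MPF_lift_comp]
  · unfold mapE mapX mapY
    rw [MPF_lift_id, LinearMap.prodMap_id, LinearMap.prodMap_id, LinearMap.prodMap_id,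
      LinearMap.prodMap_id, LinearMap.prodMap_id]
  · unfold mapX
    rw [MPF_lift_id, LinearMap.prodMap_id, LinearMap.prodMap_id]
  · unfold mapY
    rw [MPF_lift_id, LinearMap.prodMap_id]

end Pool.NF
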