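import Pool.Agent.Work.MP_b103ef_pos.Interface1

/-! # Block PAX: the axioms pass to retracts (helper74) -/

set_option autoImplicit false

open Classical

namespace Pool.NF

section

variable {J E F : Type} [AddCommGroup E] [Module ℚ E] [AddCommGroup F] [Module ℚ F]
  (inc : F →ₗ[ℚ] E) (pr : E →ₗ[ℚ] F)

theorem PAX_lift_lift (hpi : ∀ v, pr (inc v) = v) (v : J →₀ F) :
    lift pr (lift inc v) = v := by
  ext j
  simp [Finsupp.mapRange.linearMap_apply, hpi]

theorem PAX_lift_comp (v : J →₀ E) :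
    lift inc (lift pr v) = lift (inc.comp pr) v := by
  ext j
  simp [Finsupp.mapRange.linearMap_apply]

/-- Inverse images of sums of invariant submodules. -/
theorem PAX_sup (hpi : ∀ v, pr (inc v) = v) (A B : Submodule ℚ (J →₀ E))
    (hA : Inv A (inc.comp pr)) (hB : Inv B (inc.comp pr)) :
    (A ⊔ B).comap (lift inc) = A.comap (lift inc) ⊔ B.comap (lift inc) := by
  refine le_antisymm ?_ ?_
  · intro v hv
    rw [Submodule.mem_comap] at hv
    obtain ⟨a, ha, b, hb, hab⟩ := Submodule.mem_sup.mp hv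
    have e1 : v = lift pr a + lift pr b := by
      rw [← map_add, hab, PAX_lift_lift inc pr hpi]
    rw [e1]
    refine Submodule.add_mem_sup ?_ ?_
    · rw [Submodule.mem_comap, PAX_lift_comp]
      exact hA ha
    · rw [Submodule.mem_comap, PAX_lift_comp]
      exact hB hb
  · exact sup_le (Submodule.comap_mono le_sup_left) (Submodule.comap_mono le_sup_right)

theorem PAX_inv_inf (f : E →ₗ[ℚ] E) (A B : Submodule ℚ (J →₀ E)) (hA : Inv A f) (hB : Inv B f) :
    Inv (A ⊓ B) f := fun v hv => ⟨hA hv.1, hB hv.2⟩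

theorem PAX_MAP (hpi : ∀ v, pr (inc v) = v) (t' t b' al Ga : Submodule ℚ (J →₀ E))
    (h1 : Inv t' (inc.comp pr)) (h2 : Inv t (inc.comp pr)) (h3 : Inv b' (inc.comp pr))
    (h4 : Inv al (inc.comp pr)) (h5 : Inv Ga (inc.comp pr)) (h : MAP t' t b' al Ga) :
    MAP (t'.comap (lift inc)) (t.comap (lift inc)) (b'.comap (lift inc)) (al.comap (lift inc))
      (Ga.comap (lift inc)) := by
  obtain ⟨ha, hb⟩ := h
  refine ⟨?_, ?_⟩
  · rw [← PAX_sup inc pr hpi al t' h4 h1, ← PAX_sup inc pr hpi b' t' h3 h1,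
      ← Submodule.comap_inf, ha]
  · rw [← PAX_sup inc pr hpi Ga al h5 h4, ← PAX_sup inc pr hpi al t h4 h2, hb]

end

theorem blk_PAX (hEVH : Stmt_EVH) (hOVR : Stmt_OVR) (hRET : Stmt_RET) (hPUL : Stmt_PUL) :
    Stmt_PAX := by
  intro L S n E F _ _ _ _ M inc pr hpi hhom σ Γ hσ hr hΓ hax
  obtain ⟨hinc, hpr⟩ := hPUL L S n E F M inc pr hpi hhom
  have hret := (hRET L S n E F M (M.pull inc) inc pr hpi hinc hpr).1
  have hinv := (hEVH L S n E E M M (inc.comp pr) hhom).2.2
  cases σ with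
  | base F' g => trivial
  | inf α β => trivial
  | sup α β => trivial
  | lk Z r j α β =>
    obtain ⟨hZ, hα, hβ, hj⟩ := hσ
    have hα' : α.Over S := (hOVR L α).2.1 _ _ hZ hα
    have hβ' : β.Over S := (hOVR L β).2.1 _ _ hZ hβ
    have hrα : α.rank ≤ n := by
      have := le_max_left α.rank β.rank
      simp only [Tm.rank] at hr
      omega
    have hrβ : β.rank ≤ n := by
      have := le_max_right α.rank β.rank
      simp only [Tm.rank] at hr
      omega
    have hjS : LOver S j := ⟨hZ hj.1, hZ hj.2⟩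
    set G := insert j (α.vars ∪ β.vars) with hG
    have hGS : ∀ k ∈ G, LOver S k := by
      intro k hk
      rw [hG, Finset.mem_insert, Finset.mem_union] at hk
      rcases hk with rfl | hk | hk
      · exact hjS
      · exact (hOVR L α).1 S hα' k hk
      · exact (hOVR L β).1 S hβ' k hk
    have hT0 : (Tm.T0 Z r j).Over S := by
      intro k hk
      rw [Finset.mem_singleton] at hk
      subst hk
      exact ⟨hjS, hZ⟩
    have hT1 : (Tm.T1 Z r j).Over S := by
      intro k hk
      rw [Finset.mem_singleton] at hk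
      subst hk
      exact ⟨hjS, hZ⟩
    refine ⟨fun hloc => ?_, fun hloc => ?_⟩
    · have hiso := hax.1 hloc
      have i0 : Inv (M.ev G (Tm.T0 Z r j)) (inc.comp pr) :=
        (hinv G hGS).2.2 _ hT0 (Nat.zero_le _)
      have i1 : Inv (M.ev G (Tm.T1 Z r j)) (inc.comp pr) :=
        (hinv G hGS).2.2 _ hT1 (Nat.zero_le _)
      have iα : Inv (M.ev G α) (inc.comp pr) := (hinv G hGS).2.2 _ hα' hrα
      have iβ : Inv (M.ev G β) (inc.comp pr) := (hinv G hGS).2.2 _ hβ' hrβ
      have iαβ := PAX_inv_inf (inc.comp pr) _ _ iα iβ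
      rw [hret G hGS _ hT0 (Nat.zero_le _), hret G hGS _ hT1 (Nat.zero_le _),
        hret G hGS _ hα' hrα, hret G hGS _ hβ' hrβ, ← Submodule.comap_inf]
      exact ⟨PAX_MAP inc pr hpi _ _ _ _ _ i0 i1 iαβ iα hΓ hiso.1,
        PAX_MAP inc pr hpi _ _ _ _ _ iαβ iα i0 i1 hΓ hiso.2⟩
    · have h0 := hax.2 hloc
      rw [h0]
      rw [eq_bot_iff]
      intro v hv
      rw [Submodule.mem_comap, Submodule.mem_bot] at hv
      rw [Submodule.mem_bot, ← PAX_lift_lift inc pr hpi v, hv, map_zero]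
  | ek Z ψ j α β =>
    obtain ⟨hZ, hα, hβ, hj⟩ := hσ
    have hα' : α.Over S := (hOVR L α).2.1 _ _ hZ hα
    have hβ' : β.Over S := (hOVR L β).2.1 _ _ hZ hβ
    have hrα : α.rank ≤ n := by
      have := le_max_left α.rank β.rank
      simp only [Tm.rank] at hr
      omega
    have hjS : LOver S j := ⟨hZ hj.1, hZ hj.2⟩
    have hGS : ∀ k ∈ insert j (α.vars ∪ β.vars), LOver S k := by
      intro k hk
      rw [Finset.mem_insert, Finset.mem_union] at hk
      rcases hk with rfl | hk | hk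
      · exact hjS
      · exact (hOVR L α).1 S hα' k hk
      · exact (hOVR L β).1 S hβ' k hk
    change Γ.comap (lift inc) = (M.pull inc).ev (insert j (α.vars ∪ β.vars)) α
    have h0 : Γ = M.ev (insert j (α.vars ∪ β.vars)) α := hax
    rw [h0, hret _ hGS _ hα' hrα]

end Pool.NF
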