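import Pool.Agent.Work.MP_b103ef_pos.Interface3
import Pool.Agent.Work.MP_b103ef_pos.B_JOD

/-! # Block SEP: points separate congruences from pairs (helper94) -/

set_option autoImplicit false

namespace Pool.NF

open Pool.Agent.Work.MP_b103ef_al_h93 Pool.Agent.Work.MP_b103ef_al_h94

theorem blk_SEP : Stmt_SEP := by
  intro L _ N _ hN hnm I f hf θ hθ x y hxy
  let θ0 : LCon L := ⟨θ, hθ⟩
  obtain ⟨φ, h1, h2, h3⟩ := points_separate hN hnm f hf θ0 hxy
  have hb := JOD_back φ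
  refine ⟨fun z => JOD_nv (φ z), ⟨hb.1, hb.2, ?_⟩, ?_, ?_⟩
  · rcases h1 with h1 | ⟨⟨za, ha⟩, ⟨zb, hb'⟩, ⟨zc, hc⟩⟩
    · left
      intro z _
      rcases h1 z with h | h
      · left
        show JOD_nv (φ z) = V5.o
        rw [h]; rfl
      · right
        show JOD_nv (φ z) = V5.i
        rw [h]; rfl
    · right
      refine ⟨⟨za, Set.mem_univ _, ?_⟩, ⟨zb, Set.mem_univ _, ?_⟩, ⟨zc, Set.mem_univ _, ?_⟩⟩
      · show JOD_nv (φ za) = V5.a
        rw [ha]; rfl
      · show JOD_nv (φ zb) = V5.b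
        rw [hb']; rfl
      · show JOD_nv (φ zc) = V5.c
        rw [hc]; rfl
  · intro u v huv
    show JOD_nv (φ u) = JOD_nv (φ v)
    rw [h2 u v huv]
  · intro h4
    exact h3 (JOD_nv_inj h4)

end Pool.NF
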