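import Pool.Agent.Work.MP_b103ef_pos.B_AJ1

/-!
# MP_b103ef_al: block TRX
-/

set_option autoImplicit false

open Classical

namespace Pool.NF

namespace TRXaux

variable {L : Type}

/-- a vertex type is its own image -/
theorem pp_v {S : Set L} {φ : L → V5} (h : IsV S φ) : Set.EqOn φ (pp ∘ φ) S := by
  intro x hx
  rcases h x hx with h | h <;> simp [h, pp]

theorem isV_pp (Z : Set L) (φ : L → V5) : IsV Z (pp ∘ φ) := by
  intro x _
  show pp (φ x) = _ ∨ pp (φ x) = _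
  cases φ x <;> simp [pp]

theorem isV_pq (Z : Set L) (φ : L → V5) : IsV Z (pq ∘ φ) := by
  intro x _
  show pq (φ x) = _ ∨ pq (φ x) = _
  cases φ x <;> simp [pq]

theorem isV_ps (Z : Set L) (φ : L → V5) : IsV Z (ps ∘ φ) := by
  intro x _
  show ps (φ x) = _ ∨ ps (φ x) = _
  cases φ x <;> simp [ps]

/-- `T_ψ(j)` with `u = ⊥` -/
theorem le_U1 {E : Type} [AddCommGroup E] [Module ℚ E] (M : Str L E) (Z : Finset L)
    (χ : L → V5) (j : Lab L) (hu : M.u Z χ = ⊥) : M.Le (Tm.U1 Z χ j) Tm.bot := by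
  show M.ev _ (Tm.U1 Z χ j) ≤ M.ev _ Tm.bot
  rw [AJaux.ev_bot]
  refine le_of_eq (AJaux.ev_single M j (.u Z χ) ⊥ ?_ _ ?_ bot_le)
  · show M.u Z χ ⊓ M.A j ≤ ⊥
    rw [hu, bot_inf_eq]
  · simp [Tm.U1, Tm.vars]

/-- the vertex case -/
theorem vcase (hT : Stmt_TRV) (Z : Finset L) (χ : L → V5) (j : Lab L)
    (hχ : IsV (↑Z : Set L) χ) (S : Set L) (φ : L → V5) (hS : (↑Z : Set L) ⊆ S)
    (hφ : IsV S φ) (h : NCs S φ (Tm.T1 Z χ j) (Tm.T0 Z χ j)) : Set.EqOn φ χ ↑Z := by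
  by_contra hne
  rcases h with ⟨-, E, _, _, M, hM, hL⟩ | ⟨hH, -⟩
  · exact hL ((hT L Z χ hχ).2 S φ E M hS hφ hne hM j)
  · exact AJaux.not_V_Hit hφ hH

end TRXaux

open TRXaux in
/-- block TRX -/
theorem blk_TRX (hN : Stmt_NCH) (hT : Stmt_TRV) (hR : Stmt_TR2)
    (hE : Stmt_EG0) : Stmt_TRX := by
  intro L hA Z χ j hj S φ hS hφ
  have o1 : (Tm.T1 Z χ j).Over (↑Z : Set L) := by
    intro j' hj'
    rw [Finset.mem_singleton] at hj'
    subst hj'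
    exact ⟨hj, subset_rfl⟩
  have o0 : (Tm.T0 Z χ j).Over (↑Z : Set L) := by
    intro j' hj'
    rw [Finset.mem_singleton] at hj'
    subst hj'
    exact ⟨hj, subset_rfl⟩
  refine ⟨fun hχ h => ?_, fun hχ h => ?_⟩
  · rcases hφ with hφ | hφ
    · have h1 := vcase hT Z χ j hχ S φ hS hφ h
      have hV : IsV (↑Z : Set L) φ := fun x hx => hφ x (hS hx)
      have h2 : Set.EqOn χ (pp ∘ φ) ↑Z := h1.symm.trans (pp_v hV)
      exact ⟨Or.inr ⟨hχ, Or.inl h2⟩, fun _ => Or.inl h2⟩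
    · by_cases hZ : Hit (↑Z : Set L) φ
      · have h3 : Set.EqOn χ (pp ∘ φ) ↑Z ∨ Set.EqOn χ (pq ∘ φ) ↑Z := by
          by_contra hne
          rw [not_or] at hne
          rcases h with ⟨hV, -⟩ | ⟨-, V, P, Q, _, _, _, _, _, _, M, hM, hL⟩
          · exact AJaux.not_V_Hit hV hφ
          · exact hL (hR L S φ V P Q M hM Z χ hS hZ hχ hne.1 hne.2 j)
        exact ⟨Or.inr ⟨hχ, h3.elim Or.inl fun h => Or.inr (Or.inl h)⟩, fun _ => h3⟩
      · refine ⟨?_, fun h => absurd h hZ⟩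
        have hv : ∀ ρ : L → V5, IsV (↑Z : Set L) ρ →
            NCs (↑Z : Set L) ρ (Tm.T1 Z χ j) (Tm.T0 Z χ j) → Set.EqOn χ ρ ↑Z :=
          fun ρ hρ h => (vcase hT Z χ j hχ ↑Z ρ subset_rfl hρ h).symm
        have key := hN L hA ↑Z S φ (Tm.T1 Z χ j) (Tm.T0 Z χ j) hS hφ o1 o0
        by_cases hc : ∀ z ∈ (↑Z : Set L), φ z ≠ V5.c
        · rcases (key.1 hc).1 h with h | h | h
          · exact Or.inr ⟨hχ, Or.inl (hv _ (isV_pp _ _) h)⟩
          · exact Or.inr ⟨hχ, Or.inr (Or.inr ⟨hc, hv _ (isV_ps _ _) h⟩)⟩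
          · exact Or.inr ⟨hχ, Or.inr (Or.inl (hv _ (isV_pq _ _) h))⟩
        · have hab : (∀ z ∈ (↑Z : Set L), φ z ≠ V5.b) ∨ (∀ z ∈ (↑Z : Set L), φ z ≠ V5.a) := by
            by_contra hne
            rw [not_or] at hne
            push Not at hne hc
            obtain ⟨⟨b, hb, hb'⟩, a, ha, ha'⟩ := hne
            obtain ⟨c, hc, hc'⟩ := hc
            exact hZ ⟨⟨a, ha, ha'⟩, ⟨b, hb, hb'⟩, ⟨c, hc, hc'⟩⟩
          rcases (key.2.1 hab).1 h with h | h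
          · exact Or.inr ⟨hχ, Or.inl (hv _ (isV_pp _ _) h)⟩
          · exact Or.inr ⟨hχ, Or.inr (Or.inl (hv _ (isV_pq _ _) h))⟩
  · by_contra hne
    rcases h with ⟨hV, E, _, _, M, hM, hL⟩ | ⟨hH, V, P, Q, _, _, _, _, _, _, M, hM, hL⟩
    · have hM' : VBase S φ M := hM
      exact hL (le_U1 M Z χ j (hM'.2 Z hS χ))
    · have hM' : EG 0 S φ V P Q M := hM
      refine hL (le_U1 M Z χ j (((hE L S φ V P Q M).1 hM').2 Z hS χ ?_))
      by_contra h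
      rw [not_or, not_not, not_not] at h
      exact hne h

end Pool.NF
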