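import Pool.Agent.Work.MP_b103ef_pos.Interface1

set_option autoImplicit false

open Classical

namespace Pool.NF

theorem VRT_mono {L : Type} {S : Set L} {m n : ℕ} (h : m ≤ n) {E F : Type} [AddCommGroup E]
    [Module ℚ E] [AddCommGroup F] [Module ℚ F] {M : Str L E} {M' : Str L F} {f : E →ₗ[ℚ] F}
    (H : Str.Hom S n M M' f) : Str.Hom S m M M' f :=
  ⟨H.1, H.2.1, fun σ h1 h2 h3 => H.2.2 σ h1 h2 (h3.trans h)⟩

theorem blk_VRT (hP : Stmt_PAX) : Stmt_VRT := by
  intro L S ρ n
  induction n with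
  | zero =>
    intro E F _ _ _ _ M inc pr hpi hH hM
    have hinj : Function.Injective inc := fun a b hab => by
      rw [← hpi a, ← hpi b, hab]
    have hM' : VBase S ρ M := hM
    show VBase S ρ (M.pull inc)
    refine ⟨fun i hi => ⟨fun hρ => ?_, fun hρ => ?_⟩, fun Z hZ ψ => ?_⟩
    · have h := (hM'.1 i hi).1 hρ
      refine ⟨?_, ?_⟩
      · show (M.x i 0).comap inc = (M.x i 1).comap inc
        rw [h.1]
      · show (M.x i 2).comap inc = ⊤
        rw [h.2]; rfl
    · have h := (hM'.1 i hi).2 hρ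
      refine ⟨?_, ?_⟩
      · show (M.x i 0).comap inc = ⊥
        rw [h.1]
        exact LinearMap.ker_eq_bot.2 hinj
      · show (M.x i 2).comap inc = (M.x i 1).comap inc
        rw [h.2]
    · show (M.u Z ψ).comap inc = ⊥
      rw [hM'.2 Z hZ ψ]
      exact LinearMap.ker_eq_bot.2 hinj
  | succ n ih =>
    intro E F _ _ _ _ M inc pr hpi hH hM
    have hM' : VG n S ρ E M ∧
      ∀ σ : Tm L, σ.Over S → σ.rank = n + 1 → VAx (VG n) M σ (M.g σ) := hM
    show VG n S ρ F (M.pull inc) ∧
      ∀ σ : Tm L, σ.Over S → σ.rank = n + 1 →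
        VAx (VG n) (M.pull inc) σ ((M.g σ).comap (lift inc))
    refine ⟨ih E F M inc pr hpi (VRT_mono (Nat.le_succ n) hH) hM'.1, fun σ hσ hr => ?_⟩
    by_cases hs : σ.IsSym
    · exact hP L S n E F M inc pr hpi (VRT_mono (Nat.le_succ n) hH) σ (M.g σ) hσ hr
        (hH.2.2 σ hs hσ hr.le) (hM'.2 σ hσ hr)
    · cases σ with
      | base F g => trivial
      | inf α β => trivial
      | sup α β => trivial
      | lk Z r j α β => exact absurd trivial hs
      | ek Z r j α β => exact absurd trivial hs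

end Pool.NF
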