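import Mathlib

/-!
# MP_b103ef_al (S02731): definitions

Paper proof: note 2759.  Field `ℚ`.  All vector spaces are in `Type`.
-/

set_option autoImplicit false

open Classical

namespace Pool.NF

/-! ## The pentagon -/

/-- The pentagon `o < a < b < i`, `o < c < i`. -/
inductive V5 | o | a | b | c | i
  deriving DecidableEq, Fintype

namespace V5

/-- join -/
def sup' : V5 → V5 → V5
  | o, x => x
  | x, o => x
  | i, _ => i
  | _, i => i
  | a, a => a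
  | a, b => b
  | b, a => b
  | b, b => b
  | c, c => c
  | a, c => i
  | c, a => i
  | b, c => i
  | c, b => i

/-- meet -/
def inf' : V5 → V5 → V5
  | o, _ => o
  | _, o => o
  | i, x => x
  | x, i => x
  | a, a => a
  | a, b => a
  | b, a => a
  | b, b => b
  | c, c => c
  | a, c => o
  | c, a => o
  | b, c => o
  | c, b => o

instance : Lattice V5 where
  le x y := sup' x y = y
  sup := sup'
  inf := inf'
  le_refl x := by cases x <;> rfl
  le_trans x y z := by cases x <;> cases y <;> cases z <;> simp [sup']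
  le_antisymm x y := by cases x <;> cases y <;> simp [sup']
  le_sup_left x y := by cases x <;> cases y <;> rfl
  le_sup_right x y := by cases x <;> cases y <;> rfl
  sup_le x y z := by cases x <;> cases y <;> cases z <;> simp [sup']
  inf_le_left x y := by cases x <;> cases y <;> rfl
  inf_le_right x y := by cases x <;> cases y <;> rfl
  le_inf x y z := by cases x <;> cases y <;> cases z <;> simp [sup', inf']

end V5

/-- `π_p : a, b ↦ i, c ↦ o`. -/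
def pp : V5 → V5
  | .o => .o | .a => .i | .b => .i | .c => .o | .i => .i

/-- `π_q : a, b ↦ o, c ↦ i`. -/
def pq : V5 → V5
  | .o => .o | .a => .o | .b => .o | .c => .i | .i => .i

/-- `π_s : a ↦ o, b ↦ i` (the value at `c` is irrelevant). -/
def ps : V5 → V5
  | .o => .o | .a => .o | .b => .i | .c => .o | .i => .i

section Types

variable {L : Type}

/-- vertex type on `S` -/
def IsV (S : Set L) (φ : L → V5) : Prop := ∀ x ∈ S, φ x = V5.o ∨ φ x = V5.i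

/-- `φ` hits `a`, `b` and `c` on `S` -/
def Hit (S : Set L) (φ : L → V5) : Prop :=
  (∃ x ∈ S, φ x = V5.a) ∧ (∃ x ∈ S, φ x = V5.b) ∧ (∃ x ∈ S, φ x = V5.c)

/-- `S ∖ A` -/
def dA (S : Set L) (φ : L → V5) : Set L := {x | x ∈ S ∧ φ x ≠ V5.a}
/-- `S ∖ B` -/
def dB (S : Set L) (φ : L → V5) : Set L := {x | x ∈ S ∧ φ x ≠ V5.b}
/-- `S ∖ C` -/
def dC (S : Set L) (φ : L → V5) : Set L := {x | x ∈ S ∧ φ x ≠ V5.c}
/-- `S₀₁` -/
def d01 (S : Set L) (φ : L → V5) : Set L := {x | x ∈ S ∧ (φ x = V5.o ∨ φ x = V5.i)}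

end Types

/-! ## Terms -/

/-- labels `(x, y, n)` -/
abbrev Lab (L : Type) : Type := L × L × ℕ

/-- label over `S` -/
def LOver {L : Type} (S : Set L) (j : Lab L) : Prop := j.1 ∈ S ∧ j.2.1 ∈ S

/-- unary terms.  `x i 0 ≤ x i 1 = h^i ≤ x i 2` is the flag of the generator `i`. -/
inductive Un (L : Type) : Type
  | x (i : L) (l : Fin 3)
  | tau (Z : Finset L) (r : L → V5)
  | tau' (Z : Finset L) (r : L → V5)
  | u (Z : Finset L) (ψ : L → V5)

/-- `Over S` for unary terms -/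
def Un.Over {L : Type} (S : Set L) : Un L → Prop
  | .x i _ => i ∈ S
  | .tau Z _ => (↑Z : Set L) ⊆ S
  | .tau' Z _ => (↑Z : Set L) ⊆ S
  | .u Z _ => (↑Z : Set L) ⊆ S

/-- terms -/
inductive Tm (L : Type) : Type
  | base (F : Finset (Lab L)) (g : Lab L → Un L)
  | inf (α β : Tm L)
  | sup (α β : Tm L)
  | lk (Z : Finset L) (r : L → V5) (j : Lab L) (α β : Tm L)
  | ek (Z : Finset L) (ψ : L → V5) (j : Lab L) (α β : Tm L)

namespace Tm

variable {L : Type}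

/-- rank -/
def rank : Tm L → ℕ
  | base _ _ => 0
  | inf α β => max α.rank β.rank
  | sup α β => max α.rank β.rank
  | lk _ _ _ α β => max α.rank β.rank + 1
  | ek _ _ _ α β => max α.rank β.rank + 1

/-- variables (labels) -/
noncomputable def vars : Tm L → Finset (Lab L)
  | base F _ => F
  | inf α β => α.vars ∪ β.vars
  | sup α β => α.vars ∪ β.vars
  | lk _ _ j α β => insert j (α.vars ∪ β.vars)
  | ek _ _ j α β => insert j (α.vars ∪ β.vars)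

/-- the term `α` is over `S` (and well formed) -/
def Over : Tm L → Set L → Prop
  | base F g, S => ∀ j ∈ F, LOver S j ∧ (g j).Over S
  | inf α β, S => α.Over S ∧ β.Over S
  | sup α β, S => α.Over S ∧ β.Over S
  | lk Z _ j α β, S => (↑Z : Set L) ⊆ S ∧ α.Over ↑Z ∧ β.Over ↑Z ∧ LOver (↑Z : Set L) j
  | ek Z _ j α β, S => (↑Z : Set L) ⊆ S ∧ α.Over ↑Z ∧ β.Over ↑Z ∧ LOver (↑Z : Set L) j

/-- `T_r(j)`, numerator -/
def T1 (Z : Finset L) (r : L → V5) (j : Lab L) : Tm L := .base {j} fun _ => .tau Z r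
/-- `T_r(j)`, denominator -/
def T0 (Z : Finset L) (r : L → V5) (j : Lab L) : Tm L := .base {j} fun _ => .tau' Z r
/-- `T_ψ(j)`, numerator -/
def U1 (Z : Finset L) (ψ : L → V5) (j : Lab L) : Tm L := .base {j} fun _ => .u Z ψ
/-- the bottom term, value `box G B` -/
def bot : Tm L := .base ∅ fun _ => .u ∅ fun _ => V5.o
/-- flag terms -/
def XT (F : Finset (Lab L)) (i : L) (l : Fin 3) : Tm L := .base F fun _ => .x i l
/-- `A_j` as a term -/
def AT (j : Lab L) : Tm L := .base {j} fun _ => .x j.2.1 0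

/-- link symbols -/
def IsSym : Tm L → Prop
  | lk _ _ _ _ _ => True
  | ek _ _ _ _ _ => True
  | _ => False

end Tm

/-! ## Structures -/

/-- A (total) structure on the vector space `E`. -/
structure Str (L : Type) (E : Type) [AddCommGroup E] [Module ℚ E] where
  x : L → Fin 3 → Submodule ℚ E
  u : Finset L → (L → V5) → Submodule ℚ E
  g : Tm L → Submodule ℚ (Lab L →₀ E)

/-- `lift f` is `f` applied to every coordinate. -/
noncomputable abbrev lift {J : Type} {E F : Type} [AddCommGroup E] [Module ℚ E] [AddCommGroup F]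
    [Module ℚ F] (f : E →ₗ[ℚ] F) : (J →₀ E) →ₗ[ℚ] (J →₀ F) := Finsupp.mapRange.linearMap f

section Box

variable {J : Type} {E : Type} [AddCommGroup E] [Module ℚ E]

/-- `box F C = {v | v j ∈ C j (j ∈ F), v j = 0 (j ∉ F)}` -/
noncomputable def box (F : Finset J) (C : J → Submodule ℚ E) : Submodule ℚ (J →₀ E) where
  carrier := {v | ∀ j, (j ∈ F → v j ∈ C j) ∧ (j ∉ F → v j = 0)}
  add_mem' := by
    intro v w hv hw j
    refine ⟨fun hj => ?_, fun hj => ?_⟩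
    · simpa using (C j).add_mem ((hv j).1 hj) ((hw j).1 hj)
    · simp [(hv j).2 hj, (hw j).2 hj]
  zero_mem' := by intro j; simp
  smul_mem' := by
    intro c v hv j
    refine ⟨fun hj => ?_, fun hj => ?_⟩
    · simpa using (C j).smul_mem c ((hv j).1 hj)
    · simp [(hv j).2 hj]

end Box

/-- `Γ` is the graph of a map `t/t' → al/b'` -/
def MAP {W : Type} [Lattice W] (t' t b' al Ga : W) : Prop :=
  Ga ⊓ (al ⊔ t') = b' ⊔ t' ∧ Ga ⊔ al = al ⊔ t

/-- `Γ` is the graph of an isomorphism `t/t' → al/b'` -/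
def ISO {W : Type} [Lattice W] (t' t b' al Ga : W) : Prop :=
  MAP t' t b' al Ga ∧ MAP b' al t' t Ga

namespace Str

variable {L : Type} {E : Type} [AddCommGroup E] [Module ℚ E]

/-- values of the unary terms -/
def un (M : Str L E) : Un L → Submodule ℚ E
  | .x i l => M.x i l
  | .tau Z r => ⨅ i ∈ Z, ⨅ (_ : r i = V5.i), M.x i 0
  | .tau' Z r => (⨅ i ∈ Z, ⨅ (_ : r i = V5.i), M.x i 0) ⊓ (⨆ i ∈ Z, ⨆ (_ : r i = V5.o), M.x i 2)
  | .u Z ψ => M.u Z ψ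

/-- `A j` -/
def A (M : Str L E) (j : Lab L) : Submodule ℚ E := M.x j.2.1 0

/-- `B j` -/
def B (M : Str L E) (j : Lab L) : Submodule ℚ E := M.x j.2.1 0 ⊓ M.x j.1 2

/-- value of a term relative to the finite set `G` of labels -/
noncomputable def ev (M : Str L E) (G : Finset (Lab L)) : Tm L → Submodule ℚ (Lab L →₀ E)
  | .base F g => box F (fun j => M.B j ⊔ (M.un (g j) ⊓ M.A j)) ⊔ box G M.B
  | .inf α β => M.ev G α ⊓ M.ev G β
  | .sup α β => M.ev G α ⊔ M.ev G β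
  | .lk Z r j α β => M.g (.lk Z r j α β) ⊔ box G M.B
  | .ek Z ψ j α β => M.g (.ek Z ψ j α β) ⊔ box G M.B

/-- `M ⊨ α ≤ β` -/
def Le (M : Str L E) (α β : Tm L) : Prop :=
  M.ev (α.vars ∪ β.vars) α ≤ M.ev (α.vars ∪ β.vars) β

variable {F : Type} [AddCommGroup F] [Module ℚ F]

/-- inverse image of a structure -/
noncomputable def pull (M : Str L E) (f : F →ₗ[ℚ] E) : Str L F where
  x i l := (M.x i l).comap f
  u Z ψ := (M.u Z ψ).comap f
  g σ := (M.g σ).comap (lift f)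

/-- pointwise meet of structures -/
noncomputable def iInf {ι : Type} (Ms : ι → Str L E) : Str L E where
  x i l := ⨅ a, (Ms a).x i l
  u Z ψ := ⨅ a, (Ms a).u Z ψ
  g σ := ⨅ a, (Ms a).g σ

/-- pointwise meet of two structures -/
noncomputable def inf2 (M M' : Str L E) : Str L E where
  x i l := M.x i l ⊓ M'.x i l
  u Z ψ := M.u Z ψ ⊓ M'.u Z ψ
  g σ := M.g σ ⊓ M'.g σ

/-- direct sum of two structures -/
noncomputable def prod (M : Str L E) (M' : Str L F) : Str L (E × F) :=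
  (M.pull (LinearMap.fst ℚ E F)).inf2 (M'.pull (LinearMap.snd ℚ E F))

/-- new values for the link symbols of rank `m` -/
noncomputable def upd (M : Str L E) (m : ℕ) (f : Tm L → Submodule ℚ (Lab L →₀ E)) : Str L E where
  x := M.x
  u := M.u
  g σ := if σ.rank = m then f σ else M.g σ

/-- the structures agree on the symbols over `S` of rank `≤ n` -/
def Agree (S : Set L) (n : ℕ) (M M' : Str L E) : Prop :=
  (∀ i ∈ S, ∀ l, M.x i l = M'.x i l) ∧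
  (∀ Z : Finset L, (↑Z : Set L) ⊆ S → ∀ ψ, M.u Z ψ = M'.u Z ψ) ∧
  (∀ σ : Tm L, σ.IsSym → σ.Over S → σ.rank ≤ n → M.g σ = M'.g σ)

/-- `f` maps the symbols over `S` of rank `≤ n` of `M` into those of `M'` -/
def Hom (S : Set L) (n : ℕ) (M : Str L E) (M' : Str L F) (f : E →ₗ[ℚ] F) : Prop :=
  (∀ i ∈ S, ∀ l, M.x i l ≤ (M'.x i l).comap f) ∧
  (∀ Z : Finset L, (↑Z : Set L) ⊆ S → ∀ ψ, M.u Z ψ ≤ (M'.u Z ψ).comap f) ∧
  (∀ σ : Tm L, σ.IsSym → σ.Over S → σ.rank ≤ n → M.g σ ≤ (M'.g σ).comap (lift f))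

/-- rank of `α / (α ⊓ β)` -/
noncomputable def rk (M : Str L E) (G : Finset (Lab L)) (α β : Tm L) : Cardinal :=
  Module.rank ℚ (↥(M.ev G α) ⧸ (M.ev G β).comap (M.ev G α).subtype)

end Str

/-! ## Vertex classes -/

/-- type of a class of structures -/
abbrev VCls (L : Type) : Type 1 :=
  Set L → (L → V5) → ∀ (E : Type) [AddCommGroup E] [Module ℚ E], Str L E → Prop

section VClasses

variable {L : Type}

/-- `α / α ⊓ β` is not zero at the type `ρ` of `Z` -/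
def NC (PV : VCls L) (Z : Set L) (ρ : L → V5) (α β : Tm L) : Prop :=
  ∃ (E : Type) (_ : AddCommGroup E) (_ : Module ℚ E) (M : Str L E), PV Z ρ E M ∧ ¬ M.Le α β

/-- the pair `(α, β)` is local at the vertex type `r` of `Z` -/
def Loc (PV : VCls L) (Z : Finset L) (r : L → V5) (j : Lab L) (α β : Tm L) : Prop :=
  IsV (↑Z : Set L) r ∧ r j.1 = V5.o ∧ r j.2.1 = V5.i ∧ j ∉ α.vars ∪ β.vars ∧
  NC PV ↑Z r α β ∧
  ∀ ρ : L → V5, IsV (↑Z : Set L) ρ → ¬ Set.EqOn ρ r ↑Z → ¬ NC PV ↑Z ρ α β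

/-- axiom of the link symbols, for vertices; `Γ` is the value of the symbol -/
def VAx (PV : VCls L) {E : Type} [AddCommGroup E] [Module ℚ E] (M : Str L E) :
    Tm L → Submodule ℚ (Lab L →₀ E) → Prop
  | .lk Z r j α β, Γ =>
    (Loc PV Z r j α β →
      ISO (M.ev (insert j (α.vars ∪ β.vars)) (Tm.T0 Z r j))
        (M.ev (insert j (α.vars ∪ β.vars)) (Tm.T1 Z r j))
        (M.ev (insert j (α.vars ∪ β.vars)) α ⊓ M.ev (insert j (α.vars ∪ β.vars)) β)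
        (M.ev (insert j (α.vars ∪ β.vars)) α) Γ) ∧
    (¬ Loc PV Z r j α β → Γ = ⊥)
  | .ek _ _ j α β, Γ => Γ = M.ev (insert j (α.vars ∪ β.vars)) α
  | _, _ => True

/-- base axioms of vertex structures -/
def VBase (S : Set L) (ρ : L → V5) {E : Type} [AddCommGroup E] [Module ℚ E] (M : Str L E) : Prop :=
  (∀ i ∈ S, (ρ i = V5.i → M.x i 0 = M.x i 1 ∧ M.x i 2 = ⊤) ∧
    (ρ i = V5.o → M.x i 0 = ⊥ ∧ M.x i 2 = M.x i 1)) ∧
  (∀ Z : Finset L, (↑Z : Set L) ⊆ S → ∀ ψ, M.u Z ψ = ⊥)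

/-- the vertex classes `V_n(S, ρ)` -/
def VG : ℕ → VCls L
  | 0 => fun S ρ _ _ _ M => VBase S ρ M
  | n + 1 => fun S ρ E _ _ M => VG n S ρ E M ∧
      ∀ σ : Tm L, σ.Over S → σ.rank = n + 1 → VAx (VG n) M σ (M.g σ)

end VClasses

/-! ## Frames -/

section Frames

/-- `𝕏 = (T, R, w)` -/
abbrev FX (V P : Type) [AddCommGroup V] [AddCommGroup P] : Type := (ℕ →₀ V) × (ℕ →₀ V) × P
/-- `𝕐 = (y, q)` -/
abbrev FY (V Q : Type) [AddCommGroup V] [AddCommGroup Q] : Type := (ℕ →₀ V) × Q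
/-- `E = 𝕏 × (V × 𝕐)` -/
abbrev FE (V P Q : Type) [AddCommGroup V] [AddCommGroup P] [AddCommGroup Q] : Type :=
  FX V P × (V × FY V Q)

variable {V P Q : Type} [AddCommGroup V] [Module ℚ V] [AddCommGroup P] [Module ℚ P]
  [AddCommGroup Q] [Module ℚ Q]

/-- right shift: `(sh v) (n+1) = v n`, `(sh v) 0 = 0` -/
noncomputable def sh : (ℕ →₀ V) →ₗ[ℚ] (ℕ →₀ V) := Finsupp.lmapDomain V ℚ Nat.succ

/-- left shift: `(sb v) n = v (n+1)` -/
noncomputable def sb : (ℕ →₀ V) →ₗ[ℚ] (ℕ →₀ V) :=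
  Finsupp.lcomapDomain Nat.succ Nat.succ_injective

/-- `s v = (e₀ v, 0, 0)` -/
noncomputable def mS : V →ₗ[ℚ] FX V P :=
  (LinearMap.inl ℚ (ℕ →₀ V) ((ℕ →₀ V) × P)).comp (Finsupp.lsingle 0)

/-- `t (y, q) = (y, 0, 0)` -/
noncomputable def mT : FY V Q →ₗ[ℚ] FX V P :=
  (LinearMap.inl ℚ (ℕ →₀ V) ((ℕ →₀ V) × P)).comp (LinearMap.fst ℚ (ℕ →₀ V) Q)

/-- `r (y, q) = (0, S* y, 0)` -/
noncomputable def mR : FY V Q →ₗ[ℚ] FX V P :=
  (LinearMap.inr ℚ (ℕ →₀ V) ((ℕ →₀ V) × P)).comp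
    ((LinearMap.inl ℚ (ℕ →₀ V) P).comp (sb.comp (LinearMap.fst ℚ (ℕ →₀ V) Q)))

/-- `ρ (y, q) = y₁ - y₀` -/
noncomputable def mRho : FY V Q →ₗ[ℚ] V :=
  (Finsupp.lapply 1 - Finsupp.lapply 0 : (ℕ →₀ V) →ₗ[ℚ] V).comp (LinearMap.fst ℚ (ℕ →₀ V) Q)

/-- `η (T, R, w) = (S (R - S* R), 0)` -/
noncomputable def mEta : FX V P →ₗ[ℚ] FY V Q :=
  (LinearMap.inl ℚ (ℕ →₀ V) Q).comp (sh.comp ((LinearMap.id - sb : (ℕ →₀ V) →ₗ[ℚ] (ℕ →₀ V)).comp
    ((LinearMap.fst ℚ (ℕ →₀ V) P).comp (LinearMap.snd ℚ (ℕ →₀ V) ((ℕ →₀ V) × P)))))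

/-- `κ (T, R, w) = (S q + e₀ q₀, 0)`, `q = S* T - T` -/
noncomputable def mKap : FX V P →ₗ[ℚ] FY V Q :=
  (LinearMap.inl ℚ (ℕ →₀ V) Q).comp
    ((sh + (Finsupp.lsingle 0 : V →ₗ[ℚ] (ℕ →₀ V)).comp (Finsupp.lapply 0) :
      (ℕ →₀ V) →ₗ[ℚ] (ℕ →₀ V)).comp
    ((sb - LinearMap.id : (ℕ →₀ V) →ₗ[ℚ] (ℕ →₀ V)).comp (LinearMap.fst ℚ (ℕ →₀ V) ((ℕ →₀ V) × P))))

/-- embedding of `𝕏` -/
noncomputable def incX : FX V P →ₗ[ℚ] FE V P Q := LinearMap.inl ℚ _ _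
/-- projection to `𝕏` -/
noncomputable def prX : FE V P Q →ₗ[ℚ] FX V P := LinearMap.fst ℚ _ _
/-- embedding of `V` -/
noncomputable def incV : V →ₗ[ℚ] FE V P Q :=
  (LinearMap.inr ℚ (FX V P) (V × FY V Q)).comp (LinearMap.inl ℚ V (FY V Q))
/-- projection to `V` -/
noncomputable def prV : FE V P Q →ₗ[ℚ] V :=
  (LinearMap.fst ℚ V (FY V Q)).comp (LinearMap.snd ℚ (FX V P) (V × FY V Q))
/-- embedding of `𝕐` -/
noncomputable def incY : FY V Q →ₗ[ℚ] FE V P Q :=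
  (LinearMap.inr ℚ (FX V P) (V × FY V Q)).comp (LinearMap.inr ℚ V (FY V Q))
/-- projection to `𝕐` -/
noncomputable def prY : FE V P Q →ₗ[ℚ] FY V Q :=
  (LinearMap.snd ℚ V (FY V Q)).comp (LinearMap.snd ℚ (FX V P) (V × FY V Q))

/-- `x ↦ (x, (0, η x))` -/
noncomputable def incI : FX V P →ₗ[ℚ] FE V P Q := incX + incY.comp mEta
/-- `(x, (z, y)) ↦ x - s z - t y + t η x` -/
noncomputable def prI : FE V P Q →ₗ[ℚ] FX V P :=
  prX - mS.comp prV - mT.comp prY + (mT.comp (mEta (Q := Q))).comp prX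
/-- `(z, y) ↦ (s z + t y, (z, y))` -/
noncomputable def incK : V × FY V Q →ₗ[ℚ] FE V P Q :=
  (incV + incX.comp mS).comp (LinearMap.fst ℚ V (FY V Q)) +
    (incY + incX.comp mT).comp (LinearMap.snd ℚ V (FY V Q))
/-- `(x, (z, y)) ↦ (z, y - η x)` -/
noncomputable def prK : FE V P Q →ₗ[ℚ] V × FY V Q := prV.prod (prY - mEta.comp prX)

/-- `(x, z) ↦ (x, (z, κ x))` -/
noncomputable def incI' : FX V P × V →ₗ[ℚ] FE V P Q :=
  (incX + incY.comp mKap).comp (LinearMap.fst ℚ (FX V P) V) +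
    incV.comp (LinearMap.snd ℚ (FX V P) V)
/-- `(x, (z, y)) ↦ (x - r y + r κ x, z - ρ y)` -/
noncomputable def prI' : FE V P Q →ₗ[ℚ] FX V P × V :=
  (prX - mR.comp prY + (mR.comp (mKap (Q := Q))).comp prX).prod (prV - mRho.comp prY)
/-- `y ↦ (r y, (ρ y, y))` -/
noncomputable def incK' : FY V Q →ₗ[ℚ] FE V P Q := incY + incX.comp mR + incV.comp mRho
/-- `(x, (z, y)) ↦ y - κ x` -/
noncomputable def prK' : FE V P Q →ₗ[ℚ] FY V Q := prY - mKap.comp prX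

/-- embedding of `P` -/
noncomputable def incP : P →ₗ[ℚ] FE V P Q :=
  incX.comp ((LinearMap.inr ℚ (ℕ →₀ V) ((ℕ →₀ V) × P)).comp (LinearMap.inr ℚ (ℕ →₀ V) P))
/-- projection to `P` -/
noncomputable def prP : FE V P Q →ₗ[ℚ] P :=
  ((LinearMap.snd ℚ (ℕ →₀ V) P).comp (LinearMap.snd ℚ (ℕ →₀ V) ((ℕ →₀ V) × P))).comp prX
/-- embedding of `Q` -/
noncomputable def incQ : Q →ₗ[ℚ] FE V P Q := incY.comp (LinearMap.inr ℚ (ℕ →₀ V) Q)
/-- projection to `Q` -/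
noncomputable def prQ : FE V P Q →ₗ[ℚ] Q := (LinearMap.snd ℚ (ℕ →₀ V) Q).comp prY

/-- the `V`-coordinates of `E` -/
inductive Co | T (n : ℕ) | R (n : ℕ) | Z | Y (n : ℕ)

/-- embedding of the coordinate `c` -/
noncomputable def incC : Co → (V →ₗ[ℚ] FE V P Q)
  | .T n => incX.comp ((LinearMap.inl ℚ (ℕ →₀ V) ((ℕ →₀ V) × P)).comp (Finsupp.lsingle n))
  | .R n => incX.comp ((LinearMap.inr ℚ (ℕ →₀ V) ((ℕ →₀ V) × P)).comp
      ((LinearMap.inl ℚ (ℕ →₀ V) P).comp (Finsupp.lsingle n)))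
  | .Z => incV
  | .Y n => incY.comp ((LinearMap.inl ℚ (ℕ →₀ V) Q).comp (Finsupp.lsingle n))

/-- projection to the coordinate `c` -/
noncomputable def prC : Co → (FE V P Q →ₗ[ℚ] V)
  | .T n => ((Finsupp.lapply n).comp (LinearMap.fst ℚ (ℕ →₀ V) ((ℕ →₀ V) × P))).comp prX
  | .R n => ((Finsupp.lapply n).comp ((LinearMap.fst ℚ (ℕ →₀ V) P).comp
      (LinearMap.snd ℚ (ℕ →₀ V) ((ℕ →₀ V) × P)))).comp prX
  | .Z => prV
  | .Y n => ((Finsupp.lapply n).comp (LinearMap.fst ℚ (ℕ →₀ V) Q)).comp prY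

variable {V' P' Q' : Type} [AddCommGroup V'] [Module ℚ V'] [AddCommGroup P'] [Module ℚ P']
  [AddCommGroup Q'] [Module ℚ Q']

/-- functoriality of `𝕏` -/
noncomputable def mapX (f : V →ₗ[ℚ] V') (g : P →ₗ[ℚ] P') : FX V P →ₗ[ℚ] FX V' P' :=
  (lift f).prodMap ((lift f).prodMap g)
/-- functoriality of `𝕐` -/
noncomputable def mapY (f : V →ₗ[ℚ] V') (h : Q →ₗ[ℚ] Q') : FY V Q →ₗ[ℚ] FY V' Q' :=
  (lift f).prodMap h
/-- functoriality of `E` -/
noncomputable def mapE (f : V →ₗ[ℚ] V') (g : P →ₗ[ℚ] P') (h : Q →ₗ[ℚ] Q') :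
    FE V P Q →ₗ[ℚ] FE V' P' Q' :=
  (mapX f g).prodMap (f.prodMap (mapY f h))

end Frames

/-! ## Edge classes -/

/-- type of a class of frame structures -/
abbrev ECls (L : Type) : Type 1 :=
  Set L → (L → V5) → ∀ (V P Q : Type) [AddCommGroup V] [Module ℚ V] [AddCommGroup P]
    [Module ℚ P] [AddCommGroup Q] [Module ℚ Q], Str L (FE V P Q) → Prop

section EClasses

variable {L : Type}

/-- `α / α ⊓ β` is not zero at the type `φ` of `Z`, for frame structures -/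
def ENC (PE : ECls L) (Z : Set L) (φ : L → V5) (α β : Tm L) : Prop :=
  ∃ (V P Q : Type) (_ : AddCommGroup V) (_ : Module ℚ V) (_ : AddCommGroup P)
    (_ : Module ℚ P) (_ : AddCommGroup Q) (_ : Module ℚ Q) (M : Str L (FE V P Q)),
    PE Z φ V P Q M ∧ ¬ M.Le α β

/-- admissibility of the symbol `ek Z ψ j α β` -/
def ELoc (PE : ECls L) (Z : Finset L) (ψ : L → V5) (j : Lab L) (α β : Tm L) : Prop :=
  Hit (↑Z : Set L) ψ ∧ ψ j.1 = V5.a ∧ ψ j.2.1 = V5.c ∧ j ∉ α.vars ∪ β.vars ∧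
  ENC PE ↑Z ψ α β

/-- `α / α ⊓ β` is zero at all vertex types of `Z` -/
def VCl (PV : VCls L) (Z : Set L) (α β : Tm L) : Prop :=
  ∀ ρ : L → V5, IsV Z ρ → ¬ NC PV Z ρ α β

/-- axioms of the link symbols whose index set is hitting; `Γ` is the value of the symbol -/
def HAx (PV : VCls L) (PE : ECls L) (φ : L → V5) {E : Type} [AddCommGroup E] [Module ℚ E]
    (M : Str L E) : Tm L → Submodule ℚ (Lab L →₀ E) → Prop
  | .lk Z r j α β, Γ => Hit (↑Z : Set L) φ →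
    (Loc PV Z r j α β →
      MAP (M.ev (insert j (α.vars ∪ β.vars)) (Tm.T0 Z r j))
        (M.ev (insert j (α.vars ∪ β.vars)) (Tm.T1 Z r j))
        (M.ev (insert j (α.vars ∪ β.vars)) α ⊓ M.ev (insert j (α.vars ∪ β.vars)) β)
        (M.ev (insert j (α.vars ∪ β.vars)) α) Γ) ∧
    (¬ Loc PV Z r j α β → Γ = ⊥)
  | .ek Z ψ j α β, Γ => Hit (↑Z : Set L) φ →
    (ELoc PE Z ψ j α β → Set.EqOn ψ φ ↑Z →
      MAP (M.ev (insert j (α.vars ∪ β.vars)) α ⊓ M.ev (insert j (α.vars ∪ β.vars)) β)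
        (M.ev (insert j (α.vars ∪ β.vars)) α)
        (M.ev (insert j (α.vars ∪ β.vars)) Tm.bot)
        (M.ev (insert j (α.vars ∪ β.vars)) (Tm.U1 Z ψ j)) Γ ∧
      Γ ⊔ M.ev (insert j (α.vars ∪ β.vars)) α =
        M.ev (insert j (α.vars ∪ β.vars)) α ⊔ M.ev (insert j (α.vars ∪ β.vars)) (Tm.U1 Z ψ j) ∧
      (VCl PV ↑Z α β → Γ ⊓ M.ev (insert j (α.vars ∪ β.vars)) α =
        M.ev (insert j (α.vars ∪ β.vars)) α ⊓ M.ev (insert j (α.vars ∪ β.vars)) β)) ∧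
    (¬ (ELoc PE Z ψ j α β ∧ Set.EqOn ψ φ ↑Z) → Γ = M.ev (insert j (α.vars ∪ β.vars)) α)
  | _, _ => True

/-- decompositions of a frame structure, level `n` -/
def FrOK (n : ℕ) (S : Set L) (φ : L → V5) {V P Q : Type} [AddCommGroup V] [Module ℚ V]
    [AddCommGroup P] [Module ℚ P] [AddCommGroup Q] [Module ℚ Q] (M : Str L (FE V P Q)) : Prop :=
  -- (AB)
  (Str.Hom (dC S φ) n M M (incX.comp prX) ∧ Str.Hom (dC S φ) n M M (incV.comp prV) ∧
    Str.Hom (dC S φ) n M M (incY.comp prY) ∧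
    VG n (dC S φ) (pp ∘ φ) (FX V P) (M.pull incX) ∧
    VG n (dC S φ) (ps ∘ φ) V (M.pull incV) ∧
    VG n (dC S φ) (pq ∘ φ) (FY V Q) (M.pull incY)) ∧
  -- (AC)
  (Str.Hom (dB S φ) n M M (incI.comp prI) ∧ Str.Hom (dB S φ) n M M (incK.comp prK) ∧
    VG n (dB S φ) (pp ∘ φ) (FX V P) (M.pull incI) ∧
    VG n (dB S φ) (pq ∘ φ) (V × FY V Q) (M.pull incK)) ∧
  -- (BC)
  (Str.Hom (dA S φ) n M M (incI'.comp prI') ∧ Str.Hom (dA S φ) n M M (incK'.comp prK') ∧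
    VG n (dA S φ) (pp ∘ φ) (FX V P × V) (M.pull incI') ∧
    VG n (dA S φ) (pq ∘ φ) (FY V Q) (M.pull incK')) ∧
  -- (0)
  ((∀ c c' : Co, Str.Hom (d01 S φ) n M M ((incC c').comp (prC c))) ∧
    Str.Hom (d01 S φ) n M M (incP.comp prP) ∧ Str.Hom (d01 S φ) n M M (incQ.comp prQ))

/-- the edge classes `E_n(S, φ)` -/
def EG : ℕ → ECls L
  | 0 => fun S φ _ _ _ _ _ _ _ _ _ M => FrOK 0 S φ M ∧
      ∀ Z : Finset L, (↑Z : Set L) ⊆ S → Hit (↑Z : Set L) φ → ∀ ψ, ¬ Set.EqOn ψ φ ↑Z → M.u Z ψ = ⊥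
  | n + 1 => fun S φ V P Q _ _ _ _ _ _ M => EG n S φ V P Q M ∧ FrOK (n + 1) S φ M ∧
      ∀ σ : Tm L, σ.Over S → σ.rank = n + 1 → HAx (VG n) (EG n) φ M σ (M.g σ)

end EClasses

/-! ## Decompositions -/

/-- a decomposition of `E` as a direct sum of the spaces `F a`, `a : ι` -/
structure Dec (E : Type) [AddCommGroup E] [Module ℚ E] (ι : Type) (F : ι → Type)
    [∀ a, AddCommGroup (F a)] [∀ a, Module ℚ (F a)] where
  inc : ∀ a, F a →ₗ[ℚ] E
  pr : ∀ a, E →ₗ[ℚ] F a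
  pr_inc : ∀ a v, pr a (inc a v) = v
  pr_inc_ne : ∀ a b v, a ≠ b → pr a (inc b v) = 0
  fin : ∀ v, {a | pr a v ≠ 0}.Finite
  ext : ∀ v, (∀ a, pr a v = 0) → v = 0

/-- direct sum of structures along a decomposition -/
noncomputable def Dec.sum {L : Type} {E : Type} [AddCommGroup E] [Module ℚ E] {ι : Type}
    {F : ι → Type} [∀ a, AddCommGroup (F a)] [∀ a, Module ℚ (F a)] (D : Dec E ι F)
    (Ms : ∀ a, Str L (F a)) : Str L E := Str.iInf fun a => (Ms a).pull (D.pr a)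

/-- direct sum of frame structures along decompositions of `V`, `P`, `Q` -/
noncomputable def Dec.fsum {L : Type} {V P Q : Type} [AddCommGroup V] [Module ℚ V]
    [AddCommGroup P] [Module ℚ P] [AddCommGroup Q] [Module ℚ Q] {ι : Type}
    {Vf Pf Qf : ι → Type} [∀ a, AddCommGroup (Vf a)] [∀ a, Module ℚ (Vf a)]
    [∀ a, AddCommGroup (Pf a)] [∀ a, Module ℚ (Pf a)] [∀ a, AddCommGroup (Qf a)]
    [∀ a, Module ℚ (Qf a)] (DV : Dec V ι Vf) (DP : Dec P ι Pf) (DQ : Dec Q ι Qf)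
    (Ms : ∀ a, Str L (FE (Vf a) (Pf a) (Qf a))) : Str L (FE V P Q) :=
  Str.iInf fun a => (Ms a).pull (mapE (DV.pr a) (DP.pr a) (DQ.pr a))

/-- direct sum of two frame structures -/
noncomputable def fprod {L : Type} {V P Q V' P' Q' : Type} [AddCommGroup V] [Module ℚ V]
    [AddCommGroup P] [Module ℚ P] [AddCommGroup Q] [Module ℚ Q] [AddCommGroup V'] [Module ℚ V']
    [AddCommGroup P'] [Module ℚ P'] [AddCommGroup Q'] [Module ℚ Q']
    (M : Str L (FE V P Q)) (M' : Str L (FE V' P' Q')) : Str L (FE (V × V') (P × P') (Q × Q')) :=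
  (M.pull (mapE (LinearMap.fst ℚ V V') (LinearMap.fst ℚ P P') (LinearMap.fst ℚ Q Q'))).inf2
    (M'.pull (mapE (LinearMap.snd ℚ V V') (LinearMap.snd ℚ P P') (LinearMap.snd ℚ Q Q')))

/-! ## Sane and full structures -/

section Full

variable {L : Type}

/-- the link symbols take values in `box (vars) A` -/
def Sane (S : Set L) (n : ℕ) {E : Type} [AddCommGroup E] [Module ℚ E] (M : Str L E) : Prop :=
  ∀ σ : Tm L, σ.IsSym → σ.Over S → σ.rank ≤ n → M.g σ ≤ box σ.vars M.A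

/-- full vertex structures -/
def VFull (κ : Cardinal.{0}) (n : ℕ) (S : Set L) (ρ : L → V5) {E : Type} [AddCommGroup E]
    [Module ℚ E] (M : Str L E) : Prop :=
  ∀ α β : Tm L, α.Over S → β.Over S → α.rank ≤ n → β.rank ≤ n → NC (VG n) S ρ α β →
    κ ≤ M.rk (α.vars ∪ β.vars) α β

/-- full frame structures -/
def EFull (κ : Cardinal.{0}) (n : ℕ) (S : Set L) (φ : L → V5) {V P Q : Type} [AddCommGroup V]
    [Module ℚ V] [AddCommGroup P] [Module ℚ P] [AddCommGroup Q] [Module ℚ Q]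
    (M : Str L (FE V P Q)) : Prop :=
  (∀ α β : Tm L, α.Over S → β.Over S → α.rank ≤ n → β.rank ≤ n → ENC (EG n) S φ α β →
    κ ≤ M.rk (α.vars ∪ β.vars) α β) ∧
  VFull κ n (dC S φ) (pp ∘ φ) (M.pull incX) ∧ VFull κ n (dC S φ) (ps ∘ φ) (M.pull incV) ∧
  VFull κ n (dC S φ) (pq ∘ φ) (M.pull incY) ∧
  VFull κ n (dB S φ) (pp ∘ φ) (M.pull incI) ∧ VFull κ n (dB S φ) (pq ∘ φ) (M.pull incK) ∧
  VFull κ n (dA S φ) (pp ∘ φ) (M.pull incI') ∧ VFull κ n (dA S φ) (pq ∘ φ) (M.pull incK') ∧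
  VFull κ n (d01 S φ) φ (M.pull incP) ∧ VFull κ n (d01 S φ) φ (M.pull incQ)

end Full

/-! ## Explicit base level -/

section BaseLevel

variable {V P Q : Type} [AddCommGroup V] [Module ℚ V] [AddCommGroup P] [Module ℚ P]
  [AddCommGroup Q] [Module ℚ Q]

/-- `T` -/
noncomputable def prT : FE V P Q →ₗ[ℚ] (ℕ →₀ V) :=
  (LinearMap.fst ℚ (ℕ →₀ V) ((ℕ →₀ V) × P)).comp prX
/-- `R` -/
noncomputable def prR : FE V P Q →ₗ[ℚ] (ℕ →₀ V) :=
  ((LinearMap.fst ℚ (ℕ →₀ V) P).comp (LinearMap.snd ℚ (ℕ →₀ V) ((ℕ →₀ V) × P))).comp prX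
/-- `y` -/
noncomputable def prY1 : FE V P Q →ₗ[ℚ] (ℕ →₀ V) := (LinearMap.fst ℚ (ℕ →₀ V) Q).comp prY

variable (H : Submodule ℚ V) (HP : Submodule ℚ P) (HQ : Submodule ℚ Q)

/-- the flag of a generator of type `a` -/
noncomputable def flA : Fin 3 → Submodule ℚ (FE V P Q)
  | 0 => LinearMap.ker prR ⊓ HP.comap prP ⊓ LinearMap.ker prV ⊓ LinearMap.ker prY
  | 1 => LinearMap.ker prR ⊓ HP.comap prP ⊓ H.comap prV ⊓ HQ.comap prQ
  | 2 => H.comap prV ⊓ HQ.comap prQ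

/-- the flag of a generator of type `b` -/
noncomputable def flB : Fin 3 → Submodule ℚ (FE V P Q)
  | 0 => LinearMap.ker prT ⊓ HP.comap prP ⊓ H.comap prV ⊓ LinearMap.ker prY
  | 1 => LinearMap.ker prT ⊓ HP.comap prP ⊓ H.comap prV ⊓ (H.comap mRho).comap prY ⊓ HQ.comap prQ
  | 2 => (H.comap mRho).comap prY ⊓ HQ.comap prQ

/-- `h` of a generator of type `c`:
`{((-p, p, w), (v, (S p - p + e₀ (p₀ - v), q))) | w ∈ HP, q ∈ HQ}` -/
noncomputable def hC : Submodule ℚ (FE V P Q) :=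
  LinearMap.ker (prT + prR) ⊓
  LinearMap.ker (prY1 - (sh.comp prR - prR +
    (Finsupp.lsingle 0).comp ((Finsupp.lapply 0).comp prR - prV))) ⊓
  HP.comap prP ⊓ HQ.comap prQ

/-- the flag of a generator of type `c` -/
noncomputable def flC : Fin 3 → Submodule ℚ (FE V P Q)
  | 0 => LinearMap.ker prX ⊓ LinearMap.ker (prY1 + (Finsupp.lsingle 0).comp prV) ⊓ HQ.comap prQ
  | 1 => hC HP HQ
  | 2 => hC HP HQ ⊔ LinearMap.range incK

/-- product -/
noncomputable def hO : Submodule ℚ (FE V P Q) :=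
  (⨅ c : Co, H.comap (prC c)) ⊓ HP.comap prP ⊓ HQ.comap prQ

/-- the flag of a generator of type `v` -/
noncomputable def fl (v : V5) (l : Fin 3) : Submodule ℚ (FE V P Q) :=
  match v with
  | .a => flA H HP HQ l
  | .b => flB H HP HQ l
  | .c => flC HP HQ l
  | .o => if l = 0 then ⊥ else hO H HP HQ
  | .i => if l = 2 then ⊤ else hO H HP HQ

/-- flag of a vertex structure of type `w` -/
def Ty {F : Type} [AddCommGroup F] [Module ℚ F] (w : V5) (x : Fin 3 → Submodule ℚ F) : Prop :=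
  (w = V5.i → x 0 = x 1 ∧ x 2 = ⊤) ∧ (w = V5.o → x 0 = ⊥ ∧ x 2 = x 1)

/-- `f` preserves the flag `x` -/
def Pr {F : Type} [AddCommGroup F] [Module ℚ F] (x : Fin 3 → Submodule ℚ F) (f : F →ₗ[ℚ] F) :
    Prop := ∀ l, x l ≤ (x l).comap f

/-- the flag `x` in a frame is admissible for a generator of type `v` -/
def OKx (v : V5) (x : Fin 3 → Submodule ℚ (FE V P Q)) : Prop :=
  (v ≠ V5.c → (Pr x (incX.comp prX) ∧ Pr x (incV.comp prV) ∧ Pr x (incY.comp prY)) ∧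
    Ty (pp v) (fun l => (x l).comap incX) ∧ Ty (ps v) (fun l => (x l).comap incV) ∧
    Ty (pq v) (fun l => (x l).comap incY)) ∧
  (v ≠ V5.b → (Pr x (incI.comp prI) ∧ Pr x (incK.comp prK)) ∧
    Ty (pp v) (fun l => (x l).comap incI) ∧ Ty (pq v) (fun l => (x l).comap incK)) ∧
  (v ≠ V5.a → (Pr x (incI'.comp prI') ∧ Pr x (incK'.comp prK')) ∧
    Ty (pp v) (fun l => (x l).comap incI') ∧ Ty (pq v) (fun l => (x l).comap incK')) ∧
  (v = V5.o ∨ v = V5.i → (∀ c c' : Co, Pr x ((incC c').comp (prC c))) ∧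
    Pr x (incP.comp prP) ∧ Pr x (incQ.comp prQ))

end BaseLevel

/-! ## Extension statements -/

section Ext

variable {L : Type}

/-- `Γ` is invariant under `f` -/
def Inv {J E : Type} [AddCommGroup E] [Module ℚ E] (Γ : Submodule ℚ (J →₀ E)) (f : E →ₗ[ℚ] E) :
    Prop := Γ ≤ Γ.comap (lift f)

/-- `Γ` is an admissible value of the new symbol `σ` -/
def SymOK (n : ℕ) (S : Set L) (φ : L → V5) {V P Q : Type} [AddCommGroup V] [Module ℚ V]
    [AddCommGroup P] [Module ℚ P] [AddCommGroup Q] [Module ℚ Q] (M : Str L (FE V P Q))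
    (σ : Tm L) (ΓV : Submodule ℚ (Lab L →₀ V)) (Γ : Submodule ℚ (Lab L →₀ FE V P Q)) : Prop :=
  (σ.Over (dC S φ) → (Inv Γ (incX.comp prX) ∧ Inv Γ (incV.comp prV) ∧ Inv Γ (incY.comp prY)) ∧
    Γ.comap (lift incV) = ΓV ∧
    VAx (VG n) (M.pull incX) σ (Γ.comap (lift incX)) ∧
    VAx (VG n) (M.pull incV) σ (Γ.comap (lift incV)) ∧
    VAx (VG n) (M.pull incY) σ (Γ.comap (lift incY))) ∧
  (σ.Over (dB S φ) → (Inv Γ (incI.comp prI) ∧ Inv Γ (incK.comp prK)) ∧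
    VAx (VG n) (M.pull incI) σ (Γ.comap (lift incI)) ∧
    VAx (VG n) (M.pull incK) σ (Γ.comap (lift incK))) ∧
  (σ.Over (dA S φ) → (Inv Γ (incI'.comp prI') ∧ Inv Γ (incK'.comp prK')) ∧
    VAx (VG n) (M.pull incI') σ (Γ.comap (lift incI')) ∧
    VAx (VG n) (M.pull incK') σ (Γ.comap (lift incK'))) ∧
  (σ.Over (d01 S φ) → (∀ c c' : Co, Inv Γ ((incC c').comp (prC c))) ∧
    Inv Γ (incP.comp prP) ∧ Inv Γ (incQ.comp prQ)) ∧
  HAx (VG n) (EG n) φ M σ Γ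

variable (L)

/-- extension of vertex structures -/
def EVst (n : ℕ) : Prop :=
  ∀ m : ℕ, m ≤ n → ∀ Z S : Set L, Z ⊆ S → ∀ ρ : L → V5, IsV S ρ →
  ∀ (E : Type) [AddCommGroup E] [Module ℚ E] (M : Str L E), VG m Z ρ E M →
  ∃ (E' : Type) (_ : AddCommGroup E') (_ : Module ℚ E') (M'' : Str L E') (M' : Str L (E × E')),
    VG m Z ρ E' M'' ∧ VG n S ρ (E × E') M' ∧ Str.Agree Z m M' (M.prod M'')

/-- extension of a vertex structure of type `π_s φ` to a frame structure -/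
def EXst (n : ℕ) : Prop :=
  ∀ m : ℕ, m ≤ n → ∀ (S : Set L) (φ : L → V5), Hit S φ →
  ∀ (V : Type) [AddCommGroup V] [Module ℚ V] (MV : Str L V), VG m (dC S φ) (ps ∘ φ) V MV →
  ∃ (V' P Q : Type) (_ : AddCommGroup V') (_ : Module ℚ V') (_ : AddCommGroup P)
    (_ : Module ℚ P) (_ : AddCommGroup Q) (_ : Module ℚ Q) (MV' : Str L V')
    (M' : Str L (FE (V × V') P Q)),
    VG m (dC S φ) (ps ∘ φ) V' MV' ∧ EG n S φ (V × V') P Q M' ∧
    Str.Agree (dC S φ) m (M'.pull incV) (MV.prod MV')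

/-- extension of frame structures -/
def EEst (n : ℕ) : Prop :=
  ∀ m : ℕ, m ≤ n → ∀ Z S : Set L, Z ⊆ S → ∀ φ : L → V5, Hit Z φ →
  ∀ (V P Q : Type) [AddCommGroup V] [Module ℚ V] [AddCommGroup P] [Module ℚ P]
    [AddCommGroup Q] [Module ℚ Q] (M : Str L (FE V P Q)), EG m Z φ V P Q M →
  ∃ (V' P' Q' : Type) (_ : AddCommGroup V') (_ : Module ℚ V') (_ : AddCommGroup P')
    (_ : Module ℚ P') (_ : AddCommGroup Q') (_ : Module ℚ Q') (M'' : Str L (FE V' P' Q'))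
    (M' : Str L (FE (V × V') (P × P') (Q × Q'))),
    EG m Z φ V' P' Q' M'' ∧ EG n S φ (V × V') (P × P') (Q × Q') M' ∧
    Str.Agree Z m M' (fprod M M'')

/-- everything extends -/
def AllExt : Prop := (∀ n, EVst L n) ∧ (∀ n, EXst L n) ∧ (∀ n, EEst L n)

end Ext

/-! ## Supports -/

/-- `(α, β)` is not zero at the type `χ` of the set `Z`, level `n` -/
def NCz {L : Type} (n : ℕ) (Z : Set L) (χ : L → V5) (α β : Tm L) : Prop :=
  (IsV Z χ ∧ NC (VG n) Z χ α β) ∨ (Hit Z χ ∧ ENC (EG n) Z χ α β)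

/-- the same at the natural level -/
def NCs {L : Type} (Z : Set L) (χ : L → V5) (α β : Tm L) : Prop :=
  NCz (max α.rank β.rank) Z χ α β

/-! ## Points and the lattice -/

/-- points: homomorphisms onto `{o, i}` (or constants) or hitting `a, b, c` -/
def IsPt {L : Type} [Lattice L] (φ : L → V5) : Prop :=
  (∀ x y, φ (x ⊔ y) = φ x ⊔ φ y) ∧ (∀ x y, φ (x ⊓ y) = φ x ⊓ φ y) ∧
  (IsV Set.univ φ ∨ Hit Set.univ φ)

/-- the order of the lattice `K`, on terms -/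
def TLe {L : Type} [Lattice L] (α β : Tm L) : Prop :=
  ∀ φ : L → V5, IsPt φ → ¬ NCs Set.univ φ α β

/-- the lattice `K` -/
structure KData (L : Type) [Lattice L] where
  K : Type
  lat : Lattice K
  mod : IsModularLattice K
  q : Tm L → K
  surj : ∀ k, ∃ α : Tm L, α.Over Set.univ ∧ q α = k
  le_iff : ∀ α β : Tm L, α.Over Set.univ → β.Over Set.univ → (q α ≤ q β ↔ TLe α β)
  inf : ∀ α β : Tm L, α.Over Set.univ → β.Over Set.univ → q (.inf α β) = q α ⊓ q β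
  sup : ∀ α β : Tm L, α.Over Set.univ → β.Over Set.univ → q (.sup α β) = q α ⊔ q β

attribute [instance] KData.lat KData.mod

/-- lattice congruences -/
def IsCon {K : Type} [Lattice K] (r : K → K → Prop) : Prop :=
  Equivalence r ∧ ∀ a b c d : K, r a b → r c d → r (a ⊔ c) (b ⊔ d) ∧ r (a ⊓ c) (b ⊓ d)

/-- `α / α ⊓ β` is collapsed by `r` -/
def InC {L : Type} [Lattice L] (D : KData L) (r : D.K → D.K → Prop) (α β : Tm L) : Prop :=
  r (D.q α ⊓ D.q β) (D.q α)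

/-- the type `χ` of `Z` lies below the point `φ` -/
def Rel {L : Type} (Z : Set L) (χ φ : L → V5) : Prop :=
  (Hit Z χ ∧ Set.EqOn χ φ Z) ∨
  (IsV Z χ ∧ (Set.EqOn χ (pp ∘ φ) Z ∨ Set.EqOn χ (pq ∘ φ) Z ∨
    ((∀ z ∈ Z, φ z ≠ V5.c) ∧ Set.EqOn χ (ps ∘ φ) Z)))

end Pool.NF
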