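import Pool.Agent.Work.MP_b103ef_pos.Interface2

/-! Elementary lemmas shared by the blocks ESW1 and ESW2 (helper34). -/

set_option autoImplicit false

open Classical

namespace Pool.NF

section

variable {J E F G : Type} [AddCommGroup E] [Module ℚ E] [AddCommGroup F] [Module ℚ F]
  [AddCommGroup G] [Module ℚ G]

theorem ESWA_lc (f : F →ₗ[ℚ] G) (g : E →ₗ[ℚ] F) (v : J →₀ E) :
    lift (f.comp g) v = lift f (lift g v) := by
  ext j
  simp [Finsupp.mapRange.linearMap_apply]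

theorem ESWA_l0 (f : E →ₗ[ℚ] F) (g : F →ₗ[ℚ] G) (h : ∀ x, g (f x) = 0) (v : J →₀ E) :
    lift g (lift f v) = 0 := by
  ext j
  simp [Finsupp.mapRange.linearMap_apply, h]

theorem ESWA_l1 (f : E →ₗ[ℚ] F) (g : F →ₗ[ℚ] E) (h : ∀ x, g (f x) = x) (v : J →₀ E) :
    lift g (lift f v) = v := by
  ext j
  simp [Finsupp.mapRange.linearMap_apply, h]

end

/-- homomorphisms over a smaller set of indices -/
theorem ESWA_hom {L : Type} (hOVR : Stmt_OVR) {S S' : Set L} {n : ℕ} {E F : Type}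
    [AddCommGroup E] [Module ℚ E] [AddCommGroup F] [Module ℚ F] {M : Str L E} {M' : Str L F}
    {f : E →ₗ[ℚ] F} (hS : S ⊆ S') (h : Str.Hom S' n M M' f) : Str.Hom S n M M' f :=
  ⟨fun i hi l => h.1 i (hS hi) l, fun Z hZ ψ => h.2.1 Z (hZ.trans hS) ψ,
    fun σ hs ho hr => h.2.2 σ hs ((hOVR L σ).2.1 _ _ hS ho) hr⟩

theorem ESWA_fr {L : Type} {n : ℕ} {S : Set L} {φ : L → V5} {V P Q : Type} [AddCommGroup V]
    [Module ℚ V] [AddCommGroup P] [Module ℚ P] [AddCommGroup Q] [Module ℚ Q]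
    {M : Str L (FE V P Q)} (h : EG n S φ V P Q M) : FrOK n S φ M := by
  cases n with
  | zero => exact h.1
  | succ n => exact h.2.1

theorem ESWA_hax {L : Type} (PV : VCls L) (PE : ECls L) (φ : L → V5) {E : Type}
    [AddCommGroup E] [Module ℚ E] (M : Str L E) (σ : Tm L) (Γ : Submodule ℚ (Lab L →₀ E))
    (T : Set L) (hT : ¬ Hit T φ) (hσ : σ.Over T) : HAx PV PE φ M σ Γ := by
  have key : ∀ Z : Finset L, (↑Z : Set L) ⊆ T → ¬ Hit (↑Z : Set L) φ := by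
    rintro Z hZ ⟨⟨x, hx, hx'⟩, ⟨y, hy, hy'⟩, ⟨z, hz, hz'⟩⟩
    exact hT ⟨⟨x, hZ hx, hx'⟩, ⟨y, hZ hy, hy'⟩, ⟨z, hZ hz, hz'⟩⟩
  cases σ with
  | base F g => trivial
  | inf α β => trivial
  | sup α β => trivial
  | lk Z r j α β => exact fun h => absurd h (key Z hσ.1)
  | ek Z ψ j α β => exact fun h => absurd h (key Z hσ.1)

theorem ESWA_isv {L : Type} (S : Set L) (φ : L → V5) :
    IsV S (pp ∘ φ) ∧ IsV S (pq ∘ φ) ∧ IsV (d01 S φ) φ := by
  refine ⟨fun x _ => ?_, fun x _ => ?_, fun x hx => hx.2⟩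
  · show pp (φ x) = V5.o ∨ pp (φ x) = V5.i
    cases φ x <;> simp [pp]
  · show pq (φ x) = V5.o ∨ pq (φ x) = V5.i
    cases φ x <;> simp [pq]

end Pool.NF
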