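import Pool.Agent.Work.MP_b103ef_pos.Defs

/-!
# MP_b103ef_al (S02731): interface, part 1 (lattice theory, structures, classes, frames)

Numbers refer to the paper proof (note 2759).
-/

set_option autoImplicit false

open Classical

namespace Pool.NF

/-! ## Layer A: lattice theory -/

/-- lattice homomorphism -/
def IsHom {L : Type} [Lattice L] (φ : L → V5) : Prop :=
  (∀ x y, φ (x ⊔ y) = φ x ⊔ φ y) ∧ (∀ x y, φ (x ⊓ y) = φ x ⊓ φ y)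

/-- A nonmodular lattice with 5 elements is the pentagon. -/
def Stmt_PENT : Prop :=
  ∀ (N : Type) [Lattice N], Nat.card N = 5 → ¬ IsModularLattice N → Nonempty (N ≃o V5)

/-- Jónsson's lemma for subdirect powers of `V5` (first half of (1.1)). -/
def Stmt_JOD : Prop :=
  ∀ (L : Type) [Lattice L] (I : Type) (f : L → I → V5), (∀ i, IsHom fun x => f x i) →
  Function.Injective f → ∀ θ : L → L → Prop, IsCon θ → ∀ x y, ¬ θ x y →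
  ∃ θ' : L → L → Prop, IsCon θ' ∧ (∀ u v, θ u v → θ' u v) ∧ ¬ θ' x y ∧
    ∃ g : L → V5, IsHom g ∧ ∀ u v, g u = g v → θ' u v

/-- Second half of (1.1). -/
def Stmt_JOP : Prop :=
  ∀ (L : Type) [Lattice L] (θ : L → L → Prop), IsCon θ → ∀ x y, ¬ θ x y →
  ∀ g : L → V5, IsHom g → (∀ u v, g u = g v → θ u v) →
  ∃ φ : L → V5, IsPt φ ∧ (∀ u v, θ u v → φ u = φ v) ∧ φ x ≠ φ y

/-- (1.2) -/
def Stmt_ISO5 : Prop :=
  ∀ (L : Type) [Lattice L] (Z : Finset L) (ψ : L → V5), Hit (↑Z : Set L) ψ →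
  ∃ x y : L, x ≤ y ∧ ∀ φ : L → V5, IsHom φ → (φ x ≠ φ y ↔ Set.EqOn φ ψ ↑Z)

/-- (1.3) -/
def Stmt_ISOV : Prop :=
  ∀ (L : Type) [Lattice L] (Z : Finset L) (r : L → V5), IsV (↑Z : Set L) r →
  (∃ z ∈ Z, r z = V5.o) → (∃ z ∈ Z, r z = V5.i) →
  ∃ x y : L, x ≤ y ∧ (∀ φ : L → V5, IsHom φ → Set.EqOn φ r ↑Z → φ x ≠ φ y) ∧
    ∀ φ : L → V5, IsHom φ → φ x ≠ φ y →
      Set.EqOn r (pp ∘ φ) ↑Z ∨ Set.EqOn r (pq ∘ φ) ↑Z ∨
      ((∀ z ∈ Z, φ z ≠ V5.c) ∧ Set.EqOn r (ps ∘ φ) ↑Z)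

/-- `π_p`, `π_q`, `π_s` and homomorphisms; `χ` with `Rel Z χ φ` preserves the joins and meets
inside `Z`. -/
def Stmt_PTP : Prop :=
  ∀ (L : Type) [Lattice L] (φ : L → V5), IsHom φ →
  (IsHom (pp ∘ φ) ∧ IsHom (pq ∘ φ) ∧ ((∀ z, φ z ≠ V5.c) → IsHom (ps ∘ φ))) ∧
  (∀ S : Set L, IsV S (pp ∘ φ) ∧ IsV S (pq ∘ φ) ∧ IsV S (ps ∘ φ)) ∧
  ∀ (Z : Set L) (χ : L → V5), Rel Z χ φ → ∀ x ∈ Z, ∀ y ∈ Z,
    (x ⊔ y ∈ Z → χ (x ⊔ y) = χ x ⊔ χ y) ∧ (x ⊓ y ∈ Z → χ (x ⊓ y) = χ x ⊓ χ y)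

/-! ## Layer B: structures -/

/-- The hom lemma: a homomorphism of structures maps values of terms into values of terms. -/
def Stmt_EVH : Prop :=
  ∀ (L : Type) (S : Set L) (n : ℕ) (E F : Type) [AddCommGroup E] [Module ℚ E] [AddCommGroup F]
    [Module ℚ F] (M : Str L E) (M' : Str L F) (f : E →ₗ[ℚ] F), Str.Hom S n M M' f →
  (∀ t : Un L, t.Over S → M.un t ≤ (M'.un t).comap f) ∧
  (∀ j, LOver S j → M.A j ≤ (M'.A j).comap f ∧ M.B j ≤ (M'.B j).comap f) ∧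
  ∀ G : Finset (Lab L), (∀ j ∈ G, LOver S j) →
    box G M.B ≤ (box G M'.B).comap (lift f) ∧ box G M.A ≤ (box G M'.A).comap (lift f) ∧
    ∀ α : Tm L, α.Over S → α.rank ≤ n → M.ev G α ≤ (M'.ev G α).comap (lift f)

/-- Elementary facts on `Over`, `vars`, `rank`. -/
def Stmt_OVR : Prop :=
  ∀ (L : Type) (α : Tm L),
  (∀ S : Set L, α.Over S → ∀ j ∈ α.vars, LOver S j) ∧
  (∀ S S' : Set L, S ⊆ S' → α.Over S → α.Over S') ∧
  (∀ S : Set L, α.Over S → ∃ Z : Finset L, (↑Z : Set L) ⊆ S ∧ α.Over (↑Z : Set L)) ∧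
  (α.IsSym → 1 ≤ α.rank ∧ ∀ S S' : Set L, α.Over S → α.Over S' → α.Over (S ∩ S'))

/-- Retracts. -/
def Stmt_RET : Prop :=
  ∀ (L : Type) (S : Set L) (n : ℕ) (E F : Type) [AddCommGroup E] [Module ℚ E] [AddCommGroup F]
    [Module ℚ F] (M : Str L E) (M' : Str L F) (inc : F →ₗ[ℚ] E) (pr : E →ₗ[ℚ] F),
  (∀ v, pr (inc v) = v) → Str.Hom S n M' M inc → Str.Hom S n M M' pr →
  (∀ G : Finset (Lab L), (∀ j ∈ G, LOver S j) → ∀ α : Tm L, α.Over S → α.rank ≤ n →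
    M'.ev G α = (M.ev G α).comap (lift inc)) ∧
  ∀ α β : Tm L, α.Over S → β.Over S → α.rank ≤ n → β.rank ≤ n →
    (M.Le α β → M'.Le α β) ∧
    ∀ G : Finset (Lab L), (∀ j ∈ G, LOver S j) → M'.rk G α β ≤ M.rk G α β

/-- Pulling back along a retraction; identities for `lift`. -/
def Stmt_PUL : Prop :=
  ∀ (L : Type) (S : Set L) (n : ℕ) (E F : Type) [AddCommGroup E] [Module ℚ E] [AddCommGroup F]
    [Module ℚ F] (M : Str L E) (inc : F →ₗ[ℚ] E) (pr : E →ₗ[ℚ] F),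
  (∀ v, pr (inc v) = v) → Str.Hom S n M M (inc.comp pr) →
  Str.Hom S n (M.pull inc) M inc ∧ Str.Hom S n M (M.pull inc) pr

/-- a complete system of endomorphisms -/
def Sys {E ι : Type} [AddCommGroup E] [Module ℚ E] (e : ι → E →ₗ[ℚ] E) : Prop :=
  ∀ v, ∃ s : Finset ι, (∀ a, a ∉ s → e a v = 0) ∧ ∑ a ∈ s, e a v = v

/-- Invariant submodules are determined by their components. -/
def Stmt_SYS : Prop :=
  ∀ (J E ι : Type) [AddCommGroup E] [Module ℚ E] (e : ι → E →ₗ[ℚ] E), Sys e →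
  ∀ Γ : Submodule ℚ (J →₀ E), (∀ a, Inv Γ (e a)) →
  (∀ v, v ∈ Γ ↔ ∀ a, lift (e a) v ∈ Γ) ∧
  ∀ Γ' : Submodule ℚ (J →₀ E), (∀ a, Inv Γ' (e a)) →
    (∀ a, Γ ⊓ LinearMap.range (lift (e a)) ≤ Γ') → Γ ≤ Γ'

/-- `Le` can be checked on the parts. -/
def Stmt_PLE : Prop :=
  ∀ (L : Type) (S : Set L) (n : ℕ) (E ι : Type) [AddCommGroup E] [Module ℚ E]
    (e : ι → E →ₗ[ℚ] E), Sys e → ∀ M : Str L E, (∀ a, Str.Hom S n M M (e a)) →
  ∀ α β : Tm L, α.Over S → β.Over S → α.rank ≤ n → β.rank ≤ n →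
  (∀ a, ∃ (F : Type) (_ : AddCommGroup F) (_ : Module ℚ F) (inc : F →ₗ[ℚ] E) (pr : E →ₗ[ℚ] F),
    (∀ v, pr (inc v) = v) ∧ inc.comp pr = e a ∧ (M.pull inc).Le α β) → M.Le α β

/-- Structures that agree have the same values. -/
def Stmt_AGR : Prop :=
  ∀ (L : Type) (S : Set L) (n : ℕ) (E : Type) [AddCommGroup E] [Module ℚ E] (M M' : Str L E),
  Str.Agree S n M M' →
  Str.Agree S n M' M ∧ (∀ t : Un L, t.Over S → M.un t = M'.un t) ∧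
  (∀ j, LOver S j → M.A j = M'.A j ∧ M.B j = M'.B j) ∧
  (∀ G : Finset (Lab L), (∀ j ∈ G, LOver S j) → ∀ α : Tm L, α.Over S → α.rank ≤ n →
    M.ev G α = M'.ev G α) ∧
  ∀ α β : Tm L, α.Over S → β.Over S → α.rank ≤ n → β.rank ≤ n → (M.Le α β ↔ M'.Le α β)

/-- Dependence of `ev`, `Le`, `rk` on `G`. -/
def Stmt_SAN : Prop :=
  ∀ (L : Type) (S : Set L) (n : ℕ) (E : Type) [AddCommGroup E] [Module ℚ E] (M : Str L E),
  Sane S n M →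
  (∀ α : Tm L, α.Over S → α.rank ≤ n → ∀ G : Finset (Lab L), α.vars ⊆ G →
    box G M.B ≤ M.ev G α ∧ M.ev G α ≤ box G M.A ∧
    ∀ G' : Finset (Lab L), G ⊆ G' → M.ev G' α = M.ev G α ⊔ box G' M.B) ∧
  (∀ α β : Tm L, α.Over S → β.Over S → α.rank ≤ n → β.rank ≤ n → ∀ G : Finset (Lab L),
    α.vars ∪ β.vars ⊆ G → (M.Le α β ↔ M.ev G α ≤ M.ev G β) ∧
      M.rk G α β = M.rk (α.vars ∪ β.vars) α β) ∧
  ∀ α : Tm L, α.Over S → α.rank ≤ n → ∀ j : Lab L, j ∉ α.vars → ∀ g : Lab L → Un L,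
    ∀ G : Finset (Lab L), insert j α.vars ⊆ G →
      M.ev G (.base {j} g) ⊓ M.ev G α ≤ box G M.B

/-- Direct sums of submodules along a decomposition. -/
def Stmt_DSM : Prop :=
  ∀ (J E ι : Type) [AddCommGroup E] [Module ℚ E] (F : ι → Type) [∀ a, AddCommGroup (F a)]
    [∀ a, Module ℚ (F a)] (D : Dec E ι F),
  (∀ U U' : ∀ a, Submodule ℚ (J →₀ F a),
    ((⨅ a, (U a).comap (lift (D.pr a))) ⊔ (⨅ a, (U' a).comap (lift (D.pr a))) =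
      ⨅ a, (U a ⊔ U' a).comap (lift (D.pr a))) ∧
    ((⨅ a, (U a).comap (lift (D.pr a))) ⊓ (⨅ a, (U' a).comap (lift (D.pr a))) =
      ⨅ a, (U a ⊓ U' a).comap (lift (D.pr a))) ∧
    (((⨅ a, (U a).comap (lift (D.pr a))) ≤ ⨅ a, (U' a).comap (lift (D.pr a))) ↔
      ∀ a, U a ≤ U' a)) ∧
  (∀ (U : ∀ a, Submodule ℚ (J →₀ F a)) (b : ι),
    (⨅ a, (U a).comap (lift (D.pr a))).comap (lift (D.inc b)) = U b) ∧
  (⨅ a, (⊥ : Submodule ℚ (J →₀ F a)).comap (lift (D.pr a))) = ⊥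

/-- Values of terms in direct sums. -/
def Stmt_EDEC : Prop :=
  ∀ (L E ι : Type) [AddCommGroup E] [Module ℚ E] (F : ι → Type) [∀ a, AddCommGroup (F a)]
    [∀ a, Module ℚ (F a)] (D : Dec E ι F) (Ms : ∀ a, Str L (F a)) (G : Finset (Lab L)),
  (∀ (n : ℕ) (a : ι), Str.Hom Set.univ n (Ms a) (D.sum Ms) (D.inc a) ∧
    Str.Hom Set.univ n (D.sum Ms) (Ms a) (D.pr a)) ∧
  (∀ α : Tm L, α.Over Set.univ →
    (D.sum Ms).ev G α = ⨅ a, ((Ms a).ev G α).comap (lift (D.pr a))) ∧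
  (∀ α β : Tm L, α.Over Set.univ → β.Over Set.univ →
    (((D.sum Ms).Le α β ↔ ∀ a, (Ms a).Le α β) ∧
    Cardinal.mk {a : ι // ¬ (Ms a).ev G α ≤ (Ms a).ev G β} ≤ (D.sum Ms).rk G α β))

/-- Values of terms in the direct sum of two structures. -/
def Stmt_EPR : Prop :=
  ∀ (L E F : Type) [AddCommGroup E] [Module ℚ E] [AddCommGroup F] [Module ℚ F] (M : Str L E)
    (M' : Str L F) (n : ℕ),
  Str.Hom Set.univ n M (M.prod M') (LinearMap.inl ℚ E F) ∧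
  Str.Hom Set.univ n (M.prod M') M (LinearMap.fst ℚ E F) ∧
  Str.Hom Set.univ n M' (M.prod M') (LinearMap.inr ℚ E F) ∧
  Str.Hom Set.univ n (M.prod M') M' (LinearMap.snd ℚ E F) ∧
  (∀ (G : Finset (Lab L)) (α : Tm L), α.Over Set.univ →
    (M.prod M').ev G α = (M.ev G α).comap (lift (LinearMap.fst ℚ E F)) ⊓
      (M'.ev G α).comap (lift (LinearMap.snd ℚ E F))) ∧
  ∀ α β : Tm L, α.Over Set.univ → β.Over Set.univ →
    ((M.prod M').Le α β ↔ M.Le α β ∧ M'.Le α β)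

/-- Elementary facts on `rk`. -/
def Stmt_RKL : Prop :=
  ∀ (L E : Type) [AddCommGroup E] [Module ℚ E] (M : Str L E) (G : Finset (Lab L)) (α β : Tm L),
  M.rk G α β ≤ Cardinal.mk (Lab L →₀ E) ∧ (M.rk G α β = 0 ↔ M.ev G α ≤ M.ev G β)

/-- (6.1) -/
def Stmt_LEX : Prop :=
  ∀ (W : Type) [AddCommGroup W] [Module ℚ W] (t' t b' al : Submodule ℚ W), t' ≤ t → b' ≤ al →
  t ⊓ al ≤ t' → t ⊓ al ≤ b' →
  Module.rank ℚ (↥t ⧸ t'.comap t.subtype) = Module.rank ℚ (↥al ⧸ b'.comap al.subtype) →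
  ∃ Ga, ISO t' t b' al Ga

/-- The lattice part of (6.1), of (10)(a), (b), (d), (e). -/
def Stmt_MEX : Prop :=
  ∀ (W : Type) [Lattice W] [IsModularLattice W] (t' t b' al Ga : W), t' ≤ t → b' ≤ al →
  t ⊓ al ≤ t' → t ⊓ al ≤ b' →
  MAP t' t b' al (b' ⊔ t) ∧
  (MAP t' t b' al Ga → t' ≤ Ga ∧ b' ≤ Ga ∧ Ga ≤ al ⊔ t ∧ Ga ⊓ al = b') ∧
  (ISO t' t b' al Ga → Ga ⊓ t = t' ∧ Ga ⊔ t = al ⊔ t ∧ al ≤ Ga ⊔ t) ∧
  -- (d)
  (MAP t' t b' al Ga → ∀ r : W → W → Prop, IsCon r → r b' al → r (t ⊓ Ga) t) ∧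
  -- (e)
  (MAP t' t b' al Ga → ∀ r : W → W → Prop, IsCon r → r t' t → r b' (al ⊓ (Ga ⊔ t))) ∧
  -- (a) (here `b'` is the bottom `bo` and `al` is `s = T_ψ`, `t` is `α`)
  (MAP t' t b' al Ga → Ga ⊔ t = al ⊔ t → b' ≤ t' → ∀ r : W → W → Prop, IsCon r →
    (r t' t → r b' al) ∧ (r b' al → r (Ga ⊓ t) t))

/-- (6.2) -/
def Stmt_INV : Prop :=
  ∀ (J E : Type) [AddCommGroup E] [Module ℚ E] (t' t b' al Ga : Submodule ℚ (J →₀ E))
    (e f : E →ₗ[ℚ] E), (∀ v, e v + f v = v) → ISO t' t b' al Ga →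
  t ≤ t'.comap (lift e) → al ≤ b'.comap (lift e) → Inv Ga e ∧ Inv Ga f

/-! ## Layer C: the classes `V_n`, `E_n`, formal properties -/

/-- monotonicity of `V_n` -/
def Stmt_VMO : Prop :=
  ∀ (L : Type) (S Z : Set L) (ρ ρ' : L → V5) (m n : ℕ) (E : Type) [AddCommGroup E] [Module ℚ E]
    (M M' : Str L E), VG n S ρ E M → m ≤ n → Z ⊆ S → Set.EqOn ρ ρ' Z → Str.Agree Z m M M' →
  VG m Z ρ' E M'

/-- monotonicity of `E_n` -/
def Stmt_EMO : Prop :=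
  ∀ (L : Type) (S Z : Set L) (φ φ' : L → V5) (m n : ℕ) (V P Q : Type) [AddCommGroup V]
    [Module ℚ V] [AddCommGroup P] [Module ℚ P] [AddCommGroup Q] [Module ℚ Q]
    (M M' : Str L (FE V P Q)), EG n S φ V P Q M → m ≤ n → Z ⊆ S → Set.EqOn φ φ' Z →
  Str.Agree Z m M M' → EG m Z φ' V P Q M'

/-- `V_n` consists of sane structures. -/
def Stmt_VSN : Prop :=
  ∀ (L : Type) (S : Set L) (ρ : L → V5) (n : ℕ) (E : Type) [AddCommGroup E] [Module ℚ E]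
    (M : Str L E), VG n S ρ E M → Sane S n M

/-- axioms pass to retracts -/
def Stmt_PAX : Prop :=
  ∀ (L : Type) (S : Set L) (n : ℕ) (E F : Type) [AddCommGroup E] [Module ℚ E] [AddCommGroup F]
    [Module ℚ F] (M : Str L E) (inc : F →ₗ[ℚ] E) (pr : E →ₗ[ℚ] F),
  (∀ v, pr (inc v) = v) → Str.Hom S n M M (inc.comp pr) →
  ∀ (σ : Tm L) (Γ : Submodule ℚ (Lab L →₀ E)), σ.Over S → σ.rank = n + 1 →
  Inv Γ (inc.comp pr) → VAx (VG n) M σ Γ → VAx (VG n) (M.pull inc) σ (Γ.comap (lift inc))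

/-- `V_n` is closed under retracts -/
def Stmt_VRT : Prop :=
  ∀ (L : Type) (S : Set L) (ρ : L → V5) (n : ℕ) (E F : Type) [AddCommGroup E] [Module ℚ E]
    [AddCommGroup F] [Module ℚ F] (M : Str L E) (inc : F →ₗ[ℚ] E) (pr : E →ₗ[ℚ] F),
  (∀ v, pr (inc v) = v) → Str.Hom S n M M (inc.comp pr) → VG n S ρ E M →
  VG n S ρ F (M.pull inc)

/-- the axioms can be glued -/
def Stmt_VXG : Prop :=
  ∀ (L : Type) (S : Set L) (n : ℕ) (E ι : Type) [AddCommGroup E] [Module ℚ E]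
    (e : ι → E →ₗ[ℚ] E), Sys e → ∀ M : Str L E, (∀ a, Str.Hom S n M M (e a)) →
  ∀ (σ : Tm L) (Γ : Submodule ℚ (Lab L →₀ E)), σ.Over S → σ.rank = n + 1 →
  (∀ a, Inv Γ (e a)) →
  (∀ a, ∃ (F : Type) (_ : AddCommGroup F) (_ : Module ℚ F) (inc : F →ₗ[ℚ] E) (pr : E →ₗ[ℚ] F),
    (∀ v, pr (inc v) = v) ∧ inc.comp pr = e a ∧
    VAx (VG n) (M.pull inc) σ (Γ.comap (lift inc))) → VAx (VG n) M σ Γ

/-- `V_n` is closed under direct sums (and the axiom of one symbol) -/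
def Stmt_VDC : Prop :=
  ∀ (L : Type) (S : Set L) (ρ : L → V5) (n : ℕ) (E ι : Type) [AddCommGroup E] [Module ℚ E]
    (F : ι → Type) [∀ a, AddCommGroup (F a)] [∀ a, Module ℚ (F a)] (D : Dec E ι F)
    (Ms : ∀ a, Str L (F a)),
  ((∀ a, VG n S ρ (F a) (Ms a)) → VG n S ρ E (D.sum Ms)) ∧
  ∀ (σ : Tm L) (Γ : ∀ a, Submodule ℚ (Lab L →₀ F a)), σ.Over Set.univ →
    (∀ a, VAx (VG n) (Ms a) σ (Γ a)) →
    VAx (VG n) (D.sum Ms) σ (⨅ a, (Γ a).comap (lift (D.pr a)))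

/-- the same for two summands -/
def Stmt_VPR : Prop :=
  ∀ (L : Type) (S : Set L) (ρ : L → V5) (n : ℕ) (E F : Type) [AddCommGroup E] [Module ℚ E]
    [AddCommGroup F] [Module ℚ F] (M : Str L E) (M' : Str L F),
  (VG n S ρ E M → VG n S ρ F M' → VG n S ρ (E × F) (M.prod M')) ∧
  ∀ (σ : Tm L) (Γ : Submodule ℚ (Lab L →₀ E)) (Γ' : Submodule ℚ (Lab L →₀ F)),
    σ.Over Set.univ → VAx (VG n) M σ Γ → VAx (VG n) M' σ Γ' →
    VAx (VG n) (M.prod M') σ (Γ.comap (lift (LinearMap.fst ℚ E F)) ⊓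
      Γ'.comap (lift (LinearMap.snd ℚ E F)))

/-- the zero space -/
def Stmt_VZR : Prop :=
  ∀ (L : Type) (S : Set L) (ρ : L → V5) (n : ℕ) (E : Type) [AddCommGroup E] [Module ℚ E]
    [Subsingleton E] (M : Str L E), VG n S ρ E M

/-- new symbols for vertex structures; the axiom depends only on the lower symbols -/
def Stmt_VUP : Prop :=
  ∀ (L : Type) (S : Set L) (ρ : L → V5) (n : ℕ) (E : Type) [AddCommGroup E] [Module ℚ E]
    (M : Str L E),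
  (∀ f : Tm L → Submodule ℚ (Lab L →₀ E), VG n S ρ E M →
    (∀ σ : Tm L, σ.IsSym → σ.Over S → σ.rank = n + 1 → VAx (VG n) M σ (f σ)) →
    VG (n + 1) S ρ E (M.upd (n + 1) f) ∧ Str.Agree Set.univ n M (M.upd (n + 1) f)) ∧
  ∀ (M' : Str L E) (σ : Tm L) (Γ : Submodule ℚ (Lab L →₀ E)), Str.Agree S n M M' → σ.Over S →
    σ.rank = n + 1 → VAx (VG n) M σ Γ → VAx (VG n) M' σ Γ

/-- `T_r(j)` at the vertex types: not zero at `r`, zero at the others; constant types -/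
def Stmt_TRV : Prop :=
  ∀ (L : Type) (Z : Finset L) (r : L → V5), IsV (↑Z : Set L) r →
  (∀ j : Lab L, LOver (↑Z : Set L) j → r j.1 = V5.o → r j.2.1 = V5.i →
    NC (VG 0) ↑Z r (Tm.T1 Z r j) (Tm.T0 Z r j)) ∧
  (∀ (S : Set L) (ρ : L → V5) (E : Type) [AddCommGroup E] [Module ℚ E] (M : Str L E),
    (↑Z : Set L) ⊆ S → IsV S ρ → ¬ Set.EqOn ρ r ↑Z → VG 0 S ρ E M →
    ∀ (j : Lab L), M.Le (Tm.T1 Z r j) (Tm.T0 Z r j))

/-- nothing is nonzero at a constant vertex type -/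
def Stmt_CST : Prop :=
  ∀ (L : Type) (S : Set L) (ρ : L → V5) (n : ℕ), (∀ x ∈ S, ∀ y ∈ S, ρ x = ρ y) → IsV S ρ →
  ∀ α β : Tm L, α.Over S → β.Over S → α.rank ≤ n → β.rank ≤ n → ¬ NC (VG n) S ρ α β

/-! ## Layer F: frames -/

section
variable {V P Q : Type} [AddCommGroup V] [Module ℚ V] [AddCommGroup P] [Module ℚ P]
  [AddCommGroup Q] [Module ℚ Q]

/-- the coordinate idempotents -/
noncomputable def e0 : Option (Option Co) → (FE V P Q →ₗ[ℚ] FE V P Q)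
  | none => incP.comp prP
  | some none => incQ.comp prQ
  | some (some c) => (incC c).comp (prC c)

end

/-- The identities between the embeddings and projections of the frame. -/
def Stmt_FID : Prop :=
  ∀ (V P Q : Type) [AddCommGroup V] [Module ℚ V] [AddCommGroup P] [Module ℚ P] [AddCommGroup Q]
    [Module ℚ Q],
  ((∀ v, prX (incX v : FE V P Q) = v) ∧ (∀ v, prV (incV v : FE V P Q) = v) ∧
    (∀ v, prY (incY v : FE V P Q) = v) ∧ (∀ v, prV (incX v : FE V P Q) = 0) ∧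
    (∀ v, prY (incX v : FE V P Q) = 0) ∧ (∀ v, prX (incV v : FE V P Q) = 0) ∧
    (∀ v, prY (incV v : FE V P Q) = 0) ∧ (∀ v, prX (incY v : FE V P Q) = 0) ∧
    (∀ v, prV (incY v : FE V P Q) = 0)) ∧
  ((∀ v, prI (incI v : FE V P Q) = v) ∧ (∀ v, prK (incK v : FE V P Q) = v) ∧
    (∀ v, prK (incI v : FE V P Q) = 0) ∧ (∀ v, prI (incK v : FE V P Q) = 0)) ∧
  ((∀ v, prI' (incI' v : FE V P Q) = v) ∧ (∀ v, prK' (incK' v : FE V P Q) = v) ∧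
    (∀ v, prK' (incI' v : FE V P Q) = 0) ∧ (∀ v, prI' (incK' v : FE V P Q) = 0)) ∧
  ((∀ v, prP (incP v : FE V P Q) = v) ∧ (∀ v, prQ (incQ v : FE V P Q) = v) ∧
    (∀ v, prQ (incP v : FE V P Q) = 0) ∧ (∀ v, prP (incQ v : FE V P Q) = 0) ∧
    (∀ c v, prC c (incP v : FE V P Q) = 0) ∧ (∀ c v, prC c (incQ v : FE V P Q) = 0) ∧
    (∀ c v, prP (incC c v : FE V P Q) = 0) ∧ (∀ c v, prQ (incC c v : FE V P Q) = 0) ∧
    (∀ c v, prC c (incC c v : FE V P Q) = v) ∧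
    (∀ c c' v, c ≠ c' → prC c (incC c' v : FE V P Q) = 0)) ∧
  ((∀ v : FE V P Q, incX (prX v) + (incV (prV v) + incY (prY v)) = v) ∧
    (∀ v : FE V P Q, incI (prI v) + incK (prK v) = v) ∧
    (∀ v : FE V P Q, incI' (prI' v) + incK' (prK' v) = v)) ∧
  (Sys ![(incX.comp prX : FE V P Q →ₗ[ℚ] FE V P Q), incV.comp prV, incY.comp prY] ∧
    Sys ![(incI.comp prI : FE V P Q →ₗ[ℚ] FE V P Q), incK.comp prK] ∧
    Sys ![(incI'.comp prI' : FE V P Q →ₗ[ℚ] FE V P Q), incK'.comp prK'] ∧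
    Sys (e0 : Option (Option Co) → (FE V P Q →ₗ[ℚ] FE V P Q)))

/-- Naturality of the embeddings and projections; functoriality of `mapE`. -/
def Stmt_NAT : Prop :=
  ∀ (V P Q V' P' Q' : Type) [AddCommGroup V] [Module ℚ V] [AddCommGroup P] [Module ℚ P]
    [AddCommGroup Q] [Module ℚ Q] [AddCommGroup V'] [Module ℚ V'] [AddCommGroup P']
    [Module ℚ P'] [AddCommGroup Q'] [Module ℚ Q'] (f : V →ₗ[ℚ] V') (g : P →ₗ[ℚ] P')
    (h : Q →ₗ[ℚ] Q'),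
  ((mapE f g h).comp incX = incX.comp (mapX f g) ∧ prX.comp (mapE f g h) = (mapX f g).comp prX) ∧
  ((mapE f g h).comp incV = incV.comp f ∧ prV.comp (mapE f g h) = f.comp prV) ∧
  ((mapE f g h).comp incY = incY.comp (mapY f h) ∧ prY.comp (mapE f g h) = (mapY f h).comp prY) ∧
  ((mapE f g h).comp incI = incI.comp (mapX f g) ∧ prI.comp (mapE f g h) = (mapX f g).comp prI) ∧
  ((mapE f g h).comp incK = incK.comp (f.prodMap (mapY f h)) ∧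
    prK.comp (mapE f g h) = (f.prodMap (mapY f h)).comp prK) ∧
  ((mapE f g h).comp incI' = incI'.comp ((mapX f g).prodMap f) ∧
    prI'.comp (mapE f g h) = ((mapX f g).prodMap f).comp prI') ∧
  ((mapE f g h).comp incK' = incK'.comp (mapY f h) ∧
    prK'.comp (mapE f g h) = (mapY f h).comp prK') ∧
  ((mapE f g h).comp incP = incP.comp g ∧ prP.comp (mapE f g h) = g.comp prP) ∧
  ((mapE f g h).comp incQ = incQ.comp h ∧ prQ.comp (mapE f g h) = h.comp prQ) ∧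
  (∀ c : Co, (mapE f g h).comp (incC c) = (incC c).comp f ∧
    (prC c).comp (mapE f g h) = f.comp (prC c))

/-- Functoriality. -/
def Stmt_MPF : Prop :=
  ∀ (V P Q V' P' Q' V'' P'' Q'' : Type) [AddCommGroup V] [Module ℚ V] [AddCommGroup P]
    [Module ℚ P] [AddCommGroup Q] [Module ℚ Q] [AddCommGroup V'] [Module ℚ V']
    [AddCommGroup P'] [Module ℚ P'] [AddCommGroup Q'] [Module ℚ Q'] [AddCommGroup V'']
    [Module ℚ V''] [AddCommGroup P''] [Module ℚ P''] [AddCommGroup Q''] [Module ℚ Q'']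
    (f : V →ₗ[ℚ] V') (g : P →ₗ[ℚ] P') (h : Q →ₗ[ℚ] Q') (f' : V' →ₗ[ℚ] V'') (g' : P' →ₗ[ℚ] P'')
    (h' : Q' →ₗ[ℚ] Q''),
  (mapE f' g' h').comp (mapE f g h) = mapE (f'.comp f) (g'.comp g) (h'.comp h) ∧
  (mapX f' g').comp (mapX f g) = mapX (f'.comp f) (g'.comp g) ∧
  (mapY f' h').comp (mapY f h) = mapY (f'.comp f) (h'.comp h) ∧
  (mapE LinearMap.id LinearMap.id LinearMap.id : FE V P Q →ₗ[ℚ] FE V P Q) = LinearMap.id ∧
  (mapX LinearMap.id LinearMap.id : FX V P →ₗ[ℚ] FX V P) = LinearMap.id ∧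
  (mapY LinearMap.id LinearMap.id : FY V Q →ₗ[ℚ] FY V Q) = LinearMap.id

/-- Submodules in product form over `S₀₁` are invariant under all the idempotents. -/
def Stmt_SCA : Prop :=
  ∀ (J V P Q : Type) [AddCommGroup V] [Module ℚ V] [AddCommGroup P] [Module ℚ P]
    [AddCommGroup Q] [Module ℚ Q] (Γ : Submodule ℚ (J →₀ FE V P Q)),
  (∀ c c' : Co, Inv Γ ((incC c').comp (prC c))) → Inv Γ (incP.comp prP) →
  Inv Γ (incQ.comp prQ) →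
  Inv Γ (incX.comp prX) ∧ Inv Γ (incV.comp prV) ∧ Inv Γ (incY.comp prY) ∧
  Inv Γ (incI.comp prI) ∧ Inv Γ (incK.comp prK) ∧ Inv Γ (incI'.comp prI') ∧
  Inv Γ (incK'.comp prK')

/-- Decompositions of `E`, `𝕏`, `𝕐`, … from decompositions of `V`, `P`, `Q`. -/
def Stmt_DFE : Prop :=
  ∀ (V P Q ι : Type) [AddCommGroup V] [Module ℚ V] [AddCommGroup P] [Module ℚ P]
    [AddCommGroup Q] [Module ℚ Q] (Vf Pf Qf : ι → Type) [∀ a, AddCommGroup (Vf a)]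
    [∀ a, Module ℚ (Vf a)] [∀ a, AddCommGroup (Pf a)] [∀ a, Module ℚ (Pf a)]
    [∀ a, AddCommGroup (Qf a)] [∀ a, Module ℚ (Qf a)] (DV : Dec V ι Vf) (DP : Dec P ι Pf)
    (DQ : Dec Q ι Qf),
  (∃ D : Dec (FE V P Q) ι (fun a => FE (Vf a) (Pf a) (Qf a)),
    (∀ a, D.pr a = mapE (DV.pr a) (DP.pr a) (DQ.pr a)) ∧
    (∀ a, D.inc a = mapE (DV.inc a) (DP.inc a) (DQ.inc a))) ∧
  (∃ D : Dec (FX V P) ι (fun a => FX (Vf a) (Pf a)),
    (∀ a, D.pr a = mapX (DV.pr a) (DP.pr a)) ∧ (∀ a, D.inc a = mapX (DV.inc a) (DP.inc a))) ∧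
  (∃ D : Dec (FY V Q) ι (fun a => FY (Vf a) (Qf a)),
    (∀ a, D.pr a = mapY (DV.pr a) (DQ.pr a)) ∧ (∀ a, D.inc a = mapY (DV.inc a) (DQ.inc a))) ∧
  (∃ D : Dec (V × FY V Q) ι (fun a => Vf a × FY (Vf a) (Qf a)),
    (∀ a, D.pr a = (DV.pr a).prodMap (mapY (DV.pr a) (DQ.pr a))) ∧
    (∀ a, D.inc a = (DV.inc a).prodMap (mapY (DV.inc a) (DQ.inc a)))) ∧
  (∃ D : Dec (FX V P × V) ι (fun a => FX (Vf a) (Pf a) × Vf a),
    (∀ a, D.pr a = (mapX (DV.pr a) (DP.pr a)).prodMap (DV.pr a)) ∧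
    (∀ a, D.inc a = (mapX (DV.inc a) (DP.inc a)).prodMap (DV.inc a)))

/-- The decomposition of `Π₀ a, F a`. -/
def Stmt_DPI : Prop :=
  ∀ (ι : Type) (F : ι → Type) [∀ a, AddCommGroup (F a)] [∀ a, Module ℚ (F a)],
  ∃ D : Dec (Π₀ a, F a) ι F, (∀ a v, D.inc a v = DFinsupp.single a v) ∧
    ∀ a v, D.pr a v = v a

/-- Section 5: the flags are admissible.  Type `a`. -/
def Stmt_OKA : Prop :=
  ∀ (V P Q : Type) [AddCommGroup V] [Module ℚ V] [AddCommGroup P] [Module ℚ P] [AddCommGroup Q]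
    [Module ℚ Q] (H : Submodule ℚ V) (HP : Submodule ℚ P) (HQ : Submodule ℚ Q),
  OKx V5.a (fl H HP HQ V5.a)

/-- Type `b`. -/
def Stmt_OKB : Prop :=
  ∀ (V P Q : Type) [AddCommGroup V] [Module ℚ V] [AddCommGroup P] [Module ℚ P] [AddCommGroup Q]
    [Module ℚ Q] (H : Submodule ℚ V) (HP : Submodule ℚ P) (HQ : Submodule ℚ Q),
  OKx V5.b (fl H HP HQ V5.b)

/-- Type `c`. -/
def Stmt_OKC : Prop :=
  ∀ (V P Q : Type) [AddCommGroup V] [Module ℚ V] [AddCommGroup P] [Module ℚ P] [AddCommGroup Q]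
    [Module ℚ Q] (H : Submodule ℚ V) (HP : Submodule ℚ P) (HQ : Submodule ℚ Q),
  OKx V5.c (fl H HP HQ V5.c)

/-- Types `o`, `i`. -/
def Stmt_OKO : Prop :=
  ∀ (V P Q : Type) [AddCommGroup V] [Module ℚ V] [AddCommGroup P] [Module ℚ P] [AddCommGroup Q]
    [Module ℚ Q] (H : Submodule ℚ V) (HP : Submodule ℚ P) (HQ : Submodule ℚ Q),
  OKx V5.o (fl H HP HQ V5.o) ∧ OKx V5.i (fl H HP HQ V5.i)

/-- `OKx` is stable under pulling back along isomorphisms induced by isomorphisms of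
`V`, `P`, `Q` (naturality). -/
def Stmt_OKN : Prop :=
  ∀ (V P Q V' P' Q' : Type) [AddCommGroup V] [Module ℚ V] [AddCommGroup P] [Module ℚ P]
    [AddCommGroup Q] [Module ℚ Q] [AddCommGroup V'] [Module ℚ V'] [AddCommGroup P']
    [Module ℚ P'] [AddCommGroup Q'] [Module ℚ Q'] (f : V' ≃ₗ[ℚ] V) (g : P' ≃ₗ[ℚ] P)
    (h : Q' ≃ₗ[ℚ] Q) (v : V5) (x : Fin 3 → Submodule ℚ (FE V P Q)), OKx v x →
  OKx v fun l => (x l).comap (mapE f.toLinearMap g.toLinearMap h.toLinearMap)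

/-- Pointwise description of `E_0(S, φ)`. -/
def Stmt_EG0 : Prop :=
  ∀ (L : Type) (S : Set L) (φ : L → V5) (V P Q : Type) [AddCommGroup V] [Module ℚ V]
    [AddCommGroup P] [Module ℚ P] [AddCommGroup Q] [Module ℚ Q] (M : Str L (FE V P Q)),
  EG 0 S φ V P Q M ↔
    (∀ i ∈ S, OKx (φ i) (M.x i)) ∧
    ∀ Z : Finset L, (↑Z : Set L) ⊆ S → ∀ ψ, (¬ Hit (↑Z : Set L) φ ∨ ¬ Set.EqOn ψ φ ↑Z) →
      M.u Z ψ = ⊥

end Pool.NF
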