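import Pool.Agent.Work.MP_b103ef_pos.Interface1

/-!
# MP_b103ef_al (S02731): interface, part 2 (extension of structures)
-/

set_option autoImplicit false

open Classical

namespace Pool.NF

/-! ## Layer E: supports relative to one level, full vertex structures, extension of vertices -/

/-- `E_n` consists of sane structures. -/
def Stmt_ESN : Prop :=
  ∀ (L : Type) (S : Set L) (φ : L → V5) (n : ℕ) (V P Q : Type) [AddCommGroup V] [Module ℚ V]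
    [AddCommGroup P] [Module ℚ P] [AddCommGroup Q] [Module ℚ Q] (M : Str L (FE V P Q)),
  EG n S φ V P Q M → Sane S n M

/-- stage independence for vertex types -/
def Stmt_SUPV : Prop :=
  ∀ (L : Type) (n : ℕ), EVst L n → ∀ (m : ℕ) (Z S : Set L) (ρ : L → V5), m ≤ n → Z ⊆ S →
  IsV S ρ → ∀ α β : Tm L, α.Over Z → β.Over Z → α.rank ≤ m → β.rank ≤ m →
  (NC (VG m) Z ρ α β ↔ NC (VG n) S ρ α β)

/-- stage independence for hitting types -/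
def Stmt_SUPE : Prop :=
  ∀ (L : Type) (n : ℕ), EEst L n → ∀ (m : ℕ) (Z S : Set L) (φ : L → V5), m ≤ n → Z ⊆ S →
  Hit Z φ → ∀ α β : Tm L, α.Over Z → β.Over Z → α.rank ≤ m → β.rank ≤ m →
  (ENC (EG m) Z φ α β ↔ ENC (EG n) S φ α β)

/-- full vertex structures exist -/
def Stmt_VFU : Prop :=
  ∀ (L : Type) (S : Set L) (ρ : L → V5) (n : ℕ), ∃ κ₁ : Cardinal.{0}, ∀ κ : Cardinal.{0},
  κ₁ ≤ κ → ∃ (E : Type) (_ : AddCommGroup E) (_ : Module ℚ E) (M : Str L E),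
    VG n S ρ E M ∧ VFull κ n S ρ M ∧ Cardinal.mk (Lab L →₀ E) ≤ κ

/-- fullness passes to subsets and to sums -/
def Stmt_VFR : Prop :=
  ∀ (L : Type) (n : ℕ) (S : Set L) (ρ : L → V5) (κ : Cardinal.{0}) (E : Type) [AddCommGroup E]
    [Module ℚ E] (M : Str L E), VFull κ n S ρ M →
  (∀ Z : Set L, EVst L n → IsV S ρ → Z ⊆ S → VFull κ n Z ρ M) ∧
  (∀ ρ' : L → V5, Set.EqOn ρ ρ' S → VFull κ n S ρ' M) ∧
  (∀ (F : Type) [AddCommGroup F] [Module ℚ F] (M' : Str L F), VFull κ n S ρ (M'.prod M)) ∧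
  ∀ (F : Type) [AddCommGroup F] [Module ℚ F] (M' : Str L F) (inc : E →ₗ[ℚ] F)
    (pr : F →ₗ[ℚ] E), (∀ v, pr (inc v) = v) → Str.Hom S n M M' inc → Str.Hom S n M' M pr →
    VFull κ n S ρ M'

/-- cardinalities -/
def Stmt_CRD : Prop :=
  (∀ (J E F : Type) [AddCommGroup E] [Module ℚ E] [AddCommGroup F] [Module ℚ F]
    (inc : E →ₗ[ℚ] F), Function.Injective inc →
    Cardinal.mk (J →₀ E) ≤ Cardinal.mk (J →₀ F)) ∧
  (∀ (J E F : Type) [AddCommGroup E] [AddCommGroup F] (κ : Cardinal.{0}), Cardinal.aleph0 ≤ κ →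
    Cardinal.mk (J →₀ E) ≤ κ → Cardinal.mk (J →₀ F) ≤ κ → Cardinal.mk (J →₀ (E × F)) ≤ κ) ∧
  (∀ (J V P Q V' P' Q' : Type) [AddCommGroup V] [Module ℚ V] [AddCommGroup P] [Module ℚ P]
    [AddCommGroup Q] [Module ℚ Q] [AddCommGroup V'] [Module ℚ V'] [AddCommGroup P']
    [Module ℚ P'] [AddCommGroup Q'] [Module ℚ Q'] (κ : Cardinal.{0}), Cardinal.aleph0 ≤ κ →
    Cardinal.mk (J →₀ FE V P Q) ≤ κ → Cardinal.mk (J →₀ FE V' P' Q') ≤ κ →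
    Cardinal.mk (J →₀ FE (V × V') (P × P') (Q × Q')) ≤ κ) ∧
  (∀ (J ι : Type) (F : ι → Type) [∀ a, AddCommGroup (F a)] (κ : Cardinal.{0}),
    Cardinal.aleph0 ≤ κ → Cardinal.mk J ≤ κ → Cardinal.mk ι ≤ κ →
    (∀ a, Cardinal.mk (F a) ≤ κ) → Cardinal.mk (J →₀ (Π₀ a, F a)) ≤ κ ∧
      Cardinal.mk (Π₀ a, F a) ≤ κ) ∧
  (∀ (J V P Q : Type) [AddCommGroup V] [Module ℚ V] [AddCommGroup P] [Module ℚ P]
    [AddCommGroup Q] [Module ℚ Q] (κ : Cardinal.{0}), Cardinal.aleph0 ≤ κ → Cardinal.mk J ≤ κ →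
    Cardinal.mk V ≤ κ → Cardinal.mk P ≤ κ → Cardinal.mk Q ≤ κ →
    Cardinal.mk (J →₀ FE V P Q) ≤ κ)

/-- existence of links in full vertex structures -/
def Stmt_VLK : Prop :=
  ∀ (L : Type) (n : ℕ), EVst L n → ∀ (S : Set L) (ρ : L → V5), IsV S ρ →
  ∀ κ : Cardinal.{0}, Cardinal.aleph0 ≤ κ → ∀ (E : Type) [AddCommGroup E] [Module ℚ E]
    (M : Str L E), VG n S ρ E M → VFull κ n S ρ M → Cardinal.mk (Lab L →₀ E) ≤ κ →
  ∀ σ : Tm L, σ.IsSym → σ.Over S → σ.rank = n + 1 → ∃ Γ, VAx (VG n) M σ Γ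

/-- start of the induction -/
def Stmt_EV0 : Prop := ∀ L : Type, EVst L 0

/-- step -/
def Stmt_EVS : Prop := ∀ (L : Type) (n : ℕ), EVst L n → EVst L (n + 1)

/-! ## Layer G: frame structures -/

/-- (W): vertex structures of type `π_p φ`, `π_q φ` are frame structures -/
def Stmt_EW : Prop :=
  ∀ (L : Type) (S : Set L) (φ : L → V5) (n : ℕ) (E : Type) [AddCommGroup E] [Module ℚ E]
    (M : Str L E),
  (VG n S (pp ∘ φ) E M → EG n S φ PUnit E PUnit (M.pull prP)) ∧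
  (VG n S (pq ∘ φ) E M → EG n S φ PUnit PUnit E (M.pull prQ))

/-- `FrOK` and direct sums -/
def Stmt_FRD : Prop :=
  ∀ (L : Type) (S : Set L) (φ : L → V5) (n : ℕ) (V P Q ι : Type) [AddCommGroup V] [Module ℚ V]
    [AddCommGroup P] [Module ℚ P] [AddCommGroup Q] [Module ℚ Q] (Vf Pf Qf : ι → Type)
    [∀ a, AddCommGroup (Vf a)] [∀ a, Module ℚ (Vf a)] [∀ a, AddCommGroup (Pf a)]
    [∀ a, Module ℚ (Pf a)] [∀ a, AddCommGroup (Qf a)] [∀ a, Module ℚ (Qf a)]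
    (DV : Dec V ι Vf) (DP : Dec P ι Pf) (DQ : Dec Q ι Qf)
    (Ms : ∀ a, Str L (FE (Vf a) (Pf a) (Qf a))),
  (∀ a, FrOK n S φ (Ms a)) → FrOK n S φ (Dec.fsum DV DP DQ Ms)

/-- `HAx` and direct sums -/
def Stmt_HXD : Prop :=
  ∀ (L : Type) (φ : L → V5) (n : ℕ) (E ι : Type) [AddCommGroup E] [Module ℚ E] (F : ι → Type)
    [∀ a, AddCommGroup (F a)] [∀ a, Module ℚ (F a)] (D : Dec E ι F) (Ms : ∀ a, Str L (F a))
    (σ : Tm L) (Γ : ∀ a, Submodule ℚ (Lab L →₀ F a)), σ.Over Set.univ →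
  (∀ a, HAx (VG n) (EG n) φ (Ms a) σ (Γ a)) →
  HAx (VG n) (EG n) φ (D.sum Ms) σ (⨅ a, (Γ a).comap (lift (D.pr a)))

/-- `E_n` is closed under direct sums -/
def Stmt_EDC : Prop :=
  ∀ (L : Type) (S : Set L) (φ : L → V5) (n : ℕ) (V P Q ι : Type) [AddCommGroup V] [Module ℚ V]
    [AddCommGroup P] [Module ℚ P] [AddCommGroup Q] [Module ℚ Q] (Vf Pf Qf : ι → Type)
    [∀ a, AddCommGroup (Vf a)] [∀ a, Module ℚ (Vf a)] [∀ a, AddCommGroup (Pf a)]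
    [∀ a, Module ℚ (Pf a)] [∀ a, AddCommGroup (Qf a)] [∀ a, Module ℚ (Qf a)]
    (DV : Dec V ι Vf) (DP : Dec P ι Pf) (DQ : Dec Q ι Qf)
    (Ms : ∀ a, Str L (FE (Vf a) (Pf a) (Qf a))),
  (∀ a, EG n S φ (Vf a) (Pf a) (Qf a) (Ms a)) → EG n S φ V P Q (Dec.fsum DV DP DQ Ms)

/-- `FrOK` and sums of two structures -/
def Stmt_FRP : Prop :=
  ∀ (L : Type) (S : Set L) (φ : L → V5) (n : ℕ) (V P Q V' P' Q' : Type) [AddCommGroup V]
    [Module ℚ V] [AddCommGroup P] [Module ℚ P] [AddCommGroup Q] [Module ℚ Q] [AddCommGroup V']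
    [Module ℚ V'] [AddCommGroup P'] [Module ℚ P'] [AddCommGroup Q'] [Module ℚ Q']
    (M : Str L (FE V P Q)) (M' : Str L (FE V' P' Q')),
  FrOK n S φ M → FrOK n S φ M' → FrOK n S φ (fprod M M')

/-- `HAx` and sums of two frame structures; values of terms in `fprod` -/
def Stmt_HXP : Prop :=
  ∀ (L : Type) (φ : L → V5) (V P Q V' P' Q' : Type) [AddCommGroup V]
    [Module ℚ V] [AddCommGroup P] [Module ℚ P] [AddCommGroup Q] [Module ℚ Q] [AddCommGroup V']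
    [Module ℚ V'] [AddCommGroup P'] [Module ℚ P'] [AddCommGroup Q'] [Module ℚ Q']
    (M : Str L (FE V P Q)) (M' : Str L (FE V' P' Q')),
  (∀ n : ℕ, Str.Hom Set.univ n M (fprod M M') (mapE (LinearMap.inl ℚ V V')
      (LinearMap.inl ℚ P P') (LinearMap.inl ℚ Q Q')) ∧
    Str.Hom Set.univ n (fprod M M') M (mapE (LinearMap.fst ℚ V V') (LinearMap.fst ℚ P P')
      (LinearMap.fst ℚ Q Q')) ∧
    Str.Hom Set.univ n M' (fprod M M') (mapE (LinearMap.inr ℚ V V')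
      (LinearMap.inr ℚ P P') (LinearMap.inr ℚ Q Q')) ∧
    Str.Hom Set.univ n (fprod M M') M' (mapE (LinearMap.snd ℚ V V') (LinearMap.snd ℚ P P')
      (LinearMap.snd ℚ Q Q'))) ∧
  (∀ (G : Finset (Lab L)) (α : Tm L), α.Over Set.univ → (fprod M M').ev G α =
    (M.ev G α).comap (lift (mapE (LinearMap.fst ℚ V V') (LinearMap.fst ℚ P P')
      (LinearMap.fst ℚ Q Q'))) ⊓
    (M'.ev G α).comap (lift (mapE (LinearMap.snd ℚ V V') (LinearMap.snd ℚ P P')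
      (LinearMap.snd ℚ Q Q')))) ∧
  (∀ α β : Tm L, α.Over Set.univ → β.Over Set.univ →
    ((fprod M M').Le α β ↔ M.Le α β ∧ M'.Le α β)) ∧
  ∀ (n : ℕ) (σ : Tm L) (Γ : Submodule ℚ (Lab L →₀ FE V P Q))
    (Γ' : Submodule ℚ (Lab L →₀ FE V' P' Q')), σ.Over Set.univ →
    HAx (VG n) (EG n) φ M σ Γ → HAx (VG n) (EG n) φ M' σ Γ' →
    HAx (VG n) (EG n) φ (fprod M M') σ
      (Γ.comap (lift (mapE (LinearMap.fst ℚ V V') (LinearMap.fst ℚ P P')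
        (LinearMap.fst ℚ Q Q'))) ⊓
      Γ'.comap (lift (mapE (LinearMap.snd ℚ V V') (LinearMap.snd ℚ P P')
        (LinearMap.snd ℚ Q Q'))))

/-- `E_n` is closed under sums of two structures -/
def Stmt_EPD : Prop :=
  ∀ (L : Type) (S : Set L) (φ : L → V5) (n : ℕ) (V P Q V' P' Q' : Type) [AddCommGroup V]
    [Module ℚ V] [AddCommGroup P] [Module ℚ P] [AddCommGroup Q] [Module ℚ Q] [AddCommGroup V']
    [Module ℚ V'] [AddCommGroup P'] [Module ℚ P'] [AddCommGroup Q'] [Module ℚ Q']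
    (M : Str L (FE V P Q)) (M' : Str L (FE V' P' Q')),
  EG n S φ V P Q M → EG n S φ V' P' Q' M' → EG n S φ (V × V') (P × P') (Q × Q') (fprod M M')

/-- transport along isomorphisms -/
def Stmt_EEQ : Prop :=
  ∀ (L : Type) (S : Set L) (φ : L → V5) (n : ℕ) (V P Q V' P' Q' : Type) [AddCommGroup V]
    [Module ℚ V] [AddCommGroup P] [Module ℚ P] [AddCommGroup Q] [Module ℚ Q] [AddCommGroup V']
    [Module ℚ V'] [AddCommGroup P'] [Module ℚ P'] [AddCommGroup Q'] [Module ℚ Q']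
    (f : V' ≃ₗ[ℚ] V) (g : P' ≃ₗ[ℚ] P) (h : Q' ≃ₗ[ℚ] Q) (M : Str L (FE V P Q)),
  EG n S φ V P Q M →
  EG n S φ V' P' Q' (M.pull (mapE f.toLinearMap g.toLinearMap h.toLinearMap))

/-- the zero frame -/
def Stmt_EZR : Prop :=
  ∀ (L : Type) (S : Set L) (φ : L → V5) (n : ℕ) (V P Q : Type) [AddCommGroup V] [Module ℚ V]
    [AddCommGroup P] [Module ℚ P] [AddCommGroup Q] [Module ℚ Q] [Subsingleton V]
    [Subsingleton P] [Subsingleton Q] (M : Str L (FE V P Q)), EG n S φ V P Q M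

/-- the values of the symbols of rank `n + 1` of a member of `E_{n+1}` are admissible -/
def Stmt_SMI : Prop :=
  ∀ (L : Type) (S : Set L) (φ : L → V5) (n : ℕ) (V P Q : Type) [AddCommGroup V] [Module ℚ V]
    [AddCommGroup P] [Module ℚ P] [AddCommGroup Q] [Module ℚ Q] (M : Str L (FE V P Q)),
  EG (n + 1) S φ V P Q M → ∀ σ : Tm L, σ.IsSym → σ.Over S → σ.rank = n + 1 →
  SymOK n S φ M σ ((M.g σ).comap (lift incV)) (M.g σ)

/-- new symbols for frame structures -/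
def Stmt_EUP : Prop :=
  ∀ (L : Type) (S : Set L) (φ : L → V5) (n : ℕ) (V P Q : Type) [AddCommGroup V] [Module ℚ V]
    [AddCommGroup P] [Module ℚ P] [AddCommGroup Q] [Module ℚ Q] (M : Str L (FE V P Q))
    (f : Tm L → Submodule ℚ (Lab L →₀ FE V P Q)), EG n S φ V P Q M →
  (∀ σ : Tm L, σ.IsSym → σ.Over S → σ.rank = n + 1 → ∃ ΓV, SymOK n S φ M σ ΓV (f σ)) →
  EG (n + 1) S φ V P Q (M.upd (n + 1) f) ∧ Str.Agree Set.univ n M (M.upd (n + 1) f)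

/-- `SymOK` depends only on the lower symbols and on the symbol -/
def Stmt_SAG : Prop :=
  ∀ (L : Type) (S Z : Set L) (φ : L → V5) (n : ℕ) (V P Q : Type) [AddCommGroup V] [Module ℚ V]
    [AddCommGroup P] [Module ℚ P] [AddCommGroup Q] [Module ℚ Q] (M M' : Str L (FE V P Q))
    (σ : Tm L) (ΓV : Submodule ℚ (Lab L →₀ V)) (Γ : Submodule ℚ (Lab L →₀ FE V P Q)),
  Z ⊆ S → σ.IsSym → σ.Over Z → σ.rank = n + 1 → Str.Agree Z n M M' →
  SymOK n Z φ M σ ΓV Γ → SymOK n S φ M' σ ΓV Γ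

/-- `SymOK` and sums of two structures -/
def Stmt_SSM : Prop :=
  ∀ (L : Type) (S : Set L) (φ : L → V5) (n : ℕ) (V P Q V' P' Q' : Type) [AddCommGroup V]
    [Module ℚ V] [AddCommGroup P] [Module ℚ P] [AddCommGroup Q] [Module ℚ Q] [AddCommGroup V']
    [Module ℚ V'] [AddCommGroup P'] [Module ℚ P'] [AddCommGroup Q'] [Module ℚ Q']
    (M : Str L (FE V P Q)) (M' : Str L (FE V' P' Q')) (σ : Tm L)
    (ΓV : Submodule ℚ (Lab L →₀ V)) (Γ : Submodule ℚ (Lab L →₀ FE V P Q))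
    (ΓV' : Submodule ℚ (Lab L →₀ V')) (Γ' : Submodule ℚ (Lab L →₀ FE V' P' Q')),
  σ.Over S → SymOK n S φ M σ ΓV Γ → SymOK n S φ M' σ ΓV' Γ' →
  SymOK n S φ (fprod M M') σ
    (ΓV.comap (lift (LinearMap.fst ℚ V V')) ⊓ ΓV'.comap (lift (LinearMap.snd ℚ V V')))
    (Γ.comap (lift (mapE (LinearMap.fst ℚ V V') (LinearMap.fst ℚ P P')
      (LinearMap.fst ℚ Q Q'))) ⊓
    Γ'.comap (lift (mapE (LinearMap.snd ℚ V V') (LinearMap.snd ℚ P P')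
      (LinearMap.snd ℚ Q Q'))))

/-- `SymOK` and isomorphisms -/
def Stmt_SEQ : Prop :=
  ∀ (L : Type) (S : Set L) (φ : L → V5) (n : ℕ) (V P Q V' P' Q' : Type) [AddCommGroup V]
    [Module ℚ V] [AddCommGroup P] [Module ℚ P] [AddCommGroup Q] [Module ℚ Q] [AddCommGroup V']
    [Module ℚ V'] [AddCommGroup P'] [Module ℚ P'] [AddCommGroup Q'] [Module ℚ Q']
    (f : V' ≃ₗ[ℚ] V) (g : P' ≃ₗ[ℚ] P) (h : Q' ≃ₗ[ℚ] Q) (M : Str L (FE V P Q)) (σ : Tm L)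
    (ΓV : Submodule ℚ (Lab L →₀ V)) (Γ : Submodule ℚ (Lab L →₀ FE V P Q)),
  σ.Over S → SymOK n S φ M σ ΓV Γ →
  SymOK n S φ (M.pull (mapE f.toLinearMap g.toLinearMap h.toLinearMap)) σ
    (ΓV.comap (lift f.toLinearMap))
    (Γ.comap (lift (mapE f.toLinearMap g.toLinearMap h.toLinearMap)))

/-- structure over `S₀₁` -/
def Stmt_D01 : Prop :=
  ∀ (L : Type) (S : Set L) (φ : L → V5) (n : ℕ) (V P Q : Type) [AddCommGroup V] [Module ℚ V]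
    [AddCommGroup P] [Module ℚ P] [AddCommGroup Q] [Module ℚ Q] (M : Str L (FE V P Q)),
  FrOK n S φ M →
  (∀ c : Co, Str.Agree (d01 S φ) n (M.pull incV) (M.pull (incC c))) ∧
  VG n (d01 S φ) φ P (M.pull incP) ∧ VG n (d01 S φ) φ Q (M.pull incQ) ∧
  VG n (d01 S φ) φ V (M.pull incV)

/-- `T_ψ(j)` is not zero at `ψ` -/
def Stmt_TU1 : Prop :=
  ∀ (L : Type) (Z : Finset L) (ψ : L → V5), Hit (↑Z : Set L) ψ → ∀ j : Lab L,
  LOver (↑Z : Set L) j → ψ j.1 = V5.a → ψ j.2.1 = V5.c →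
  ENC (EG 0) ↑Z ψ (Tm.U1 Z ψ j) Tm.bot

/-- test structures for all parts of the frame -/
def Stmt_TST : Prop :=
  ∀ (L : Type) (n : ℕ), EVst L n → EXst L n → ∀ (S : Set L) (φ : L → V5), Hit S φ →
  ∀ α β : Tm L, α.rank ≤ n → β.rank ≤ n →
  (α.Over (dC S φ) → β.Over (dC S φ) →
    (NC (VG n) (dC S φ) (pp ∘ φ) α β → ∃ (V P Q : Type) (_ : AddCommGroup V) (_ : Module ℚ V)
      (_ : AddCommGroup P) (_ : Module ℚ P) (_ : AddCommGroup Q) (_ : Module ℚ Q)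
      (M : Str L (FE V P Q)), EG n S φ V P Q M ∧ ¬ (M.pull incX).Le α β) ∧
    (NC (VG n) (dC S φ) (ps ∘ φ) α β → ∃ (V P Q : Type) (_ : AddCommGroup V) (_ : Module ℚ V)
      (_ : AddCommGroup P) (_ : Module ℚ P) (_ : AddCommGroup Q) (_ : Module ℚ Q)
      (M : Str L (FE V P Q)), EG n S φ V P Q M ∧ ¬ (M.pull incV).Le α β) ∧
    (NC (VG n) (dC S φ) (pq ∘ φ) α β → ∃ (V P Q : Type) (_ : AddCommGroup V) (_ : Module ℚ V)
      (_ : AddCommGroup P) (_ : Module ℚ P) (_ : AddCommGroup Q) (_ : Module ℚ Q)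
      (M : Str L (FE V P Q)), EG n S φ V P Q M ∧ ¬ (M.pull incY).Le α β)) ∧
  (α.Over (dB S φ) → β.Over (dB S φ) →
    (NC (VG n) (dB S φ) (pp ∘ φ) α β → ∃ (V P Q : Type) (_ : AddCommGroup V) (_ : Module ℚ V)
      (_ : AddCommGroup P) (_ : Module ℚ P) (_ : AddCommGroup Q) (_ : Module ℚ Q)
      (M : Str L (FE V P Q)), EG n S φ V P Q M ∧ ¬ (M.pull incI).Le α β) ∧
    (NC (VG n) (dB S φ) (pq ∘ φ) α β → ∃ (V P Q : Type) (_ : AddCommGroup V) (_ : Module ℚ V)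
      (_ : AddCommGroup P) (_ : Module ℚ P) (_ : AddCommGroup Q) (_ : Module ℚ Q)
      (M : Str L (FE V P Q)), EG n S φ V P Q M ∧ ¬ (M.pull incK).Le α β)) ∧
  (α.Over (dA S φ) → β.Over (dA S φ) →
    (NC (VG n) (dA S φ) (pp ∘ φ) α β → ∃ (V P Q : Type) (_ : AddCommGroup V) (_ : Module ℚ V)
      (_ : AddCommGroup P) (_ : Module ℚ P) (_ : AddCommGroup Q) (_ : Module ℚ Q)
      (M : Str L (FE V P Q)), EG n S φ V P Q M ∧ ¬ (M.pull incI').Le α β) ∧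
    (NC (VG n) (dA S φ) (pq ∘ φ) α β → ∃ (V P Q : Type) (_ : AddCommGroup V) (_ : Module ℚ V)
      (_ : AddCommGroup P) (_ : Module ℚ P) (_ : AddCommGroup Q) (_ : Module ℚ Q)
      (M : Str L (FE V P Q)), EG n S φ V P Q M ∧ ¬ (M.pull incK').Le α β)) ∧
  (α.Over (d01 S φ) → β.Over (d01 S φ) → NC (VG n) (d01 S φ) φ α β →
    (∃ (V P Q : Type) (_ : AddCommGroup V) (_ : Module ℚ V)
      (_ : AddCommGroup P) (_ : Module ℚ P) (_ : AddCommGroup Q) (_ : Module ℚ Q)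
      (M : Str L (FE V P Q)), EG n S φ V P Q M ∧ ¬ (M.pull incP).Le α β) ∧
    (∃ (V P Q : Type) (_ : AddCommGroup V) (_ : Module ℚ V)
      (_ : AddCommGroup P) (_ : Module ℚ P) (_ : AddCommGroup Q) (_ : Module ℚ Q)
      (M : Str L (FE V P Q)), EG n S φ V P Q M ∧ ¬ (M.pull incQ).Le α β))

/-- a sum of `κ` copies of test structures is `κ`-full in every part -/
def Stmt_SMF : Prop :=
  ∀ (L : Type) (S : Set L) (φ : L → V5) (n : ℕ) (ι : Type)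
    (Vt Pt Qt : ι → Type) [∀ a, AddCommGroup (Vt a)] [∀ a, Module ℚ (Vt a)]
    [∀ a, AddCommGroup (Pt a)] [∀ a, Module ℚ (Pt a)] [∀ a, AddCommGroup (Qt a)]
    [∀ a, Module ℚ (Qt a)] (Ms : ∀ a, Str L (FE (Vt a) (Pt a) (Qt a))),
  (∀ a, EG n S φ (Vt a) (Pt a) (Qt a) (Ms a)) → ∃ κ₁ : Cardinal.{0}, ∀ κ : Cardinal.{0},
  κ₁ ≤ κ → ∃ (V P Q : Type) (_ : AddCommGroup V) (_ : Module ℚ V)
    (_ : AddCommGroup P) (_ : Module ℚ P) (_ : AddCommGroup Q) (_ : Module ℚ Q)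
    (M : Str L (FE V P Q)), EG n S φ V P Q M ∧ Cardinal.mk (Lab L →₀ FE V P Q) ≤ κ ∧
    ∀ α β : Tm L, α.Over Set.univ → β.Over Set.univ → α.rank ≤ n → β.rank ≤ n →
      ((∃ a, ¬ (Ms a).Le α β) → κ ≤ M.rk (α.vars ∪ β.vars) α β) ∧
      ((∃ a, ¬ ((Ms a).pull incX).Le α β) → κ ≤ (M.pull incX).rk (α.vars ∪ β.vars) α β) ∧
      ((∃ a, ¬ ((Ms a).pull incV).Le α β) → κ ≤ (M.pull incV).rk (α.vars ∪ β.vars) α β) ∧
      ((∃ a, ¬ ((Ms a).pull incY).Le α β) → κ ≤ (M.pull incY).rk (α.vars ∪ β.vars) α β) ∧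
      ((∃ a, ¬ ((Ms a).pull incI).Le α β) → κ ≤ (M.pull incI).rk (α.vars ∪ β.vars) α β) ∧
      ((∃ a, ¬ ((Ms a).pull incK).Le α β) → κ ≤ (M.pull incK).rk (α.vars ∪ β.vars) α β) ∧
      ((∃ a, ¬ ((Ms a).pull incI').Le α β) → κ ≤ (M.pull incI').rk (α.vars ∪ β.vars) α β) ∧
      ((∃ a, ¬ ((Ms a).pull incK').Le α β) → κ ≤ (M.pull incK').rk (α.vars ∪ β.vars) α β) ∧
      ((∃ a, ¬ ((Ms a).pull incP).Le α β) → κ ≤ (M.pull incP).rk (α.vars ∪ β.vars) α β) ∧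
      ((∃ a, ¬ ((Ms a).pull incQ).Le α β) → κ ≤ (M.pull incQ).rk (α.vars ∪ β.vars) α β)

/-- full frame structures exist -/
def Stmt_EFU : Prop :=
  ∀ (L : Type) (n : ℕ), EVst L n → EXst L n → ∀ (S : Set L) (φ : L → V5), Hit S φ →
  ∃ κ₁ : Cardinal.{0}, ∀ κ : Cardinal.{0}, κ₁ ≤ κ →
  ∃ (V P Q : Type) (_ : AddCommGroup V) (_ : Module ℚ V) (_ : AddCommGroup P)
    (_ : Module ℚ P) (_ : AddCommGroup Q) (_ : Module ℚ Q) (M : Str L (FE V P Q)),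
    EG n S φ V P Q M ∧ EFull κ n S φ M ∧ Cardinal.mk (Lab L →₀ FE V P Q) ≤ κ

/-- fullness passes to subsets -/
def Stmt_EFR : Prop :=
  ∀ (L : Type) (n : ℕ), EVst L n → EEst L n → ∀ (S Z : Set L) (φ : L → V5)
    (κ : Cardinal.{0}) (V P Q : Type) [AddCommGroup V] [Module ℚ V] [AddCommGroup P]
    [Module ℚ P] [AddCommGroup Q] [Module ℚ Q] (M : Str L (FE V P Q)), Hit Z φ → Z ⊆ S →
  EFull κ n S φ M → EFull κ n Z φ M

/-- fullness passes to sums and along isomorphisms -/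
def Stmt_EFS : Prop :=
  ∀ (L : Type) (n : ℕ) (S : Set L) (φ : L → V5) (κ : Cardinal.{0}) (V P Q V' P' Q' : Type)
    [AddCommGroup V] [Module ℚ V] [AddCommGroup P] [Module ℚ P] [AddCommGroup Q] [Module ℚ Q]
    [AddCommGroup V'] [Module ℚ V'] [AddCommGroup P'] [Module ℚ P'] [AddCommGroup Q']
    [Module ℚ Q'] (M : Str L (FE V P Q)) (M' : Str L (FE V' P' Q')),
  EFull κ n S φ M' → EFull κ n S φ (fprod M M')

/-- (6.2) applied to a link and the two parts of a decomposition -/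
def Stmt_IVP : Prop :=
  ∀ (L : Type) (S : Set L) (n : ℕ) (E F : Type) [AddCommGroup E] [Module ℚ E] [AddCommGroup F]
    [Module ℚ F] (M : Str L E) (inc : F →ₗ[ℚ] E) (pr : E →ₗ[ℚ] F) (f : E →ₗ[ℚ] E),
  (∀ v, pr (inc v) = v) → Str.Hom S n M M (inc.comp pr) → (∀ v, inc (pr v) + f v = v) →
  ∀ (ρ : L → V5) (Z : Finset L) (r : L → V5) (j : Lab L) (α β : Tm L),
  (Tm.lk Z r j α β).Over S → (Tm.lk Z r j α β).rank = n + 1 → Loc (VG n) Z r j α β →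
  IsV (↑Z : Set L) ρ → ¬ Set.EqOn ρ r ↑Z → VG n (↑Z : Set L) ρ F (M.pull inc) →
  ∀ Γ : Submodule ℚ (Lab L →₀ E),
  ISO (M.ev (insert j (α.vars ∪ β.vars)) (Tm.T0 Z r j))
    (M.ev (insert j (α.vars ∪ β.vars)) (Tm.T1 Z r j))
    (M.ev (insert j (α.vars ∪ β.vars)) α ⊓ M.ev (insert j (α.vars ∪ β.vars)) β)
    (M.ev (insert j (α.vars ∪ β.vars)) α) Γ →
  Inv Γ (inc.comp pr) ∧ Inv Γ f

/-- extension case (I): index set inside `S₀₁` -/
def Stmt_ESW1 : Prop :=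
  ∀ (L : Type) (n : ℕ), EVst L n → ∀ (S : Set L) (φ : L → V5), Hit S φ →
  ∀ (κ : Cardinal.{0}), Cardinal.aleph0 ≤ κ → ∀ (V P Q : Type) [AddCommGroup V] [Module ℚ V]
    [AddCommGroup P] [Module ℚ P] [AddCommGroup Q] [Module ℚ Q] (M : Str L (FE V P Q)),
  EG n S φ V P Q M → EFull κ n S φ M → Cardinal.mk (Lab L →₀ FE V P Q) ≤ κ →
  ∀ σ : Tm L, σ.IsSym → σ.Over S → σ.rank = n + 1 → σ.Over (d01 S φ) →
  ∀ ΓV, VAx (VG n) (M.pull incV) σ ΓV → ∃ Γ, SymOK n S φ M σ ΓV Γ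

/-- extension case (II): index set inside `S ∖ C`, not inside `S₀₁` -/
def Stmt_ESW2 : Prop :=
  ∀ (L : Type) (n : ℕ), EVst L n → ∀ (S : Set L) (φ : L → V5), Hit S φ →
  ∀ (κ : Cardinal.{0}), Cardinal.aleph0 ≤ κ → ∀ (V P Q : Type) [AddCommGroup V] [Module ℚ V]
    [AddCommGroup P] [Module ℚ P] [AddCommGroup Q] [Module ℚ Q] (M : Str L (FE V P Q)),
  EG n S φ V P Q M → EFull κ n S φ M → Cardinal.mk (Lab L →₀ FE V P Q) ≤ κ →
  ∀ σ : Tm L, σ.IsSym → σ.Over S → σ.rank = n + 1 → σ.Over (dC S φ) → ¬ σ.Over (d01 S φ) →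
  ∀ ΓV, VAx (VG n) (M.pull incV) σ ΓV → ∃ Γ, SymOK n S φ M σ ΓV Γ

/-- extension case (III): index set not inside `S ∖ C`, but inside `S ∖ A` or `S ∖ B` -/
def Stmt_ESW3 : Prop :=
  ∀ (L : Type) (n : ℕ), EVst L n → ∀ (S : Set L) (φ : L → V5), Hit S φ →
  ∀ (κ : Cardinal.{0}), Cardinal.aleph0 ≤ κ → ∀ (V P Q : Type) [AddCommGroup V] [Module ℚ V]
    [AddCommGroup P] [Module ℚ P] [AddCommGroup Q] [Module ℚ Q] (M : Str L (FE V P Q)),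
  EG n S φ V P Q M → EFull κ n S φ M → Cardinal.mk (Lab L →₀ FE V P Q) ≤ κ →
  ∀ σ : Tm L, σ.IsSym → σ.Over S → σ.rank = n + 1 → (σ.Over (dA S φ) ∨ σ.Over (dB S φ)) →
  ¬ σ.Over (dC S φ) → ∀ ΓV, ∃ Γ, SymOK n S φ M σ ΓV Γ

/-- extension case (IV): hitting index set -/
def Stmt_ESW4 : Prop :=
  ∀ (L : Type) (n : ℕ), EVst L n → EEst L n → ∀ (S : Set L) (φ : L → V5), Hit S φ →
  ∀ (κ : Cardinal.{0}), Cardinal.aleph0 ≤ κ → ∀ (V P Q : Type) [AddCommGroup V] [Module ℚ V]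
    [AddCommGroup P] [Module ℚ P] [AddCommGroup Q] [Module ℚ Q] (M : Str L (FE V P Q)),
  EG n S φ V P Q M → EFull κ n S φ M → Cardinal.mk (Lab L →₀ FE V P Q) ≤ κ →
  ∀ σ : Tm L, σ.IsSym → σ.Over S → σ.rank = n + 1 → ¬ σ.Over (dA S φ) → ¬ σ.Over (dB S φ) →
  ¬ σ.Over (dC S φ) → ∀ ΓV, ∃ Γ, SymOK n S φ M σ ΓV Γ

/-- the extension step for one symbol -/
def Stmt_ESW : Prop :=
  ∀ (L : Type) (n : ℕ), EVst L n → EEst L n → ∀ (S : Set L) (φ : L → V5), Hit S φ →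
  ∀ (κ : Cardinal.{0}), Cardinal.aleph0 ≤ κ → ∀ (V P Q : Type) [AddCommGroup V] [Module ℚ V]
    [AddCommGroup P] [Module ℚ P] [AddCommGroup Q] [Module ℚ Q] (M : Str L (FE V P Q)),
  EG n S φ V P Q M → EFull κ n S φ M → Cardinal.mk (Lab L →₀ FE V P Q) ≤ κ →
  ∀ σ : Tm L, σ.IsSym → σ.Over S → σ.rank = n + 1 →
  ∀ ΓV, (σ.Over (dC S φ) → VAx (VG n) (M.pull incV) σ ΓV) → ∃ Γ, SymOK n S φ M σ ΓV Γ

/-- start of the inductions -/
def Stmt_EX0 : Prop := ∀ L : Type, EXst L 0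

/-- start of the inductions -/
def Stmt_EE0 : Prop := ∀ L : Type, EEst L 0

/-- step for `EXst` -/
def Stmt_EXS : Prop :=
  ∀ (L : Type) (n : ℕ), EVst L n → EXst L n → EEst L n → EXst L (n + 1)

/-- step for `EEst` -/
def Stmt_EES : Prop :=
  ∀ (L : Type) (n : ℕ), EVst L n → EXst L n → EEst L n → EEst L (n + 1)

/-- everything extends -/
def Stmt_ALL : Prop := ∀ L : Type, AllExt L

end Pool.NF
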