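import Pool.Agent.Work.MP_b103ef_pos.Interface2

/-!
# MP_b103ef_al (S02731): interface, part 3 (supports, the lattice `K`, key lemma, conclusion)
-/

set_option autoImplicit false

open Classical

namespace Pool.NF

/-! ## Layer H: supports -/

/-- `NCs` does not depend on the level and on the set -/
def Stmt_NCI : Prop :=
  ∀ L : Type, AllExt L → ∀ (Z S : Set L) (χ : L → V5) (α β : Tm L) (n : ℕ), Z ⊆ S →
  α.Over Z → β.Over Z → α.rank ≤ n → β.rank ≤ n →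
  (IsV S χ → (NCs Z χ α β ↔ NC (VG n) S χ α β)) ∧
  (Hit Z χ → (NCs Z χ α β ↔ ENC (EG n) S χ α β)) ∧
  (∀ χ' : L → V5, Set.EqOn χ χ' Z → (NCs Z χ α β ↔ NCs Z χ' α β)) ∧
  ((IsV S χ ∨ Hit Z χ) → (NCs Z χ α β ↔ NCs S χ α β))

/-- closedness, tested on all models of one level -/
def Stmt_NCM : Prop :=
  ∀ L : Type, AllExt L → ∀ (Z : Set L) (χ : L → V5) (α β : Tm L) (n : ℕ),
  α.Over Z → β.Over Z → α.rank ≤ n → β.rank ≤ n →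
  (¬ NCs Z χ α β ↔
    (IsV Z χ → ∀ (E : Type) [AddCommGroup E] [Module ℚ E] (M : Str L E), VG n Z χ E M →
      M.Le α β) ∧
    (Hit Z χ → ∀ (V P Q : Type) [AddCommGroup V] [Module ℚ V] [AddCommGroup P] [Module ℚ P]
      [AddCommGroup Q] [Module ℚ Q] (M : Str L (FE V P Q)), EG n Z χ V P Q M → M.Le α β))

/-- supports at hitting types of nonhitting index sets; adjacency (section 8) -/
def Stmt_NCH : Prop :=
  ∀ L : Type, AllExt L → ∀ (Z S : Set L) (φ : L → V5) (α β : Tm L), Z ⊆ S → Hit S φ →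
  α.Over Z → β.Over Z →
  ((∀ z ∈ Z, φ z ≠ V5.c) →
    (NCs S φ α β ↔ NCs Z (pp ∘ φ) α β ∨ NCs Z (ps ∘ φ) α β ∨ NCs Z (pq ∘ φ) α β)) ∧
  (((∀ z ∈ Z, φ z ≠ V5.b) ∨ (∀ z ∈ Z, φ z ≠ V5.a)) →
    (NCs S φ α β ↔ NCs Z (pp ∘ φ) α β ∨ NCs Z (pq ∘ φ) α β)) ∧
  (NCs Z (pp ∘ φ) α β → NCs S φ α β) ∧ (NCs Z (pq ∘ φ) α β → NCs S φ α β)

/-- bounds for the flags in frames -/
def Stmt_BND : Prop :=
  ∀ (L : Type) (S : Set L) (φ : L → V5) (V P Q : Type) [AddCommGroup V] [Module ℚ V]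
    [AddCommGroup P] [Module ℚ P] [AddCommGroup Q] [Module ℚ Q] (M : Str L (FE V P Q)),
  EG 0 S φ V P Q M → ∀ k ∈ S,
  (φ k = V5.a → M.x k 0 ≤ LinearMap.range incX ∧ LinearMap.range incX ≤ M.x k 2) ∧
  (φ k = V5.b → M.x k 0 ≤ LinearMap.range incX ⊔ LinearMap.range incV ∧
    LinearMap.range incX ⊔ LinearMap.range incV ≤ M.x k 2) ∧
  (φ k = V5.c → M.x k 0 ≤ LinearMap.range incK ⊓ LinearMap.range incK' ∧
    LinearMap.range incK ⊔ LinearMap.range incK' ≤ M.x k 2) ∧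
  (φ k = V5.o → M.x k 0 = ⊥ ∧ M.x k 2 = M.x k 1) ∧
  (φ k = V5.i → M.x k 0 = M.x k 1 ∧ M.x k 2 = ⊤) ∧
  M.x k 0 ≤ M.x k 1 ∧ M.x k 1 ≤ M.x k 2

/-- `T_r(j)` at hitting types of `Z` -/
def Stmt_TR2 : Prop :=
  ∀ (L : Type) (S : Set L) (φ : L → V5) (V P Q : Type) [AddCommGroup V] [Module ℚ V]
    [AddCommGroup P] [Module ℚ P] [AddCommGroup Q] [Module ℚ Q] (M : Str L (FE V P Q)),
  EG 0 S φ V P Q M → ∀ (Z : Finset L) (r : L → V5), (↑Z : Set L) ⊆ S → Hit (↑Z : Set L) φ →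
  IsV (↑Z : Set L) r → ¬ Set.EqOn r (pp ∘ φ) ↑Z → ¬ Set.EqOn r (pq ∘ φ) ↑Z →
  ∀ j : Lab L, M.Le (Tm.T1 Z r j) (Tm.T0 Z r j)

/-- supports of `T_χ(j)` -/
def Stmt_TRX : Prop :=
  ∀ L : Type, AllExt L → ∀ (Z : Finset L) (χ : L → V5) (j : Lab L), LOver (↑Z : Set L) j →
  ∀ (S : Set L) (φ : L → V5), (↑Z : Set L) ⊆ S → (IsV S φ ∨ Hit S φ) →
  (IsV (↑Z : Set L) χ → NCs S φ (Tm.T1 Z χ j) (Tm.T0 Z χ j) →
    Rel (↑Z : Set L) χ φ ∧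
    (Hit (↑Z : Set L) φ → Set.EqOn χ (pp ∘ φ) ↑Z ∨ Set.EqOn χ (pq ∘ φ) ↑Z)) ∧
  (Hit (↑Z : Set L) χ → NCs S φ (Tm.U1 Z χ j) Tm.bot →
    Hit (↑Z : Set L) φ ∧ Set.EqOn χ φ ↑Z)

/-- `A_j / B_j` at points, first half -/
def Stmt_AJ1 : Prop :=
  ∀ (L : Type) (S : Set L) (φ : L → V5) (x y : L), x ∈ S → y ∈ S → (IsV S φ ∨ Hit S φ) →
  φ x = φ y → ¬ NCs S φ (Tm.AT (x, y, 0)) Tm.bot

/-- `A_j / B_j` at points, second half -/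
def Stmt_AJ2 : Prop :=
  ∀ (L : Type) (S : Set L) (φ : L → V5) (x y : L), x ∈ S → y ∈ S → (IsV S φ ∨ Hit S φ) →
  φ x < φ y → NCs S φ (Tm.AT (x, y, 0)) Tm.bot

/-- a pair that is closed at all types of `Z` is closed everywhere -/
def Stmt_CLZ : Prop :=
  ∀ (L : Type) [Lattice L], AllExt L → ∀ (Z : Set L) (α β : Tm L), α.Over Z → β.Over Z →
  (∀ χ, ¬ NCs Z χ α β) → TLe α β

/-- `TLe`, tested on all models of one level -/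
def Stmt_TLM : Prop :=
  ∀ (L : Type) [Lattice L], AllExt L → ∀ (α β : Tm L) (n : ℕ), α.Over Set.univ →
  β.Over Set.univ → α.rank ≤ n → β.rank ≤ n →
  (TLe α β ↔
    (∀ φ : L → V5, IsPt φ → IsV Set.univ φ → ∀ (E : Type) [AddCommGroup E] [Module ℚ E]
      (M : Str L E), VG n Set.univ φ E M → M.Le α β) ∧
    (∀ φ : L → V5, IsPt φ → Hit Set.univ φ → ∀ (V P Q : Type) [AddCommGroup V] [Module ℚ V]
      [AddCommGroup P] [Module ℚ P] [AddCommGroup Q] [Module ℚ Q] (M : Str L (FE V P Q)),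
      EG n Set.univ φ V P Q M → M.Le α β))

/-- at every type, the terms form a modular quasi-lattice -/
def Stmt_QOS : Prop :=
  ∀ L : Type, AllExt L → ∀ (S : Set L) (χ : L → V5) (α β γ : Tm L), α.Over S → β.Over S →
  γ.Over S →
  ¬ NCs S χ α α ∧ (¬ NCs S χ α β → ¬ NCs S χ β γ → ¬ NCs S χ α γ) ∧
  ¬ NCs S χ (.inf α β) α ∧ ¬ NCs S χ (.inf α β) β ∧
  (¬ NCs S χ γ α → ¬ NCs S χ γ β → ¬ NCs S χ γ (.inf α β)) ∧
  ¬ NCs S χ α (.sup α β) ∧ ¬ NCs S χ β (.sup α β) ∧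
  (¬ NCs S χ α γ → ¬ NCs S χ β γ → ¬ NCs S χ (.sup α β) γ) ∧
  (¬ NCs S χ γ α → ¬ NCs S χ (.inf α (.sup β γ)) (.sup (.inf α β) γ))

/-! ## Layer I: the lattice `K` -/

/-- `K` exists (section 9) -/
def Stmt_KD : Prop := ∀ (L : Type) [Lattice L], AllExt L → Nonempty (KData L)

/-- the identities for `lk` in `K` -/
def Stmt_EK1 : Prop :=
  ∀ (L : Type) [Lattice L], AllExt L → ∀ (D : KData L) (Z : Finset L) (r : L → V5) (j : Lab L)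
    (α β : Tm L), α.Over (↑Z : Set L) → β.Over (↑Z : Set L) → LOver (↑Z : Set L) j →
  Loc (VG (max α.rank β.rank)) Z r j α β →
  MAP (D.q (.T0 Z r j)) (D.q (.T1 Z r j)) (D.q α ⊓ D.q β) (D.q α) (D.q (.lk Z r j α β)) ∧
  D.q (.T0 Z r j) ≤ D.q (.T1 Z r j) ∧ D.q (.T1 Z r j) ⊓ D.q α ≤ D.q (.T0 Z r j) ∧
  D.q (.T1 Z r j) ⊓ D.q α ≤ D.q α ⊓ D.q β

/-- the identities for `ek` in `K` -/
def Stmt_EK2 : Prop :=
  ∀ (L : Type) [Lattice L], AllExt L → ∀ (D : KData L) (Z : Finset L) (ψ : L → V5) (j : Lab L)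
    (α β : Tm L), α.Over (↑Z : Set L) → β.Over (↑Z : Set L) → LOver (↑Z : Set L) j →
  ELoc (EG (max α.rank β.rank)) Z ψ j α β →
  MAP (D.q α ⊓ D.q β) (D.q α) (D.q .bot) (D.q (.U1 Z ψ j)) (D.q (.ek Z ψ j α β)) ∧
  D.q (.ek Z ψ j α β) ⊔ D.q α = D.q (.U1 Z ψ j) ⊔ D.q α ∧
  D.q .bot ≤ D.q (.U1 Z ψ j) ∧ D.q α ⊓ D.q (.U1 Z ψ j) ≤ D.q .bot ∧
  D.q .bot ≤ D.q α ⊓ D.q β

/-- the new pair in (10)(b) -/
def Stmt_EC1 : Prop :=
  ∀ L : Type, AllExt L → ∀ (Z : Finset L) (ψ : L → V5) (j : Lab L) (α β : Tm L),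
  α.Over (↑Z : Set L) → β.Over (↑Z : Set L) → LOver (↑Z : Set L) j →
  ELoc (EG (max α.rank β.rank)) Z ψ j α β →
  (∀ ρ : L → V5, IsV (↑Z : Set L) ρ → ¬ NCs (↑Z : Set L) ρ α β) →
  (∀ χ : L → V5, Set.EqOn χ ψ ↑Z → ¬ NCs (↑Z : Set L) χ (.inf (.ek Z ψ j α β) α) β) ∧
  (∀ χ : L → V5, NCs (↑Z : Set L) χ (.inf (.ek Z ψ j α β) α) β → NCs (↑Z : Set L) χ α β)

/-- the new pair in (10)(d) -/
def Stmt_EC2 : Prop :=
  ∀ L : Type, AllExt L → ∀ (Z : Finset L) (r : L → V5) (j : Lab L) (α β : Tm L),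
  α.Over (↑Z : Set L) → β.Over (↑Z : Set L) → LOver (↑Z : Set L) j →
  Loc (VG (max α.rank β.rank)) Z r j α β →
  (∀ ρ : L → V5, IsV (↑Z : Set L) ρ →
    ¬ NCs (↑Z : Set L) ρ (.inf (.T1 Z r j) (.lk Z r j α β)) (.T0 Z r j)) ∧
  (∀ χ : L → V5, NCs (↑Z : Set L) χ (.inf (.T1 Z r j) (.lk Z r j α β)) (.T0 Z r j) →
    NCs (↑Z : Set L) χ (.T1 Z r j) (.T0 Z r j))

/-- the new pair in (10)(e) -/
def Stmt_EC3 : Prop :=
  ∀ L : Type, AllExt L → ∀ (Z : Finset L) (r : L → V5) (j : Lab L) (α β : Tm L),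
  α.Over (↑Z : Set L) → β.Over (↑Z : Set L) → LOver (↑Z : Set L) j →
  Loc (VG (max α.rank β.rank)) Z r j α β →
  (∀ ρ : L → V5, IsV (↑Z : Set L) ρ →
    ¬ NCs (↑Z : Set L) ρ α (.inf α (.sup (.lk Z r j α β) (.T1 Z r j)))) ∧
  (∀ χ : L → V5, NCs (↑Z : Set L) χ α (.inf α (.sup (.lk Z r j α β) (.T1 Z r j))) →
    NCs (↑Z : Set L) χ α β)

/-- the chain of (10)(c) -/
noncomputable def flg {L : Type} (α β : Tm L) (k : L) : Fin 5 → Tm L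
  | 0 => .inf α β
  | 1 => .sup (.inf α β) (.inf α (.XT (α.vars ∪ β.vars) k 0))
  | 2 => .sup (.inf α β) (.inf α (.XT (α.vars ∪ β.vars) k 1))
  | 3 => .sup (.inf α β) (.inf α (.XT (α.vars ∪ β.vars) k 2))
  | 4 => α

/-- (10)(c), supports of the four factors -/
def Stmt_FLG : Prop :=
  ∀ L : Type, AllExt L → ∀ (Z : Finset L) (k : L), k ∈ Z → ∀ α β : Tm L,
  α.Over (↑Z : Set L) → β.Over (↑Z : Set L) →
  (∀ m : Fin 5, (flg α β k m).Over (↑Z : Set L) ∧ (flg α β k m).vars ⊆ α.vars ∪ β.vars) ∧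
  (∀ (m : Fin 4) (χ : L → V5), NCs (↑Z : Set L) χ (flg α β k m.succ) (flg α β k m.castSucc) →
    NCs (↑Z : Set L) χ α β) ∧
  (∀ ρ : L → V5, IsV (↑Z : Set L) ρ →
    (ρ k = V5.o → ¬ NCs (↑Z : Set L) ρ (flg α β k 1) (flg α β k 0) ∧
      ¬ NCs (↑Z : Set L) ρ (flg α β k 3) (flg α β k 2)) ∧
    (ρ k = V5.i → ¬ NCs (↑Z : Set L) ρ (flg α β k 2) (flg α β k 1) ∧
      ¬ NCs (↑Z : Set L) ρ (flg α β k 4) (flg α β k 3))) ∧
  ∀ χ : L → V5, NCs (↑Z : Set L) χ α β →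
    ∃ m : Fin 4, NCs (↑Z : Set L) χ (flg α β k m.succ) (flg α β k m.castSucc)

/-- (10)(c), in `K` -/
def Stmt_FLK : Prop :=
  ∀ (L : Type) [Lattice L], AllExt L → ∀ (D : KData L) (r : D.K → D.K → Prop), IsCon r →
  ∀ (k : L) (α β : Tm L), α.Over Set.univ → β.Over Set.univ →
  (InC D r α β ↔ ∀ m : Fin 4, InC D r (flg α β k m.succ) (flg α β k m.castSucc))

/-- (10)(c), refinement -/
def Stmt_REF : Prop :=
  ∀ (L : Type) [Lattice L], AllExt L → ∀ (D : KData L) (r : D.K → D.K → Prop), IsCon r →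
  ∀ (Z : Finset L) (α β : Tm L), α.Over (↑Z : Set L) → β.Over (↑Z : Set L) →
  ∃ l : List (Tm L × Tm L),
    (∀ p ∈ l, p.1.Over (↑Z : Set L) ∧ p.2.Over (↑Z : Set L) ∧
      p.1.vars ∪ p.2.vars ⊆ α.vars ∪ β.vars ∧
      (∃ χ₀ : L → V5, IsV (↑Z : Set L) χ₀ ∧ ∀ ρ : L → V5, IsV (↑Z : Set L) ρ →
        ¬ Set.EqOn ρ χ₀ ↑Z → ¬ NCs (↑Z : Set L) ρ p.1 p.2) ∧
      (∀ χ : L → V5, NCs (↑Z : Set L) χ p.1 p.2 → NCs (↑Z : Set L) χ α β) ∧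
      (InC D r α β → InC D r p.1 p.2)) ∧
    ((∀ p ∈ l, InC D r p.1 p.2) → InC D r α β) ∧
    ∀ χ : L → V5, NCs (↑Z : Set L) χ α β → ∃ p ∈ l, NCs (↑Z : Set L) χ p.1 p.2

/-- `T_χ(j) ∈ Θ` -/
def TIn {L : Type} [Lattice L] (D : KData L) (r : D.K → D.K → Prop) (Z : Finset L)
    (χ : L → V5) (j : Lab L) : Prop :=
  (IsV (↑Z : Set L) χ → χ j.1 = V5.o → χ j.2.1 = V5.i →
    InC D r (.T1 Z χ j) (.T0 Z χ j)) ∧
  (Hit (↑Z : Set L) χ → χ j.1 = V5.a → χ j.2.1 = V5.c → InC D r (.U1 Z χ j) .bot)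

/-- `T_χ(j) ∈ Θ` for all `j` outside a finite set -/
def TEv {L : Type} [Lattice L] (D : KData L) (r : D.K → D.K → Prop) (Z : Finset L)
    (χ : L → V5) : Prop :=
  ∃ F0 : Finset (Lab L), ∀ j : Lab L, j ∉ F0 → LOver (↑Z : Set L) j → TIn D r Z χ j

/-- (10)(a) -/
def Stmt_KLA : Prop :=
  ∀ (L : Type) [Lattice L], AllExt L → ∀ (D : KData L) (r : D.K → D.K → Prop), IsCon r →
  ∀ (Z : Finset L) (α β : Tm L), α.Over (↑Z : Set L) → β.Over (↑Z : Set L) →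
  InC D r α β → ∀ ψ : L → V5, Hit (↑Z : Set L) ψ → NCs (↑Z : Set L) ψ α β →
  ∀ j : Lab L, j ∉ α.vars ∪ β.vars → LOver (↑Z : Set L) j → ψ j.1 = V5.a → ψ j.2.1 = V5.c →
  InC D r (.U1 Z ψ j) .bot

/-- (10)(b) -/
def Stmt_KLB : Prop :=
  ∀ (L : Type) [Lattice L], AllExt L → ∀ (D : KData L) (r : D.K → D.K → Prop), IsCon r →
  ∀ (Z : Finset L) (α β : Tm L), α.Over (↑Z : Set L) → β.Over (↑Z : Set L) →
  (∀ ρ : L → V5, IsV (↑Z : Set L) ρ → ¬ NCs (↑Z : Set L) ρ α β) →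
  (∀ ψ : L → V5, Hit (↑Z : Set L) ψ → NCs (↑Z : Set L) ψ α β → TEv D r Z ψ) →
  InC D r α β

/-- (10)(d) -/
def Stmt_KLD : Prop :=
  ∀ (L : Type) [Lattice L], AllExt L → ∀ (D : KData L) (r : D.K → D.K → Prop), IsCon r →
  ∀ (Z : Finset L) (α β : Tm L), α.Over (↑Z : Set L) → β.Over (↑Z : Set L) →
  InC D r α β → ∀ ρ : L → V5, IsV (↑Z : Set L) ρ → NCs (↑Z : Set L) ρ α β →
  ∀ j : Lab L, j ∉ α.vars ∪ β.vars → LOver (↑Z : Set L) j → ρ j.1 = V5.o → ρ j.2.1 = V5.i →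
  InC D r (.T1 Z ρ j) (.T0 Z ρ j)

/-- (10)(e) -/
def Stmt_KLE : Prop :=
  ∀ (L : Type) [Lattice L], AllExt L → ∀ (D : KData L) (r : D.K → D.K → Prop), IsCon r →
  ∀ (Z : Finset L) (α β : Tm L), α.Over (↑Z : Set L) → β.Over (↑Z : Set L) →
  (∀ χ : L → V5, NCs (↑Z : Set L) χ α β → TEv D r Z χ) → InC D r α β

/-- (a) and (d) together -/
def Stmt_KL1 : Prop :=
  ∀ (L : Type) [Lattice L], AllExt L → ∀ (D : KData L) (r : D.K → D.K → Prop), IsCon r →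
  ∀ (Z : Finset L) (α β : Tm L), α.Over (↑Z : Set L) → β.Over (↑Z : Set L) →
  InC D r α β → ∀ χ : L → V5, NCs (↑Z : Set L) χ α β → TEv D r Z χ

/-- limits of types (ultrafilter on the finite subsets of `L`) -/
def Stmt_ULB : Prop :=
  ∀ (L : Type) [Lattice L] (Z₀ : Finset L) (χ : Finset L → L → V5),
  (∀ Z : Finset L, Z₀ ⊆ Z → ∃ φ : L → V5, IsHom φ ∧ Rel (↑Z : Set L) (χ Z) φ) →
  ∃ φ : L → V5, IsHom φ ∧
    ((∀ Z₁ : Finset L, ∃ Z : Finset L, Z₁ ⊆ Z ∧ Z₀ ⊆ Z ∧ IsV (↑Z : Set L) (χ Z) ∧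
      Set.EqOn (χ Z) φ ↑Z₁) ∨
    (∀ Z₁ : Finset L, ∃ Z : Finset L, Z₁ ⊆ Z ∧ Z₀ ⊆ Z ∧ Hit (↑Z : Set L) (χ Z) ∧
      Set.EqOn (χ Z) φ ↑Z₁))

/-- (11) -/
def Stmt_ULT : Prop :=
  ∀ (L : Type) [Lattice L], AllExt L → ∀ (D : KData L) (r : D.K → D.K → Prop), IsCon r →
  ∀ α β : Tm L, α.Over Set.univ → β.Over Set.univ →
  (∀ φ : L → V5, IsPt φ → NCs Set.univ φ α β →
    ∃ α' β' : Tm L, α'.Over Set.univ ∧ β'.Over Set.univ ∧ InC D r α' β' ∧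
      NCs Set.univ φ α' β') → InC D r α β

/-- isolation of points, for the surjectivity in (12) -/
def Stmt_FIA : Prop :=
  ∀ (L : Type) [Lattice L], AllExt L → ∀ φ : L → V5, IsPt φ → ∀ α β : Tm L,
  α.Over Set.univ → β.Over Set.univ → NCs Set.univ φ α β →
  ∃ x y : L, x ≤ y ∧ φ x ≠ φ y ∧
    ∀ φ' : L → V5, IsPt φ' → φ' x ≠ φ' y → NCs Set.univ φ' α β

/-- the congruence of `K` belonging to a set of points -/
def Stmt_FIB : Prop :=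
  ∀ (L : Type) [Lattice L], AllExt L → ∀ (D : KData L) (T : Set (L → V5)),
  (∀ φ ∈ T, IsPt φ) → ∃ r : D.K → D.K → Prop, IsCon r ∧
    ∀ α β : Tm L, α.Over Set.univ → β.Over Set.univ →
      (r (D.q α) (D.q β) ↔ ∀ φ ∈ T, ¬ NCs Set.univ φ α β ∧ ¬ NCs Set.univ φ β α)

/-- points separate congruences from pairs -/
def SepL (L : Type) [Lattice L] : Prop :=
  ∀ θ : L → L → Prop, IsCon θ → ∀ x y, ¬ θ x y →
  ∃ φ : L → V5, IsPt φ ∧ (∀ u v, θ u v → φ u = φ v) ∧ φ x ≠ φ y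

/-- (1.1) for the hypothesis of S02731 (replaces PENT, JOD, JOP) -/
def Stmt_SEP : Prop :=
  ∀ (L : Type) [Lattice L] (N : Type) [Lattice N], Nat.card N = 5 → ¬ IsModularLattice N →
  ∀ (I : Type) (f : LatticeHom L (I → N)), Function.Injective f → SepL L

/-- (12) -/
def Stmt_FIN : Prop :=
  ∀ (L : Type) [Lattice L], AllExt L → SepL L → ∀ D : KData L,
  Nonempty ({r : L → L → Prop // IsCon r} ≃o {r : D.K → D.K → Prop // IsCon r})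

/-- the frozen statement -/
def Stmt_MAIN : Prop :=
  ∀ (L : Type) [Lattice L],
    (∃ (N : Type) (_ : Lattice N), Nat.card N = 5 ∧ ¬ IsModularLattice N ∧
      ∃ (I : Type) (f : LatticeHom L (I → N)), Function.Injective f) →
    ∃ (K : Type) (_ : Lattice K), IsModularLattice K ∧
      Nonempty
        ({r : L → L → Prop // Equivalence r ∧
            ∀ a b c d : L, r a b → r c d → r (a ⊔ c) (b ⊔ d) ∧ r (a ⊓ c) (b ⊓ d)} ≃o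
         {r : K → K → Prop // Equivalence r ∧
            ∀ a b c d : K, r a b → r c d → r (a ⊔ c) (b ⊔ d) ∧ r (a ⊓ c) (b ⊓ d)})

end Pool.NF
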