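import Pool.Agent.Work.MP_b103ef_pos.Interface1

/-!
# MP_b103ef_al (S02731): block PENT

A nonmodular lattice with five elements is the pentagon.
-/

set_option autoImplicit false

open Classical

namespace Pool.NF

/-- the embedding of the pentagon -/
private def pentMap {N : Type} (o a b c i : N) : V5 → N
  | .o => o | .a => a | .b => b | .c => c | .i => i

private theorem v5_le_iff (x y : V5) : x ≤ y ↔ V5.sup' x y = y := Iff.rfl

private theorem pentMap_le {N : Type} [Lattice N] {o a b c i : N} (hoa : o ≤ a) (hab : a ≤ b)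
    (hbi : b ≤ i) (hoc : o ≤ c) (hci : c ≤ i) (hac : ¬ a ≤ c) (hcb : ¬ c ≤ b) (hba : ¬ b ≤ a)
    (x y : V5) : pentMap o a b c i x ≤ pentMap o a b c i y ↔ x ≤ y := by
  have hob : o ≤ b := hoa.trans hab
  have hoi : o ≤ i := hob.trans hbi
  have hai : a ≤ i := hab.trans hbi
  have hao : ¬ a ≤ o := fun h => hac (h.trans hoc)
  have hbo : ¬ b ≤ o := fun h => hao (hab.trans h)
  have hco : ¬ c ≤ o := fun h => hcb (h.trans hob)
  have hio : ¬ i ≤ o := fun h => hao (hai.trans h)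
  have hca : ¬ c ≤ a := fun h => hcb (h.trans hab)
  have hia : ¬ i ≤ a := fun h => hca (hci.trans h)
  have hib : ¬ i ≤ b := fun h => hcb (hci.trans h)
  have hbc : ¬ b ≤ c := fun h => hac (hab.trans h)
  have hic : ¬ i ≤ c := fun h => hac (hai.trans h)
  rw [v5_le_iff]
  cases x <;> cases y <;> simp [pentMap, V5.sup', *]

theorem pent : Stmt_PENT := by
  intro N _ hcard hmod
  have h1 : ∃ x y z : N, x ≤ z ∧ ¬ (x ⊔ y) ⊓ z ≤ x ⊔ y ⊓ z := by
    by_contra hcon
    push Not at hcon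
    exact hmod ⟨fun {x} y {z} hxz => hcon x y z hxz⟩
  obtain ⟨x, y, z, hxz, hn⟩ := h1
  have ha : x ⊔ y ⊓ z ≤ (x ⊔ y) ⊓ z :=
    sup_le (le_inf le_sup_left hxz) (le_inf (inf_le_left.trans le_sup_right) inf_le_right)
  have hle := pentMap_le (o := y ⊓ z) (a := x ⊔ y ⊓ z) (b := (x ⊔ y) ⊓ z) (c := y) (i := x ⊔ y)
    le_sup_right ha inf_le_left inf_le_left le_sup_right
    (fun h => hn (by
      have hxy : x ≤ y := le_sup_left.trans h
      calc (x ⊔ y) ⊓ z = y ⊓ z := by rw [sup_eq_right.2 hxy]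
        _ ≤ x ⊔ y ⊓ z := le_sup_right))
    (fun h => hn (by
      have hyz : y ≤ z := h.trans inf_le_right
      calc (x ⊔ y) ⊓ z ≤ x ⊔ y := inf_le_left
        _ = x ⊔ y ⊓ z := by rw [inf_eq_left.2 hyz])) hn
  let f : V5 ↪o N := OrderEmbedding.ofMapLEIff
    (pentMap (y ⊓ z) (x ⊔ y ⊓ z) ((x ⊔ y) ⊓ z) y (x ⊔ y)) hle
  have hfin : Finite N := Nat.finite_of_card_ne_zero (by omega)
  have hV : Nat.card V5 = 5 := by
    rw [Nat.card_eq_fintype_card]; rfl
  have hbij : Function.Bijective f := by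
    rw [Nat.bijective_iff_injective_and_card]
    exact ⟨f.injective, by omega⟩
  exact ⟨(RelIso.ofSurjective f hbij.2).symm⟩

end Pool.NF
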